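import Pool.Agent.SYM.StT

/-!
# Symmetric spaces: Abel summation in several variables
-/

namespace SYM

open STZ LGR MeasureTheory Matrix Filter

open scoped ComplexConjugate Matrix Real Topology

noncomputable section

namespace ABEV

theorem va_nonneg (a : ℤ) (n : ℕ) (g : ℤ → ℂ) : 0 ≤ va a n g := by
  unfold va
  positivity

theorem sum_Ico (z : ℤ) (m : ℕ) (G : ℤ → ℂ) :
    ∑ x ∈ Finset.Ico z (z + m), G x = ∑ j ∈ Finset.range m, G (z + j) := by
  induction m with
  | zero => simp
  | succ m ih =>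
    rw [Finset.sum_range_succ, ← ih]
    have h : Finset.Ico z (z + ((m + 1 : ℕ) : ℤ)) = insert (z + (m : ℤ)) (Finset.Ico z (z + m)) := by
      ext x
      simp only [Finset.mem_Ico, Finset.mem_insert]
      push_cast
      omega
    rw [h, Finset.sum_insert (by simp), add_comm]

theorem parts (z : ℤ) (k : ℕ) (G g : ℤ → ℂ) :
    ∑ j ∈ Finset.range (k + 1), G (z + j) * g (z + j) =
      (∑ j ∈ Finset.range (k + 1), G (z + j)) * g (z + k) -
      ∑ j ∈ Finset.range k, (∑ i ∈ Finset.range (j + 1), G (z + i)) * (g (z + j + 1) - g (z + j)) := by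
  induction k with
  | zero => simp
  | succ k ih =>
    rw [Finset.sum_range_succ, ih, Finset.sum_range_succ _ (k + 1),
      Finset.sum_range_succ (fun j : ℕ => (∑ i ∈ Finset.range (j + 1), G (z + i)) *
        (g (z + j + 1) - g (z + j))) k]
    push_cast
    rw [show z + ((k : ℤ) + 1) = z + k + 1 by ring]
    ring

theorem one (z : ℤ) (n : ℕ) (G g : ℤ → ℂ) (B : ℝ) (hB : 0 ≤ B)
    (h : ∀ m : ℕ, m ≤ n → ‖∑ x ∈ Finset.Ico z (z + m), G x‖ ≤ B) :
    ‖∑ x ∈ Finset.Ico z (z + n), G x * g x‖ ≤ B * va z n g := by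
  rcases n with _ | k
  · simpa using mul_nonneg hB (va_nonneg z 0 g)
  rw [sum_Ico z (k + 1) (fun x => G x * g x), parts]
  have h' : ∀ m : ℕ, m ≤ k + 1 → ‖∑ j ∈ Finset.range m, G (z + j)‖ ≤ B := by
    intro m hm
    rw [← sum_Ico z m G]
    exact h m hm
  unfold va
  rw [mul_add, Nat.add_sub_cancel]
  refine (norm_sub_le _ _).trans (add_le_add ?_ ?_)
  · rw [norm_mul]
    rw [show z + ((k + 1 : ℕ) : ℤ) - 1 = z + k by push_cast; ring]
    exact mul_le_mul_of_nonneg_right (h' _ le_rfl) (norm_nonneg _)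
  · rw [Finset.mul_sum]
    refine (norm_sum_le _ _).trans (Finset.sum_le_sum fun j hj => ?_)
    rw [norm_mul]
    exact mul_le_mul_of_nonneg_right (h' _ (by rw [Finset.mem_range] at hj; omega)) (norm_nonneg _)

theorem sum_bxn {r : ℕ} (z : Fin (r + 1) → ℤ) (n : Fin (r + 1) → ℕ) (F : (Fin (r + 1) → ℤ) → ℂ) :
    ∑ x ∈ bxn z n, F x = ∑ y ∈ bxn (fun i => z i.succ) (fun i => n i.succ),
      ∑ a ∈ Finset.Ico (z 0) (z 0 + n 0), F (Fin.cons a y) := by
  rw [← Finset.sum_product']
  refine Finset.sum_bij' (fun x _ => (fun i => x i.succ, x 0)) (fun p _ => Fin.cons p.2 p.1) ?_ ?_ ?_ ?_ ?_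
  · intro x hx
    simp only [bxn, Fintype.mem_piFinset, Finset.mem_product] at hx ⊢
    exact ⟨fun i => hx i.succ, hx 0⟩
  · intro p hp
    simp only [bxn, Fintype.mem_piFinset, Finset.mem_product] at hp ⊢
    intro i
    refine Fin.cases ?_ (fun i => ?_) i
    · simpa using hp.2
    · simpa using hp.1 i
  · intro x hx
    exact Fin.cons_self_tail x
  · intro p hp
    simp
  · intro x hx
    congr 1
    exact (Fin.cons_self_tail x).symm

end ABEV

theorem t_ABEV : S_ABEV := by
  intro r
  induction r with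
  | zero =>
    intro z n B f g hB h
    have h0 := h n (fun i => le_rfl)
    simpa using h0
  | succ r ih =>
    intro z n B f g hB h
    set z' : Fin r → ℤ := fun i => z i.succ
    set n' : Fin r → ℕ := fun i => n i.succ
    have key := ih z' n' (B * va (z 0) (n 0) (g 0))
      (fun y => ∑ a ∈ Finset.Ico (z 0) (z 0 + n 0), f (Fin.cons a y) * g 0 a)
      (fun i => g i.succ) (mul_nonneg hB (ABEV.va_nonneg _ _ _)) ?_
    · rw [Fin.prod_univ_succ, ← mul_assoc]
      refine le_trans (le_of_eq ?_) key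
      rw [ABEV.sum_bxn]
      congr 1
      refine Finset.sum_congr rfl fun y _ => ?_
      rw [Finset.sum_mul]
      refine Finset.sum_congr rfl fun a _ => ?_
      rw [Fin.prod_univ_succ]
      simp only [Fin.cons_zero, Fin.cons_succ]
      ring
    · intro m hm
      rw [Finset.sum_comm]
      have e1 : ∀ a : ℤ, ∑ y ∈ bxn z' m, f (Fin.cons a y) * g 0 a =
          (∑ y ∈ bxn z' m, f (Fin.cons a y)) * g 0 a := fun a => by rw [Finset.sum_mul]
      simp only [e1]
      refine ABEV.one (z 0) (n 0) (fun a => ∑ y ∈ bxn z' m, f (Fin.cons a y)) (g 0) B hB ?_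
      intro m0 hm0
      have h1 := h (Fin.cons m0 m) (by
        intro i
        refine Fin.cases ?_ (fun i => ?_) i
        · simpa using hm0
        · simpa using hm i)
      rw [ABEV.sum_bxn] at h1
      simp only [Fin.cons_zero, Fin.cons_succ] at h1
      rw [Finset.sum_comm] at h1
      exact h1

end

end SYM
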