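import Pool.Agent.SYM.StU

/-!
# The level sets of `WW N c`
-/

namespace SYM

open STZ LGR MeasureTheory Matrix Filter Set

open scoped ComplexConjugate Matrix Real Topology

noncomputable section

namespace ARCS

theorem eu_cont : Continuous eu := by
  unfold eu
  fun_prop

theorem norm_eu (x : ℝ) : ‖eu x‖ = 1 := by
  have h : eu x = Complex.exp (((2 * π * x : ℝ) : ℂ) * Complex.I) := by
    rw [eu]
    congr 1
    push_cast
    ring
  rw [h, Complex.norm_exp_ofReal_mul_I]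

/-- the Fourier coefficients of `1` -/
theorem int_eu (j : ℤ) (hj : j ≠ 0) : ∫ t in (0 : ℝ)..1, eu (-(j * t)) = 0 := by
  have hc : (-(2 * π * j * Complex.I) : ℂ) ≠ 0 := by
    have h1 : (π : ℂ) ≠ 0 := by exact_mod_cast Real.pi_ne_zero
    have h2 : (j : ℂ) ≠ 0 := by exact_mod_cast hj
    simp [h1, h2, Complex.I_ne_zero]
  have h : ∀ t : ℝ, eu (-(j * t)) = Complex.exp ((-(2 * π * j * Complex.I) : ℂ) * t) := by
    intro t
    rw [eu]
    congr 1
    push_cast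
    ring
  simp only [h]
  rw [integral_exp_mul_complex hc]
  have h1 : Complex.exp ((-(2 * π * j * Complex.I) : ℂ) * ((1 : ℝ) : ℂ)) = 1 := by
    have := Complex.exp_int_mul_two_pi_mul_I (-j)
    rw [← this]
    congr 1
    push_cast
    ring
  rw [h1]
  simp

/-- integrability of a cutoff with a character -/
theorem integ {χ : ℝ → ℝ} (h : TC χ) (j : ℤ) :
    IntervalIntegrable (fun t => (χ t : ℂ) * eu (-(j * t))) volume 0 1 := by
  rw [intervalIntegrable_iff_integrableOn_Ioc_of_le zero_le_one]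
  have hm : Measurable fun t : ℝ => (χ t : ℂ) * eu (-(j * t)) := by
    apply Measurable.mul
    · exact Complex.measurable_ofReal.comp h.meas
    · exact (eu_cont.comp (by fun_prop)).measurable
  refine Measure.integrableOn_of_bounded (M := 1) (by simp) hm.aestronglyMeasurable ?_
  filter_upwards with t
  rw [norm_mul, norm_eu, mul_one, Complex.norm_real, Real.norm_of_nonneg (h.nn t)]
  exact h.le t

/-- integrability of a cutoff -/
theorem integR {χ : ℝ → ℝ} (h : TC χ) : IntervalIntegrable χ volume 0 1 := by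
  rw [intervalIntegrable_iff_integrableOn_Ioc_of_le zero_le_one]
  refine Measure.integrableOn_of_bounded (M := 1) (by simp) h.meas.aestronglyMeasurable ?_
  filter_upwards with t
  rw [Real.norm_of_nonneg (h.nn t)]
  exact h.le t

theorem tc_sub {f g : ℝ → ℝ} (hf : TC f) (hg : TC g) (h : ∀ t, g t ≤ f t) :
    TC fun t => f t - g t where
  meas := hf.meas.sub hg.meas
  per t := by simp only [hf.per, hg.per]
  even t := by simp only [hf.even, hg.even]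
  nn t := sub_nonneg.mpr (h t)
  le t := by
    have := hf.le t
    have := hg.nn t
    linarith

theorem tc_one : TC fun _ => (1 : ℝ) where
  meas := measurable_const
  per _ := rfl
  even _ := rfl
  nn _ := zero_le_one
  le _ := le_rfl

/-- the Fourier coefficients of a difference -/
theorem four_sub {f g : ℝ → ℝ} (hf : TC f) (hg : TC g) (j : ℤ) (A B : ℝ)
    (h1 : ‖∫ t in (0 : ℝ)..1, (f t : ℂ) * eu (-(j * t))‖ ≤ A)
    (h2 : ‖∫ t in (0 : ℝ)..1, (g t : ℂ) * eu (-(j * t))‖ ≤ B) :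
    ‖∫ t in (0 : ℝ)..1, ((f t - g t : ℝ) : ℂ) * eu (-(j * t))‖ ≤ A + B := by
  have e : ∫ t in (0 : ℝ)..1, ((f t - g t : ℝ) : ℂ) * eu (-(j * t)) =
      (∫ t in (0 : ℝ)..1, (f t : ℂ) * eu (-(j * t))) - ∫ t in (0 : ℝ)..1, (g t : ℂ) * eu (-(j * t)) := by
    rw [← intervalIntegral.integral_sub (integ hf j) (integ hg j)]
    congr 1
    ext t
    push_cast
    ring
  rw [e]
  exact (norm_sub_le _ _).trans (add_le_add h1 h2)

/-- the norm of the integral of a cutoff -/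
theorem int_le {f g : ℝ → ℝ} (hf : TC f) (hg : TC g) (h : ∀ t, f t ≤ g t) (A : ℝ)
    (hA : ∫ t in (0 : ℝ)..1, g t ≤ A) : ‖∫ t in (0 : ℝ)..1, (f t : ℂ)‖ ≤ A := by
  have e : ∫ t in (0 : ℝ)..1, (f t : ℂ) = ((∫ t in (0 : ℝ)..1, f t : ℝ) : ℂ) :=
    intervalIntegral.integral_ofReal
  rw [e, Complex.norm_real, Real.norm_of_nonneg]
  · refine le_trans ?_ hA
    exact intervalIntegral.integral_mono_on zero_le_one (integR hf) (integR hg) fun t _ => h t
  · exact intervalIntegral.integral_nonneg zero_le_one fun t _ => hf.nn t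

/-! ### arcs -/

theorem ar_mono {X₀ X : ℕ} {P P' : ℝ} (h : P ≤ P') : ar X₀ X P ⊆ ar X₀ X P' := by
  rintro t ⟨ρ, h1, h2, h3⟩
  refine ⟨ρ, h1, h2, h3.trans_le ?_⟩
  exact div_le_div_of_nonneg_right h (Nat.cast_nonneg _)

theorem ai_mono {X₀ X : ℕ} {P P' : ℝ} (h : P ≤ P') (t : ℝ) : ai X₀ X P t ≤ ai X₀ X P' t := by
  unfold ai
  exact Set.indicator_le_indicator_of_subset (ar_mono h) (fun _ => zero_le_one) t

/-- different fractions have a distance -/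
theorem rat_dist {ρ ρ' : ℚ} (h : ρ ≠ ρ') : 1 ≤ |(ρ : ℝ) - ρ'| * (ρ.den * ρ'.den) := by
  have h1 : (0 : ℝ) < ρ.den := by exact_mod_cast ρ.pos
  have h2 : (0 : ℝ) < ρ'.den := by exact_mod_cast ρ'.pos
  have e : ((ρ : ℝ) - ρ') * (ρ.den * ρ'.den) = ((ρ.num * ρ'.den - ρ'.num * ρ.den : ℤ) : ℝ) := by
    have e1 : (ρ : ℝ) = (ρ.num : ℝ) / ρ.den := Rat.cast_def ρ
    have e2 : (ρ' : ℝ) = (ρ'.num : ℝ) / ρ'.den := Rat.cast_def ρ'
    rw [e1, e2]
    push_cast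
    field_simp
  have h3 : (ρ.num * ρ'.den - ρ'.num * ρ.den : ℤ) ≠ 0 := by
    intro h0
    apply h
    have : ((ρ : ℝ) - ρ') * (ρ.den * ρ'.den) = 0 := by
      rw [e, h0]
      simp
    have h4 : ((ρ : ℝ) - ρ') = 0 := by
      rcases mul_eq_zero.mp this with h5 | h5
      · exact h5
      · exact absurd h5 (by positivity)
    have h5 : (ρ : ℝ) = ρ' := by linarith
    exact_mod_cast h5
  have h4 : (1 : ℝ) ≤ |((ρ.num * ρ'.den - ρ'.num * ρ.den : ℤ) : ℝ)| := by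
    have := Int.one_le_abs h3
    exact_mod_cast this
  rw [← e, abs_mul, abs_of_pos (mul_pos h1 h2)] at h4
  exact h4

theorem ar_disj {X₀ X : ℕ} {P : ℝ} (hP : 0 < P) (hX : X₀ ≤ X) (h : 2 * P * X ≤ 1) {t : ℝ}
    (h1 : t ∈ ar 0 X₀ P) (h2 : t ∈ ar X₀ X P) : False := by
  obtain ⟨ρ, a1, a2, a3⟩ := h1
  obtain ⟨ρ', b1, b2, b3⟩ := h2
  have hne : ρ ≠ ρ' := by
    rintro rfl
    omega
  have hd := rat_dist hne
  have h3 : (0 : ℝ) < ρ.den := by exact_mod_cast ρ.pos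
  have h4 : (0 : ℝ) < ρ'.den := by exact_mod_cast ρ'.pos
  have h5 : |(ρ : ℝ) - ρ'| < P / ρ.den + P / ρ'.den := by
    have e : (ρ : ℝ) - ρ' = (t - ρ') - (t - ρ) := by ring
    rw [e]
    refine (abs_sub _ _).trans_lt ?_
    linarith
  have h6 : |(ρ : ℝ) - ρ'| * (ρ.den * ρ'.den) < (P / ρ.den + P / ρ'.den) * (ρ.den * ρ'.den) :=
    mul_lt_mul_of_pos_right h5 (mul_pos h3 h4)
  have h7 : (P / ρ.den + P / ρ'.den) * (ρ.den * ρ'.den) = P * (ρ'.den + ρ.den) := by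
    field_simp
  rw [h7] at h6
  have h8 : (ρ.den : ℝ) ≤ X := by
    have : ρ.den ≤ X := a2.trans hX
    exact_mod_cast this
  have h9 : (ρ'.den : ℝ) ≤ X := by exact_mod_cast b2
  nlinarith

theorem ai_split {X₀ X : ℕ} {P : ℝ} (hP : 0 < P) (hX : X₀ ≤ X) (h : 2 * P * X ≤ 1) (t : ℝ) :
    ai 0 X P t = ai 0 X₀ P t + ai X₀ X P t := by
  unfold ai
  by_cases h1 : t ∈ ar 0 X₀ P
  · have h2 : t ∉ ar X₀ X P := fun h2 => ar_disj hP hX h h1 h2
    have h3 : t ∈ ar 0 X P := by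
      obtain ⟨ρ, a1, a2, a3⟩ := h1
      exact ⟨ρ, a1, a2.trans hX, a3⟩
    rw [Set.indicator_of_mem h1, Set.indicator_of_notMem h2, Set.indicator_of_mem h3, add_zero]
  · by_cases h2 : t ∈ ar X₀ X P
    · have h3 : t ∈ ar 0 X P := by
        obtain ⟨ρ, a1, a2, a3⟩ := h2
        exact ⟨ρ, by omega, a2, a3⟩
      rw [Set.indicator_of_notMem h1, Set.indicator_of_mem h2, Set.indicator_of_mem h3, zero_add]
    · have h3 : t ∉ ar 0 X P := by
        rintro ⟨ρ, a1, a2, a3⟩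
        by_cases h4 : ρ.den ≤ X₀
        · exact h1 ⟨ρ, a1, h4, a3⟩
        · exact h2 ⟨ρ, by omega, a2, a3⟩
      rw [Set.indicator_of_notMem h1, Set.indicator_of_notMem h2, Set.indicator_of_notMem h3, add_zero]

/-! ### the lengths -/

/-- the numbers `P i` -/
def pp (c N i : ℕ) : ℝ := 1 / (2 ^ i * (4 * c * N))

section

variable {c N : ℕ} (hc : 1 ≤ c) (hN : 1 ≤ N)

include hc hN

theorem pp_pos (i : ℕ) : 0 < pp c N i := by
  have h1 : (1 : ℝ) ≤ c := by exact_mod_cast hc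
  have h2 : (1 : ℝ) ≤ N := by exact_mod_cast hN
  unfold pp
  positivity

omit hc hN in
theorem pp_succ (i : ℕ) : pp c N (i + 1) = pp c N i / 2 := by
  unfold pp
  rw [pow_succ, div_div]
  congr 1
  ring

theorem pp_anti {i j : ℕ} (h : i ≤ j) : pp c N j ≤ pp c N i := by
  have h1 : (1 : ℝ) ≤ c := by exact_mod_cast hc
  have h2 : (1 : ℝ) ≤ N := by exact_mod_cast hN
  unfold pp
  apply one_div_le_one_div_of_le (by positivity)
  apply mul_le_mul_of_nonneg_right _ (by positivity)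
  exact pow_le_pow_right₀ one_le_two h

theorem pp_two (i : ℕ) : 2 * pp c N i * ((2 * c * N : ℕ) : ℝ) ≤ 1 := by
  have h1 : (1 : ℝ) ≤ c := by exact_mod_cast hc
  have h2 : (1 : ℝ) ≤ N := by exact_mod_cast hN
  have h3 := pp_anti hc hN (Nat.zero_le i)
  have h4 : 2 * pp c N 0 * ((2 * c * N : ℕ) : ℝ) = 1 := by
    unfold pp
    push_cast
    field_simp
    norm_num
  have h5 : (0 : ℝ) ≤ ((2 * c * N : ℕ) : ℝ) := Nat.cast_nonneg _
  nlinarith

theorem pp_le (i : ℕ) : pp c N i ≤ 1 / N := by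
  have h1 : (1 : ℝ) ≤ c := by exact_mod_cast hc
  have h2 : (1 : ℝ) ≤ N := by exact_mod_cast hN
  have h3 := pp_anti hc hN (Nat.zero_le i)
  refine h3.trans ?_
  unfold pp
  apply one_div_le_one_div_of_le (by linarith)
  rw [pow_zero, one_mul]
  nlinarith

theorem pp_zero : 1 ≤ 4 * c * (N * pp c N 0) := by
  have h1 : (1 : ℝ) ≤ c := by exact_mod_cast hc
  have h2 : (1 : ℝ) ≤ N := by exact_mod_cast hN
  apply le_of_eq
  unfold pp
  field_simp

/-- large indices -/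
theorem pp_up (η : ℝ) (h0 : 0 < η) : pp c N ⌈2 * Real.log N⌉₊ ≤ (N : ℝ) ^ (-2 + η) := by
  have hcR : (1 : ℝ) ≤ c := by exact_mod_cast hc
  have hNR : (1 : ℝ) ≤ N := by exact_mod_cast hN
  have hN0 : (0 : ℝ) < N := by linarith
  have hlog : 0 ≤ Real.log N := Real.log_nonneg hNR
  have hlow : (N : ℝ) ^ (-2 : ℝ) ≤ (N : ℝ) ^ (-2 + η) :=
    Real.rpow_le_rpow_of_exponent_le hNR (by linarith)
  have hlow2 : (N : ℝ) ^ (-2 : ℝ) = 1 / (N : ℝ) ^ 2 := by
    rw [Real.rpow_neg hN0.le, one_div]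
    norm_num
  refine le_trans ?_ hlow
  rw [hlow2]
  unfold pp
  apply one_div_le_one_div_of_le (by positivity)
  have h2 : (N : ℝ) ≤ 2 ^ ⌈2 * Real.log N⌉₊ := by
    have h3 : 2 * Real.log N ≤ (⌈2 * Real.log N⌉₊ : ℝ) := Nat.le_ceil _
    have h4 : (2 : ℝ) ^ ⌈2 * Real.log N⌉₊ = Real.exp (Real.log 2 * (⌈2 * Real.log N⌉₊ : ℝ)) := by
      rw [← Real.rpow_natCast, Real.rpow_def_of_pos two_pos]
    rw [h4]
    calc (N : ℝ) = Real.exp (Real.log N) := (Real.exp_log hN0).symm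
      _ ≤ _ := by
        apply Real.exp_le_exp.mpr
        have := Real.log_two_gt_d9
        nlinarith
  have h3 : (1 : ℝ) ≤ 4 * c := by linarith
  calc (N : ℝ) ^ 2 = N * (1 * N) := by ring
    _ ≤ 2 ^ ⌈2 * Real.log N⌉₊ * (4 * c * N) := by
      apply mul_le_mul h2 _ (by positivity) (by positivity)
      exact mul_le_mul_of_nonneg_right h3 hN0.le

/-- the smallest index -/
theorem ex_I (η : ℝ) (h0 : 0 < η) (h1 : η ≤ 1) : ∃ I : ℕ, (I : ℝ) ≤ 1 + 2 * Real.log N ∧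
    pp c N I ≤ (N : ℝ) ^ (-2 + η) ∧ (N : ℝ) ^ (-2 + η) ≤ 4 * c * pp c N I := by
  have hcR : (1 : ℝ) ≤ c := by exact_mod_cast hc
  have hNR : (1 : ℝ) ≤ N := by exact_mod_cast hN
  have hN0 : (0 : ℝ) < N := by linarith
  have hlog : 0 ≤ Real.log N := Real.log_nonneg hNR
  have hex : ∃ i : ℕ, pp c N i ≤ (N : ℝ) ^ (-2 + η) := ⟨_, pp_up hc hN η h0⟩
  classical
  set I := Nat.find hex with hI
  have hI1 : pp c N I ≤ (N : ℝ) ^ (-2 + η) := Nat.find_spec hex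
  have hI2 : I ≤ ⌈2 * Real.log N⌉₊ := Nat.find_min' hex (pp_up hc hN η h0)
  refine ⟨I, ?_, hI1, ?_⟩
  · have h2 : (I : ℝ) ≤ (⌈2 * Real.log N⌉₊ : ℝ) := by exact_mod_cast hI2
    have h3 := Nat.ceil_lt_add_one (by positivity : 0 ≤ 2 * Real.log N)
    linarith
  · rcases Nat.eq_zero_or_pos I with h | h
    · rw [h]
      have h2 : (N : ℝ) ^ (-2 + η) ≤ 1 / N := by
        calc (N : ℝ) ^ (-2 + η) ≤ (N : ℝ) ^ (-1 : ℝ) :=
              Real.rpow_le_rpow_of_exponent_le hNR (by linarith)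
          _ = 1 / N := by rw [Real.rpow_neg hN0.le, Real.rpow_one, one_div]
      refine h2.trans ?_
      have h3 := pp_zero hc hN
      rw [div_le_iff₀ hN0]
      linarith
    · obtain ⟨k, hk⟩ : ∃ k, I = k + 1 := ⟨I - 1, by omega⟩
      have h2 := Nat.find_min hex (m := k) (by omega)
      push Not at h2
      rw [hk, pp_succ]
      have h3 := pp_pos hc hN k
      nlinarith

end

/-- the logarithm -/
theorem log_bd (e : ℝ) (he : 0 < e) (x : ℝ) (hx : 1 ≤ x) : 1 + Real.log x ≤ (1 + 1 / e) * x ^ e := by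
  have h1 : Real.log x ≤ x ^ e / e := Real.log_le_rpow_div (by linarith) he
  have h2 : 1 ≤ x ^ e := Real.one_le_rpow hx he.le
  calc 1 + Real.log x ≤ x ^ e + x ^ e / e := add_le_add h2 h1
    _ = _ := by ring

/-- the first term of WPTG -/
theorem t1 (ε : ℝ) (hε : 0 < ε) (N : ℕ) (hN : 1 ≤ N) (P : ℝ) (hP : 0 < P) (hPN : P ≤ 1 / N) :
    N * (1 + Real.log N) ≤ (1 + 1 / ε) * ((N : ℝ) ^ ε / P) := by
  have hNR : (1 : ℝ) ≤ N := by exact_mod_cast hN
  have hN0 : (0 : ℝ) < N := by linarith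
  have h1 := log_bd ε hε N hNR
  have h2 : (N : ℝ) ≤ 1 / P := by
    rw [le_div_iff₀ hP]
    rw [le_div_iff₀ hN0] at hPN
    linarith
  have h3 : 0 ≤ (1 + 1 / ε) * (N : ℝ) ^ ε := by positivity
  calc N * (1 + Real.log N) ≤ N * ((1 + 1 / ε) * (N : ℝ) ^ ε) := mul_le_mul_of_nonneg_left h1 hN0.le
    _ ≤ 1 / P * ((1 + 1 / ε) * (N : ℝ) ^ ε) := mul_le_mul_of_nonneg_right h2 h3
    _ = _ := by ring

/-- the second term of WPTG away from the fraction -/
theorem t2 (ε γ : ℝ) (hγ : γ < 1) (hγ0 : 0 < γ) (hγε : 2 * (1 - γ) ≤ ε) (N : ℕ) (hN : 1 ≤ N)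
    (P : ℝ) (hP : 0 < P) (hPN : P ≤ 1) (q : ℕ) (hq : 1 ≤ q) (x : ℝ) (hx : P / (2 * q) ≤ x) :
    (N : ℝ) ^ 2 / q * (1 + (N : ℝ) ^ 2 * x) ^ (-γ) ≤ 2 * ((N : ℝ) ^ ε / P) := by
  have hNR : (1 : ℝ) ≤ N := by exact_mod_cast hN
  have hN0 : (0 : ℝ) < N := by linarith
  have hqR : (1 : ℝ) ≤ q := by exact_mod_cast hq
  have hq0 : (0 : ℝ) < q := by linarith
  set y : ℝ := (N : ℝ) ^ 2 * (P / (2 * q)) with hy
  have hy0 : 0 < y := by positivity
  have h1 : y ≤ 1 + (N : ℝ) ^ 2 * x := by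
    have : y ≤ (N : ℝ) ^ 2 * x := mul_le_mul_of_nonneg_left hx (by positivity)
    linarith
  have h2 : (1 + (N : ℝ) ^ 2 * x) ^ (-γ) ≤ y ^ (-γ) :=
    Real.rpow_le_rpow_of_nonpos hy0 h1 (by linarith)
  have h3 : (N : ℝ) ^ 2 / q * y ^ (-γ) = 2 / P * y ^ (1 - γ) := by
    have e1 : y ^ (1 - γ) = y * y ^ (-γ) := by
      rw [sub_eq_add_neg, Real.rpow_add hy0, Real.rpow_one]
    rw [e1, ← mul_assoc]
    congr 1
    rw [hy]
    field_simp
  have h4 : y ≤ (N : ℝ) ^ (2 : ℝ) := by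
    have e2 : (N : ℝ) ^ (2 : ℝ) = (N : ℝ) ^ 2 := by norm_num
    rw [e2, hy]
    have : P / (2 * q) ≤ 1 := by
      rw [div_le_one (by positivity)]
      linarith
    calc (N : ℝ) ^ 2 * (P / (2 * q)) ≤ (N : ℝ) ^ 2 * 1 := mul_le_mul_of_nonneg_left this (by positivity)
      _ = _ := mul_one _
  have h5 : y ^ (1 - γ) ≤ (N : ℝ) ^ ε := by
    calc y ^ (1 - γ) ≤ ((N : ℝ) ^ (2 : ℝ)) ^ (1 - γ) := Real.rpow_le_rpow hy0.le h4 (by linarith)
      _ = (N : ℝ) ^ (2 * (1 - γ)) := by rw [← Real.rpow_mul hN0.le]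
      _ ≤ (N : ℝ) ^ ε := Real.rpow_le_rpow_of_exponent_le hNR hγε
  calc (N : ℝ) ^ 2 / q * (1 + (N : ℝ) ^ 2 * x) ^ (-γ) ≤ (N : ℝ) ^ 2 / q * y ^ (-γ) :=
        mul_le_mul_of_nonneg_left h2 (by positivity)
    _ = 2 / P * y ^ (1 - γ) := h3
    _ ≤ 2 / P * (N : ℝ) ^ ε := mul_le_mul_of_nonneg_left h5 (by positivity)
    _ = _ := by ring

/-- the second term of WPTG for large denominators -/
theorem t3 (ε γ η : ℝ) (hε : 0 < ε) (hγ0 : 0 < γ) (N : ℕ) (hN : 1 ≤ N)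
    (P : ℝ) (hP : 0 < P) (hPN : P ≤ (N : ℝ) ^ (-2 + η)) (q : ℕ) (hq : (N : ℝ) ^ η ≤ q) (x : ℝ) (hx : 0 ≤ x) :
    (N : ℝ) ^ 2 / q * (1 + (N : ℝ) ^ 2 * x) ^ (-γ) ≤ 2 * ((N : ℝ) ^ ε / P) := by
  have hNR : (1 : ℝ) ≤ N := by exact_mod_cast hN
  have hN0 : (0 : ℝ) < N := by linarith
  have hη : 0 < (N : ℝ) ^ η := Real.rpow_pos_of_pos hN0 η
  have hq0 : (0 : ℝ) < q := by linarith
  have h1 : (1 + (N : ℝ) ^ 2 * x) ^ (-γ) ≤ 1 := by
    apply Real.rpow_le_one_of_one_le_of_nonpos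
    · have : 0 ≤ (N : ℝ) ^ 2 * x := by positivity
      linarith
    · linarith
  have h2 : (N : ℝ) ^ 2 / q ≤ 1 / P := by
    rw [div_le_div_iff₀ hq0 hP, one_mul]
    calc (N : ℝ) ^ 2 * P ≤ (N : ℝ) ^ 2 * (N : ℝ) ^ (-2 + η) := mul_le_mul_of_nonneg_left hPN (by positivity)
      _ = (N : ℝ) ^ η := by
        have e2 : (N : ℝ) ^ 2 = (N : ℝ) ^ (2 : ℝ) := by norm_num
        rw [e2, ← Real.rpow_add hN0]
        congr 1
        ring
      _ ≤ q := hq
  have h3 : 1 ≤ (N : ℝ) ^ ε := Real.one_le_rpow hNR hε.le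
  calc (N : ℝ) ^ 2 / q * (1 + (N : ℝ) ^ 2 * x) ^ (-γ) ≤ (N : ℝ) ^ 2 / q * 1 :=
        mul_le_mul_of_nonneg_left h1 (by positivity)
    _ ≤ 1 / P := by rw [mul_one]; exact h2
    _ ≤ (N : ℝ) ^ ε / P := by
      apply div_le_div_of_nonneg_right h3 hP.le
    _ ≤ _ := by
      have : 0 ≤ (N : ℝ) ^ ε / P := by positivity
      linarith

/-- Dirichlet's theorem -/
theorem dir (c N : ℕ) (hc : 1 ≤ c) (hN : 1 ≤ N) (t : ℝ) :
    ∃ ρ : ℚ, ρ.den ≤ 2 * c * N ∧ |t - ρ| ≤ 1 / (ρ.den * (2 * c * N)) := by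
  have hn : 0 < 2 * c * N := by positivity
  obtain ⟨ρ, h1, h2⟩ := Real.exists_rat_abs_sub_le_and_den_le t hn
  refine ⟨ρ, h2, h1.trans ?_⟩
  have hq : 1 ≤ ρ.den := ρ.pos
  have hqR : (1 : ℝ) ≤ ρ.den := by exact_mod_cast hq
  have hc' : (1 : ℝ) ≤ c := by exact_mod_cast hc
  have hN' : (1 : ℝ) ≤ N := by exact_mod_cast hN
  have hNc : ((2 * c * N : ℕ) : ℝ) = 2 * c * N := by push_cast; ring
  rw [hNc]
  apply one_div_le_one_div_of_le (by positivity)
  nlinarith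

/-- the Fourier coefficients of the arcs -/
theorem four (c N X₀ : ℕ) (ε η Cd P p : ℝ) (hc : 1 ≤ c) (hN : 1 ≤ N) (hε : 0 < ε) (hη : 0 < η)
    (hCd : 0 ≤ Cd) (hp0 : 0 < p) (hpP : p ≤ P) (hP : (N : ℝ) ^ (-2 + η) ≤ 4 * c * P)
    (hD : ∀ n : ℕ, 1 ≤ n → ((Nat.divisors n).card : ℝ) ≤ Cd * (n : ℝ) ^ (ε / 8)) (j : ℤ) (hj : j ≠ 0)
    (hV : ‖∫ t in (0 : ℝ)..1, (ai X₀ (2 * c * N) p t : ℂ) * eu (-(j * t))‖ ≤
      min (2 * p * ((Nat.divisors j.natAbs).card * (1 + Real.log (2 * c * N : ℕ))))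
        (((2 * c * N : ℕ) : ℝ) ^ 2 / |(j : ℝ)|)) :
    ‖∫ t in (0 : ℝ)..1, (ai X₀ (2 * c * N) p t : ℂ) * eu (-(j * t))‖ ≤
      (2 * (Cd * (1 + 2 * c + 2 / ε)) + 16 * c ^ 3) * ((N : ℝ) ^ ε * P) := by
  have hcR : (1 : ℝ) ≤ c := by exact_mod_cast hc
  have hNR : (1 : ℝ) ≤ N := by exact_mod_cast hN
  have hN0 : (0 : ℝ) < N := by linarith
  have hP0 : 0 < P := hp0.trans_le hpP
  have hNε : 1 ≤ (N : ℝ) ^ ε := Real.one_le_rpow hNR hε.le
  have hj1 : 1 ≤ j.natAbs := Int.natAbs_pos.mpr hj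
  have hjR : ((j.natAbs : ℕ) : ℝ) = |(j : ℝ)| := by
    rw [Nat.cast_natAbs]
    push_cast
    rfl
  have hjR1 : (1 : ℝ) ≤ |(j : ℝ)| := by
    rw [← hjR]
    exact_mod_cast hj1
  rcases le_or_gt |(j : ℝ)| ((N : ℝ) ^ 4) with h4 | h4
  · refine (hV.trans (min_le_left _ _)).trans ?_
    have h1 := hD j.natAbs hj1
    rw [hjR] at h1
    have h2 : |(j : ℝ)| ^ (ε / 8) ≤ (N : ℝ) ^ (ε / 2) := by
      calc |(j : ℝ)| ^ (ε / 8) ≤ ((N : ℝ) ^ 4) ^ (ε / 8) :=
            Real.rpow_le_rpow (abs_nonneg _) h4 (by positivity)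
        _ = (N : ℝ) ^ (ε / 2) := by
          rw [← Real.rpow_natCast (N : ℝ) 4, ← Real.rpow_mul hN0.le]
          congr 1
          push_cast
          ring
    have h3 : 1 + Real.log (2 * c * N : ℕ) ≤ (1 + 2 * c + 2 / ε) * (N : ℝ) ^ (ε / 2) := by
      have e1 : Real.log ((2 * c * N : ℕ) : ℝ) = Real.log (2 * c) + Real.log N := by
        push_cast
        rw [Real.log_mul (by positivity) (by positivity)]
      have e2 : Real.log (2 * c) ≤ 2 * c := by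
        have := Real.log_le_sub_one_of_pos (show (0 : ℝ) < 2 * c by positivity)
        linarith
      have e3 := log_bd (ε / 2) (by positivity) N hNR
      have e4 : 1 ≤ (N : ℝ) ^ (ε / 2) := Real.one_le_rpow hNR (by positivity)
      have e5 : 1 / (ε / 2) = 2 / ε := by
        field_simp
      rw [e5] at e3
      rw [e1]
      have e6 : (2 * c : ℝ) ≤ 2 * c * (N : ℝ) ^ (ε / 2) := by
        have : (0 : ℝ) ≤ 2 * c := by positivity
        nlinarith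
      calc 1 + (Real.log (2 * c) + Real.log N) ≤ (1 + 2 / ε) * (N : ℝ) ^ (ε / 2) + 2 * c * (N : ℝ) ^ (ε / 2) := by
            linarith
        _ = _ := by ring
    have h5 : ((Nat.divisors j.natAbs).card : ℝ) * (1 + Real.log (2 * c * N : ℕ)) ≤
        (Cd * (N : ℝ) ^ (ε / 2)) * ((1 + 2 * c + 2 / ε) * (N : ℝ) ^ (ε / 2)) := by
      apply mul_le_mul (h1.trans (mul_le_mul_of_nonneg_left h2 hCd)) h3
      · have : 0 ≤ Real.log ((2 * c * N : ℕ) : ℝ) := Real.log_natCast_nonneg _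
        linarith
      · positivity
    have e7 : (N : ℝ) ^ (ε / 2) * (N : ℝ) ^ (ε / 2) = (N : ℝ) ^ ε := by
      rw [← Real.rpow_add hN0]
      congr 1
      ring
    calc 2 * p * (((Nat.divisors j.natAbs).card : ℝ) * (1 + Real.log (2 * c * N : ℕ))) ≤
          2 * P * ((Cd * (N : ℝ) ^ (ε / 2)) * ((1 + 2 * c + 2 / ε) * (N : ℝ) ^ (ε / 2))) := by
          apply mul_le_mul (by linarith) h5
          · have : 0 ≤ Real.log ((2 * c * N : ℕ) : ℝ) := Real.log_natCast_nonneg _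
            positivity
          · positivity
      _ = (2 * (Cd * (1 + 2 * c + 2 / ε))) * (((N : ℝ) ^ (ε / 2) * (N : ℝ) ^ (ε / 2)) * P) := by ring
      _ = (2 * (Cd * (1 + 2 * c + 2 / ε))) * ((N : ℝ) ^ ε * P) := by rw [e7]
      _ ≤ _ := by
        apply mul_le_mul_of_nonneg_right _ (by positivity)
        have : (0 : ℝ) ≤ 16 * c ^ 3 := by positivity
        linarith
  · refine (hV.trans (min_le_right _ _)).trans ?_
    have h1 : ((2 * c * N : ℕ) : ℝ) ^ 2 / |(j : ℝ)| ≤ 4 * c ^ 2 * (N : ℝ) ^ (-2 + η) := by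
      have e1 : ((2 * c * N : ℕ) : ℝ) ^ 2 / |(j : ℝ)| ≤ ((2 * c * N : ℕ) : ℝ) ^ 2 / (N : ℝ) ^ 4 :=
        div_le_div_of_nonneg_left (by positivity) (by positivity) h4.le
      refine e1.trans ?_
      have e2 : ((2 * c * N : ℕ) : ℝ) ^ 2 / (N : ℝ) ^ 4 = 4 * c ^ 2 * (N : ℝ) ^ (-2 : ℝ) := by
        have e3 : (N : ℝ) ^ (-2 : ℝ) = ((N : ℝ) ^ 2)⁻¹ := by
          rw [Real.rpow_neg hN0.le]
          norm_num
        rw [e3]
        push_cast
        field_simp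
        norm_num
      rw [e2]
      apply mul_le_mul_of_nonneg_left _ (by positivity)
      exact Real.rpow_le_rpow_of_exponent_le hNR (by linarith)
    refine h1.trans ?_
    calc 4 * c ^ 2 * (N : ℝ) ^ (-2 + η) ≤ 4 * c ^ 2 * (4 * c * P) :=
          mul_le_mul_of_nonneg_left hP (by positivity)
      _ = 16 * c ^ 3 * (1 * P) := by ring
      _ ≤ 16 * c ^ 3 * ((N : ℝ) ^ ε * P) := by
        apply mul_le_mul_of_nonneg_left _ (by positivity)
        exact mul_le_mul_of_nonneg_right hNε hP0.le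
      _ ≤ _ := by
        apply mul_le_mul_of_nonneg_right _ (by positivity)
        have : 0 ≤ 2 * (Cd * (1 + 2 * c + 2 / ε)) := by positivity
        linarith

/-- the cutoffs -/
def ch (c N X₀ I i : ℕ) (t : ℝ) : ℝ :=
  if i = 0 then 1 - ai 0 (2 * c * N) (pp c N 0) t
  else if i ≤ I then ai 0 (2 * c * N) (pp c N (i - 1)) t - ai 0 (2 * c * N) (pp c N i) t
  else ai X₀ (2 * c * N) (pp c N I) t

theorem sum_ch {c N X₀ I : ℕ} (hc : 1 ≤ c) (hN : 1 ≤ N) (hX : X₀ ≤ 2 * c * N) (t : ℝ) :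
    ai 0 X₀ (pp c N I) t + ∑ i : Fin (I + 2), ch c N X₀ I i t = 1 := by
  rw [Fin.sum_univ_eq_sum_range (fun i => ch c N X₀ I i t) (I + 2), Finset.sum_range_succ',
    Finset.sum_range_succ]
  have h1 : ch c N X₀ I 0 t = 1 - ai 0 (2 * c * N) (pp c N 0) t := by
    simp [ch]
  have h2 : ch c N X₀ I (I + 1) t = ai X₀ (2 * c * N) (pp c N I) t := by
    simp [ch]
  have h3 : ∑ i ∈ Finset.range I, ch c N X₀ I (i + 1) t =
      ai 0 (2 * c * N) (pp c N 0) t - ai 0 (2 * c * N) (pp c N I) t := by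
    rw [← Finset.sum_range_sub' (fun i => ai 0 (2 * c * N) (pp c N i) t) I]
    apply Finset.sum_congr rfl
    intro i hi
    have : i + 1 ≤ I := by
      have := Finset.mem_range.mp hi
      omega
    simp [ch, this]
  rw [h1, h2, h3, ai_split (pp_pos hc hN I) hX (pp_two hc hN I) t]
  ring

theorem notMem_ai {X₀ X : ℕ} {P t : ℝ} (h : t ∉ ar X₀ X P) : ai X₀ X P t = 0 :=
  Set.indicator_of_notMem h _

theorem mem_ai {X₀ X : ℕ} {P t : ℝ} (h : t ∈ ar X₀ X P) : ai X₀ X P t = 1 :=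
  Set.indicator_of_mem h _

section

variable {c N : ℕ} (hc : 1 ≤ c) (hN : 1 ≤ N) {C ε γ η : ℝ} (hC : 0 ≤ C) (hε : 0 < ε) (hγ0 : 0 < γ)
  (hγ : γ < 1) (hγε : 2 * (1 - γ) ≤ ε)
  (hW : ∀ (R : ℕ) (t : ℝ) (ρ : ℚ), 1 ≤ R →
    ρ.den ≤ 2 * c * R → |t - ρ| ≤ 1 / (ρ.den * (2 * c * R)) →
    WW R c t ≤ C * (R * (1 + Real.log R) +
      (R : ℝ) ^ 2 / ρ.den * (1 + (R : ℝ) ^ 2 * |t - ρ|) ^ (-γ)))

include hc hN hC hε hγ0 hγ hγε hW

/-- away from the arcs -/
theorem wa (t p P : ℝ) (ht : t ∉ ar 0 (2 * c * N) p) (hP : 0 < P) (hPp : P ≤ 2 * p) (hPN : P ≤ 1 / N) :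
    WW N c t ≤ C * ((1 + 1 / ε) + 2) * ((N : ℝ) ^ ε / P) := by
  have hNR : (1 : ℝ) ≤ N := by exact_mod_cast hN
  obtain ⟨ρ, h1, h2⟩ := dir c N hc hN t
  have h3 := hW N t ρ hN h1 h2
  have hq : 1 ≤ ρ.den := ρ.pos
  have hqR : (1 : ℝ) ≤ ρ.den := by exact_mod_cast hq
  have h4 : p / ρ.den ≤ |t - ρ| := by
    by_contra hlt
    push Not at hlt
    exact ht ⟨ρ, hq, h1, hlt⟩
  have h5 : P / (2 * ρ.den) ≤ |t - ρ| := by
    refine le_trans ?_ h4
    rw [div_le_div_iff₀ (by positivity) (by positivity)]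
    nlinarith
  have h6 : P ≤ 1 := hPN.trans (by
    rw [div_le_one (by linarith)]
    exact hNR)
  have h7 := t1 ε hε N hN P hP hPN
  have h8 := t2 ε γ hγ hγ0 hγε N hN P hP h6 ρ.den hq _ h5
  refine h3.trans ?_
  rw [mul_assoc]
  apply mul_le_mul_of_nonneg_left _ hC
  rw [add_mul]
  exact add_le_add h7 h8

omit hγ hγε in
/-- the arcs with large denominators -/
theorem wb (t P : ℝ) (X₀ : ℕ) (hX : (N : ℝ) ^ η < X₀ + 1) (ht : t ∈ ar X₀ (2 * c * N) P) (hP : 0 < P)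
    (hPX : 2 * P * ((2 * c * N : ℕ) : ℝ) ≤ 1) (hPη : P ≤ (N : ℝ) ^ (-2 + η)) (hPN : P ≤ 1 / N) :
    WW N c t ≤ C * ((1 + 1 / ε) + 2) * ((N : ℝ) ^ ε / P) := by
  have hNR : (1 : ℝ) ≤ N := by exact_mod_cast hN
  have hcR : (1 : ℝ) ≤ c := by exact_mod_cast hc
  obtain ⟨ρ, h0, h1, h2⟩ := ht
  have hq : 1 ≤ ρ.den := ρ.pos
  have hqR : (1 : ℝ) ≤ ρ.den := by exact_mod_cast hq
  have h2' : |t - ρ| ≤ 1 / (ρ.den * (2 * c * N)) := by
    refine h2.le.trans ?_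
    rw [div_le_div_iff₀ (by positivity) (by positivity)]
    push_cast at hPX
    have h3 : P * (2 * c * N) ≤ 1 := by nlinarith
    nlinarith
  have h3 := hW N t ρ hN h1 h2'
  have h7 := t1 ε hε N hN P hP hPN
  have h9 : (N : ℝ) ^ η ≤ ρ.den := by
    have : ((X₀ + 1 : ℕ) : ℝ) ≤ ρ.den := by exact_mod_cast h0
    push_cast at this
    linarith
  have h8 := t3 ε γ η hε hγ0 N hN P hP hPη ρ.den h9 _ (abs_nonneg (t - ρ))
  refine h3.trans ?_
  rw [mul_assoc]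
  apply mul_le_mul_of_nonneg_left _ hC
  rw [add_mul]
  exact add_le_add h7 h8

end

end ARCS

open ARCS in
theorem t_ARCS : M_ARCS := by
  intro hDiv hV hWP c ε η hc hε hη hη1
  have hcR : (1 : ℝ) ≤ c := by exact_mod_cast hc
  obtain ⟨e, he⟩ : ∃ e : ℝ, e = min ε 1 := ⟨_, rfl⟩
  have he0 : 0 < e := by rw [he]; exact lt_min hε one_pos
  have he1 : e ≤ 1 := by rw [he]; exact min_le_right _ _
  have heε : e ≤ ε := by rw [he]; exact min_le_left _ _
  obtain ⟨γ, hγ⟩ : ∃ γ : ℝ, γ = 1 - e / 4 := ⟨_, rfl⟩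
  have hγ0 : 0 < γ := by rw [hγ]; linarith
  have hγ1 : γ < 1 := by rw [hγ]; linarith
  have hγε : 2 * (1 - γ) ≤ ε := by rw [hγ]; linarith
  obtain ⟨C1, hC1, hW⟩ := hWP c γ hc hγ0 hγ1
  obtain ⟨Cd, hCd, hD⟩ := hDiv (ε / 8) (by positivity)
  obtain ⟨K, hK⟩ : ∃ K : ℝ, K = 2 * (Cd * (1 + 2 * c + 2 / ε)) + 16 * c ^ 3 := ⟨_, rfl⟩
  have hK0 : 0 ≤ K := by rw [hK]; positivity
  have hA0 : 0 ≤ C1 * ((1 + 1 / ε) + 2) := by positivity
  obtain ⟨C, hCdef⟩ : ∃ C : ℝ, C = 3 + 4 * c + C1 * ((1 + 1 / ε) + 2) + 2 * K := ⟨_, rfl⟩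
  have hC3 : 3 ≤ C := by rw [hCdef]; linarith
  have hCc : 4 * c ≤ C := by rw [hCdef]; linarith
  have hCA : C1 * ((1 + 1 / ε) + 2) ≤ C := by rw [hCdef]; linarith
  have hCK : 2 * K ≤ C := by rw [hCdef]; linarith
  refine ⟨C, by linarith, ?_⟩
  intro N hN
  have hNR : (1 : ℝ) ≤ N := by exact_mod_cast hN
  have hN0 : (0 : ℝ) < N := by linarith
  have hlog : 0 ≤ Real.log N := Real.log_nonneg hNR
  obtain ⟨I, hI1, hI2, hI3⟩ := ex_I hc hN η hη hη1
  obtain ⟨X₀, hX₀⟩ : ∃ X₀ : ℕ, X₀ = ⌊(N : ℝ) ^ η⌋₊ := ⟨_, rfl⟩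
  have hη0 : 0 ≤ (N : ℝ) ^ η := Real.rpow_nonneg hN0.le η
  have hX1 : (X₀ : ℝ) ≤ (N : ℝ) ^ η := by rw [hX₀]; exact Nat.floor_le hη0
  have hX2 : (N : ℝ) ^ η < X₀ + 1 := by rw [hX₀]; exact Nat.lt_floor_add_one _
  have hX3 : 1 ≤ X₀ := by
    rw [hX₀]
    exact Nat.floor_pos.mpr (Real.one_le_rpow hNR hη.le)
  have hX4 : X₀ ≤ 2 * c * N := by
    have h1 : (X₀ : ℝ) ≤ N := by
      refine hX1.trans ?_
      calc (N : ℝ) ^ η ≤ (N : ℝ) ^ (1 : ℝ) := Real.rpow_le_rpow_of_exponent_le hNR hη1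
        _ = N := Real.rpow_one _
    have h2 : X₀ ≤ N := by exact_mod_cast h1
    nlinarith
  have hX : 1 ≤ 2 * c * N := by nlinarith
  have hX4R : (X₀ : ℝ) ≤ ((2 * c * N : ℕ) : ℝ) := by exact_mod_cast hX4
  have hp0 : ∀ i, 0 < pp c N i := pp_pos hc hN
  have hp2 := pp_two (c := c) (N := N) hc hN
  have hpN := pp_le (c := c) (N := N) hc hN
  have hNε : 0 ≤ (N : ℝ) ^ ε := Real.rpow_nonneg hN0.le ε
  have hlow : ∀ i, i ≤ I → (N : ℝ) ^ (-2 + η) ≤ 4 * c * pp c N i := by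
    intro i hi
    refine hI3.trans ?_
    exact mul_le_mul_of_nonneg_left (pp_anti hc hN hi) (by positivity)
  have hT : ∀ Y i, TC (ai Y (2 * c * N) (pp c N i)) := fun Y i =>
    (hV Y (2 * c * N) (pp c N i) hX (hp0 i) (hp2 i)).1
  have hF : ∀ (Y i : ℕ) (j : ℤ) (P : ℝ), pp c N i ≤ P → (N : ℝ) ^ (-2 + η) ≤ 4 * c * P → j ≠ 0 →
      ‖∫ t in (0 : ℝ)..1, (ai Y (2 * c * N) (pp c N i) t : ℂ) * eu (-(j * t))‖ ≤
        K * ((N : ℝ) ^ ε * P) := by
    intro Y i j P h1 h2 hj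
    rw [hK]
    exact four c N Y ε η Cd P (pp c N i) hc hN hε hη hCd (hp0 i) h1 h2 hD j hj
      ((hV Y (2 * c * N) (pp c N i) hX (hp0 i) (hp2 i)).2.1 j hj)
  have hZ : ∀ Y i, ∫ t in (0 : ℝ)..1, ai Y (2 * c * N) (pp c N i) t ≤ C * N * pp c N i := by
    intro Y i
    refine (hV Y (2 * c * N) (pp c N i) hX (hp0 i) (hp2 i)).2.2.1.trans ?_
    push_cast
    have h1 := hp0 i
    calc 2 * pp c N i * (2 * c * N) = 4 * c * (N * pp c N i) := by ring
      _ ≤ C * (N * pp c N i) := mul_le_mul_of_nonneg_right hCc (by positivity)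
      _ = _ := by ring
  refine ⟨I + 2, fun i => ch c N X₀ I i, fun i => pp c N ((i : ℕ) - 1), X₀, pp c N I, ?_, hX1, hp0 I, hI2,
    ?_, ?_, sum_ch hc hN hX4, ?_⟩
  · push_cast
    nlinarith
  · have h1 := hp2 I
    have h2 : 2 * pp c N I * X₀ ≤ 2 * pp c N I * ((2 * c * N : ℕ) : ℝ) :=
      mul_le_mul_of_nonneg_left hX4R (by linarith [hp0 I])
    linarith
  · refine (hV 0 X₀ (pp c N I) hX3 (hp0 I) ?_).1
    have h1 := hp2 I
    have h2 : 2 * pp c N I * X₀ ≤ 2 * pp c N I * ((2 * c * N : ℕ) : ℝ) :=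
      mul_le_mul_of_nonneg_left hX4R (by linarith [hp0 I])
    linarith
  · rintro ⟨i, hi⟩
    simp only
    have hlo : (N : ℝ) ^ (-2 + η) ≤ C * pp c N (i - 1) := by
      refine (hlow (i - 1) (by omega)).trans ?_
      exact mul_le_mul_of_nonneg_right hCc (hp0 _).le
    have hB : ∀ x : ℝ, x ≤ C1 * ((1 + 1 / ε) + 2) * ((N : ℝ) ^ ε / pp c N (i - 1)) →
        x ≤ C * (N : ℝ) ^ ε / pp c N (i - 1) := by
      intro x hx
      refine hx.trans ?_
      rw [mul_div_assoc]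
      exact mul_le_mul_of_nonneg_right hCA (div_nonneg hNε (hp0 _).le)
    have hK' : ∀ x : ℝ, x ≤ 2 * K * ((N : ℝ) ^ ε * pp c N (i - 1)) →
        x ≤ C * (N : ℝ) ^ ε * pp c N (i - 1) := by
      intro x hx
      refine hx.trans ?_
      rw [mul_assoc C]
      exact mul_le_mul_of_nonneg_right hCK (mul_nonneg hNε (hp0 _).le)
    rcases Nat.eq_zero_or_pos i with h0 | h0
    · -- outside
      subst h0
      have e : ch c N X₀ I 0 = fun t => 1 - ai 0 (2 * c * N) (pp c N 0) t := by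
        funext t
        simp [ch]
      rw [e]
      simp only [Nat.zero_sub] at hlo hB hK' ⊢
      have htc := tc_sub tc_one (hT 0 0) (fun t => (hT 0 0).le t)
      refine ⟨htc, hp0 0, hlo, hpN 0, ?_, ?_, ?_⟩
      · intro t ht
        apply hB
        refine wa hc hN hC1 hε hγ0 hγ1 hγε hW t (pp c N 0) (pp c N 0) ?_ (hp0 0) ?_ (hpN 0)
        · intro hm
          apply ht
          rw [mem_ai hm, sub_self]
        · linarith [hp0 0]
      · intro j hj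
        apply hK'
        have h1 : ‖∫ t in (0 : ℝ)..1, (((1 : ℝ)) : ℂ) * eu (-(j * t))‖ ≤ 0 := by
          simp only [Complex.ofReal_one, one_mul]
          rw [int_eu j hj, norm_zero]
        have h2 := four_sub tc_one (hT 0 0) j 0 _ h1 (hF 0 0 j (pp c N 0) le_rfl (hlow 0 (Nat.zero_le _)) hj)
        refine h2.trans ?_
        have : 0 ≤ K * ((N : ℝ) ^ ε * pp c N 0) := mul_nonneg hK0 (mul_nonneg hNε (hp0 _).le)
        linarith
      · have h1 : ‖∫ t in (0 : ℝ)..1, ((1 - ai 0 (2 * c * N) (pp c N 0) t : ℝ) : ℂ)‖ ≤ 1 := by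
          apply int_le htc tc_one
          · intro t
            have := (hT 0 0).nn t
            linarith
          · simp
        refine h1.trans ?_
        refine (pp_zero hc hN).trans ?_
        rw [mul_assoc C]
        exact mul_le_mul_of_nonneg_right hCc (mul_nonneg hN0.le (hp0 _).le)
    · obtain ⟨k, rfl⟩ : ∃ k, i = k + 1 := ⟨i - 1, by omega⟩
      simp only [Nat.add_sub_cancel] at hlo hB hK' ⊢
      by_cases h1 : k + 1 ≤ I
      · -- between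
        have e : ch c N X₀ I (k + 1) = fun t => ai 0 (2 * c * N) (pp c N k) t -
            ai 0 (2 * c * N) (pp c N (k + 1)) t := by
          funext t
          simp [ch, h1]
        rw [e]
        have hle : ∀ t, ai 0 (2 * c * N) (pp c N (k + 1)) t ≤ ai 0 (2 * c * N) (pp c N k) t :=
          fun t => ai_mono (pp_anti hc hN (Nat.le_succ k)) t
        have htc := tc_sub (hT 0 k) (hT 0 (k + 1)) hle
        refine ⟨htc, hp0 k, hlo, hpN k, ?_, ?_, ?_⟩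
        · intro t ht
          apply hB
          refine wa hc hN hC1 hε hγ0 hγ1 hγε hW t (pp c N (k + 1)) (pp c N k) ?_ (hp0 k) ?_ (hpN k)
          · intro hm
            apply ht
            beta_reduce
            rw [mem_ai hm, mem_ai (ar_mono (pp_anti hc hN (Nat.le_succ k)) hm), sub_self]
          · rw [pp_succ]
            linarith
        · intro j hj
          apply hK'
          have h2 := four_sub (hT 0 k) (hT 0 (k + 1)) j _ _
            (hF 0 k j (pp c N k) le_rfl (hlow k (by omega)) hj)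
            (hF 0 (k + 1) j (pp c N k) (pp_anti hc hN (Nat.le_succ k)) (hlow k (by omega)) hj)
          refine h2.trans (le_of_eq ?_)
          ring
        · apply int_le htc (hT 0 k) _ _ (hZ 0 k)
          intro t
          have := (hT 0 (k + 1)).nn t
          linarith
      · -- the last one
        have hk : k = I := by omega
        subst hk
        have e : ch c N X₀ k (k + 1) = fun t => ai X₀ (2 * c * N) (pp c N k) t := by
          funext t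
          simp [ch]
        rw [e]
        refine ⟨hT X₀ k, hp0 k, hlo, hpN k, ?_, ?_, ?_⟩
        · intro t ht
          apply hB
          have hm : t ∈ ar X₀ (2 * c * N) (pp c N k) := by
            by_contra hn
            exact ht (notMem_ai hn)
          exact wb hc hN hC1 hε hγ0 hW t (pp c N k) X₀ hX2 hm (hp0 k) (hp2 k) hI2 (hpN k)
        · intro j hj
          apply hK'
          refine (hF X₀ k j (pp c N k) le_rfl (hlow k le_rfl) hj).trans ?_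
          have : 0 ≤ K * ((N : ℝ) ^ ε * pp c N k) := mul_nonneg hK0 (mul_nonneg hNε (hp0 _).le)
          linarith
        · exact int_le (hT X₀ k) (hT X₀ k) (fun t => le_rfl) _ (hZ X₀ k)

end

end SYM
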