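import Pool.Agent.SYM.StQ

/-!
# The divided difference of the conjugation by `exp (ρ W)`
-/

namespace SYM

open STZ LGR MeasureTheory Matrix Filter

open scoped ComplexConjugate Matrix Real Topology

noncomputable section

namespace BOPQ

variable {N : ℕ}

theorem continuous_exp : Continuous (fun X : Matrix (Fin N) (Fin N) ℂ => NormedSpace.exp X) := by
  open scoped Matrix.Norms.Operator in
  set_option backward.isDefEq.respectTransparency false in
  exact NormedSpace.exp_continuous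

/-- the integrand -/
def fi (ρ : ℝ) (W V : Matrix (Fin N) (Fin N) ℂ) (s : ℝ) : Matrix (Fin N) (Fin N) ℂ :=
  NormedSpace.exp (((s * ρ : ℝ) : ℂ) • W) * (W * V - V * W) *
    NormedSpace.exp (-(((s * ρ : ℝ) : ℂ) • W))

theorem bo_eq (ρ : ℝ) (W V : Matrix (Fin N) (Fin N) ℂ) (i j : Fin N) :
    bo ρ W V i j = ∫ s in (0 : ℝ)..1, fi ρ W V s i j := rfl

theorem continuous_fi (i j : Fin N) :
    Continuous fun z : (ℝ × Matrix (Fin N) (Fin N) ℂ × Matrix (Fin N) (Fin N) ℂ) × ℝ =>
      fi z.1.1 z.1.2.1 z.1.2.2 z.2 i j := by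
  have h1 : Continuous fun z : (ℝ × Matrix (Fin N) (Fin N) ℂ × Matrix (Fin N) (Fin N) ℂ) × ℝ =>
      (((z.2 * z.1.1 : ℝ) : ℂ)) • z.1.2.1 := by
    refine Continuous.smul (Complex.continuous_ofReal.comp (by fun_prop)) (by fun_prop)
  have h2 : Continuous fun z : (ℝ × Matrix (Fin N) (Fin N) ℂ × Matrix (Fin N) (Fin N) ℂ) × ℝ =>
      z.1.2.1 * z.1.2.2 - z.1.2.2 * z.1.2.1 :=
    ((continuous_fst.snd.fst).matrix_mul (continuous_fst.snd.snd)).sub
      ((continuous_fst.snd.snd).matrix_mul (continuous_fst.snd.fst))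
  have h3 : Continuous fun z : (ℝ × Matrix (Fin N) (Fin N) ℂ × Matrix (Fin N) (Fin N) ℂ) × ℝ =>
      fi z.1.1 z.1.2.1 z.1.2.2 z.2 :=
    ((continuous_exp.comp h1).matrix_mul h2).matrix_mul (continuous_exp.comp h1.neg)
  exact (continuous_apply j).comp ((continuous_apply i).comp h3)

theorem continuous_fi_s (ρ : ℝ) (W V : Matrix (Fin N) (Fin N) ℂ) (i j : Fin N) :
    Continuous fun s : ℝ => fi ρ W V s i j := by
  have h : Continuous fun s : ℝ =>
      (((ρ, W, V), s) : (ℝ × Matrix (Fin N) (Fin N) ℂ × Matrix (Fin N) (Fin N) ℂ) × ℝ) :=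
    Continuous.prodMk continuous_const continuous_id
  have h2 := Continuous.comp (continuous_fi (N := N) i j) h
  exact h2

theorem integrable_fi (ρ : ℝ) (W V : Matrix (Fin N) (Fin N) ℂ) (i j : Fin N) :
    IntervalIntegrable (fun s : ℝ => fi ρ W V s i j) volume 0 1 :=
  (continuous_fi_s ρ W V i j).intervalIntegrable _ _

set_option backward.isDefEq.respectTransparency false in
open scoped Matrix.Norms.Operator in
/-- the derivative of the conjugation -/
theorem der (W V : Matrix (Fin N) (Fin N) ℂ) (u : ℂ) (i j : Fin N) :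
    HasDerivAt (fun u : ℂ => (NormedSpace.exp (u • W) * V * NormedSpace.exp (-(u • W))) i j)
      ((NormedSpace.exp (u • W) * (W * V - V * W) * NormedSpace.exp (-(u • W))) i j) u := by
  have h1 : HasDerivAt (fun u : ℂ => NormedSpace.exp (u • W))
      (NormedSpace.exp (u • W) * W) u := hasDerivAt_exp_smul_const W u
  have h2 : HasDerivAt (fun u : ℂ => NormedSpace.exp (u • (-W)))
      ((-W) * NormedSpace.exp (u • (-W))) u := hasDerivAt_exp_smul_const' (-W) u
  have h3 := (h1.mul_const V).mul h2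
  have h4 : NormedSpace.exp (u • W) * W * V * NormedSpace.exp (u • -W) +
      NormedSpace.exp (u • W) * V * (-W * NormedSpace.exp (u • -W)) =
      NormedSpace.exp (u • W) * (W * V - V * W) * NormedSpace.exp (-(u • W)) := by
    rw [smul_neg, mul_sub, sub_mul]
    simp only [mul_assoc, neg_mul, mul_neg]
    rw [← sub_eq_add_neg]
  rw [h4] at h3
  let L : Matrix (Fin N) (Fin N) ℂ →L[ℂ] ℂ :=
    (Matrix.entryLinearMap ℂ ℂ i j).toContinuousLinearMap
  have h5 := L.hasFDerivAt.comp_hasDerivAt _ h3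
  have h7 : (fun u : ℂ => (NormedSpace.exp (u • W) * V * NormedSpace.exp (-(u • W))) i j) =
      fun u : ℂ => L (NormedSpace.exp (u • W) * V * NormedSpace.exp (u • (-W))) := by
    funext u
    rw [smul_neg]
    rfl
  rw [h7]
  exact h5

theorem der_real (ρ : ℝ) (W V : Matrix (Fin N) (Fin N) ℂ) (s : ℝ) (i j : Fin N) :
    HasDerivAt (fun s : ℝ => (NormedSpace.exp (((s * ρ : ℝ) : ℂ) • W) * V *
      NormedSpace.exp (-(((s * ρ : ℝ) : ℂ) • W))) i j) ((ρ : ℂ) * fi ρ W V s i j) s := by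
  have h1 : HasDerivAt (fun s : ℝ => ((s * ρ : ℝ) : ℂ)) ((1 * ρ : ℝ) : ℂ) s :=
    ((hasDerivAt_id s).mul_const ρ).ofReal_comp
  have h2 := HasDerivAt.scomp s (der W V ((s * ρ : ℝ) : ℂ) i j) h1
  rw [one_mul, smul_eq_mul] at h2
  exact h2

theorem exp_conj (W k : Matrix (Fin N) (Fin N) ℂ) (h1 : kᴴ * k = 1) (h2 : k * kᴴ = 1) :
    NormedSpace.exp (kᴴ * W * k) = kᴴ * NormedSpace.exp W * k := by
  let U : (Matrix (Fin N) (Fin N) ℂ)ˣ := ⟨k, kᴴ, h2, h1⟩
  exact Matrix.exp_units_conj' U W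

theorem fi_conj (ρ : ℝ) (W V k : Matrix (Fin N) (Fin N) ℂ) (h1 : kᴴ * k = 1) (h2 : k * kᴴ = 1)
    (s : ℝ) : fi ρ (kᴴ * W * k) V s = kᴴ * fi ρ W (k * V * kᴴ) s * k := by
  have h3 : ∀ c : ℂ, c • (kᴴ * W * k) = kᴴ * (c • W) * k := by
    intro c
    rw [Matrix.mul_smul, Matrix.smul_mul]
  have h4 : kᴴ * W * k * V - V * (kᴴ * W * k) =
      kᴴ * (W * (k * V * kᴴ) - k * V * kᴴ * W) * k := by
    rw [mul_sub, sub_mul]
    have h5 : kᴴ * (W * (k * V * kᴴ)) * k = kᴴ * W * k * V := by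
      calc kᴴ * (W * (k * V * kᴴ)) * k = kᴴ * W * k * V * (kᴴ * k) := by simp only [mul_assoc]
        _ = kᴴ * W * k * V := by rw [h1, mul_one]
    have h6 : kᴴ * (k * V * kᴴ * W) * k = V * (kᴴ * W * k) := by
      calc kᴴ * (k * V * kᴴ * W) * k = (kᴴ * k) * V * (kᴴ * W * k) := by simp only [mul_assoc]
        _ = V * (kᴴ * W * k) := by rw [h1, one_mul]
    rw [h5, h6]
  have h7 : -(kᴴ * (((s * ρ : ℝ) : ℂ) • W) * k) = kᴴ * (-(((s * ρ : ℝ) : ℂ) • W)) * k := by
    rw [mul_neg, neg_mul]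
  unfold fi
  rw [h3, h4, h7, exp_conj _ k h1 h2, exp_conj _ k h1 h2]
  calc kᴴ * NormedSpace.exp (((s * ρ : ℝ) : ℂ) • W) * k *
        (kᴴ * (W * (k * V * kᴴ) - k * V * kᴴ * W) * k) *
        (kᴴ * NormedSpace.exp (-(((s * ρ : ℝ) : ℂ) • W)) * k) =
      kᴴ * NormedSpace.exp (((s * ρ : ℝ) : ℂ) • W) * (k * kᴴ) *
        (W * (k * V * kᴴ) - k * V * kᴴ * W) * (k * kᴴ) *
        NormedSpace.exp (-(((s * ρ : ℝ) : ℂ) • W)) * k := by simp only [mul_assoc]
    _ = _ := by
      rw [h2, mul_one, mul_one]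
      simp only [mul_assoc]

end BOPQ

theorem t_BOPQ : S_BOPQ := by
  intro N
  refine ⟨?_, ?_, ?_, ?_, ?_, ?_⟩
  · refine continuous_pi fun i => continuous_pi fun j => ?_
    exact intervalIntegral.continuous_parametric_intervalIntegral_of_continuous'
      (f := fun (z : ℝ × Matrix (Fin N) (Fin N) ℂ × Matrix (Fin N) (Fin N) ℂ) (s : ℝ) =>
        BOPQ.fi z.1 z.2.1 z.2.2 s i j) (BOPQ.continuous_fi i j) 0 1
  · intro ρ W V V'
    ext i j
    rw [Matrix.add_apply, BOPQ.bo_eq, BOPQ.bo_eq, BOPQ.bo_eq,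
      ← intervalIntegral.integral_add (BOPQ.integrable_fi _ _ _ _ _) (BOPQ.integrable_fi _ _ _ _ _)]
    refine intervalIntegral.integral_congr fun s _ => ?_
    have h1 : BOPQ.fi ρ W (V + V') s = BOPQ.fi ρ W V s + BOPQ.fi ρ W V' s := by
      unfold BOPQ.fi
      rw [← add_mul, ← mul_add]
      congr 2
      rw [mul_add, add_mul]
      abel
    simp only [h1, Matrix.add_apply]
  · intro ρ W V a
    ext i j
    rw [Matrix.smul_apply, BOPQ.bo_eq, BOPQ.bo_eq, smul_eq_mul, ← intervalIntegral.integral_const_mul]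
    refine intervalIntegral.integral_congr fun s _ => ?_
    have h1 : BOPQ.fi ρ W (a • V) s = a • BOPQ.fi ρ W V s := by
      unfold BOPQ.fi
      rw [Matrix.mul_smul, Matrix.smul_mul, ← smul_sub, Matrix.mul_smul, Matrix.smul_mul]
    simp only [h1, Matrix.smul_apply, smul_eq_mul]
  · intro W V
    ext i j
    rw [BOPQ.bo_eq]
    have h1 : ∀ s, BOPQ.fi 0 W V s = W * V - V * W := by
      intro s
      unfold BOPQ.fi
      rw [mul_zero, Complex.ofReal_zero, zero_smul, neg_zero, NormedSpace.exp_zero, one_mul, mul_one]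
    simp only [h1]
    rw [intervalIntegral.integral_const, sub_zero, one_smul]
  · intro ρ W V
    ext i j
    rw [Matrix.smul_apply, BOPQ.bo_eq, smul_eq_mul, ← intervalIntegral.integral_const_mul,
      intervalIntegral.integral_eq_sub_of_hasDerivAt
        (fun s _ => BOPQ.der_real ρ W V s i j)
        ((BOPQ.integrable_fi ρ W V i j).const_mul _)]
    rw [one_mul, zero_mul, Complex.ofReal_zero, zero_smul, neg_zero, NormedSpace.exp_zero, one_mul,
      mul_one, Matrix.sub_apply]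
  · intro ρ W V k h1 h2
    ext i j
    rw [BOPQ.bo_eq]
    have h3 : ∀ M : Matrix (Fin N) (Fin N) ℂ, (kᴴ * M * k) i j =
        ∑ b, ∑ a, kᴴ i a * M a b * k b j := by
      intro M
      rw [Matrix.mul_apply]
      refine Finset.sum_congr rfl fun b _ => ?_
      rw [Matrix.mul_apply, Finset.sum_mul]
    have h4 : ∀ s, BOPQ.fi ρ (kᴴ * W * k) V s i j =
        ∑ b, ∑ a, kᴴ i a * BOPQ.fi ρ W (k * V * kᴴ) s a b * k b j := by
      intro s
      rw [BOPQ.fi_conj ρ W V k h1 h2, h3]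
    simp only [h4]
    rw [h3, intervalIntegral.integral_finsetSum]
    · refine Finset.sum_congr rfl fun b _ => ?_
      rw [intervalIntegral.integral_finsetSum]
      · refine Finset.sum_congr rfl fun a _ => ?_
        rw [intervalIntegral.integral_mul_const, intervalIntegral.integral_const_mul, BOPQ.bo_eq]
      · intro a _
        exact ((BOPQ.integrable_fi _ _ _ _ _).const_mul _).mul_const _
    · intro b _
      refine (Continuous.intervalIntegrable ?_ _ _)
      refine continuous_finsetSum _ fun a _ => ?_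
      exact (continuous_const.mul (BOPQ.continuous_fi_s _ _ _ _ _)).mul continuous_const

end

end SYM
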