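import Pool.Agent.SYM.StQ

/-!
# BOXV: the integral of the product over a cube under a map with a lower bound
-/

namespace SYM

open STZ LGR MeasureTheory Matrix Filter

open scoped ComplexConjugate Matrix Real Topology ENNReal NNReal

noncomputable section

namespace BOXV

lemma one_dim {M : ℝ} (hM : 1 ≤ M) : Integrable (fun x : ℝ => (1 + M * x ^ 2)⁻¹) ∧
    ∫ x : ℝ, (1 + M * x ^ 2)⁻¹ = (√M)⁻¹ * π := by
  have hM0 : 0 ≤ M := by linarith
  have hs : √M ≠ 0 := (Real.sqrt_pos.mpr (by linarith)).ne'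
  have e : (fun x : ℝ => (1 + M * x ^ 2)⁻¹) = fun x : ℝ => (fun y : ℝ => (1 + y ^ 2)⁻¹) (√M * x) := by
    funext x
    simp only [mul_pow, Real.sq_sqrt hM0]
  constructor
  · rw [e]
    exact integrable_inv_one_add_sq.comp_mul_left' hs
  · rw [e, Measure.integral_comp_mul_left (fun y : ℝ => (1 + y ^ 2)⁻¹) (√M),
      integral_univ_inv_one_add_sq, abs_of_nonneg (inv_nonneg.mpr (Real.sqrt_nonneg M)), smul_eq_mul]

/-- the product -/
def hh (m : ℕ) (M : ℝ) (y : Fin m → ℝ) : ℝ := ∏ i, (1 + M * y i ^ 2)⁻¹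

lemma hh_nonneg {m : ℕ} {M : ℝ} (hM : 1 ≤ M) (y : Fin m → ℝ) : 0 ≤ hh m M y := by
  unfold hh
  refine Finset.prod_nonneg (fun i _ => ?_)
  have : 0 ≤ M * y i ^ 2 := mul_nonneg (by linarith) (sq_nonneg _)
  positivity

lemma hh_integrable {m : ℕ} {M : ℝ} (hM : 1 ≤ M) : Integrable (hh m M) := by
  have := Integrable.fintype_prod (ι := Fin m) (μ := fun _ => (volume : Measure ℝ))
    (f := fun _ (x : ℝ) => (1 + M * x ^ 2)⁻¹) (fun _ => (one_dim hM).1)
  exact this

lemma hh_integral {m : ℕ} {M : ℝ} (hM : 1 ≤ M) :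
    ∫ y, hh m M y = ((√M)⁻¹ * π) ^ m := by
  have h := integral_fintype_prod_volume_eq_pow (ι := Fin m) (fun x : ℝ => (1 + M * x ^ 2)⁻¹)
  rw [(one_dim hM).2, Fintype.card_fin] at h
  exact h

lemma hh_continuous {m : ℕ} {M : ℝ} (hM : 1 ≤ M) : Continuous (hh m M) := by
  unfold hh
  refine continuous_finsetProd _ (fun i _ => ?_)
  refine Continuous.inv₀ (by fun_prop) (fun y => ?_)
  have : 0 ≤ M * y i ^ 2 := mul_nonneg (by linarith) (sq_nonneg _)
  positivity

end BOXV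

open BOXV

theorem t_BOXV : S_BOXV := by
  intro m η c hc
  refine ⟨(π / c) ^ m, by positivity, ?_⟩
  intro ζ hζ hlow M hM
  set Q : Set (Fin m → ℝ) := {s | ∀ i, |s i| ≤ η} with hQ
  have hQc : IsClosed Q := by
    have : Q = ⋂ i, {s : Fin m → ℝ | |s i| ≤ η} := by
      ext s; simp [hQ]
    rw [this]
    exact isClosed_iInter (fun i => isClosed_le (by fun_prop) continuous_const)
  have hQm : MeasurableSet Q := hQc.measurableSet
  have hinj : Set.InjOn ζ Q := by
    intro s hs s' hs' h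
    have := hlow s s' hs hs'
    rw [h, sub_self, norm_zero] at this
    have h2 : ‖s - s'‖ ≤ 0 := by
      by_contra hcon
      push Not at hcon
      have := mul_pos hc hcon
      linarith
    exact sub_eq_zero.mp (norm_le_zero_iff.mp h2)
  have hae : AEMeasurable ζ (volume.restrict Q) := hζ.aemeasurable hQm
  set g := Function.invFunOn ζ Q with hg
  have hgl : LipschitzOnWith (Real.toNNReal c⁻¹) g (ζ '' Q) := by
    refine LipschitzOnWith.of_dist_le_mul ?_
    rintro _ ⟨s, hs, rfl⟩ _ ⟨s', hs', rfl⟩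
    have e1 : g (ζ s) = s := hinj.leftInvOn_invFunOn hs
    have e2 : g (ζ s') = s' := hinj.leftInvOn_invFunOn hs'
    rw [e1, e2, dist_eq_norm, dist_eq_norm, Real.coe_toNNReal _ (inv_nonneg.mpr hc.le),
      inv_mul_eq_div, le_div_iff₀ hc, mul_comm]
    exact hlow s s' hs hs'
  have hmeas : ∀ B : Set (Fin m → ℝ), MeasurableSet B →
      (volume.restrict Q).map ζ B ≤ ((Real.toNNReal c⁻¹ : ℝ≥0∞) ^ m • volume) B := by
    intro B hB
    rw [Measure.map_apply_of_aemeasurable hae hB, Measure.restrict_apply₀' hQm.nullMeasurableSet]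
    have hsub : ζ ⁻¹' B ∩ Q ⊆ g '' (ζ '' Q ∩ B) := by
      rintro s ⟨hsB, hsQ⟩
      exact ⟨ζ s, ⟨⟨s, hsQ, rfl⟩, hsB⟩, hinj.leftInvOn_invFunOn hsQ⟩
    have h1 := (hgl.mono (Set.inter_subset_left (t := B))).hausdorffMeasure_image_le
      (d := (m : ℝ)) (Nat.cast_nonneg m)
    have h2 : (Measure.hausdorffMeasure (m : ℝ) : Measure (Fin m → ℝ)) = volume := by
      have := hausdorffMeasure_pi_real (ι := Fin m)
      rwa [Fintype.card_fin] at this
    rw [h2, ENNReal.rpow_natCast] at h1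
    calc volume (ζ ⁻¹' B ∩ Q) ≤ volume (g '' (ζ '' Q ∩ B)) := measure_mono hsub
      _ ≤ (Real.toNNReal c⁻¹ : ℝ≥0∞) ^ m * volume (ζ '' Q ∩ B) := h1
      _ ≤ (Real.toNNReal c⁻¹ : ℝ≥0∞) ^ m * volume B := by
          gcongr
          exact Set.inter_subset_right
      _ = _ := by rw [Measure.smul_apply, smul_eq_mul]
  have hle : (volume.restrict Q).map ζ ≤ (Real.toNNReal c⁻¹ : ℝ≥0∞) ^ m • volume :=
    Measure.le_iff.mpr hmeas
  have hF : ContinuousOn (fun s => hh m M (ζ s)) Q := (hh_continuous hM).comp_continuousOn hζ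
  have e1 : ∫ s in Q, ∏ i, (1 + M * ζ s i ^ 2)⁻¹ = ∫ s in Q, hh m M (ζ s) := rfl
  rw [e1, integral_eq_lintegral_of_nonneg_ae (Eventually.of_forall (fun s => hh_nonneg hM _))
    (hF.aestronglyMeasurable hQm)]
  refine ENNReal.toReal_le_of_le_ofReal (by positivity) ?_
  have hmh : Measurable (fun y => ENNReal.ofReal (hh m M y)) :=
    (hh_continuous hM).measurable.ennreal_ofReal
  calc ∫⁻ s in Q, ENNReal.ofReal (hh m M (ζ s))
      = ∫⁻ y, ENNReal.ofReal (hh m M y) ∂((volume.restrict Q).map ζ) :=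
        (lintegral_map' hmh.aemeasurable hae).symm
    _ ≤ ∫⁻ y, ENNReal.ofReal (hh m M y) ∂((Real.toNNReal c⁻¹ : ℝ≥0∞) ^ m • volume) :=
        lintegral_mono' hle le_rfl
    _ = (Real.toNNReal c⁻¹ : ℝ≥0∞) ^ m * ∫⁻ y, ENNReal.ofReal (hh m M y) := by
        rw [lintegral_smul_measure, smul_eq_mul]
    _ = (Real.toNNReal c⁻¹ : ℝ≥0∞) ^ m * ENNReal.ofReal (((√M)⁻¹ * π) ^ m) := by
        rw [← ofReal_integral_eq_lintegral_ofReal (hh_integrable hM)
          (Eventually.of_forall (fun y => hh_nonneg hM y)), hh_integral hM]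
    _ = ENNReal.ofReal ((π / c) ^ m * M ^ (-((m : ℝ) / 2))) := by
        have e2 : (Real.toNNReal c⁻¹ : ℝ≥0∞) ^ m = ENNReal.ofReal (c⁻¹ ^ m) := by
          rw [ENNReal.ofReal_pow (inv_nonneg.mpr hc.le)]
          rfl
        rw [e2, ← ENNReal.ofReal_mul (by positivity)]
        congr 1
        have e3 : M ^ (-((m : ℝ) / 2)) = ((√M)⁻¹) ^ m := by
          rw [Real.sqrt_eq_rpow, ← Real.rpow_neg (by linarith), ← Real.rpow_natCast,
            ← Real.rpow_mul (by linarith)]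
          congr 1
          ring
        rw [e3, mul_pow, div_pow, inv_pow]
        field_simp
    _ ≤ _ := le_rfl

end

end SYM
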