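import Pool.Agent.SYM.StZ

/-!
# CLAS: Dickson's lemma with residue classes
-/

namespace SYM

namespace CLAS

/-- closed under adding `β j` in one coordinate: closed under adding `β * z` -/
theorem up {r : ℕ} (β : Fin r → ℕ) (L : Set (Fin r → ℕ))
    (h : ∀ x ∈ L, ∀ j, (fun i => x i + if i = j then β j else 0) ∈ L)
    (x : Fin r → ℕ) (hx : x ∈ L) :
    ∀ (n : ℕ) (z : Fin r → ℕ), ∑ i, z i = n → (fun i => x i + β i * z i) ∈ L := by
  intro n
  induction n with
  | zero =>
    intro z hz
    have h0 : ∀ i, z i = 0 := by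
      intro i
      exact (Finset.sum_eq_zero_iff.mp hz) i (Finset.mem_univ i)
    have : (fun i => x i + β i * z i) = x := by
      funext i
      rw [h0 i]
      simp
    rw [this]
    exact hx
  | succ n ih =>
    intro z hz
    have hne : ∃ j, z j ≠ 0 := by
      by_contra hc
      push Not at hc
      have : ∑ i, z i = 0 := Finset.sum_eq_zero fun i _ => hc i
      omega
    obtain ⟨j, hj⟩ := hne
    have hs : ∑ i, (fun i => if i = j then z i - 1 else z i) i = n := by
      have e1 : ∑ i, z i = ∑ i, ((if i = j then z i - 1 else z i) + if i = j then 1 else 0) := by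
        refine Finset.sum_congr rfl fun i _ => ?_
        by_cases hij : i = j
        · subst hij
          simp only [if_true]
          omega
        · simp [hij]
      rw [Finset.sum_add_distrib, Finset.sum_ite_eq' Finset.univ j] at e1
      simp only [Finset.mem_univ, if_true] at e1
      show (∑ i, if i = j then z i - 1 else z i) = n
      omega
    have h1 := h _ (ih _ hs) j
    have : (fun i => x i + β i * z i) =
        fun i => (fun i => x i + β i * (fun i => if i = j then z i - 1 else z i) i) i +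
          if i = j then β j else 0 := by
      funext i
      by_cases hij : i = j
      · subst hij
        simp only [if_true]
        obtain ⟨k, hk⟩ : ∃ k, z i = k + 1 := ⟨z i - 1, by omega⟩
        rw [hk]
        simp only [Nat.add_sub_cancel]
        ring
      · simp [hij]
    rw [this]
    exact h1

theorem cond {b p x v : ℕ} (hb : 1 ≤ b) (hp : p < b) :
    (p + b * v ≤ x ∧ b ∣ x - (p + b * v)) ↔ (p = x % b ∧ v ≤ x / b) := by
  constructor
  · rintro ⟨h1, k, hk⟩
    have hx : x = p + b * (v + k) := by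
      rw [Nat.mul_add]
      omega
    subst hx
    constructor
    · rw [Nat.add_mul_mod_self_left, Nat.mod_eq_of_lt hp]
    · rw [Nat.add_mul_div_left _ _ (by omega : 0 < b), Nat.div_eq_of_lt hp]
      omega
  · rintro ⟨h1, h2⟩
    obtain ⟨k, hk⟩ := Nat.exists_eq_add_of_le h2
    have hx : x = p + b * (v + k) := by
      rw [h1, ← hk]
      exact (Nat.mod_add_div x b).symm
    rw [Nat.mul_add] at hx
    refine ⟨by omega, ⟨k, by omega⟩⟩

end CLAS

theorem t_CLAS : M_CLAS := by
  intro hD r β L hβ hL
  have key : ∀ ρ : (∀ j : Fin r, Fin (β j)), ∃ (m : ℕ) (v : Fin m → Fin r → ℕ) (c : Fin m → ℤ),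
      (∀ s, v s ∈ {y : Fin r → ℕ | (fun j => (ρ j : ℕ) + β j * y j) ∈ L}) ∧
      ∀ x, (x ∈ {y : Fin r → ℕ | (fun j => (ρ j : ℕ) + β j * y j) ∈ L} →
          ∑ s, (if ∀ i, v s i ≤ x i then c s else 0) = 1) ∧
        (x ∉ {y : Fin r → ℕ | (fun j => (ρ j : ℕ) + β j * y j) ∈ L} →
          ∑ s, (if ∀ i, v s i ≤ x i then c s else 0) = 0) := by
    intro ρ
    refine hD r {y : Fin r → ℕ | (fun j => (ρ j : ℕ) + β j * y j) ∈ L} ?_
    intro x hx y hxy
    have h1 := CLAS.up β L hL _ hx _ (fun i => y i - x i) rfl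
    have h2 : (fun i => (fun j => (ρ j : ℕ) + β j * x j) i + β i * (fun i => y i - x i) i) =
        fun j => (ρ j : ℕ) + β j * y j := by
      funext i
      obtain ⟨k, hk⟩ := Nat.exists_eq_add_of_le (hxy i)
      simp only [hk, Nat.add_sub_cancel_left]
      ring
    rw [h2] at h1
    exact h1
  choose m v c hv hc using key
  let T := Σ ρ : (∀ j : Fin r, Fin (β j)), Fin (m ρ)
  let e : T ≃ Fin (Fintype.card T) := Fintype.equivFin T
  refine ⟨Fintype.card T, fun s j => (((e.symm s).1 j : Fin (β j)) : ℕ) +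
      β j * v (e.symm s).1 (e.symm s).2 j, fun s => c (e.symm s).1 (e.symm s).2, ?_, ?_⟩
  · intro s
    exact hv (e.symm s).1 (e.symm s).2
  · intro x
    have main : ∑ s : Fin (Fintype.card T), (if ∀ j, (((e.symm s).1 j : Fin (β j)) : ℕ) +
        β j * v (e.symm s).1 (e.symm s).2 j ≤ x j ∧
          β j ∣ x j - ((((e.symm s).1 j : Fin (β j)) : ℕ) + β j * v (e.symm s).1 (e.symm s).2 j)
          then c (e.symm s).1 (e.symm s).2 else 0) =
        ∑ s, (if ∀ i, v (fun j => ⟨x j % β j, Nat.mod_lt _ (hβ j)⟩) s i ≤ x i / β i then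
          c (fun j => ⟨x j % β j, Nat.mod_lt _ (hβ j)⟩) s else 0) := by
      rw [Equiv.sum_comp e.symm (fun t : T => if ∀ j, ((t.1 j : Fin (β j)) : ℕ) +
        β j * v t.1 t.2 j ≤ x j ∧ β j ∣ x j - (((t.1 j : Fin (β j)) : ℕ) + β j * v t.1 t.2 j)
          then c t.1 t.2 else 0)]
      rw [Fintype.sum_sigma]
      rw [Finset.sum_eq_single (fun j => (⟨x j % β j, Nat.mod_lt _ (hβ j)⟩ : Fin (β j)))]
      · refine Finset.sum_congr rfl fun s _ => ?_
        refine if_congr ?_ rfl rfl
        refine forall_congr' fun j => ?_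
        rw [CLAS.cond (hβ j) (Fin.is_lt _)]
        simp
      · intro ρ _ hρ
        refine Finset.sum_eq_zero fun s _ => ?_
        rw [if_neg]
        intro hall
        apply hρ
        funext j
        apply Fin.ext
        have := (CLAS.cond (hβ j) (Fin.is_lt (ρ j))).mp (hall j)
        exact this.1
      · intro h
        exact absurd (Finset.mem_univ _) h
    have hmem : (fun i => x i / β i) ∈ {y : Fin r → ℕ | (fun j =>
        (((fun j => (⟨x j % β j, Nat.mod_lt _ (hβ j)⟩ : Fin (β j))) j : Fin (β j)) : ℕ) +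
          β j * y j) ∈ L} ↔ x ∈ L := by
      have : (fun j => (((fun j => (⟨x j % β j, Nat.mod_lt _ (hβ j)⟩ : Fin (β j))) j :
          Fin (β j)) : ℕ) + β j * (fun i => x i / β i) j) = x := by
        funext j
        exact Nat.mod_add_div _ _
      show (fun j => (((fun j => (⟨x j % β j, Nat.mod_lt _ (hβ j)⟩ : Fin (β j))) j :
          Fin (β j)) : ℕ) + β j * (fun i => x i / β i) j) ∈ L ↔ x ∈ L
      rw [this]
    constructor
    · intro hx
      exact main.trans ((hc _ (fun i => x i / β i)).1 (hmem.mpr hx))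
    · intro hx
      exact main.trans ((hc _ (fun i => x i / β i)).2 (fun h => hx (hmem.mp h)))

end SYM
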