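import Pool.Agent.SYM.StQ
import Pool.Agent.LGR.LEMT
import Pool.Agent.LGR.CONJ
import Pool.Agent.LGR.TAUF

/-!
# Module CONQ: every element `(σ g)⁻¹ g` is conjugate under `K` to an exponential of an element of the maximal flat
-/

set_option autoImplicit false

namespace SYM

open STZ LGR MeasureTheory Matrix Filter

open scoped ComplexConjugate Matrix Real Topology

noncomputable section

namespace CONQ

variable {N : ℕ}

set_option backward.isDefEq.respectTransparency false in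
open scoped Matrix.Norms.Operator in
/-- a linear map is bounded -/
theorem tau_le (τ : Matrix (Fin N) (Fin N) ℂ →ₗ[ℝ] Matrix (Fin N) (Fin N) ℂ) :
    ∃ C : ℝ, 0 ≤ C ∧ ∀ (V : Matrix (Fin N) (Fin N) ℂ) (i j : Fin N),
      ‖τ V i j‖ ≤ C * ∑ k, ∑ l, ‖V k l‖ := by
  let τ' : Matrix (Fin N) (Fin N) ℂ →L[ℝ] Matrix (Fin N) (Fin N) ℂ := τ.toContinuousLinearMap
  refine ⟨‖τ'‖, norm_nonneg _, fun V i j => ?_⟩
  calc ‖τ V i j‖ ≤ ‖τ V‖ := LEMT.entry_le _ i j
    _ = ‖τ' V‖ := rfl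
    _ ≤ ‖τ'‖ * ‖V‖ := τ'.le_opNorm V
    _ ≤ ‖τ'‖ * ∑ k, ∑ l, ‖V k l‖ := mul_le_mul_of_nonneg_left (LEMT.le_sum V) (norm_nonneg _)

/-- the exponential is injective near `0` -/
theorem inj {c ε : ℝ} (hc : c * (N : ℝ) ^ 2 < 1)
    (h : ∀ A Y : Matrix (Fin N) (Fin N) ℂ, (∀ i j, ‖A i j‖ ≤ ε) → (∀ i j, ‖Y i j‖ ≤ ε) →
      ∀ i j, ‖(NormedSpace.exp A - NormedSpace.exp Y - (A - Y)) i j‖ ≤
        c * ∑ k, ∑ l, ‖(A - Y) k l‖)
    (A Y : Matrix (Fin N) (Fin N) ℂ) (hA : ∀ i j, ‖A i j‖ ≤ ε) (hY : ∀ i j, ‖Y i j‖ ≤ ε)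
    (he : NormedSpace.exp A = NormedSpace.exp Y) : A = Y := by
  have h1 : ∀ i j, ‖(A - Y) i j‖ ≤ c * ∑ k, ∑ l, ‖(A - Y) k l‖ := by
    intro i j
    have h2 := h A Y hA hY i j
    rw [he, sub_self, zero_sub, Matrix.neg_apply, norm_neg] at h2
    exact h2
  set S := ∑ k, ∑ l, ‖(A - Y) k l‖ with hS
  have hS0 : 0 ≤ S := Finset.sum_nonneg fun _ _ => Finset.sum_nonneg fun _ _ => norm_nonneg _
  have h2 : S ≤ c * (N : ℝ) ^ 2 * S := by
    calc S ≤ ∑ _k : Fin N, ∑ _l : Fin N, c * S :=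
          Finset.sum_le_sum fun k _ => Finset.sum_le_sum fun l _ => h1 k l
      _ = c * (N : ℝ) ^ 2 * S := by
        rw [Finset.sum_const, Finset.sum_const, Finset.card_univ, Fintype.card_fin, nsmul_eq_mul,
          nsmul_eq_mul]
        ring
  have h3 : S = 0 := by
    by_contra hne
    have h4 : 0 < S := lt_of_le_of_ne hS0 (Ne.symm hne)
    nlinarith
  ext i j
  have h4 := h1 i j
  rw [h3, mul_zero] at h4
  have h5 : (A - Y) i j = 0 := norm_eq_zero.1 (le_antisymm h4 (norm_nonneg _))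
  rw [Matrix.sub_apply] at h5
  exact sub_eq_zero.1 h5

section

variable {H K : Subgroup (SU N)} {σ : H →* H}
  {τ : Matrix (Fin N) (Fin N) ℂ →ₗ[ℝ] Matrix (Fin N) (Fin N) ℂ}
  {A : Submodule ℝ (Matrix (Fin N) (Fin N) ℂ)} {r : ℕ} {Φ : RT r} {B : Matrix (Fin r) (Fin r) ℤ}
  {Hc : Fin r → Matrix (Fin N) (Fin N) ℂ} {E : (Fin r → ℤ) × (Fin r → ℤ) → Matrix (Fin N) (Fin N) ℂ}
  {x₀ : Fin r → ℝ}

/-- an element of the tangent space which commutes with `hx x₀` is in `A` -/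
theorem regA (hw : WFF Φ B) (M : MaxAbP H τ A) (R : SR H A Φ B Hc E x₀)
    (Y : Matrix (Fin N) (Fin N) ℂ) (hY : Y ∈ lie H) (hτ : τ Y = -Y)
    (hYX : Y * hx Hc x₀ = hx Hc x₀ * Y) : Y ∈ A := by
  have hL := R.lrd
  obtain ⟨y, z, hyz⟩ := hL.span Y hY
  have hy : Y = hx Hc y + ∑ p ∈ pos Φ, (z p • E p - conj (z p) • (E p)ᴴ) := hyz
  have hpos : ∀ p ∈ pos Φ, p ∈ Φ := fun p hp => (Finset.mem_filter.1 hp).1
  -- the commutator with `(E p)ᴴ`
  have hstar : ∀ x, ∀ p ∈ Φ, hx Hc x * (E p)ᴴ - (E p)ᴴ * hx Hc x =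
      -((((∑ j, (p.1 j : ℝ) * x j : ℝ) : ℂ) * Complex.I) • (E p)ᴴ) := by
    intro x p hp
    have h1 := TAUF.ade hL (hw.neg p hp) x
    rw [hL.star p hp] at h1
    rw [h1, ← neg_smul]
    congr 1
    simp only [Pi.neg_apply]
    push_cast
    simp only [neg_mul, Finset.sum_neg_distrib]
  have h0 : ∑ p ∈ pos Φ, ((((∑ j, (p.1 j : ℝ) * x₀ j : ℝ) : ℂ) * Complex.I * z p) • E p +
      (((∑ j, (p.1 j : ℝ) * x₀ j : ℝ) : ℂ) * Complex.I * conj (z p)) • (E p)ᴴ) = 0 := by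
    have h1 : hx Hc x₀ * Y - Y * hx Hc x₀ = 0 := by rw [hYX, sub_self]
    rw [hy, Matrix.mul_add, Matrix.add_mul, (TAUF.hx_comm hL x₀ y).eq, add_sub_add_left_eq_sub,
      Finset.mul_sum, Finset.sum_mul, ← Finset.sum_sub_distrib] at h1
    rw [← h1]
    refine Finset.sum_congr rfl fun p hp => ?_
    have e1 := TAUF.ade hL (hpos p hp) x₀
    have e2 := hstar x₀ p (hpos p hp)
    rw [Matrix.mul_sub, Matrix.sub_mul, mul_smul_comm, mul_smul_comm, smul_mul_assoc, smul_mul_assoc,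
      sub_sub_sub_comm, ← smul_sub, ← smul_sub, e1, e2, smul_neg, sub_neg_eq_add, smul_smul, smul_smul]
    congr 2
    · ring
    · ring
  have hz : ∀ q ∈ pos Φ, dz q.1 x₀ = 0 ∨ z q = 0 := by
    intro q hq
    have h1 := congrArg (fun M => (M * (E q)ᴴ).trace) h0
    simp only [Matrix.zero_mul, Matrix.trace_zero, Finset.sum_mul, Matrix.trace_sum] at h1
    rw [Finset.sum_eq_single q] at h1
    · rw [Matrix.add_mul, Matrix.trace_add, smul_mul_assoc, smul_mul_assoc, Matrix.trace_smul,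
        Matrix.trace_smul] at h1
      have h2 : ((E q)ᴴ * (E q)ᴴ).trace = 0 := by
        rw [← hL.star q (hpos q hq)]
        have h3 := TAUF.orth hL (hw.neg q (hpos q hq)) (hpos q hq) (by
          intro h
          exact (hw.dich q (hpos q hq)).1 hq (by rw [h]; exact hq))
        rwa [← hL.star q (hpos q hq)] at h3
      have h3 : (E q * (E q)ᴴ).trace ≠ 0 := by
        intro h
        have h4 := (TAUF.tr_pos (TAUF.E_ne hL (hpos q hq))).1
        rw [h] at h4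
        simp at h4
      rw [h2, smul_zero, add_zero, smul_eq_mul, mul_eq_zero] at h1
      rcases h1 with h1 | h1
      · rw [mul_eq_zero, mul_eq_zero] at h1
        rcases h1 with (h1 | h1) | h1
        · exact Or.inl (by exact_mod_cast h1)
        · exact absurd h1 Complex.I_ne_zero
        · exact Or.inr h1
      · exact absurd h1 h3
    · intro p hp hpq
      have h2 : (E p * (E q)ᴴ).trace = 0 := TAUF.orth hL (hpos p hp) (hpos q hq) hpq
      have h3 : ((E p)ᴴ * (E q)ᴴ).trace = 0 := by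
        rw [← hL.star p (hpos p hp)]
        refine TAUF.orth hL (hw.neg p (hpos p hp)) (hpos q hq) ?_
        intro h
        exact (hw.dich p (hpos p hp)).1 hp (h ▸ hq)
      rw [Matrix.add_mul, Matrix.trace_add, smul_mul_assoc, smul_mul_assoc, Matrix.trace_smul,
        Matrix.trace_smul, h2, h3, smul_zero, smul_zero, add_zero]
    · intro h
      exact absurd hq h
  refine M.max Y hY hτ fun V hV => ?_
  obtain ⟨x, rfl⟩ := R.sub V hV
  have h1 : Commute Y (hx Hc x) := by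
    rw [hy]
    refine (TAUF.hx_comm hL y x).add_left (Commute.sum_left _ _ _ fun p hp => ?_)
    rcases hz p hp with h2 | h2
    · have h3 : (∑ j, (p.1 j : ℝ) * x j : ℝ) = 0 := R.x0r p (hpos p hp) h2 x hV
      have h4 : Commute (E p) (hx Hc x) := by
        have h5 := TAUF.ade hL (hpos p hp) x
        rw [h3, Complex.ofReal_zero, zero_mul, zero_smul, sub_eq_zero] at h5
        exact h5.symm
      have h6 : Commute (E p)ᴴ (hx Hc x) := by
        have h5 := hstar x p (hpos p hp)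
        rw [h3, Complex.ofReal_zero, zero_mul, zero_smul, neg_zero, sub_eq_zero] at h5
        exact h5.symm
      exact (h4.smul_left _).sub_left (h6.smul_left _)
    · rw [h2, map_zero, zero_smul, zero_smul, sub_zero]
      exact Commute.zero_left _
  exact h1.eq

/-- the element `(σ g)⁻¹ g` of `H` -/
def qg (σ : H →* H) (g : H) : H := (σ g)⁻¹ * g

theorem qg_coe (g : H) : (qg σ g).1.1 = yy σ g := rfl

theorem qg_inv (S : SymP H K σ τ) (g : H) : σ (qg σ g) = (qg σ g)⁻¹ := by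
  rw [qg, map_mul, map_inv, S.inv, _root_.mul_inv_rev, inv_inv]

theorem qg_mul (S : SymP H K σ τ) (g k : H) (hk : k.1 ∈ K) : qg σ (g * k) = k⁻¹ * qg σ g * k := by
  rw [qg, map_mul, S.fix k hk, _root_.mul_inv_rev, qg]
  group

theorem qg_cont (S : SymP H K σ τ) : Continuous (qg σ) := S.cont.inv.mul continuous_id

theorem exH_coe {X : Matrix (Fin N) (Fin N) ℂ} (hX : X ∈ lie H) (t : ℝ) : (exH H X t).1 = ex X t := by
  unfold exH
  rw [dif_pos (hX.2 t)]

theorem ex_inv {X : Matrix (Fin N) (Fin N) ℂ} (hX : X ∈ su N) (t : ℝ) : (ex X t)⁻¹ = ex X (-t) := by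
  rw [inv_eq_iff_mul_eq_one, ← (t_EXP N X hX).add, add_neg_cancel, (t_EXP N X hX).zero]

theorem ex_one {X : Matrix (Fin N) (Fin N) ℂ} (hX : X ∈ su N) : (ex X 1).1 = NormedSpace.exp X := by
  rw [(t_EXP N X hX).coe, Complex.ofReal_one, one_smul]

theorem ex_neg {X : Matrix (Fin N) (Fin N) ℂ} (hX : X ∈ su N) (hX' : -X ∈ su N) (t : ℝ) :
    ex (-X) t = (ex X t)⁻¹ := by
  rw [ex_inv hX]
  apply Subtype.ext
  rw [(t_EXP N _ hX').coe, (t_EXP N X hX).coe, smul_neg, Complex.ofReal_neg, neg_smul]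

theorem lneg (L : LIF H) {X : Matrix (Fin N) (Fin N) ℂ} (hX : X ∈ lie H) : -X ∈ lie H := by
  have h1 := L.smul (-1) X hX
  rwa [Complex.ofReal_neg, Complex.ofReal_one, neg_smul, one_smul] at h1

/-- the set of the conjugates of the exponentials of the elements of `A` -/
def St (K : Subgroup (SU N)) (A : Submodule ℝ (Matrix (Fin N) (Fin N) ℂ))
    (Hc : Fin r → Matrix (Fin N) (Fin N) ℂ) : Set (SU N) :=
  {g | ∃ k ∈ K, ∃ x : Fin r → ℝ, hx Hc x ∈ A ∧ g = k * ex (hx Hc x) 1 * k⁻¹}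

/-- the local statement -/
theorem loc (hL : S_LIEB) (hCL : S_CLSU) (hKl : S_LEMK) (hH : IsClosed (H : Set (SU N)))
    (hs : SimpleH H) (hw : WFF Φ B) (S : SymP H K σ τ) (T : TSF H σ τ) (TA : TAF H Φ Hc E)
    (M : MaxAbP H τ A) (R : SR H A Φ B Hc E x₀) (x₁ : Fin r → ℝ) (hx₁ : hx Hc x₁ ∈ A) :
    ∃ δ : ℝ, 0 < δ ∧ ∀ g : H, (∀ i j, ‖(qg σ g).1.1 i j - (ex (hx Hc x₁) 1).1 i j‖ < δ) →
      (qg σ g).1 ∈ St K A Hc := by
  have hl : LIF H := hL N H hH
  have hlK : LIF K := hL N K S.closed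
  have hX₀ : hx Hc x₁ ∈ lie H := M.sub _ hx₁
  have hX₀s := hl.su _ hX₀
  have hX₀τ := M.anti _ hx₁
  set X₀ : Matrix (Fin N) (Fin N) ℂ := hx Hc x₁ with hX₀d
  -- the square root
  set w : H := exH H X₀ (1 / 2) with hwd
  have hw1 : w.1 = ex X₀ (1 / 2) := exH_coe hX₀ _
  have hσw : σ w = w⁻¹ := by
    rw [hwd, S.dif X₀ hX₀, hX₀τ]
    apply Subtype.ext
    rw [exH_coe (lneg hl hX₀), ex_neg hX₀s (hl.su _ (lneg hl hX₀))]
    rw [Subgroup.coe_inv, exH_coe hX₀]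
  set W : SU N := w.1 with hWd
  have hy₀ : ex X₀ 1 = W * W := by
    rw [hw1, ← (t_EXP N X₀ hX₀s).add]
    norm_num
  -- constants
  set c : ℝ := 1 / (2 * ((N : ℝ) ^ 2 + 1)) with hc
  have hN2 : (0 : ℝ) < (N : ℝ) ^ 2 + 1 := by positivity
  have hc0 : 0 < c := by positivity
  have hc1 : c * (N : ℝ) ^ 2 < 1 := by
    rw [hc, div_mul_eq_mul_div, div_lt_one (by positivity)]
    nlinarith [sq_nonneg (N : ℝ)]
  obtain ⟨ε, hε, hst⟩ := LEMT.strict N c hc0
  obtain ⟨C, hC0, hCτ⟩ := tau_le τ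
  set ε' : ℝ := ε / (((N : ℝ) ^ 2 + 1) * (C + 1)) with hε'd
  have hε' : 0 < ε' := by positivity
  have hε1 : (N : ℝ) ^ 2 * ε' ≤ ε := by
    rw [hε'd, mul_div_assoc', div_le_iff₀ (by positivity)]
    have h1 : (N : ℝ) ^ 2 ≤ ((N : ℝ) ^ 2 + 1) * (C + 1) := by nlinarith [sq_nonneg (N : ℝ)]
    nlinarith
  have hε2 : C * ((N : ℝ) ^ 2 * ε') ≤ ε := by
    rw [hε'd, mul_div_assoc', mul_div_assoc', div_le_iff₀ (by positivity)]
    have h1 : C * (N : ℝ) ^ 2 ≤ ((N : ℝ) ^ 2 + 1) * (C + 1) := by nlinarith [sq_nonneg (N : ℝ)]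
    nlinarith
  have hε3 : ε' ≤ ε := by
    rw [hε'd, div_le_iff₀ (by positivity)]
    have h1 : (1 : ℝ) ≤ ((N : ℝ) ^ 2 + 1) * (C + 1) := by nlinarith [sq_nonneg (N : ℝ)]
    nlinarith
  obtain ⟨δ₀, hδ₀, hcl⟩ := hCL N H hH ε' hε'
  refine ⟨δ₀ / ((N : ℝ) ^ 3 + 1), by positivity, fun g hg => ?_⟩
  have hN3 : (0 : ℝ) < (N : ℝ) ^ 3 + 1 := by positivity
  set q : SU N := (qg σ g).1 with hq
  set y₀ : SU N := ex X₀ 1 with hy₀d
  -- the maximum
  have hKc : IsCompact (K : Set (SU N)) := S.closed.isCompact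
  have hcont : Continuous fun h : SU N => (h⁻¹ * q * h * y₀⁻¹).1.trace.re := by
    refine Complex.continuous_re.comp (continuous_trace.comp ?_)
    exact ((continuous_inv.mul continuous_const).mul continuous_id).mul continuous_const
  obtain ⟨k, hkK, hmax⟩ := hKc.exists_isMaxOn ⟨1, K.one_mem⟩ hcont.continuousOn
  have hmax' : ∀ x ∈ K, (x⁻¹ * q * x * y₀⁻¹).1.trace.re ≤ (k⁻¹ * q * k * y₀⁻¹).1.trace.re :=
    fun x hx => hmax hx
  set kH : H := ⟨k, S.sub hkK⟩ with hkH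
  set yH : H := qg σ (g * kH) with hyH
  have hyH1 : yH = kH⁻¹ * qg σ g * kH := qg_mul S g kH hkK
  have hσy : σ yH = yH⁻¹ := qg_inv S _
  set y' : SU N := k⁻¹ * q * k with hy'
  have hyy : yH.1 = y' := by
    rw [hyH1]
    rfl
  -- `y'` is near `y₀`
  have hclose : ∀ i j, ‖(y'.1 - y₀.1) i j‖ ≤ N * (δ₀ / ((N : ℝ) ^ 3 + 1)) := by
    have h1 : LEMT.nn (y'.1 - y₀.1) ≤ LEMT.nn (q.1 - y₀.1) := by
      rw [LEMT.nn_sub, LEMT.nn_sub]
      have h2 := hmax' 1 K.one_mem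
      rw [inv_one, one_mul, mul_one] at h2
      have h3 : (q * y₀⁻¹).1 = q.1 * y₀.1ᴴ := rfl
      have h4 : (y' * y₀⁻¹).1 = y'.1 * y₀.1ᴴ := rfl
      rw [h3, h4] at h2
      linarith
    have h5 := LEMT.nn_le (q.1 - y₀.1) (δ₀ / ((N : ℝ) ^ 3 + 1)) fun i j => (hg i j).le
    intro i j
    have h6 := LEMT.entry_sq_le (y'.1 - y₀.1) i j
    have h7 : (0 : ℝ) ≤ N * (δ₀ / ((N : ℝ) ^ 3 + 1)) := by positivity
    exact abs_le_of_sq_le_sq' (by linarith) h7 |>.2
  -- the logarithm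
  set v : H := w⁻¹ * yH * w⁻¹ with hv
  have hσv : σ v = v⁻¹ := by
    rw [hv, map_mul, map_mul, map_inv, hσw, hσy]
    group
  have hv1 : v.1 = W⁻¹ * y' * W⁻¹ := by
    rw [hv, Subgroup.coe_mul, Subgroup.coe_mul, Subgroup.coe_inv, hyy]
  have hlog : ∀ i j, ‖v.1.1 i j - (1 : Matrix (Fin N) (Fin N) ℂ) i j‖ < δ₀ := by
    intro i j
    have h0 : (1 : Matrix (Fin N) (Fin N) ℂ) = (W⁻¹).1 * y₀.1 * (W⁻¹).1 := by
      have h1 : (W⁻¹ * y₀ * W⁻¹) = 1 := by
        rw [hy₀]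
        group
      have h2 := congrArg Subtype.val h1
      exact h2.symm
    have h1 : v.1.1 - 1 = (W⁻¹).1 * (y'.1 - y₀.1) * (W⁻¹).1 := by
      rw [hv1, Matrix.mul_sub, Matrix.sub_mul, ← h0, coe_mul, coe_mul]
    have h2 := LEMT.mul_entry' W⁻¹ _ _ (LEMT.mul_entry W⁻¹ (y'.1 - y₀.1) _ hclose) i j
    rw [← h1, Matrix.sub_apply] at h2
    refine h2.trans_lt ?_
    have h3 : (N : ℝ) * (N * (N * (δ₀ / ((N : ℝ) ^ 3 + 1)))) = N ^ 3 * δ₀ / (N ^ 3 + 1) := by ring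
    rw [h3, div_lt_iff₀ hN3]
    nlinarith
  obtain ⟨V, hV, hVε, hVv⟩ := hcl v.1 v.2 hlog
  have hVs := hl.su V hV
  -- `τ V = -V`
  have hVH : v = exH H V 1 := by
    apply Subtype.ext
    rw [exH_coe hV, hVv]
  have hτV : τ V = -V := by
    have hτl := S.mem V hV
    have hnV := lneg hl hV
    refine inj hc1 hst (τ V) (-V) ?_ ?_ ?_
    · intro i j
      refine (hCτ V i j).trans (le_trans ?_ hε2)
      refine mul_le_mul_of_nonneg_left ?_ hC0
      calc ∑ k, ∑ l, ‖V k l‖ ≤ ∑ _k : Fin N, ∑ _l : Fin N, ε' :=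
            Finset.sum_le_sum fun k _ => Finset.sum_le_sum fun l _ => (hVε k l).le
        _ = (N : ℝ) ^ 2 * ε' := by
            rw [Finset.sum_const, Finset.sum_const, Finset.card_univ, Fintype.card_fin, nsmul_eq_mul,
              nsmul_eq_mul]
            ring
    · intro i j
      rw [Matrix.neg_apply, norm_neg]
      exact (hVε i j).le.trans hε3
    · have h1 : exH H (τ V) 1 = v⁻¹ := by
        rw [← S.dif V hV, ← hVH, hσv]
      have h2 := congrArg Subtype.val h1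
      rw [exH_coe hτl, Subgroup.coe_inv, ← hVv, ← ex_neg hVs (hl.su _ hnV)] at h2
      rw [← ex_one (hl.su _ hτl), ← ex_one (hl.su _ hnV), h2]
  -- the conjugates of `V`
  set Vp : Matrix (Fin N) (Fin N) ℂ := W.1 * V * W.1ᴴ with hVp
  set Vm : Matrix (Fin N) (Fin N) ℂ := (W⁻¹).1 * V * (W⁻¹).1ᴴ with hVm
  have hWH : W ∈ H := w.2
  have hVpl : Vp ∈ lie H := hl.ad W hWH V hV
  have hVml : Vm ∈ lie H := hl.ad W⁻¹ (H.inv_mem hWH) V hV
  have hτp : τ Vp = -Vm := by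
    have h1 := T.Ad w V hV
    rw [hσw, hτV] at h1
    rw [hVp, hVm]
    have h2 : ((w⁻¹ : H).1).1 = (W⁻¹).1 := rfl
    rw [h2] at h1
    rw [h1, Matrix.mul_neg, Matrix.neg_mul]
  have hτm : τ Vm = -Vp := by
    have h1 := T.Ad w⁻¹ V hV
    rw [map_inv, hσw, inv_inv, hτV] at h1
    rw [hVp, hVm]
    have h2 : ((w⁻¹ : H).1).1 = (W⁻¹).1 := rfl
    rw [h2] at h1
    rw [h1, Matrix.mul_neg, Matrix.neg_mul]
  have hvp : W * ex V 1 * W⁻¹ = ex Vp 1 := CONJ.ex_conj W V hVs (hl.su _ hVpl) 1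
  have hvm : W⁻¹ * ex V 1 * W = ex Vm 1 := by
    have h1 := CONJ.ex_conj W⁻¹ V hVs (hl.su _ hVml) 1
    rw [inv_inv] at h1
    exact h1
  have hyv : y' = W * ex V 1 * W := by
    rw [hVv, hv1]
    group
  have hGT : y'.1 * y₀.1ᴴ = NormedSpace.exp Vp := by
    have h1 : y' * y₀⁻¹ = ex Vp 1 := by
      rw [← hvp, hyv, hy₀]
      group
    have h2 := congrArg Subtype.val h1
    rw [ex_one (hl.su _ hVpl)] at h2
    exact h2
  have hTG : y₀.1ᴴ * y'.1 = NormedSpace.exp Vm := by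
    have h1 : y₀⁻¹ * y' = ex Vm 1 := by
      rw [← hvm, hyv, hy₀]
      group
    have h2 := congrArg Subtype.val h1
    rw [ex_one (hl.su _ hVml)] at h2
    exact h2
  have hcrit : ∀ U ∈ lie K, (U * (NormedSpace.exp Vp - NormedSpace.exp Vm)).trace.re = 0 := by
    intro U hU
    have hUs := hlK.su U hU
    have hd := LEMT.der U y'.1 y₀.1ᴴ
    have hm : IsLocalMax (fun s : ℝ => (NormedSpace.exp ((s : ℂ) • U) * y'.1 *
        NormedSpace.exp ((-(s : ℂ)) • U) * y₀.1ᴴ).trace.re) 0 := by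
      refine Filter.Eventually.of_forall fun s => ?_
      have h1 := hmax' (k * ex U (-s)) (K.mul_mem hkK (hU.2 (-s)))
      have h3 : (ex U (-s))⁻¹ = ex U s := by
        rw [ex_inv hUs, neg_neg]
      have h2 : (k * ex U (-s))⁻¹ * q * (k * ex U (-s)) * y₀⁻¹ = ex U s * y' * ex U (-s) * y₀⁻¹ := by
        rw [hy', _root_.mul_inv_rev, h3]
        group
      rw [h2] at h1
      have h4 : (ex U s * y' * ex U (-s) * y₀⁻¹).1 = NormedSpace.exp ((s : ℂ) • U) * y'.1 *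
          NormedSpace.exp ((-(s : ℂ)) • U) * y₀.1ᴴ := by
        rw [coe_mul, coe_mul, coe_mul, (t_EXP N U hUs).coe, (t_EXP N U hUs).coe, Complex.ofReal_neg,
          coe_inv]
      have h5 : (y' * y₀⁻¹).1 = NormedSpace.exp (((0 : ℝ) : ℂ) • U) * y'.1 *
          NormedSpace.exp ((-((0 : ℝ) : ℂ)) • U) * y₀.1ᴴ := by
        rw [Complex.ofReal_zero, neg_zero, EXP.exp_zero_smul, one_mul, mul_one, coe_mul, coe_inv]
      rw [h4, h5] at h1
      exact h1
    have h6 := hm.hasDerivAt_eq_zero hd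
    have h7 : ((U * y'.1 - y'.1 * U) * y₀.1ᴴ).trace =
        (U * (NormedSpace.exp Vp - NormedSpace.exp Vm)).trace := by
      rw [sub_mul, Matrix.trace_sub, mul_sub, Matrix.trace_sub, mul_assoc U, hGT, mul_assoc,
        Matrix.trace_mul_comm y'.1, mul_assoc, hTG]
    rw [h7] at h6
    exact h6
  -- the two conjugates are equal
  set u : Matrix (Fin N) (Fin N) ℂ := Vp - Vm with hu
  have hul : u ∈ lie H := by
    rw [hu, sub_eq_add_neg]
    exact hl.add _ hVpl _ (lneg hl hVml)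
  have huτ : τ u = u := by
    rw [hu, map_sub, hτp, hτm]
    abel
  have huK : u ∈ lie K := S.big u hul huτ
  have hVle : ∀ i j, ‖V i j‖ ≤ ε' := fun i j => (hVε i j).le
  have hple : ∀ i j, ‖Vp i j‖ ≤ ε := by
    intro i j
    have h1 := LEMT.mul_entry' W⁻¹ (W.1 * V) _ (LEMT.mul_entry W V _ hVle) i j
    have h2 : W.1 * V * (W⁻¹).1 = Vp := rfl
    rw [h2] at h1
    refine h1.trans ?_
    have h3 : (N : ℝ) * (N * ε') = N ^ 2 * ε' := by ring
    rw [h3]
    exact hε1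
  have hmle : ∀ i j, ‖Vm i j‖ ≤ ε := by
    intro i j
    have h1 := LEMT.mul_entry' W ((W⁻¹).1 * V) _ (LEMT.mul_entry W⁻¹ V _ hVle) i j
    have h2 : (W⁻¹).1 * V * W.1 = Vm := by
      rw [hVm, coe_inv, Matrix.conjTranspose_conjTranspose]
    rw [h2] at h1
    refine h1.trans ?_
    have h3 : (N : ℝ) * (N * ε') = N ^ 2 * ε' := by ring
    rw [h3]
    exact hε1
  have hu0 : u = 0 := by
    refine LEMT.quad u (NormedSpace.exp Vp - NormedSpace.exp Vm - u) c hc1 hc0.le (hl.su u hul).1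
      (hst Vp Vm hple hmle) ?_
    rw [add_sub_cancel]
    exact hcrit u huK
  have hpm : Vp = Vm := sub_eq_zero.1 hu0
  have hτZ : τ Vm = -Vm := by rw [hτm, hpm]
  have hWW : W.1ᴴ * W.1 = 1 := W.2.1.1
  have hWW' : W.1 * W.1ᴴ = 1 := W.2.1.2
  have hy₀m : y₀.1 = W.1 * W.1 := by
    rw [hy₀]
    rfl
  have hZy : Vm * y₀.1 = y₀.1 * Vm := by
    have h1 : Vm * y₀.1 = W.1 * V * W.1 := by
      rw [← hpm, hVp, hy₀m]
      calc W.1 * V * W.1ᴴ * (W.1 * W.1) = W.1 * V * (W.1ᴴ * W.1) * W.1 := by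
            simp only [Matrix.mul_assoc]
        _ = W.1 * V * W.1 := by rw [hWW, Matrix.mul_one]
    have h2 : y₀.1 * Vm = W.1 * V * W.1 := by
      rw [hVm, hy₀m, coe_inv, Matrix.conjTranspose_conjTranspose]
      calc W.1 * W.1 * (W.1ᴴ * V * W.1) = W.1 * (W.1 * W.1ᴴ) * V * W.1 := by
            simp only [Matrix.mul_assoc]
        _ = W.1 * V * W.1 := by rw [hWW', Matrix.mul_one]
    rw [h1, h2]
  have hHy : hx Hc x₀ * y₀.1 = y₀.1 * hx Hc x₀ := by
    have h1 : Commute (hx Hc x₀) X₀ := M.comm _ R.x0A _ hx₁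
    have h2 : y₀.1 = NormedSpace.exp X₀ := ex_one hX₀s
    rw [h2]
    exact h1.exp_right.eq
  obtain ⟨m, hm, hms, hmc⟩ := hKl N H K σ τ hH hs S {y₀.1} Vm (hx Hc x₀) hVml hτZ (M.sub _ R.x0A)
    (M.anti _ R.x0A) (fun s hs => by
      rw [Set.mem_singleton_iff.1 hs]
      exact ⟨hZy, hHy⟩)
  have hmy : m * y₀ = y₀ * m := Subtype.ext (hms y₀.1 rfl)
  set D : Matrix (Fin N) (Fin N) ℂ := m.1 * Vm * m.1ᴴ with hD
  have hmH : m ∈ H := S.sub hm
  have hDl : D ∈ lie H := hl.ad m hmH Vm hVml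
  have hDτ : τ D = -D := by
    have h1 := T.Ad ⟨m, hmH⟩ Vm hVml
    rw [S.fix ⟨m, hmH⟩ hm, hτZ] at h1
    rw [hD, h1, Matrix.mul_neg, Matrix.neg_mul]
  have hDA : D ∈ A := regA hw M R D hDl hDτ hmc
  obtain ⟨y₂, hy₂⟩ := R.sub D hDA
  have hsum : hx Hc (x₁ + y₂) ∈ A := by
    rw [TAUF.hx_add, ← hy₂]
    exact A.add_mem hx₁ hDA
  have hmul : ex (hx Hc (x₁ + y₂)) 1 = y₀ * ex D 1 := by
    rw [hy₀d, hX₀d, hy₂, ← CONJ.hx_ta, ← CONJ.hx_ta, ← CONJ.hx_ta, ← TA.add]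
    congr 1
    funext j
    simp only [Pi.add_apply]
    ring
  have hfin : m * y' * m⁻¹ = ex (hx Hc (x₁ + y₂)) 1 := by
    have h1 : y' = y₀ * ex Vm 1 := by
      rw [← hvm, hyv, hy₀]
      group
    have h2 : m * ex Vm 1 * m⁻¹ = ex D 1 := CONJ.ex_conj m Vm (hl.su _ hVml) (hl.su _ hDl) 1
    rw [hmul, ← h2, h1]
    calc m * (y₀ * ex Vm 1) * m⁻¹ = (m * y₀) * ex Vm 1 * m⁻¹ := by group
      _ = y₀ * m * ex Vm 1 * m⁻¹ := by rw [hmy]
      _ = y₀ * (m * ex Vm 1 * m⁻¹) := by group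
  refine ⟨k * m⁻¹, K.mul_mem hkK (K.inv_mem hm), x₁ + y₂, hsum, ?_⟩
  rw [← hfin, hy']
  group

theorem St_closed (S : SymP H K σ τ) (TA : TAF H Φ Hc E) {θ : Matrix (Fin r) (Fin r) ℤ}
    (Q : SRA τ A Φ Hc E x₀ θ) : IsClosed (St K A Hc) := by
  have hc : IsCompact ((K : Set (SU N)) ×ˢ Set.Icc (0 : Fin r → ℝ) 1) :=
    S.closed.isCompact.prod isCompact_Icc
  have hf : Continuous fun p : SU N × (Fin r → ℝ) =>
      p.1 * ta Hc (fun i => p.2 i - ∑ j, (θ i j : ℝ) * p.2 j) * p.1⁻¹ := by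
    refine (continuous_fst.mul (TA.cont.comp ?_)).mul continuous_fst.inv
    refine continuous_pi fun i => ?_
    have h1 : ∀ j, Continuous fun p : SU N × (Fin r → ℝ) => p.2 j :=
      fun j => (continuous_apply j).comp continuous_snd
    exact (h1 i).sub (continuous_finsetSum _ fun j _ => continuous_const.mul (h1 j))
  have h1 := (hc.image hf).isClosed
  have h2 : St K A Hc = (fun p : SU N × (Fin r → ℝ) =>
      p.1 * ta Hc (fun i => p.2 i - ∑ j, (θ i j : ℝ) * p.2 j) * p.1⁻¹) ''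
      ((K : Set (SU N)) ×ˢ Set.Icc (0 : Fin r → ℝ) 1) := by
    ext g
    constructor
    · rintro ⟨k, hk, x, hxA, e⟩
      have hθ := (Q.A x).1 hxA
      refine ⟨(k, fun j => Int.fract (x j / (4 * π))), ⟨hk, fun j => Int.fract_nonneg _,
        fun j => (Int.fract_lt_one _).le⟩, ?_⟩
      have h3 : (fun j => x j / (2 * π)) =
          (fun i => Int.fract (x i / (4 * π)) - ∑ j, (θ i j : ℝ) * Int.fract (x j / (4 * π))) +
          (fun i => ((⌊x i / (4 * π)⌋ - ∑ j, θ i j * ⌊x j / (4 * π)⌋ : ℤ) : ℝ)) := by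
        funext i
        rw [Pi.add_apply]
        push_cast
        have h4 : ∑ j, (θ i j : ℝ) * (x j / (4 * π)) = -(x i / (4 * π)) := by
          have h5 := hθ i
          calc ∑ j, (θ i j : ℝ) * (x j / (4 * π)) = (∑ j, (θ i j : ℝ) * x j) / (4 * π) := by
                rw [Finset.sum_div]
                exact Finset.sum_congr rfl fun j _ => by ring
            _ = -(x i / (4 * π)) := by rw [h5]; ring
        have h6 : ∑ j, (θ i j : ℝ) * Int.fract (x j / (4 * π)) +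
            ∑ j, (θ i j : ℝ) * (⌊x j / (4 * π)⌋ : ℝ) = -(x i / (4 * π)) := by
          rw [← Finset.sum_add_distrib, ← h4]
          refine Finset.sum_congr rfl fun j _ => ?_
          rw [← mul_add, Int.fract_add_floor]
        have h7 := Int.fract_add_floor (x i / (4 * π))
        have hpi : π ≠ 0 := Real.pi_ne_zero
        have h8 : x i / (2 * π) = 2 * (x i / (4 * π)) := by
          field_simp
          ring
        rw [h8]
        linarith
      have h4 : ta Hc (fun i => Int.fract (x i / (4 * π)) -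
          ∑ j, (θ i j : ℝ) * Int.fract (x j / (4 * π))) = ex (hx Hc x) 1 := by
        rw [← CONJ.hx_ta, h3, TA.add,
          TA.int fun i => ⌊x i / (4 * π)⌋ - ∑ j, θ i j * ⌊x j / (4 * π)⌋, mul_one]
      show k * ta Hc (fun i => Int.fract (x i / (4 * π)) -
          ∑ j, (θ i j : ℝ) * Int.fract (x j / (4 * π))) * k⁻¹ = g
      rw [h4, e]
    · rintro ⟨⟨k, f⟩, ⟨hk, -⟩, rfl⟩
      refine ⟨k, hk, fun i => 2 * π * (f i - ∑ j, (θ i j : ℝ) * f j), ?_, rfl⟩
      rw [Q.A]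
      intro i
      have h3 : ∀ k, ∑ j, (θ i j : ℝ) * (θ j k : ℝ) = if i = k then 1 else 0 := by
        intro k
        have h4 := congrFun (congrFun Q.sq i) k
        rw [Matrix.mul_apply, Matrix.one_apply] at h4
        have h5 := congrArg (fun z : ℤ => (z : ℝ)) h4
        push_cast at h5
        exact h5
      have h4 : ∑ j, (θ i j : ℝ) * ∑ k, (θ j k : ℝ) * f k = f i := by
        calc ∑ j, (θ i j : ℝ) * ∑ k, (θ j k : ℝ) * f k
            = ∑ j, ∑ k, (θ i j : ℝ) * (θ j k : ℝ) * f k := by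
              refine Finset.sum_congr rfl fun j _ => ?_
              rw [Finset.mul_sum]
              exact Finset.sum_congr rfl fun k _ => by ring
          _ = ∑ k, ∑ j, (θ i j : ℝ) * (θ j k : ℝ) * f k := Finset.sum_comm
          _ = ∑ k, (if i = k then 1 else 0) * f k := by
              refine Finset.sum_congr rfl fun k _ => ?_
              rw [← Finset.sum_mul, h3]
          _ = f i := by simp
      calc ∑ j, (θ i j : ℝ) * (2 * π * (f j - ∑ k, (θ j k : ℝ) * f k))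
          = 2 * π * (∑ j, (θ i j : ℝ) * f j - ∑ j, (θ i j : ℝ) * ∑ k, (θ j k : ℝ) * f k) := by
            rw [← Finset.sum_sub_distrib, Finset.mul_sum]
            exact Finset.sum_congr rfl fun j _ => by ring
        _ = -(2 * π * (f i - ∑ j, (θ i j : ℝ) * f j)) := by
            rw [h4]
            ring
  rw [h2]
  exact h1

end

end CONQ

open CONQ in
theorem t_CONQ : M_CONQ := by
  intro _ hL hCL hWF hTF hTS hKl N H K σ τ A l Φ B Hc E x₀ θ r s ε D g
  have hw : WFF Φ B := hWF l Φ B D.sr.lrd.ird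
  have TA : TAF H Φ Hc E := hTF N H l Φ B Hc E D.closed D.sr.lrd
  have T : TSF H σ τ := hTS N H K σ τ D.closed D.simple D.sym
  have S := D.sym
  have hl : LIF H := hL N H D.closed
  have hSc : IsClosed (St K A Hc) := St_closed S TA D.sra
  -- the set of the good elements
  set G : Set H := {g : H | (qg σ g).1 ∈ St K A Hc} with hG
  have hcq : Continuous fun g : H => (qg σ g).1 := continuous_subtype_val.comp (qg_cont S)
  have hGc : IsClosed G := hSc.preimage hcq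
  have hGo : IsOpen G := by
    rw [isOpen_iff_mem_nhds]
    rintro g₀ ⟨k, hk, x, hxA, e⟩
    obtain ⟨δ, hδ, hδ2⟩ := loc hL hCL hKl D.closed D.simple hw S T TA D.maxab D.sr x hxA
    have hU : IsOpen {g : H | ∀ i j, ‖(k⁻¹ * (qg σ g).1 * k).1 i j - (ex (hx Hc x) 1).1 i j‖ < δ} := by
      have h1 : {g : H | ∀ i j, ‖(k⁻¹ * (qg σ g).1 * k).1 i j - (ex (hx Hc x) 1).1 i j‖ < δ} =
          ⋂ i, ⋂ j, {g : H | ‖(k⁻¹ * (qg σ g).1 * k).1 i j - (ex (hx Hc x) 1).1 i j‖ < δ} := by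
        ext g
        simp
      rw [h1]
      refine isOpen_iInter_of_finite fun i => isOpen_iInter_of_finite fun j => ?_
      have h2 : Continuous fun g : H => (k⁻¹ * (qg σ g).1 * k).1 i j :=
        (continuous_entry i j).comp ((continuous_const.mul hcq).mul continuous_const)
      exact isOpen_lt (h2.sub continuous_const).norm continuous_const
    refine Filter.mem_of_superset (hU.mem_nhds ?_) ?_
    · intro i j
      have e2 : k⁻¹ * (qg σ g₀).1 * k = ex (hx Hc x) 1 := by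
        rw [e]
        group
      rw [e2, sub_self, norm_zero]
      exact hδ
    · intro g hg
      have hkH : k ∈ H := S.sub hk
      have h1 : (qg σ (g * ⟨k, hkH⟩)).1 = k⁻¹ * (qg σ g).1 * k := by
        rw [qg_mul S g ⟨k, hkH⟩ hk]
        rfl
      obtain ⟨m, hm, y, hy, e2⟩ := hδ2 (g * ⟨k, hkH⟩) (by
        rw [h1]
        exact hg)
      refine ⟨k * m, K.mul_mem hk hm, y, hy, ?_⟩
      rw [h1] at e2
      have e3 : (qg σ g).1 = k * (k⁻¹ * (qg σ g).1 * k) * k⁻¹ := by group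
      rw [e3, e2]
      group
  haveI : PreconnectedSpace H := isPreconnected_iff_preconnectedSpace.1 D.conn.isPreconnected
  have h1 : (1 : H) ∈ G := by
    refine ⟨1, K.one_mem, 0, ?_, ?_⟩
    · have h0 : hx Hc (0 : Fin l → ℝ) = 0 := by
        simp [hx]
      rw [h0]
      exact A.zero_mem
    · have h0 : ex (hx Hc (0 : Fin l → ℝ)) 1 = 1 := by
        rw [← CONJ.hx_ta]
        have h2 := TA.int (fun _ => 0)
        have h3 : (fun _ : Fin l => (((0 : ℤ) : ℝ))) = fun j => (0 : Fin l → ℝ) j / (2 * π) := by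
          funext j
          simp
        rw [h3] at h2
        exact h2
      have h2 : qg σ 1 = 1 := by
        rw [qg, map_one, inv_one, one_mul]
      rw [h0, h2]
      simp
  have hu : G = Set.univ := by
    rcases isClopen_iff.1 ⟨hGc, hGo⟩ with h | h
    · rw [h] at h1
      exact absurd h1 (Set.notMem_empty _)
    · exact h
  have hg : g ∈ G := by
    rw [hu]
    trivial
  obtain ⟨k, hk, x, hxA, e⟩ := hg
  refine ⟨k, hk, x, hxA, ?_⟩
  rw [← qg_coe, e]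
  have h2 : (k * ex (hx Hc x) 1 * k⁻¹).1 = k.1 * (ex (hx Hc x) 1).1 * k.1ᴴ := rfl
  rw [h2, ex_one (hl.su _ (TA.hmem x))]

end

end SYM
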