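import Pool.Agent.SYM.StT

/-!
# CUTS: the facts about the cutoffs
-/

namespace SYM

open STZ LGR MeasureTheory Matrix Filter

open scoped ComplexConjugate Matrix Real Topology

namespace CUTS

theorem fc_zero (M : ℕ) (k : ℤ) : fc M 0 k = if k = 0 then 1 else 0 := rfl

theorem fc_succ (M i : ℕ) (k : ℤ) :
    fc M (i + 1) k = (∑ a ∈ Finset.range M, ∑ b ∈ Finset.range M, fc M i (k - a - b)) / (M : ℝ) ^ 2 := rfl

theorem nn (M i : ℕ) (k : ℤ) : 0 ≤ fc M i k := by
  induction i generalizing k with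
  | zero =>
    rw [fc_zero]
    split_ifs <;> norm_num
  | succ i ih =>
    rw [fc_succ]
    apply div_nonneg _ (by positivity)
    exact Finset.sum_nonneg fun a _ => Finset.sum_nonneg fun b _ => ih _

theorem mean_le {M : ℕ} (hM : 1 ≤ M) (f : ℕ → ℕ → ℝ) (c : ℝ) (h : ∀ a b, f a b ≤ c) :
    (∑ a ∈ Finset.range M, ∑ b ∈ Finset.range M, f a b) / (M : ℝ) ^ 2 ≤ c := by
  have hM' : (0 : ℝ) < M := by exact_mod_cast hM
  rw [div_le_iff₀ (by positivity)]
  have h1 : ∑ a ∈ Finset.range M, ∑ b ∈ Finset.range M, f a b ≤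
      ∑ a ∈ Finset.range M, ∑ b ∈ Finset.range M, c :=
    Finset.sum_le_sum fun a _ => Finset.sum_le_sum fun b _ => h a b
  simp only [Finset.sum_const, Finset.card_range, nsmul_eq_mul] at h1
  nlinarith

theorem fc_one (M : ℕ) (k : ℤ) : fc M 1 k =
    (∑ a ∈ Finset.range M, ∑ b ∈ Finset.range M, if k - a - b = 0 then (1 : ℝ) else 0) / (M : ℝ) ^ 2 := rfl

theorem le1 {M : ℕ} (hM : 1 ≤ M) (k : ℤ) : fc M 1 k ≤ 1 / M := by
  have hM' : (0 : ℝ) < M := by exact_mod_cast hM
  rw [fc_one, div_le_div_iff₀ (by positivity) hM', one_mul]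
  have h1 : ∀ a ∈ Finset.range M, ∑ b ∈ Finset.range M, (if k - a - b = 0 then (1 : ℝ) else 0) ≤ 1 := by
    intro a _
    by_cases h : ∃ b ∈ Finset.range M, k - a - b = 0
    · obtain ⟨b, hb, h⟩ := h
      rw [Finset.sum_eq_single_of_mem b hb]
      · split_ifs <;> norm_num
      · intro c _ hc
        rw [if_neg]
        omega
    · push Not at h
      rw [Finset.sum_eq_zero]
      · norm_num
      · intro b hb
        rw [if_neg (h b hb)]
  have h2 := Finset.sum_le_sum h1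
  simp only [Finset.sum_const, Finset.card_range, nsmul_eq_mul, mul_one] at h2
  nlinarith

theorem le' {M : ℕ} (hM : 1 ≤ M) (i : ℕ) (k : ℤ) : fc M (i + 1) k ≤ 1 / M := by
  induction i generalizing k with
  | zero => exact le1 hM k
  | succ i ih =>
    rw [fc_succ]
    exact mean_le hM _ _ fun a b => ih _

/-- telescoping -/
theorem tele (M : ℕ) (c : ℤ) : ∑ b ∈ Finset.range M, ((if c + 1 - b = 0 then (1 : ℝ) else 0) - if c - b = 0 then (1 : ℝ) else 0) =
    (if c = -1 then (1 : ℝ) else 0) - if c + 1 = M then (1 : ℝ) else 0 := by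
  induction M with
  | zero =>
    simp only [Finset.range_zero, Finset.sum_empty]
    by_cases h : c = -1
    · subst h
      norm_num
    · rw [if_neg h, if_neg (by push_cast; omega)]
      norm_num
  | succ M ih =>
    rw [Finset.sum_range_succ, ih]
    have e1 : (c + 1 - (M : ℤ) = 0) ↔ c + 1 = M := by omega
    have e2 : (c - (M : ℤ) = 0) ↔ (c + 1 = ((M + 1 : ℕ) : ℤ)) := by push_cast; omega
    simp only [e1, e2]
    ring

theorem cnt_le (M : ℕ) (P : ℕ → Prop) [DecidablePred P] (hP : ∀ a b, P a → P b → a = b) :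
    ∑ a ∈ Finset.range M, (if P a then (1 : ℝ) else 0) ≤ 1 := by
  by_cases h : ∃ b ∈ Finset.range M, P b
  · obtain ⟨b, hb, h⟩ := h
    rw [Finset.sum_eq_single_of_mem b hb]
    · split_ifs <;> norm_num
    · intro c _ hc
      rw [if_neg]
      intro h2
      exact hc (hP _ _ h2 h)
  · push Not at h
    rw [Finset.sum_eq_zero]
    · norm_num
    · intro b hb
      rw [if_neg (h b hb)]

theorem cnt_nn (M : ℕ) (P : ℕ → Prop) [DecidablePred P] :
    0 ≤ ∑ a ∈ Finset.range M, (if P a then (1 : ℝ) else 0) :=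
  Finset.sum_nonneg fun a _ => by split_ifs <;> norm_num

theorem dif1 {M : ℕ} (hM : 1 ≤ M) (k : ℤ) : |fc M 1 (k + 1) - fc M 1 k| ≤ 1 / (M : ℝ) ^ 2 := by
  have hM' : (0 : ℝ) < M := by exact_mod_cast hM
  have h1 : ∑ a ∈ Finset.range M, ∑ b ∈ Finset.range M, (if k + 1 - a - b = 0 then (1 : ℝ) else 0) -
      ∑ a ∈ Finset.range M, ∑ b ∈ Finset.range M, (if k - a - b = 0 then (1 : ℝ) else 0) =
      ∑ a ∈ Finset.range M, (if k - a = -1 then (1 : ℝ) else 0) -
      ∑ a ∈ Finset.range M, (if k - a + 1 = M then (1 : ℝ) else 0) := by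
    rw [← Finset.sum_sub_distrib, ← Finset.sum_sub_distrib]
    apply Finset.sum_congr rfl
    intro a _
    rw [← Finset.sum_sub_distrib, ← tele]
    apply Finset.sum_congr rfl
    intro b _
    have e1 : (k + 1 - (a : ℤ) - b = 0) ↔ (k - a + 1 - b = 0) := by omega
    simp only [e1]
  rw [fc_one, fc_one, ← sub_div, h1, abs_div, abs_of_pos (by positivity : (0 : ℝ) < (M : ℝ) ^ 2)]
  apply div_le_div_of_nonneg_right _ (by positivity)
  have a1 := cnt_le M (fun a => k - a = -1) (by intro a b; omega)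
  have a2 := cnt_le M (fun a => k - a + 1 = M) (by intro a b; omega)
  have a3 := cnt_nn M (fun a => k - a = -1)
  have a4 := cnt_nn M (fun a => k - a + 1 = M)
  rw [abs_le]
  constructor <;> linarith

theorem dif' {M : ℕ} (hM : 1 ≤ M) (i : ℕ) (k : ℤ) : |fc M (i + 1) (k + 1) - fc M (i + 1) k| ≤ 1 / (M : ℝ) ^ 2 := by
  induction i generalizing k with
  | zero => exact dif1 hM k
  | succ i ih =>
    have hM' : (0 : ℝ) < M := by exact_mod_cast hM
    rw [fc_succ, fc_succ, ← sub_div, abs_div, abs_of_pos (by positivity : (0 : ℝ) < (M : ℝ) ^ 2),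
      ← Finset.sum_sub_distrib]
    refine le_trans (div_le_div_of_nonneg_right (Finset.abs_sum_le_sum_abs _ _) (by positivity)) ?_
    refine le_trans (div_le_div_of_nonneg_right (Finset.sum_le_sum (fun a _ => ?_)) (by positivity)) (mean_le hM
      (fun a b => |fc M (i + 1) (k + 1 - a - b) - fc M (i + 1) (k - a - b)|) _ fun a b => ?_)
    · rw [← Finset.sum_sub_distrib]
      exact Finset.abs_sum_le_sum_abs _ _
    · have e1 : k + 1 - (a : ℤ) - b = (k - a - b) + 1 := by ring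
      show |fc M (i + 1) (k + 1 - a - b) - fc M (i + 1) (k - a - b)| ≤ _
      rw [e1]
      exact ih _

theorem supp {M : ℕ} (hM : 1 ≤ M) (i : ℕ) (k : ℤ) (h : fc M i k ≠ 0) : 0 ≤ k ∧ k < 2 * i * M + 1 := by
  induction i generalizing k with
  | zero =>
    rw [fc_zero] at h
    have : k = 0 := by
      by_contra hk
      exact h (if_neg hk)
    subst this
    constructor
    · exact le_refl _
    · simp
  | succ i ih =>
    rw [fc_succ] at h
    have h1 : ∑ a ∈ Finset.range M, ∑ b ∈ Finset.range M, fc M i (k - a - b) ≠ 0 := by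
      intro h0
      exact h (by rw [h0, zero_div])
    obtain ⟨a, ha, h2⟩ := Finset.exists_ne_zero_of_sum_ne_zero h1
    obtain ⟨b, hb, h3⟩ := Finset.exists_ne_zero_of_sum_ne_zero h2
    have ha' : a < M := by simpa using ha
    have hb' : b < M := by simpa using hb
    obtain ⟨h4, h5⟩ := ih _ h3
    push_cast
    constructor
    · omega
    · have : (2 * ((i : ℤ) + 1) * M + 1) = 2 * i * M + 1 + 2 * M := by ring
      rw [this]
      omega

theorem supp0 {M : ℕ} (hM : 1 ≤ M) {i : ℕ} {k : ℤ} (h : k < 0 ∨ 2 * i * M + 1 ≤ k) : fc M i k = 0 := by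
  by_contra h1
  obtain ⟨h2, h3⟩ := supp hM i k h1
  omega

/-- the generating function, summed over a larger interval -/
theorem pow' {M : ℕ} (hM : 1 ≤ M) (i : ℕ) (z : ℂ) : ∀ U : ℤ, 2 * i * M + 1 ≤ U →
    AV M z ^ (2 * i) = ∑ k ∈ Finset.Ico (0 : ℤ) U, (fc M i k : ℂ) * z ^ k.toNat := by
  induction i with
  | zero =>
    intro U hU
    have hU' : 0 < U := by
      push_cast at hU
      omega
    rw [Finset.sum_eq_single_of_mem 0 (by simp [hU'])]
    · simp [fc_zero]
    · intro k _ hk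
      simp [fc_zero, hk]
  | succ i ih =>
    intro U hU
    have hM' : (M : ℂ) ≠ 0 := by
      have : M ≠ 0 := by omega
      exact_mod_cast this
    have hsh : ∀ s : ℕ, s ≤ 2 * M → ∑ k ∈ Finset.Ico (0 : ℤ) U, (fc M i (k - s) : ℂ) * z ^ k.toNat =
        AV M z ^ (2 * i) * z ^ s := by
      intro s hs
      have hU' : 2 * (i : ℤ) * M + 1 ≤ U - s := by
        push_cast at hU
        have : (2 * ((i : ℤ) + 1) * M + 1) = 2 * i * M + 1 + 2 * M := by ring
        rw [this] at hU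
        omega
      rw [ih (U - s) hU', Finset.sum_mul]
      have e1 : ∑ k ∈ Finset.Ico (0 : ℤ) (U - s), (fc M i k : ℂ) * z ^ k.toNat * z ^ s =
          ∑ k ∈ Finset.Ico (s : ℤ) U, (fc M i (k - s) : ℂ) * z ^ k.toNat := by
        refine Finset.sum_bij' (fun k _ => k + s) (fun k _ => k - s) ?_ ?_ ?_ ?_ ?_
        · intro k hk
          simp only [Finset.mem_Ico] at *
          omega
        · intro k hk
          simp only [Finset.mem_Ico] at *
          omega
        · intro k _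
          ring
        · intro k _
          ring
        · intro k hk
          simp only [Finset.mem_Ico] at hk
          have e2 : k + (s : ℤ) - s = k := by ring
          have e3 : (k + (s : ℤ)).toNat = k.toNat + s := by omega
          rw [e2, e3, pow_add, mul_assoc]
      rw [e1]
      symm
      apply Finset.sum_subset
      · intro k hk
        simp only [Finset.mem_Ico] at *
        omega
      · intro k hk hk2
        simp only [Finset.mem_Ico] at *
        rw [supp0 hM (Or.inl (by omega))]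
        simp
    have e1 : AV M z ^ (2 * (i + 1)) = AV M z ^ (2 * i) * AV M z * AV M z := by
      rw [mul_add, mul_one, pow_add]
      ring
    have e2 : ∀ k : ℤ, ((fc M (i + 1) k : ℝ) : ℂ) =
        (∑ a ∈ Finset.range M, ∑ b ∈ Finset.range M, (fc M i (k - a - b) : ℂ)) / (M : ℂ) ^ 2 := by
      intro k
      rw [fc_succ]
      push_cast
      rfl
    have e3 : ∑ k ∈ Finset.Ico (0 : ℤ) U, (fc M (i + 1) k : ℂ) * z ^ k.toNat =
        (∑ a ∈ Finset.range M, ∑ b ∈ Finset.range M, ∑ k ∈ Finset.Ico (0 : ℤ) U,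
          (fc M i (k - a - b) : ℂ) * z ^ k.toNat) / (M : ℂ) ^ 2 := by
      have : ∀ k ∈ Finset.Ico (0 : ℤ) U, (fc M (i + 1) k : ℂ) * z ^ k.toNat =
          (∑ a ∈ Finset.range M, ∑ b ∈ Finset.range M, (fc M i (k - a - b) : ℂ) * z ^ k.toNat) / (M : ℂ) ^ 2 := by
        intro k _
        rw [e2]
        simp only [Finset.sum_mul, div_mul_eq_mul_div]
      rw [Finset.sum_congr rfl this, ← Finset.sum_div, Finset.sum_comm]
      congr 1
      apply Finset.sum_congr rfl
      intro a _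
      rw [Finset.sum_comm]
    have e4 : ∀ a ∈ Finset.range M, ∑ b ∈ Finset.range M, ∑ k ∈ Finset.Ico (0 : ℤ) U,
          (fc M i (k - a - b) : ℂ) * z ^ k.toNat = ∑ b ∈ Finset.range M, AV M z ^ (2 * i) * z ^ (a + b) := by
      intro a ha
      apply Finset.sum_congr rfl
      intro b hb
      have ha' : a < M := by simpa using ha
      have hb' : b < M := by simpa using hb
      rw [← hsh (a + b) (by omega)]
      apply Finset.sum_congr rfl
      intro k _
      have : k - (a : ℤ) - b = k - ((a + b : ℕ) : ℤ) := by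
        push_cast
        ring
      rw [this]
    rw [e3, Finset.sum_congr rfl e4, e1]
    have e5 : AV M z = (∑ j ∈ Finset.range M, z ^ j) / M := rfl
    have e6 : ∑ a ∈ Finset.range M, ∑ b ∈ Finset.range M, AV M z ^ (2 * i) * z ^ (a + b) =
        AV M z ^ (2 * i) * ((∑ j ∈ Finset.range M, z ^ j) * (∑ j ∈ Finset.range M, z ^ j)) := by
      rw [Finset.sum_mul_sum, Finset.mul_sum]
      apply Finset.sum_congr rfl
      intro a _
      rw [Finset.mul_sum]
      apply Finset.sum_congr rfl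
      intro b _
      rw [pow_add]
    rw [e6]
    have e7 : (∑ j ∈ Finset.range M, z ^ j) = M * AV M z := by
      rw [e5]
      field_simp
    rw [e7]
    field_simp

theorem AV_le {M : ℕ} (hM : 1 ≤ M) {z : ℂ} (hz : ‖z‖ ≤ 1) : ‖AV M z‖ ≤ 1 := by
  have hM' : (0 : ℝ) < M := by exact_mod_cast hM
  rw [AV, norm_div, Complex.norm_natCast, div_le_one hM']
  refine (norm_sum_le _ _).trans ?_
  have : ∀ j ∈ Finset.range M, ‖z ^ j‖ ≤ 1 := by
    intro j _
    rw [norm_pow]
    exact pow_le_one₀ (norm_nonneg _) hz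
  have h := Finset.sum_le_sum this
  simpa using h

theorem one_sub_pow {z : ℂ} (hz : ‖z‖ ≤ 1) (j : ℕ) : ‖1 - z ^ j‖ ≤ j * ‖z - 1‖ := by
  induction j with
  | zero => simp
  | succ j ih =>
    have e1 : 1 - z ^ (j + 1) = (1 - z ^ j) - z ^ j * (z - 1) := by ring
    rw [e1]
    refine (norm_sub_le _ _).trans ?_
    rw [norm_mul, norm_pow]
    have h1 : ‖z‖ ^ j ≤ 1 := pow_le_one₀ (norm_nonneg _) hz
    have h2 : ‖z‖ ^ j * ‖z - 1‖ ≤ 1 * ‖z - 1‖ := mul_le_mul_of_nonneg_right h1 (norm_nonneg _)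
    push_cast
    linarith

theorem one_sub_AV {M : ℕ} (hM : 1 ≤ M) {z : ℂ} (hz : ‖z‖ ≤ 1) : ‖1 - AV M z‖ ≤ M * ‖z - 1‖ := by
  have hM' : (0 : ℝ) < M := by exact_mod_cast hM
  have hM2 : (M : ℂ) ≠ 0 := by
    have : M ≠ 0 := by omega
    exact_mod_cast this
  have e1 : 1 - AV M z = (∑ j ∈ Finset.range M, (1 - z ^ j)) / M := by
    rw [AV, Finset.sum_sub_distrib]
    simp only [Finset.sum_const, Finset.card_range, nsmul_eq_mul, mul_one]
    field_simp
  rw [e1, norm_div, Complex.norm_natCast, div_le_iff₀ hM']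
  refine (norm_sum_le _ _).trans ?_
  have h1 : ∀ j ∈ Finset.range M, ‖1 - z ^ j‖ ≤ M * ‖z - 1‖ := by
    intro j hj
    have hj' : j < M := by simpa using hj
    refine (one_sub_pow hz j).trans ?_
    apply mul_le_mul_of_nonneg_right _ (norm_nonneg _)
    exact_mod_cast hj'.le
  have h := Finset.sum_le_sum h1
  simp only [Finset.sum_const, Finset.card_range, nsmul_eq_mul] at h
  linarith

theorem one_sub_AV_sq {M : ℕ} (hM : 1 ≤ M) {z : ℂ} (hz : ‖z‖ ≤ 1) : ‖1 - AV M z ^ 2‖ ≤ 2 * M * ‖z - 1‖ := by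
  have e1 : 1 - AV M z ^ 2 = (1 - AV M z) * (1 + AV M z) := by ring
  rw [e1, norm_mul]
  have h1 := one_sub_AV hM hz
  have h2 : ‖1 + AV M z‖ ≤ 2 := by
    refine (norm_add_le _ _).trans ?_
    rw [norm_one]
    linarith [AV_le hM hz]
  calc ‖1 - AV M z‖ * ‖1 + AV M z‖ ≤ (M * ‖z - 1‖) * 2 :=
        mul_le_mul h1 h2 (norm_nonneg _) (by positivity)
    _ = 2 * M * ‖z - 1‖ := by ring

theorem one_sub_prod {ι : Type} [DecidableEq ι] (s : Finset ι) (w : ι → ℂ) (hw : ∀ j, ‖w j‖ ≤ 1) :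
    ‖1 - ∏ j ∈ s, w j‖ ≤ ∑ j ∈ s, ‖1 - w j‖ := by
  induction s using Finset.induction_on with
  | empty => simp
  | insert a s ha ih =>
    rw [Finset.prod_insert ha, Finset.sum_insert ha]
    have e1 : 1 - w a * ∏ j ∈ s, w j = (1 - w a) + w a * (1 - ∏ j ∈ s, w j) := by ring
    rw [e1]
    refine (norm_add_le _ _).trans ?_
    rw [norm_mul]
    have : ‖w a‖ * ‖1 - ∏ j ∈ s, w j‖ ≤ 1 * ‖1 - ∏ j ∈ s, w j‖ :=
      mul_le_mul_of_nonneg_right (hw a) (norm_nonneg _)
    linarith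

theorem prod_le {r M : ℕ} (hM : 1 ≤ M) (z : Fin r → ℂ) (hz : ∀ j, ‖z j‖ ≤ 1) :
    ‖∏ j, AV M (z j) ^ 2‖ ≤ 1 := by
  rw [norm_prod]
  apply Finset.prod_le_one
  · intro j _
    exact norm_nonneg _
  · intro j _
    rw [norm_pow]
    exact pow_le_one₀ (norm_nonneg _) (AV_le hM (hz j))

theorem bd {r M : ℕ} (hM : 1 ≤ M) (z : Fin r → ℂ) (hz : ∀ j, ‖z j‖ ≤ 1) : ‖sg r M z‖ ≤ 1 + 2 ^ r := by
  rw [sg]
  refine (norm_sub_le _ _).trans ?_
  rw [norm_one, norm_pow]
  have h1 : ‖1 - ∏ j, AV M (z j) ^ 2‖ ≤ 2 := by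
    refine (norm_sub_le _ _).trans ?_
    rw [norm_one]
    linarith [prod_le hM z hz]
  have h2 := pow_le_pow_left₀ (norm_nonneg _) h1 r
  linarith

theorem near {r M : ℕ} (hM : 1 ≤ M) (z : Fin r → ℂ) (hz : ∀ j, ‖z j‖ ≤ 1) :
    ‖sg r M z - 1‖ ≤ (2 * M * ∑ j, ‖z j - 1‖) ^ r := by
  have e1 : sg r M z - 1 = -(1 - ∏ j, AV M (z j) ^ 2) ^ r := by
    rw [sg]
    ring
  rw [e1, norm_neg, norm_pow]
  apply pow_le_pow_left₀ (norm_nonneg _)
  have h1 := one_sub_prod Finset.univ (fun j => AV M (z j) ^ 2) (by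
    intro j
    rw [norm_pow]
    exact pow_le_one₀ (norm_nonneg _) (AV_le hM (hz j)))
  refine h1.trans ?_
  rw [Finset.mul_sum]
  exact Finset.sum_le_sum fun j _ => one_sub_AV_sq hM (hz j)

theorem one {r : ℕ} (z : Fin r → ℂ) (hr : 1 ≤ r) : sg r 1 z = 1 := by
  have h1 : ∀ w : ℂ, AV 1 w = 1 := by
    intro w
    simp [AV]
  rw [sg]
  simp only [h1, one_pow, Finset.prod_const_one, sub_self]
  rw [zero_pow (by omega)]
  ring

theorem sgsum {r M : ℕ} (hM : 1 ≤ M) (z : Fin r → ℂ) :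
    sg r M z = ∑ k ∈ bx (0 : Fin r → ℤ) (2 * r * M + 1), (sc r M k : ℂ) * ∏ j, z j ^ (k j).toNat := by
  have h1 : ∀ i ∈ Finset.Icc 1 r, (∏ j, AV M (z j) ^ 2) ^ i =
      ∑ k ∈ bx (0 : Fin r → ℤ) (2 * r * M + 1), (∏ j, (fc M i (k j) : ℂ)) * ∏ j, z j ^ (k j).toNat := by
    intro i hi
    have hi' : i ≤ r := (Finset.mem_Icc.mp hi).2
    rw [← Finset.prod_pow]
    have h2 : ∀ j ∈ (Finset.univ : Finset (Fin r)), (AV M (z j) ^ 2) ^ i =
        ∑ k ∈ Finset.Ico ((0 : Fin r → ℤ) j) ((0 : Fin r → ℤ) j + ((2 * r * M + 1 : ℕ) : ℤ)),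
          (fc M i k : ℂ) * z j ^ k.toNat := by
      intro j _
      rw [← pow_mul]
      have h3 : 2 * (i : ℤ) * M + 1 ≤ 0 + ((2 * r * M + 1 : ℕ) : ℤ) := by
        push_cast
        have : (i : ℤ) * M ≤ r * M := by
          apply mul_le_mul_of_nonneg_right _ (by positivity)
          exact_mod_cast hi'
        nlinarith
      have h4 := pow' hM i (z j) (0 + ((2 * r * M + 1 : ℕ) : ℤ)) h3
      exact h4
    rw [Finset.prod_congr rfl h2, Finset.prod_univ_sum]
    apply Finset.sum_congr rfl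
    intro k _
    rw [Finset.prod_mul_distrib]
  have h2 : sg r M z = ∑ i ∈ Finset.Icc 1 r, (-1 : ℂ) ^ (i + 1) * (r.choose i) * (∏ j, AV M (z j) ^ 2) ^ i := by
    rw [sg]
    generalize (∏ j, AV M (z j) ^ 2) = P
    have e1 : (1 - P) ^ r = ∑ i ∈ Finset.range (r + 1), (-P) ^ i * (r.choose i) := by
      have := add_pow (-P) 1 r
      rw [neg_add_eq_sub] at this
      rw [this]
      apply Finset.sum_congr rfl
      intro i _
      rw [one_pow, mul_one]
    rw [e1, Finset.sum_range_succ']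
    have e2 : ∑ i ∈ Finset.Icc 1 r, (-1 : ℂ) ^ (i + 1) * (r.choose i) * P ^ i =
        ∑ i ∈ Finset.range r, (-1 : ℂ) ^ (i + 1 + 1) * (r.choose (i + 1)) * P ^ (i + 1) := by
      refine Finset.sum_bij' (fun i _ => i - 1) (fun i _ => i + 1) ?_ ?_ ?_ ?_ ?_
      · intro i hi
        simp only [Finset.mem_Icc, Finset.mem_range] at *
        omega
      · intro i hi
        simp only [Finset.mem_Icc, Finset.mem_range] at *
        omega
      · intro i hi
        simp only [Finset.mem_Icc] at hi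
        omega
      · intro i _
        simp
      · intro i hi
        simp only [Finset.mem_Icc] at hi
        have e3 : i - 1 + 1 = i := by omega
        rw [e3]
    rw [e2]
    simp only [pow_zero, Nat.choose_zero_right, Nat.cast_one, mul_one]
    rw [sub_add_eq_sub_sub_swap, sub_self, zero_sub, ← Finset.sum_neg_distrib]
    apply Finset.sum_congr rfl
    intro i _
    rw [neg_pow P]
    ring
  rw [h2]
  have h3 : ∀ k ∈ bx (0 : Fin r → ℤ) (2 * r * M + 1), (sc r M k : ℂ) * ∏ j, z j ^ (k j).toNat =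
      ∑ i ∈ Finset.Icc 1 r, (-1 : ℂ) ^ (i + 1) * (r.choose i) *
        ((∏ j, (fc M i (k j) : ℂ)) * ∏ j, z j ^ (k j).toNat) := by
    intro k _
    rw [sc]
    push_cast
    rw [Finset.sum_mul]
    apply Finset.sum_congr rfl
    intro i _
    ring
  rw [Finset.sum_congr rfl h3, Finset.sum_comm]
  apply Finset.sum_congr rfl
  intro i hi
  rw [h1 i hi, Finset.mul_sum]

end CUTS

theorem t_CUTS : S_CUTS where
  nn := CUTS.nn
  le := by
    intro M i k hM hi
    obtain ⟨j, rfl⟩ := Nat.exists_eq_add_of_le' hi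
    exact CUTS.le' hM j k
  dif := by
    intro M i k hM hi
    obtain ⟨j, rfl⟩ := Nat.exists_eq_add_of_le' hi
    exact CUTS.dif' hM j k
  supp := fun M i k hM h => CUTS.supp hM i k h
  pow := fun M i z hM => CUTS.pow' hM i z _ (le_refl _)
  sum := fun _ _ z hM => CUTS.sgsum hM z
  bd := fun _ _ z hM hz => CUTS.bd hM z hz
  near := fun _ _ z hM hz => CUTS.near hM z hz
  one := fun _ z hr => CUTS.one z hr

end SYM
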