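import Pool.Agent.SYM.StT

/-!
# Symmetric spaces, block T: sums with polynomial weights and damping
-/

namespace SYM

open STZ LGR MeasureTheory Matrix Filter

open scoped ComplexConjugate Matrix Real Topology

noncomputable section

namespace DAMP

theorem eu_add (a b : ℝ) : eu (a + b) = eu a * eu b := by
  unfold eu
  rw [← Complex.exp_add]
  congr 1
  push_cast
  ring

theorem eu_sum {ι : Type*} (s : Finset ι) (f : ι → ℝ) : eu (∑ i ∈ s, f i) = ∏ i ∈ s, eu (f i) := by
  classical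
  induction s using Finset.induction_on with
  | empty => simp [eu]
  | insert a s ha ih => rw [Finset.sum_insert ha, Finset.prod_insert ha, eu_add, ih]

theorem polar (z : ℂ) (k : ℕ) : z ^ k = (‖z‖ : ℂ) ^ k * eu (z.arg / (2 * π) * k) := by
  have h1 : eu (z.arg / (2 * π) * k) = Complex.exp (z.arg * Complex.I) ^ k := by
    unfold eu
    rw [← Complex.exp_nat_mul]
    congr 1
    have hpi : (π : ℂ) ≠ 0 := Complex.ofReal_ne_zero.2 Real.pi_ne_zero
    push_cast
    field_simp
  rw [h1, ← mul_pow, Complex.norm_mul_exp_arg_mul_I]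

theorem va_nonneg (a : ℤ) (n : ℕ) (g : ℤ → ℂ) : 0 ≤ va a n g :=
  add_nonneg (norm_nonneg _) (Finset.sum_nonneg fun _ _ => norm_nonneg _)

theorem half_le {N : ℕ} {s : ℝ} (hN : 1 ≤ N) (h0 : 0 ≤ s) (hs : s ≤ 1) : 1 / 2 ≤ NNf N s := by
  have hN' : (1 : ℝ) ≤ N := by exact_mod_cast hN
  unfold NNf
  have h1 : 0 < 1 + (N : ℝ) * (1 - s) := by
    have : 0 ≤ (N : ℝ) * (1 - s) := mul_nonneg (by linarith) (by linarith)
    linarith
  rw [le_div_iff₀ h1]
  have : (N : ℝ) * (1 - s) ≤ N := by nlinarith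
  linarith

theorem prod_opt {M ι : Type*} [CommMonoid M] [Fintype ι] {r : ℕ} (s : ι → Option (Fin r))
    (y : Option (Fin r) → M) (h : y none = 1) :
    ∏ p, y (s p) = ∏ j, y (some j) ^ (Finset.univ.filter fun p => s p = some j).card := by
  rw [← Finset.prod_fiberwise Finset.univ s (fun p => y (s p)), Fintype.prod_option]
  have h1 : ∀ o, ∏ p ∈ Finset.univ.filter (fun p => s p = o), y (s p) =
      y o ^ (Finset.univ.filter fun p => s p = o).card := by
    intro o
    rw [Finset.prod_congr rfl (g := fun _ => y o) (fun p hp => by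
      rw [(Finset.mem_filter.1 hp).2]), Finset.prod_const]
  rw [h1, h, one_pow, one_mul]
  exact Finset.prod_congr rfl fun j _ => h1 _

/-- expansion of a product of affine forms -/
theorem expand {R ι : Type*} [CommSemiring R] [Fintype ι] [DecidableEq ι] {r : ℕ} (b : ι → Option (Fin r) → R)
    (y : Option (Fin r) → R) (hy : y none = 1) :
    ∏ p, (b p none + ∑ j, b p (some j) * y (some j)) =
      ∑ s : ι → Option (Fin r), (∏ p, b p (s p)) *
        ∏ j, y (some j) ^ (Finset.univ.filter fun p => s p = some j).card := by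
  classical
  have h1 : ∀ p, b p none + ∑ j, b p (some j) * y (some j) = ∑ o, b p o * y o := by
    intro p
    rw [Fintype.sum_option, hy, mul_one]
  rw [Finset.prod_congr rfl fun p _ => h1 p, Finset.prod_univ_sum, Fintype.piFinset_univ]
  refine Finset.sum_congr rfl fun s _ => ?_
  rw [Finset.prod_mul_distrib, prod_opt s y hy]

end DAMP

open DAMP in
theorem t_DAMP : M_DAMP := by
  intro hW hY hA hM
  unfold S_DAMP
  intro r G hG ι _ a₀ a ha₀ ha haj
  classical
  obtain ⟨c, hc1, hc⟩ := hY r G hG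
  choose Cm hCm0 hCm using hM
  choose jj hjj using haj
  set q := Fintype.card ι with hq
  set K := 1 + ∑ e ∈ Finset.range (q + 1), Cm e with hK
  have hK1 : 1 ≤ K := by
    have := Finset.sum_nonneg fun e (_ : e ∈ Finset.range (q + 1)) => hCm0 e
    linarith
  have hKe : ∀ e ≤ q, Cm e ≤ K := by
    intro e he
    have := Finset.single_le_sum (f := Cm) (s := Finset.range (q + 1)) (fun i _ => hCm0 i)
      (Finset.mem_range.2 (show e < q + 1 by omega))
    linarith
  refine ⟨√c * K ^ r * ∏ p, (1 + 2 * a₀ p / a p (jj p)), c, ?_, hc1, ?_⟩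
  · refine mul_nonneg (mul_nonneg (Real.sqrt_nonneg _) (by positivity)) ?_
    refine Finset.prod_nonneg fun p _ => ?_
    have := hjj p
    have := ha₀ p
    positivity
  intro N n t φ ψ z hN hn hφ hz
  have hN' : (1 : ℝ) ≤ N := by exact_mod_cast hN
  have hWW : (N : ℝ) ≤ WW N c t := hW.ge N c t
  have hW0 : 0 ≤ WW N c t := by linarith
  have hNN : ∀ j, 1 / 2 ≤ NNf N ‖z j‖ := fun j => half_le hN (norm_nonneg _) (hz j)
  have hNN0 : ∀ j, 0 ≤ NNf N ‖z j‖ := fun j => le_trans (by norm_num) (hNN j)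
  -- the phase
  set α : Fin r → ℝ := fun j => (z j).arg / (2 * π) with hα
  set φ' : (Fin r → ℤ) → ℝ := fun x => φ x + ∑ j, α j * x j with hφ'
  set ψ' : (Fin r → ℤ) → ℝ := fun h => ψ h + ∑ j, α j * h j with hψ'
  have hφ2 : ∀ x h, φ' (x + h) = φ' x + ψ' h + t * ((x ⬝ᵥ (G *ᵥ h) : ℤ) : ℝ) := by
    intro x h
    simp only [hφ', hψ', hφ x h, Pi.add_apply, Int.cast_add, mul_add, Finset.sum_add_distrib]
    ring
  set B := √c * WW N c t ^ ((r : ℝ) / 2) with hB
  have hB0 : 0 ≤ B := mul_nonneg (Real.sqrt_nonneg _) (Real.rpow_nonneg hW0 _)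
  have hsub : ∀ m : Fin r → ℕ, (∀ i, m i ≤ n i) → ‖∑ x ∈ bxn (0 : Fin r → ℤ) m, eu (φ' x)‖ ≤ B := by
    intro m hm
    have h1 := hc (fun _ => N) 0 m t φ' ψ' (fun _ => hN) (fun i => (hm i).trans (hn i)) hφ2
    rw [Finset.prod_const, Finset.card_univ, Fintype.card_fin] at h1
    have h2 := Real.le_sqrt_of_sq_le h1
    refine h2.trans (le_of_eq ?_)
    rw [Real.sqrt_mul (Nat.cast_nonneg c), hB, Real.sqrt_eq_rpow (WW N c t ^ r),
      ← Real.rpow_natCast, ← Real.rpow_mul hW0]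
    congr 2
    ring
  -- one monomial
  have hmon : ∀ e : Fin r → ℕ, (∀ j, e j ≤ q) →
      ‖∑ x ∈ bxn (0 : Fin r → ℤ) n, eu (φ' x) * ∏ j, ((x j : ℂ) ^ e j * (‖z j‖ : ℂ) ^ (x j).toNat)‖ ≤
        B * K ^ r * ∏ j, NNf N ‖z j‖ ^ e j := by
    intro e he
    have h1 := hA r 0 n B (fun x => eu (φ' x))
      (fun j y => (y : ℂ) ^ e j * ((‖z j‖ : ℝ) : ℂ) ^ y.toNat) hB0 hsub
    refine h1.trans ?_
    rw [mul_assoc B]
    refine mul_le_mul_of_nonneg_left ?_ hB0
    have h2 : ∀ j, va ((0 : Fin r → ℤ) j) (n j)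
        (fun y => (y : ℂ) ^ e j * ((‖z j‖ : ℝ) : ℂ) ^ y.toNat) ≤ K * NNf N ‖z j‖ ^ e j := by
      intro j
      refine (hCm (e j) N (n j) ‖z j‖ hN (hn j) (norm_nonneg _) (hz j)).trans ?_
      exact mul_le_mul_of_nonneg_right (hKe _ (he j)) (pow_nonneg (hNN0 j) _)
    refine (Finset.prod_le_prod (fun j _ => va_nonneg _ _ _) fun j _ => h2 j).trans ?_
    rw [Finset.prod_mul_distrib, Finset.prod_const, Finset.card_univ, Fintype.card_fin]
  -- expansion
  let b : ι → Option (Fin r) → ℝ := fun p o => o.elim (a₀ p) (a p)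
  have hb0 : ∀ p o, 0 ≤ b p o := by
    rintro p (_ | j)
    · exact ha₀ p
    · exact ha p j
  have hterm : ∀ x ∈ bxn (0 : Fin r → ℤ) n,
      ((∏ p, (a₀ p + ∑ j, a p j * x j) : ℝ) : ℂ) * eu (φ x) * ∏ j, z j ^ (x j).toNat =
        ∑ s : ι → Option (Fin r), ((∏ p, b p (s p) : ℝ) : ℂ) *
          (eu (φ' x) * ∏ j, ((x j : ℂ) ^ (Finset.univ.filter fun p => s p = some j).card *
            (‖z j‖ : ℂ) ^ (x j).toNat)) := by
    intro x hx
    have hx0 : ∀ j, 0 ≤ x j := by
      intro j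
      have := Finset.mem_Ico.1 (Fintype.mem_piFinset.1 hx j)
      simpa using this.1
    have h1 : eu (φ x) * ∏ j, z j ^ (x j).toNat = eu (φ' x) * ∏ j, (‖z j‖ : ℂ) ^ (x j).toNat := by
      rw [hφ']
      simp only
      rw [eu_add, eu_sum, mul_assoc, ← Finset.prod_mul_distrib]
      congr 1
      refine Finset.prod_congr rfl fun j _ => ?_
      rw [polar, mul_comm]
      congr 2
      rw [hα]
      simp only
      congr 1
      have : ((x j).toNat : ℤ) = x j := Int.toNat_of_nonneg (hx0 j)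
      exact_mod_cast this
    have h2 := expand b (fun o => o.elim 1 (fun j => (x j : ℝ))) rfl
    have h3 : ∏ p, (a₀ p + ∑ j, a p j * x j) = ∏ p, (b p none + ∑ j, b p (some j) *
      (fun o : Option (Fin r) => o.elim 1 (fun j => (x j : ℝ))) (some j)) := rfl
    rw [h3, h2, mul_assoc, h1]
    push_cast
    rw [Finset.sum_mul]
    refine Finset.sum_congr rfl fun s _ => ?_
    rw [Finset.prod_mul_distrib]
    simp only [Option.elim_some, Complex.ofReal_intCast]
    ring
  rw [Finset.sum_congr rfl hterm, Finset.sum_comm]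
  have hstep : ‖∑ s : ι → Option (Fin r), ∑ x ∈ bxn (0 : Fin r → ℤ) n, ((∏ p, b p (s p) : ℝ) : ℂ) *
          (eu (φ' x) * ∏ j, ((x j : ℂ) ^ (Finset.univ.filter fun p => s p = some j).card *
            (‖z j‖ : ℂ) ^ (x j).toNat))‖ ≤
      ∑ s : ι → Option (Fin r), (∏ p, b p (s p)) * (B * K ^ r *
        ∏ j, NNf N ‖z j‖ ^ (Finset.univ.filter fun p => s p = some j).card) := by
    refine norm_sum_le_of_le _ fun s _ => ?_
    rw [← Finset.mul_sum, norm_mul, Complex.norm_real, Real.norm_of_nonneg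
      (Finset.prod_nonneg fun p _ => hb0 p _)]
    refine mul_le_mul_of_nonneg_left ?_ (Finset.prod_nonneg fun p _ => hb0 p _)
    exact hmon _ fun j => Finset.card_le_univ _
  refine hstep.trans ?_
  have h4 := expand b (fun o => o.elim 1 (fun j => NNf N ‖z j‖)) rfl
  have h5 : ∑ s : ι → Option (Fin r), (∏ p, b p (s p)) * (B * K ^ r *
        ∏ j, NNf N ‖z j‖ ^ (Finset.univ.filter fun p => s p = some j).card) =
      B * K ^ r * ∏ p, (a₀ p + ∑ j, a p j * NNf N ‖z j‖) := by
    have h6 : ∏ p, (a₀ p + ∑ j, a p j * NNf N ‖z j‖) = ∏ p, (b p none + ∑ j, b p (some j) *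
      (fun o : Option (Fin r) => o.elim 1 (fun j => NNf N ‖z j‖)) (some j)) := rfl
    rw [h6, h4, Finset.mul_sum]
    refine Finset.sum_congr rfl fun s _ => ?_
    simp only [Option.elim_some]
    ring
  rw [h5]
  have h7 : ∀ p, a₀ p + ∑ j, a p j * NNf N ‖z j‖ ≤
      (1 + 2 * a₀ p / a p (jj p)) * ∑ j, a p j * NNf N ‖z j‖ := by
    intro p
    have h8 : a p (jj p) * (1 / 2) ≤ ∑ j, a p j * NNf N ‖z j‖ := by
      refine le_trans (mul_le_mul_of_nonneg_left (hNN (jj p)) (ha p _)) ?_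
      exact Finset.single_le_sum (f := fun j => a p j * NNf N ‖z j‖)
        (fun j _ => mul_nonneg (ha p j) (hNN0 j)) (Finset.mem_univ _)
    have h9 := hjj p
    have h10 : 2 * a₀ p / a p (jj p) * (a p (jj p) * (1 / 2)) = a₀ p := by
      field_simp
    have h11 : 0 ≤ 2 * a₀ p / a p (jj p) := by
      have := ha₀ p
      positivity
    have h12 := mul_le_mul_of_nonneg_left h8 h11
    rw [h10] at h12
    linarith
  have h8 : ∏ p, (a₀ p + ∑ j, a p j * NNf N ‖z j‖) ≤
      (∏ p, (1 + 2 * a₀ p / a p (jj p))) * ∏ p, ∑ j, a p j * NNf N ‖z j‖ := by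
    rw [← Finset.prod_mul_distrib]
    refine Finset.prod_le_prod (fun p _ => ?_) fun p _ => h7 p
    exact add_nonneg (ha₀ p) (Finset.sum_nonneg fun j _ => mul_nonneg (ha p j) (hNN0 j))
  refine (mul_le_mul_of_nonneg_left h8 (mul_nonneg hB0 (by positivity))).trans (le_of_eq ?_)
  rw [hB]
  ring

end

end SYM
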