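import Pool.Agent.SYM.StQ
import Pool.Agent.STZ.Base
import Pool.Agent.LGR.VLEM

/-!
# DECQ: the decay of the integral over `K`
-/

namespace SYM

open STZ LGR MeasureTheory Matrix Filter

open scoped ComplexConjugate Matrix Real Topology

noncomputable section

namespace DECQ

lemma factor_bound {ι : Type} [Fintype ι] {r m : ℕ} (q : Fin r → ι) (hq : Function.Injective q)
    (b : Fin m → Fin r) (hb : Function.Injective b) (u : ι → ℝ) (hu : ∀ p, 0 ≤ u p) (c : ℝ)
    (hc : 0 < c) (w : Fin m → ℝ) (hw : ∀ i, w i ^ 2 ≤ u (q (b i)))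
    (hgood : ∀ i, i ∉ Set.range b → c ≤ u (q i)) (M : ℝ) (hM : 1 ≤ M) :
    ∏ p, (1 + M * u p)⁻¹ ≤
      (c⁻¹ * M ^ (-(1 / 2) : ℝ)) ^ (r - m) * ∏ i, (1 + M * w i ^ 2)⁻¹ := by
  classical
  have hM0 : 0 < M := by linarith
  have f0 : ∀ p, 0 < (1 + M * u p)⁻¹ := fun p => by
    have := hu p
    positivity
  have f1 : ∀ p, (1 + M * u p)⁻¹ ≤ 1 := fun p => by
    apply inv_le_one_of_one_le₀
    have := mul_nonneg hM0.le (hu p)
    linarith
  -- restrict to the range of `q`
  have h1 : ∏ p, (1 + M * u p)⁻¹ ≤ ∏ i : Fin r, (1 + M * u (q i))⁻¹ := by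
    rw [← Finset.prod_mul_prod_compl (Finset.univ.image q)]
    have h2 : ∏ p ∈ Finset.univ.image q, (1 + M * u p)⁻¹ = ∏ i : Fin r, (1 + M * u (q i))⁻¹ :=
      Finset.prod_image fun x _ y _ h => hq h
    rw [h2]
    refine mul_le_of_le_one_right (Finset.prod_nonneg fun i _ => (f0 _).le) ?_
    exact Finset.prod_le_one (fun i _ => (f0 _).le) fun i _ => f1 _
  refine h1.trans ?_
  rw [← Finset.prod_mul_prod_compl (Finset.univ.image b), mul_comm]
  have h2 : ∏ i ∈ Finset.univ.image b, (1 + M * u (q i))⁻¹ =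
      ∏ j : Fin m, (1 + M * u (q (b j)))⁻¹ := Finset.prod_image fun x _ y _ h => hb h
  rw [h2]
  have hcard : (Finset.univ.image b)ᶜ.card = r - m := by
    rw [Finset.card_compl, Finset.card_image_of_injective _ hb, Finset.card_univ,
      Fintype.card_fin, Fintype.card_fin]
  refine mul_le_mul ?_ ?_ (Finset.prod_nonneg fun i _ => (f0 _).le) (by positivity)
  · rw [← hcard, ← Finset.prod_const]
    refine Finset.prod_le_prod (fun i _ => (f0 _).le) fun i hi => ?_
    have hi' : i ∉ Set.range b := by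
      rintro ⟨j, hj⟩
      rw [Finset.mem_compl] at hi
      exact hi (Finset.mem_image.2 ⟨j, Finset.mem_univ _, hj⟩)
    have h3 := hgood i hi'
    have h4 : c * M ≤ 1 + M * u (q i) := by nlinarith
    have h5 : (1 + M * u (q i))⁻¹ ≤ (c * M)⁻¹ := inv_anti₀ (by positivity) h4
    refine h5.trans ?_
    rw [mul_inv]
    refine mul_le_mul_of_nonneg_left ?_ (by positivity)
    rw [← Real.rpow_neg_one]
    exact Real.rpow_le_rpow_of_exponent_le hM (by norm_num)
  · refine Finset.prod_le_prod (fun i _ => (f0 _).le) fun i _ => ?_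
    refine inv_anti₀ (by positivity) ?_
    have := mul_le_mul_of_nonneg_left (hw i) hM0.le
    linarith

variable {N : ℕ} {K : Subgroup (SU N)}

/-- the local estimate -/
theorem localEst (hE : S_EXP) (hBox : S_BOXV) (ν : Measure K) [IsProbabilityMeasure ν]
    [ν.IsMulLeftInvariant] (r : ℕ) (Y : Type) [TopologicalSpace Y] (ι : Type) [Fintype ι]
    (u : ι → Y × K → ℝ) (hc : ∀ p, Continuous (u p)) (h0 : ∀ p z, 0 ≤ u p z) (z₀ : Y × K)
    (h : ∃ (q : Fin r → ι) (m : ℕ) (b : Fin m → Fin r) (X : Fin m → Matrix (Fin N) (Fin N) ℂ)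
      (ζ : Fin m → Y × K → ℝ) (c C η : ℝ) (U : Set (Y × K)), LST K u r z₀ q b X ζ c C η U) :
    ∃ (V : Set (Y × K)) (C : ℝ), IsOpen V ∧ z₀ ∈ V ∧ 0 ≤ C ∧ ∀ (y : Y) (M : ℝ), 1 ≤ M →
      ∫⁻ k, {k | (y, k) ∈ V}.indicator
        (fun k => ENNReal.ofReal (∏ p, (1 + M * u p (y, k))⁻¹)) k ∂ν ≤
      ENNReal.ofReal (C * M ^ (-((r : ℝ) / 2))) := by
  obtain ⟨q, m, b, X, ζ, c, C, η, U, L⟩ := h
  have hP : Continuous (eprod K X) := VLEM.eprod_cont hE L.mem
  have hF : Continuous fun x : (Fin m → ℝ) × (Y × K) => (x.2.1, (eprod K X x.1)⁻¹ * x.2.2) := by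
    refine Continuous.prodMk (continuous_fst.comp continuous_snd) ?_
    exact (hP.comp continuous_fst).inv.mul (continuous_snd.comp continuous_snd)
  have hF0 : (fun x : (Fin m → ℝ) × (Y × K) => (x.2.1, (eprod K X x.1)⁻¹ * x.2.2))
      (0, z₀) = z₀ := by
    change (z₀.1, (eprod K X 0)⁻¹ * z₀.2) = z₀
    rw [VLEM.eprod_zero hE L.mem, inv_one, one_mul]
  have h1 : (fun x : (Fin m → ℝ) × (Y × K) => (x.2.1, (eprod K X x.1)⁻¹ * x.2.2)) ⁻¹' U ∈
      𝓝 ((0 : Fin m → ℝ), z₀) := by
    have h2 := hF.continuousAt (x := ((0 : Fin m → ℝ), z₀))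
    unfold ContinuousAt at h2
    rw [hF0] at h2
    exact h2 L.nhd
  rw [nhds_prod_eq, mem_prod_iff] at h1
  obtain ⟨A, hA, B, hB, hAB⟩ := h1
  obtain ⟨δ, hδ, hδA⟩ := Metric.nhds_basis_closedBall.mem_iff.1 hA
  obtain ⟨V, hVB, hVo, hzV⟩ := mem_nhds_iff.1 (Filter.inter_mem hB L.nhd)
  set η' : ℝ := min δ η with hη'
  have hη'0 : 0 < η' := lt_min hδ L.epos
  set C₁ : ℝ := max C 1 with hC₁
  have hC₁1 : 1 ≤ C₁ := le_max_right _ _
  have hsq : 0 < Real.sqrt C₁ := Real.sqrt_pos.2 (by linarith)
  obtain ⟨CB, hCB, hbox⟩ := hBox m η' (c / Real.sqrt C₁) (div_pos L.cpos hsq)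
  set Q : Set (Fin m → ℝ) := {s | ∀ i, |s i| ≤ η'} with hQ
  have hQb : Q = Metric.closedBall 0 η' := by
    ext s
    rw [mem_closedBall_zero_iff, pi_norm_le_iff_of_nonneg hη'0.le]
    rfl
  have hQm : MeasurableSet Q := by
    rw [hQb]
    exact Metric.isClosed_closedBall.measurableSet
  have hQc : IsCompact Q := by
    rw [hQb]
    exact isCompact_closedBall _ _
  have hQv : volume Q = ENNReal.ofReal ((2 * η') ^ m) := by
    rw [hQb, Real.volume_pi_closedBall _ hη'0.le, Fintype.card_fin]
  have hb : m ≤ r := by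
    simpa using Fintype.card_le_of_injective b L.binj
  -- the constants
  set D : ℝ := c⁻¹ ^ (r - m) * CB with hD
  have hD0 : 0 ≤ D := by
    have := L.cpos
    positivity
  refine ⟨V, D / (2 * η') ^ m, hVo, hzV, by positivity, fun y M hM => ?_⟩
  have hM0 : 0 < M := by linarith
  set G : K → ENNReal := fun k => {k | (y, k) ∈ V}.indicator
        (fun k => ENNReal.ofReal (∏ p, (1 + M * u p (y, k))⁻¹)) k with hG
  have hFc : Continuous fun k : K => ∏ p, (1 + M * u p (y, k))⁻¹ := by
    refine continuous_finsetProd _ fun p _ => ?_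
    have h2 : Continuous fun k : K => 1 + M * u p (y, k) :=
      continuous_const.add (continuous_const.mul ((hc p).comp (Continuous.prodMk_right y)))
    refine h2.inv₀ fun k => ?_
    have := mul_nonneg hM0.le (h0 p (y, k))
    positivity
  have hVy : IsOpen {k : K | (y, k) ∈ V} := hVo.preimage (Continuous.prodMk_right y)
  have hGm : Measurable G :=
    (ENNReal.measurable_ofReal.comp hFc.measurable).indicator hVy.measurableSet
  have hPc : Continuous fun x : (Fin m → ℝ) × K => eprod K X x.1 * x.2 :=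
    (hP.comp continuous_fst).mul continuous_snd
  -- averaging
  have e1 : ∫⁻ s in Q, (∫⁻ k, G (eprod K X s * k) ∂ν) = (∫⁻ k, G k ∂ν) * volume Q := by
    have h2 : ∀ s : Fin m → ℝ, ∫⁻ k, G (eprod K X s * k) ∂ν = ∫⁻ k, G k ∂ν := fun s =>
      lintegral_mul_left_eq_self G (eprod K X s)
    rw [lintegral_congr fun s => h2 s, setLIntegral_const]
  have e2 : ∫⁻ s in Q, (∫⁻ k, G (eprod K X s * k) ∂ν) =
      ∫⁻ k, (∫⁻ s in Q, G (eprod K X s * k)) ∂ν := by
    rw [lintegral_lintegral_swap]
    exact (hGm.comp hPc.measurable).aemeasurable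
  have e3 : ∀ k : K, ∫⁻ s in Q, G (eprod K X s * k) ≤
      ENNReal.ofReal (D * M ^ (-((r : ℝ) / 2))) := by
    intro k
    by_cases hk : ∃ s ∈ Q, (y, eprod K X s * k) ∈ V
    · obtain ⟨s₀, hs₀, hk₀⟩ := hk
      have hzU : (y, k) ∈ U := by
        have h2 : (s₀, (y, eprod K X s₀ * k)) ∈ A ×ˢ B := by
          refine ⟨hδA ?_, (hVB hk₀).1⟩
          rw [mem_closedBall_zero_iff, pi_norm_le_iff_of_nonneg hδ.le]
          intro i
          exact (hs₀ i).trans (min_le_left _ _)
        have h3 := Set.mem_preimage.1 (hAB h2)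
        change (y, (eprod K X s₀)⁻¹ * (eprod K X s₀ * k)) ∈ U at h3
        rwa [inv_mul_cancel_left] at h3
      -- the rescaled coordinates
      set ξ : (Fin m → ℝ) → Fin m → ℝ := fun s i =>
        ζ i (y, eprod K X s * k) / Real.sqrt C₁ with hξ
      have hξc : Continuous ξ := by
        refine continuous_pi fun i => ?_
        refine Continuous.div_const ((L.cont i).comp ?_) _
        exact Continuous.prodMk continuous_const (hP.mul continuous_const)
      have hlow : ∀ s s' : Fin m → ℝ, (∀ i, |s i| ≤ η') → (∀ i, |s' i| ≤ η') →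
          c / Real.sqrt C₁ * ‖s - s'‖ ≤ ‖ξ s - ξ s'‖ := by
        intro s s' hs hs'
        have h2 := L.low (y, k) hzU s s' (fun i => (hs i).trans (min_le_right _ _))
          (fun i => (hs' i).trans (min_le_right _ _))
        have h3 : ξ s - ξ s' = (Real.sqrt C₁)⁻¹ • fun i =>
            ζ i (y, eprod K X s * k) - ζ i (y, eprod K X s' * k) := by
          funext i
          simp only [hξ, Pi.sub_apply, Pi.smul_apply, smul_eq_mul]
          ring
        rw [h3, norm_smul, Real.norm_of_nonneg (by positivity), div_mul_eq_mul_div,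
          div_eq_inv_mul]
        exact mul_le_mul_of_nonneg_left h2 (by positivity)
      have hI := hbox ξ hξc.continuousOn hlow M hM
      -- pointwise bound
      have hpt : ∀ s ∈ Q, G (eprod K X s * k) ≤ ENNReal.ofReal
          ((c⁻¹ * M ^ (-(1 / 2) : ℝ)) ^ (r - m) * ∏ i, (1 + M * ξ s i ^ 2)⁻¹) := by
        intro s hs
        by_cases hv : (y, eprod K X s * k) ∈ V
        · have h2 : G (eprod K X s * k) =
              ENNReal.ofReal (∏ p, (1 + M * u p (y, eprod K X s * k))⁻¹) := by
            simp only [hG]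
            rw [Set.indicator_of_mem]
            exact hv
          rw [h2]
          apply ENNReal.ofReal_le_ofReal
          refine factor_bound q L.inj b L.binj (fun p => u p (y, eprod K X s * k))
            (fun p => h0 p _) c L.cpos (ξ s) ?_ ?_ M hM
          · intro i
            have h3 := L.bd i (y, k) hzU s (fun j => (hs j).trans (min_le_right _ _))
            have h4 : C * u (q (b i)) (y, eprod K X s * k) ≤
                C₁ * u (q (b i)) (y, eprod K X s * k) :=
              mul_le_mul_of_nonneg_right (le_max_left _ _) (h0 _ _)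
            simp only [hξ]
            rw [div_pow, Real.sq_sqrt (by linarith), div_le_iff₀ (by linarith), mul_comm]
            exact h3.trans h4
          · intro i hi
            exact L.good i hi _ (hVB hv).2
        · have h2 : G (eprod K X s * k) = 0 := by
            simp only [hG]
            rw [Set.indicator_of_notMem]
            exact hv
          rw [h2]
          exact zero_le
      have hint : IntegrableOn (fun s : Fin m → ℝ => ∏ i, (1 + M * ξ s i ^ 2)⁻¹) Q := by
        refine ContinuousOn.integrableOn_compact hQc (Continuous.continuousOn ?_)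
        refine continuous_finsetProd _ fun i _ => ?_
        have h2 : Continuous fun s : Fin m → ℝ => 1 + M * ξ s i ^ 2 :=
          continuous_const.add (continuous_const.mul (((continuous_apply i).comp hξc).pow 2))
        refine h2.inv₀ fun s => ?_
        positivity
      have hnn : ∀ s : Fin m → ℝ, 0 ≤ ∏ i, (1 + M * ξ s i ^ 2)⁻¹ := fun s =>
        Finset.prod_nonneg fun i _ => by positivity
      have hk0 : 0 ≤ (c⁻¹ * M ^ (-(1 / 2) : ℝ)) ^ (r - m) := by
        have := L.cpos
        positivity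
      calc ∫⁻ s in Q, G (eprod K X s * k)
          ≤ ∫⁻ s in Q, ENNReal.ofReal
            ((c⁻¹ * M ^ (-(1 / 2) : ℝ)) ^ (r - m) * ∏ i, (1 + M * ξ s i ^ 2)⁻¹) :=
            setLIntegral_mono' hQm hpt
        _ = ENNReal.ofReal (∫ s in Q,
            (c⁻¹ * M ^ (-(1 / 2) : ℝ)) ^ (r - m) * ∏ i, (1 + M * ξ s i ^ 2)⁻¹) := by
            rw [ofReal_integral_eq_lintegral_ofReal (hint.const_mul _)]
            exact Eventually.of_forall fun s => mul_nonneg hk0 (hnn s)
        _ ≤ ENNReal.ofReal (D * M ^ (-((r : ℝ) / 2))) := by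
            apply ENNReal.ofReal_le_ofReal
            rw [integral_const_mul]
            refine (mul_le_mul_of_nonneg_left hI hk0).trans (le_of_eq ?_)
            rw [hD, mul_pow, ← Real.rpow_mul_natCast hM0.le]
            have h2 : M ^ (-((r : ℝ) / 2)) =
                M ^ (-(1 / 2) * ((r - m : ℕ) : ℝ)) * M ^ (-((m : ℝ) / 2)) := by
              rw [← Real.rpow_add hM0]
              congr 1
              rw [Nat.cast_sub hb]
              ring
            rw [h2]
            ring
    · have h2 : ∀ s ∈ Q, G (eprod K X s * k) ≤ 0 := by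
        intro s hs
        have h3 : G (eprod K X s * k) = 0 := by
          simp only [hG]
          rw [Set.indicator_of_notMem]
          exact fun hcon => hk ⟨s, hs, hcon⟩
        rw [h3]
      refine (setLIntegral_mono' hQm h2).trans ?_
      rw [lintegral_zero]
      exact zero_le
  have e4 : (∫⁻ k, G k ∂ν) * volume Q ≤ ENNReal.ofReal (D * M ^ (-((r : ℝ) / 2))) := by
    rw [← e1, e2]
    refine (lintegral_mono e3).trans ?_
    rw [lintegral_const, measure_univ, mul_one]
  rw [hQv] at e4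
  have h4 : (0 : ℝ) < (2 * η') ^ m := by positivity
  have h5 : ENNReal.ofReal ((2 * η') ^ m) ≠ 0 := by
    rw [Ne, ENNReal.ofReal_eq_zero, not_le]
    exact h4
  have h6 : ∫⁻ k, G k ∂ν ≤
      ENNReal.ofReal (D * M ^ (-((r : ℝ) / 2))) / ENNReal.ofReal ((2 * η') ^ m) :=
    (ENNReal.le_div_iff_mul_le (Or.inl h5) (Or.inl ENNReal.ofReal_ne_top)).2 e4
  refine h6.trans (le_of_eq ?_)
  rw [← ENNReal.ofReal_div_of_pos h4]
  congr 1
  ring

end DECQ

theorem t_DECQ : M_DECQ := by
  intro hE _ hBox N K hK ν _ _ r Y _ _ ι _ u hc h0 hloc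
  have hcs : CompactSpace K := isCompact_iff_compactSpace.1 hK.isCompact
  choose V C hVo hzV hC hV using fun z₀ =>
    DECQ.localEst hE hBox ν r Y ι u hc h0 z₀ (hloc z₀)
  obtain ⟨t, ht⟩ := CompactSpace.elim_nhds_subcover V fun z => (hVo z).mem_nhds (hzV z)
  refine ⟨∑ z ∈ t, C z, Finset.sum_nonneg fun z _ => hC z, fun y M hM => ?_⟩
  have hM0 : 0 < M := by linarith
  have hFc : Continuous fun k : K => ∏ p, (1 + M * u p (y, k))⁻¹ := by
    refine continuous_finsetProd _ fun p _ => ?_
    have h2 : Continuous fun k : K => 1 + M * u p (y, k) :=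
      continuous_const.add (continuous_const.mul ((hc p).comp (Continuous.prodMk_right y)))
    refine h2.inv₀ fun k => ?_
    have := mul_nonneg hM0.le (h0 p (y, k))
    positivity
  have hnn : ∀ k : K, 0 ≤ ∏ p, (1 + M * u p (y, k))⁻¹ := fun k =>
    Finset.prod_nonneg fun p _ => by
      have := mul_nonneg hM0.le (h0 p (y, k))
      positivity
  rw [integral_eq_lintegral_of_nonneg_ae (Eventually.of_forall hnn)
    hFc.aestronglyMeasurable]
  apply ENNReal.toReal_le_of_le_ofReal
  · exact mul_nonneg (Finset.sum_nonneg fun z _ => hC z) (by positivity)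
  have h1 : ∀ k : K, ENNReal.ofReal (∏ p, (1 + M * u p (y, k))⁻¹) ≤
      ∑ z ∈ t, {k | (y, k) ∈ V z}.indicator
        (fun k => ENNReal.ofReal (∏ p, (1 + M * u p (y, k))⁻¹)) k := by
    intro k
    have h2 : (y, k) ∈ ⋃ z ∈ t, V z := by
      rw [ht]
      trivial
    obtain ⟨z, hz, hkz⟩ := Set.mem_iUnion₂.1 h2
    refine le_trans ?_ (Finset.single_le_sum (f := fun z => {k | (y, k) ∈ V z}.indicator
      (fun k => ENNReal.ofReal (∏ p, (1 + M * u p (y, k))⁻¹)) k) (fun _ _ => zero_le) hz)
    change _ ≤ {k | (y, k) ∈ V z}.indicator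
      (fun k => ENNReal.ofReal (∏ p, (1 + M * u p (y, k))⁻¹)) k
    rw [Set.indicator_of_mem]
    exact hkz
  refine (lintegral_mono h1).trans ?_
  rw [lintegral_finsetSum]
  · rw [Finset.sum_mul, ENNReal.ofReal_sum_of_nonneg fun z _ =>
      mul_nonneg (hC z) (by positivity)]
    exact Finset.sum_le_sum fun z _ => hV z y M hM
  · intro z _
    have hVy : IsOpen {k : K | (y, k) ∈ V z} := (hVo z).preimage (Continuous.prodMk_right y)
    exact (ENNReal.measurable_ofReal.comp hFc.measurable).indicator hVy.measurableSet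

end

end SYM
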