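import Pool.Agent.SYM.StP
import Pool.Agent.LGR.NILP

/-!
# SYM, module SNIL: the nilpotent parts of the parabolic subalgebras of a symmetric pair
-/

namespace SYM

open STZ LGR MeasureTheory Matrix Filter

open scoped ComplexConjugate Matrix Real Topology

noncomputable section

attribute [local instance 100] LieRing.ofAssociativeRing

namespace SNIL

open LGR.NILP

variable {N l : ℕ} {H : Subgroup (SU N)} {Φ : RT l} {B : Matrix (Fin l) (Fin l) ℤ}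
  {Hc : Fin l → Matrix (Fin N) (Fin N) ℂ} {E : (Fin l → ℤ) × (Fin l → ℤ) → Matrix (Fin N) (Fin N) ℂ}

/-- the square of the norm of `E p` -/
def tq (E : (Fin l → ℤ) × (Fin l → ℤ) → Matrix (Fin N) (Fin N) ℂ) (p : (Fin l → ℤ) × (Fin l → ℤ)) : ℝ :=
  (E p * (E p)ᴴ).trace.re

/-- the scaling factor -/
def sc (E : (Fin l → ℤ) × (Fin l → ℤ) → Matrix (Fin N) (Fin N) ℂ) (p : (Fin l → ℤ) × (Fin l → ℤ)) : ℝ :=
  (√(tq E p))⁻¹

theorem eb_eq (P : RT l) (k : Fin P.card) :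
    eb E P k = (sc E (P.equivFin.symm k).1 : ℂ) • E (P.equivFin.symm k).1 := rfl

theorem sum_fin {α : Type} [AddCommMonoid α] (P : RT l) (f : (Fin l → ℤ) × (Fin l → ℤ) → α) :
    ∑ k, f (P.equivFin.symm k).1 = ∑ p ∈ P, f p :=
  (P.equivFin.symm.sum_comp (fun x : P => f x.1)).trans (Finset.sum_coe_sort P f)

theorem tq_pos (hT : TAF H Φ Hc E) {p : (Fin l → ℤ) × (Fin l → ℤ)} (hp : p ∈ Φ) : 0 < tq E p := (hT.pos p hp).1

theorem tq_eq (hT : TAF H Φ Hc E) {p : (Fin l → ℤ) × (Fin l → ℤ)} (hp : p ∈ Φ) :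
    (E p * (E p)ᴴ).trace = (tq E p : ℂ) := by
  apply Complex.ext
  · rw [Complex.ofReal_re]
    rfl
  · rw [Complex.ofReal_im]
    exact (hT.pos p hp).2

theorem sc_pos (hT : TAF H Φ Hc E) {p : (Fin l → ℤ) × (Fin l → ℤ)} (hp : p ∈ Φ) : 0 < sc E p :=
  inv_pos.2 (Real.sqrt_pos.2 (tq_pos hT hp))

theorem sc_sq (hT : TAF H Φ Hc E) {p : (Fin l → ℤ) × (Fin l → ℤ)} (hp : p ∈ Φ) :
    sc E p * sc E p = (tq E p)⁻¹ := by
  rw [sc, ← mul_inv, Real.mul_self_sqrt (tq_pos hT hp).le]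

theorem sc_sqC (hT : TAF H Φ Hc E) {p : (Fin l → ℤ) × (Fin l → ℤ)} (hp : p ∈ Φ) :
    (sc E p : ℂ) * (sc E p : ℂ) = ((tq E p)⁻¹ : ℝ) := by
  rw [← Complex.ofReal_mul, sc_sq hT hp]

/-- the coordinates of `δ` -/
def yv (E : (Fin l → ℤ) × (Fin l → ℤ) → Matrix (Fin N) (Fin N) ℂ) (P : RT l) (i : Fin l) : ℝ :=
  ∑ p ∈ P, (tq E p)⁻¹ * p.2 i

theorem db_eq (hT : TAF H Φ Hc E) (hL : LRD H Φ B Hc E) {P : RT l} (hP : ∀ p ∈ P, p ∈ Φ) :
    db E P = ∑ i, (yv E P i : ℂ) • Hc i := by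
  have h1 : ∀ k : Fin P.card, eb E P k * (eb E P k)ᴴ - (eb E P k)ᴴ * eb E P k =
      (fun p => ((tq E p)⁻¹ : ℂ) • ∑ j, (p.2 j : ℂ) • Hc j) (P.equivFin.symm k).1 := by
    intro k
    have hk : (P.equivFin.symm k).1 ∈ Φ := hP _ (P.equivFin.symm k).2
    rw [eb_eq, conjTranspose_smul, Complex.star_def, Complex.conj_ofReal, Matrix.smul_mul, Matrix.mul_smul,
      Matrix.smul_mul, Matrix.mul_smul, smul_smul, smul_smul, ← smul_sub, hL.cor _ hk, sc_sqC hT hk]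
    push_cast
    rfl
  have h3 : db E P = ∑ p ∈ P, ((tq E p)⁻¹ : ℂ) • ∑ j, (p.2 j : ℂ) • Hc j :=
    (Finset.sum_congr rfl fun k _ => h1 k).trans
      (sum_fin P fun p => ((tq E p)⁻¹ : ℂ) • ∑ j, (p.2 j : ℂ) • Hc j)
  rw [h3]
  have h2 : ∀ i, (yv E P i : ℂ) • Hc i = ∑ p ∈ P, (((tq E p)⁻¹ : ℂ) * (p.2 i : ℂ)) • Hc i := by
    intro i
    rw [yv, ← Finset.sum_smul]
    push_cast
    rfl
  rw [Finset.sum_congr rfl fun i _ => h2 i, Finset.sum_comm]
  refine Finset.sum_congr rfl fun p _ => ?_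
  rw [Finset.smul_sum]
  exact Finset.sum_congr rfl fun i _ => smul_smul _ _ _

theorem ad_db (hT : TAF H Φ Hc E) (hL : LRD H Φ B Hc E) {P : RT l} (hP : ∀ p ∈ P, p ∈ Φ)
    {q : (Fin l → ℤ) × (Fin l → ℤ)} (hq : q ∈ Φ) :
    db E P * E q - E q * db E P = ((∑ i, yv E P i * q.1 i : ℝ) : ℂ) • E q := by
  rw [db_eq hT hL hP, Finset.sum_mul, Finset.mul_sum, ← Finset.sum_sub_distrib]
  push_cast
  rw [Finset.sum_smul]
  refine Finset.sum_congr rfl fun i _ => ?_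
  rw [Matrix.smul_mul, Matrix.mul_smul, ← smul_sub, hL.ead q hq i, smul_smul]

/-- the Gram matrix applied to the coordinates of a coroot -/
theorem gram (hT : TAF H Φ Hc E) {p : (Fin l → ℤ) × (Fin l → ℤ)} (hp : p ∈ Φ) (j : Fin l) :
    ∑ i, (Hc j * Hc i).trace * (p.2 i : ℂ) = (p.1 j : ℂ) * (tq E p : ℂ) := by
  have h1 := hT.tp p hp j
  rw [tq_eq hT hp, Finset.mul_sum, trace_sum] at h1
  rw [← h1]
  refine Finset.sum_congr rfl fun i _ => ?_
  rw [Matrix.mul_smul, trace_smul, smul_eq_mul, mul_comm]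

theorem gram_y (hT : TAF H Φ Hc E) {P : RT l} (hP : ∀ p ∈ P, p ∈ Φ) (j : Fin l) :
    ∑ i, (Hc j * Hc i).trace * (yv E P i : ℂ) = ∑ p ∈ P, (p.1 j : ℂ) := by
  have h1 : ∀ i, (Hc j * Hc i).trace * (yv E P i : ℂ) =
      ∑ p ∈ P, ((tq E p : ℂ))⁻¹ * ((Hc j * Hc i).trace * (p.2 i : ℂ)) := by
    intro i
    rw [yv]
    push_cast
    rw [Finset.mul_sum]
    exact Finset.sum_congr rfl fun p _ => by ring
  rw [Finset.sum_congr rfl fun i _ => h1 i, Finset.sum_comm]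
  refine Finset.sum_congr rfl fun p hp => ?_
  rw [← Finset.mul_sum, gram hT (hP p hp) j]
  have h2 : (tq E p : ℂ) ≠ 0 := by exact_mod_cast (tq_pos hT (hP p hp)).ne'
  field_simp

/-- the eigenvalues of `ad δ` -/
theorem eigv (hT : TAF H Φ Hc E) {P : RT l} (hP : ∀ p ∈ P, p ∈ Φ) {b : ℤ} {ν : Fin l → ℤ}
    (hb : ∑ p ∈ P, p.1 = b • ν) {q : (Fin l → ℤ) × (Fin l → ℤ)} (hq : q ∈ Φ) :
    ∑ i, yv E P i * q.1 i = (b : ℝ) / tq E q * ((q.2 ⬝ᵥ ν : ℤ) : ℝ) := by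
  have h0 : (tq E q : ℝ) ≠ 0 := (tq_pos hT hq).ne'
  have hbj : ∀ j, ∑ p ∈ P, (p.1 j : ℂ) = (b : ℂ) * (ν j : ℂ) := by
    intro j
    have h1 := congrFun hb j
    rw [Finset.sum_apply, Pi.smul_apply, smul_eq_mul] at h1
    exact_mod_cast h1
  have h1 : (∑ i, (yv E P i : ℂ) * (q.1 i : ℂ)) * (tq E q : ℂ) = (b : ℂ) * ((q.2 ⬝ᵥ ν : ℤ) : ℂ) := by
    rw [Finset.sum_mul]
    have h2 : ∀ i, (yv E P i : ℂ) * (q.1 i : ℂ) * (tq E q : ℂ) =
        ∑ j, (q.2 j : ℂ) * ((Hc j * Hc i).trace * (yv E P i : ℂ)) := by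
      intro i
      rw [mul_assoc, ← gram hT hq i, Finset.mul_sum]
      refine Finset.sum_congr rfl fun j _ => ?_
      rw [trace_mul_comm (Hc i) (Hc j)]
      ring
    rw [Finset.sum_congr rfl fun i _ => h2 i, Finset.sum_comm, dotProduct]
    push_cast
    rw [Finset.mul_sum]
    refine Finset.sum_congr rfl fun j _ => ?_
    rw [← Finset.mul_sum, gram_y hT hP j, hbj j]
    ring
  have h2 : (∑ i, yv E P i * q.1 i) * tq E q = (b : ℝ) * ((q.2 ⬝ᵥ ν : ℤ) : ℝ) := by exact_mod_cast h1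
  field_simp
  linarith

/-! ### the structure NIL -/

theorem hx_neg (y : Fin l → ℝ) : hx Hc (fun i => -y i) = (-Complex.I) • ∑ i, (y i : ℂ) • Hc i := by
  rw [hx, Finset.smul_sum]
  refine Finset.sum_congr rfl fun i _ => ?_
  rw [smul_smul]
  congr 1
  push_cast
  ring

theorem hx_add (u v : Fin l → ℝ) : hx Hc (fun i => u i + v i) = hx Hc u + hx Hc v := by
  rw [hx, hx, hx, ← Finset.sum_add_distrib]
  refine Finset.sum_congr rfl fun i _ => ?_
  rw [← add_smul]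
  congr 1
  push_cast
  ring

theorem hx_tr (a c : Fin l → ℝ) : (hx Hc a * hx Hc c).trace =
    -∑ k, (a k : ℂ) * ∑ i, (Hc k * Hc i).trace * (c i : ℂ) := by
  rw [hx, hx, Finset.sum_mul, trace_sum, ← Finset.sum_neg_distrib]
  refine Finset.sum_congr rfl fun k _ => ?_
  rw [Finset.mul_sum, trace_sum, Finset.mul_sum, ← Finset.sum_neg_distrib]
  refine Finset.sum_congr rfl fun i _ => ?_
  rw [Matrix.smul_mul, Matrix.mul_smul, trace_smul, trace_smul, smul_eq_mul, smul_eq_mul]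
  linear_combination ((a k : ℂ) * (c i : ℂ) * (Hc k * Hc i).trace) * Complex.I_mul_I

theorem hx_inj (hL : LRD H Φ B Hc E) {u : Fin l → ℝ} (h0 : hx Hc u = 0) : ∀ i, u i = 0 := by
  have h1 : ∑ i, u i • Hc i = 0 := by
    have h2 : (-Complex.I) • hx Hc u = ∑ i, u i • Hc i := by
      rw [hx, Finset.smul_sum]
      refine Finset.sum_congr rfl fun i _ => ?_
      rw [smul_smul, ← rsmul]
      congr 1
      linear_combination (-(u i : ℂ)) * Complex.I_mul_I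
    rw [← h2, h0, smul_zero]
  exact Fintype.linearIndependent_iff.1 hL.lin u h1

/-- `θ y = -y` -/
theorem thy {σ : H →* H} {τ : Matrix (Fin N) (Fin N) ℂ →ₗ[ℝ] Matrix (Fin N) (Fin N) ℂ}
    {A : Submodule ℝ (Matrix (Fin N) (Fin N) ℂ)} {x₀ : Fin l → ℝ} {θ : Matrix (Fin l) (Fin l) ℤ}
    (h : LIF H) (hT : TAF H Φ Hc E) (hL : LRD H Φ B Hc E) (ht : TSF H σ τ) (hs : SRA τ A Φ Hc E x₀ θ)
    {P : RT l} (hP : ∀ p ∈ P, p ∈ Φ) {b : ℤ} {ν : Fin l → ℤ}
    (hb : ∑ p ∈ P, p.1 = b • ν) (hν : θᵀ *ᵥ ν = -ν) (i : Fin l) :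
    ∑ j, (θ i j : ℝ) * yv E P j = -yv E P i := by
  obtain ⟨y, hy⟩ : ∃ y, y = yv E P := ⟨_, rfl⟩
  obtain ⟨T, hTd⟩ : ∃ T : (Fin l → ℝ) → Fin l → ℝ, T = fun x i => ∑ j, (θ i j : ℝ) * x j := ⟨_, rfl⟩
  have hτ : ∀ x, τ (hx Hc x) = hx Hc (T x) := by
    intro x
    rw [hTd]
    exact hs.tau x
  have hTT : ∀ x, T (T x) = x := by
    intro x
    funext i
    have h1 : T (T x) i = ∑ k, (((θ * θ) i k : ℤ) : ℝ) * x k := by
      rw [hTd]
      show ∑ j, (θ i j : ℝ) * ∑ k, (θ j k : ℝ) * x k = _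
      simp only [Finset.mul_sum]
      rw [Finset.sum_comm]
      refine Finset.sum_congr rfl fun k _ => ?_
      rw [Matrix.mul_apply]
      push_cast
      rw [Finset.sum_mul]
      exact Finset.sum_congr rfl fun j _ => by ring
    rw [h1, hs.sq]
    rw [Finset.sum_eq_single i]
    · rw [Matrix.one_apply_eq]
      simp
    · intro k _ hk
      rw [Matrix.one_apply_ne (Ne.symm hk)]
      simp
    · intro hn
      exact absurd (Finset.mem_univ i) hn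
  have hbj : ∀ j, ∑ p ∈ P, (p.1 j : ℂ) = (b : ℂ) * (ν j : ℂ) := by
    intro j
    have h1 := congrFun hb j
    rw [Finset.sum_apply, Pi.smul_apply, smul_eq_mul] at h1
    exact_mod_cast h1
  have h1 : ∀ a, (hx Hc a * hx Hc y).trace = -∑ k, (a k : ℂ) * ((b : ℂ) * (ν k : ℂ)) := by
    intro a
    rw [hx_tr, hy]
    congr 1
    refine Finset.sum_congr rfl fun k _ => ?_
    rw [gram_y hT hP k, hbj]
  have h2 : ∀ a, (hx Hc a * hx Hc (T y)).trace = ∑ k, (a k : ℂ) * ((b : ℂ) * (ν k : ℂ)) := by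
    intro a
    have h3 : (hx Hc a * hx Hc (T y)).trace = (hx Hc (T a) * hx Hc y).trace := by
      rw [← ht.tr _ (hT.hmem (T a)) _ (hT.hmem y), hτ, hτ, hTT]
    rw [h3, h1]
    have h4 : ∀ k, (T a k : ℂ) * ((b : ℂ) * (ν k : ℂ)) = ∑ j, (θ k j : ℂ) * (a j : ℂ) * ((b : ℂ) * (ν k : ℂ)) := by
      intro k
      rw [hTd]
      push_cast
      rw [Finset.sum_mul]
    rw [Finset.sum_congr rfl fun k _ => h4 k, Finset.sum_comm, ← Finset.sum_neg_distrib]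
    refine Finset.sum_congr rfl fun j _ => ?_
    have h5 : ∑ k, (θ k j : ℂ) * (ν k : ℂ) = -(ν j : ℂ) := by
      have h6 := congrFun hν j
      rw [Matrix.mulVec, dotProduct, Pi.neg_apply] at h6
      simp only [Matrix.transpose_apply] at h6
      exact_mod_cast h6
    have h7 : ∑ k, (θ k j : ℂ) * (a j : ℂ) * ((b : ℂ) * (ν k : ℂ)) =
        (a j : ℂ) * (b : ℂ) * ∑ k, (θ k j : ℂ) * (ν k : ℂ) := by
      rw [Finset.mul_sum]
      exact Finset.sum_congr rfl fun k _ => by ring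
    rw [h7, h5]
    ring
  have h3 : hx Hc (fun i => T y i + y i) = 0 := by
    apply tr0
    rw [ct h (hT.hmem _), mul_neg, trace_neg]
    rw [hx_add (T y) y, mul_add, trace_add, ← hx_add (T y) y, h2, h1]
    ring
  have h4 := hx_inj hL h3 i
  have h5 : T y i = ∑ j, (θ i j : ℝ) * yv E P j := by rw [hTd, hy]
  rw [← h5, ← hy]
  linarith

theorem comm_star {h X : Matrix (Fin N) (Fin N) ℂ} (hh : hᴴ = h) (h0 : h * X - X * h = 0) :
    h * Xᴴ - Xᴴ * h = 0 := by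
  rw [ad_star hh, h0, conjTranspose_zero, neg_zero]

/-- `P` is a set of positive roots, `δ` has positive eigenvalues for the roots in `P` and commutes with the other positive root vectors -/
structure PP (Φ : RT l) (P : RT l) (E : (Fin l → ℤ) × (Fin l → ℤ) → Matrix (Fin N) (Fin N) ℂ)
    (c : (Fin l → ℤ) × (Fin l → ℤ) → ℝ) : Prop where
  sub : ∀ p ∈ P, p ∈ Φ
  eig : ∀ p ∈ Φ, db E P * E p - E p * db E P = (c p : ℂ) • E p
  cpos : ∀ p ∈ P, 0 < c p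
  czero : ∀ p ∈ pos Φ, p ∉ P → c p = 0

theorem nil (h : LIF H) (hC : LCF H) (hw : WFF Φ B) (hT : TAF H Φ Hc E) (hL : LRD H Φ B Hc E) {P : RT l}
    {c : (Fin l → ℤ) × (Fin l → ℤ) → ℝ} (hP : PP Φ P E c) : NIL H (eb E P) (db E P) := by
  obtain ⟨G, hGd⟩ : ∃ G : Submodule ℂ (Matrix (Fin N) (Fin N) ℂ), G = (LC H).toSubmodule := ⟨_, rfl⟩
  have hGm : ∀ Z, Z ∈ G ↔ Z ∈ LC H := by
    intro Z
    rw [hGd]
    rfl
  have hG : ∀ Z, Z ∈ G ↔ ∃ X ∈ lie H, ∃ Y ∈ lie H, Z = X + Complex.I • Y := fun Z => (hGm Z).trans (hC.mem Z)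
  have hlG : ∀ X ∈ lie H, X ∈ G := fun X hX => (hG X).2 ⟨X, hX, 0, h.zero, by simp⟩
  have hskew : ∀ Z ∈ G, Zᴴ = -Z → Z ∈ lie H := fun Z hZ => hC.skew Z ((hGm Z).1 hZ)
  have hstar : ∀ X ∈ G, Xᴴ ∈ G := fun X hX => (hGm _).2 (hC.star _ ((hGm _).1 hX))
  obtain ⟨δ, hδ⟩ : ∃ δ, δ = db E P := ⟨_, rfl⟩
  have hEG : ∀ p ∈ Φ, E p ∈ G := by
    intro p hp
    obtain ⟨h1, h2⟩ := hL.emem p hp
    have h3 : E p = (1 / 2 : ℂ) • ((E p - (E p)ᴴ) + (-Complex.I) • (Complex.I • (E p + (E p)ᴴ))) := by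
      rw [smul_smul, neg_mul, Complex.I_mul_I, neg_neg, one_smul]
      have h4 : E p - (E p)ᴴ + (E p + (E p)ᴴ) = (2 : ℂ) • E p := by
        rw [two_smul]
        abel
      rw [h4, smul_smul]
      norm_num
    rw [h3]
    exact G.smul_mem _ (G.add_mem (hlG _ h1) (G.smul_mem _ (hlG _ h2)))
  have hml : (-Complex.I) • δ ∈ lie H := by
    have h1 := hT.hmem (fun i => -yv E P i)
    rw [hx_neg, ← db_eq hT hL hP.sub, ← hδ] at h1
    exact h1
  have hδG : δ ∈ G := by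
    have h1 : δ = Complex.I • ((-Complex.I) • δ) := by
      rw [smul_smul, mul_neg, Complex.I_mul_I, neg_neg, one_smul]
    rw [h1]
    exact G.smul_mem _ (hlG _ hml)
  have hδe : δ = dl (eb E P) := hδ
  have hδh : δᴴ = δ := by
    rw [hδe]
    exact dl_herm
  have g : GS G δ := by
    refine ⟨hstar, ?_, hδG, hδh⟩
    intro X hX Y hY
    have h1 := (LC H).lie_mem ((hGm _).1 hX) ((hGm _).1 hY)
    rw [Ring.lie_def] at h1
    exact (hGm _).2 h1
  obtain ⟨e, hed⟩ : ∃ e, e = eb E P := ⟨_, rfl⟩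
  have hek : ∀ k, e k = (sc E (P.equivFin.symm k).1 : ℂ) • E (P.equivFin.symm k).1 := by
    intro k
    rw [hed]
    exact eb_eq P k
  have hkP : ∀ k : Fin P.card, (P.equivFin.symm k).1 ∈ P := fun k => (P.equivFin.symm k).2
  have hkΦ : ∀ k : Fin P.card, (P.equivFin.symm k).1 ∈ Φ := fun k => hP.sub _ (hkP k)
  have hec : ∀ k, δ * e k - e k * δ = (c (P.equivFin.symm k).1 : ℂ) • e k := by
    intro k
    rw [hek, Matrix.mul_smul, Matrix.smul_mul, ← smul_sub, hδ, hP.eig _ (hkΦ k), smul_comm]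
  have hpos : ∀ k : Fin P.card, 0 < c (P.equivFin.symm k).1 := fun k => hP.cpos _ (hkP k)
  have hEn : ∀ p ∈ P, E p ∈ nn G δ := by
    intro p hp
    exact Submodule.subset_span ⟨hEG _ (hP.sub p hp), c p, hP.cpos p hp, by rw [hδ]; exact hP.eig p (hP.sub p hp)⟩
  have hen : ∀ k, e k ∈ nn G δ := by
    intro k
    rw [hek]
    exact Submodule.smul_mem _ _ (hEn _ (hkP k))
  have horth : ∀ j k, (e j * (e k)ᴴ).trace = if j = k then 1 else 0 := by
    intro j k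
    rw [hek, hek, conjTranspose_smul, Complex.star_def, Complex.conj_ofReal, Matrix.smul_mul, Matrix.mul_smul,
      trace_smul, trace_smul, smul_eq_mul, smul_eq_mul]
    by_cases hjk : j = k
    · rw [if_pos hjk, hjk, ← mul_assoc, sc_sqC hT (hkΦ k), tq_eq hT (hkΦ k)]
      have h1 := (tq_pos hT (hkΦ k)).ne'
      rw [← Complex.ofReal_mul, inv_mul_cancel₀ h1, Complex.ofReal_one]
    · rw [if_neg hjk, hT.orth _ (hkΦ j) _ (hkΦ k), mul_zero, mul_zero]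
      intro h1
      exact hjk (P.equivFin.symm.injective (Subtype.ext h1))
  have hHc : ∀ j, δ * Hc j - Hc j * δ = 0 := by
    intro j
    rw [hδ, db_eq hT hL hP.sub, Finset.sum_mul, Finset.mul_sum, ← Finset.sum_sub_distrib]
    refine Finset.sum_eq_zero fun i _ => ?_
    rw [Matrix.smul_mul, Matrix.mul_smul, ← smul_sub, hL.comm i j, sub_self, smul_zero]
  have hE0 : ∀ p ∈ pos Φ, p ∉ P → δ * E p - E p * δ = 0 := by
    intro p hp hn
    rw [hδ, hP.eig p (hw.ppos p hp).1, hP.czero p hp hn]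
    simp
  -- an element of the positive part which is orthogonal to the `e k`
  have hW : ∀ W ∈ nn G δ, (∀ k, (W * (e k)ᴴ).trace = 0) → W = 0 := by
    intro W hWn hWk
    have h1 : ∀ p ∈ P, (W * (E p)ᴴ).trace = 0 := by
      intro p hp
      have h2 := hWk (P.equivFin ⟨p, hp⟩)
      rw [hek, Equiv.symm_apply_apply, conjTranspose_smul, Complex.star_def, Complex.conj_ofReal, Matrix.mul_smul,
        trace_smul, smul_eq_mul] at h2
      refine (mul_eq_zero.1 h2).resolve_left ?_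
      exact_mod_cast (sc_pos hT (hP.sub p hp)).ne'
    have h2 : ∀ X ∈ lie H, (W * X).trace = 0 := by
      intro X hX
      obtain ⟨x, z, rfl⟩ := hL.span X hX
      rw [mul_add, trace_add, Finset.mul_sum, Finset.mul_sum, trace_sum, trace_sum]
      have h3 : ∑ j, (W * ((x j : ℂ) * Complex.I) • Hc j).trace = 0 := by
        refine Finset.sum_eq_zero fun j _ => ?_
        rw [Matrix.mul_smul, trace_smul, nn_tr0 hWn (hHc j), smul_zero]
      have h4 : ∑ p ∈ pos Φ, (W * (z p • E p - conj (z p) • (E p)ᴴ)).trace = 0 := by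
        refine Finset.sum_eq_zero fun p hp => ?_
        rw [mul_sub, Matrix.mul_smul, Matrix.mul_smul, trace_sub, trace_smul, trace_smul]
        by_cases hpP : p ∈ P
        · rw [nn_tr hWn (hEn p hpP), h1 p hpP]
          simp
        · rw [nn_tr0 hWn (hE0 p hp hpP), nn_tr0 hWn (comm_star hδh (hE0 p hp hpP))]
          simp
      rw [h3, h4, add_zero]
    apply tr0
    obtain ⟨X, hX, Y, hY, hE⟩ := (hG _).1 (hstar _ (nnG hWn))
    rw [hE, mul_add, Matrix.mul_smul, trace_add, trace_smul, h2 X hX, h2 Y hY, smul_zero, add_zero]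
  have he : OB (nn G δ) e := by
    refine ⟨hen, horth, ?_⟩
    intro X hX
    have h1 : X - ∑ i, (X * (e i)ᴴ).trace • e i = 0 := by
      apply hW
      · exact Submodule.sub_mem _ hX (Submodule.sum_mem _ fun i _ => Submodule.smul_mem _ _ (hen i))
      · intro k
        rw [sub_mul, trace_sub, Finset.sum_mul, trace_sum]
        simp only [Matrix.smul_mul, trace_smul, horth, smul_eq_mul]
        simp
    exact sub_eq_zero.1 h1
  have hnnexp : ∀ X ∈ nn G δ, X = ∑ l, (X * (e l)ᴴ).trace • e l := he.exp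
  have hstG : ∀ k, (e k)ᴴ ∈ G := fun k => g.star _ (nnG (he.mem k))
  have hdec : ∀ X ∈ lie H, ∃ Y ∈ lie H, δ * Y - Y * δ = 0 ∧ ∃ Z ∈ nn G δ, X = Y + (Z - Zᴴ) := by
    intro X hX
    obtain ⟨Z, hZ, Y, hY, W, hW, h0, hE⟩ := dec g (hlG X hX)
    have h1 := congrArg conjTranspose hE
    rw [ct h hX, conjTranspose_add, conjTranspose_add, conjTranspose_conjTranspose] at h1
    have h2 : (Z + W)ᴴ + (Y + Yᴴ) + (Z + W) = 0 := by
      have h3 : (Z + W)ᴴ + (Y + Yᴴ) + (Z + W) = (Zᴴ + Y + W) + (Z + Yᴴ + Wᴴ) := by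
        rw [conjTranspose_add]
        abel
      rw [h3, ← hE, ← h1, add_neg_cancel]
    have hYs : δ * (Y + Yᴴ) - (Y + Yᴴ) * δ = 0 := by
      have e1 : δ * (Y + Yᴴ) - (Y + Yᴴ) * δ = (δ * Y - Y * δ) + (δ * Yᴴ - Yᴴ * δ) := by noncomm_ring
      rw [e1, ad_star g.herm, h0, conjTranspose_zero, neg_zero, add_zero]
    obtain ⟨h3, h4, -⟩ := dec0 g (Submodule.add_mem _ hZ hW) hYs (Submodule.add_mem _ hZ hW) h2
    have hZW : Z = -W := eq_neg_of_add_eq_zero_left h3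
    have hYY : Yᴴ = -Y := eq_neg_of_add_eq_zero_right h4
    refine ⟨Y, hskew _ hY hYY, h0, W, hW, ?_⟩
    rw [hE, hZW, conjTranspose_neg]
    abel
  rw [← hed, ← hδ]
  refine ⟨?_, he.orth, ?_, ?_, hml, fun k => ⟨_, hpos k, hec k⟩, ?_, ?_, ?_, ?_⟩
  · intro k
    refine ⟨hskew _ (G.sub_mem (nnG (he.mem k)) (hstG k)) ?_,
      hskew _ (G.smul_mem _ (G.add_mem (nnG (he.mem k)) (hstG k))) ?_⟩
    · rw [conjTranspose_sub, conjTranspose_conjTranspose, neg_sub]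
    · rw [conjTranspose_smul, conjTranspose_add, conjTranspose_conjTranspose, Complex.star_def, Complex.conj_I,
        neg_smul, add_comm]
  · intro j k
    exact nn_tr (he.mem j) (he.mem k)
  · rw [hδ, hed]
    rfl
  · intro X hX
    obtain ⟨Y, hY, h0, Z, hZ, hE⟩ := hdec X hX
    refine ⟨Y, hY, (sub_eq_zero.1 h0).symm, fun k => (Z * (e k)ᴴ).trace, ?_⟩
    rw [hE]
    congr 1
    rw [Finset.sum_sub_distrib]
    congr 1
    · exact hnnexp Z hZ
    · refine (congrArg conjTranspose (hnnexp Z hZ)).trans ?_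
      rw [conjTranspose_sum]
      refine Finset.sum_congr rfl fun k _ => ?_
      rw [conjTranspose_smul]
      rfl
  · intro Y hY h0 k
    exact nn_tr0 (he.mem k) (sub_eq_zero.2 h0.symm)
  · intro i k
    have h1 := nn_br g (he.mem i) (he.mem k)
    refine ⟨fun l => ((e i * e k - e k * e i) * (e l)ᴴ).trace, hnnexp _ h1, ?_⟩
    refine eig2 (h := δ) (c := ((c (P.equivFin.symm i).1 + c (P.equivFin.symm k).1 : ℝ) : ℂ))
      (c' := -(c (P.equivFin.symm k).1 : ℂ)) ?_ ?_ ?_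
    · rw [jac, hec i, hec k, Matrix.mul_smul, Matrix.smul_mul, Matrix.mul_smul, Matrix.smul_mul, ← smul_sub,
        ← smul_sub, ← add_smul]
      push_cast
      rfl
    · rw [ad_star hδh, hec k, conjTranspose_smul, Complex.star_def, Complex.conj_ofReal, neg_smul]
    · have : ((c (P.equivFin.symm i).1 + c (P.equivFin.symm k).1 : ℝ) : ℂ) + -(c (P.equivFin.symm k).1 : ℂ) =
          ((c (P.equivFin.symm i).1 : ℝ) : ℂ) := by push_cast; ring
      rw [this]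
      exact_mod_cast (hpos i).ne'
  · intro Y hY h0 k
    exact ⟨_, hnnexp _ (nn_l g (hlG Y hY) (sub_eq_zero.2 h0.symm) (he.mem k))⟩

end SNIL

open SNIL LGR.NILP in
theorem t_SNIL : M_SNIL := by
  intro hLIEB hWFAC hTAUF hTAUS N H K σ τ A l Φ B Hc E x₀ θ r s ε hD j
  have h := hLIEB N H hD.closed
  have hC := t_LCXF hLIEB N H hD.closed
  have hL := hD.sr.lrd
  have hw := hWFAC l Φ B hL.ird
  have hT := hTAUF N H l Φ B Hc E hD.closed hL
  have ht := hTAUS N H K σ τ hD.closed hD.simple hD.sym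
  obtain ⟨P, hPd⟩ : ∃ P, P = pe Φ (ε j) := ⟨_, rfl⟩
  have hPm : ∀ p, p ∈ P ↔ p ∈ pos Φ ∧ 0 < p.2 ⬝ᵥ ε j := by
    intro p
    rw [hPd, pe, Finset.mem_filter]
  have hPΦ : ∀ p ∈ P, p ∈ Φ := fun p hp => (hw.ppos p ((hPm p).1 hp).1).1
  obtain ⟨b, hb2, hb⟩ := hD.so.beta j
  rw [← hPd] at hb
  have hb0 : (0 : ℝ) < b := by exact_mod_cast (by omega : (0 : ℤ) < b)
  have heig : ∀ q ∈ Φ, db E P * E q - E q * db E P =
      (((b : ℝ) / tq E q * ((q.2 ⬝ᵥ ε j : ℤ) : ℝ) : ℝ) : ℂ) • E q := by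
    intro q hq
    rw [ad_db hT hL hPΦ hq, eigv hT hPΦ hb hq]
  have hPP : PP Φ P E fun q => (b : ℝ) / tq E q * ((q.2 ⬝ᵥ ε j : ℤ) : ℝ) := by
    refine ⟨hPΦ, heig, ?_, ?_⟩
    · intro p hp
      have h1 : (0 : ℝ) < ((p.2 ⬝ᵥ ε j : ℤ) : ℝ) := by exact_mod_cast ((hPm p).1 hp).2
      exact mul_pos (div_pos hb0 (tq_pos hT (hPΦ p hp))) h1
    · intro p hp hn
      have h1 : p.2 ⬝ᵥ ε j = 0 := by
        have h2 := hD.so.nn p hp j
        have h3 : ¬0 < p.2 ⬝ᵥ ε j := fun h4 => hn ((hPm p).2 ⟨hp, h4⟩)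
        omega
      show (b : ℝ) / tq E p * ((p.2 ⬝ᵥ ε j : ℤ) : ℝ) = 0
      rw [h1]
      simp
  rw [← hPd]
  refine ⟨⟨nil h hC hw hT hL hPP, ?_, ?_⟩, ?_⟩
  · rw [db_eq hT hL hPΦ, ← hx_neg]
    refine (hD.sra.A _).2 fun i => ?_
    have h1 := thy h hT hL ht hD.sra hPΦ hb (hD.so.anti j) i
    rw [← h1]
    simp only [mul_neg, Finset.sum_neg_distrib, neg_neg]
  · intro k
    obtain ⟨p, hpd⟩ : ∃ p, p = (P.equivFin.symm k).1 := ⟨_, rfl⟩
    have hpP : p ∈ P := by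
      rw [hpd]
      exact (P.equivFin.symm k).2
    have hpA : p ∈ PA Φ x₀ := by
      rw [PA, Finset.mem_filter]
      exact ⟨((hPm p).1 hpP).1, (hD.so.pos p ((hPm p).1 hpP).1).2 ⟨j, ((hPm p).1 hpP).2⟩⟩
    obtain ⟨q, hqd⟩ : ∃ q : (Fin l → ℤ) × (Fin l → ℤ), q = (-(θᵀ *ᵥ p.1), -(θ *ᵥ p.2)) := ⟨_, rfl⟩
    have hqA : q ∈ PA Φ x₀ := by
      rw [hqd]
      exact hD.so.posθ p hpA
    have hqP : q ∈ P := by
      rw [PA, Finset.mem_filter] at hqA
      refine (hPm q).2 ⟨hqA.1, ?_⟩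
      have h1 : q.2 ⬝ᵥ ε j = p.2 ⬝ᵥ ε j := by
        have h2 : (θ *ᵥ p.2) ⬝ᵥ ε j = p.2 ⬝ᵥ (θᵀ *ᵥ ε j) := by
          rw [Matrix.mulVec_transpose, dotProduct_comm, Matrix.dotProduct_mulVec, dotProduct_comm]
        rw [hqd]
        show (-(θ *ᵥ p.2)) ⬝ᵥ ε j = _
        rw [neg_dotProduct, h2, hD.so.anti j, dotProduct_neg, neg_neg]
      rw [h1]
      exact ((hPm p).1 hpP).2
    obtain ⟨c, -, hc⟩ := hD.sra.tc p (hPΦ p hpP)
    have hst : E (θᵀ *ᵥ p.1, θ *ᵥ p.2) = (E q)ᴴ := by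
      rw [← hL.star q (hPΦ q hqP), hqd]
      simp only [neg_neg]
    obtain ⟨k', hk'⟩ : ∃ k', k' = P.equivFin ⟨q, hqP⟩ := ⟨_, rfl⟩
    have hkq : (P.equivFin.symm k').1 = q := by rw [hk', Equiv.symm_apply_apply]
    have hsq : (SNIL.sc E q : ℂ) ≠ 0 := by exact_mod_cast (sc_pos hT (hPΦ q hqP)).ne'
    refine ⟨fun i => if i = k' then (SNIL.sc E p : ℂ) * c / (SNIL.sc E q : ℂ) else 0, ?_⟩
    rw [Finset.sum_eq_single k']
    · beta_reduce
      rw [if_pos rfl, eb_eq, eb_eq, hkq, ← hpd]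
      show tc τ _ = _
      rw [tc_smul]
      show _ • tcx τ (E p) = _
      rw [hc, hst, conjTranspose_smul, Complex.star_def, Complex.conj_ofReal, smul_smul, smul_smul]
      congr 1
      field_simp
    · intro i _ hi
      beta_reduce
      rw [if_neg hi, zero_smul]
    · intro hn
      exact absurd (Finset.mem_univ _) hn
  · intro p hp
    exact ⟨(b : ℝ) / tq E p, div_pos hb0 (tq_pos hT hp), heig p hp⟩

end

end SYM
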