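import Pool.Agent.SYM.StS
import Pool.Agent.SYM.SNIL
import Pool.Agent.LGR.DERS

/-!
# SYM, module DERJ: the functions `FJ` are highest weight functions
-/

namespace SYM

open STZ LGR MeasureTheory Matrix Filter

open scoped ComplexConjugate Matrix Real Topology

noncomputable section

namespace DERJ

open LGR.DERS

/-- the functions `det (cm e ((σ g)ᴴ g))`, as in DERS -/
theorem core (hCAL : S_CALH) (hLIEB : S_LIEB) (hTAUS : S_TAUS) (hPGXX : S_PGXX)
    {N : ℕ} {H K : Subgroup (SU N)} {σ : H →* H}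
    {τ : Matrix (Fin N) (Fin N) ℂ →ₗ[ℝ] Matrix (Fin N) (Fin N) ℂ} {A : Submodule ℝ (Matrix (Fin N) (Fin N) ℂ)}
    {n : ℕ} {e : Fin n → Matrix (Fin N) (Fin N) ℂ} {δ : Matrix (Fin N) (Fin N) ℂ}
    (hcl : IsClosed (H : Set (SU N))) (hsim : SimpleH H) (hsym : SymP H K σ τ) (hnil : NLJ H τ A e δ)
    (hA : ∀ X ∈ A, τ X = -X) :
    HQF H e δ (PG H σ) 2 (fun g => (cm e ((σ g).1.1ᴴ * g.1.1)).det) ∧
    (cm e ((σ (1 : H)).1.1ᴴ * (1 : H).1.1)).det = 1 ∧
    ∀ k g : H, k.1 ∈ K → (cm e ((σ (k * g)).1.1ᴴ * (k * g).1.1)).det = (cm e ((σ g).1.1ᴴ * g.1.1)).det := by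
  have hT : TSF H σ τ := hTAUS N H K σ τ hcl hsim hsym
  obtain ⟨hS, hdσ⟩ := hPGXX N H K σ τ hcl hsim hsym
  have hL : LIF H := hLIEB N H hcl
  have hC : CALFH H := hCAL N H
  have hN : NIL H e δ := hnil.nil
  -- conjugate transposes
  have hct : ∀ X ∈ lie H, Xᴴ = -X := fun X hX => (hL.su X hX).1
  -- derivative of functions in the algebra
  have hder : ∀ f ∈ PG H σ, ∀ X ∈ lie H, ∀ g : H,
      HasDerivAt (fun t : ℝ => f (g * exH H X t)) (dH X f g) 0 := by
    intro f hf X hX g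
    exact ((hS.c2 f hf).1.diff X hX g).hasDerivAt
  have hm1 : ∀ i j, (fun g : H => g.1.1 i j) ∈ PG H σ := fun i j =>
    Algebra.subset_adjoin (Or.inl (Or.inl ⟨i, j, rfl⟩))
  have hm2 : ∀ i j, (fun g : H => conj (g.1.1 i j)) ∈ PG H σ := fun i j =>
    Algebra.subset_adjoin (Or.inl (Or.inr ⟨i, j, rfl⟩))
  have hm3 : ∀ i j, (fun g : H => (σ g).1.1 i j) ∈ PG H σ := fun i j =>
    Algebra.subset_adjoin (Or.inr (Or.inl ⟨i, j, rfl⟩))
  have hm4 : ∀ i j, (fun g : H => conj ((σ g).1.1 i j)) ∈ PG H σ := fun i j =>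
    Algebra.subset_adjoin (Or.inr (Or.inr ⟨i, j, rfl⟩))
  have hx : MA (PG H σ) (fun g : H => (σ g).1.1ᴴ * g.1.1) :=
    MA.mul (F := fun g : H => (σ g).1.1ᴴ) (G := fun g : H => g.1.1) (fun i j => hm4 j i) hm1
  have hxc : MA (PG H σ) (fun g : H => ((σ g).1.1ᴴ * g.1.1)ᴴ) := by
    intro i j
    exact hS.cj _ (hx j i)
  have hmem : (fun g : H => (cm e ((σ g).1.1ᴴ * g.1.1)).det) ∈ PG H σ := by
    refine MA.det (F := fun g : H => cm e ((σ g).1.1ᴴ * g.1.1)) (fun j k => ?_)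
    exact MA.trace (F := fun g : H => ((σ g).1.1ᴴ * g.1.1) * e k * ((σ g).1.1ᴴ * g.1.1)ᴴ * (e j)ᴴ)
      (((hx.mul (MA.const _ (e k))).mul hxc).mul (MA.const _ _))
  -- the derivative
  have hD : ∀ X ∈ lie H, ∀ g : H, dH X (fun g : H => (cm e ((σ g).1.1ᴴ * g.1.1)).det) g =
      (adjugate (cm e ((σ g).1.1ᴴ * g.1.1)) * DM e ((σ g).1.1ᴴ * g.1.1) X (τ X)).trace := by
    intro X hX g
    have hz : exH H X 0 = 1 := hC.exzero X hX
    have h1 : HM (fun t : ℝ => (g * exH H X t).1.1) (g.1.1 * X) := by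
      intro i j
      have h := hder _ (hm1 i j) X hX g
      rw [hC.dentry X hX i j g] at h
      exact h
    have h2 : HM (fun t : ℝ => (σ (g * exH H X t)).1.1) ((σ g).1.1 * τ X) := by
      intro i j
      have h := hder _ (hm3 i j) X hX g
      rw [hdσ X hX i j g] at h
      exact h
    have h3 : HM (fun t : ℝ => (σ (g * exH H X t)).1.1ᴴ * (g * exH H X t).1.1)
        (((σ g).1.1ᴴ * g.1.1) * X - τ X * ((σ g).1.1ᴴ * g.1.1)) := by
      have h := h2.ct.mul h1
      have h4 : ((σ g).1.1 * τ X)ᴴ * (g * exH H X 0).1.1 + (σ (g * exH H X 0)).1.1ᴴ * (g.1.1 * X) =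
          ((σ g).1.1ᴴ * g.1.1) * X - τ X * ((σ g).1.1ᴴ * g.1.1) := by
        rw [hz, mul_one, Matrix.conjTranspose_mul, hct (τ X) (hsym.mem X hX)]
        simp only [Matrix.neg_mul, Matrix.mul_assoc]
        abel
      rw [← h4]
      exact h
    have h5 := cmDer e (fun t : ℝ => (σ (g * exH H X t)).1.1ᴴ * (g * exH H X t).1.1) X (τ X)
      (hct X hX) (hct (τ X) (hsym.mem X hX)) (by
        simp only [hz, mul_one]
        exact h3)
    simp only [hz, mul_one] at h5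
    exact h5.deriv
  have hδH : δᴴ = δ := by
    rw [hN.del, Matrix.conjTranspose_sum]
    refine Finset.sum_congr rfl (fun k _ => ?_)
    rw [Matrix.conjTranspose_sub, Matrix.conjTranspose_mul, Matrix.conjTranspose_mul,
      Matrix.conjTranspose_conjTranspose]
  have hτδ : τ ((-Complex.I) • δ) = Complex.I • δ := by
    rw [hA _ hnil.dA, neg_smul, neg_neg]
  -- trace of the structure constants
  have htra : ∀ Y : Matrix (Fin N) (Fin N) ℂ, ∀ a : Matrix (Fin n) (Fin n) ℂ,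
      (∀ k, Y * e k - e k * Y = ∑ l, a l k • e l) → a.trace = (Y * δ).trace := by
    intro Y a ha
    have h1 : ∀ k, a k k = (Y * (e k * (e k)ᴴ - (e k)ᴴ * e k)).trace := by
      intro k
      have h2 : ((Y * e k - e k * Y) * (e k)ᴴ).trace = a k k := by
        rw [ha k, Finset.sum_mul, Matrix.trace_sum]
        rw [Finset.sum_eq_single k]
        · rw [Matrix.smul_mul, Matrix.trace_smul, hN.orth, if_pos rfl, smul_eq_mul, mul_one]
        · intro l _ hl
          rw [Matrix.smul_mul, Matrix.trace_smul, hN.orth, if_neg hl, smul_zero]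
        · intro h
          exact absurd (Finset.mem_univ k) h
      rw [← h2, Matrix.sub_mul, Matrix.mul_sub, Matrix.trace_sub, Matrix.trace_sub]
      congr 1
      · rw [Matrix.mul_assoc]
      · rw [Matrix.mul_assoc, Matrix.trace_mul_comm (e k), Matrix.mul_assoc]
    rw [hN.del, Finset.mul_sum, Matrix.trace_sum]
    simp only [Matrix.trace, Matrix.diag_apply] at h1 ⊢
    exact Finset.sum_congr rfl (fun k _ => h1 k)
  refine ⟨⟨hmem, ?_, ?_⟩, ?_, ?_⟩
  · -- weights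
    intro Y hY hYδ g
    rw [hD Y hY g]
    have hτY : τ Y ∈ lie H := hsym.mem Y hY
    have hτYδ : τ Y * δ = δ * τ Y := by
      have h1 := hT.br Y hY ((-Complex.I) • δ) hN.dmem
      rw [hτδ, Matrix.mul_smul, Matrix.smul_mul, hYδ, sub_self, map_zero, Matrix.mul_smul,
        Matrix.smul_mul, ← smul_sub] at h1
      have h2 := (smul_eq_zero.mp h1.symm).resolve_left Complex.I_ne_zero
      exact sub_eq_zero.mp h2
    choose a ha using hN.ln Y hY hYδ
    choose b hb using hN.ln (τ Y) hτY hτYδ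
    have hb' : ∀ j, (e j)ᴴ * τ Y - τ Y * (e j)ᴴ =
        ∑ l, (Matrix.of (fun j l => -conj (b j l)) : Matrix (Fin n) (Fin n) ℂ) j l • (e l)ᴴ := by
      intro j
      have h1 := congrArg Matrix.conjTranspose (hb j)
      rw [Matrix.conjTranspose_sub, Matrix.conjTranspose_mul, Matrix.conjTranspose_mul,
        hct _ hτY, Matrix.conjTranspose_sum] at h1
      have h2 : (e j)ᴴ * τ Y - τ Y * (e j)ᴴ = -((e j)ᴴ * -τ Y - -τ Y * (e j)ᴴ) := by
        rw [Matrix.mul_neg, Matrix.neg_mul]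
        abel
      rw [h2, h1, ← Finset.sum_neg_distrib]
      refine Finset.sum_congr rfl (fun l _ => ?_)
      rw [Matrix.conjTranspose_smul, Matrix.of_apply, neg_smul]
      rfl
    rw [DM_cm e _ Y (τ Y) (Matrix.of (fun l k => a k l)) (Matrix.of (fun j l => -conj (b j l)))
      (fun k => ha k) hb', tr_adj]
    have h1 : (Matrix.of (fun l k => a k l) : Matrix (Fin n) (Fin n) ℂ).trace = (Y * δ).trace :=
      htra Y _ (fun k => ha k)
    have h2 : (Matrix.of (fun l k => b k l) : Matrix (Fin n) (Fin n) ℂ).trace = (τ Y * δ).trace :=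
      htra (τ Y) _ (fun k => hb k)
    have h3 : (Matrix.of (fun j l => -conj (b j l)) : Matrix (Fin n) (Fin n) ℂ).trace =
        -conj ((τ Y * δ).trace) := by
      rw [← h2]
      simp [Matrix.trace, Finset.sum_neg_distrib]
    have h4 : conj ((τ Y * δ).trace) = -(τ Y * δ).trace := by
      have h5 : (τ Y * δ)ᴴ.trace = conj ((τ Y * δ).trace) := Matrix.trace_conjTranspose _
      rw [← h5, Matrix.conjTranspose_mul, hδH, hct _ hτY, Matrix.mul_neg, Matrix.trace_neg,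
        Matrix.trace_mul_comm]
    have h6 : (τ Y * δ).trace = -(Y * δ).trace := by
      have h7 := hT.tr Y hY ((-Complex.I) • δ) hN.dmem
      rw [hτδ, Matrix.mul_smul, Matrix.mul_smul, Matrix.trace_smul, Matrix.trace_smul,
        smul_eq_mul, smul_eq_mul, neg_mul, ← mul_neg] at h7
      exact mul_left_cancel₀ Complex.I_ne_zero h7
    rw [h1, h3, h4, h6]
    push_cast
    ring
  · -- highest weight
    intro i g
    have hu := (hN.emem i).1
    have hv := (hN.emem i).2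
    rw [hD _ hu g, hD _ hv g]
    obtain ⟨t, ht⟩ := hnil.tau i
    unfold tcx at ht
    choose a ha using fun m k => hN.nn m k
    have h1 : (adjugate (cm e ((σ g).1.1ᴴ * g.1.1)) *
        DM e ((σ g).1.1ᴴ * g.1.1) ((e i - (e i)ᴴ) - Complex.I • (Complex.I • (e i + (e i)ᴴ)))
          (τ (e i - (e i)ᴴ) - Complex.I • τ (Complex.I • (e i + (e i)ᴴ)))).trace = 0 := by
      have hX : (e i - (e i)ᴴ) - Complex.I • (Complex.I • (e i + (e i)ᴴ)) = (2 : ℂ) • e i := by
        rw [smul_smul, Complex.I_mul_I, two_smul]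
        module
      have hTT : τ (e i - (e i)ᴴ) - Complex.I • τ (Complex.I • (e i + (e i)ᴴ)) =
          (2 : ℂ) • ∑ j, t j • (e j)ᴴ := by
        rw [← ht, smul_smul]
        norm_num
      rw [DM_cm e _ _ _ (Matrix.of (fun l k => 2 * a i k l))
        (Matrix.of (fun j l => 2 * ∑ m, t m * conj (a m j l))) ?_ ?_, tr_adj]
      · have e1 : (Matrix.of (fun l k => 2 * a i k l) : Matrix (Fin n) (Fin n) ℂ).trace = 0 := by
          refine Finset.sum_eq_zero (fun k _ => ?_)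
          simp [Matrix.diag_apply, (ha i k).2]
        have e2 : (Matrix.of (fun j l => 2 * ∑ m, t m * conj (a m j l)) :
            Matrix (Fin n) (Fin n) ℂ).trace = 0 := by
          refine Finset.sum_eq_zero (fun k _ => ?_)
          simp [Matrix.diag_apply, (ha _ k).2]
        rw [e1, e2]
        ring
      · intro k
        rw [hX, Matrix.smul_mul, Matrix.mul_smul, ← smul_sub, (ha i k).1, Finset.smul_sum]
        refine Finset.sum_congr rfl (fun l _ => ?_)
        rw [Matrix.of_apply, smul_smul]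
      · intro j
        rw [hTT, Matrix.mul_smul, Matrix.smul_mul, ← smul_sub, Finset.mul_sum, Finset.sum_mul,
          ← Finset.sum_sub_distrib]
        have e3 : ∀ m, (e j)ᴴ * (t m • (e m)ᴴ) - t m • (e m)ᴴ * (e j)ᴴ =
            ∑ l, (t m * conj (a m j l)) • (e l)ᴴ := by
          intro m
          have h1 := congrArg Matrix.conjTranspose (ha m j).1
          rw [Matrix.conjTranspose_sub, Matrix.conjTranspose_mul, Matrix.conjTranspose_mul,
            Matrix.conjTranspose_sum] at h1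
          rw [Matrix.mul_smul, Matrix.smul_mul, ← smul_sub, h1, Finset.smul_sum]
          refine Finset.sum_congr rfl (fun l _ => ?_)
          rw [Matrix.conjTranspose_smul, smul_smul]
          rfl
        simp only [e3]
        rw [Finset.sum_comm, Finset.smul_sum]
        refine Finset.sum_congr rfl (fun l _ => ?_)
        rw [Matrix.of_apply, ← Finset.sum_smul, smul_smul]
    rw [DM_comb, Matrix.mul_sub, Matrix.mul_smul, Matrix.trace_sub, Matrix.trace_smul,
      smul_eq_mul] at h1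
    exact sub_eq_zero.mp h1
  · -- value at the identity
    have h1 : (σ (1 : H)).1.1ᴴ * (1 : H).1.1 = 1 := by
      rw [map_one]
      simp
    rw [h1]
    have h2 : cm e 1 = 1 := by
      ext j k
      unfold LGR.cm
      rw [Matrix.one_mul, Matrix.conjTranspose_one, Matrix.mul_one, hN.orth, Matrix.one_apply]
      by_cases h : j = k
      · rw [if_pos h, if_pos h.symm]
      · rw [if_neg h, if_neg (fun h' => h h'.symm)]
    rw [h2, Matrix.det_one]
  · -- invariance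
    intro k g hk
    have h1 : (σ (k * g)).1.1ᴴ * (k * g).1.1 = (σ g).1.1ᴴ * g.1.1 := by
      rw [map_mul, hsym.fix k hk]
      have h2 : k.1.1ᴴ * k.1.1 = 1 := by
        have h3 := k.1.2
        rw [Matrix.mem_specialUnitaryGroup_iff] at h3
        exact (Matrix.mem_unitaryGroup_iff').mp h3.1
      have h4 : (k * σ g).1.1 = k.1.1 * (σ g).1.1 := rfl
      have h5 : (k * g).1.1 = k.1.1 * g.1.1 := rfl
      rw [h4, h5, Matrix.conjTranspose_mul, Matrix.mul_assoc, ← Matrix.mul_assoc (k.1.1ᴴ), h2,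
        Matrix.one_mul]
    rw [h1]


variable {N l : ℕ} {H : Subgroup (SU N)} {Φ : RT l} {B : Matrix (Fin l) (Fin l) ℤ}
  {Hc : Fin l → Matrix (Fin N) (Fin N) ℂ} {E : (Fin l → ℤ) × (Fin l → ℤ) → Matrix (Fin N) (Fin N) ℂ}

theorem hx_comm (hL : LRD H Φ B Hc E) (x y : Fin l → ℝ) : hx Hc x * hx Hc y = hx Hc y * hx Hc x := by
  unfold hx
  rw [Finset.sum_mul_sum, Finset.sum_mul_sum, Finset.sum_comm]
  refine Finset.sum_congr rfl (fun i _ => Finset.sum_congr rfl (fun j _ => ?_))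
  rw [Matrix.smul_mul, Matrix.mul_smul, Matrix.smul_mul, Matrix.mul_smul, smul_smul, smul_smul,
    hL.comm j i, mul_comm]

theorem db_hx (hT : TAF H Φ Hc E) (hL : LRD H Φ B Hc E) {P : RT l} (hP : ∀ p ∈ P, p ∈ Φ) :
    db E P = Complex.I • hx Hc (fun i => -SNIL.yv E P i) := by
  rw [SNIL.hx_neg, ← SNIL.db_eq hT hL hP, smul_smul, mul_neg, Complex.I_mul_I, neg_neg, one_smul]

theorem hx_db_comm (hT : TAF H Φ Hc E) (hL : LRD H Φ B Hc E) {P : RT l} (hP : ∀ p ∈ P, p ∈ Φ)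
    (x : Fin l → ℝ) : hx Hc x * db E P = db E P * hx Hc x := by
  rw [db_hx hT hL hP, Matrix.mul_smul, Matrix.smul_mul, hx_comm hL]

theorem hx_db_tr (hT : TAF H Φ Hc E) (hL : LRD H Φ B Hc E) {P : RT l} (hP : ∀ p ∈ P, p ∈ Φ)
    {b : ℤ} {ν : Fin l → ℤ} (hb : ∑ p ∈ P, p.1 = b • ν) (x : Fin l → ℝ) :
    (hx Hc x * db E P).trace = Complex.I * ((b : ℂ) * ((∑ j, (ν j : ℝ) * x j : ℝ) : ℂ)) := by
  have hbj : ∀ j, ∑ p ∈ P, (p.1 j : ℂ) = (b : ℂ) * (ν j : ℂ) := by
    intro j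
    have h1 := congrFun hb j
    rw [Finset.sum_apply, Pi.smul_apply, smul_eq_mul] at h1
    exact_mod_cast h1
  rw [db_hx hT hL hP, Matrix.mul_smul, Matrix.trace_smul, SNIL.hx_tr, smul_eq_mul]
  congr 1
  rw [← Finset.sum_neg_distrib]
  push_cast
  rw [Finset.mul_sum]
  refine Finset.sum_congr rfl (fun k _ => ?_)
  have h1 : ∑ i, (Hc k * Hc i).trace * (-(SNIL.yv E P i : ℂ)) = -((b : ℂ) * (ν k : ℂ)) := by
    rw [← hbj k, ← SNIL.gram_y hT hP k, ← Finset.sum_neg_distrib]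
    exact Finset.sum_congr rfl (fun i _ => by ring)
  rw [h1]
  ring

theorem E_db_tr (hT : TAF H Φ Hc E) (hL : LRD H Φ B Hc E) {P : RT l} (hP : ∀ p ∈ P, p ∈ Φ)
    {p : (Fin l → ℤ) × (Fin l → ℤ)} (hp : p ∈ Φ) :
    (E p * db E P).trace = 0 ∧ ((E p)ᴴ * db E P).trace = 0 := by
  have h1 : ∀ j, ((E p)ᴴ * Hc j).trace = 0 := by
    intro j
    have h2 : ((E p)ᴴ * Hc j) = (Hc j * E p)ᴴ := by
      rw [Matrix.conjTranspose_mul, hL.herm]
    rw [h2, Matrix.trace_conjTranspose, Matrix.trace_mul_comm, hT.orh p hp j, star_zero]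
  rw [SNIL.db_eq hT hL hP]
  constructor
  · rw [Finset.mul_sum, Matrix.trace_sum]
    refine Finset.sum_eq_zero (fun j _ => ?_)
    rw [Matrix.mul_smul, Matrix.trace_smul, hT.orh p hp j, smul_zero]
  · rw [Finset.mul_sum, Matrix.trace_sum]
    refine Finset.sum_eq_zero (fun j _ => ?_)
    rw [Matrix.mul_smul, Matrix.trace_smul, h1 j, smul_zero]

theorem db_herm (P : RT l) : (db E P)ᴴ = db E P := by
  unfold db
  rw [Matrix.conjTranspose_sum]
  refine Finset.sum_congr rfl (fun k _ => ?_)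
  rw [Matrix.conjTranspose_sub, Matrix.conjTranspose_mul, Matrix.conjTranspose_mul,
    Matrix.conjTranspose_conjTranspose]

end DERJ

open DERJ in
theorem t_DERJ : M_DERJ := by
  intro hCAL hLIEB hWFAC hTAUF hTAUS hPHIB hPGXX hSNIL N H K σ τ A l Φ B Hc E x₀ θ r s ε hsd j b hb
  have hL : LRD H Φ B Hc E := hsd.sr.lrd
  have hW : WFF Φ B := hWFAC l Φ B hL.ird
  have hT : TAF H Φ Hc E := hTAUF N H l Φ B Hc E hsd.closed hL
  obtain ⟨hS, -⟩ := hPGXX N H K σ τ hsd.closed hsd.simple hsd.sym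
  obtain ⟨hN, hE⟩ := hSNIL N H K σ τ A l Φ B Hc E x₀ θ r s ε hsd j
  obtain ⟨hQ, h1, hK⟩ := core hCAL hLIEB hTAUS hPGXX hsd.closed hsd.simple hsd.sym hN hsd.maxab.anti
  have hP : ∀ p ∈ pe Φ (ε j), p ∈ Φ := by
    intro p hp
    exact (hW.ppos p (Finset.mem_filter.1 hp).1).1
  refine ⟨⟨hQ.mem, fun k g hk => hK k g hk, ?_, ?_, h1⟩, ?_⟩
  · intro x g
    have h2 := hQ.wt (hx Hc x) (hT.hmem x) (hx_db_comm hT hL hP x) g
    have h3 : dH (hx Hc x) (FJ σ Φ E (ε j)) g =
        ((2 : ℝ) : ℂ) * (hx Hc x * db E (pe Φ (ε j))).trace * FJ σ Φ E (ε j) g := h2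
    rw [h3, hx_db_tr hT hL hP hb x]
    have h4 : ∑ i, ((((2 * b) • ε j) i : ℤ) : ℝ) * x i = 2 * (b * ∑ i, (ε j i : ℝ) * x i) := by
      rw [Finset.mul_sum, Finset.mul_sum]
      refine Finset.sum_congr rfl (fun i _ => ?_)
      rw [Pi.smul_apply, smul_eq_mul]
      push_cast
      ring
    rw [h4]
    push_cast
    ring
  · intro p hp g
    have hpΦ : p ∈ Φ := (hW.ppos p hp).1
    obtain ⟨hu, hv⟩ := hL.emem p hpΦ
    by_cases hpP : p ∈ pe Φ (ε j)
    · obtain ⟨k, hk⟩ : ∃ k : Fin (pe Φ (ε j)).card, ((pe Φ (ε j)).equivFin.symm k).1 = p := by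
        refine ⟨(pe Φ (ε j)).equivFin ⟨p, hpP⟩, ?_⟩
        rw [Equiv.symm_apply_apply]
      have h2 := hQ.hw k g
      have h3 : eb E (pe Φ (ε j)) k = (SNIL.sc E p : ℂ) • E p := by
        rw [SNIL.eb_eq, hk]
      have h4 : eb E (pe Φ (ε j)) k - (eb E (pe Φ (ε j)) k)ᴴ = (SNIL.sc E p : ℂ) • (E p - (E p)ᴴ) := by
        rw [h3, Matrix.conjTranspose_smul, Complex.star_def, Complex.conj_ofReal, smul_sub]
      have h5 : Complex.I • (eb E (pe Φ (ε j)) k + (eb E (pe Φ (ε j)) k)ᴴ) =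
          (SNIL.sc E p : ℂ) • (Complex.I • (E p + (E p)ᴴ)) := by
        rw [h3, Matrix.conjTranspose_smul, Complex.star_def, Complex.conj_ofReal, ← smul_add, smul_comm]
      rw [h4, h5, hS.smul _ hu _ _ hQ.mem g, hS.smul _ hv _ _ hQ.mem g] at h2
      have h6 : (SNIL.sc E p : ℂ) ≠ 0 := by
        exact_mod_cast (SNIL.sc_pos hT hpΦ).ne'
      refine mul_left_cancel₀ h6 ?_
      rw [mul_left_comm] at h2
      exact h2
    · have h0 : p.2 ⬝ᵥ ε j = 0 := by
        refine le_antisymm (not_lt.1 (fun h => hpP ?_)) (hsd.so.nn p hp j)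
        exact Finset.mem_filter.2 ⟨hp, h⟩
      obtain ⟨c, -, hc⟩ := hE p hpΦ
      rw [h0] at hc
      have h2 : db E (pe Φ (ε j)) * E p - E p * db E (pe Φ (ε j)) = 0 := by
        rw [hc]
        simp
      have h3 : db E (pe Φ (ε j)) * (E p)ᴴ - (E p)ᴴ * db E (pe Φ (ε j)) = 0 :=
        SNIL.comm_star (db_herm _) h2
      have h4 := sub_eq_zero.1 h2
      have h5 := sub_eq_zero.1 h3
      obtain ⟨t1, t2⟩ := E_db_tr hT hL hP hpΦ
      have h6 : (E p - (E p)ᴴ) * db E (pe Φ (ε j)) = db E (pe Φ (ε j)) * (E p - (E p)ᴴ) := by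
        rw [Matrix.sub_mul, Matrix.mul_sub, h4, h5]
      have h7 : (Complex.I • (E p + (E p)ᴴ)) * db E (pe Φ (ε j)) =
          db E (pe Φ (ε j)) * (Complex.I • (E p + (E p)ᴴ)) := by
        rw [Matrix.smul_mul, Matrix.mul_smul, Matrix.add_mul, Matrix.mul_add, h4, h5]
      have h8 := hQ.wt _ hu h6 g
      have h9 := hQ.wt _ hv h7 g
      have e1 : ((E p - (E p)ᴴ) * db E (pe Φ (ε j))).trace = 0 := by
        rw [Matrix.sub_mul, Matrix.trace_sub, t1, t2, sub_zero]
      have e2 : ((Complex.I • (E p + (E p)ᴴ)) * db E (pe Φ (ε j))).trace = 0 := by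
        rw [Matrix.smul_mul, Matrix.trace_smul, Matrix.add_mul, Matrix.trace_add, t1, t2, add_zero,
          smul_zero]
      rw [e1, mul_zero, zero_mul] at h8
      rw [e2, mul_zero, zero_mul] at h9
      have h10 : dH (E p - (E p)ᴴ) (FJ σ Φ E (ε j)) g = 0 := h8
      have h11 : dH (Complex.I • (E p + (E p)ᴴ)) (FJ σ Φ E (ε j)) g = 0 := h9
      rw [h10, h11, mul_zero]
  · intro g
    exact (hPHIB N _ (eb E (pe Φ (ε j))) hN.nil.orth).2 ((σ g).1⁻¹ * g.1)

end

end SYM
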