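import Pool.Agent.SYM.StT

/-!
# Symmetric spaces, block T: up-closed sets in `ℕ ^ r`
-/

namespace SYM

namespace DICK

open Finset

open scoped Classical in
/-- inclusion and exclusion for the union of the orthants of a finite set -/
theorem incl_excl {r : ℕ} (F : Finset (Fin r → ℕ)) (x : Fin r → ℕ) :
    ∑ S ∈ F.powerset.erase ∅, (if S.sup id ≤ x then (-1 : ℤ) ^ (#S + 1) else 0) =
      if ∃ m ∈ F, m ≤ x then 1 else 0 := by
  have h1 : ∑ S ∈ F.powerset.erase ∅, (if S.sup id ≤ x then (-1 : ℤ) ^ (#S + 1) else 0) =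
      ∑ S ∈ (F.filter (· ≤ x)).powerset.erase ∅, (-1 : ℤ) ^ (#S + 1) := by
    rw [← Finset.sum_filter]
    refine Finset.sum_congr ?_ fun _ _ => rfl
    ext S
    simp only [mem_filter, mem_erase, mem_powerset, Finset.sup_le_iff, id]
    constructor
    · rintro ⟨⟨h0, h1⟩, h2⟩
      exact ⟨h0, fun a ha => mem_filter.2 ⟨h1 ha, h2 a ha⟩⟩
    · rintro ⟨h0, h1⟩
      exact ⟨⟨h0, fun a ha => (mem_filter.1 (h1 ha)).1⟩, fun a ha => (mem_filter.1 (h1 ha)).2⟩
  rw [h1]
  have h2 := Finset.sum_powerset_neg_one_pow_card (x := F.filter (· ≤ x))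
  rw [← Finset.add_sum_erase _ _ (Finset.empty_mem_powerset _)] at h2
  have h3 : ∑ S ∈ (F.filter (· ≤ x)).powerset.erase ∅, (-1 : ℤ) ^ (#S + 1) =
      -∑ S ∈ (F.filter (· ≤ x)).powerset.erase ∅, (-1 : ℤ) ^ #S := by
    rw [← Finset.sum_neg_distrib]
    exact Finset.sum_congr rfl fun S _ => by ring
  rw [h3]
  simp only [card_empty, pow_zero] at h2
  by_cases h : ∃ m ∈ F, m ≤ x
  · rw [if_pos h]
    have h4 : F.filter (· ≤ x) ≠ ∅ := by
      obtain ⟨m, hm, hx⟩ := h
      exact Finset.ne_empty_of_mem (mem_filter.2 ⟨hm, hx⟩)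
    rw [if_neg h4] at h2
    linarith
  · rw [if_neg h]
    have h4 : F.filter (· ≤ x) = ∅ := by
      rw [Finset.filter_eq_empty_iff]
      intro m hm hx
      exact h ⟨m, hm, hx⟩
    rw [if_pos h4] at h2
    linarith

/-- Dickson's lemma: an up-closed set is generated by finitely many elements -/
theorem dickson {r : ℕ} (U : Set (Fin r → ℕ)) (hU : ∀ x ∈ U, ∀ y, x ≤ y → y ∈ U) :
    ∃ F : Finset (Fin r → ℕ), (∀ m ∈ F, m ∈ U) ∧ ∀ x, x ∈ U ↔ ∃ m ∈ F, m ≤ x := by
  have hfin : {x | Minimal (· ∈ U) x}.Finite := by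
    by_contra hinf
    have hinf' : {x | Minimal (· ∈ U) x}.Infinite := hinf
    obtain ⟨m, n, hmn, hle⟩ := wellQuasiOrdered_le
      (fun k => (hinf'.natEmbedding _ k : Fin r → ℕ))
    have h1 : Minimal (· ∈ U) (hinf'.natEmbedding _ m : Fin r → ℕ) := (hinf'.natEmbedding _ m).2
    have h2 : Minimal (· ∈ U) (hinf'.natEmbedding _ n : Fin r → ℕ) := (hinf'.natEmbedding _ n).2
    have h3 : (hinf'.natEmbedding _ m : Fin r → ℕ) = (hinf'.natEmbedding _ n : Fin r → ℕ) :=
      le_antisymm hle (h2.le_of_le h1.prop hle)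
    have h4 := (hinf'.natEmbedding _).injective (Subtype.ext h3)
    omega
  refine ⟨hfin.toFinset, fun m hm => ((hfin.mem_toFinset).1 hm).prop, fun x => ⟨fun hx => ?_, ?_⟩⟩
  · obtain ⟨m, hmx, hm⟩ := exists_minimal_le_of_wellFoundedLT (· ∈ U) x hx
    exact ⟨m, (hfin.mem_toFinset).2 hm, hmx⟩
  · rintro ⟨m, hm, hmx⟩
    exact hU m ((hfin.mem_toFinset).1 hm).prop x hmx

end DICK

open DICK in
theorem t_DICK : S_DICK := by
  classical
  intro r U hU
  obtain ⟨F, hF, hFx⟩ := dickson U hU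
  let e := (F.powerset.erase ∅).equivFin
  refine ⟨(F.powerset.erase ∅).card, fun s => (e.symm s).1.sup id,
    fun s => (-1 : ℤ) ^ ((e.symm s).1.card + 1), fun s => ?_, fun x => ?_⟩
  · have h := (e.symm s).2
    rw [Finset.mem_erase, Finset.mem_powerset] at h
    obtain ⟨a, ha⟩ := Finset.nonempty_iff_ne_empty.2 h.1
    exact hU a (hF a (h.2 ha)) _ (Finset.le_sup (f := id) ha)
  · have hsum : ∑ s, (if ∀ i, (e.symm s).1.sup id i ≤ x i then
        (-1 : ℤ) ^ ((e.symm s).1.card + 1) else 0) = if ∃ m ∈ F, m ≤ x then 1 else 0 := by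
      rw [← incl_excl F x, ← Finset.sum_coe_sort (F.powerset.erase ∅)]
      refine Fintype.sum_equiv e.symm _ _ fun s => ?_
      exact if_congr Iff.rfl rfl rfl
    constructor
    · intro hx
      refine Eq.trans ?_ (hsum.trans (if_pos ((hFx x).1 hx)))
      exact Finset.sum_congr rfl fun s _ => if_congr Iff.rfl rfl rfl
    · intro hx
      refine Eq.trans ?_ (hsum.trans (if_neg fun h => hx ((hFx x).2 h)))
      exact Finset.sum_congr rfl fun s _ => if_congr Iff.rfl rfl rfl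

end SYM
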