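import Pool.Agent.SYM.StQ

namespace SYM

open STZ LGR MeasureTheory Matrix Filter

open scoped ComplexConjugate Matrix Real Topology

noncomputable section

namespace DOMQ

theorem dz_add {l : ℕ} (κ : Fin l → ℤ) (x y : Fin l → ℝ) : dz κ (x + y) = dz κ x + dz κ y := by
  simp only [dz, Pi.add_apply, mul_add, Finset.sum_add_distrib]

theorem dz_sub {l : ℕ} (κ : Fin l → ℤ) (x y : Fin l → ℝ) : dz κ (x - y) = dz κ x - dz κ y := by
  simp only [dz, Pi.sub_apply, mul_sub, Finset.sum_sub_distrib]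

theorem dz_int {l : ℕ} (κ n : Fin l → ℤ) :
    Complex.exp (dz κ (fun i => 2 * π * (n i : ℝ)) * Complex.I) = 1 := by
  have e : ((dz κ (fun i => 2 * π * (n i : ℝ)) : ℝ) : ℂ) * Complex.I
      = ((∑ i, κ i * n i : ℤ) : ℂ) * (2 * π * Complex.I) := by
    rw [dz]
    push_cast
    rw [Finset.sum_mul, Finset.sum_mul]
    refine Finset.sum_congr rfl fun i _ => ?_
    ring
  rw [e]
  exact Complex.exp_int_mul_two_pi_mul_I _

theorem cont_dz {l : ℕ} (κ : Fin l → ℤ) : Continuous fun x : Fin l → ℝ => dz κ x := by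
  unfold dz
  fun_prop

/-- the real action of the matrix -/
def ac {l : ℕ} (θ : Matrix (Fin l) (Fin l) ℤ) (x : Fin l → ℝ) : Fin l → ℝ := fun i => ∑ j, (θ i j : ℝ) * x j

theorem ac_add {l : ℕ} (θ : Matrix (Fin l) (Fin l) ℤ) (x y : Fin l → ℝ) : ac θ (x + y) = ac θ x + ac θ y := by
  funext i
  simp only [ac, Pi.add_apply, mul_add, Finset.sum_add_distrib]

theorem ac_sub {l : ℕ} (θ : Matrix (Fin l) (Fin l) ℤ) (x y : Fin l → ℝ) : ac θ (x - y) = ac θ x - ac θ y := by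
  funext i
  simp only [ac, Pi.sub_apply, mul_sub, Finset.sum_sub_distrib]

theorem ac_smul {l : ℕ} (θ : Matrix (Fin l) (Fin l) ℤ) (c : ℝ) (x : Fin l → ℝ) : ac θ (c • x) = c • ac θ x := by
  funext i
  simp only [ac, Pi.smul_apply, smul_eq_mul, Finset.mul_sum]
  refine Finset.sum_congr rfl fun j _ => ?_
  ring

theorem ac_ac {l : ℕ} (θ : Matrix (Fin l) (Fin l) ℤ) (h : θ * θ = 1) (x : Fin l → ℝ) : ac θ (ac θ x) = x := by
  have h1 : (θ.map (Int.cast : ℤ → ℝ)) * (θ.map (Int.cast : ℤ → ℝ)) = 1 := by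
    have h2 := congrArg ((Int.castRingHom ℝ).mapMatrix : Matrix (Fin l) (Fin l) ℤ →+* Matrix (Fin l) (Fin l) ℝ) h
    rw [map_mul, map_one] at h2
    exact h2
  have e : ∀ y : Fin l → ℝ, ac θ y = (θ.map (Int.cast : ℤ → ℝ)) *ᵥ y := by
    intro y
    funext i
    simp [ac, Matrix.mulVec, dotProduct]
  rw [e, e, Matrix.mulVec_mulVec, h1, Matrix.one_mulVec]

theorem cont_ac {l : ℕ} (θ : Matrix (Fin l) (Fin l) ℤ) : Continuous (ac θ) := by
  unfold ac
  fun_prop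

theorem ac_norm {l : ℕ} (θ : Matrix (Fin l) (Fin l) ℤ) :
    ∃ C : ℝ, 0 ≤ C ∧ ∀ x, ‖ac θ x‖ ≤ C * ‖x‖ := by
  refine ⟨∑ i, ∑ j, |(θ i j : ℝ)|, by positivity, fun x => ?_⟩
  rw [pi_norm_le_iff_of_nonneg (by positivity)]
  intro i
  have h1 : ‖ac θ x i‖ ≤ ∑ j, |(θ i j : ℝ)| * ‖x‖ := by
    unfold ac
    refine (norm_sum_le _ _).trans (Finset.sum_le_sum fun j _ => ?_)
    rw [norm_mul, Real.norm_eq_abs]
    exact mul_le_mul_of_nonneg_left (norm_le_pi_norm x j) (abs_nonneg _)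
  refine h1.trans ?_
  rw [← Finset.sum_mul]
  refine mul_le_mul_of_nonneg_right ?_ (norm_nonneg _)
  exact Finset.single_le_sum (f := fun i => ∑ j, |(θ i j : ℝ)|) (fun i _ => by positivity) (Finset.mem_univ i)

/-- a lattice point near `x` -/
theorem near {l : ℕ} (θ : Matrix (Fin l) (Fin l) ℤ) (h : θ * θ = 1) :
    ∃ R : ℝ, ∀ x : Fin l → ℝ, ac θ x = -x → ∃ n : Fin l → ℤ,
      ac θ (fun i => 2 * π * (n i : ℝ)) = -(fun i => 2 * π * (n i : ℝ)) ∧ ‖x - fun i => 2 * π * (n i : ℝ)‖ ≤ R := by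
  obtain ⟨C, hC, hb⟩ := ac_norm θ
  refine ⟨(1 / 2) * (2 * π + C * (2 * π)), fun x hx => ?_⟩
  set m : Fin l → ℤ := fun i => round (x i / (4 * π)) with hm
  set y : Fin l → ℝ := fun i => 4 * π * (m i : ℝ) with hy
  have hpi : (0 : ℝ) < π := Real.pi_pos
  have hxy : ‖x - y‖ ≤ 2 * π := by
    rw [pi_norm_le_iff_of_nonneg (by positivity)]
    intro i
    have h1 := abs_sub_round (x i / (4 * π))
    have e : (x - y) i = 4 * π * (x i / (4 * π) - round (x i / (4 * π))) := by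
      simp only [Pi.sub_apply, hy, hm]
      field_simp
    rw [e, norm_mul, Real.norm_eq_abs, Real.norm_eq_abs, abs_of_pos (by positivity)]
    nlinarith
  have e1 : (fun i => 2 * π * ((m i - (θ *ᵥ m) i : ℤ) : ℝ)) = (1 / 2 : ℝ) • (y - ac θ y) := by
    funext i
    simp only [hy, ac, Pi.smul_apply, Pi.sub_apply, smul_eq_mul, Matrix.mulVec, dotProduct]
    push_cast
    rw [mul_sub, mul_sub, Finset.mul_sum, Finset.mul_sum]
    congr 1
    · ring
    · refine Finset.sum_congr rfl fun j _ => ?_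
      ring
  refine ⟨fun i => m i - (θ *ᵥ m) i, ?_, ?_⟩
  · rw [e1, ac_smul, ac_sub, ac_ac θ h, ← smul_neg, neg_sub]
  · rw [e1]
    have e2 : x - (1 / 2 : ℝ) • (y - ac θ y) = (1 / 2 : ℝ) • ((x - y) - ac θ (x - y)) := by
      rw [ac_sub, hx]
      module
    rw [e2, norm_smul]
    have h3 : ‖(x - y) - ac θ (x - y)‖ ≤ 2 * π + C * (2 * π) := by
      refine (norm_sub_le _ _).trans (add_le_add hxy ((hb _).trans ?_))
      exact mul_le_mul_of_nonneg_left hxy hC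
    rw [Real.norm_eq_abs, abs_of_pos (by norm_num)]
    exact mul_le_mul_of_nonneg_left h3 (by norm_num)

end DOMQ

open DOMQ in
theorem t_DOMQ : M_DOMQ := by
  intro _ _ N H K σ τ A l Φ B Hc E x₀ θ r s ε hSD
  have hA : ∀ x, hx Hc x ∈ A ↔ ac θ x = -x := by
    intro x
    rw [hSD.sra.A]
    constructor
    · intro h
      funext i
      exact h i
    · intro h i
      exact congrFun h i
  set G : Set (Fin l → ℝ) := {γ | ac θ γ = -γ ∧ ∀ p ∈ Φ, Complex.exp (dz p.1 γ * Complex.I) = 1} with hG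
  have hG0 : (0 : Fin l → ℝ) ∈ G := by
    refine ⟨?_, fun p _ => ?_⟩
    · funext i
      simp [ac]
    · simp [dz]
  have hGadd : ∀ a ∈ G, ∀ b ∈ G, a + b ∈ G := by
    rintro a ⟨ha, ha'⟩ b ⟨hb, hb'⟩
    refine ⟨?_, fun p hp => ?_⟩
    · rw [ac_add, ha, hb, neg_add]
    · rw [dz_add, Complex.ofReal_add, add_mul, Complex.exp_add, ha' p hp, hb' p hp, one_mul]
  have hcA : IsClosed {x : Fin l → ℝ | ac θ x = -x} := isClosed_eq (cont_ac θ) continuous_neg
  have hGc : IsClosed G := by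
    have e : G = {x : Fin l → ℝ | ac θ x = -x} ∩ ⋂ p ∈ Φ, {γ | Complex.exp (dz p.1 γ * Complex.I) = 1} := by
      ext γ
      simp [hG]
    rw [e]
    refine hcA.inter (isClosed_biInter fun p _ => isClosed_eq ?_ continuous_const)
    exact Complex.continuous_exp.comp ((Complex.continuous_ofReal.comp (cont_dz p.1)).mul continuous_const)
  obtain ⟨R, hR⟩ := near θ hSD.sra.sq
  refine ⟨{x | ac θ x = -x ∧ ∀ γ ∈ G, ‖x‖ ≤ ‖x - γ‖}, ?_, fun x h => (hA x).mpr h.1, ?_, ?_⟩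
  · rw [Metric.isCompact_iff_isClosed_bounded]
    constructor
    · have e : {x : Fin l → ℝ | ac θ x = -x ∧ ∀ γ ∈ G, ‖x‖ ≤ ‖x - γ‖}
          = {x : Fin l → ℝ | ac θ x = -x} ∩ ⋂ γ ∈ G, {x | ‖x‖ ≤ ‖x - γ‖} := by
        ext x
        simp
      rw [e]
      refine hcA.inter (isClosed_biInter fun γ _ => isClosed_le continuous_norm ?_)
      exact (continuous_id.sub continuous_const).norm
    · rw [isBounded_iff_forall_norm_le]
      refine ⟨R, fun x hx => ?_⟩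
      obtain ⟨n, hn, hn'⟩ := hR x hx.1
      exact (hx.2 _ ⟨hn, fun p _ => dz_int p.1 n⟩).trans hn'
  · intro x hx h1
    have h2 := hx.2 x ⟨hx.1, h1⟩
    rw [sub_self, norm_zero] at h2
    exact norm_le_zero_iff.mp h2
  · intro x hx
    rw [hA] at hx
    obtain ⟨γ, hγ, hd⟩ := hGc.exists_infDist_eq_dist ⟨0, hG0⟩ x
    refine ⟨x - γ, ⟨?_, fun γ' hγ' => ?_⟩, fun p hp => ?_⟩
    · rw [ac_sub, hx, hγ.1]
      abel
    · have h1 := Metric.infDist_le_dist_of_mem (x := x) (hGadd γ hγ γ' hγ')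
      rw [hd, dist_eq_norm, dist_eq_norm] at h1
      rw [sub_sub]
      exact h1
    · have e : ((dz p.1 x : ℝ) : ℂ) * Complex.I = ((dz p.1 (x - γ) : ℝ) : ℂ) * Complex.I + (dz p.1 γ : ℝ) * Complex.I := by
        rw [dz_sub]
        push_cast
        ring
      rw [e, Complex.exp_add, hγ.2 p hp, mul_one]

end

end SYM
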