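import Pool.Agent.SYM.StS

/-!
# Symmetric spaces, block S: module DOMS, the weights of the invariant highest weight functions
-/

namespace SYM

open STZ LGR MeasureTheory Matrix Filter

open scoped ComplexConjugate Matrix Real Topology

noncomputable section

namespace DOMS

variable {N : ℕ} {H : Subgroup (SU N)}

theorem dcmul (hC : CALFH H) {X : Matrix (Fin N) (Fin N) ℂ} (hX : X ∈ lie H) (a : ℂ) (f : H → ℂ)
    (hf : C1H f) (g : H) : dH X (fun g => a * f g) g = a * dH X f g := by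
  rw [hC.dmul X hX _ _ (hC.const a).1 hf g, hC.dconst, zero_mul, zero_add]

/-- the commutator of the two real root vectors -/
theorem brac {r : ℕ} {Φ : RT r} {B : Matrix (Fin r) (Fin r) ℤ}
    {Hc : Fin r → Matrix (Fin N) (Fin N) ℂ} {E : (Fin r → ℤ) × (Fin r → ℤ) → Matrix (Fin N) (Fin N) ℂ}
    (h : LRD H Φ B Hc E) (p : (Fin r → ℤ) × (Fin r → ℤ)) (hp : p ∈ Φ) :
    (E p - (E p)ᴴ) * (Complex.I • (E p + (E p)ᴴ)) - (Complex.I • (E p + (E p)ᴴ)) * (E p - (E p)ᴴ) =
      hx Hc (fun j => 2 * (p.2 j : ℝ)) := by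
  have h1 : (E p - (E p)ᴴ) * (Complex.I • (E p + (E p)ᴴ)) -
      (Complex.I • (E p + (E p)ᴴ)) * (E p - (E p)ᴴ) =
      (2 * Complex.I) • (E p * (E p)ᴴ - (E p)ᴴ * E p) := by
    rw [Matrix.mul_smul, Matrix.smul_mul, ← smul_sub, mul_comm, mul_smul]
    congr 1
    rw [two_smul]
    noncomm_ring
  rw [h1, h.cor p hp, Finset.smul_sum]
  unfold hx
  refine Finset.sum_congr rfl fun j _ => ?_
  rw [smul_smul]
  congr 1
  push_cast
  ring

theorem intg [CompactSpace H] (μ : Measure H) [IsProbabilityMeasure μ] {F : H → ℂ} (hF : Continuous F) :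
    Integrable F μ :=
  hF.integrable_of_hasCompactSupport (HasCompactSupport.of_compactSpace _)

theorem intsq (μ : Measure H) (F : H → ℂ) :
    ∫ g, conj (F g) * F g ∂μ = ((∫ g, ‖F g‖ ^ 2 ∂μ : ℝ) : ℂ) := by
  rw [← integral_complex_ofReal]
  refine integral_congr_ae (Eventually.of_forall fun g => ?_)
  simp only
  rw [Complex.conj_mul']
  push_cast
  rfl

/-- the weight is nonnegative on the simple coroots -/
theorem nonneg (hHA : S_HAAR) (hC : CALFH H) (hG : S_GRH) (hH : IsClosed (H : Set (SU N)))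
    {K : Subgroup (SU N)} {σ : H →* H} (hP : SMA H (PG H σ)) {l : ℕ} {Φ : RT l}
    {B : Matrix (Fin l) (Fin l) ℤ} {Hc : Fin l → Matrix (Fin N) (Fin N) ℂ}
    {E : (Fin l → ℤ) × (Fin l → ℤ) → Matrix (Fin N) (Fin N) ℂ} (hL : LRD H Φ B Hc E)
    (ν : Fin l → ℤ) (f : H → ℂ) (hf : SHW K σ Φ Hc E ν f) (i : Fin l) : 0 ≤ ν i := by
  have hcomp : CompactSpace H := isCompact_iff_compactSpace.1 hH.isCompact
  have hsec : SecondCountableTopology H :=
    inferInstanceAs (SecondCountableTopology ((H : Set (SU N)) : Type))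
  let μ : Measure H := Measure.haarMeasure ⊤
  have hμ : IsProbabilityMeasure μ := ⟨by
    have := Measure.haarMeasure_self (K₀ := (⊤ : TopologicalSpace.PositiveCompacts H))
    simpa using this⟩
  have hμ2 : μ.IsMulLeftInvariant := inferInstanceAs (Measure.haarMeasure ⊤).IsMulLeftInvariant
  obtain ⟨-, -, hopen⟩ := hHA H μ
  obtain ⟨hG1, -⟩ := hG N H hH μ
  have hC1 : ∀ F ∈ PG H σ, C1H F := fun F hF => (hP.c2 F hF).1
  set p : (Fin l → ℤ) × (Fin l → ℤ) := (B i, Pi.single i 1) with hp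
  have hpΦ : p ∈ Φ := hL.ird.base i
  have hpp : p ∈ pos Φ := by
    refine Finset.mem_filter.2 ⟨hpΦ, fun j => ?_⟩
    rw [hp]
    simp only
    by_cases hij : j = i
    · subst hij
      simp
    · rw [Pi.single_eq_of_ne hij]
  obtain ⟨hu, hv⟩ := hL.emem p hpΦ
  have hbr := brac hL p hpΦ
  have hw := hf.hw p hpp
  set u := E p - (E p)ᴴ with hudef
  set v := Complex.I • (E p + (E p)ᴴ) with hvdef
  have h1 : dH u f = fun g => Complex.I * dH v f g := funext hw
  have hI : Complex.I * Complex.I = -1 := Complex.I_mul_I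
  have h2 : dH v f = fun g => (-Complex.I) * dH u f g := by
    funext g
    rw [h1]
    linear_combination (dH v f g) * hI
  have hsum : ∀ g, dH u (dH u f) g + dH v (dH v f) g = -2 * (ν i : ℂ) * f g := by
    intro g
    have h3 : dH u (dH u f) g = Complex.I * dH u (dH v f) g := by
      conv_lhs => rw [h1]
      exact dcmul hC hu _ _ (hC1 _ (hP.d v hv f hf.mem)) g
    have h4 : dH v (dH v f) g = -Complex.I * dH v (dH u f) g := by
      conv_lhs => rw [h2]
      exact dcmul hC hv _ _ (hC1 _ (hP.d u hu f hf.mem)) g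
    have h5 := hP.comm u hu v hv f hf.mem g
    rw [hbr, hf.wt] at h5
    have h6 : (∑ j, (ν j : ℝ) * (2 * (p.2 j : ℝ)) : ℝ) = 2 * (ν i : ℝ) := by
      rw [Finset.sum_eq_single i]
      · rw [hp]
        simp only [Pi.single_eq_same, Int.cast_one]
        ring
      · intro j _ hj
        rw [hp]
        simp only
        rw [Pi.single_eq_of_ne hj]
        simp
      · intro h
        exact absurd (Finset.mem_univ i) h
    rw [h6] at h5
    rw [h3, h4]
    push_cast at h5 ⊢
    linear_combination Complex.I * h5 + 2 * (ν i : ℂ) * f g * hI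
  have hcu : Continuous (dH u f) := (hC1 _ (hP.d u hu f hf.mem)).cont
  have hcv : Continuous (dH v f) := (hC1 _ (hP.d v hv f hf.mem)).cont
  have hcf : Continuous f := (hC1 _ hf.mem).cont
  have hcj : Continuous fun g => conj (f g) := Complex.continuous_conj.comp hcf
  have hint : ∀ w ∈ lie H, ∫ g, conj (f g) * dH w (dH w f) g ∂μ = -∫ g, conj (dH w f g) * dH w f g ∂μ := by
    intro w hw
    have hwf := hP.d w hw f hf.mem
    have hwwf := hP.d w hw _ hwf
    have hcw : Continuous (dH w f) := (hC1 _ hwf).cont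
    have hcww : Continuous (dH w (dH w f)) := (hC1 _ hwwf).cont
    have h3 := hG1 w hw (fun g => conj (f g) * dH w f g) (hC.mul1 _ _ (hC1 _ (hP.cj f hf.mem)) (hC1 _ hwf))
    have h4 : ∀ g, dH w (fun g => conj (f g) * dH w f g) g =
        conj (dH w f g) * dH w f g + conj (f g) * dH w (dH w f) g := by
      intro g
      rw [hC.dmul w hw _ _ (hC1 _ (hP.cj f hf.mem)) (hC1 _ hwf) g, hC.dconj w hw f (hC1 f hf.mem) g]
    simp only [h4] at h3
    have h5 : Integrable (fun g => conj (dH w f g) * dH w f g) μ :=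
      intg μ ((Complex.continuous_conj.comp hcw).mul hcw)
    have h6 : Integrable (fun g => conj (f g) * dH w (dH w f) g) μ := intg μ (hcj.mul hcww)
    rw [integral_add h5 h6] at h3
    linear_combination h3
  have key : ((2 * (ν i : ℝ) * ∫ g, ‖f g‖ ^ 2 ∂μ : ℝ) : ℂ) =
      (((∫ g, ‖dH u f g‖ ^ 2 ∂μ) + ∫ g, ‖dH v f g‖ ^ 2 ∂μ : ℝ) : ℂ) := by
    have h5 : ∫ g, (conj (f g) * dH u (dH u f) g + conj (f g) * dH v (dH v f) g) ∂μ =
        ∫ g, (-2 * (ν i : ℂ)) * (conj (f g) * f g) ∂μ := by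
      refine integral_congr_ae (Eventually.of_forall fun g => ?_)
      simp only
      linear_combination conj (f g) * hsum g
    have hcuu : Continuous (dH u (dH u f)) := (hC1 _ (hP.d u hu _ (hP.d u hu f hf.mem))).cont
    have hcvv : Continuous (dH v (dH v f)) := (hC1 _ (hP.d v hv _ (hP.d v hv f hf.mem))).cont
    have h6 : Integrable (fun g => conj (f g) * dH u (dH u f) g) μ := intg μ (hcj.mul hcuu)
    have h7 : Integrable (fun g => conj (f g) * dH v (dH v f) g) μ := intg μ (hcj.mul hcvv)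
    rw [integral_add h6 h7, hint u hu, hint v hv, integral_const_mul, intsq, intsq, intsq] at h5
    push_cast
    linear_combination h5
  have key2 : 2 * (ν i : ℝ) * ∫ g, ‖f g‖ ^ 2 ∂μ = (∫ g, ‖dH u f g‖ ^ 2 ∂μ) + ∫ g, ‖dH v f g‖ ^ 2 ∂μ := by
    exact_mod_cast key
  have hpos : 0 < ∫ g, ‖f g‖ ^ 2 ∂μ := by
    refine integral_pos_of_integrable_nonneg_nonzero (x := 1) (hcf.norm.pow 2)
      ((hcf.norm.pow 2).integrable_of_hasCompactSupport (HasCompactSupport.of_compactSpace _))
      (fun g => by positivity) ?_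
    rw [hf.one]
    simp
  have h7 : 0 ≤ ∫ g, ‖dH u f g‖ ^ 2 ∂μ := integral_nonneg fun g => by positivity
  have h8 : 0 ≤ ∫ g, ‖dH v f g‖ ^ 2 ∂μ := integral_nonneg fun g => by positivity
  by_contra hneg
  push Not at hneg
  have h9 : (ν i : ℝ) < 0 := by exact_mod_cast hneg
  nlinarith

end DOMS

open DOMS in
theorem t_DOMS : M_DOMS := by
  intro hHA hCA hG hLB hWF hTA hPG N H K σ τ A l Φ B Hc E x₀ θ r s ε h ν f hf
  have hC := hCA N H
  have hL := h.sr.lrd
  have hT := hTA N H l Φ B Hc E h.closed hL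
  have hP := (hPG N H K σ τ h.closed h.simple h.sym).1
  refine ⟨fun i => nonneg hHA hC hG h.closed hP hL ν f hf i, ?_⟩
  have h0 : ∀ x : Fin l → ℝ, (∀ i, ∑ j, (θ i j : ℝ) * x j = x i) → ∑ j, (ν j : ℝ) * x j = 0 := by
    intro x hxx
    have h1 : τ (hx Hc x) = hx Hc x := by
      rw [h.sra.tau]
      congr 1
      funext i
      exact hxx i
    have h2 : hx Hc x ∈ lie K := h.sym.big _ (hT.hmem x) h1
    have h3 : ∀ t : ℝ, f (1 * exH H (hx Hc x) t) = 1 := by
      intro t
      have h4 : (exH H (hx Hc x) t).1 ∈ K := by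
        unfold exH
        rw [dif_pos ((hT.hmem x).2 t)]
        exact h2.2 t
      have h5 := hf.left (exH H (hx Hc x) t) 1 h4
      rw [mul_one] at h5
      rw [one_mul, h5, hf.one]
    have h5 : dH (hx Hc x) f 1 = 0 := by
      unfold dH
      simp only [h3]
      exact deriv_const _ _
    have h6 := hf.wt x 1
    rw [h5, hf.one, mul_one] at h6
    have h7 : ((∑ j, (ν j : ℝ) * x j : ℝ) : ℂ) = 0 := by
      rcases mul_eq_zero.1 h6.symm with h8 | h8
      · exact absurd h8 Complex.I_ne_zero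
      · exact h8
    exact_mod_cast h7
  funext i
  have hsq : ∀ a b, ∑ j, θ a j * θ j b = if a = b then 1 else 0 := by
    intro a b
    have h1 := congrFun (congrFun h.sra.sq a) b
    rw [Matrix.mul_apply, Matrix.one_apply] at h1
    exact h1
  have h1 := h0 (fun j => (if j = i then 1 else 0) + (θ j i : ℝ)) (by
    intro a
    simp only [mul_add, Finset.sum_add_distrib, mul_ite, mul_one, mul_zero, Finset.sum_ite_eq',
      Finset.mem_univ, if_true]
    have h2 : ∑ j, (θ a j : ℝ) * (θ j i : ℝ) = if a = i then 1 else 0 := by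
      have h3 := hsq a i
      have h4 : ((∑ j, θ a j * θ j i : ℤ) : ℝ) = ((if a = i then 1 else 0 : ℤ) : ℝ) := by rw [h3]
      push_cast at h4
      exact h4
    rw [h2]
    ring)
  simp only [mul_add, Finset.sum_add_distrib, mul_ite, mul_one, mul_zero, Finset.sum_ite_eq',
    Finset.mem_univ, if_true] at h1
  have h2 : (((θᵀ *ᵥ ν) i : ℤ) : ℝ) = ∑ j, (ν j : ℝ) * (θ j i : ℝ) := by
    simp only [Matrix.mulVec, dotProduct, Matrix.transpose_apply, Int.cast_sum, Int.cast_mul]
    exact Finset.sum_congr rfl fun j _ => mul_comm _ _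
  have h3 : (((θᵀ *ᵥ ν) i : ℤ) : ℝ) = ((-ν i : ℤ) : ℝ) := by
    rw [h2]
    push_cast
    linarith
  rw [Pi.neg_apply]
  exact_mod_cast h3

end

end SYM
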