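import Pool.Agent.SYM.StQ
import Pool.Agent.STZ.Base
import Pool.Agent.LGR.TAUF

/-!
# GEOQ: the geometry of the functions `det (cm e (yy σ g))` along the maximal flat
-/

namespace SYM

open STZ LGR MeasureTheory Matrix Filter

open scoped ComplexConjugate Matrix Real Topology

noncomputable section

namespace GEOQ

variable {N l : ℕ} {H K : Subgroup (SU N)} {Φ : RT l} {B : Matrix (Fin l) (Fin l) ℤ}
  {Hc : Fin l → Matrix (Fin N) (Fin N) ℂ} {E : (Fin l → ℤ) × (Fin l → ℤ) → Matrix (Fin N) (Fin N) ℂ}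

/-! ### determinants near the identity -/

theorem prod_bd {ι : Type} (s : Finset ι) (a b : ι → ℂ) (T d : ℝ) (hT : 1 ≤ T) (hd : 0 ≤ d)
    (ha : ∀ i, ‖a i‖ ≤ T) (hb : ∀ i, ‖b i‖ ≤ T) (hab : ∀ i, ‖a i - b i‖ ≤ d) :
    ‖∏ i ∈ s, a i - ∏ i ∈ s, b i‖ ≤ s.card * T ^ s.card * d := by
  classical
  induction s using Finset.induction_on with
  | empty => simp
  | insert j s hj ih =>
    rw [Finset.prod_insert hj, Finset.prod_insert hj, Finset.card_insert_of_notMem hj]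
    have e : a j * ∏ i ∈ s, a i - b j * ∏ i ∈ s, b i =
        (a j - b j) * ∏ i ∈ s, a i + b j * (∏ i ∈ s, a i - ∏ i ∈ s, b i) := by ring
    rw [e]
    have h1 : ‖∏ i ∈ s, a i‖ ≤ T ^ s.card := by
      rw [norm_prod, ← Finset.prod_const]
      exact Finset.prod_le_prod (fun i _ => norm_nonneg _) fun i _ => ha i
    have h0 : 0 ≤ T := by linarith
    have hp : 0 ≤ T ^ s.card := pow_nonneg h0 _
    calc ‖(a j - b j) * ∏ i ∈ s, a i + b j * (∏ i ∈ s, a i - ∏ i ∈ s, b i)‖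
        ≤ ‖a j - b j‖ * ‖∏ i ∈ s, a i‖ + ‖b j‖ * ‖∏ i ∈ s, a i - ∏ i ∈ s, b i‖ := by
          refine (norm_add_le _ _).trans ?_
          rw [norm_mul, norm_mul]
      _ ≤ d * T ^ s.card + T * (s.card * T ^ s.card * d) :=
          add_le_add (mul_le_mul (hab j) h1 (norm_nonneg _) hd)
            (mul_le_mul (hb j) ih (norm_nonneg _) h0)
      _ ≤ ((s.card + 1 : ℕ) : ℝ) * T ^ (s.card + 1) * d := by
          rw [pow_succ]
          push_cast
          have h2 : d * T ^ s.card ≤ T ^ s.card * T * d := by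
            have h3 : T ^ s.card ≤ T ^ s.card * T := le_mul_of_one_le_right hp hT
            calc d * T ^ s.card = T ^ s.card * d := mul_comm _ _
              _ ≤ T ^ s.card * T * d := mul_le_mul_of_nonneg_right h3 hd
          nlinarith [h2]

theorem det_bd {n : ℕ} (b R : ℝ) (hb : 0 ≤ b) (hR : 0 ≤ R) : ∃ C : ℝ, 0 ≤ C ∧
    ∀ (ρ : ℝ) (M : Matrix (Fin n) (Fin n) ℂ), 0 ≤ ρ → ρ ≤ R →
      (∀ i j, ‖M i j - (1 : Matrix (Fin n) (Fin n) ℂ) i j‖ ≤ b * ρ) → ‖M.det - 1‖ ≤ C * ρ := by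
  classical
  refine ⟨(Fintype.card (Equiv.Perm (Fin n)) : ℝ) * (n * (1 + b * R) ^ n * b), by positivity, ?_⟩
  intro ρ M h0 hρ hM
  have hone : ∀ i j, ‖(1 : Matrix (Fin n) (Fin n) ℂ) i j‖ ≤ 1 := by
    intro i j
    rw [Matrix.one_apply]
    split_ifs <;> simp
  have hT : (1 : ℝ) ≤ 1 + b * R := by
    have := mul_nonneg hb hR
    linarith
  have hMT : ∀ i j, ‖M i j‖ ≤ 1 + b * R := by
    intro i j
    have e : M i j = (1 : Matrix (Fin n) (Fin n) ℂ) i j + (M i j - (1 : Matrix (Fin n) (Fin n) ℂ) i j) := by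
      ring
    rw [e]
    refine (norm_add_le _ _).trans (add_le_add (hone i j) ((hM i j).trans ?_))
    exact mul_le_mul_of_nonneg_left hρ hb
  have e1 : M.det - 1 = ∑ w : Equiv.Perm (Fin n), (Equiv.Perm.sign w : ℤ) •
      (∏ i, M (w i) i - ∏ i, (1 : Matrix (Fin n) (Fin n) ℂ) (w i) i) := by
    rw [← Matrix.det_one (n := Fin n) (R := ℂ), Matrix.det_apply, Matrix.det_apply, ← Finset.sum_sub_distrib]
    refine Finset.sum_congr rfl fun w _ => ?_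
    rw [smul_sub]
    rfl
  rw [e1]
  refine (norm_sum_le _ _).trans ?_
  have h1 : ∀ w ∈ (Finset.univ : Finset (Equiv.Perm (Fin n))), ‖(Equiv.Perm.sign w : ℤ) •
      (∏ i, M (w i) i - ∏ i, (1 : Matrix (Fin n) (Fin n) ℂ) (w i) i)‖ ≤
      n * (1 + b * R) ^ n * (b * ρ) := by
    intro w _
    have h2 : ‖∏ i, M (w i) i - ∏ i, (1 : Matrix (Fin n) (Fin n) ℂ) (w i) i‖ ≤
        n * (1 + b * R) ^ n * (b * ρ) := by
      have h3 := prod_bd Finset.univ (fun i => M (w i) i)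
        (fun i => (1 : Matrix (Fin n) (Fin n) ℂ) (w i) i) (1 + b * R) (b * ρ) hT
        (mul_nonneg hb h0) (fun i => hMT _ _) (fun i => (hone _ _).trans hT) (fun i => hM _ _)
      rwa [Finset.card_univ, Fintype.card_fin] at h3
    rcases Int.units_eq_one_or (Equiv.Perm.sign w) with h | h
    · rw [h, Units.val_one, one_smul]
      exact h2
    · rw [h, Units.val_neg, Units.val_one, neg_smul, one_smul, norm_neg]
      exact h2
  refine (Finset.sum_le_card_nsmul _ _ _ h1).trans (le_of_eq ?_)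
  rw [nsmul_eq_mul, Finset.card_univ]
  ring

/-! ### the orthonormal basis -/

theorem eb_orth (hT : TAF H Φ Hc E) {P : RT l} (hP : ∀ p ∈ P, p ∈ Φ) (j k : Fin P.card) :
    (eb E P j * (eb E P k)ᴴ).trace = if j = k then 1 else 0 := by
  have h1 : (eb E P j * (eb E P k)ᴴ).trace =
      (((√((E (P.equivFin.symm j).1 * (E (P.equivFin.symm j).1)ᴴ).trace.re))⁻¹ : ℝ) : ℂ) *
      ((((√((E (P.equivFin.symm k).1 * (E (P.equivFin.symm k).1)ᴴ).trace.re))⁻¹ : ℝ) : ℂ) *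
        (E (P.equivFin.symm j).1 * (E (P.equivFin.symm k).1)ᴴ).trace) := by
    rw [eb, eb, Matrix.conjTranspose_smul, Matrix.smul_mul, Matrix.mul_smul, Matrix.trace_smul,
      Matrix.trace_smul]
    simp
  rw [h1]
  split_ifs with h
  · subst h
    have h2 := hT.pos _ (hP _ (P.equivFin.symm j).2)
    have h3 : (E (P.equivFin.symm j).1 * (E (P.equivFin.symm j).1)ᴴ).trace =
        ((E (P.equivFin.symm j).1 * (E (P.equivFin.symm j).1)ᴴ).trace.re : ℂ) := by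
      apply Complex.ext
      · rw [Complex.ofReal_re]
      · rw [Complex.ofReal_im]
        exact h2.2
    rw [← mul_assoc, ← Complex.ofReal_mul, ← mul_inv, Real.mul_self_sqrt h2.1.le]
    rw [h3]
    rw [← Complex.ofReal_mul, Complex.ofReal_re, inv_mul_cancel₀ h2.1.ne', Complex.ofReal_one]
  · have h2 : (P.equivFin.symm j).1 ≠ (P.equivFin.symm k).1 := by
      intro he
      exact h (P.equivFin.symm.injective (Subtype.ext he))
    rw [hT.orth _ (hP _ (P.equivFin.symm j).2) _ (hP _ (P.equivFin.symm k).2) h2]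
    ring

/-! ### the complexified Lie algebra -/

/-- the complex span of the coroots and of the root vectors -/
def gc (Φ : RT l) (Hc : Fin l → Matrix (Fin N) (Fin N) ℂ)
    (E : (Fin l → ℤ) × (Fin l → ℤ) → Matrix (Fin N) (Fin N) ℂ) : Submodule ℂ (Matrix (Fin N) (Fin N) ℂ) :=
  Submodule.span ℂ (Set.range Hc ∪ E '' (Φ : Set ((Fin l → ℤ) × (Fin l → ℤ))))

theorem Hc_mem (j : Fin l) : Hc j ∈ gc Φ Hc E := Submodule.subset_span (Or.inl ⟨j, rfl⟩)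

theorem E_mem {p : (Fin l → ℤ) × (Fin l → ℤ)} (hp : p ∈ Φ) : E p ∈ gc Φ Hc E :=
  Submodule.subset_span (Or.inr ⟨p, hp, rfl⟩)

theorem eb_mem {P : RT l} (hP : ∀ p ∈ P, p ∈ Φ) (k : Fin P.card) : eb E P k ∈ gc Φ Hc E :=
  (gc Φ Hc E).smul_mem _ (E_mem (hP _ (P.equivFin.symm k).2))

theorem lie_mem (hw : WFF Φ B) (hL : LRD H Φ B Hc E) {X : Matrix (Fin N) (Fin N) ℂ} (hX : X ∈ lie H) :
    X ∈ gc Φ Hc E := by
  obtain ⟨x, z, rfl⟩ := hL.span X hX
  refine (gc Φ Hc E).add_mem (Submodule.sum_mem _ fun j _ => (gc Φ Hc E).smul_mem _ (Hc_mem j))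
    (Submodule.sum_mem _ fun p hp => (gc Φ Hc E).sub_mem ?_ ?_)
  · exact (gc Φ Hc E).smul_mem _ (E_mem (hw.ppos p hp).1)
  · rw [← hL.star p (hw.ppos p hp).1]
    exact (gc Φ Hc E).smul_mem _ (E_mem (hw.neg p (hw.ppos p hp).1))

theorem conj_mem (h : LIF H) (hw : WFF Φ B) (hL : LRD H Φ B Hc E) {u : SU N} (hu : u ∈ H)
    {V : Matrix (Fin N) (Fin N) ℂ} (hV : V ∈ gc Φ Hc E) : u.1 * V * u.1ᴴ ∈ gc Φ Hc E := by
  refine Submodule.span_induction ?_ ?_ ?_ ?_ hV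
  · rintro V (⟨j, rfl⟩ | ⟨p, hp, rfl⟩)
    · have h1 := lie_mem hw hL (h.ad u hu _ (hL.mem j))
      have h2 : u.1 * Hc j * u.1ᴴ = (-Complex.I) • (u.1 * (Complex.I • Hc j) * u.1ᴴ) := by
        rw [Matrix.mul_smul, Matrix.smul_mul, smul_smul]
        simp
      rw [h2]
      exact (gc Φ Hc E).smul_mem _ h1
    · obtain ⟨h1, h2⟩ := hL.emem p hp
      have h3 := lie_mem hw hL (h.ad u hu _ h1)
      have h4 := lie_mem hw hL (h.ad u hu _ h2)
      have h5 : u.1 * E p * u.1ᴴ = (1 / 2 : ℂ) • (u.1 * (E p - (E p)ᴴ) * u.1ᴴ) +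
          (-(Complex.I / 2)) • (u.1 * (Complex.I • (E p + (E p)ᴴ)) * u.1ᴴ) := by
        rw [Matrix.mul_smul, Matrix.smul_mul, smul_smul]
        have e : -(Complex.I / 2) * Complex.I = 1 / 2 := by
          have := Complex.I_mul_I
          linear_combination (-(1 / 2 : ℂ)) * this
        rw [e, ← smul_add, Matrix.mul_sub, Matrix.mul_add, Matrix.sub_mul, Matrix.add_mul]
        have e2 : u.1 * E p * u.1ᴴ - u.1 * (E p)ᴴ * u.1ᴴ + (u.1 * E p * u.1ᴴ + u.1 * (E p)ᴴ * u.1ᴴ) =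
            (2 : ℂ) • (u.1 * E p * u.1ᴴ) := by
          rw [two_smul]
          abel
        rw [e2, smul_smul]
        norm_num
      rw [h5]
      exact (gc Φ Hc E).add_mem ((gc Φ Hc E).smul_mem _ h3) ((gc Φ Hc E).smul_mem _ h4)
  · simp
  · intro V W _ _ h1 h2
    rw [Matrix.mul_add, Matrix.add_mul]
    exact (gc Φ Hc E).add_mem h1 h2
  · intro a V _ h1
    rw [Matrix.mul_smul, Matrix.smul_mul]
    exact (gc Φ Hc E).smul_mem _ h1

theorem expE {T F : Matrix (Fin N) (Fin N) ℂ} {c : ℂ} (hF : T * F - F * T = c • F) :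
    NormedSpace.exp T * F * NormedSpace.exp (-T) = Complex.exp c • F := by
  have h1 : T * F = F * (T + c • 1) := by
    rw [Matrix.mul_add, mul_smul_comm, Matrix.mul_one, ← hF]
    abel
  have h2 : NormedSpace.exp (T + c • (1 : Matrix (Fin N) (Fin N) ℂ)) =
      NormedSpace.exp T * NormedSpace.exp (c • (1 : Matrix (Fin N) (Fin N) ℂ)) :=
    Matrix.exp_add_of_commute _ _ ((Commute.one_right T).smul_right c)
  have h3 : NormedSpace.exp T * NormedSpace.exp (-T) = 1 := by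
    rw [← Matrix.exp_add_of_commute _ _ (Commute.refl T).neg_right, add_neg_cancel,
      NormedSpace.exp_zero]
  rw [TAUF.exp_semi h1, h2, TAUF.exp_scalar, mul_smul_comm, mul_smul_comm, Matrix.mul_one,
    smul_mul_assoc, Matrix.mul_assoc, h3, Matrix.mul_one]

theorem Ad_eq (hF : TAF H Φ Hc E) (hL : LRD H Φ B Hc E) {x x' : Fin l → ℝ}
    (hx' : ∀ p ∈ Φ, Complex.exp (dz p.1 x * Complex.I) = Complex.exp (dz p.1 x' * Complex.I))
    {W : Matrix (Fin N) (Fin N) ℂ} (hW : W ∈ gc Φ Hc E) :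
    NormedSpace.exp (hx Hc x) * W * NormedSpace.exp (-(hx Hc x)) =
      NormedSpace.exp (hx Hc x') * W * NormedSpace.exp (-(hx Hc x')) := by
  have hcom : ∀ (y : Fin l → ℝ) (j : Fin l), hx Hc y * Hc j - Hc j * hx Hc y = (0 : ℂ) • Hc j := by
    intro y j
    rw [zero_smul, sub_eq_zero, hx, Finset.sum_mul, Finset.mul_sum]
    refine Finset.sum_congr rfl fun i _ => ?_
    rw [smul_mul_assoc, mul_smul_comm, hL.comm]
  refine Submodule.span_induction ?_ ?_ ?_ ?_ hW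
  · rintro V (⟨j, rfl⟩ | ⟨p, hp, rfl⟩)
    · rw [expE (hcom x j), expE (hcom x' j)]
    · rw [expE (hF.ade p hp x), expE (hF.ade p hp x')]
      exact congrArg (fun a : ℂ => a • E p) (hx' p hp)
  · simp
  · intro V W _ _ h1 h2
    rw [Matrix.mul_add, Matrix.add_mul, h1, h2, Matrix.mul_add, Matrix.add_mul]
  · intro a V _ h1
    rw [Matrix.mul_smul, Matrix.smul_mul, h1, Matrix.mul_smul, Matrix.smul_mul]

theorem hx_star (hL : LRD H Φ B Hc E) (x : Fin l → ℝ) : (hx Hc x)ᴴ = -hx Hc x := by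
  simp only [hx]
  rw [Matrix.conjTranspose_sum, ← Finset.sum_neg_distrib]
  refine Finset.sum_congr rfl fun j _ => ?_
  rw [Matrix.conjTranspose_smul, hL.herm j, ← neg_smul]
  congr 1
  simp

theorem hx_smul (ρ : ℝ) (ω : Fin l → ℝ) : hx Hc (ρ • ω) = (ρ : ℂ) • hx Hc ω := by
  rw [hx, hx, Finset.smul_sum]
  refine Finset.sum_congr rfl fun j _ => ?_
  rw [smul_smul, Pi.smul_apply, smul_eq_mul]
  push_cast
  ring_nf

theorem hx_zero : hx Hc (0 : Fin l → ℝ) = 0 := by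
  simp [hx]

theorem exp_star (hL : LRD H Φ B Hc E) (x : Fin l → ℝ) :
    (NormedSpace.exp (hx Hc x))ᴴ = NormedSpace.exp (-(hx Hc x)) := by
  rw [← Matrix.exp_conjTranspose, hx_star hL]

/-- `Ad` of `uᴴ exp (hx x) u` -/
theorem key (hL : LRD H Φ B Hc E) {u : SU N} (x : Fin l → ℝ) (V : Matrix (Fin N) (Fin N) ℂ) :
    (u.1ᴴ * NormedSpace.exp (hx Hc x) * u.1) * V * (u.1ᴴ * NormedSpace.exp (hx Hc x) * u.1)ᴴ =
      u.1ᴴ * (NormedSpace.exp (hx Hc x) * (u.1 * V * u.1ᴴ) * NormedSpace.exp (-(hx Hc x))) * u.1 := by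
  rw [Matrix.conjTranspose_mul, Matrix.conjTranspose_mul, Matrix.conjTranspose_conjTranspose,
    exp_star hL]
  simp only [Matrix.mul_assoc]

theorem ux (u : SU N) : u.1 * u.1ᴴ = 1 := by
  have h : (u * u⁻¹).1 = 1 := by rw [mul_inv_cancel]; rfl
  exact h

theorem xu (u : SU N) : u.1ᴴ * u.1 = 1 := by
  have h : (u⁻¹ * u).1 = 1 := by rw [inv_mul_cancel]; rfl
  exact h

theorem cjcj (u : SU N) (V : Matrix (Fin N) (Fin N) ℂ) : u.1ᴴ * (u.1 * V * u.1ᴴ) * u.1 = V := by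
  have e : u.1ᴴ * (u.1 * V * u.1ᴴ) * u.1 = (u.1ᴴ * u.1) * V * (u.1ᴴ * u.1) := by
    simp only [Matrix.mul_assoc]
  rw [e, xu, Matrix.one_mul, Matrix.mul_one]

/-- the map `V ↦ kᴴ bo ρ (hx ω) (k V kᴴ) k` -/
def FF (Hc : Fin l → Matrix (Fin N) (Fin N) ℂ) (z : ℝ × (Fin l → ℝ)) (k : Matrix (Fin N) (Fin N) ℂ)
    (V : Matrix (Fin N) (Fin N) ℂ) : Matrix (Fin N) (Fin N) ℂ :=
  kᴴ * bo z.1 (hx Hc z.2) (k * V * kᴴ) * k

theorem key1 (hb : BOF N) (h : LIF H) (hw : WFF Φ B) (hF : TAF H Φ Hc E) (hL : LRD H Φ B Hc E)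
    {u : SU N} (hu : u ∈ H) {x : Fin l → ℝ} {ρ : ℝ} {ω : Fin l → ℝ}
    (hx' : ∀ p ∈ Φ, Complex.exp (dz p.1 x * Complex.I) = Complex.exp (dz p.1 (ρ • ω) * Complex.I))
    {V : Matrix (Fin N) (Fin N) ℂ} (hV : V ∈ gc Φ Hc E) :
    (u.1ᴴ * NormedSpace.exp (hx Hc x) * u.1) * V * (u.1ᴴ * NormedSpace.exp (hx Hc x) * u.1)ᴴ =
      V + (ρ : ℂ) • FF Hc (ρ, ω) u.1 V := by
  rw [key hL, Ad_eq hF hL hx' (conj_mem h hw hL hu hV), hx_smul]
  have h1 := hb.eq ρ (hx Hc ω) (u.1 * V * u.1ᴴ)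
  have h2 : NormedSpace.exp ((ρ : ℂ) • hx Hc ω) * (u.1 * V * u.1ᴴ) *
      NormedSpace.exp (-((ρ : ℂ) • hx Hc ω)) =
      u.1 * V * u.1ᴴ + (ρ : ℂ) • bo ρ (hx Hc ω) (u.1 * V * u.1ᴴ) := by
    rw [h1]
    abel
  rw [h2, Matrix.mul_add, Matrix.add_mul, cjcj, FF, Matrix.mul_smul, Matrix.smul_mul]

theorem key0 (h : LIF H) (hw : WFF Φ B) (hF : TAF H Φ Hc E) (hL : LRD H Φ B Hc E)
    {u : SU N} (hu : u ∈ H) {x : Fin l → ℝ}
    (hx' : ∀ p ∈ Φ, Complex.exp (dz p.1 x * Complex.I) = Complex.exp (dz p.1 (0 : Fin l → ℝ) * Complex.I))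
    {V : Matrix (Fin N) (Fin N) ℂ} (hV : V ∈ gc Φ Hc E) :
    (u.1ᴴ * NormedSpace.exp (hx Hc x) * u.1) * V * (u.1ᴴ * NormedSpace.exp (hx Hc x) * u.1)ᴴ = V := by
  rw [key hL, Ad_eq hF hL hx' (conj_mem h hw hL hu hV), hx_zero, neg_zero, NormedSpace.exp_zero,
    Matrix.one_mul, Matrix.mul_one, cjcj]

/-! ### `cm` and `ps` -/

theorem cm_eq {n : ℕ} {e : Fin n → Matrix (Fin N) (Fin N) ℂ}
    (ho : ∀ j k, (e j * (e k)ᴴ).trace = if j = k then 1 else 0) {x : Matrix (Fin N) (Fin N) ℂ} {ρ : ℂ}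
    {F : Matrix (Fin N) (Fin N) ℂ → Matrix (Fin N) (Fin N) ℂ} (h : ∀ k, x * e k * xᴴ = e k + ρ • F (e k))
    (j k : Fin n) : LGR.cm e x j k = (1 : Matrix (Fin n) (Fin n) ℂ) j k + ρ * (F (e k) * (e j)ᴴ).trace := by
  rw [LGR.cm, h, Matrix.add_mul, Matrix.trace_add, ho, Matrix.smul_mul, Matrix.trace_smul, smul_eq_mul,
    Matrix.one_apply]
  congr 1
  by_cases hjk : j = k
  · rw [if_pos hjk, if_pos hjk.symm]
  · rw [if_neg hjk, if_neg (Ne.symm hjk)]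

theorem ps_eq {n : ℕ} {e : Fin n → Matrix (Fin N) (Fin N) ℂ}
    (ho : ∀ j k, (e j * (e k)ᴴ).trace = if j = k then 1 else 0) {x : Matrix (Fin N) (Fin N) ℂ} {ρ : ℂ}
    {F : Matrix (Fin N) (Fin N) ℂ → Matrix (Fin N) (Fin N) ℂ} (h : ∀ k, x * e k * xᴴ = e k + ρ • F (e k))
    (k : Fin n) : LGR.ps e x k = ρ • th e F k := by
  have h1 : ∑ j, LGR.cm e x j k • e j = e k + ρ • ∑ j, (F (e k) * (e j)ᴴ).trace • e j := by
    have h2 : ∀ j ∈ (Finset.univ : Finset (Fin n)), LGR.cm e x j k • e j =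
        (if j = k then e j else 0) + ρ • ((F (e k) * (e j)ᴴ).trace • e j) := by
      intro j _
      rw [cm_eq ho h, add_smul, Matrix.one_apply, ite_smul, one_smul, zero_smul, smul_smul]
    rw [Finset.sum_congr rfl h2, Finset.sum_add_distrib, Finset.sum_ite_eq' Finset.univ k,
      if_pos (Finset.mem_univ _), Finset.smul_sum]
  rw [LGR.ps, h1, h, th, smul_sub]
  abel

theorem np_eq {n : ℕ} {e : Fin n → Matrix (Fin N) (Fin N) ℂ}
    (ho : ∀ j k, (e j * (e k)ᴴ).trace = if j = k then 1 else 0) {x : Matrix (Fin N) (Fin N) ℂ} {ρ : ℝ}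
    {F : Matrix (Fin N) (Fin N) ℂ → Matrix (Fin N) (Fin N) ℂ}
    (h : ∀ k, x * e k * xᴴ = e k + (ρ : ℂ) • F (e k)) :
    ∑ k, ∑ i, ∑ j, ‖LGR.ps e x k i j‖ ^ 2 = ρ ^ 2 * ns e F := by
  rw [ns, Finset.mul_sum]
  refine Finset.sum_congr rfl fun k _ => ?_
  rw [Finset.mul_sum]
  refine Finset.sum_congr rfl fun i _ => ?_
  rw [Finset.mul_sum]
  refine Finset.sum_congr rfl fun j _ => ?_
  rw [ps_eq ho h, Matrix.smul_apply, norm_smul, mul_pow, Complex.norm_real, Real.norm_eq_abs, sq_abs]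

/-! ### compactness and continuity -/

theorem cont_hx : Continuous fun x : Fin l → ℝ => hx Hc x := by
  unfold hx
  exact continuous_finset_sum _ fun j _ =>
    ((Complex.continuous_ofReal.comp (continuous_apply j)).mul continuous_const).smul continuous_const

theorem DW_compact {A : Submodule ℝ (Matrix (Fin N) (Fin N) ℂ)} {θ : Matrix (Fin l) (Fin l) ℤ}
    (hA : ∀ x, hx Hc x ∈ A ↔ ∀ i, ∑ j, (θ i j : ℝ) * x j = -x i) {D : Set (Fin l → ℝ)} (hD : IsCompact D) :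
    IsCompact (DW A Hc D) := by
  obtain ⟨R, hR⟩ := hD.isBounded.subset_closedBall (0 : Fin l → ℝ)
  refine Metric.isCompact_of_isClosed_isBounded ?_ ?_
  · have e : DW A Hc D = ({z | 0 ≤ z.1} ∩ {z | ‖z.2‖ = 1}) ∩
        ({z | ∀ i, ∑ j, (θ i j : ℝ) * z.2 j = -z.2 i} ∩ {z | z.1 • z.2 ∈ D}) := by
      ext z
      simp only [DW, Set.mem_setOf_eq, Set.mem_inter_iff, hA]
      tauto
    rw [e]
    refine ((isClosed_le continuous_const continuous_fst).inter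
      (isClosed_eq continuous_snd.norm continuous_const)).inter (IsClosed.inter ?_ ?_)
    · have e2 : {z : ℝ × (Fin l → ℝ) | ∀ i, ∑ j, (θ i j : ℝ) * z.2 j = -z.2 i} =
          ⋂ i, {z : ℝ × (Fin l → ℝ) | ∑ j, (θ i j : ℝ) * z.2 j = -z.2 i} := by
        ext z
        simp
      rw [e2]
      refine isClosed_iInter fun i => isClosed_eq ?_ ?_
      · exact continuous_finset_sum _ fun j _ =>
          continuous_const.mul ((continuous_apply j).comp continuous_snd)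
      · exact ((continuous_apply i).comp continuous_snd).neg
    · exact hD.isClosed.preimage (continuous_fst.smul continuous_snd)
  · refine (Metric.isBounded_closedBall (x := (0 : ℝ × (Fin l → ℝ))) (r := max R 1)).subset ?_
    rintro ⟨a, w⟩ ⟨h1, h2, -, h4⟩
    have h5 := hR h4
    rw [mem_closedBall_zero_iff, norm_smul] at h5
    simp only at h1 h2 h5
    rw [h2, mul_one] at h5
    rw [mem_closedBall_zero_iff, Prod.norm_def]
    exact max_le_max h5 h2.le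

theorem cont_FF (hb : BOF N) (V : Matrix (Fin N) (Fin N) ℂ) :
    Continuous fun z : (ℝ × (Fin l → ℝ)) × Matrix (Fin N) (Fin N) ℂ => FF Hc z.1 z.2 V := by
  have h1 : Continuous fun z : (ℝ × (Fin l → ℝ)) × Matrix (Fin N) (Fin N) ℂ =>
      z.2 * V * z.2ᴴ := (continuous_snd.matrix_mul continuous_const).matrix_mul
    continuous_snd.matrix_conjTranspose
  have h2 : Continuous fun z : (ℝ × (Fin l → ℝ)) × Matrix (Fin N) (Fin N) ℂ =>
      (z.1.1, hx Hc z.1.2, z.2 * V * z.2ᴴ) :=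
    (continuous_fst.comp continuous_fst).prodMk
      ((cont_hx.comp (continuous_snd.comp continuous_fst)).prodMk h1)
  exact (continuous_snd.matrix_conjTranspose.matrix_mul (hb.cont.comp h2)).matrix_mul continuous_snd

theorem cont_tr (hb : BOF N) (V W : Matrix (Fin N) (Fin N) ℂ) :
    Continuous fun z : (ℝ × (Fin l → ℝ)) × Matrix (Fin N) (Fin N) ℂ => (FF Hc z.1 z.2 V * Wᴴ).trace :=
  ((cont_FF hb V).matrix_mul continuous_const).matrix_trace

theorem cont_ut (hb : BOF N) {n : ℕ} (e : Fin n → Matrix (Fin N) (Fin N) ℂ) :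
    Continuous fun z : (ℝ × (Fin l → ℝ)) × Matrix (Fin N) (Fin N) ℂ => ut Hc e z.1 z.2 := by
  have h : ∀ z : (ℝ × (Fin l → ℝ)) × Matrix (Fin N) (Fin N) ℂ, ut Hc e z.1 z.2 =
      ∑ k, ∑ i, ∑ j, ‖(FF Hc z.1 z.2 (e k) - ∑ m, (FF Hc z.1 z.2 (e k) * (e m)ᴴ).trace • e m) i j‖ ^ 2 :=
    fun z => rfl
  simp only [h]
  refine continuous_finset_sum _ fun k _ => continuous_finset_sum _ fun i _ =>
    continuous_finset_sum _ fun j _ => ?_
  refine (Continuous.norm ?_).pow 2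
  refine ((cont_FF hb (e k)).sub ?_).matrix_elem i j
  exact continuous_finset_sum _ fun m _ => (cont_tr hb (e k) (e m)).smul continuous_const

theorem ut_nonneg {n : ℕ} (e : Fin n → Matrix (Fin N) (Fin N) ℂ) (z : ℝ × (Fin l → ℝ))
    (k : Matrix (Fin N) (Fin N) ℂ) : 0 ≤ ut Hc e z k := by
  unfold ut ns
  exact Finset.sum_nonneg fun _ _ => Finset.sum_nonneg fun _ _ => Finset.sum_nonneg fun _ _ =>
    sq_nonneg _

/-- the map of the parameters to the ambient space -/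
def emb (S : Set (ℝ × (Fin l → ℝ))) (K : Subgroup (SU N)) (z : S × K) :
    (ℝ × (Fin l → ℝ)) × Matrix (Fin N) (Fin N) ℂ := (z.1.1, z.2.1.1)

theorem cont_emb (S : Set (ℝ × (Fin l → ℝ))) (K : Subgroup (SU N)) : Continuous (emb S K) :=
  (continuous_subtype_val.comp continuous_fst).prodMk
    (continuous_subtype_val.comp (continuous_subtype_val.comp continuous_snd))

theorem emb1 (S : Set (ℝ × (Fin l → ℝ))) (K : Subgroup (SU N)) (z : S × K) : (emb S K z).1 = z.1.1 := rfl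

theorem emb2 (S : Set (ℝ × (Fin l → ℝ))) (K : Subgroup (SU N)) (z : S × K) : (emb S K z).2 = z.2.1.1 := rfl

theorem cont_utK (hb : BOF N) {n : ℕ} (e : Fin n → Matrix (Fin N) (Fin N) ℂ) (S : Set (ℝ × (Fin l → ℝ)))
    (K : Subgroup (SU N)) : Continuous fun z : S × K => ut Hc e z.1.1 z.2.1.1 := by
  have h : Continuous fun z : S × K => ut Hc e (emb S K z).1 (emb S K z).2 := by
    have h1 := cont_ut (Hc := Hc) hb e
    have h2 := cont_emb S K
    exact h1.comp h2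
  simpa only [emb1, emb2] using h

theorem cont_trK (hb : BOF N) (V W : Matrix (Fin N) (Fin N) ℂ) (S : Set (ℝ × (Fin l → ℝ)))
    (K : Subgroup (SU N)) : Continuous fun z : S × K => (FF Hc z.1.1 z.2.1.1 V * Wᴴ).trace := by
  have h : Continuous fun z : S × K => (FF Hc (emb S K z).1 (emb S K z).2 V * Wᴴ).trace := by
    have h1 := cont_tr (Hc := Hc) hb V W
    have h2 := cont_emb S K
    exact h1.comp h2
  simpa only [emb1, emb2] using h

theorem trK_bd (hb : BOF N) {n : ℕ} (e : Fin n → Matrix (Fin N) (Fin N) ℂ) (S : Set (ℝ × (Fin l → ℝ)))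
    [CompactSpace S] (K : Subgroup (SU N)) [CompactSpace K] : ∃ b : ℝ, 0 ≤ b ∧
    ∀ (z : S) (k : K) (a c : Fin n), ‖(FF Hc z.1 k.1.1 (e c) * (e a)ᴴ).trace‖ ≤ b := by
  have h0 : ∀ a c : Fin n, ∃ b : ℝ, ∀ z : S × K, ‖(FF Hc z.1.1 z.2.1.1 (e c) * (e a)ᴴ).trace‖ ≤ b := by
    intro a c
    have h1 := cont_trK (Hc := Hc) hb (e c) (e a) S K
    obtain ⟨b, hb1⟩ := isCompact_univ.exists_bound_of_continuousOn h1.continuousOn
    exact ⟨b, fun z => hb1 z (Set.mem_univ _)⟩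
  choose b hb1 using h0
  refine ⟨∑ a, ∑ c, |b a c|, Finset.sum_nonneg fun _ _ => Finset.sum_nonneg fun _ _ => abs_nonneg _, ?_⟩
  intro z k a c
  refine (hb1 a c (z, k)).trans ((le_abs_self _).trans ?_)
  refine le_trans ?_ (Finset.single_le_sum (f := fun a => ∑ c, |b a c|)
    (fun _ _ => Finset.sum_nonneg fun _ _ => abs_nonneg _) (Finset.mem_univ a))
  exact Finset.single_le_sum (f := fun c => |b a c|) (fun _ _ => abs_nonneg _) (Finset.mem_univ c)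

/-- the bound for the determinants -/
theorem det_const (hb : BOF N) {n : ℕ} (e : Fin n → Matrix (Fin N) (Fin N) ℂ)
    {S : Set (ℝ × (Fin l → ℝ))} [CompactSpace S] (hS : ∀ z ∈ S, 0 ≤ z.1) (K : Subgroup (SU N))
    [CompactSpace K] (R : ℝ) (hR : 0 ≤ R) : ∃ C : ℝ, 0 ≤ C ∧
    ∀ (z : S) (k : K) (M : Matrix (Fin n) (Fin n) ℂ), z.1.1 ≤ R →
      (∀ a b, M a b = (1 : Matrix (Fin n) (Fin n) ℂ) a b +
        (z.1.1 : ℂ) * (FF Hc z.1 k.1.1 (e b) * (e a)ᴴ).trace) → ‖M.det - 1‖ ≤ C * z.1.1 := by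
  obtain ⟨b, hb0, hb2⟩ := trK_bd (Hc := Hc) hb e S K
  obtain ⟨C, hC, hC'⟩ := det_bd (n := n) b R hb0 hR
  refine ⟨C, hC, fun z k M hz hM => hC' z.1.1 M (hS z.1 z.2) hz fun a c => ?_⟩
  rw [hM a c, add_sub_cancel_left, norm_mul, Complex.norm_real, Real.norm_eq_abs,
    abs_of_nonneg (hS z.1 z.2), mul_comm]
  exact mul_le_mul_of_nonneg_right (hb2 z k a c) (hS z.1 z.2)

theorem int_le_one {G : Type} [MeasurableSpace G] (ν : Measure G) [IsProbabilityMeasure ν] {ι : Type}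
    [Fintype ι] (f : ι → G → ℝ) (hf : ∀ p k, 0 ≤ f p k) :
    ∫ k, ∏ p, (1 + f p k)⁻¹ ∂ν ≤ 1 := by
  have h1 : ∀ p k, 0 ≤ (1 + f p k)⁻¹ := fun p k => by
    have := hf p k
    positivity
  have h2 : ∀ p k, (1 + f p k)⁻¹ ≤ 1 := fun p k => by
    apply inv_le_one_of_one_le₀
    have := hf p k
    linarith
  calc ∫ k, ∏ p, (1 + f p k)⁻¹ ∂ν ≤ ∫ _k, (1 : ℝ) ∂ν := by
        refine integral_mono_of_nonneg (Eventually.of_forall fun k => ?_) (integrable_const _)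
          (Eventually.of_forall fun k => ?_)
        · exact Finset.prod_nonneg fun p _ => h1 p k
        · exact Finset.prod_le_one (fun p _ => h1 p k) fun p _ => h2 p k
    _ = 1 := by simp

theorem yy_mul {σ : H →* H} {τ : Matrix (Fin N) (Fin N) ℂ →ₗ[ℝ] Matrix (Fin N) (Fin N) ℂ}
    (S : SymP H K σ τ) (g : H) (hK : K ≤ H) (k : K) :
    yy σ (g * ik hK k) = k.1.1ᴴ * yy σ g * k.1.1 := by
  have h1 : σ (ik hK k) = ik hK k := S.fix _ k.2
  have h2 : (σ (g * ik hK k)).1.1 = (σ g).1.1 * k.1.1 := by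
    rw [map_mul, h1]
    rfl
  have h3 : (g * ik hK k).1.1 = g.1.1 * k.1.1 := rfl
  rw [yy, yy, h2, h3, Matrix.conjTranspose_mul]
  simp only [Matrix.mul_assoc]

end GEOQ

open GEOQ in
theorem t_GEOQ : M_GEOQ := by
  intro hLB hWF hTF hCQ hDQ hBP hLR hDC N H K σ τ A l Φ B Hc E x₀ θ r s ε hSD ν _ _ hK
  classical
  have hLI : LIF H := hLB N H hSD.closed
  have hL : LRD H Φ B Hc E := hSD.sr.lrd
  have hw : WFF Φ B := hWF l Φ B hL.ird
  have hF : TAF H Φ Hc E := hTF N H l Φ B Hc E hSD.closed hL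
  have hb : BOF N := hBP N
  obtain ⟨D, hDc, hDA, hD0, hDx⟩ := hDQ N H K σ τ A l Φ B Hc E x₀ θ r s ε hSD
  have hYc : CompactSpace (DW A Hc D) :=
    isCompact_iff_compactSpace.1 (DW_compact hSD.sra.A hDc)
  have hKc : CompactSpace K := isCompact_iff_compactSpace.1 hSD.sym.closed.isCompact
  have hPe : ∀ j, ∀ p ∈ pe Φ (ε j), p ∈ Φ := fun j p hp =>
    (hw.ppos p (Finset.mem_filter.1 hp).1).1
  have ho : ∀ j, ∀ a b, (eb E (pe Φ (ε j)) a * (eb E (pe Φ (ε j)) b)ᴴ).trace = if a = b then 1 else 0 :=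
    fun j => eb_orth hF (hPe j)
  have he : ∀ j, ∀ a, eb E (pe Φ (ε j)) a ∈ gc Φ Hc E := fun j => eb_mem (hPe j)
  obtain ⟨R, hR⟩ := hDc.isBounded.subset_closedBall (0 : Fin l → ℝ)
  have hR0 : ∀ x ∈ D, ‖x‖ ≤ max R 0 := fun x hx1 =>
    le_max_of_le_left (mem_closedBall_zero_iff.1 (hR hx1))
  -- the constants for the determinants
  have hC1 : ∀ j : Fin r, ∃ C : ℝ, 0 ≤ C ∧ ∀ (z : DW A Hc D) (k : K) (M : Matrix (Fin (pe Φ (ε j)).card)
      (Fin (pe Φ (ε j)).card) ℂ), z.1.1 ≤ max R 0 →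
      (∀ a b, M a b = (1 : Matrix (Fin (pe Φ (ε j)).card) (Fin (pe Φ (ε j)).card) ℂ) a b +
        (z.1.1 : ℂ) * (FF Hc z.1 k.1.1 (eb E (pe Φ (ε j)) b) * (eb E (pe Φ (ε j)) a)ᴴ).trace) →
      ‖M.det - 1‖ ≤ C * z.1.1 := by
    intro j
    exact det_const hb (eb E (pe Φ (ε j))) (fun z hz => hz.1) K (max R 0) (le_max_right _ _)
  choose C1 hC1n hC1b using hC1
  -- the constants for the integrals
  have hC2 : ∀ c : {p // p ∈ PA Φ x₀} → Fin r, ∃ C : ℝ, 0 ≤ C ∧ ((∀ p, 0 < p.1.2 ⬝ᵥ ε (c p)) →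
      ∀ (y : DW A Hc D) (M : ℝ), 1 ≤ M →
        ∫ k : K, ∏ p, (1 + M * ut Hc (eb E (pe Φ (ε (c p)))) y.1 k.1.1)⁻¹ ∂ν ≤
          C * M ^ (-((r : ℝ) / 2))) := by
    intro c
    by_cases hc : ∀ p, 0 < p.1.2 ⬝ᵥ ε (c p)
    · obtain ⟨C, hC, hC'⟩ := hDC N K hSD.sym.closed ν r (DW A Hc D) {p // p ∈ PA Φ x₀}
        (fun p z => ut Hc (eb E (pe Φ (ε (c p)))) z.1.1 z.2.1.1)
        (fun p => cont_utK hb (eb E (pe Φ (ε (c p)))) (DW A Hc D) K)
        (fun p z => ut_nonneg _ _ _)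
        (fun z₀ => hLR N H K σ τ A l Φ B Hc E x₀ θ r s ε hSD D hD0 c hc z₀)
      exact ⟨C, hC, fun _ y M hM => hC' y M hM⟩
    · exact ⟨0, le_rfl, fun h => absurd h hc⟩
  choose C2 hC2n hC2b using hC2
  have hS1 : 0 ≤ ∑ j, C1 j := Finset.sum_nonneg fun j _ => hC1n j
  have hS2 : 0 ≤ ∑ c, C2 c := Finset.sum_nonneg fun c _ => hC2n c
  refine ⟨∑ j, C1 j + ∑ c, C2 c + 1, by positivity, ?_⟩
  intro g
  obtain ⟨k₁, hk₁, x, hxA, hy⟩ := hCQ N H K σ τ A l Φ B Hc E x₀ θ r s ε hSD g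
  obtain ⟨x', hx'D, hx'⟩ := hDx x hxA
  have hyy : ∀ k : K, yy σ (g * ik hK k) =
      ((k₁⁻¹ * k.1 : SU N).1ᴴ * NormedSpace.exp (hx Hc x) * (k₁⁻¹ * k.1 : SU N).1) := by
    intro k
    rw [yy_mul hSD.sym, hy, STZ.coe_mul, STZ.coe_inv, Matrix.conjTranspose_mul,
      Matrix.conjTranspose_conjTranspose]
    simp only [Matrix.mul_assoc]
  have hmem : ∀ k : K, (k₁⁻¹ * k.1 : SU N) ∈ H := fun k =>
    H.mul_mem (H.inv_mem (hSD.sym.sub hk₁)) (hSD.sym.sub k.2)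
  by_cases h0 : x' = 0
  · subst h0
    have hps : ∀ (j : Fin r) (k : K) (a : Fin (pe Φ (ε j)).card),
        yy σ (g * ik hK k) * eb E (pe Φ (ε j)) a * (yy σ (g * ik hK k))ᴴ =
          eb E (pe Φ (ε j)) a + ((0 : ℝ) : ℂ) •
            (fun _ : Matrix (Fin N) (Fin N) ℂ => (0 : Matrix (Fin N) (Fin N) ℂ))
              (eb E (pe Φ (ε j)) a) := by
      intro j k a
      rw [hyy k, key0 hLI hw hF hL (hmem k) hx' (he j a)]
      simp
    refine ⟨0, le_rfl, fun j k => ?_, fun c hc M hM => ?_⟩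
    · have h1 : LGR.cm (eb E (pe Φ (ε j))) (yy σ (g * ik hK k)) = 1 := by
        ext a b
        rw [cm_eq (ρ := ((0 : ℝ) : ℂ)) (F := fun _ => 0) (ho j) (hps j k) a b]
        simp
      rw [FJ, h1, Matrix.det_one]
      simp
    · have h1 : ∀ (p : {p // p ∈ PA Φ x₀}) (k : K), 0 ≤ M * np σ Φ E (ε (c p)) (g * ik hK k) := by
        intro p k
        refine mul_nonneg (by linarith) ?_
        exact Finset.sum_nonneg fun _ _ => Finset.sum_nonneg fun _ _ => Finset.sum_nonneg fun _ _ =>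
          sq_nonneg _
      have h2 := int_le_one ν (fun (p : {p // p ∈ PA Φ x₀}) (k : K) =>
        M * np σ Φ E (ε (c p)) (g * ik hK k)) h1
      have h3 : (M * (0 : ℝ) ^ 2) ^ ((r : ℝ) / 2) ≤ 1 := by
        rw [zero_pow two_ne_zero, mul_zero]
        exact Real.zero_rpow_le_one _
      have h4 : 0 ≤ (M * (0 : ℝ) ^ 2) ^ ((r : ℝ) / 2) := by
        rw [zero_pow two_ne_zero, mul_zero]
        exact Real.zero_rpow_nonneg _
      calc (M * (0 : ℝ) ^ 2) ^ ((r : ℝ) / 2) *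
          ∫ k, ∏ p, (1 + M * np σ Φ E (ε (c p)) (g * ik hK k))⁻¹ ∂ν
          ≤ (M * (0 : ℝ) ^ 2) ^ ((r : ℝ) / 2) * 1 := mul_le_mul_of_nonneg_left h2 h4
        _ ≤ 1 := by rwa [mul_one]
        _ ≤ ∑ j, C1 j + ∑ c, C2 c + 1 := by linarith
  · have hρ : 0 < ‖x'‖ := norm_pos_iff.2 h0
    have hω : ‖x'‖ • (‖x'‖⁻¹ • x') = x' := by
      rw [smul_smul, mul_inv_cancel₀ hρ.ne', one_smul]
    have hωn : ‖‖x'‖⁻¹ • x'‖ = 1 := by
      rw [norm_smul, norm_inv, norm_norm, inv_mul_cancel₀ hρ.ne']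
    have hωA : hx Hc (‖x'‖⁻¹ • x') ∈ A := by
      refine (hSD.sra.A _).2 fun i => ?_
      have h1 := (hSD.sra.A x').1 (hDA x' hx'D) i
      have h2 : ∑ j, (θ i j : ℝ) * (‖x'‖⁻¹ • x') j = ‖x'‖⁻¹ * ∑ j, (θ i j : ℝ) * x' j := by
        rw [Finset.mul_sum]
        refine Finset.sum_congr rfl fun j _ => ?_
        rw [Pi.smul_apply, smul_eq_mul]
        ring
      rw [h2, h1, Pi.smul_apply, smul_eq_mul]
      ring
    have hzD : ((‖x'‖, ‖x'‖⁻¹ • x') : ℝ × (Fin l → ℝ)) ∈ DW A Hc D := by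
      refine ⟨norm_nonneg _, hωn, hωA, ?_⟩
      change ‖x'‖ • (‖x'‖⁻¹ • x') ∈ D
      rw [hω]
      exact hx'D
    have hx2 : ∀ p ∈ Φ, Complex.exp (dz p.1 x * Complex.I) =
        Complex.exp (dz p.1 (‖x'‖ • (‖x'‖⁻¹ • x')) * Complex.I) := by
      rw [hω]
      exact hx'
    have hps : ∀ (j : Fin r) (k : K) (a : Fin (pe Φ (ε j)).card),
        yy σ (g * ik hK k) * eb E (pe Φ (ε j)) a * (yy σ (g * ik hK k))ᴴ =
          eb E (pe Φ (ε j)) a + ((‖x'‖ : ℝ) : ℂ) •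
            FF Hc (‖x'‖, ‖x'‖⁻¹ • x') (k₁⁻¹ * k.1 : SU N).1 (eb E (pe Φ (ε j)) a) := by
      intro j k a
      rw [hyy k]
      exact key1 hb hLI hw hF hL (hmem k) hx2 (he j a)
    have hkk : ∀ k : K, (k₁⁻¹ * k.1 : SU N) = ((⟨k₁, hk₁⟩ : K)⁻¹ * k).1 := fun k => rfl
    refine ⟨‖x'‖, norm_nonneg _, fun j k => ?_, fun c hc M hM => ?_⟩
    · have h1 := hC1b j ⟨(‖x'‖, ‖x'‖⁻¹ • x'), hzD⟩ ((⟨k₁, hk₁⟩ : K)⁻¹ * k)
        (LGR.cm (eb E (pe Φ (ε j))) (yy σ (g * ik hK k))) (hR0 x' hx'D) (fun a b => by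
          rw [cm_eq (ρ := ((‖x'‖ : ℝ) : ℂ)) (ho j) (hps j k) a b, hkk k])
      refine h1.trans (mul_le_mul_of_nonneg_right ?_ (norm_nonneg _))
      have h2 : C1 j ≤ ∑ j, C1 j := Finset.single_le_sum (fun j _ => hC1n j) (Finset.mem_univ j)
      linarith
    · have hnp : ∀ (p : {p // p ∈ PA Φ x₀}) (k : K), M * np σ Φ E (ε (c p)) (g * ik hK k) =
          M * ‖x'‖ ^ 2 * ut Hc (eb E (pe Φ (ε (c p)))) (‖x'‖, ‖x'‖⁻¹ • x')
            ((⟨k₁, hk₁⟩ : K)⁻¹ * k).1.1 := by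
        intro p k
        have h1 := np_eq (ho (c p)) (hps (c p) k)
        rw [np, h1, hkk k, mul_assoc]
        rfl
      have hint : ∫ k, ∏ p, (1 + M * np σ Φ E (ε (c p)) (g * ik hK k))⁻¹ ∂ν =
          ∫ k : K, ∏ p, (1 + M * ‖x'‖ ^ 2 * ut Hc (eb E (pe Φ (ε (c p)))) (‖x'‖, ‖x'‖⁻¹ • x')
            k.1.1)⁻¹ ∂ν := by
        simp only [hnp]
        exact integral_mul_left_eq_self (fun k : K => ∏ p : {p // p ∈ PA Φ x₀},
          (1 + M * ‖x'‖ ^ 2 * ut Hc (eb E (pe Φ (ε (c p)))) (‖x'‖, ‖x'‖⁻¹ • x') k.1.1)⁻¹)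
          ((⟨k₁, hk₁⟩ : K)⁻¹)
      rw [hint]
      have hMρ : 0 ≤ M * ‖x'‖ ^ 2 := by positivity
      have hle : C2 c ≤ ∑ c, C2 c := Finset.single_le_sum (fun c _ => hC2n c) (Finset.mem_univ c)
      by_cases h1 : 1 ≤ M * ‖x'‖ ^ 2
      · have h2 := hC2b c hc ⟨(‖x'‖, ‖x'‖⁻¹ • x'), hzD⟩ (M * ‖x'‖ ^ 2) h1
        have hpos : 0 < M * ‖x'‖ ^ 2 := by linarith
        calc (M * ‖x'‖ ^ 2) ^ ((r : ℝ) / 2) * _
            ≤ (M * ‖x'‖ ^ 2) ^ ((r : ℝ) / 2) * (C2 c * (M * ‖x'‖ ^ 2) ^ (-((r : ℝ) / 2))) :=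
              mul_le_mul_of_nonneg_left h2 (Real.rpow_nonneg hMρ _)
          _ = C2 c := by
              rw [mul_comm (C2 c), ← mul_assoc, ← Real.rpow_add hpos, add_neg_cancel,
                Real.rpow_zero, one_mul]
          _ ≤ ∑ j, C1 j + ∑ c, C2 c + 1 := by linarith
      · have h2 := int_le_one ν (fun (p : {p // p ∈ PA Φ x₀}) (k : K) =>
          M * ‖x'‖ ^ 2 * ut Hc (eb E (pe Φ (ε (c p)))) (‖x'‖, ‖x'‖⁻¹ • x') k.1.1)
          (fun p k => mul_nonneg hMρ (ut_nonneg _ _ _))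
        have h3 : (M * ‖x'‖ ^ 2) ^ ((r : ℝ) / 2) ≤ 1 :=
          Real.rpow_le_one hMρ (not_le.1 h1).le (by positivity)
        calc (M * ‖x'‖ ^ 2) ^ ((r : ℝ) / 2) * _
            ≤ (M * ‖x'‖ ^ 2) ^ ((r : ℝ) / 2) * 1 :=
              mul_le_mul_of_nonneg_left h2 (Real.rpow_nonneg hMρ _)
          _ ≤ 1 := by rwa [mul_one]
          _ ≤ ∑ j, C1 j + ∑ c, C2 c + 1 := by linarith

end

end SYM
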