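import Pool.Agent.SYM.StZ

/-!
# Symmetric spaces, block Z: module GSUS
-/

namespace SYM

open STZ LGR MeasureTheory Matrix Filter

open scoped ComplexConjugate Matrix Real Topology

noncomputable section

namespace GSUS

theorem expand (C N A V κ : ℝ) (n r : ℕ) (hC : 0 ≤ C) (hN : 0 ≤ N) (hA : 0 ≤ A) (hV : 0 ≤ V) :
    (C * (N ^ n * A ^ ((r : ℝ) / 2) * V ^ r)) ^ κ =
      C ^ κ * (N ^ ((n : ℝ) * κ) * A ^ ((r : ℝ) / 2 * κ) * V ^ ((r : ℝ) * κ)) := by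
  have h1 : 0 ≤ N ^ n := pow_nonneg hN n
  have h2 : 0 ≤ A ^ ((r : ℝ) / 2) := Real.rpow_nonneg hA _
  have h3 : 0 ≤ V ^ r := pow_nonneg hV r
  rw [Real.mul_rpow hC (mul_nonneg (mul_nonneg h1 h2) h3), Real.mul_rpow (mul_nonneg h1 h2) h3,
    Real.mul_rpow h1 h2, ← Real.rpow_mul hA, ← Real.rpow_natCast N n, ← Real.rpow_mul hN,
    ← Real.rpow_natCast V r, ← Real.rpow_mul hV]

theorem sqrt_ge (J : ℕ) : ((2 ^ (J / 2) : ℕ) : ℝ) ≤ ((2 ^ J : ℕ) : ℝ) ^ (1 / 2 : ℝ) := by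
  rw [← Real.sqrt_eq_rpow]
  apply Real.le_sqrt_of_sq_le
  rw [← Nat.cast_pow, ← pow_mul]
  exact_mod_cast Nat.pow_le_pow_right (by norm_num) (by omega)

theorem geom (q : ℝ) (hq0 : 0 ≤ q) (hq1 : q < 1) (m : ℕ) :
    ∑ i ∈ Finset.range (m + 1), q ^ (m - i) ≤ 1 / (1 - q) := by
  have h1 : ∑ i ∈ Finset.range (m + 1), q ^ (m - i) = ∑ i ∈ Finset.range (m + 1), q ^ i := by
    rw [← Finset.sum_range_reflect]
    refine Finset.sum_congr rfl fun i hi => ?_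
    rw [Finset.mem_range] at hi
    congr 1
    omega
  have h2 := geom_sum_eq (ne_of_lt hq1) (m + 1)
  have h3 : (q ^ (m + 1) - 1) / (q - 1) = (1 - q ^ (m + 1)) / (1 - q) := by
    rw [← neg_sub, ← neg_sub 1 q, neg_div_neg_eq]
  rw [h1, h2, h3]
  have h4 : 0 ≤ q ^ (m + 1) := pow_nonneg hq0 _
  exact div_le_div_of_nonneg_right (by linarith) (by linarith)

/-- the second bound -/
theorem second (C N P M κ ε η a : ℝ) (n r : ℕ) (hC : 0 ≤ C) (hN : 1 ≤ N) (hP : 0 < P)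
    (hM : 0 < M) (hMN : M ≤ N ^ (1 / 2 : ℝ)) (ha : a = (r : ℝ) / 2 * κ) (ha1 : 1 < a)
    (hε : ε * (a + 1) = η * (a - 1) / 2) (hPN : N ^ (-2 + η) ≤ C * P) :
    (C * (N ^ n * (C * N ^ ε / P) ^ ((r : ℝ) / 2) * (M / N ^ (1 / 2 : ℝ)) ^ r)) ^ κ *
      (C * (C * N ^ ε * P + C * N * P * N ^ ε / M ^ 2)) ≤
      2 * C ^ κ * C ^ a * C ^ 2 * C ^ (a - 1) *
        N ^ ((n : ℝ) * κ + 2 * a - 2 - η * (a - 1) / 2) := by
  have hN0 : 0 < N := by linarith
  have hC0 : 0 < C := by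
    rcases lt_or_eq_of_le hC with h | h
    · exact h
    · exfalso
      rw [← h, zero_mul] at hPN
      exact absurd (Real.rpow_pos_of_pos hN0 (-2 + η)) (not_lt.2 hPN)
  have hs : 0 < N ^ (1 / 2 : ℝ) := Real.rpow_pos_of_pos hN0 _
  have hs2 : (N ^ (1 / 2 : ℝ)) ^ 2 = N := by
    rw [← Real.sqrt_eq_rpow, Real.sq_sqrt hN0.le]
  set V := M / N ^ (1 / 2 : ℝ) with hV
  have hV0 : 0 < V := div_pos hM hs
  have hV1 : V ≤ 1 := (div_le_one hs).2 hMN
  have hNe : 0 < N ^ ε := Real.rpow_pos_of_pos hN0 _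
  have hA : 0 ≤ C * N ^ ε / P := by positivity
  have h1 := expand C N (C * N ^ ε / P) V κ n r hC hN0.le hA hV0.le
  rw [h1, ← ha]
  have h2 : (C * N ^ ε / P) ^ a = C ^ a * N ^ (ε * a) * P ^ (-a) := by
    rw [Real.div_rpow (by positivity) hP.le, Real.mul_rpow hC hNe.le, ← Real.rpow_mul hN0.le,
      Real.rpow_neg hP.le, div_eq_mul_inv]
  have h3 : C * (C * N ^ ε * P + C * N * P * N ^ ε / M ^ 2) ≤ 2 * C ^ 2 * N ^ ε * P * V ^ (-2 : ℝ) := by
    have hV2 : V ^ (-2 : ℝ) = N / M ^ 2 := by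
      rw [show (-2 : ℝ) = -((2 : ℕ) : ℝ) by norm_num, Real.rpow_neg hV0.le, Real.rpow_natCast, hV,
        div_pow, hs2, inv_div]
    have hV3 : 1 ≤ V ^ (-2 : ℝ) := Real.one_le_rpow_of_pos_of_le_one_of_nonpos hV0 hV1 (by norm_num)
    have e1 : C * (C * N ^ ε * P + C * N * P * N ^ ε / M ^ 2) =
        C ^ 2 * N ^ ε * P * (1 + N / M ^ 2) := by
      field_simp
    rw [e1, ← hV2]
    have e2 : 0 ≤ C ^ 2 * N ^ ε * P := by positivity
    nlinarith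
  have hrk : (r : ℝ) * κ = 2 * a := by rw [ha]; ring
  rw [h2, hrk]
  have h4 : V ^ (2 * a) * V ^ (-2 : ℝ) ≤ 1 := by
    rw [← Real.rpow_add hV0]
    exact Real.rpow_le_one hV0.le hV1 (by linarith)
  have h5 : P ^ (-a) * P ≤ C ^ (a - 1) * N ^ ((2 - η) * (a - 1)) := by
    have e1 : P ^ (-a) * P = (P⁻¹) ^ (a - 1) := by
      rw [Real.inv_rpow hP.le, ← Real.rpow_neg hP.le]
      conv_lhs => rw [← Real.rpow_one P, ← Real.rpow_mul hP.le, one_mul]
      rw [← Real.rpow_add hP]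
      congr 1
      ring
    have e2 : P⁻¹ ≤ C * N ^ (2 - η) := by
      rw [inv_le_iff_one_le_mul₀ hP]
      have e3 : N ^ (2 - η) * N ^ (-2 + η) = 1 := by
        rw [← Real.rpow_add hN0, show 2 - η + (-2 + η) = 0 by ring, Real.rpow_zero]
      have e4 : 0 ≤ N ^ (2 - η) := Real.rpow_nonneg hN0.le _
      calc (1 : ℝ) = N ^ (2 - η) * N ^ (-2 + η) := e3.symm
        _ ≤ N ^ (2 - η) * (C * P) := mul_le_mul_of_nonneg_left hPN e4
        _ = C * N ^ (2 - η) * P := by ring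
    rw [e1]
    calc (P⁻¹) ^ (a - 1) ≤ (C * N ^ (2 - η)) ^ (a - 1) :=
          Real.rpow_le_rpow (by positivity) e2 (by linarith)
      _ = C ^ (a - 1) * N ^ ((2 - η) * (a - 1)) := by
          rw [Real.mul_rpow hC (Real.rpow_nonneg hN0.le _), ← Real.rpow_mul hN0.le]
  have hpos : 0 ≤ C ^ κ * (N ^ ((n : ℝ) * κ) * (C ^ a * N ^ (ε * a) * P ^ (-a)) * V ^ (2 * a)) := by
    positivity
  calc C ^ κ * (N ^ ((n : ℝ) * κ) * (C ^ a * N ^ (ε * a) * P ^ (-a)) * V ^ (2 * a)) *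
        (C * (C * N ^ ε * P + C * N * P * N ^ ε / M ^ 2))
      ≤ C ^ κ * (N ^ ((n : ℝ) * κ) * (C ^ a * N ^ (ε * a) * P ^ (-a)) * V ^ (2 * a)) *
        (2 * C ^ 2 * N ^ ε * P * V ^ (-2 : ℝ)) := mul_le_mul_of_nonneg_left h3 hpos
    _ = (2 * C ^ κ * C ^ a * C ^ 2 * (N ^ ((n : ℝ) * κ) * N ^ (ε * a) * N ^ ε)) *
        (P ^ (-a) * P) * (V ^ (2 * a) * V ^ (-2 : ℝ)) := by ring
    _ ≤ (2 * C ^ κ * C ^ a * C ^ 2 * (N ^ ((n : ℝ) * κ) * N ^ (ε * a) * N ^ ε)) *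
        (C ^ (a - 1) * N ^ ((2 - η) * (a - 1))) * 1 := by
        apply mul_le_mul _ h4 (by positivity) (by positivity)
        exact mul_le_mul_of_nonneg_left h5 (by positivity)
    _ = 2 * C ^ κ * C ^ a * C ^ 2 * C ^ (a - 1) *
        (N ^ ((n : ℝ) * κ) * N ^ (ε * a) * N ^ ε * N ^ ((2 - η) * (a - 1))) := by ring
    _ = 2 * C ^ κ * C ^ a * C ^ 2 * C ^ (a - 1) *
        N ^ ((n : ℝ) * κ + 2 * a - 2 - η * (a - 1) / 2) := by
        congr 1
        rw [← Real.rpow_add hN0, ← Real.rpow_add hN0, ← Real.rpow_add hN0]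
        congr 1
        linear_combination hε

/-- logarithms -/
theorem log_sq (N s : ℝ) (hN : 1 ≤ N) (hs : 0 < s) :
    (1 + Real.log N) ^ 2 ≤ (1 + 1 / s) ^ 2 * N ^ (2 * s) := by
  have hN0 : 0 < N := by linarith
  have h1 : Real.log N ≤ N ^ s / s := Real.log_le_rpow_div hN0.le hs
  have h2 : 1 ≤ N ^ s := Real.one_le_rpow hN hs.le
  have h3 : 0 ≤ Real.log N := Real.log_nonneg hN
  have h4 : 1 + Real.log N ≤ (1 + 1 / s) * N ^ s := by
    have : (1 + 1 / s) * N ^ s = N ^ s + N ^ s / s := by ring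
    rw [this]
    linarith
  calc (1 + Real.log N) ^ 2 ≤ ((1 + 1 / s) * N ^ s) ^ 2 := pow_le_pow_left₀ (by linarith) h4 2
    _ = (1 + 1 / s) ^ 2 * N ^ (2 * s) := by
      rw [mul_pow, ← Real.rpow_natCast (N ^ s) 2, ← Real.rpow_mul hN0.le]
      congr 2
      push_cast
      ring

theorem card_le (J : ℕ) : ((J / 2 + 1 : ℕ) : ℝ) ≤ 2 * (1 + Real.log ((2 ^ J : ℕ) : ℝ)) := by
  rw [Nat.cast_pow, Real.log_pow]
  have h1 : (1 / 2 : ℝ) ≤ Real.log 2 := by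
    have := Real.log_two_gt_d9
    linarith
  have h2 : ((J / 2 + 1 : ℕ) : ℝ) ≤ J + 1 := by
    exact_mod_cast (by omega : J / 2 + 1 ≤ J + 1)
  have h3 : (0 : ℝ) ≤ J := Nat.cast_nonneg J
  push_cast at h2 ⊢
  nlinarith

end GSUS

open GSUS

theorem t_GSUS : M_GSUS := by
  intro hW hV r n c p hr hc hp
  have hr0 : (0 : ℝ) < r := by
    have : 0 < r := by omega
    exact_mod_cast this
  have hr2 : (2 : ℝ) ≤ r := by exact_mod_cast hr
  set κ : ℝ := p / 2 - 1 with hκ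
  have hκ0 : 2 / (r : ℝ) < κ := by
    have : (4 : ℝ) / r = 2 * (2 / r) := by ring
    rw [hκ]
    linarith
  have hκp : 0 < κ := lt_trans (by positivity) hκ0
  have hp0 : 0 < p := by
    have : p = 2 * (κ + 1) := by rw [hκ]; ring
    rw [this]
    positivity
  set a : ℝ := (r : ℝ) / 2 * κ with ha
  have ha1 : 1 < a := by
    have : (r : ℝ) / 2 * (2 / r) < (r : ℝ) / 2 * κ := mul_lt_mul_of_pos_left hκ0 (by positivity)
    have h1 : (r : ℝ) / 2 * (2 / r) = 1 := by field_simp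
    rw [h1] at this
    exact this
  have hb : (1 : ℝ) ≤ (r : ℝ) / 2 := by linarith
  obtain ⟨η, C₁, hη0, hη1, hC₁, hmaj⟩ := hV c a ((r : ℝ) / 2) 1 hc ha1 hb (by linarith) one_pos
  have hδ : 0 < η * (a - 1) / 2 := by
    have : 0 < a - 1 := by linarith
    positivity
  refine ⟨η, η * (a - 1) / 2 / (a + 1), hη0, hη1, div_pos hδ (by linarith), ?_⟩
  set ε : ℝ := η * (a - 1) / 2 / (a + 1) with hε
  have hεa : ε * (a + 1) = η * (a - 1) / 2 := by
    rw [hε]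
    exact div_mul_cancel₀ _ (by linarith)
  intro C hC
  set A₁ : ℝ := C ^ κ * C * C₁ with hA₁
  set A₂ : ℝ := 2 * C ^ κ * C ^ a * C ^ 2 * C ^ (a - 1) with hA₂
  have hA₁0 : 0 ≤ A₁ := by
    have := Real.rpow_nonneg hC κ
    positivity
  have hA₂0 : 0 ≤ A₂ := by
    have := Real.rpow_nonneg hC κ
    have := Real.rpow_nonneg hC a
    have := Real.rpow_nonneg hC (a - 1)
    positivity
  set δ : ℝ := η * (a - 1) / 2 with hδdef
  set X : ℝ := (n : ℝ) * κ + 2 * a - 2 with hX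
  set ρ : ℝ := (2 * a - 1) * (2 / p) with hρ
  have hρ0 : 0 < ρ := by
    have : 0 < 2 * a - 1 := by linarith
    positivity
  set q : ℝ := (2 : ℝ) ^ (-ρ) with hq
  have hq0 : 0 ≤ q := Real.rpow_nonneg (by norm_num) _
  have hq1 : q < 1 := Real.rpow_lt_one_of_one_lt_of_neg (by norm_num) (by linarith)
  refine ⟨A₁ ^ (2 / p) * (1 / (1 - q)) + C * A₂ ^ (2 / p) * (2 * (1 + 1 / (δ / p)) ^ 2), ?_, ?_⟩
  · have h1 := Real.rpow_nonneg hA₁0 (2 / p)
    have h2 := Real.rpow_nonneg hA₂0 (2 / p)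
    have h3 : 0 ≤ 1 / (1 - q) := by
      apply div_nonneg zero_le_one
      linarith
    positivity
  intro J
  set N : ℝ := ((2 ^ J : ℕ) : ℝ) with hNdef
  have hN1 : 1 ≤ N := by
    rw [hNdef]
    exact_mod_cast Nat.one_le_two_pow
  have hN0 : 0 < N := by linarith
  have hs : 0 < N ^ (1 / 2 : ℝ) := Real.rpow_pos_of_pos hN0 _
  have hM0 : ∀ i : ℕ, (0 : ℝ) < ((2 ^ i : ℕ) : ℝ) := fun i => by
    exact_mod_cast Nat.two_pow_pos i
  have hMN : ∀ i, i ≤ J / 2 → ((2 ^ i : ℕ) : ℝ) ≤ N ^ (1 / 2 : ℝ) := by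
    intro i hi
    refine le_trans ?_ (sqrt_ge J)
    exact_mod_cast Nat.pow_le_pow_right (by norm_num) hi
  refine ⟨fun i => A₁ * (N ^ X * (((2 ^ i : ℕ) : ℝ) / N ^ (1 / 2 : ℝ)) ^ (2 * a - 1)),
    A₂ * N ^ (X - δ), ?_, ?_, ?_, ?_, ?_⟩
  · intro i
    have := hM0 i
    positivity
  · positivity
  · -- the first bound
    intro i hi X₀ P₀ hX₀ hP₀ hP₀' hPX
    have hMi := hM0 i
    set M : ℝ := ((2 ^ i : ℕ) : ℝ) with hMdef
    set V : ℝ := M / N ^ (1 / 2 : ℝ) with hVdef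
    have hV0 : 0 < V := div_pos hMi hs
    have hWN : ∀ t, 0 ≤ WW (2 ^ J) c t := fun t => le_trans (Nat.cast_nonneg _) (hW.ge _ c t)
    have hWM : ∀ t, 0 ≤ WW (2 ^ i) c t := fun t => le_trans (Nat.cast_nonneg _) (hW.ge _ c t)
    set K : ℝ := C ^ κ * C * (N ^ ((n : ℝ) * κ) * V ^ (2 * a) * M ^ (-(r : ℝ))) with hK
    have hK0 : 0 ≤ K := by
      have := Real.rpow_nonneg hC κ
      positivity
    have hrk : (r : ℝ) * κ = 2 * a := by rw [ha]; ring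
    have hpt : ∀ t, ai 0 X₀ P₀ t *
          ((C * (N ^ n * WW (2 ^ J) c t ^ ((r : ℝ) / 2) * V ^ r)) ^ κ *
            (C * (M ^ (-(r : ℝ)) * WW (2 ^ i) c t ^ ((r : ℝ) / 2)))) =
        K * (ai 0 X₀ P₀ t * (WW (2 ^ J) c t ^ a * WW (2 ^ i) c t ^ ((r : ℝ) / 2))) := by
      intro t
      rw [expand C N _ V κ n r hC hN0.le (hWN t) hV0.le, ← ha, hrk, hK]
      ring
    simp only [hpt]
    rw [intervalIntegral.integral_const_mul]
    have h1 := hmaj (2 ^ J) (2 ^ i) X₀ P₀ Nat.one_le_two_pow (by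
      rw [← pow_mul]
      exact Nat.pow_le_pow_right (by norm_num) (by omega)) hX₀ hP₀ hP₀' hPX
    refine le_trans (mul_le_mul_of_nonneg_left h1 hK0) (le_of_eq ?_)
    rw [← hNdef, ← hMdef, Real.rpow_one, hK, hA₁]
    have e1 : M ^ (-(r : ℝ)) * M ^ (2 * ((r : ℝ) / 2)) = 1 := by
      rw [← Real.rpow_add hMi, show -(r : ℝ) + 2 * ((r : ℝ) / 2) = 0 by ring, Real.rpow_zero]
    have e2 : N ^ ((n : ℝ) * κ) * N ^ (2 * a - 2) = N ^ X := by
      rw [← Real.rpow_add hN0, hX]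
      congr 1
      ring
    have e3 : N ^ (1 / 2 : ℝ) / M = V⁻¹ := by
      rw [hVdef, inv_div]
    have e4 : V ^ (2 * a) * V⁻¹ = V ^ (2 * a - 1) := by
      rw [Real.rpow_sub_one hV0.ne', div_eq_mul_inv]
    rw [e3, ← e4, ← e2]
    calc C ^ κ * C * (N ^ ((n : ℝ) * κ) * V ^ (2 * a) * M ^ (-(r : ℝ))) *
          (C₁ * (N ^ (2 * a - 2) * M ^ (2 * ((r : ℝ) / 2)) * V⁻¹))
        = C ^ κ * C * C₁ * (N ^ ((n : ℝ) * κ) * N ^ (2 * a - 2) * (V ^ (2 * a) * V⁻¹)) *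
          (M ^ (-(r : ℝ)) * M ^ (2 * ((r : ℝ) / 2))) := by ring
      _ = _ := by rw [e1, mul_one]
  · -- the second bound
    intro i hi P hP hPN _
    exact second C N P ((2 ^ i : ℕ) : ℝ) κ ε η a n r hC hN1 hP (hM0 i) (hMN i hi) ha ha1 hεa hPN
  · -- the sum
    have hexp : (((n : ℝ) + r) * κ - 2) * (2 / p) = X * (2 / p) := by
      rw [hX, ha]
      ring
    rw [hexp, Finset.sum_add_distrib, add_mul]
    have hNX : 0 ≤ N ^ (X * (2 / p)) := Real.rpow_nonneg hN0.le _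
    have hpp : 0 < 2 / p := by positivity
    apply add_le_add
    · have h1 : ∀ i ∈ Finset.range (J / 2 + 1),
          (A₁ * (N ^ X * (((2 ^ i : ℕ) : ℝ) / N ^ (1 / 2 : ℝ)) ^ (2 * a - 1))) ^ (2 / p) ≤
            A₁ ^ (2 / p) * N ^ (X * (2 / p)) * q ^ (J / 2 - i) := by
        intro i hi
        rw [Finset.mem_range] at hi
        have hMi := hM0 i
        have hV0 : 0 < ((2 ^ i : ℕ) : ℝ) / N ^ (1 / 2 : ℝ) := div_pos hMi hs
        have e1 : 0 ≤ N ^ X := Real.rpow_nonneg hN0.le _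
        have e2 : 0 ≤ (((2 ^ i : ℕ) : ℝ) / N ^ (1 / 2 : ℝ)) ^ (2 * a - 1) :=
          Real.rpow_nonneg hV0.le _
        rw [Real.mul_rpow hA₁0 (mul_nonneg e1 e2), Real.mul_rpow e1 e2, ← Real.rpow_mul hN0.le,
          ← Real.rpow_mul hV0.le, mul_assoc]
        apply mul_le_mul_of_nonneg_left _ (Real.rpow_nonneg hA₁0 _)
        apply mul_le_mul_of_nonneg_left _ hNX
        rw [← hρ]
        have e3 : ((2 ^ i : ℕ) : ℝ) / N ^ (1 / 2 : ℝ) ≤ (2 : ℝ) ^ (-((J / 2 - i : ℕ) : ℝ)) := by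
          rw [Real.rpow_neg (by norm_num), Real.rpow_natCast, div_le_iff₀ hs]
          have e4 := sqrt_ge J
          have e5 : ((2 ^ (J / 2) : ℕ) : ℝ) = (2 : ℝ) ^ (J / 2 - i) * ((2 ^ i : ℕ) : ℝ) := by
            push_cast
            rw [← pow_add]
            congr 1
            omega
          have e6 : (0 : ℝ) < (2 : ℝ) ^ (J / 2 - i) := by positivity
          calc ((2 ^ i : ℕ) : ℝ) = ((2 : ℝ) ^ (J / 2 - i))⁻¹ * ((2 ^ (J / 2) : ℕ) : ℝ) := by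
                rw [e5]; field_simp
            _ ≤ ((2 : ℝ) ^ (J / 2 - i))⁻¹ * N ^ (1 / 2 : ℝ) :=
                mul_le_mul_of_nonneg_left e4 (by positivity)
        calc (((2 ^ i : ℕ) : ℝ) / N ^ (1 / 2 : ℝ)) ^ ρ
            ≤ ((2 : ℝ) ^ (-((J / 2 - i : ℕ) : ℝ))) ^ ρ := Real.rpow_le_rpow hV0.le e3 hρ0.le
          _ = q ^ (J / 2 - i) := by
              rw [hq, ← Real.rpow_natCast, ← Real.rpow_mul (by norm_num),
                ← Real.rpow_mul (by norm_num)]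
              congr 1
              ring
      refine le_trans (Finset.sum_le_sum h1) ?_
      rw [← Finset.mul_sum]
      have h2 := geom q hq0 hq1 (J / 2)
      calc A₁ ^ (2 / p) * N ^ (X * (2 / p)) * ∑ i ∈ Finset.range (J / 2 + 1), q ^ (J / 2 - i)
          ≤ A₁ ^ (2 / p) * N ^ (X * (2 / p)) * (1 / (1 - q)) :=
            mul_le_mul_of_nonneg_left h2 (mul_nonneg (Real.rpow_nonneg hA₁0 _) hNX)
        _ = A₁ ^ (2 / p) * (1 / (1 - q)) * N ^ (X * (2 / p)) := by ring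
    · rw [Finset.sum_const, Finset.card_range, nsmul_eq_mul]
      have hL : 0 ≤ Real.log N := Real.log_nonneg hN1
      have h1 : (A₂ * N ^ (X - δ)) ^ (2 / p) =
          A₂ ^ (2 / p) * N ^ (X * (2 / p)) * N ^ (-(δ * (2 / p))) := by
        rw [Real.mul_rpow hA₂0 (Real.rpow_nonneg hN0.le _), ← Real.rpow_mul hN0.le, mul_assoc,
          ← Real.rpow_add hN0]
        congr 2
        ring
      have h2 := card_le J
      rw [← hNdef] at h2
      have h3 := log_sq N (δ / p) hN1 (by positivity)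
      have h4 : N ^ (2 * (δ / p)) * N ^ (-(δ * (2 / p))) = 1 := by
        rw [← Real.rpow_add hN0, show 2 * (δ / p) + -(δ * (2 / p)) = 0 by ring, Real.rpow_zero]
      have h5 : 0 ≤ C * A₂ ^ (2 / p) * N ^ (X * (2 / p)) * N ^ (-(δ * (2 / p))) := by
        have := Real.rpow_nonneg hA₂0 (2 / p)
        positivity
      rw [h1]
      calc ((J / 2 + 1 : ℕ) : ℝ) * (C * (1 + Real.log N) *
            (A₂ ^ (2 / p) * N ^ (X * (2 / p)) * N ^ (-(δ * (2 / p)))))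
          = (((J / 2 + 1 : ℕ) : ℝ) * (1 + Real.log N)) *
            (C * A₂ ^ (2 / p) * N ^ (X * (2 / p)) * N ^ (-(δ * (2 / p)))) := by ring
        _ ≤ ((2 * (1 + Real.log N)) * (1 + Real.log N)) *
            (C * A₂ ^ (2 / p) * N ^ (X * (2 / p)) * N ^ (-(δ * (2 / p)))) := by
            apply mul_le_mul_of_nonneg_right _ h5
            exact mul_le_mul_of_nonneg_right h2 (by linarith)
        _ = (2 * (1 + Real.log N) ^ 2) *
            (C * A₂ ^ (2 / p) * N ^ (X * (2 / p)) * N ^ (-(δ * (2 / p)))) := by ring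
        _ ≤ (2 * ((1 + 1 / (δ / p)) ^ 2 * N ^ (2 * (δ / p)))) *
            (C * A₂ ^ (2 / p) * N ^ (X * (2 / p)) * N ^ (-(δ * (2 / p)))) := by
            apply mul_le_mul_of_nonneg_right _ h5
            linarith
        _ = C * A₂ ^ (2 / p) * (2 * (1 + 1 / (δ / p)) ^ 2) * N ^ (X * (2 / p)) *
            (N ^ (2 * (δ / p)) * N ^ (-(δ * (2 / p)))) := by ring
        _ = _ := by rw [h4, mul_one]

end

end SYM
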