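import Pool.Agent.SYM.StS
import Pool.Agent.LGR.HEIG

/-!
# Symmetric spaces, block S: module HEIS
-/

namespace SYM

open STZ LGR MeasureTheory Matrix Filter

open scoped ComplexConjugate Matrix Real Topology

noncomputable section

open LGR.HEIG

theorem t_HEIS : M_HEIS := by
  intro hCALH hLIEB hWFAC hRHOF hQUAD hTAUF hADFR hPGXX N H K σ τ r Φ B Hc E c k d X hH hS hSP hL hK hX
    ν f hf
  have hC := hCALH N H
  have hP := (hPGXX N H K σ τ hH hS hSP).1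
  have hT := hTAUF N H r Φ B Hc E hH hL
  have hR := (hRHOF r Φ B hL.ird (hWFAC r Φ B hL.ird)).1
  have hC1 : ∀ F ∈ PG H σ, C1H F := fun F hF => (hP.c2 F hF).1
  refine ⟨hP.c2 f hf.mem, fun g => ?_⟩
  obtain ⟨z, hz1, hz2⟩ := hK.z
  have key := (hADFR N H r Φ B Hc E c k d X hH hL hK hX).2 z hz1 (fun Y Z => dH Y (dH Z f) g)
    (by
      intro X hX Y hY Z hZ
      refine ⟨hP.add X hX Y hY _ (hP.d Z hZ f hf.mem) g, ?_⟩
      have h1 : dH (X + Y) f = fun g => dH X f g + dH Y f g := by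
        funext g
        exact hP.add X hX Y hY f hf.mem g
      simp only [h1]
      exact hC.dadd Z hZ _ _ (hC1 _ (hP.d X hX f hf.mem)) (hC1 _ (hP.d Y hY f hf.mem)) g)
    (by
      intro X hX Y hY s
      refine ⟨hP.smul X hX s _ (hP.d Y hY f hf.mem) g, ?_⟩
      have h1 : dH ((s : ℂ) • Y) f = fun g => (s : ℂ) * dH Y f g := by
        funext g
        exact hP.smul Y hY s f hf.mem g
      simp only [h1]
      exact dcmul hC hX _ _ (hC1 _ (hP.d Y hY f hf.mem)) g)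
  have hlap : lapH X f g = ∑ a, dH (X a) (dH (X a) f) g := rfl
  rw [hlap]
  refine key.trans ?_
  -- the torus
  have ht : ∀ x : Fin r → ℝ, dH (hx Hc x) (dH (hx Hc x) f) g =
      -(((∑ j, (ν j : ℝ) * x j) ^ 2 : ℝ) : ℂ) * f g := by
    intro x
    have h1 : dH (hx Hc x) f = fun g => (Complex.I * ((∑ j, (ν j : ℝ) * x j : ℝ) : ℂ)) * f g := by
      funext g
      exact hf.wt x g
    rw [h1, dcmul hC (hT.hmem x) _ _ (hC1 _ hf.mem) g, hf.wt x g]
    push_cast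
    have hI : Complex.I * Complex.I = -1 := Complex.I_mul_I
    linear_combination (∑ j, (ν j : ℂ) * (x j : ℂ)) ^ 2 * f g * hI
  have ht2 : ∑ j, dH (hx Hc (z j)) (dH (hx Hc (z j)) f) g =
      -((k / 2 * ((ν ⬝ᵥ ((rd Φ).A *ᵥ ν) : ℤ) : ℝ) : ℝ) : ℂ) * f g := by
    simp only [ht]
    rw [← Finset.sum_mul]
    congr 1
    rw [Finset.sum_neg_distrib, ← Complex.ofReal_sum]
    congr 2
    have h1 : ∀ j, (∑ i, (ν i : ℝ) * z j i) ^ 2 =
        ∑ a, ∑ b, (ν a : ℝ) * (ν b : ℝ) * (z j a * z j b) := by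
      intro j
      rw [sq, Finset.sum_mul_sum]
      exact Finset.sum_congr rfl fun a _ => Finset.sum_congr rfl fun b _ => by ring
    simp only [h1]
    rw [Finset.sum_comm]
    have h2 : ∀ a b, ∑ j, (ν a : ℝ) * (ν b : ℝ) * (z j a * z j b) =
        (ν a : ℝ) * (ν b : ℝ) * (k / 2 * ((rd Φ).A a b : ℝ)) := by
      intro a b
      rw [← Finset.mul_sum, hz2]
    have h3 : ∀ a, ∑ j, ∑ b, (ν a : ℝ) * (ν b : ℝ) * (z j a * z j b) =
        ∑ b, (ν a : ℝ) * (ν b : ℝ) * (k / 2 * ((rd Φ).A a b : ℝ)) := by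
      intro a
      rw [Finset.sum_comm]
      exact Finset.sum_congr rfl fun b _ => h2 a b
    simp only [h3, dotProduct, Matrix.mulVec, Int.cast_sum, Int.cast_mul, Finset.mul_sum]
    exact Finset.sum_congr rfl fun a _ => Finset.sum_congr rfl fun b _ => by ring
  -- the roots
  have hr : ∀ p ∈ pos Φ, (1 / ((2 * c * (E p * (E p)ᴴ).trace.re : ℝ) : ℂ)) *
      (dH (E p - (E p)ᴴ) (dH (E p - (E p)ᴴ) f) g +
        dH (Complex.I • (E p + (E p)ᴴ)) (dH (Complex.I • (E p + (E p)ᴴ)) f) g) =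
      -((k / 2 * ((p.1 ⬝ᵥ ((rd Φ).A *ᵥ ν) : ℤ) : ℝ) : ℝ) : ℂ) * f g := by
    intro p hp
    have hpΦ : p ∈ Φ := (Finset.mem_filter.1 hp).1
    obtain ⟨hu, hv⟩ := hL.emem p hpΦ
    have hbr := brac hL p hpΦ
    set u := E p - (E p)ᴴ with hudef
    set v := Complex.I • (E p + (E p)ᴴ) with hvdef
    have h1 : dH u f = fun g => Complex.I * dH v f g := by
      funext g
      exact hf.hw p hp g
    have hI : Complex.I * Complex.I = -1 := Complex.I_mul_I
    have h2 : dH v f = fun g => (-Complex.I) * dH u f g := by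
      funext g
      rw [h1]
      linear_combination (dH v f g) * hI
    have h3 : dH u (dH u f) g = Complex.I * dH u (dH v f) g := by
      conv_lhs => rw [h1]
      exact dcmul hC hu _ _ (hC1 _ (hP.d v hv f hf.mem)) g
    have h4 : dH v (dH v f) g = -Complex.I * dH v (dH u f) g := by
      conv_lhs => rw [h2]
      exact dcmul hC hv _ _ (hC1 _ (hP.d u hu f hf.mem)) g
    have h5 := hP.comm u hu v hv f hf.mem g
    rw [hbr, hf.wt] at h5
    have h6 : (∑ j, (ν j : ℝ) * (2 * (p.2 j : ℝ)) : ℝ) = 2 * ((p.2 ⬝ᵥ ν : ℤ) : ℝ) := by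
      simp only [dotProduct, Int.cast_sum, Int.cast_mul, Finset.mul_sum]
      exact Finset.sum_congr rfl fun j _ => by ring
    rw [h6, hK.p p hpΦ ν] at h5
    have h7 : dH u (dH u f) g + dH v (dH v f) g =
        -2 * ((c * (E p * (E p)ᴴ).trace.re * (k / 2) *
          ((p.1 ⬝ᵥ ((rd Φ).A *ᵥ ν) : ℤ) : ℝ) : ℝ) : ℂ) * f g := by
      rw [h3, h4]
      push_cast at h5 ⊢
      linear_combination Complex.I * h5 + 2 * (c * (E p * (E p)ᴴ).trace.re * (k / 2) *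
          ((p.1 ⬝ᵥ ((rd Φ).A *ᵥ ν) : ℤ) : ℂ)) * f g * hI
    rw [h7]
    have hc : (c : ℂ) ≠ 0 := by exact_mod_cast hK.cpos.ne'
    have hτ : ((E p * (E p)ᴴ).trace.re : ℂ) ≠ 0 := by exact_mod_cast (hT.pos p hpΦ).1.ne'
    push_cast
    field_simp
  rw [ht2, Finset.sum_congr rfl hr, ← Finset.sum_mul, ← add_mul]
  congr 1
  rw [Finset.sum_neg_distrib, ← Complex.ofReal_sum, ← neg_add, ← Complex.ofReal_add]
  congr 2
  rw [← Finset.mul_sum, ← mul_add]
  have h8 : ∑ p ∈ pos Φ, ((p.1 ⬝ᵥ ((rd Φ).A *ᵥ ν) : ℤ) : ℝ) =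
      ((2 * ((1 : Fin r → ℤ) ⬝ᵥ ((rd Φ).A *ᵥ ν)) : ℤ) : ℝ) := by
    rw [← Int.cast_sum]
    congr 1
    rw [← sum_dotProduct, hR]
    simp only [dotProduct, Pi.one_apply, one_mul, Finset.mul_sum]
  rw [h8, ← Int.cast_add, quad]
  push_cast
  ring

end

end SYM
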