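import Pool.Agent.SYM.StS
import Pool.Agent.LGR.HEXI
import Pool.Agent.LGR.HEIG

/-!
# Module HWVX: the highest weight vector of an irreducible representation
-/

namespace SYM

open STZ LGR MeasureTheory Matrix Filter

open scoped ComplexConjugate Matrix Real Topology

noncomputable section

namespace HWVX

open LGR.HEXI

/-- the matrix coefficient of two vectors -/
def mc {N : ℕ} {H : Subgroup (SU N)} {n : ℕ} (σ : Rep H (Fin n)) (u v : Fin n → ℂ) (g : H) : ℂ :=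
  u ⬝ᵥ (σ.ρ g *ᵥ v)

lemma mc_eq {N : ℕ} {H : Subgroup (SU N)} {n : ℕ} (σ : Rep H (Fin n)) (u v : Fin n → ℂ) (g : H) :
    mc σ u v g = ∑ i, ∑ j, (u i * v j) * σ.ρ g i j := by
  unfold mc
  simp only [dotProduct, mulVec, Finset.mul_sum]
  refine Finset.sum_congr rfl fun i _ => Finset.sum_congr rfl fun j _ => ?_
  ring

lemma mc_one {N : ℕ} {H : Subgroup (SU N)} {n : ℕ} (σ : Rep H (Fin n)) (u v : Fin n → ℂ) :
    mc σ u v 1 = u ⬝ᵥ v := by
  unfold mc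
  rw [map_one, one_mulVec]

lemma single_dot {n : ℕ} (i : Fin n) (v : Fin n → ℂ) : (Pi.single i 1 : Fin n → ℂ) ⬝ᵥ v = v i := by
  rw [single_one_dotProduct]

lemma dH_mc {N : ℕ} {H : Subgroup (SU N)} (hP : PFF H) {n : ℕ} (σ : Rep H (Fin n)) (hσ : PRep σ) (hD : DRF σ)
    (u v : Fin n → ℂ) (X : Matrix (Fin N) (Fin N) ℂ) (hX : X ∈ lie H) (g : H) :
    dH X (mc σ u v) g = mc σ u (dr σ X *ᵥ v) g := by
  have h1 : ∀ i j, HasDerivAt (fun t : ℝ => σ.ρ (g * exH H X t) i j) ((σ.ρ g * dr σ X) i j) 0 := by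
    intro i j
    have h2 : DifferentiableAt ℝ (fun t : ℝ => σ.ρ (g * exH H X t) i j) 0 := ((hP.c2 _ (hσ i j)).1).diff X hX g
    have h3 := h2.hasDerivAt
    have h4 : deriv (fun t : ℝ => σ.ρ (g * exH H X t) i j) 0 = (σ.ρ g * dr σ X) i j := hD.d X hX g i j
    rw [h4] at h3
    exact h3
  have h5 : HasDerivAt (fun t : ℝ => mc σ u v (g * exH H X t))
      (∑ i, ∑ j, (u i * v j) * (σ.ρ g * dr σ X) i j) 0 := by
    have h6 : HasDerivAt (fun t : ℝ => ∑ i, ∑ j, (u i * v j) * σ.ρ (g * exH H X t) i j)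
        (∑ i, ∑ j, (u i * v j) * (σ.ρ g * dr σ X) i j) 0 := by
      refine HasDerivAt.fun_sum fun i _ => HasDerivAt.fun_sum fun j _ => ?_
      exact (h1 i j).const_mul _
    have h7 : (fun t : ℝ => mc σ u v (g * exH H X t)) =
        fun t : ℝ => ∑ i, ∑ j, (u i * v j) * σ.ρ (g * exH H X t) i j := by
      funext t
      exact mc_eq σ u v _
    rw [h7]
    exact h6
  have h8 : dH X (mc σ u v) g = ∑ i, ∑ j, (u i * v j) * (σ.ρ g * dr σ X) i j := h5.deriv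
  rw [h8]
  unfold mc
  rw [mulVec_mulVec]
  simp only [dotProduct, mulVec, Finset.mul_sum]
  refine Finset.sum_congr rfl fun i _ => Finset.sum_congr rfl fun j _ => ?_
  ring

lemma lap_mc {N : ℕ} {H : Subgroup (SU N)} (hP : PFF H) {n : ℕ} (σ : Rep H (Fin n)) (hσ : PRep σ) (hD : DRF σ)
    (u v : Fin n → ℂ) {D : ℕ} (X : Fin D → Matrix (Fin N) (Fin N) ℂ) (hX : ∀ a, X a ∈ lie H) (g : H) :
    lapH X (mc σ u v) g = mc σ u ((∑ a, dr σ (X a) * dr σ (X a)) *ᵥ v) g := by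
  unfold lapH
  have h1 : ∀ a, dH (X a) (dH (X a) (mc σ u v)) g = mc σ u ((dr σ (X a) * dr σ (X a)) *ᵥ v) g := by
    intro a
    have h2 : dH (X a) (mc σ u v) = mc σ u (dr σ (X a) *ᵥ v) := by
      funext g
      exact dH_mc hP σ hσ hD u v (X a) (hX a) g
    rw [h2, dH_mc hP σ hσ hD u _ (X a) (hX a) g, mulVec_mulVec]
  rw [Finset.sum_congr rfl fun a _ => h1 a]
  unfold mc
  rw [sum_mulVec, mulVec_sum, dotProduct_sum]

/-- the Casimir element -/
lemma cas {N : ℕ} {H : Subgroup (SU N)} (hP : PFF H) {n : ℕ} (σ : Rep H (Fin n)) (hσ : PRep σ) (hD : DRF σ)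
    {D : ℕ} (X : Fin D → Matrix (Fin N) (Fin N) ℂ) (hX : ∀ a, X a ∈ lie H) (κ : ℝ)
    (h : ∀ i j, EigH X κ (fun g => σ.ρ g i j)) :
    ∑ a, dr σ (X a) * dr σ (X a) = -(κ : ℂ) • (1 : Matrix (Fin n) (Fin n) ℂ) := by
  ext i j
  have h1 : (fun g => σ.ρ g i j) = mc σ (Pi.single i 1) (Pi.single j 1) := by
    funext g
    unfold mc
    rw [single_dot, mulVec_single_one]
    rfl
  have h2 := (h i j).2 1
  rw [h1, lap_mc hP σ hσ hD _ _ X hX, mc_one, mc_one, single_dot, single_dot, mulVec_single_one] at h2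
  rw [Matrix.smul_apply, smul_eq_mul]
  have h3 : (1 : Matrix (Fin n) (Fin n) ℂ) i j = (Pi.single j 1 : Fin n → ℂ) i := by
    rw [Matrix.one_apply, Pi.single_apply]
  rw [h3]
  exact h2

lemma mc_rt {N : ℕ} {H : Subgroup (SU N)} {r : ℕ} {Hc : Fin r → Matrix (Fin N) (Fin N) ℂ} {n : ℕ} {σ : Rep H (Fin n)}
    {ν : Fin r → ℤ} {v : Fin n → ℂ} (hv : WV Hc σ ν v) (u : Fin n → ℂ) (t g : H) (θ : Fin r → ℝ)
    (ht : t.1 = ta Hc θ) : mc σ u v (g * t) = eu (dz ν θ) * mc σ u v g := by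
  unfold mc
  rw [map_mul, ← mulVec_mulVec, hv t θ ht, mulVec_smul, dotProduct_smul, smul_eq_mul]

lemma mc_wt {N : ℕ} {H : Subgroup (SU N)} {r : ℕ} {Hc : Fin r → Matrix (Fin N) (Fin N) ℂ} {n : ℕ} {σ : Rep H (Fin n)}
    {ν : Fin r → ℤ} {v : Fin n → ℂ} (hv : WV Hc σ ν v) (u : Fin n → ℂ) (hm : ∀ x, hx Hc x ∈ lie H)
    (x : Fin r → ℝ) (g : H) :
    dH (hx Hc x) (mc σ u v) g = Complex.I * ((∑ j, (ν j : ℝ) * x j : ℝ) : ℂ) * mc σ u v g := by
  have h1 : (fun t : ℝ => mc σ u v (g * exH H (hx Hc x) t)) =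
      fun t : ℝ => Complex.exp ((t : ℂ) * (Complex.I * ((∑ j, (ν j : ℝ) * x j : ℝ) : ℂ))) * mc σ u v g := by
    funext t
    rw [mc_rt hv u (exH H (hx Hc x) t) g (fun j => t * x j / (2 * π)) (by rw [exH_val (hm x), ta_ex])]
    congr 1
    unfold eu dz
    congr 1
    have hpi : (π : ℂ) ≠ 0 := by exact_mod_cast Real.pi_ne_zero
    push_cast
    rw [Finset.mul_sum, Finset.sum_mul, Finset.mul_sum, Finset.mul_sum]
    refine Finset.sum_congr rfl fun j _ => ?_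
    field_simp
  unfold dH
  rw [h1]
  have h2 : HasDerivAt (fun t : ℝ => Complex.exp ((t : ℂ) * (Complex.I * ((∑ j, (ν j : ℝ) * x j : ℝ) : ℂ))) *
        mc σ u v g)
      (Complex.exp (((0 : ℝ) : ℂ) * (Complex.I * ((∑ j, (ν j : ℝ) * x j : ℝ) : ℂ))) *
        (1 * (Complex.I * ((∑ j, (ν j : ℝ) * x j : ℝ) : ℂ))) * mc σ u v g) 0 := by
    refine HasDerivAt.mul_const ?_ _
    refine HasDerivAt.cexp ?_
    refine HasDerivAt.mul_const ?_ _
    exact Complex.ofRealCLM.hasDerivAt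
  rw [h2.deriv]
  simp

/-- a weight vector for the torus is one for the Lie algebra -/
lemma dr_wt {N : ℕ} {H : Subgroup (SU N)} (hP : PFF H) {r : ℕ} {Hc : Fin r → Matrix (Fin N) (Fin N) ℂ} {n : ℕ}
    {σ : Rep H (Fin n)} (hσ : PRep σ) (hD : DRF σ) {ν : Fin r → ℤ} {v : Fin n → ℂ} (hv : WV Hc σ ν v)
    (hm : ∀ x, hx Hc x ∈ lie H) (x : Fin r → ℝ) :
    dr σ (hx Hc x) *ᵥ v = (Complex.I * ((∑ j, (ν j : ℝ) * x j : ℝ) : ℂ)) • v := by
  funext i
  have h1 := mc_wt hv (Pi.single i 1) hm x 1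
  rw [dH_mc hP σ hσ hD _ _ _ (hm x), mc_one, mc_one, single_dot, single_dot] at h1
  rw [h1, Pi.smul_apply, smul_eq_mul]

lemma star_dot {n : ℕ} (U : Matrix (Fin n) (Fin n) ℂ) (hU : U * Uᴴ = 1) (v : Fin n → ℂ) :
    star v ⬝ᵥ v = star (Uᴴ *ᵥ v) ⬝ᵥ (Uᴴ *ᵥ v) := by
  rw [star_mulVec, conjTranspose_conjTranspose, ← dotProduct_mulVec, mulVec_mulVec, hU, one_mulVec]

lemma skew_pair {n : ℕ} (A : Matrix (Fin n) (Fin n) ℂ) (hA : Aᴴ = -A) (v : Fin n → ℂ) :
    star v ⬝ᵥ ((A * A) *ᵥ v) = -(star (A *ᵥ v) ⬝ᵥ (A *ᵥ v)) := by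
  rw [star_mulVec, hA, vecMul_neg, neg_dotProduct, neg_neg, ← dotProduct_mulVec, mulVec_mulVec]

/-- the coordinates of the weight of a highest weight vector are not negative -/
lemma dom {N : ℕ} {H : Subgroup (SU N)} {l : ℕ} {Φ : RT l} {B : Matrix (Fin l) (Fin l) ℤ}
    {Hc : Fin l → Matrix (Fin N) (Fin N) ℂ} {E : (Fin l → ℤ) × (Fin l → ℤ) → Matrix (Fin N) (Fin N) ℂ}
    (hL : LRD H Φ B Hc E) {n : ℕ} {ρ : Rep H (Fin n)} (hD : DRF ρ)
    {ν : Fin l → ℤ} {v : Fin n → ℂ} (hv : HWV Φ Hc E ρ ν v) (h0 : v ≠ 0) (i : Fin l) : 0 ≤ ν i := by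
  set p : (Fin l → ℤ) × (Fin l → ℤ) := (B i, Pi.single i 1) with hp
  have hpΦ : p ∈ Φ := hL.ird.base i
  have hpp : p ∈ pos Φ := by
    unfold pos
    rw [Finset.mem_filter]
    refine ⟨hpΦ, fun j => ?_⟩
    by_cases hj : j = i
    · subst hj
      simp [hp]
    · simp [hp, Pi.single_eq_of_ne hj]
  obtain ⟨hu, hw⟩ := hL.emem p hpΦ
  have hbr := HEIG.brac hL p hpΦ
  have hhw := hv.hw p hpp
  set u := E p - (E p)ᴴ with hudef
  set w := Complex.I • (E p + (E p)ᴴ) with hwdef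
  have hI : Complex.I * Complex.I = -1 := Complex.I_mul_I
  have h1 := hD.br u hu w hw
  rw [hbr] at h1
  have h2 : dr ρ w *ᵥ v = -(Complex.I • (dr ρ u *ᵥ v)) := by
    rw [hhw, smul_smul, hI, neg_one_smul, neg_neg]
  have h3 : (dr ρ u * dr ρ u) *ᵥ v + (dr ρ w * dr ρ w) *ᵥ v = Complex.I • ((dr ρ (hx Hc fun j => 2 * (p.2 j : ℝ))) *ᵥ v) := by
    have ha : (dr ρ u * dr ρ u) *ᵥ v = Complex.I • ((dr ρ u * dr ρ w) *ᵥ v) := by
      rw [← mulVec_mulVec, hhw, mulVec_smul, mulVec_mulVec]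
    have hb : (dr ρ w * dr ρ w) *ᵥ v = -(Complex.I • ((dr ρ w * dr ρ u) *ᵥ v)) := by
      rw [← mulVec_mulVec, h2, mulVec_neg, mulVec_smul, mulVec_mulVec]
    rw [h1, sub_mulVec, ha, hb, smul_sub, sub_eq_add_neg]
  have h4 : (∑ j, (ν j : ℝ) * (2 * (p.2 j : ℝ)) : ℝ) = 2 * (ν i : ℝ) := by
    rw [Finset.sum_eq_single i]
    · simp [hp]
      ring
    · intro j _ hj
      simp [hp, Pi.single_eq_of_ne hj]
    · intro h
      exact absurd (Finset.mem_univ i) h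
  rw [hv.wt, h4, smul_smul] at h3
  have h5 := congrArg (fun z => star v ⬝ᵥ z) h3
  simp only [dotProduct_add, dotProduct_smul, smul_eq_mul] at h5
  rw [skew_pair _ (hD.skew u hu), skew_pair _ (hD.skew w hw), nsq_eq, nsq_eq, nsq_eq] at h5
  have h6 : -(∑ j, ‖(dr ρ u *ᵥ v) j‖ ^ 2) + -(∑ j, ‖(dr ρ w *ᵥ v) j‖ ^ 2) = -(2 * (ν i : ℝ)) * ∑ j, ‖v j‖ ^ 2 := by
    have h7 : Complex.I * (Complex.I * ((2 * (ν i : ℝ) : ℝ) : ℂ)) = ((-(2 * (ν i : ℝ)) : ℝ) : ℂ) := by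
      rw [← mul_assoc, hI]
      push_cast
      ring
    rw [h7] at h5
    exact_mod_cast h5
  have h8 : 0 < ∑ j, ‖v j‖ ^ 2 := by
    obtain ⟨j, hj⟩ : ∃ j, v j ≠ 0 := by
      by_contra hno
      push Not at hno
      exact h0 (funext hno)
    have h9 : ‖v j‖ ^ 2 ≤ ∑ j, ‖v j‖ ^ 2 :=
      Finset.single_le_sum (f := fun j => ‖v j‖ ^ 2) (fun _ _ => by positivity) (Finset.mem_univ j)
    have h10 : 0 < ‖v j‖ := norm_pos_iff.2 hj
    have h11 : 0 < ‖v j‖ ^ 2 := by positivity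
    linarith
  have h9 : 0 ≤ ∑ j, ‖(dr ρ u *ᵥ v) j‖ ^ 2 := Finset.sum_nonneg fun _ _ => by positivity
  have h10 : 0 ≤ ∑ j, ‖(dr ρ w *ᵥ v) j‖ ^ 2 := Finset.sum_nonneg fun _ _ => by positivity
  by_contra hneg
  push Not at hneg
  have h11 : (ν i : ℝ) ≤ -1 := by
    have : ν i ≤ -1 := by omega
    exact_mod_cast this
  nlinarith

end HWVX

open HWVX LGR.HEXI in
theorem t_HWVX : M_HWVX := by
  intro hCAL hLIE hWFA hRHO hQUA hPFF hDRE hTAU hTRE hTPO hADF hHGT hQCM N H l Φ B Hc E c k D X hcl hL hKC hF n ρ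
    hirr hρ lam hH
  have hP : PFF H := hPFF N H hcl
  have hT : TAF H Φ Hc E := hTAU N H l Φ B Hc E hcl hL
  have hW : WFF Φ B := hWFA l Φ B hL.ird
  have hD : DRF ρ := hDRE N H n ρ hcl hρ
  have hHEI : S_HEIG := t_HEIG hCAL hLIE hWFA hRHO hQUA hPFF hTAU hADF
  obtain ⟨U, μ, hU1, hU2, hU⟩ := hTRE N H l Φ B Hc E hcl hL n ρ hρ
  -- the multiplicities
  set m : (Fin l → ℤ) →₀ ℤ := ∑ k, Finsupp.single (μ k) 1 with hm
  have hmv : ∀ ν, m ν = ∑ k, if μ k = ν then (1 : ℤ) else 0 := by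
    intro ν
    rw [hm, Finsupp.finsetSum_apply]
    exact Finset.sum_congr rfl fun k _ => Finsupp.single_apply
  have htp : ∀ θ, tp m θ = ∑ k, eu (dz (μ k) θ) := by
    intro θ
    have h1 : ∀ s : Finset (Fin n), tp (∑ k ∈ s, Finsupp.single (μ k) (1 : ℤ)) θ = ∑ k ∈ s, eu (dz (μ k) θ) := by
      intro s
      induction s using Finset.induction_on with
      | empty => simp [tp]
      | insert a s ha ih =>
        rw [Finset.sum_insert ha, Finset.sum_insert ha, ← ih]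
        unfold tp
        rw [Finsupp.sum_add_index' (by intro a; simp) (by intro a b c; push_cast; ring)]
        rw [Finsupp.sum_single_index (by simp)]
        simp
    exact h1 Finset.univ
  have hAT : ∀ θ, AT (rd Φ) 1 θ * tp m θ = AT (rd Φ) lam θ := by
    intro θ
    have h1 := hH.wcf ⟨ta Hc θ, hT.mem θ⟩ θ rfl
    rw [htp]
    rw [← h1]
    congr 1
    unfold Rep.ch
    rw [hU ⟨ta Hc θ, hT.mem θ⟩ θ rfl, Matrix.trace_mul_comm, ← Matrix.mul_assoc, hU2, Matrix.one_mul, Matrix.trace_diagonal]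
  obtain ⟨hm1, hm2⟩ := hHGT l Φ B hL.ird hW lam hH.reg m hAT
  obtain ⟨k0, hk0⟩ : ∃ k0, μ k0 = lam - 1 := by
    by_contra hno
    push Not at hno
    rw [hmv, Finset.sum_eq_zero (fun k _ => if_neg (hno k))] at hm1
    exact absurd hm1 (by norm_num)
  have hk0u : ∀ k1, μ k1 = lam - 1 → k1 = k0 := by
    intro k1 hk1
    by_contra hne
    rw [hmv] at hm1
    have h1 : (2 : ℤ) ≤ ∑ j, if μ j = lam - 1 then (1 : ℤ) else 0 := by
      calc (2 : ℤ) = ∑ j ∈ ({k0, k1} : Finset (Fin n)), if μ j = lam - 1 then (1 : ℤ) else 0 := by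
            rw [Finset.sum_pair (Ne.symm hne), if_pos hk0, if_pos hk1]
            norm_num
        _ ≤ _ := Finset.sum_le_sum_of_subset_of_nonneg (Finset.subset_univ _)
            (fun j _ _ => by split_ifs <;> norm_num)
    omega
  have hmpos : ∀ k, m (μ k) ≠ 0 := by
    intro k
    rw [hmv]
    have h1 : (1 : ℤ) ≤ ∑ j, if μ j = μ k then (1 : ℤ) else 0 := by
      calc (1 : ℤ) = if μ k = μ k then (1 : ℤ) else 0 := by rw [if_pos rfl]
        _ ≤ ∑ j, if μ j = μ k then (1 : ℤ) else 0 :=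
          Finset.single_le_sum (f := fun j => if μ j = μ k then (1 : ℤ) else 0)
            (fun j _ => by split_ifs <;> norm_num) (Finset.mem_univ k)
    omega
  -- vectors all of whose coordinates have the same weight
  have hWVc : ∀ (ν : Fin l → ℤ) (z : Fin n → ℂ), (∀ k, (Uᴴ *ᵥ z) k ≠ 0 → μ k = ν) → WV Hc ρ ν z := by
    intro ν z hz t θ ht
    rw [hU t θ ht, ← mulVec_mulVec, ← mulVec_mulVec]
    have h1 : Matrix.diagonal (fun k => eu (dz (μ k) θ)) *ᵥ (Uᴴ *ᵥ z) = eu (dz ν θ) • (Uᴴ *ᵥ z) := by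
      funext i
      rw [mulVec_diagonal, Pi.smul_apply, smul_eq_mul]
      by_cases hi : (Uᴴ *ᵥ z) i = 0
      · rw [hi, mul_zero, mul_zero]
      · rw [hz i hi]
    rw [h1, mulVec_smul, mulVec_mulVec, hU1, one_mulVec]
  -- the highest weight vector
  set v : Fin n → ℂ := U *ᵥ Pi.single k0 1 with hv
  have hUv : Uᴴ *ᵥ v = Pi.single k0 1 := by
    rw [hv, mulVec_mulVec, hU2, one_mulVec]
  have hvv : star v ⬝ᵥ v = 1 := by
    rw [star_dot U hU1, hUv]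
    simp
  have hWV : WV Hc ρ (lam - 1) v := by
    refine hWVc _ _ fun k hk => ?_
    rw [hUv] at hk
    by_cases hkk : k = k0
    · rw [hkk, hk0]
    · exact absurd (Pi.single_eq_of_ne hkk _) hk
  -- the root vectors annihilate the vector
  have hann : ∀ p ∈ pos Φ, Ad ρ (E p) *ᵥ v = 0 := by
    intro p hp
    obtain ⟨hpΦ, _, _, n', hn'1, hn'2⟩ := hW.ppos p hp
    have hem := hL.emem p hpΦ
    set w : Fin n → ℂ := Ad ρ (E p) *ᵥ v with hw
    have h1 : ∀ (t : H) (θ : Fin l → ℝ), t.1 = ta Hc θ → ρ.ρ t *ᵥ w = (eu (dz p.1 θ) * eu (dz (lam - 1) θ)) • w := by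
      intro t θ ht
      have h2 := ad_eig (hLIE N H hcl) hT hD p hpΦ hem.1 hem.2 t θ ht
      have h3 : ρ.ρ t * Ad ρ (E p) = eu (dz p.1 θ) • (Ad ρ (E p) * ρ.ρ t) := by
        rw [← Matrix.smul_mul, ← h2, Matrix.mul_assoc, unit_left, Matrix.mul_one]
      rw [hw, mulVec_mulVec, h3, smul_mulVec, ← mulVec_mulVec, hWV t θ ht, mulVec_smul, smul_smul]
    have h4 : ∀ k, (Uᴴ *ᵥ w) k = 0 := by
      intro k
      by_contra hne
      have h5 : ∀ θ : Fin l → ℝ, eu (dz (μ k) θ) = eu (dz (p.1 + (lam - 1)) θ) := by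
        intro θ
        have h6 := h1 ⟨ta Hc θ, hT.mem θ⟩ θ rfl
        rw [hU ⟨ta Hc θ, hT.mem θ⟩ θ rfl] at h6
        have h7 := congrArg (fun z => (Uᴴ *ᵥ z) k) h6
        simp only [mulVec_mulVec, mulVec_smul] at h7
        rw [← Matrix.mul_assoc, ← Matrix.mul_assoc, hU2, Matrix.one_mul, ← mulVec_mulVec, mulVec_diagonal,
          Pi.smul_apply, smul_eq_mul] at h7
        have h8 := mul_right_cancel₀ hne h7
        rw [h8, ← eu_add]
        congr 1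
        unfold dz
        rw [← Finset.sum_add_distrib]
        refine Finset.sum_congr rfl fun j _ => ?_
        rw [Pi.add_apply]
        push_cast
        ring
      have h9 := dz_inj hTPO _ _ h5
      obtain ⟨n2, hn2, hn2'⟩ := hm2 (μ k) (hmpos k)
      refine root_contra hL.ird p hpΦ n' n2 hn'1 hn'2 hn2 ?_
      rw [← hn2', h9]
      abel
    have h10 : w = U *ᵥ (Uᴴ *ᵥ w) := by rw [mulVec_mulVec, hU1, one_mulVec]
    have h11 : Uᴴ *ᵥ w = 0 := funext h4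
    rw [h10, h11, mulVec_zero]
  refine ⟨v, hvv, ⟨dr_wt hP hρ hD hWV hT.hmem, ?_⟩, ?_⟩
  · intro p hp
    have h1 := hann p hp
    unfold Ad at h1
    rw [sub_mulVec, smul_mulVec, sub_eq_zero] at h1
    exact h1
  -- uniqueness
  intro ν v' hv' hv0
  -- the torus part of the differential
  have hdiag : ∀ x : Fin l → ℝ, Uᴴ * dr ρ (hx Hc x) =
      Matrix.diagonal (fun k => Complex.I * ((∑ j, (μ k j : ℝ) * x j : ℝ) : ℂ)) * Uᴴ := by
    intro x
    have h1 : dr ρ (hx Hc x) * U =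
        U * Matrix.diagonal (fun k => Complex.I * ((∑ j, (μ k j : ℝ) * x j : ℝ) : ℂ)) := by
      apply Matrix.ext_of_mulVec_single
      intro k
      rw [← mulVec_mulVec, ← mulVec_mulVec]
      have h2 : WV Hc ρ (μ k) (U *ᵥ Pi.single k 1) := by
        refine hWVc _ _ fun k' hk' => ?_
        rw [mulVec_mulVec, hU2, one_mulVec] at hk'
        by_cases hkk : k' = k
        · rw [hkk]
        · exact absurd (Pi.single_eq_of_ne hkk _) hk'
      rw [dr_wt hP hρ hD h2 hT.hmem]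
      rw [← mulVec_smul]
      congr 1
      funext i
      rw [mulVec_diagonal, Pi.smul_apply, smul_eq_mul]
      by_cases hi : i = k
      · rw [hi]
      · rw [Pi.single_eq_of_ne hi, mul_zero, mul_zero]
    calc Uᴴ * dr ρ (hx Hc x) = Uᴴ * dr ρ (hx Hc x) * (U * Uᴴ) := by rw [hU1, Matrix.mul_one]
      _ = Uᴴ * (dr ρ (hx Hc x) * U) * Uᴴ := by simp only [Matrix.mul_assoc]
      _ = _ := by rw [h1, ← Matrix.mul_assoc, hU2, Matrix.one_mul]
  have hcoord : ∀ k, (Uᴴ *ᵥ v') k ≠ 0 → μ k = ν := by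
    intro k hk
    have h1 : ∀ x : Fin l → ℝ, (∑ j, (μ k j : ℝ) * x j : ℝ) = ∑ j, (ν j : ℝ) * x j := by
      intro x
      have h2 := hv'.wt x
      have h3 := congrArg (fun z => (Uᴴ *ᵥ z) k) h2
      simp only [mulVec_mulVec, mulVec_smul] at h3
      rw [hdiag x, ← mulVec_mulVec, mulVec_diagonal, Pi.smul_apply, smul_eq_mul] at h3
      have h4 := mul_right_cancel₀ hk h3
      have h5 := mul_left_cancel₀ Complex.I_ne_zero h4
      exact_mod_cast h5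
    funext j
    have h2 := h1 (Pi.single j 1)
    simp only [Pi.single_apply, mul_ite, mul_one, mul_zero, Finset.sum_ite_eq', Finset.mem_univ, if_true] at h2
    exact_mod_cast h2
  have hexp : v' = U *ᵥ (Uᴴ *ᵥ v') := by rw [mulVec_mulVec, hU1, one_mulVec]
  obtain ⟨k1, hk1⟩ : ∃ k1, (Uᴴ *ᵥ v') k1 ≠ 0 := by
    by_contra hno
    push Not at hno
    have h1 : Uᴴ *ᵥ v' = 0 := funext hno
    rw [h1, mulVec_zero] at hexp
    exact hv0 hexp
  obtain ⟨nn, hnn, hnn'⟩ := hm2 (μ k1) (hmpos k1)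
  rw [hcoord k1 hk1] at hnn'
  have hWV' : WV Hc ρ ν v' := hWVc ν v' hcoord
  have hdom : ∀ i, 0 ≤ ν i := dom hL hD hv' hv0
  -- the Casimir element
  have hQ : (rd Φ).Q lam = (rd Φ).Q (ν + 1) := by
    -- a unit vector
    have hs : 0 < ∑ j, ‖v' j‖ ^ 2 := by
      obtain ⟨j, hj⟩ : ∃ j, v' j ≠ 0 := by
        by_contra hno
        push Not at hno
        exact hv0 (funext hno)
      have h9 : ‖v' j‖ ^ 2 ≤ ∑ j, ‖v' j‖ ^ 2 :=
        Finset.single_le_sum (f := fun j => ‖v' j‖ ^ 2) (fun _ _ => by positivity) (Finset.mem_univ j)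
      have h10 : 0 < ‖v' j‖ := norm_pos_iff.2 hj
      have h11 : 0 < ‖v' j‖ ^ 2 := by positivity
      linarith
    set s : ℝ := ∑ j, ‖v' j‖ ^ 2 with hsdef
    set a : ℝ := 1 / Real.sqrt s with ha
    set w : Fin n → ℂ := (a : ℂ) • v' with hw
    have hww : star w ⬝ᵥ w = 1 := by
      rw [nsq_eq]
      have h1 : ∑ i, ‖w i‖ ^ 2 = 1 := by
        have h2 : ∀ i, ‖w i‖ ^ 2 = a ^ 2 * ‖v' i‖ ^ 2 := by
          intro i
          rw [hw, Pi.smul_apply, smul_eq_mul, norm_mul, mul_pow, Complex.norm_real, Real.norm_eq_abs, sq_abs]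
        rw [Finset.sum_congr rfl fun i _ => h2 i, ← Finset.mul_sum, ← hsdef, ha, div_pow, one_pow,
          Real.sq_sqrt hs.le, one_div, inv_mul_cancel₀ hs.ne']
      rw [h1]
      norm_num
    have hWVw : WV Hc ρ ν w := by
      intro t θ ht
      rw [hw, mulVec_smul, hWV' t θ ht, smul_comm]
    have hHW : HWFN Φ Hc E ν (co ρ w) := by
      refine ⟨co_mem ρ hρ w, fun x g => co_wt hWVw hT.hmem x g, ?_, ?_, co_le ρ w hww,
        fun t g θ ht => co_lt hWVw t g θ ht, fun t g θ ht => co_rt hWVw t g θ ht⟩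
      · intro p hp g
        obtain ⟨hpΦ, _, _, _⟩ := hW.ppos p hp
        have hem := hL.emem p hpΦ
        rw [dH_co hP ρ hρ hD w _ hem.1 g, dH_co hP ρ hρ hD w _ hem.2 g]
        have h1 := hv'.hw p hp
        rw [← mulVec_mulVec, ← mulVec_mulVec, hw, mulVec_smul, mulVec_smul, h1, mulVec_smul, mulVec_smul,
          mulVec_smul, dotProduct_smul, dotProduct_smul, dotProduct_smul, smul_eq_mul, smul_eq_mul, smul_eq_mul]
        ring
      · unfold co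
        rw [map_one, one_mulVec, hww]
    have h1 := (hHEI N H l Φ B Hc E c k D X hcl hL hKC hF ν (co ρ w) hHW).2 1
    have h2 : co ρ w = mc ρ (star w) w := rfl
    have h3 := lap_mc hP ρ hρ hD (star w) w X hF.mem 1
    rw [cas hP ρ hρ hD X hF.mem _ (hH.eig X hF).1, ← h2, h1, smul_mulVec, one_mulVec] at h3
    rw [mc_one, dotProduct_smul, hww, hHW.one, smul_eq_mul, mul_one, mul_one] at h3
    have h4 : k * (((rd Φ).Q (ν + 1) : ℝ) - (rd Φ).Q 1) = k * (((rd Φ).Q lam : ℝ) - (rd Φ).Q 1) := by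
      have h5 := neg_injective h3
      exact_mod_cast h5
    have h5 := mul_left_cancel₀ hKC.kpos.ne' h4
    have h6 : ((rd Φ).Q (ν + 1) : ℝ) = (rd Φ).Q lam := by linarith
    exact_mod_cast h6.symm
  have hlam := hQCM l Φ B hL.ird hW ν lam hdom hQ nn hnn hnn'
  have hν : ν = lam - 1 := by rw [hlam, add_sub_cancel_right]
  refine ⟨hν, (Uᴴ *ᵥ v') k0, ?_⟩
  have h1 : Uᴴ *ᵥ v' = (Uᴴ *ᵥ v') k0 • (Pi.single k0 1 : Fin n → ℂ) := by
    funext i
    rw [Pi.smul_apply, smul_eq_mul]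
    by_cases hi : i = k0
    · rw [hi, Pi.single_eq_same, mul_one]
    · rw [Pi.single_eq_of_ne hi, mul_zero]
      by_contra hne
      exact hi (hk0u i (by rw [hcoord i hne, hν]))
  rw [hv, ← mulVec_smul, ← h1]
  exact hexp

end

end SYM
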