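import Pool.Agent.SYM.StZ

/-!
# Module ISUM: the integrals of the pieces
-/

set_option autoImplicit false
set_option linter.unusedSectionVars false

namespace SYM

open STZ LGR MeasureTheory Matrix Filter

open scoped ComplexConjugate Matrix Real Topology

noncomputable section

namespace ISUM

theorem bdd {Z : Type} [TopologicalSpace Z] [CompactSpace Z] {f : Z → ℝ} (hf : Continuous f) :
    ∃ B : ℝ, 0 ≤ B ∧ ∀ z, f z ≤ B := by
  obtain ⟨B, hB⟩ := isCompact_univ.exists_bound_of_continuousOn hf.continuousOn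
  refine ⟨max B 0, le_max_right _ _, fun z => ?_⟩
  exact (le_abs_self _).trans ((hB z (Set.mem_univ z)).trans (le_max_left _ _))

theorem integ {Y : Type} [TopologicalSpace Y] [CompactSpace Y] [MeasurableSpace Y] [BorelSpace Y]
    (ν : Measure Y) [IsProbabilityMeasure ν] {f : Y → ℝ} (hf : Continuous f) : Integrable f ν :=
  hf.integrable_of_hasCompactSupport (HasCompactSupport.of_compactSpace f)

theorem le_one {x y : ℝ} (_hy : 0 ≤ y) (hx : 0 ≤ x) (h : y ^ 2 ≤ Real.exp (-x)) : y ≤ 1 := by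
  have h1 : Real.exp (-x) ≤ 1 := Real.exp_le_one_iff.2 (by linarith)
  nlinarith

theorem gap {x y B : ℝ} (hy : 0 ≤ y) (hx : 0 ≤ x) (hxB : x ≤ B) (h : y ^ 2 ≤ Real.exp (-x)) :
    x / (2 + B) ≤ 1 - y := by
  have h1 : y ≤ Real.exp (-(x / 2)) := by
    have h2 : Real.exp (-x) = Real.exp (-(x / 2)) ^ 2 := by
      rw [← Real.exp_nat_mul]
      congr 1
      push_cast
      ring
    rw [h2] at h
    exact le_of_sq_le_sq h (Real.exp_pos _).le
  have h2 : 1 + x / 2 ≤ Real.exp (x / 2) := by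
    have := Real.add_one_le_exp (x / 2)
    linarith
  have h3 : Real.exp (-(x / 2)) ≤ 1 / (1 + x / 2) := by
    rw [Real.exp_neg, ← one_div]
    exact one_div_le_one_div_of_le (by positivity) h2
  have h4 : x / (2 + B) ≤ x / (2 + x) :=
    div_le_div_of_nonneg_left hx (by positivity) (by linarith)
  have h5 : 1 - 1 / (1 + x / 2) = x / (2 + x) := by
    have e1 : 1 + x / 2 ≠ 0 := by positivity
    have e2 : 2 + x ≠ 0 := by positivity
    field_simp
    ring
  linarith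

theorem nnf_nonneg {N : ℕ} {y : ℝ} (hy : y ≤ 1) : 0 ≤ NNf N y := by
  unfold NNf
  have : 0 ≤ (N : ℝ) * (1 - y) := mul_nonneg (Nat.cast_nonneg _) (by linarith)
  positivity

theorem nnf_le {N : ℕ} {y : ℝ} (hy : y ≤ 1) : NNf N y ≤ N := by
  unfold NNf
  have : 0 ≤ (N : ℝ) * (1 - y) := mul_nonneg (Nat.cast_nonneg _) (by linarith)
  exact div_le_self (Nat.cast_nonneg _) (by linarith)

theorem nnf_bd {N : ℕ} {x y B : ℝ} (hy : 0 ≤ y) (hx : 0 ≤ x) (hxB : x ≤ B)
    (h : y ^ 2 ≤ Real.exp (-x)) : NNf N y ≤ (2 + B) * N * (1 + N * x)⁻¹ := by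
  have h1 := gap hy hx hxB h
  have hB : 0 ≤ B := hx.trans hxB
  have hN : (0 : ℝ) ≤ N := Nat.cast_nonneg _
  unfold NNf
  have h2 : (1 + N * x) / (2 + B) ≤ 1 + N * (1 - y) := by
    have h3 : (1 + N * x) / (2 + B) = 1 / (2 + B) + N * (x / (2 + B)) := by
      field_simp
    have h4 : 1 / (2 + B) ≤ 1 := by
      rw [div_le_one (by positivity)]
      linarith
    rw [h3]
    exact add_le_add h4 (mul_le_mul_of_nonneg_left h1 hN)
  have h5 : 0 < (1 + N * x) / (2 + B) := by positivity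
  calc (N : ℝ) / (1 + N * (1 - y)) ≤ N / ((1 + N * x) / (2 + B)) :=
        div_le_div_of_nonneg_left hN h5 h2
    _ = (2 + B) * N * (1 + N * x)⁻¹ := by
        field_simp

theorem root {N r : ℕ} {ρ : ℝ} (hρ : 0 ≤ ρ) :
    ((N : ℝ) * ρ ^ 2) ^ ((r : ℝ) / 2) = ((N : ℝ) ^ (1 / 2 : ℝ) * ρ) ^ r := by
  have hN : (0 : ℝ) ≤ N := Nat.cast_nonneg _
  have h0 : 0 ≤ (N : ℝ) ^ (1 / 2 : ℝ) := Real.rpow_nonneg hN _
  have h1 : (N : ℝ) * ρ ^ 2 = ((N : ℝ) ^ (1 / 2 : ℝ) * ρ) ^ (2 : ℝ) := by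
    rw [Real.mul_rpow h0 hρ, ← Real.rpow_mul hN]
    norm_num
  rw [h1, ← Real.rpow_mul (mul_nonneg h0 hρ), ← Real.rpow_natCast]
  congr 1
  ring

end ISUM

open ISUM in
theorem t_ISUM : M_ISUM := by
  classical
  intro hC M Y _ _ _ _ _ _ _ _ _ _ _ _ r n q S L KM μ ν _ hS
  obtain ⟨Bf, hBf0, hBf⟩ := bdd (f := fun z : M × M × Y => ∑ s, ‖S.f s z‖)
    (continuous_finsetSum _ fun s _ => (hS.cf s).norm)
  obtain ⟨B, hB0, hB⟩ := bdd (f := fun z : M × M × Y => ∑ j, S.ψ j z)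
    (continuous_finsetSum _ fun j _ => hS.cψ j)
  obtain ⟨C₀, hC₀, hgeo⟩ := hS.geo
  have hf : ∀ s z, ‖S.f s z‖ ≤ Bf := fun s z =>
    (Finset.single_le_sum (f := fun s => ‖S.f s z‖) (fun _ _ => norm_nonneg _)
      (Finset.mem_univ s)).trans (hBf z)
  have hψ : ∀ j z, S.ψ j z ≤ B := fun j z =>
    (Finset.single_le_sum (f := fun j => S.ψ j z) (fun j _ => hS.ψ j z)
      (Finset.mem_univ j)).trans (hB z)
  have hF1 : ∀ j z, ‖S.F j z‖ ≤ 1 := fun j z => le_one (norm_nonneg _) (hS.ψ j z) (hS.F j z)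
  set A : ℝ := ∑ c : Fin n → Fin r, ∏ p, S.α p (c p) with hA
  have hA0 : 0 ≤ A := Finset.sum_nonneg fun c _ => Finset.prod_nonneg fun p _ => hS.α _ _
  set A' : ℝ := ∏ p, ∑ j, S.α p j with hA'
  have hA'0 : 0 ≤ A' := Finset.prod_nonneg fun p _ => Finset.sum_nonneg fun j _ => hS.α _ _
  set C₁ : ℝ := 2 * (4 * (r * C₀)) ^ r * Bf * (2 + B) ^ n * (A * C₀) with hC₁
  set C₂ : ℝ := (1 + 2 ^ r) * Bf * A' * 2 ^ r with hC₂
  have hC₁0 : 0 ≤ C₁ := by positivity
  have hC₂0 : 0 ≤ C₂ := by positivity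
  refine ⟨C₁ + C₂, add_nonneg hC₁0 hC₂0, ?_⟩
  intro s g g' N R hN hR
  have hNr : (0 : ℝ) < N := by exact_mod_cast hN
  have hRr : (1 : ℝ) ≤ R := by exact_mod_cast hR
  set u : ℝ := (N : ℝ) ^ (1 / 2 : ℝ) with hu
  have hu0 : 0 < u := Real.rpow_pos_of_pos hNr _
  have hW0 : 0 ≤ (N : ℝ) ^ n * ((R : ℝ) / u) ^ r := by positivity
  obtain ⟨ρ, hρ0, hρF, hρI⟩ := hgeo g g'
  have hP0 : ∀ k : Y, 0 ≤ ∏ p, ∑ j, S.α p j * NNf N ‖S.F j (g, g', k)‖ := fun k =>
    Finset.prod_nonneg fun p _ => Finset.sum_nonneg fun j _ =>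
      mul_nonneg (hS.α _ _) (nnf_nonneg (hF1 _ _))
  constructor
  · -- first claim
    have hsg : ∀ k : Y, ‖sg r R (fun j => S.F j (g, g', k)) - sg r (2 * R) (fun j => S.F j (g, g', k))‖ ≤
        2 * (4 * (r * C₀)) ^ r * ((R : ℝ) / u) ^ r * (u * ρ) ^ r := by
      intro k
      have hz : ∀ j, ‖S.F j (g, g', k)‖ ≤ 1 := fun j => hF1 j _
      have n1 := hC.near r R (fun j => S.F j (g, g', k)) hR hz
      have n2 := hC.near r (2 * R) (fun j => S.F j (g, g', k)) (by omega) hz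
      have hsum : ∑ j, ‖S.F j (g, g', k) - 1‖ ≤ r * (C₀ * ρ) := by
        refine (Finset.sum_le_card_nsmul Finset.univ _ (C₀ * ρ) fun j _ => hρF j k).trans ?_
        rw [Finset.card_univ, Fintype.card_fin, nsmul_eq_mul]
      have hsum0 : 0 ≤ ∑ j, ‖S.F j (g, g', k) - 1‖ :=
        Finset.sum_nonneg fun j _ => norm_nonneg _
      have m1 : (2 * (R : ℝ) * ∑ j, ‖S.F j (g, g', k) - 1‖) ^ r ≤ (4 * (r * C₀) * (R * ρ)) ^ r := by
        refine pow_le_pow_left₀ (by positivity) ?_ r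
        have : 2 * (R : ℝ) * ∑ j, ‖S.F j (g, g', k) - 1‖ ≤ 2 * R * (r * (C₀ * ρ)) :=
          mul_le_mul_of_nonneg_left hsum (by positivity)
        have h2 : 0 ≤ 2 * (R : ℝ) * (r * (C₀ * ρ)) := by positivity
        linarith
      have m2 : (2 * ((2 * R : ℕ) : ℝ) * ∑ j, ‖S.F j (g, g', k) - 1‖) ^ r ≤
          (4 * (r * C₀) * (R * ρ)) ^ r := by
        refine pow_le_pow_left₀ (by positivity) ?_ r
        have : 2 * ((2 * R : ℕ) : ℝ) * ∑ j, ‖S.F j (g, g', k) - 1‖ ≤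
            2 * ((2 * R : ℕ) : ℝ) * (r * (C₀ * ρ)) :=
          mul_le_mul_of_nonneg_left hsum (by positivity)
        refine this.trans (le_of_eq ?_)
        push_cast
        ring
      have e1 : (4 * (r * C₀) * (R * ρ)) ^ r =
          (4 * (r * C₀)) ^ r * ((R : ℝ) / u) ^ r * (u * ρ) ^ r := by
        rw [← mul_pow, ← mul_pow]
        congr 1
        field_simp
      have e2 : sg r R (fun j => S.F j (g, g', k)) - sg r (2 * R) (fun j => S.F j (g, g', k)) =
          (sg r R (fun j => S.F j (g, g', k)) - 1) - (sg r (2 * R) (fun j => S.F j (g, g', k)) - 1) := by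
        ring
      rw [e2]
      refine (norm_sub_le _ _).trans ?_
      have := add_le_add (n1.trans m1) (n2.trans m2)
      rw [e1] at this
      refine this.trans (le_of_eq ?_)
      ring
    have hprod : ∀ k : Y, ∏ p, ∑ j, S.α p j * NNf N ‖S.F j (g, g', k)‖ ≤
        ((2 + B) * N) ^ n * ∑ c : Fin n → Fin r, (∏ p, S.α p (c p)) *
          ∏ p, (1 + N * S.ψ (c p) (g, g', k))⁻¹ := by
      intro k
      have h1 : ∏ p, ∑ j, S.α p j * NNf N ‖S.F j (g, g', k)‖ ≤
          ∏ p : Fin n, ((2 + B) * N * ∑ j, S.α p j * (1 + N * S.ψ j (g, g', k))⁻¹) := by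
        refine Finset.prod_le_prod (fun p _ => Finset.sum_nonneg fun j _ =>
          mul_nonneg (hS.α _ _) (nnf_nonneg (hF1 _ _))) fun p _ => ?_
        rw [Finset.mul_sum]
        refine Finset.sum_le_sum fun j _ => ?_
        have := mul_le_mul_of_nonneg_left (nnf_bd (N := N) (norm_nonneg (S.F j (g, g', k)))
          (hS.ψ j _) (hψ j _) (hS.F j _)) (hS.α p j)
        refine this.trans (le_of_eq ?_)
        ring
      refine h1.trans (le_of_eq ?_)
      rw [Finset.prod_mul_distrib, Finset.prod_const, Finset.card_univ, Fintype.card_fin,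
        Finset.prod_univ_sum, Fintype.piFinset_univ]
      congr 1
      refine Finset.sum_congr rfl fun c _ => ?_
      rw [Finset.prod_mul_distrib]
    have hψc : ∀ j, Continuous fun k : Y => S.ψ j (g, g', k) := fun j =>
      (hS.cψ j).comp (by fun_prop)
    have hIc : ∀ c : Fin n → Fin r, Continuous fun k : Y => ∏ p, (1 + N * S.ψ (c p) (g, g', k))⁻¹ := by
      intro c
      refine continuous_finsetProd _ fun p _ => ?_
      refine Continuous.inv₀ (by have := hψc (c p); fun_prop) fun k => ?_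
      have := hS.ψ (c p) (g, g', k)
      positivity
    set K₁ : ℝ := 2 * (4 * (r * C₀)) ^ r * ((R : ℝ) / u) ^ r * (u * ρ) ^ r * Bf *
      ((2 + B) * N) ^ n with hK₁
    have hK₁0 : 0 ≤ K₁ := by positivity
    have hmaj : ∫ k, ‖sg r R (fun j => S.F j (g, g', k)) - sg r (2 * R) (fun j => S.F j (g, g', k))‖ *
        ‖S.f s (g, g', k)‖ * ∏ p, ∑ j, S.α p j * NNf N ‖S.F j (g, g', k)‖ ∂ν ≤
        ∫ k, K₁ * ∑ c : Fin n → Fin r, (∏ p, S.α p (c p)) *
          ∏ p, (1 + N * S.ψ (c p) (g, g', k))⁻¹ ∂ν := by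
      refine integral_mono_of_nonneg (Filter.Eventually.of_forall fun k => ?_) ?_
        (Filter.Eventually.of_forall fun k => ?_)
      · exact mul_nonneg (by positivity) (hP0 k)
      · refine integ ν (continuous_const.mul (continuous_finsetSum _ fun c _ => ?_))
        exact continuous_const.mul (hIc c)
      · have q1 := mul_le_mul (hsg k) (hf s (g, g', k)) (norm_nonneg _) (by positivity)
        have q2 := mul_le_mul q1 (hprod k) (hP0 k) (by positivity)
        refine q2.trans (le_of_eq ?_)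
        rw [hK₁]
        ring
    refine hmaj.trans ?_
    have hsumI : ∫ k, ∑ c : Fin n → Fin r, (∏ p, S.α p (c p)) *
        ∏ p, (1 + N * S.ψ (c p) (g, g', k))⁻¹ ∂ν = ∑ c : Fin n → Fin r, (∏ p, S.α p (c p)) *
        ∫ k, ∏ p, (1 + N * S.ψ (c p) (g, g', k))⁻¹ ∂ν := by
      rw [integral_finsetSum]
      · simp only [integral_const_mul]
      · intro c _
        exact integ ν (continuous_const.mul (hIc c))
    rw [integral_const_mul, hsumI]
    have hterm : ∀ c : Fin n → Fin r, (u * ρ) ^ r * ((∏ p, S.α p (c p)) *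
        ∫ k, ∏ p, (1 + N * S.ψ (c p) (g, g', k))⁻¹ ∂ν) ≤ (∏ p, S.α p (c p)) * C₀ := by
      intro c
      have ha0 : 0 ≤ ∏ p, S.α p (c p) := Finset.prod_nonneg fun p _ => hS.α _ _
      by_cases hc : ∀ p, 0 < S.α p (c p)
      · have h1 := hρI c hc N (by exact_mod_cast hN)
        rw [root hρ0] at h1
        calc (u * ρ) ^ r * ((∏ p, S.α p (c p)) *
              ∫ k, ∏ p, (1 + N * S.ψ (c p) (g, g', k))⁻¹ ∂ν) =
            (∏ p, S.α p (c p)) * ((u * ρ) ^ r *
              ∫ k, ∏ p, (1 + N * S.ψ (c p) (g, g', k))⁻¹ ∂ν) := by ring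
          _ ≤ _ := mul_le_mul_of_nonneg_left h1 ha0
      · push Not at hc
        obtain ⟨p, hp⟩ := hc
        have hp0 : S.α p (c p) = 0 := le_antisymm hp (hS.α _ _)
        have hz : ∏ p, S.α p (c p) = 0 := Finset.prod_eq_zero (Finset.mem_univ p) hp0
        rw [hz, zero_mul, zero_mul, mul_zero]
    have hfin : K₁ * ∑ c : Fin n → Fin r, (∏ p, S.α p (c p)) *
        ∫ k, ∏ p, (1 + N * S.ψ (c p) (g, g', k))⁻¹ ∂ν ≤
        C₁ * ((N : ℝ) ^ n * ((R : ℝ) / u) ^ r) := by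
      have h1 : K₁ * ∑ c : Fin n → Fin r, (∏ p, S.α p (c p)) *
          ∫ k, ∏ p, (1 + N * S.ψ (c p) (g, g', k))⁻¹ ∂ν =
          (2 * (4 * (r * C₀)) ^ r * ((R : ℝ) / u) ^ r * Bf * ((2 + B) * N) ^ n) *
          ∑ c : Fin n → Fin r, (u * ρ) ^ r * ((∏ p, S.α p (c p)) *
            ∫ k, ∏ p, (1 + N * S.ψ (c p) (g, g', k))⁻¹ ∂ν) := by
        rw [← Finset.mul_sum, hK₁]
        ring
      rw [h1]
      have h2 : ∑ c : Fin n → Fin r, (u * ρ) ^ r * ((∏ p, S.α p (c p)) *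
          ∫ k, ∏ p, (1 + N * S.ψ (c p) (g, g', k))⁻¹ ∂ν) ≤ A * C₀ := by
        rw [hA, Finset.sum_mul]
        exact Finset.sum_le_sum fun c _ => hterm c
      refine (mul_le_mul_of_nonneg_left h2 (by positivity)).trans (le_of_eq ?_)
      rw [hC₁, mul_pow (2 + B) (N : ℝ) n]
      ring
    refine hfin.trans (mul_le_mul_of_nonneg_right ?_ hW0)
    linarith
  · -- second claim
    intro hNR
    have h1 : ∀ k : Y, ‖sg r R (fun j => S.F j (g, g', k))‖ * ‖S.f s (g, g', k)‖ *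
        ∏ p, ∑ j, S.α p j * NNf N ‖S.F j (g, g', k)‖ ≤ (1 + 2 ^ r) * Bf * ((N : ℝ) ^ n * A') := by
      intro k
      have q0 := hC.bd r R (fun j => S.F j (g, g', k)) hR fun j => hF1 j _
      have q1 := mul_le_mul q0 (hf s (g, g', k)) (norm_nonneg _) (by positivity)
      have q2 : ∏ p, ∑ j, S.α p j * NNf N ‖S.F j (g, g', k)‖ ≤ (N : ℝ) ^ n * A' := by
        have h2 : ∏ p, ∑ j, S.α p j * NNf N ‖S.F j (g, g', k)‖ ≤
            ∏ p : Fin n, ((N : ℝ) * ∑ j, S.α p j) := by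
          refine Finset.prod_le_prod (fun p _ => Finset.sum_nonneg fun j _ =>
            mul_nonneg (hS.α _ _) (nnf_nonneg (hF1 _ _))) fun p _ => ?_
          rw [Finset.mul_sum]
          refine Finset.sum_le_sum fun j _ => ?_
          have := mul_le_mul_of_nonneg_left (nnf_le (N := N) (hF1 j (g, g', k))) (hS.α p j)
          linarith
        refine h2.trans (le_of_eq ?_)
        rw [Finset.prod_mul_distrib, Finset.prod_const, Finset.card_univ, Fintype.card_fin]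
      exact mul_le_mul q1 q2 (hP0 k) (by positivity)
    have h2 : ∫ k, ‖sg r R (fun j => S.F j (g, g', k))‖ * ‖S.f s (g, g', k)‖ *
        ∏ p, ∑ j, S.α p j * NNf N ‖S.F j (g, g', k)‖ ∂ν ≤
        ∫ _k : Y, (1 + 2 ^ r) * Bf * ((N : ℝ) ^ n * A') ∂ν := by
      refine integral_mono_of_nonneg (Filter.Eventually.of_forall fun k => ?_)
        (integrable_const _) (Filter.Eventually.of_forall fun k => h1 k)
      exact mul_nonneg (by positivity) (hP0 k)
    rw [integral_const, probReal_univ, one_smul] at h2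
    refine h2.trans ?_
    have hu2 : u ^ 2 = N := by
      rw [hu, ← Real.rpow_natCast, ← Real.rpow_mul hNr.le]
      norm_num
    have hRu : 1 ≤ 2 * ((R : ℝ) / u) := by
      have h3 : (N : ℝ) ≤ 4 * (R : ℝ) ^ 2 := by exact_mod_cast hNR
      have h4 : u ≤ 2 * R := by
        have : u ^ 2 ≤ (2 * (R : ℝ)) ^ 2 := by
          rw [hu2]
          linarith
        exact le_of_sq_le_sq this (by positivity)
      have h5 : 2 * ((R : ℝ) / u) = 2 * R / u := by ring
      rw [h5, le_div_iff₀ hu0]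
      linarith
    have h3 : (1 : ℝ) ≤ 2 ^ r * ((R : ℝ) / u) ^ r := by
      rw [← mul_pow]
      exact one_le_pow₀ hRu
    have h4 : (1 + 2 ^ r) * Bf * ((N : ℝ) ^ n * A') ≤
        ((1 + 2 ^ r) * Bf * ((N : ℝ) ^ n * A')) * (2 ^ r * ((R : ℝ) / u) ^ r) :=
      le_mul_of_one_le_right (by positivity) h3
    have h5 : ((1 + 2 ^ r) * Bf * ((N : ℝ) ^ n * A')) * (2 ^ r * ((R : ℝ) / u) ^ r) =
        C₂ * ((N : ℝ) ^ n * ((R : ℝ) / u) ^ r) := by
      rw [hC₂]
      ring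
    rw [h5] at h4
    refine h4.trans (mul_le_mul_of_nonneg_right ?_ hW0)
    linarith

end

end SYM
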