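import Pool.Agent.SYM.StZ
import Pool.Agent.STZ.TTX

/-!
# Module JADD: the quadratic form is additive in the kernel
-/

set_option autoImplicit false
set_option linter.unusedSectionVars false

namespace SYM

open STZ LGR MeasureTheory Matrix Filter Set

open scoped ComplexConjugate Matrix Real Topology

noncomputable section

namespace JADD

/-- a bounded measurable function on the square is integrable -/
theorem prodInt {H : ℝ → ℝ → ℂ} (hm : Measurable fun z : ℝ × ℝ => H z.1 z.2) {C : ℝ}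
    (hC : ∀ t ∈ Ioc (0 : ℝ) 1, ∀ s ∈ Ioc (0 : ℝ) 1, ‖H t s‖ ≤ C) :
    IntervalIntegrable (fun t => ∫ s in (0 : ℝ)..1, H t s) volume 0 1 := by
  rw [intervalIntegrable_iff_integrableOn_Ioc_of_le zero_le_one]
  simp only [intervalIntegral.integral_of_le zero_le_one]
  have h1 : Integrable (fun z : ℝ × ℝ => H z.1 z.2)
      ((volume.restrict (Ioc (0 : ℝ) 1)).prod (volume.restrict (Ioc (0 : ℝ) 1))) := by
    refine Integrable.mono' (g := fun _ => C) (integrable_const C) hm.aestronglyMeasurable ?_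
    rw [Measure.prod_restrict]
    refine (ae_restrict_iff' (measurableSet_Ioc.prod measurableSet_Ioc)).2
      (Filter.Eventually.of_forall fun z hz => ?_)
    exact hC z.1 hz.1 z.2 hz.2
  exact h1.integral_prod_left

theorem secInt {H : ℝ → ℂ} (hm : Measurable H) {C : ℝ}
    (hC : ∀ s ∈ Ioc (0 : ℝ) 1, ‖H s‖ ≤ C) : IntervalIntegrable H volume 0 1 := by
  rw [intervalIntegrable_iff_integrableOn_Ioc_of_le zero_le_one]
  refine Measure.integrableOn_of_bounded (M := C) (by simp) hm.aestronglyMeasurable ?_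
  exact (ae_restrict_iff' measurableSet_Ioc).2 (Filter.Eventually.of_forall fun s hs => hC s hs)

variable {M : Type} [TopologicalSpace M] [CompactSpace M] [T2Space M]
  [SecondCountableTopology M] [MeasurableSpace M] [BorelSpace M] (μ : Measure M)
  [IsProbabilityMeasure μ]

open STZ.TTX in
theorem JJ_mul (χ : ℝ → ℝ) (k : ℝ → M → M → ℂ) (G : ℝ → M → ℂ) :
    JJ μ (fun t x y => (χ t : ℂ) * k t x y) G =
      ∫ t in (0 : ℝ)..1, ∫ s in (0 : ℝ)..1, (χ (t - s) : ℂ) * bf μ (k (t - s)) (G s) (G t) := by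
  unfold JJ
  refine intervalIntegral.integral_congr fun t _ => ?_
  refine intervalIntegral.integral_congr fun s _ => ?_
  unfold bf
  beta_reduce
  rw [← integral_const_mul]
  refine integral_congr_ae (Filter.Eventually.of_forall fun x => ?_)
  have h1 : ∀ y, (χ (t - s) : ℂ) * k (t - s) x y * G s y =
      (χ (t - s) : ℂ) * (k (t - s) x y * G s y) := fun y => by ring
  simp only [h1, integral_const_mul]
  ring

end JADD

open STZ.TTX JADD in
theorem t_JADD : S_JADD := by
  intro M _ _ _ _ _ _ μ _ m χ hχ hsum I k hk G hG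
  have hGt : ∀ t, Continuous (G t) := sec' hG
  obtain ⟨β, hβ⟩ : ∃ β : ℕ → ℝ → ℝ → ℂ, β = fun i t s => bf μ (k i (t - s)) (G s) (G t) :=
    ⟨_, rfl⟩
  have hβc : ∀ i, i < I → Continuous fun z : ℝ × ℝ => β i z.1 z.2 := by
    intro i hi
    rw [hβ]
    refine bf_cont μ (X := ℝ × ℝ) (k := fun z => k i (z.1 - z.2)) (u := fun z => G z.2)
      (v := fun z => G z.1) ?_ ?_ ?_
    · exact (hk i hi).comp (f := fun z : (ℝ × ℝ) × M × M => (z.1.1 - z.1.2, z.2.1, z.2.2))
        (by fun_prop)
    · exact Continuous.comp (g := fun z : ℝ × M => G z.1 z.2) hG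
        (f := fun z : (ℝ × ℝ) × M => (z.1.2, z.2)) (by fun_prop)
    · exact Continuous.comp (g := fun z : ℝ × M => G z.1 z.2) hG
        (f := fun z : (ℝ × ℝ) × M => (z.1.1, z.2)) (by fun_prop)
  have hmeas : ∀ i, i < I → ∀ l, Measurable fun z : ℝ × ℝ =>
      (χ l (z.1 - z.2) : ℂ) * β i z.1 z.2 := by
    intro i hi l
    have h1 : Measurable fun z : ℝ × ℝ => z.1 - z.2 := measurable_fst.sub measurable_snd
    exact (Complex.measurable_ofReal.comp ((hχ l).meas.comp h1)).mul (hβc i hi).measurable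
  have hbd : ∀ i, i < I → ∃ C : ℝ, ∀ l, ∀ t ∈ Ioc (0 : ℝ) 1, ∀ s ∈ Ioc (0 : ℝ) 1,
      ‖(χ l (t - s) : ℂ) * β i t s‖ ≤ C := by
    intro i hi
    obtain ⟨C, hC⟩ := ((isCompact_Icc (a := (0 : ℝ)) (b := 1)).prod
      (isCompact_Icc (a := (0 : ℝ)) (b := 1))).exists_bound_of_continuousOn (hβc i hi).continuousOn
    refine ⟨C, fun l t ht s hs => ?_⟩
    rw [norm_mul, Complex.norm_real, Real.norm_of_nonneg ((hχ l).nn _)]
    have h1 := hC (t, s) ⟨⟨ht.1.le, ht.2⟩, ⟨hs.1.le, hs.2⟩⟩
    have h2 := (hχ l).le (t - s)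
    have h3 := (hχ l).nn (t - s)
    calc χ l (t - s) * ‖β i t s‖ ≤ 1 * ‖β i t s‖ :=
          mul_le_mul_of_nonneg_right h2 (norm_nonneg _)
      _ ≤ C := by rw [one_mul]; exact h1
  have hsec : ∀ i, i < I → ∀ l, ∀ t ∈ Ioc (0 : ℝ) 1,
      IntervalIntegrable (fun s => (χ l (t - s) : ℂ) * β i t s) volume 0 1 := by
    intro i hi l t ht
    obtain ⟨C, hC⟩ := hbd i hi
    exact secInt ((hmeas i hi l).comp (measurable_const.prodMk measurable_id)) (hC l t ht)
  have hpro : ∀ i, i < I → ∀ l, IntervalIntegrable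
      (fun t => ∫ s in (0 : ℝ)..1, (χ l (t - s) : ℂ) * β i t s) volume 0 1 := by
    intro i hi l
    obtain ⟨C, hC⟩ := hbd i hi
    exact prodInt (H := fun t s => (χ l (t - s) : ℂ) * β i t s) (hmeas i hi l) (hC l)
  -- the left side
  have e1 : JJ μ (fun t x y => ∑ i ∈ Finset.range I, k i t x y) G =
      ∫ t in (0 : ℝ)..1, ∫ s in (0 : ℝ)..1,
        ∑ i ∈ Finset.range I, ∑ l, (χ l (t - s) : ℂ) * β i t s := by
    unfold JJ
    refine intervalIntegral.integral_congr fun t _ => ?_
    refine intervalIntegral.integral_congr fun s _ => ?_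
    beta_reduce
    have h1 : ∀ i, ∑ l, (χ l (t - s) : ℂ) * β i t s = β i t s := by
      intro i
      rw [← Finset.sum_mul, ← Complex.ofReal_sum, hsum, Complex.ofReal_one, one_mul]
    simp only [h1]
    rw [hβ]
    beta_reduce
    unfold bf
    have hkc : ∀ i ∈ Finset.range I, ∀ x, Continuous fun y => k i (t - s) x y * G s y := by
      intro i hi x
      exact ((hk i (Finset.mem_range.1 hi)).comp (f := fun y : M => (t - s, x, y))
        (by fun_prop)).mul (hGt s)
    have h2 : ∀ x, ∫ y, (∑ i ∈ Finset.range I, k i (t - s) x y) * G s y ∂μ =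
        ∑ i ∈ Finset.range I, ∫ y, k i (t - s) x y * G s y ∂μ := by
      intro x
      rw [← integral_finsetSum _ fun i hi => integ μ (hkc i hi x)]
      refine integral_congr_ae (Filter.Eventually.of_forall fun y => ?_)
      simp only [Finset.sum_mul]
    simp only [h2, Finset.mul_sum]
    rw [integral_finsetSum]
    intro i hi
    refine integ μ ((Complex.continuous_conj.comp (hGt t)).mul ?_)
    refine par μ (f := fun (x : M) (y : M) => k i (t - s) x y * G s y) ?_
    refine Continuous.mul ?_ ?_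
    · exact (hk i (Finset.mem_range.1 hi)).comp (f := fun z : M × M => (t - s, z.1, z.2))
        (by fun_prop)
    · exact (hGt s).comp continuous_snd
  have e2 : ∀ i l, JJ μ (fun t x y => (χ l t : ℂ) * k i t x y) G =
      ∫ t in (0 : ℝ)..1, ∫ s in (0 : ℝ)..1, (χ l (t - s) : ℂ) * β i t s := by
    intro i l
    rw [JJ_mul, hβ]
  simp only [e2]
  rw [e1]
  have e3 : ∀ t ∈ uIcc (0 : ℝ) 1 \ {0}, ∫ s in (0 : ℝ)..1,
      ∑ i ∈ Finset.range I, ∑ l, (χ l (t - s) : ℂ) * β i t s =
      ∑ i ∈ Finset.range I, ∑ l, ∫ s in (0 : ℝ)..1, (χ l (t - s) : ℂ) * β i t s := by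
    intro t ht
    have ht' : t ∈ Ioc (0 : ℝ) 1 := by
      rw [uIcc_of_le zero_le_one] at ht
      exact ⟨lt_of_le_of_ne ht.1.1 (fun h => ht.2 h.symm), ht.1.2⟩
    rw [intervalIntegral.integral_finsetSum]
    · refine Finset.sum_congr rfl fun i hi => ?_
      rw [intervalIntegral.integral_finsetSum]
      intro l _
      exact hsec i (Finset.mem_range.1 hi) l t ht'
    · intro i hi
      have h4 : IntervalIntegrable (∑ l, fun s => (χ l (t - s) : ℂ) * β i t s) volume 0 1 :=
        IntervalIntegrable.sum _ fun l _ => hsec i (Finset.mem_range.1 hi) l t ht'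
      refine h4.congr ?_
      intro s _
      simp only [Finset.sum_apply]
  have e4 : ∫ t in (0 : ℝ)..1, ∫ s in (0 : ℝ)..1,
      ∑ i ∈ Finset.range I, ∑ l, (χ l (t - s) : ℂ) * β i t s =
      ∫ t in (0 : ℝ)..1, ∑ i ∈ Finset.range I, ∑ l,
        ∫ s in (0 : ℝ)..1, (χ l (t - s) : ℂ) * β i t s := by
    refine intervalIntegral.integral_congr_ae (Filter.Eventually.of_forall fun t ht => ?_)
    rw [uIoc_of_le zero_le_one] at ht
    refine e3 t ⟨?_, ?_⟩
    · rw [uIcc_of_le zero_le_one]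
      exact ⟨ht.1.le, ht.2⟩
    · intro h
      exact ht.1.ne' h
  rw [e4, intervalIntegral.integral_finsetSum]
  · refine Finset.sum_congr rfl fun i hi => ?_
    rw [intervalIntegral.integral_finsetSum]
    intro l _
    exact hpro i (Finset.mem_range.1 hi) l
  · intro i hi
    have h4 : IntervalIntegrable (∑ l, fun t => ∫ s in (0 : ℝ)..1, (χ l (t - s) : ℂ) * β i t s)
        volume 0 1 := IntervalIntegrable.sum _ fun l _ => hpro i (Finset.mem_range.1 hi) l
    refine h4.congr ?_
    intro s _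
    simp only [Finset.sum_apply]

end

end SYM
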