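import Pool.Agent.SYM.StQ

/-!
# KDIR: directions in the Lie algebra of `K`
-/

namespace SYM

open STZ LGR MeasureTheory Matrix Filter

open scoped ComplexConjugate Matrix Real Topology

noncomputable section

namespace KDIR

variable {N : ℕ}

/-- the values of `τ` on `u = X - Xᴴ` and `v = i (X + Xᴴ)` from `tcx τ X = c Yᴴ` -/
theorem tau_uv {τ : Matrix (Fin N) (Fin N) ℂ →ₗ[ℝ] Matrix (Fin N) (Fin N) ℂ}
    {X Y : Matrix (Fin N) (Fin N) ℂ} {c : ℂ} (hu : (τ (X - Xᴴ))ᴴ = -τ (X - Xᴴ))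
    (hv : (τ (Complex.I • (X + Xᴴ)))ᴴ = -τ (Complex.I • (X + Xᴴ)))
    (h : tcx τ X = c • Yᴴ) :
    τ (X - Xᴴ) = c • Yᴴ - conj c • Y ∧ τ (Complex.I • (X + Xᴴ)) = Complex.I • (c • Yᴴ + conj c • Y) := by
  unfold tcx at h
  generalize τ (X - Xᴴ) = u at *
  generalize τ (Complex.I • (X + Xᴴ)) = v at *
  have h2 := congrArg Matrix.conjTranspose h
  rw [Matrix.conjTranspose_smul, Matrix.conjTranspose_sub, Matrix.conjTranspose_smul,
    Matrix.conjTranspose_smul, Matrix.conjTranspose_conjTranspose, hu, hv] at h2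
  have e1 : star (1 / 2 : ℂ) = 1 / 2 := by
    simp
  have e2 : star Complex.I = -Complex.I := by
    simp
  have e3 : star c = conj c := rfl
  rw [e1, e2, e3] at h2
  rw [← h, ← h2]
  constructor
  · module
  · simp only [smul_add, smul_sub, smul_neg, neg_smul, smul_smul]
    have e4 : Complex.I * (1 / 2 * Complex.I) = -(1 / 2) := by
      linear_combination (1 / 2 : ℂ) * Complex.I_mul_I
    rw [e4]
    module

end KDIR

theorem t_KDIR : M_KDIR := by
  intro hLIEB hWFAC hTAUF hTAUS N H K σ τ A l Φ B Hc E x₀ θ r s ε hSD p hp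
  have hL : LRD H Φ B Hc E := hSD.sr.lrd
  have hl : LIF H := hLIEB N H hSD.closed
  have hF : TAF H Φ Hc E := hTAUF N H l Φ B Hc E hSD.closed hL
  have hW : WFF Φ B := hWFAC l Φ B hL.ird
  have hT : TSF H σ τ := hTAUS N H K σ τ hSD.closed hSD.simple hSD.sym
  have hPA : ∀ p ∈ PA Φ x₀, p ∈ Φ := by
    intro p hp
    exact (hW.ppos p (Finset.mem_filter.1 hp).1).1
  have hpΦ := hPA p hp
  set q : (Fin l → ℤ) × (Fin l → ℤ) := (-(θᵀ *ᵥ p.1), -(θ *ᵥ p.2)) with hq
  have hqA : q ∈ PA Φ x₀ := hSD.so.posθ p hp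
  have hqΦ := hPA q hqA
  have hstar : E (θᵀ *ᵥ p.1, θ *ᵥ p.2) = (E q)ᴴ := by
    have h := hL.star q hqΦ
    rw [← h, hq]
    simp
  obtain ⟨c, -, hc⟩ := hSD.sra.tc p hpΦ
  rw [hstar] at hc
  obtain ⟨hu, hv⟩ := hL.emem p hpΦ
  have hτu := hSD.sym.mem _ hu
  have hτv := hSD.sym.mem _ hv
  obtain ⟨e1, e2⟩ := KDIR.tau_uv (hl.su _ hτu).1 (hl.su _ hτv).1 hc
  have hKu : (E p - (E p)ᴴ) + τ (E p - (E p)ᴴ) ∈ lie K := by
    refine hSD.sym.big _ (hl.add _ hu _ hτu) ?_
    rw [map_add, hT.inv _ hu, add_comm]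
  have hKv : Complex.I • (E p + (E p)ᴴ) + τ (Complex.I • (E p + (E p)ᴴ)) ∈ lie K := by
    refine hSD.sym.big _ (hl.add _ hv _ hτv) ?_
    rw [map_add, hT.inv _ hv, add_comm]
  have hq2 : ∀ j, q.2 ⬝ᵥ ε j = p.2 ⬝ᵥ ε j := by
    intro j
    have h := hSD.so.anti j
    show -(θ *ᵥ p.2) ⬝ᵥ ε j = p.2 ⬝ᵥ ε j
    rw [neg_dotProduct, dotProduct_comm, Matrix.dotProduct_mulVec, ← Matrix.mulVec_transpose, h,
      neg_dotProduct, neg_neg, dotProduct_comm]
  have hq1 : ∀ y, hx Hc y ∈ A → dz q.1 y = dz p.1 y := by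
    intro y hy
    have h := (hSD.sra.A y).1 hy
    show ∑ i, (((-(θᵀ *ᵥ p.1)) i : ℤ) : ℝ) * y i = ∑ i, (p.1 i : ℝ) * y i
    have e3 : ∀ i, (((-(θᵀ *ᵥ p.1)) i : ℤ) : ℝ) * y i = -∑ j, (p.1 j : ℝ) * ((θ j i : ℝ) * y i) := by
      intro i
      rw [Pi.neg_apply, Matrix.mulVec, dotProduct]
      push_cast
      rw [neg_mul, Finset.sum_mul]
      congr 1
      refine Finset.sum_congr rfl fun j _ => ?_
      rw [Matrix.transpose_apply]
      ring
    rw [Finset.sum_congr rfl fun i _ => e3 i, Finset.sum_neg_distrib, Finset.sum_comm,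
      ← Finset.sum_neg_distrib]
    refine Finset.sum_congr rfl fun j _ => ?_
    rw [← Finset.mul_sum, h j]
    ring
  have hEp : E p ≠ 0 := by
    intro h0
    have h := (hF.pos p hpΦ).1
    rw [h0, Matrix.zero_mul, Matrix.trace_zero, Complex.zero_re] at h
    exact lt_irrefl _ h
  -- the two candidates
  have hZ : (1 : ℂ) • E p + (-conj c) • E q - ((1 : ℂ) • E p + (-conj c) • E q)ᴴ ∈ lie K := by
    have e : (1 : ℂ) • E p + (-conj c) • E q - ((1 : ℂ) • E p + (-conj c) • E q)ᴴ =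
        (E p - (E p)ᴴ) + τ (E p - (E p)ᴴ) := by
      rw [e1]
      simp only [one_smul, neg_smul, Matrix.conjTranspose_add, Matrix.conjTranspose_neg,
        Matrix.conjTranspose_smul, Complex.star_def, Complex.conj_conj]
      abel
    rw [e]
    exact hKu
  have hZ' : Complex.I • E p + (Complex.I * conj c) • E q -
      (Complex.I • E p + (Complex.I * conj c) • E q)ᴴ ∈ lie K := by
    have e : Complex.I • E p + (Complex.I * conj c) • E q -
        (Complex.I • E p + (Complex.I * conj c) • E q)ᴴ =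
        Complex.I • (E p + (E p)ᴴ) + τ (Complex.I • (E p + (E p)ᴴ)) := by
      rw [e2]
      simp only [Matrix.conjTranspose_add, Matrix.conjTranspose_smul, Complex.star_def, map_mul,
        Complex.conj_conj, Complex.conj_I, smul_add, smul_smul, neg_smul, neg_mul]
      abel
    rw [e]
    exact hKv
  by_cases hpq : q = p
  · by_cases hc1 : conj c = 1
    · refine ⟨q, Complex.I, Complex.I * conj c, hqA, hq2, hq1, ?_, hZ'⟩
      rw [hpq, hc1, mul_one, ← add_smul]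
      refine smul_ne_zero ?_ hEp
      rw [← two_mul]
      exact mul_ne_zero two_ne_zero Complex.I_ne_zero
    · refine ⟨q, 1, -conj c, hqA, hq2, hq1, ?_, hZ⟩
      rw [hpq, ← add_smul]
      refine smul_ne_zero ?_ hEp
      intro h0
      apply hc1
      linear_combination -h0
  · refine ⟨q, 1, -conj c, hqA, hq2, hq1, ?_, hZ⟩
    intro h0
    have h1 : (((1 : ℂ) • E p + (-conj c) • E q) * (E p)ᴴ).trace = 0 := by
      rw [h0, Matrix.zero_mul, Matrix.trace_zero]
    rw [one_smul, Matrix.add_mul, smul_mul_assoc, Matrix.trace_add, Matrix.trace_smul,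
      hF.orth q hqΦ p hpΦ hpq, smul_zero, add_zero] at h1
    have h2 := (hF.pos p hpΦ).1
    rw [h1, Complex.zero_re] at h2
    exact lt_irrefl _ h2

end

end SYM
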