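import Pool.Agent.SYM.StT
import Pool.Agent.STZ.TTX

/-!
# Module KIA: pieces of the first kind
-/

set_option autoImplicit false
set_option linter.unusedSectionVars false

namespace SYM

open STZ LGR MeasureTheory Matrix Filter Set

open scoped ComplexConjugate Matrix Real Topology

noncomputable section

namespace KIA

/-- a bounded measurable function on the square is integrable -/
theorem prodInt {H : ℝ → ℝ → ℝ} (hm : Measurable fun z : ℝ × ℝ => H z.1 z.2) {C : ℝ}
    (hC : ∀ t ∈ Ioc (0 : ℝ) 1, ∀ s ∈ Ioc (0 : ℝ) 1, ‖H t s‖ ≤ C) :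
    IntervalIntegrable (fun t => ∫ s in (0 : ℝ)..1, H t s) volume 0 1 := by
  rw [intervalIntegrable_iff_integrableOn_Ioc_of_le zero_le_one]
  simp only [intervalIntegral.integral_of_le zero_le_one]
  have h1 : Integrable (fun z : ℝ × ℝ => H z.1 z.2)
      ((volume.restrict (Ioc (0 : ℝ) 1)).prod (volume.restrict (Ioc (0 : ℝ) 1))) := by
    refine Integrable.mono' (g := fun _ => C) (integrable_const C) hm.aestronglyMeasurable ?_
    rw [Measure.prod_restrict]
    refine (ae_restrict_iff' (measurableSet_Ioc.prod measurableSet_Ioc)).2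
      (Filter.Eventually.of_forall fun z hz => ?_)
    exact hC z.1 hz.1 z.2 hz.2
  exact h1.integral_prod_left

theorem secInt {H : ℝ → ℝ} (hm : Measurable H) {C : ℝ}
    (hC : ∀ s ∈ Ioc (0 : ℝ) 1, ‖H s‖ ≤ C) : IntervalIntegrable H volume 0 1 := by
  rw [intervalIntegrable_iff_integrableOn_Ioc_of_le zero_le_one]
  refine Measure.integrableOn_of_bounded (M := C) (by simp) hm.aestronglyMeasurable ?_
  exact (ae_restrict_iff' measurableSet_Ioc).2 (Filter.Eventually.of_forall fun s hs => hC s hs)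

end KIA

open STZ.TTX KIA in
theorem t_KIA : M_KIA := by
  intro hY M _ _ _ _ _ _ μ _ p hp k χ A E Γ hχ hkc hA hE hsup hform hint G hG hG1
  have hp0 : 0 < p := by linarith
  have hGt : ∀ t, Continuous (G t) := sec' hG
  set e : ℝ → ℝ := fun t => ∫ x, ‖G t x‖ ∂μ with he
  have hec : Continuous e := par μ (f := fun (t : ℝ) (x : M) => ‖G t x‖) (continuous_norm.comp hG)
  have he0 : ∀ t, 0 ≤ e t := fun t => integral_nonneg fun x => norm_nonneg _
  set f : ℝ → ℝ := fun t => e t ^ (1 - 1 / p) with hf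
  set κ : ℝ → ℝ := fun t => A t ^ (1 - 2 / p) * E t ^ (2 / p) with hκ
  have hx1 : 0 ≤ 1 - 1 / p := by
    rw [sub_nonneg, div_le_one hp0]
    linarith
  have hx2 : 0 ≤ 1 - 2 / p := by
    rw [sub_nonneg, div_le_one hp0]
    linarith
  have hx3 : 0 ≤ 2 / p := by positivity
  have hfc : Continuous f := hec.rpow_const fun _ => Or.inr hx1
  have hκc : Continuous κ := (hA.cont.rpow_const fun _ => Or.inr hx2).mul
    (hE.cont.rpow_const fun _ => Or.inr hx3)
  have hf0 : ∀ x, 0 ≤ f x := fun x => Real.rpow_nonneg (he0 x) _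
  have hκ0 : ∀ x, 0 ≤ κ x := fun x =>
    mul_nonneg (Real.rpow_nonneg (hA.nn x) _) (Real.rpow_nonneg (hE.nn x) _)
  have hκN : Nice κ := ⟨hκc, hκ0, fun x => by simp only [hκ, hA.per, hE.per],
    fun x => by simp only [hκ, hA.even, hE.even]⟩
  have hY1 := hY p f κ χ hp.le hfc hκN hχ hf0
  set β : ℝ → ℝ → ℂ := fun t s => bf μ (k (t - s)) (G s) (G t) with hβ
  have hb : ∀ t s, ‖β t s‖ ≤ κ (t - s) * f t * f s := by
    intro t s
    have hk : Continuous fun z : M × M => k (t - s) z.1 z.2 :=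
      hkc.comp (f := fun z : M × M => (t - s, z.1, z.2)) (by fun_prop)
    have e1 : ‖β t s‖ ≤ A (t - s) * (e s * e t) :=
      bf_sup μ hk (hsup (t - s)) (hGt s) (hGt t)
    have e2 : ‖β t s‖ ≤ E (t - s) * (√(e s) * √(e t)) := by
      refine (hform (t - s) (G s) (G t) (hGt s) (hGt t)).trans ?_
      refine mul_le_mul_of_nonneg_left ?_ (hE.nn _)
      exact mul_le_mul (Real.sqrt_le_sqrt (nsq_le μ (hGt s) (hG1 s)))
        (Real.sqrt_le_sqrt (nsq_le μ (hGt t) (hG1 t))) (Real.sqrt_nonneg _) (Real.sqrt_nonneg _)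
    refine (gm hp (norm_nonneg _) (hA.nn _) (hE.nn _) (he0 s) (he0 t) e1 e2).trans
      (le_of_eq ?_)
    simp only [hκ, hf]
    ring
  have hJ : JJ μ (fun t x y => (χ t : ℂ) * k t x y) G =
      ∫ t in (0 : ℝ)..1, ∫ s in (0 : ℝ)..1, (χ (t - s) : ℂ) * β t s := by
    unfold JJ
    refine intervalIntegral.integral_congr fun t _ => ?_
    refine intervalIntegral.integral_congr fun s _ => ?_
    simp only [hβ]
    unfold bf
    rw [← integral_const_mul]
    refine integral_congr_ae (Filter.Eventually.of_forall fun x => ?_)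
    have h1 : ∀ y, (χ (t - s) : ℂ) * k (t - s) x y * G s y =
        (χ (t - s) : ℂ) * (k (t - s) x y * G s y) := fun y => by ring
    simp only [h1, integral_const_mul]
    ring
  -- boundedness of the majorant
  obtain ⟨Cκ, hCκ⟩ := (isCompact_Icc (a := (-1 : ℝ)) (b := 1)).exists_bound_of_continuousOn
    hκc.continuousOn
  obtain ⟨Cf, hCf⟩ := (isCompact_Icc (a := (0 : ℝ)) (b := 1)).exists_bound_of_continuousOn
    hfc.continuousOn
  have hCf0 : 0 ≤ Cf := (norm_nonneg _).trans (hCf 0 ⟨le_rfl, zero_le_one⟩)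
  have hCκ0 : 0 ≤ Cκ := (norm_nonneg _).trans (hCκ 0 ⟨by norm_num, zero_le_one⟩)
  set H : ℝ → ℝ → ℝ := fun t s => χ (t - s) * κ (t - s) * f t * f s with hH
  have hHm : Measurable fun z : ℝ × ℝ => H z.1 z.2 := by
    simp only [hH]
    have h1 : Measurable fun z : ℝ × ℝ => z.1 - z.2 := measurable_fst.sub measurable_snd
    exact (((hχ.meas.comp h1).mul (hκc.measurable.comp h1)).mul
      (hfc.measurable.comp measurable_fst)).mul (hfc.measurable.comp measurable_snd)
  have hHC : ∀ t ∈ Ioc (0 : ℝ) 1, ∀ s ∈ Ioc (0 : ℝ) 1, ‖H t s‖ ≤ Cκ * Cf * Cf := by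
    intro t ht s hs
    simp only [hH, norm_mul]
    have h1 : ‖χ (t - s)‖ ≤ 1 := by
      rw [Real.norm_of_nonneg (hχ.nn _)]
      exact hχ.le _
    have h2 := hCκ (t - s) ⟨by linarith [ht.1, hs.2], by linarith [ht.2, hs.1]⟩
    have h3 := hCf t ⟨ht.1.le, ht.2⟩
    have h4 := hCf s ⟨hs.1.le, hs.2⟩
    calc ‖χ (t - s)‖ * ‖κ (t - s)‖ * ‖f t‖ * ‖f s‖ ≤ 1 * Cκ * Cf * Cf := by gcongr
      _ = Cκ * Cf * Cf := by ring
  have hHs : ∀ t ∈ Ioc (0 : ℝ) 1, IntervalIntegrable (H t) volume 0 1 := by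
    intro t ht
    refine secInt (H := H t) ?_ (hHC t ht)
    exact hHm.comp (measurable_const.prodMk measurable_id)
  have e3 : ‖∫ t in (0 : ℝ)..1, ∫ s in (0 : ℝ)..1, (χ (t - s) : ℂ) * β t s‖ ≤
      ∫ t in (0 : ℝ)..1, ∫ s in (0 : ℝ)..1, H t s := by
    refine intervalIntegral.norm_integral_le_of_norm_le zero_le_one
      (Filter.Eventually.of_forall fun t ht => ?_) (prodInt hHm hHC)
    refine intervalIntegral.norm_integral_le_of_norm_le zero_le_one
      (Filter.Eventually.of_forall fun s hs => ?_) (hHs t ht)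
    rw [norm_mul, Complex.norm_real, Real.norm_of_nonneg (hχ.nn _)]
    simp only [hH]
    calc χ (t - s) * ‖β t s‖ ≤ χ (t - s) * (κ (t - s) * f t * f s) :=
          mul_le_mul_of_nonneg_left (hb t s) (hχ.nn _)
      _ = _ := by ring
  have e4 : ∀ t, κ t ^ (p / 2) = A t ^ (p / 2 - 1) * E t := by
    intro t
    simp only [hκ]
    rw [Real.mul_rpow (Real.rpow_nonneg (hA.nn t) _) (Real.rpow_nonneg (hE.nn t) _),
      ← Real.rpow_mul (hA.nn t), ← Real.rpow_mul (hE.nn t)]
    have y1 : (1 - 2 / p) * (p / 2) = p / 2 - 1 := by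
      field_simp
    have y2 : 2 / p * (p / 2) = 1 := by
      field_simp
    rw [y1, y2, Real.rpow_one]
  have e5 : ∀ t, f t ^ (p / (p - 1)) = e t := by
    intro t
    simp only [hf]
    rw [← Real.rpow_mul (he0 t)]
    have y1 : (1 - 1 / p) * (p / (p - 1)) = 1 := by
      have : p - 1 ≠ 0 := by linarith
      field_simp
    rw [y1, Real.rpow_one]
  have e6 : 2 * (p - 1) / p = 2 - 2 / p := by
    field_simp
  simp only [e4, e5, e6] at hY1
  rw [hJ]
  refine e3.trans (hY1.trans ?_)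
  refine mul_le_mul_of_nonneg_right ?_ (Real.rpow_nonneg
    (intervalIntegral.integral_nonneg zero_le_one fun t _ => he0 t) _)
  refine Real.rpow_le_rpow (intervalIntegral.integral_nonneg zero_le_one fun t _ => ?_) hint hx3
  exact mul_nonneg (hχ.nn t) (mul_nonneg (Real.rpow_nonneg (hA.nn t) _) (hE.nn t))

end

end SYM
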