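import Pool.Agent.SYM.StT
import Pool.Agent.STZ.TTX

/-!
# Module KIB: pieces of the second kind
-/

set_option autoImplicit false
set_option linter.unusedSectionVars false

namespace SYM

open STZ LGR MeasureTheory Matrix Filter Set

open scoped ComplexConjugate Matrix Real Topology

noncomputable section

namespace KIB

open STZ.TTX

section

variable {M : Type} [TopologicalSpace M] [CompactSpace M] [T2Space M]
  [SecondCountableTopology M] [MeasurableSpace M] [BorelSpace M] (μ : Measure M)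
  [IsProbabilityMeasure μ]

/-- a jointly continuous function is bounded on `[0, 1] × M` -/
theorem jcBd {g : ℝ → M → ℂ} (hg : JC g) : ∃ C, ∀ t ∈ Icc (0 : ℝ) 1, ∀ x, ‖g t x‖ ≤ C := by
  have h1 : Continuous fun z : ℝ × M => g z.1 z.2 := hg
  obtain ⟨C, hC⟩ := ((isCompact_Icc (a := (0 : ℝ)) (b := 1)).prod
    (isCompact_univ (X := M))).exists_bound_of_continuousOn h1.continuousOn
  exact ⟨C, fun t ht x => hC (t, x) ⟨ht, mem_univ x⟩⟩

/-- integrability of the multiplier form -/
theorem fubInt {φ : ℝ → ℂ} {B : ℝ} (hφ : Measurable φ) (hB : ∀ t, ‖φ t‖ ≤ B) {g : ℝ → M → ℂ}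
    (hg : JC g) :
    Integrable (Function.uncurry fun (z : ℝ × ℝ) (x : M) =>
        φ (z.1 - z.2) * (conj (g z.1 x) * g z.2 x))
      (((volume.restrict (Ioc (0 : ℝ) 1)).prod (volume.restrict (Ioc (0 : ℝ) 1))).prod μ) := by
  obtain ⟨C, hC⟩ := jcBd hg
  have hg' : Continuous fun z : ℝ × M => g z.1 z.2 := hg
  have hB0 : 0 ≤ B := (norm_nonneg _).trans (hB 0)
  have hm : Measurable (Function.uncurry fun (z : ℝ × ℝ) (x : M) =>
      φ (z.1 - z.2) * (conj (g z.1 x) * g z.2 x)) := by
    have h1 : Measurable fun w : (ℝ × ℝ) × M => φ (w.1.1 - w.1.2) :=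
      hφ.comp ((measurable_fst.comp measurable_fst).sub (measurable_snd.comp measurable_fst))
    have h2 : Measurable fun w : (ℝ × ℝ) × M => conj (g w.1.1 w.2) := by
      have h3 : Continuous fun z : ℝ × M => conj (g z.1 z.2) := Complex.continuous_conj.comp hg'
      exact h3.measurable.comp ((measurable_fst.comp measurable_fst).prodMk measurable_snd)
    have h3 : Measurable fun w : (ℝ × ℝ) × M => g w.1.2 w.2 :=
      hg'.measurable.comp ((measurable_snd.comp measurable_fst).prodMk measurable_snd)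
    exact h1.mul (h2.mul h3)
  refine Integrable.mono' (g := fun _ => B * (C * C)) (integrable_const _)
    hm.aestronglyMeasurable ?_
  have e1 : ((volume.restrict (Ioc (0 : ℝ) 1)).prod (volume.restrict (Ioc (0 : ℝ) 1))).prod μ =
      (((volume : Measure ℝ).prod (volume : Measure ℝ)).prod μ).restrict
        ((Ioc (0 : ℝ) 1 ×ˢ Ioc (0 : ℝ) 1) ×ˢ (univ : Set M)) := by
    rw [← Measure.prod_restrict, ← Measure.prod_restrict, Measure.restrict_univ]
  rw [e1]
  refine (ae_restrict_iff' ((measurableSet_Ioc.prod measurableSet_Ioc).prod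
    MeasurableSet.univ)).2 (Filter.Eventually.of_forall fun w hw => ?_)
  obtain ⟨⟨h1, h2⟩, _⟩ := hw
  simp only [Function.uncurry, norm_mul, RCLike.norm_conj]
  have h3 := hC w.1.1 (Ioc_subset_Icc_self h1) w.2
  have h4 := hC w.1.2 (Ioc_subset_Icc_self h2) w.2
  have h5 : 0 ≤ C := (norm_nonneg _).trans h3
  exact mul_le_mul (hB _) (mul_le_mul h3 h4 (norm_nonneg _) h5)
    (mul_nonneg (norm_nonneg _) (norm_nonneg _)) hB0

/-- integrability of the multiplier form, one point -/
theorem fubInt1 {φ : ℝ → ℂ} {B : ℝ} (hφ : Measurable φ) (hB : ∀ t, ‖φ t‖ ≤ B) {g : ℝ → ℂ}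
    (hg : Continuous g) :
    Integrable (fun z : ℝ × ℝ => φ (z.1 - z.2) * (conj (g z.1) * g z.2))
      ((volume.restrict (Ioc (0 : ℝ) 1)).prod (volume.restrict (Ioc (0 : ℝ) 1))) := by
  obtain ⟨C, hC⟩ := (isCompact_Icc (a := (0 : ℝ)) (b := 1)).exists_bound_of_continuousOn
    hg.continuousOn
  have hB0 : 0 ≤ B := (norm_nonneg _).trans (hB 0)
  have hm : Measurable fun z : ℝ × ℝ => φ (z.1 - z.2) * (conj (g z.1) * g z.2) := by
    have h1 : Measurable fun z : ℝ × ℝ => φ (z.1 - z.2) :=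
      hφ.comp (measurable_fst.sub measurable_snd)
    have h2 : Measurable fun z : ℝ × ℝ => conj (g z.1) :=
      (Complex.continuous_conj.comp hg).measurable.comp measurable_fst
    exact h1.mul (h2.mul (hg.measurable.comp measurable_snd))
  refine Integrable.mono' (g := fun _ => B * (C * C)) (integrable_const _)
    hm.aestronglyMeasurable ?_
  rw [Measure.prod_restrict]
  refine (ae_restrict_iff' (measurableSet_Ioc.prod measurableSet_Ioc)).2
    (Filter.Eventually.of_forall fun w hw => ?_)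
  simp only [norm_mul, RCLike.norm_conj]
  have h3 := hC w.1 (Ioc_subset_Icc_self hw.1)
  have h4 := hC w.2 (Ioc_subset_Icc_self hw.2)
  have h5 : 0 ≤ C := (norm_nonneg _).trans h3
  exact mul_le_mul (hB _) (mul_le_mul h3 h4 (norm_nonneg _) h5)
    (mul_nonneg (norm_nonneg _) (norm_nonneg _)) hB0

/-- Fubini for the multiplier form -/
theorem fub {φ : ℝ → ℂ} {B : ℝ} (hφ : Measurable φ) (hB : ∀ t, ‖φ t‖ ≤ B) {g : ℝ → M → ℂ}
    (hg : JC g) :
    (∫ t in (0 : ℝ)..1, ∫ s in (0 : ℝ)..1, φ (t - s) * ∫ x, conj (g t x) * g s x ∂μ) =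
      ∫ x, (∫ t in (0 : ℝ)..1, ∫ s in (0 : ℝ)..1, φ (t - s) * (conj (g t x) * g s x)) ∂μ := by
  have hI := fubInt μ hφ hB hg
  have h1 := integral_integral_swap hI
  have h2 : ∀ x, (∫ z, φ (z.1 - z.2) * (conj (g z.1 x) * g z.2 x)
      ∂((volume.restrict (Ioc (0 : ℝ) 1)).prod (volume.restrict (Ioc (0 : ℝ) 1)))) =
      ∫ t in (0 : ℝ)..1, ∫ s in (0 : ℝ)..1, φ (t - s) * (conj (g t x) * g s x) := by
    intro x
    rw [integral_prod _ (fubInt1 hφ hB (sec hg x)), intervalIntegral.integral_of_le zero_le_one]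
    refine integral_congr_ae (Filter.Eventually.of_forall fun t => ?_)
    simp only
    rw [intervalIntegral.integral_of_le zero_le_one]
  have h3 : (∫ z, (∫ x, φ (z.1 - z.2) * (conj (g z.1 x) * g z.2 x) ∂μ)
      ∂((volume.restrict (Ioc (0 : ℝ) 1)).prod (volume.restrict (Ioc (0 : ℝ) 1)))) =
      ∫ t in (0 : ℝ)..1, ∫ s in (0 : ℝ)..1, φ (t - s) * ∫ x, conj (g t x) * g s x ∂μ := by
    have h4 : Integrable (fun z : ℝ × ℝ => ∫ x, φ (z.1 - z.2) * (conj (g z.1 x) * g z.2 x) ∂μ)
        ((volume.restrict (Ioc (0 : ℝ) 1)).prod (volume.restrict (Ioc (0 : ℝ) 1))) :=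
      hI.integral_prod_left
    rw [integral_prod _ h4, intervalIntegral.integral_of_le zero_le_one]
    refine integral_congr_ae (Filter.Eventually.of_forall fun t => ?_)
    simp only
    rw [intervalIntegral.integral_of_le zero_le_one]
    refine integral_congr_ae (Filter.Eventually.of_forall fun s => ?_)
    simp only
    rw [integral_const_mul]
  rw [← h3]
  simp only [← h2]
  exact h1

end

/-- the final interpolation -/
theorem fin {p X A E e : ℝ} (hp : 2 < p) (hX : 0 ≤ X) (hA : 0 ≤ A) (hE : 0 ≤ E) (he : 0 ≤ e)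
    (h1 : X ≤ A * (e * e)) (h2 : X ≤ E * e) :
    X ≤ (A ^ (p / 2 - 1) * E) ^ (2 / p) * e ^ (2 - 2 / p) := by
  have hp0 : 0 < p := by linarith
  have h3 := gm hp hX hA hE he he h1 (by rwa [Real.mul_self_sqrt he])
  refine h3.trans (le_of_eq ?_)
  have hx1 : 0 ≤ 1 - 1 / p := by
    rw [sub_nonneg, div_le_one hp0]
    linarith
  rw [Real.mul_rpow (Real.rpow_nonneg hA _) hE, ← Real.rpow_mul hA]
  have y1 : (p / 2 - 1) * (2 / p) = 1 - 2 / p := by
    field_simp
  have y2 : (2 : ℝ) - 2 / p = (1 - 1 / p) + (1 - 1 / p) := by ring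
  rw [y1, y2, Real.rpow_add_of_nonneg he hx1 hx1]
  ring

end KIB

open STZ.TTX KIB in
theorem t_KIB : M_KIB := by
  intro hKB hV M _ _ _ _ _ _ μ _ ι K hK p hp T m χ A E hχ hA0 hE0 hmc hmp hsup hfou G hG hG1
  have B := hKB M μ ι K hK
  have hGt : ∀ t, Continuous (G t) := sec' hG
  set e : ℝ → ℝ := fun t => ∫ x, ‖G t x‖ ∂μ with he
  have hec : Continuous e := par μ (f := fun (t : ℝ) (x : M) => ‖G t x‖) (continuous_norm.comp hG)
  have he0 : ∀ t, 0 ≤ e t := fun t => integral_nonneg fun x => norm_nonneg _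
  have hn0 : ∀ w : M → ℂ, 0 ≤ nsq μ w := fun w => integral_nonneg fun x => by positivity
  -- the kernel
  have hkc : ∀ t, Continuous fun z : M × M => (χ t : ℂ) * ∑ b ∈ T, m b t * K b z.1 z.2 := by
    intro t
    exact continuous_const.mul
      (continuous_finsetSum _ fun b _ => continuous_const.mul (hK.cont b))
  have hJ : JJ μ (fun t x y => (χ t : ℂ) * ∑ b ∈ T, m b t * K b x y) G =
      ∫ t in (0 : ℝ)..1, ∫ s in (0 : ℝ)..1,
        bf μ (fun x y => (χ (t - s) : ℂ) * ∑ b ∈ T, m b (t - s) * K b x y) (G s) (G t) := rfl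
  -- first bound
  have b1 : ‖JJ μ (fun t x y => (χ t : ℂ) * ∑ b ∈ T, m b t * K b x y) G‖ ≤
      A * ((∫ t in (0 : ℝ)..1, e t) * ∫ t in (0 : ℝ)..1, e t) := by
    rw [hJ]
    have e1 : A * ((∫ t in (0 : ℝ)..1, e t) * ∫ t in (0 : ℝ)..1, e t) =
        ∫ t in (0 : ℝ)..1, ∫ s in (0 : ℝ)..1, A * (e s * e t) := by
      simp only [intervalIntegral.integral_const_mul, intervalIntegral.integral_mul_const]
    rw [e1]
    refine intervalIntegral.norm_integral_le_of_norm_le zero_le_one
      (Filter.Eventually.of_forall fun t _ => ?_) ?_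
    · refine intervalIntegral.norm_integral_le_of_norm_le zero_le_one
        (Filter.Eventually.of_forall fun s _ => ?_) ?_
      · exact bf_sup μ (hkc (t - s)) (hsup (t - s)) (hGt s) (hGt t)
      · exact (Continuous.intervalIntegrable (by fun_prop) _ _)
    · simp only [intervalIntegral.integral_const_mul, intervalIntegral.integral_mul_const]
      exact (Continuous.intervalIntegrable (by fun_prop) _ _)
  -- second bound
  have hgJ : ∀ b, JC fun t x => Pr μ K {b} (G t) x := by
    intro b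
    unfold JC Pr
    simp only [Finset.sum_singleton]
    refine par μ (f := fun (w : ℝ × M) (y : M) => K b w.2 y * G w.1 y) ?_
    refine Continuous.mul ?_ ?_
    · exact (hK.cont b).comp (f := fun z : (ℝ × M) × M => (z.1.2, z.2)) (by fun_prop)
    · exact Continuous.comp (g := fun z : ℝ × M => G z.1 z.2) hG
        (f := fun z : (ℝ × M) × M => (z.1.1, z.2)) (by fun_prop)
  have hφm : ∀ b ∈ T, Measurable fun t => (χ t : ℂ) * m b t := fun b hb =>
    (Complex.measurable_ofReal.comp hχ.meas).mul (hmc b hb).measurable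
  have hφp : ∀ b ∈ T, ∀ t, (χ (t + 1) : ℂ) * m b (t + 1) = (χ t : ℂ) * m b t := by
    intro b hb t
    rw [hχ.per, hmp b hb]
  have hφb : ∀ b ∈ T, ∃ C, ∀ t, ‖(χ t : ℂ) * m b t‖ ≤ C := by
    intro b hb
    obtain ⟨C, hC⟩ := (isCompact_Icc (a := (0 : ℝ)) (b := 1)).exists_bound_of_continuousOn
      (hmc b hb).continuousOn
    refine ⟨C, fun t => ?_⟩
    have hper : Function.Periodic (m b) 1 := hmp b hb
    obtain ⟨y, hy, hy2⟩ := hper.exists_mem_Ico₀ zero_lt_one t
    rw [norm_mul, Complex.norm_real, Real.norm_of_nonneg (hχ.nn _), hy2]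
    have h1 := hC y ⟨hy.1, hy.2.le⟩
    calc χ t * ‖m b y‖ ≤ 1 * ‖m b y‖ := mul_le_mul_of_nonneg_right (hχ.le t) (norm_nonneg _)
      _ = ‖m b y‖ := one_mul _
      _ ≤ C := h1
  have hbf : ∀ t s, bf μ (fun x y => (χ (t - s) : ℂ) * ∑ b ∈ T, m b (t - s) * K b x y) (G s) (G t) =
      ∑ b ∈ T, ((χ (t - s) : ℂ) * m b (t - s)) *
        ∫ x, conj (Pr μ K {b} (G t) x) * Pr μ K {b} (G s) x ∂μ := by
    intro t s
    have h1 : (fun x y => (χ (t - s) : ℂ) * ∑ b ∈ T, m b (t - s) * K b x y) =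
        fun x y => ∑ b ∈ T, ((χ (t - s) : ℂ) * m b (t - s)) * K b x y := by
      funext x y
      rw [Finset.mul_sum]
      exact Finset.sum_congr rfl fun b _ => by ring
    rw [h1, bf_sum μ T (fun b => (χ (t - s) : ℂ) * m b (t - s)) K (fun b _ => hK.cont b)
      (hGt s) (hGt t)]
    refine Finset.sum_congr rfl fun b _ => ?_
    congr 1
    rw [B.adj {b} (Pr μ K {b} (G s)) (G t) (B.cont {b} _ (hGt s)) (hGt t), B.idem {b} _ (hGt s)]
    unfold bf Pr
    simp only [Finset.sum_singleton]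
  have hInt2 : ∀ b ∈ T, IntervalIntegrable (fun t => ∫ s in (0 : ℝ)..1,
      ((χ (t - s) : ℂ) * m b (t - s)) *
        ∫ x, conj (Pr μ K {b} (G t) x) * Pr μ K {b} (G s) x ∂μ) volume 0 1 := by
    intro b hb
    obtain ⟨C, hC⟩ := hφb b hb
    have hI := (fubInt μ (hφm b hb) hC (hgJ b)).integral_prod_left
    have h2 := hI.integral_prod_left
    rw [intervalIntegrable_iff_integrableOn_Ioc_of_le zero_le_one]
    refine Integrable.congr h2 (Filter.Eventually.of_forall fun t => ?_)
    simp only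
    rw [intervalIntegral.integral_of_le zero_le_one]
    refine integral_congr_ae (Filter.Eventually.of_forall fun s => ?_)
    simp only [Function.uncurry]
    rw [integral_const_mul]
  have hInt1 : ∀ b ∈ T, ∀ t, IntervalIntegrable (fun s =>
      ((χ (t - s) : ℂ) * m b (t - s)) *
        ∫ x, conj (Pr μ K {b} (G t) x) * Pr μ K {b} (G s) x ∂μ) volume 0 1 := by
    intro b hb t
    obtain ⟨C, hC⟩ := hφb b hb
    have hc : Continuous fun s => ∫ x, conj (Pr μ K {b} (G t) x) * Pr μ K {b} (G s) x ∂μ := by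
      refine par μ (f := fun (s : ℝ) (x : M) =>
        conj (Pr μ K {b} (G t) x) * Pr μ K {b} (G s) x) ?_
      exact ((Complex.continuous_conj.comp (sec' (hgJ b) t)).comp continuous_snd).mul (hgJ b)
    have h1 : IntervalIntegrable (fun s => (χ (t - s) : ℂ) * m b (t - s)) volume 0 1 := by
      rw [intervalIntegrable_iff_integrableOn_Ioc_of_le zero_le_one]
      refine Measure.integrableOn_of_bounded (M := C) (by simp)
        ((hφm b hb).comp (measurable_const.sub measurable_id)).aestronglyMeasurable ?_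
      exact Filter.Eventually.of_forall fun s => hC (t - s)
    exact h1.mul_continuousOn hc.continuousOn
  have b2 : ‖JJ μ (fun t x y => (χ t : ℂ) * ∑ b ∈ T, m b t * K b x y) G‖ ≤
      E * ∫ t in (0 : ℝ)..1, e t := by
    have e1 : JJ μ (fun t x y => (χ t : ℂ) * ∑ b ∈ T, m b t * K b x y) G =
        ∑ b ∈ T, ∫ x, (∫ t in (0 : ℝ)..1, ∫ s in (0 : ℝ)..1, ((χ (t - s) : ℂ) * m b (t - s)) *
          (conj (Pr μ K {b} (G t) x) * Pr μ K {b} (G s) x)) ∂μ := by
      rw [hJ]
      simp only [hbf]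
      have e2 : ∀ t, ∫ s in (0 : ℝ)..1, ∑ b ∈ T, ((χ (t - s) : ℂ) * m b (t - s)) *
          ∫ x, conj (Pr μ K {b} (G t) x) * Pr μ K {b} (G s) x ∂μ =
          ∑ b ∈ T, ∫ s in (0 : ℝ)..1, ((χ (t - s) : ℂ) * m b (t - s)) *
          ∫ x, conj (Pr μ K {b} (G t) x) * Pr μ K {b} (G s) x ∂μ := fun t =>
        intervalIntegral.integral_finsetSum fun b hb => hInt1 b hb t
      simp only [e2]
      rw [intervalIntegral.integral_finsetSum fun b hb => hInt2 b hb]
      refine Finset.sum_congr rfl fun b hb => ?_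
      obtain ⟨C, hC⟩ := hφb b hb
      exact fub μ (hφm b hb) hC (hgJ b)
    rw [e1]
    have e3 : ∀ b ∈ T, ‖∫ x, (∫ t in (0 : ℝ)..1, ∫ s in (0 : ℝ)..1,
        ((χ (t - s) : ℂ) * m b (t - s)) *
          (conj (Pr μ K {b} (G t) x) * Pr μ K {b} (G s) x)) ∂μ‖ ≤
        E * ∫ t in (0 : ℝ)..1, nsq μ (Pr μ K {b} (G t)) := by
      intro b hb
      obtain ⟨C, hC⟩ := hφb b hb
      have hc : Continuous fun x => ∫ t in (0 : ℝ)..1, ‖Pr μ K {b} (G t) x‖ ^ 2 := by
        refine intervalIntegral.continuous_parametric_intervalIntegral_of_continuous'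
          (f := fun (x : M) (t : ℝ) => ‖Pr μ K {b} (G t) x‖ ^ 2) ?_ 0 1
        have h1 : Continuous fun z : ℝ × M => ‖Pr μ K {b} (G z.1) z.2‖ ^ 2 :=
          (continuous_norm.comp (hgJ b)).pow 2
        exact h1.comp (f := fun z : M × ℝ => (z.2, z.1)) (by fun_prop)
      have e4 : ∫ t in (0 : ℝ)..1, nsq μ (Pr μ K {b} (G t)) =
          ∫ x, (∫ t in (0 : ℝ)..1, ‖Pr μ K {b} (G t) x‖ ^ 2) ∂μ := by
        unfold nsq
        refine intervalIntegral_integral_swap ?_
        rw [uIoc_of_le zero_le_one]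
        have h1 : Continuous (Function.uncurry fun (t : ℝ) (x : M) =>
            ‖Pr μ K {b} (G t) x‖ ^ 2) := (continuous_norm.comp (hgJ b)).pow 2
        have h2 : IntegrableOn (Function.uncurry fun (t : ℝ) (x : M) =>
            ‖Pr μ K {b} (G t) x‖ ^ 2) ((Icc (0 : ℝ) 1) ×ˢ (univ : Set M))
            ((volume : Measure ℝ).prod μ) :=
          h1.continuousOn.integrableOn_compact (isCompact_Icc.prod isCompact_univ)
        have h3 := h2.mono_set (prod_mono Ioc_subset_Icc_self (subset_univ univ))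
        have h4 : ((volume : Measure ℝ).restrict (Ioc 0 1)).prod μ =
            ((volume : Measure ℝ).prod μ).restrict ((Ioc (0 : ℝ) 1) ×ˢ (univ : Set M)) := by
          rw [← Measure.prod_restrict, Measure.restrict_univ]
        rw [h4]
        exact h3
      rw [e4, ← integral_const_mul]
      refine norm_integral_le_of_norm_le (integ μ (continuous_const.mul hc))
        (Filter.Eventually.of_forall fun x => ?_)
      exact hV (fun t => (χ t : ℂ) * m b t) C E (hφm b hb) hC (hφp b hb) hE0 (hfou b hb)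
        (fun t => Pr μ K {b} (G t) x) (sec (hgJ b) x)
    refine (norm_sum_le _ _).trans ((Finset.sum_le_sum e3).trans ?_)
    rw [← Finset.mul_sum]
    refine mul_le_mul_of_nonneg_left ?_ hE0
    have hnc : ∀ b, Continuous fun t => nsq μ (Pr μ K {b} (G t)) := by
      intro b
      unfold nsq
      exact par μ (f := fun (t : ℝ) (x : M) => ‖Pr μ K {b} (G t) x‖ ^ 2)
        ((continuous_norm.comp (hgJ b)).pow 2)
    rw [← intervalIntegral.integral_finsetSum fun b _ => (hnc b).intervalIntegrable _ _]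
    refine intervalIntegral.integral_mono_on zero_le_one
      ((continuous_finsetSum _ fun b _ => hnc b).intervalIntegrable _ _)
      (hec.intervalIntegrable _ _) fun t _ => ?_
    rw [← B.pyth T (G t) (hGt t)]
    exact (B.bess T (G t) (hGt t)).trans (nsq_le μ (hGt t) (hG1 t))
  exact KIB.fin hp (norm_nonneg _) hA0 hE0
    (intervalIntegral.integral_nonneg zero_le_one fun t _ => he0 t) b1 b2

end

end SYM
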