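import Pool.Agent.SYM.StS

/-!
# Module KSKR: the kernels for the functions which are invariant under right translations
-/

namespace SYM

set_option linter.unusedSectionVars false

open STZ LGR MeasureTheory Matrix Filter

open scoped ComplexConjugate Matrix Real Topology

noncomputable section

namespace KSKR

/-- Fubini for continuous functions on compact spaces -/
theorem swap {X Y : Type} [TopologicalSpace X] [CompactSpace X] [SecondCountableTopology X]
    [MeasurableSpace X] [BorelSpace X] [TopologicalSpace Y] [CompactSpace Y] [SecondCountableTopology Y]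
    [MeasurableSpace Y] [BorelSpace Y] (μ : Measure X) [IsFiniteMeasure μ] (ν : Measure Y) [IsFiniteMeasure ν]
    (F : X → Y → ℂ) (hF : Continuous (Function.uncurry F)) :
    ∫ x, ∫ y, F x y ∂ν ∂μ = ∫ y, ∫ x, F x y ∂μ ∂ν :=
  integral_integral_swap (hF.integrable_of_hasCompactSupport (HasCompactSupport.of_compactSpace _))

section abs

variable {G K : Type} [Group G] [TopologicalSpace G] [IsTopologicalGroup G] [CompactSpace G] [T2Space G]
  [SecondCountableTopology G] [MeasurableSpace G] [BorelSpace G]
  [Group K] [TopologicalSpace K] [IsTopologicalGroup K] [CompactSpace K] [T2Space K]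
  [SecondCountableTopology K] [MeasurableSpace K] [BorelSpace K]

/-- translations in the two variables of the kernel -/
theorem kk_move {ι : Type} (χ : ι → G → ℂ) (a : ι) (x h y : G) : KK χ a (x * h) y = KK χ a x (y * h⁻¹) := by
  unfold KK
  congr 2
  group

theorem cont_int {X : Type} [TopologicalSpace X] [FirstCountableTopology X] [LocallyCompactSpace X]
    (ν : Measure K) [IsFiniteMeasure ν] (F : X → K → ℂ)
    (hF : Continuous (Function.uncurry F)) : Continuous fun x => ∫ k, F x k ∂ν := by
  have h := continuous_parametric_integral_of_continuous (μ := ν) hF (isCompact_univ (X := K))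
  simpa using h

/-- the averaged kernels -/
def J (ν : Measure K) (φ : K →* G) {ι : Type} (χ : ι → G → ℂ) (a : ι) (x y : G) : ℂ :=
  ∫ k, KK χ a (x * φ k) y ∂ν

variable (μ : Measure G) [IsProbabilityMeasure μ] (ν : Measure K) [IsProbabilityMeasure ν]

theorem J_cont (φ : K →* G) (hφ : Continuous φ) {ι : Type} (χ : ι → G → ℂ) (hK : Ker μ (KK χ)) (a : ι) :
    Continuous fun z : G × G => J ν φ χ a z.1 z.2 := by
  unfold J
  refine cont_int ν (fun (z : G × G) (k : K) => KK χ a (z.1 * φ k) z.2) ?_
  have h1 : Continuous fun w : (G × G) × K => (w.1.1 * φ w.2, w.1.2) := by fun_prop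
  exact (hK.cont a).comp h1

theorem J_herm [ν.IsInvInvariant] (φ : K →* G) {ι : Type} (χ : ι → G → ℂ) (hK : Ker μ (KK χ)) (a : ι)
    (x y : G) : J ν φ χ a x y = conj (J ν φ χ a y x) := by
  unfold J
  rw [← integral_conj]
  rw [← integral_inv_eq_self (fun k => KK χ a (x * φ k) y) ν]
  refine integral_congr_ae (Eventually.of_forall fun k => ?_)
  simp only
  rw [← hK.herm a x (y * φ k), kk_move, ← map_inv, inv_inv]

theorem J_conv [ν.IsMulLeftInvariant] [ν.IsInvInvariant] (φ : K →* G) (hφ : Continuous φ) {ι : Type}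
    (χ : ι → G → ℂ) (hK : Ker μ (KK χ)) (a b : ι) (x z : G) (c : ℂ)
    (hab : ∀ x z : G, ∫ y, KK χ a x y * KK χ b y z ∂μ = c * KK χ a x z) :
    ∫ y, J ν φ χ a x y * J ν φ χ b y z ∂μ = c * J ν φ χ a x z := by
  have e1 : ∀ y : G, J ν φ χ b y z = ∫ k, KK χ b y (z * φ k) ∂ν := by
    intro y
    unfold J
    rw [← integral_inv_eq_self (fun k => KK χ b y (z * φ k)) ν]
    refine integral_congr_ae (Eventually.of_forall fun k => ?_)
    simp only
    rw [kk_move, ← map_inv]
  have hJ2 : Continuous fun y => J ν φ χ b y z :=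
    (J_cont μ ν φ hφ χ hK b).comp (by fun_prop : Continuous fun y : G => (y, z))
  have e2 : ∫ y, J ν φ χ a x y * J ν φ χ b y z ∂μ =
      ∫ k, ∫ y, KK χ a (x * φ k) y * J ν φ χ b y z ∂μ ∂ν := by
    have h1 : ∀ y, J ν φ χ a x y * J ν φ χ b y z =
        ∫ k, KK χ a (x * φ k) y * J ν φ χ b y z ∂ν := by
      intro y
      rw [integral_mul_const]
      rfl
    simp only [h1]
    refine swap μ ν (fun y k => KK χ a (x * φ k) y * J ν φ χ b y z) ?_
    have h2 : Continuous fun w : G × K => (x * φ w.2, w.1) := by fun_prop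
    exact ((hK.cont a).comp h2).mul (hJ2.comp continuous_fst)
  have e3 : ∀ k : K, ∫ y, KK χ a (x * φ k) y * J ν φ χ b y z ∂μ = c * J ν φ χ a x z := by
    intro k
    have h1 : ∀ y, KK χ a (x * φ k) y * J ν φ χ b y z =
        ∫ k', KK χ a (x * φ k) y * KK χ b y (z * φ k') ∂ν := by
      intro y
      rw [e1 y, integral_const_mul]
    simp only [h1]
    rw [swap μ ν (fun y k' => KK χ a (x * φ k) y * KK χ b y (z * φ k'))]
    · simp only [hab]
      rw [integral_const_mul]
      congr 1
      have h3 : ∀ k' : K, KK χ a (x * φ k) (z * φ k') = KK χ a (x * φ (k * k'⁻¹)) z := by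
        intro k'
        rw [map_mul, map_inv, ← mul_assoc, kk_move χ a (x * φ k), inv_inv]
      simp only [h3]
      rw [integral_inv_eq_self (fun k' => KK χ a (x * φ (k * k')) z) ν]
      exact integral_mul_left_eq_self (fun k' => KK χ a (x * φ k') z) k
    · have h2 : Continuous fun w : G × K => (x * φ k, w.1) := by fun_prop
      have h3 : Continuous fun w : G × K => (w.1, z * φ w.2) := by fun_prop
      exact ((hK.cont a).comp h2).mul ((hK.cont b).comp h3)
  rw [e2]
  simp only [e3]
  rw [integral_const, probReal_univ, one_smul]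

theorem J_ker [ν.IsMulLeftInvariant] [ν.IsInvInvariant] (φ : K →* G) (hφ : Continuous φ) {ι : Type}
    (χ : ι → G → ℂ) (hK : Ker μ (KK χ)) : Ker μ (J ν φ χ) where
  cont := J_cont μ ν φ hφ χ hK
  herm := J_herm μ ν φ χ hK
  rep := by
    intro a x z
    have h := J_conv μ ν φ hφ χ hK a a x z 1 (fun x z => by rw [hK.rep, one_mul])
    rwa [one_mul] at h
  orth := by
    intro a b x z hab
    have h := J_conv μ ν φ hφ χ hK a b x z 0 (fun x z => by rw [hK.orth a b x z hab, zero_mul])
    rwa [zero_mul] at h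

theorem J_pr (φ : K →* G) (hφ : Continuous φ) {ι : Type}
    (χ : ι → G → ℂ) (hK : Ker μ (KK χ)) (S : Finset ι) (u : G → ℂ) (hu : Continuous u)
    (hinv : ∀ g k, u (g * φ k) = u g) (hS : Pr μ (KK χ) S u = u) : Pr μ (J ν φ χ) S u = u := by
  funext x
  have e1 : ∀ a, ∫ y, J ν φ χ a x y * u y ∂μ = ∫ k, ∫ y, KK χ a (x * φ k) y * u y ∂μ ∂ν := by
    intro a
    have h1 : ∀ y, J ν φ χ a x y * u y = ∫ k, KK χ a (x * φ k) y * u y ∂ν := by
      intro y
      rw [integral_mul_const]
      rfl
    simp only [h1]
    refine swap μ ν (fun y k => KK χ a (x * φ k) y * u y) ?_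
    have h2 : Continuous fun w : G × K => (x * φ w.2, w.1) := by fun_prop
    exact ((hK.cont a).comp h2).mul (hu.comp continuous_fst)
  have e2 : ∀ a, Integrable (fun k => ∫ y, KK χ a (x * φ k) y * u y ∂μ) ν := by
    intro a
    have h1 : Continuous fun k : K => ∫ y, KK χ a (x * φ k) y * u y ∂μ := by
      refine cont_int μ (fun (k : K) (y : G) => KK χ a (x * φ k) y * u y) ?_
      have h2 : Continuous fun w : K × G => (x * φ w.1, w.2) := by fun_prop
      exact ((hK.cont a).comp h2).mul (hu.comp continuous_snd)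
    exact h1.integrable_of_hasCompactSupport (HasCompactSupport.of_compactSpace _)
  unfold Pr
  simp only [e1]
  rw [← integral_finsetSum _ fun a _ => e2 a]
  have e3 : ∀ k, ∑ a ∈ S, ∫ y, KK χ a (x * φ k) y * u y ∂μ = u x := by
    intro k
    have h1 := congrFun hS (x * φ k)
    unfold Pr at h1
    rw [h1, hinv]
  simp only [e3]
  rw [integral_const, probReal_univ, one_smul]

end abs

end KSKR

theorem t_KSKR : M_KSKR := by
  intro hHA _ hKE N H K hH hKc hK μ _ _ νK _ _ ι χ hχ
  have hcH : CompactSpace H := isCompact_iff_compactSpace.1 hH.isCompact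
  have hcK : CompactSpace K := isCompact_iff_compactSpace.1 hKc.isCompact
  have hsH : SecondCountableTopology H :=
    inferInstanceAs (SecondCountableTopology ((H : Set (SU N)) : Type))
  have hsK : SecondCountableTopology K :=
    inferInstanceAs (SecondCountableTopology ((K : Set (SU N)) : Type))
  obtain ⟨hker, -⟩ := hKE H μ ι χ hχ
  obtain ⟨-, hinv, -⟩ := hHA K νK
  let φ : K →* H := Subgroup.inclusion hK
  have hφ : Continuous φ := by
    refine Continuous.subtype_mk ?_ _
    exact continuous_subtype_val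
  have hJ : KS hK νK χ = KSKR.J νK φ χ := rfl
  rw [hJ]
  refine ⟨KSKR.J_ker μ νK φ hφ χ hker, ?_⟩
  intro S u hu hui hS
  exact KSKR.J_pr μ νK φ hφ χ hker S u hu (fun g k => hui g k) hS

end

end SYM
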