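import Pool.Agent.SYM.StS

/-!
# KSPN: the translates of a highest weight vector by `K` span the representation
-/

namespace SYM

open STZ LGR MeasureTheory Matrix Filter

open scoped ComplexConjugate Matrix Real Topology

noncomputable section

namespace KSPN

variable {N : ℕ}

/-- the exponential function of a matrix preserves the invariant subspaces -/
theorem exp_mem {n : ℕ} (W : Submodule ℂ (Fin n → ℂ)) (M : Matrix (Fin n) (Fin n) ℂ)
    (h : ∀ w ∈ W, M *ᵥ w ∈ W) (w : Fin n → ℂ) (hw : w ∈ W) : NormedSpace.exp M *ᵥ w ∈ W := by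
  have hpow : ∀ k : ℕ, M ^ k *ᵥ w ∈ W := by
    intro k
    induction k with
    | zero => simpa using hw
    | succ k ih =>
      rw [pow_succ', ← mulVec_mulVec]
      exact h _ ih
  have h2 : Tendsto (fun s : Finset ℕ => (∑ i ∈ s, ((i.factorial : ℂ)⁻¹) • M ^ i) *ᵥ w) atTop
      (𝓝 (NormedSpace.exp M *ᵥ w)) := by
    have h1 : Tendsto (fun s : Finset ℕ => ∑ i ∈ s, ((i.factorial : ℂ)⁻¹) • M ^ i) atTop
        (𝓝 (NormedSpace.exp M)) := by
      let : NormedRing (Matrix (Fin n) (Fin n) ℂ) := Matrix.linftyOpNormedRing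
      let : NormedAlgebra ℂ (Matrix (Fin n) (Fin n) ℂ) := Matrix.linftyOpNormedAlgebra
      exact NormedSpace.exp_series_hasSum_exp' (𝕂 := ℂ) M
    have hc : Continuous fun X : Matrix (Fin n) (Fin n) ℂ => X *ᵥ w :=
      Continuous.matrix_mulVec continuous_id continuous_const
    exact (hc.tendsto _).comp h1
  refine W.closed_of_finiteDimensional.mem_of_tendsto h2 (Eventually.of_forall fun s => ?_)
  have e : (∑ i ∈ s, ((i.factorial : ℂ)⁻¹) • M ^ i) *ᵥ w = ∑ i ∈ s, ((i.factorial : ℂ)⁻¹) • (M ^ i *ᵥ w) := by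
    rw [Matrix.sum_mulVec]
    exact Finset.sum_congr rfl fun i _ => by rw [smul_mulVec]
  show (∑ i ∈ s, ((i.factorial : ℂ)⁻¹) • M ^ i) *ᵥ w ∈ W
  rw [e]
  exact W.sum_mem fun i _ => W.smul_mem _ (hpow i)

/-- `exp` respects the relation `X E = E Y` -/
theorem exp_semi {n : ℕ} {X Y E : Matrix (Fin n) (Fin n) ℂ} (h : X * E = E * Y) :
    NormedSpace.exp X * E = E * NormedSpace.exp Y := by
  have hpow : ∀ n : ℕ, X ^ n * E = E * Y ^ n := by
    intro n
    induction n with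
    | zero => simp
    | succ n ih => rw [pow_succ, Matrix.mul_assoc, h, ← Matrix.mul_assoc, ih, Matrix.mul_assoc, ← pow_succ]
  let : NormedRing (Matrix (Fin n) (Fin n) ℂ) := Matrix.linftyOpNormedRing
  let : NormedAlgebra ℂ (Matrix (Fin n) (Fin n) ℂ) := Matrix.linftyOpNormedAlgebra
  have h1 := (NormedSpace.exp_series_hasSum_exp' (𝕂 := ℂ) X).mul_right E
  have h2 := (NormedSpace.exp_series_hasSum_exp' (𝕂 := ℂ) Y).mul_left E
  refine h1.unique ?_
  refine h2.congr_fun ?_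
  intro n
  rw [smul_mul_assoc, hpow, mul_smul_comm]

/-- the values of `τ` on `u = X - Xᴴ` and `v = i (X + Xᴴ)` from `tcx τ X = c Yᴴ` -/
theorem tau_uv {τ : Matrix (Fin N) (Fin N) ℂ →ₗ[ℝ] Matrix (Fin N) (Fin N) ℂ}
    {X Y : Matrix (Fin N) (Fin N) ℂ} {c : ℂ} (hu : (τ (X - Xᴴ))ᴴ = -τ (X - Xᴴ))
    (hv : (τ (Complex.I • (X + Xᴴ)))ᴴ = -τ (Complex.I • (X + Xᴴ)))
    (h : tcx τ X = c • Yᴴ) :
    τ (X - Xᴴ) = c • Yᴴ - conj c • Y ∧ τ (Complex.I • (X + Xᴴ)) = Complex.I • (c • Yᴴ + conj c • Y) := by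
  unfold tcx at h
  generalize τ (X - Xᴴ) = u at *
  generalize τ (Complex.I • (X + Xᴴ)) = v at *
  have h2 := congrArg Matrix.conjTranspose h
  rw [Matrix.conjTranspose_smul, Matrix.conjTranspose_sub, Matrix.conjTranspose_smul,
    Matrix.conjTranspose_smul, Matrix.conjTranspose_conjTranspose, hu, hv] at h2
  have e1 : star (1 / 2 : ℂ) = 1 / 2 := by
    simp
  have e2 : star Complex.I = -Complex.I := by
    simp
  have e3 : star c = conj c := rfl
  rw [e1, e2, e3] at h2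
  rw [← h, ← h2]
  constructor
  · module
  · simp only [smul_add, smul_sub, smul_neg, neg_smul, smul_smul]
    have e4 : Complex.I * (1 / 2 * Complex.I) = -(1 / 2) := by
      linear_combination (1 / 2 : ℂ) * Complex.I_mul_I
    rw [e4]
    module

/-- the complex span of the translates of `v` by `K` -/
def WK {H : Subgroup (SU N)} (K : Subgroup (SU N)) {n : ℕ} (ρ : Rep H (Fin n)) (v : Fin n → ℂ) :
    Submodule ℂ (Fin n → ℂ) := Submodule.span ℂ {w | ∃ k : H, k.1 ∈ K ∧ w = ρ.ρ k *ᵥ v}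

theorem vmem {H K : Subgroup (SU N)} {n : ℕ} (ρ : Rep H (Fin n)) (v : Fin n → ℂ) : v ∈ WK K ρ v :=
  Submodule.subset_span ⟨1, K.one_mem, by rw [map_one, one_mulVec]⟩

theorem kmem {H K : Subgroup (SU N)} {n : ℕ} (ρ : Rep H (Fin n)) (v : Fin n → ℂ) (k : H) (hk : k.1 ∈ K)
    (w : Fin n → ℂ) (hw : w ∈ WK K ρ v) : ρ.ρ k *ᵥ w ∈ WK K ρ v := by
  refine Submodule.span_induction (p := fun x _ => ρ.ρ k *ᵥ x ∈ WK K ρ v) ?_ ?_ ?_ ?_ hw
  · rintro x ⟨k', hk', rfl⟩
    refine Submodule.subset_span ⟨k * k', K.mul_mem hk hk', ?_⟩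
    rw [map_mul, mulVec_mulVec]
  · rw [mulVec_zero]
    exact Submodule.zero_mem _
  · intro x y _ _ hx hy
    rw [mulVec_add]
    exact Submodule.add_mem _ hx hy
  · intro a x _ hx
    rw [mulVec_smul]
    exact Submodule.smul_mem _ _ hx

/-- the derivatives in the directions of `lie K` -/
theorem dmem {H K : Subgroup (SU N)} (hP : PFF H) {n : ℕ} (ρ : Rep H (Fin n)) (hρ : PRep ρ)
    (v : Fin n → ℂ) (Y : Matrix (Fin N) (Fin N) ℂ) (hY : Y ∈ lie H) (hYK : Y ∈ lie K) :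
    dr ρ Y *ᵥ v ∈ WK K ρ v := by
  have h1 : ∀ i j, HasDerivAt (fun t : ℝ => ρ.ρ (exH H Y t) i j) (dr ρ Y i j) 0 := by
    intro i j
    have h2 : DifferentiableAt ℝ (fun t : ℝ => ρ.ρ (1 * exH H Y t) i j) 0 := ((hP.c2 _ (hρ i j)).1).diff Y hY 1
    have h3 := h2.hasDerivAt
    have h4 : deriv (fun t : ℝ => ρ.ρ (1 * exH H Y t) i j) 0 = dr ρ Y i j := rfl
    rw [h4] at h3
    simpa only [one_mul] using h3
  have h5 : HasDerivAt (fun t : ℝ => ρ.ρ (exH H Y t) *ᵥ v) (dr ρ Y *ᵥ v) 0 := by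
    rw [hasDerivAt_pi]
    intro i
    show HasDerivAt (fun t : ℝ => ∑ j, ρ.ρ (exH H Y t) i j * v j) (∑ j, dr ρ Y i j * v j) 0
    exact HasDerivAt.fun_sum fun j _ => (h1 i j).mul_const _
  have h6 := h5.tendsto_slope_zero
  refine (WK K ρ v).closed_of_finiteDimensional.mem_of_tendsto h6 (Eventually.of_forall fun t => ?_)
  have hmem : ∀ t : ℝ, ρ.ρ (exH H Y t) *ᵥ v ∈ WK K ρ v := by
    intro t
    refine kmem ρ v _ ?_ v (vmem ρ v)
    unfold exH
    rw [dif_pos (hY.2 t)]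
    exact hYK.2 t
  have e : ∀ (s : ℝ) (w : Fin n → ℂ), s • w = (s : ℂ) • w := by
    intro s w
    funext i
    simp
  show t⁻¹ • (ρ.ρ (exH H Y (0 + t)) *ᵥ v - ρ.ρ (exH H Y 0) *ᵥ v) ∈ WK K ρ v
  rw [e]
  exact Submodule.smul_mem _ _ (Submodule.sub_mem _ (hmem _) (hmem _))

end KSPN

theorem t_KSPN : M_KSPN := by
  intro hHAAR hSCHUR hLIEB hWFAC hTAUF hTAUS hCONJ hPFFX hDREP
  intro N H K σ τ A l Φ B Hc E x₀ θ r s ε hSD n ρ hirr hρ ν v hv hv0 u hu huv
  have hL : LRD H Φ B Hc E := hSD.sr.lrd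
  have hl : LIF H := hLIEB N H hSD.closed
  have hF : TAF H Φ Hc E := hTAUF N H l Φ B Hc E hSD.closed hL
  have hW : WFF Φ B := hWFAC l Φ B hL.ird
  have hT : TSF H σ τ := hTAUS N H K σ τ hSD.closed hSD.simple hSD.sym
  have hP : PFF H := hPFFX N H hSD.closed
  have hD : DRF ρ := hDREP N H n ρ hSD.closed hρ
  have hKH : K ≤ H := hSD.sym.sub
  set W := KSPN.WK K ρ v with hWdef
  have hvW : v ∈ W := KSPN.vmem ρ v
  -- the derivatives in the directions of the fixed points of `τ`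
  have hfix : ∀ X ∈ lie H, dr ρ (X + τ X) *ᵥ v ∈ W := by
    intro X hX
    have hτ := hSD.sym.mem X hX
    have hK : X + τ X ∈ lie K := by
      refine hSD.sym.big _ (hl.add _ hX _ hτ) ?_
      rw [map_add, hT.inv _ hX, add_comm]
    exact KSPN.dmem hP ρ hρ v _ (hl.add _ hX _ hτ) hK
  -- the root vectors
  have huvp : ∀ p ∈ pos Φ, dr ρ (Complex.I • (E p + (E p)ᴴ)) *ᵥ v ∈ W := by
    intro p hp
    have hpΦ : p ∈ Φ := (hW.ppos p hp).1
    obtain ⟨hu1, hv1⟩ := hL.emem p hpΦ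
    have hτu := hSD.sym.mem _ hu1
    have hτv := hSD.sym.mem _ hv1
    rcases eq_or_lt_of_le (hSD.sr.x0p p hp) with h0 | h0
    · obtain ⟨-, -, h3⟩ := hSD.sra.tc0 p hpΦ h0.symm
      have h4 : tcx τ (E p) = (1 : ℂ) • ((E p)ᴴ)ᴴ := by
        rw [h3, one_smul, conjTranspose_conjTranspose]
      obtain ⟨-, e2⟩ := KSPN.tau_uv (hl.su _ hτu).1 (hl.su _ hτv).1 h4
      rw [map_one, one_smul, one_smul, conjTranspose_conjTranspose] at e2
      have h5 := hfix _ hv1
      rw [e2, hD.add _ hv1 _ hv1, add_mulVec] at h5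
      have h6 : dr ρ (Complex.I • (E p + (E p)ᴴ)) *ᵥ v =
          (1 / 2 : ℂ) • (dr ρ (Complex.I • (E p + (E p)ᴴ)) *ᵥ v + dr ρ (Complex.I • (E p + (E p)ᴴ)) *ᵥ v) := by
        module
      rw [h6]
      exact W.smul_mem _ h5
    · have hpA : p ∈ PA Φ x₀ := Finset.mem_filter.2 ⟨hp, h0⟩
      set q : (Fin l → ℤ) × (Fin l → ℤ) := (-(θᵀ *ᵥ p.1), -(θ *ᵥ p.2)) with hq
      have hqA : q ∈ PA Φ x₀ := hSD.so.posθ p hpA
      have hqp : q ∈ pos Φ := (Finset.mem_filter.1 hqA).1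
      have hqΦ : q ∈ Φ := (hW.ppos q hqp).1
      have hstar : E (θᵀ *ᵥ p.1, θ *ᵥ p.2) = (E q)ᴴ := by
        have h := hL.star q hqΦ
        rw [← h, hq]
        simp
      obtain ⟨c, -, hc⟩ := hSD.sra.tc p hpΦ
      rw [hstar] at hc
      obtain ⟨e1, e2⟩ := KSPN.tau_uv (hl.su _ hτu).1 (hl.su _ hτv).1 hc
      obtain ⟨hu2, hv2⟩ := hL.emem q hqΦ
      -- `d X = dr ρ X *ᵥ v`
      have hpw := hv.hw p hp
      have hqw := hv.hw q hqp
      have hsplit : ∀ z : ℂ, dr ρ (z • E q - conj z • (E q)ᴴ) *ᵥ v =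
          (Complex.I * conj z) • (dr ρ (Complex.I • (E q + (E q)ᴴ)) *ᵥ v) := by
        intro z
        have e3 : z • E q - conj z • (E q)ᴴ = ((z.re : ℝ) : ℂ) • (E q - (E q)ᴴ) +
            ((z.im : ℝ) : ℂ) • (Complex.I • (E q + (E q)ᴴ)) := by
          have ez : z = (z.re : ℂ) + z.im * Complex.I := (Complex.re_add_im z).symm
          have ez' : conj z = (z.re : ℂ) - z.im * Complex.I := by
            conv_lhs => rw [ez]
            simp only [map_add, map_mul, Complex.conj_ofReal, Complex.conj_I]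
            ring
          rw [ez']
          conv_lhs => rw [ez]
          simp only [Complex.add_re, Complex.ofReal_re, Complex.mul_re, Complex.I_re, Complex.ofReal_im, Complex.I_im,
            Complex.add_im, Complex.mul_im]
          module
        have ez' : Complex.I * conj z = (z.re : ℂ) * Complex.I + z.im := by
          have h7 : conj z = (z.re : ℂ) - z.im * Complex.I := by
            apply Complex.ext <;> simp
          rw [h7]
          linear_combination (-(z.im : ℂ)) * Complex.I_mul_I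
        rw [e3, hD.add _ (hl.smul _ _ hu2) _ (hl.smul _ _ hv2), hD.smul _ hu2, hD.smul _ hv2, add_mulVec,
          smul_mulVec, smul_mulVec, hqw, ez']
        module
      have hA := hfix _ hu1
      have hB := hfix _ hv1
      rw [hD.add _ hu1 _ hτu, add_mulVec, hpw, e1] at hA
      rw [hD.add _ hv1 _ hτv, add_mulVec, e2] at hB
      have e4 : c • (E q)ᴴ - conj c • E q = (-conj c) • E q - conj (-conj c) • (E q)ᴴ := by
        rw [map_neg, Complex.conj_conj]
        module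
      have e5 : Complex.I • (c • (E q)ᴴ + conj c • E q) =
          (Complex.I * conj c) • E q - conj (Complex.I * conj c) • (E q)ᴴ := by
        rw [map_mul, Complex.conj_conj, Complex.conj_I]
        module
      rw [e4, hsplit] at hA
      rw [e5, hsplit] at hB
      generalize dr ρ (Complex.I • (E p + (E p)ᴴ)) *ᵥ v = y at hA hB ⊢
      generalize dr ρ (Complex.I • (E q + (E q)ᴴ)) *ᵥ v = y' at hA hB ⊢
      have h8 : y = (1 / 2 : ℂ) • ((-Complex.I) • (Complex.I • y + (Complex.I * conj (-conj c)) • y') +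
          (y + (Complex.I * conj (Complex.I * conj c)) • y')) := by
        rw [map_neg, Complex.conj_conj, map_mul, Complex.conj_conj, Complex.conj_I]
        funext i
        simp only [Pi.add_apply, Pi.smul_apply, smul_eq_mul]
        linear_combination (y i / 2) * Complex.I_mul_I
      rw [h8]
      exact W.smul_mem _ (W.add_mem (W.smul_mem _ hA) hB)
  have hupp : ∀ p ∈ pos Φ, dr ρ (E p - (E p)ᴴ) *ᵥ v ∈ W := by
    intro p hp
    rw [hv.hw p hp]
    exact W.smul_mem _ (huvp p hp)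
  -- all derivatives
  have hfin : ∀ (S : Finset ((Fin l → ℤ) × (Fin l → ℤ))) (z : (Fin l → ℤ) × (Fin l → ℤ) → ℂ), S ⊆ pos Φ →
      ∑ p ∈ S, (z p • E p - conj (z p) • (E p)ᴴ) ∈ lie H ∧
        dr ρ (∑ p ∈ S, (z p • E p - conj (z p) • (E p)ᴴ)) *ᵥ v ∈ W := by
    intro S z
    classical
    induction S using Finset.induction_on with
    | empty =>
      intro _
      rw [Finset.sum_empty]
      refine ⟨hl.zero, ?_⟩
      have h := hD.smul _ hl.zero 0
      rw [smul_zero, Complex.ofReal_zero, zero_smul] at h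
      rw [h, zero_mulVec]
      exact W.zero_mem
    | insert a S ha ih =>
      intro hS
      obtain ⟨ih1, ih2⟩ := ih fun x hx => hS (Finset.mem_insert_of_mem hx)
      have hap : a ∈ pos Φ := hS (Finset.mem_insert_self a S)
      have haΦ : a ∈ Φ := (hW.ppos a hap).1
      obtain ⟨hu2, hv2⟩ := hL.emem a haΦ
      have e3 : z a • E a - conj (z a) • (E a)ᴴ = (((z a).re : ℝ) : ℂ) • (E a - (E a)ᴴ) +
          (((z a).im : ℝ) : ℂ) • (Complex.I • (E a + (E a)ᴴ)) := by
        have h7 : conj (z a) = ((z a).re : ℂ) - (z a).im * Complex.I := by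
          apply Complex.ext <;> simp
        rw [h7]
        conv_lhs => rw [← Complex.re_add_im (z a)]
        simp only [Complex.add_re, Complex.ofReal_re, Complex.mul_re, Complex.I_re, Complex.ofReal_im, Complex.I_im,
          Complex.add_im, Complex.mul_im]
        module
      have h9 : z a • E a - conj (z a) • (E a)ᴴ ∈ lie H := by
        rw [e3]
        exact hl.add _ (hl.smul _ _ hu2) _ (hl.smul _ _ hv2)
      rw [Finset.sum_insert ha]
      refine ⟨hl.add _ h9 _ ih1, ?_⟩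
      rw [hD.add _ h9 _ ih1, add_mulVec]
      refine W.add_mem ?_ ih2
      rw [e3, hD.add _ (hl.smul _ _ hu2) _ (hl.smul _ _ hv2), hD.smul _ hu2, hD.smul _ hv2, add_mulVec,
          smul_mulVec, smul_mulVec]
      exact W.add_mem (W.smul_mem _ (hupp a hap)) (W.smul_mem _ (huvp a hap))
  have hall : ∀ Z ∈ lie H, dr ρ Z *ᵥ v ∈ W := by
    intro Z hZ
    obtain ⟨x, z, hxz⟩ := hL.span Z hZ
    obtain ⟨h1, h2⟩ := hfin (pos Φ) z (Finset.Subset.refl _)
    have h3 : hx Hc x ∈ lie H := hF.hmem x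
    rw [hxz]
    show dr ρ (hx Hc x + _) *ᵥ v ∈ W
    rw [hD.add _ h3 _ h1, add_mulVec, hv.wt x]
    exact W.add_mem (W.smul_mem _ hvW) h2
  have hinv : ∀ Z ∈ lie H, ∀ w ∈ W, dr ρ Z *ᵥ w ∈ W := by
    intro Z hZ w hw
    refine Submodule.span_induction (p := fun x _ => dr ρ Z *ᵥ x ∈ W) ?_ ?_ ?_ ?_ hw
    · rintro x ⟨k, hk, rfl⟩
      have h1 : (k⁻¹).1.1 * Z * (k⁻¹).1.1ᴴ ∈ lie H := hl.ad _ (k⁻¹).2 Z hZ
      have h2 := hD.ad Z hZ k⁻¹
      have h3 : ρ.ρ k * ρ.ρ k⁻¹ = 1 := by rw [← map_mul, mul_inv_cancel, map_one]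
      have h4 : (ρ.ρ k⁻¹)ᴴ = ρ.ρ k := by
        rw [← ρ.unit, inv_inv]
      rw [h4] at h2
      have h5 : dr ρ Z * ρ.ρ k = ρ.ρ k * dr ρ ((k⁻¹).1.1 * Z * (k⁻¹).1.1ᴴ) := by
        rw [h2, ← Matrix.mul_assoc, ← Matrix.mul_assoc, h3, Matrix.one_mul]
      rw [mulVec_mulVec, h5, ← mulVec_mulVec]
      exact KSPN.kmem ρ v k hk _ (hall _ h1)
    · rw [mulVec_zero]
      exact Submodule.zero_mem _
    · intro x y _ _ hx hy
      rw [mulVec_add]
      exact Submodule.add_mem _ hx hy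
    · intro a x _ hx
      rw [mulVec_smul]
      exact Submodule.smul_mem _ _ hx
  have hg : ∀ g : H, ρ.ρ g *ᵥ v ∈ W := by
    intro g
    obtain ⟨h, hh, θ', hgθ⟩ := hCONJ N H l Φ B Hc E hSD.closed hSD.conn hL g.1 g.2
    set X := hx Hc (fun j => 2 * π * θ' j) with hX
    have hmem : X ∈ lie H := hF.hmem _
    have h1 : (exH H X 1).1 = ta Hc θ' := by
      rw [exH, dif_pos (hmem.2 1)]
      rfl
    have h2 : g = (⟨h, hh⟩ : H) * exH H X 1 * (⟨h, hh⟩ : H)⁻¹ := by
      apply Subtype.ext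
      rw [Subgroup.coe_mul, Subgroup.coe_mul, h1, Subgroup.coe_inv]
      exact hgθ
    have h3 := hD.ad X hmem ⟨h, hh⟩
    have h4 : (ρ.ρ ⟨h, hh⟩)ᴴ * ρ.ρ ⟨h, hh⟩ = 1 := by
      rw [← ρ.unit, ← map_mul, inv_mul_cancel, map_one]
    have h5 : dr ρ (h.1 * X * h.1ᴴ) * ρ.ρ ⟨h, hh⟩ = ρ.ρ ⟨h, hh⟩ * dr ρ X := by
      rw [show dr ρ (h.1 * X * h.1ᴴ) = _ from h3, Matrix.mul_assoc, h4, Matrix.mul_one]
    have h6 := KSPN.exp_semi h5
    have h7 : ρ.ρ g = NormedSpace.exp (dr ρ (h.1 * X * h.1ᴴ)) := by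
      rw [h2, map_mul, map_mul, hD.ex X hmem 1, Complex.ofReal_one, one_smul, ← h6, Matrix.mul_assoc, ← map_mul,
        mul_inv_cancel, map_one, Matrix.mul_one]
    rw [h7]
    exact KSPN.exp_mem W _ (hinv _ (hl.ad _ hh _ hmem)) v hvW
  -- `u` is orthogonal to `W`
  have hort : ∀ w ∈ W, star u ⬝ᵥ w = 0 := by
    intro w hw
    refine Submodule.span_induction (p := fun x _ => star u ⬝ᵥ x = 0) ?_ ?_ ?_ ?_ hw
    · rintro x ⟨k, hk, rfl⟩
      have h1 : (ρ.ρ k)ᴴ *ᵥ u = u := by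
        rw [← ρ.unit]
        exact hu k⁻¹ (K.inv_mem hk)
      rw [dotProduct_mulVec]
      have h2 : star u ᵥ* ρ.ρ k = star ((ρ.ρ k)ᴴ *ᵥ u) := by
        rw [star_mulVec, conjTranspose_conjTranspose]
      rw [h2, h1, huv]
    · exact dotProduct_zero _
    · intro x y _ _ hx hy
      rw [dotProduct_add, hx, hy, add_zero]
    · intro a x _ hx
      rw [dotProduct_smul, hx, smul_zero]
  -- Schur orthogonality
  have hcs : CompactSpace H := isCompact_iff_compactSpace.1 hSD.closed.isCompact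
  have hsec : SecondCountableTopology H :=
    inferInstanceAs (SecondCountableTopology ((H : Set (SU N)) : Type))
  let μ : Measure H := Measure.haarMeasure ⊤
  have hμ : IsProbabilityMeasure μ := by
    refine ⟨?_⟩
    have := Measure.haarMeasure_self (K₀ := (⊤ : TopologicalSpace.PositiveCompacts H))
    simpa using this
  have hμ2 : μ.IsMulLeftInvariant := inferInstanceAs (Measure.haarMeasure ⊤).IsMulLeftInvariant
  obtain ⟨h3, -⟩ := hSCHUR H μ (Fin n) ρ hirr
  have hce : ∀ i j, Continuous fun g => ρ.ρ g i j := fun i j => ρ.cont.matrix_elem i j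
  obtain ⟨j₀, hj₀⟩ : ∃ j, v j ≠ 0 := by
    by_contra hno
    push Not at hno
    exact hv0 (funext hno)
  funext k
  have e1 : ∀ g : H, ∑ i, ∑ j, (conj (u i) * v j) * (ρ.ρ g i j * conj (ρ.ρ g k j₀)) = 0 := by
    intro g
    have h1 := hort _ (hg g)
    have h2 : star u ⬝ᵥ (ρ.ρ g *ᵥ v) = ∑ i, ∑ j, (conj (u i) * v j) * ρ.ρ g i j := by
      simp only [dotProduct, mulVec, Finset.mul_sum, Pi.star_apply]
      refine Finset.sum_congr rfl fun i _ => Finset.sum_congr rfl fun j _ => ?_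
      rw [show star (u i) = conj (u i) from rfl]
      ring
    rw [h2] at h1
    have h4 : ∑ i, ∑ j, (conj (u i) * v j) * (ρ.ρ g i j * conj (ρ.ρ g k j₀)) =
        (∑ i, ∑ j, (conj (u i) * v j) * ρ.ρ g i j) * conj (ρ.ρ g k j₀) := by
      rw [Finset.sum_mul]
      refine Finset.sum_congr rfl fun i _ => ?_
      rw [Finset.sum_mul]
      refine Finset.sum_congr rfl fun j _ => ?_
      ring
    rw [h4, h1, zero_mul]
  have hi : ∀ i j, Integrable (fun g => (conj (u i) * v j) * (ρ.ρ g i j * conj (ρ.ρ g k j₀))) μ := by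
    intro i j
    have hc : Continuous fun g => (conj (u i) * v j) * (ρ.ρ g i j * conj (ρ.ρ g k j₀)) :=
      continuous_const.mul ((hce i j).mul (Complex.continuous_conj.comp (hce k j₀)))
    exact hc.integrable_of_hasCompactSupport (HasCompactSupport.of_compactSpace _)
  have e2 : ∫ g, ∑ i, ∑ j, (conj (u i) * v j) * (ρ.ρ g i j * conj (ρ.ρ g k j₀)) ∂μ = 0 := by
    simp only [e1]
    exact integral_zero _ _
  rw [integral_finsetSum _ fun i _ => integrable_finsetSum _ fun j _ => hi i j] at e2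
  have e3 : ∀ i, ∫ g, ∑ j, (conj (u i) * v j) * (ρ.ρ g i j * conj (ρ.ρ g k j₀)) ∂μ =
      if i = k then (conj (u k) * v j₀) * (1 / (Fintype.card (Fin n) : ℂ)) else 0 := by
    intro i
    rw [integral_finsetSum _ fun j _ => hi i j, Finset.sum_eq_single j₀]
    · rw [integral_const_mul, h3]
      by_cases hik : i = k
      · rw [if_pos ⟨hik, rfl⟩, if_pos hik, hik]
      · rw [if_neg fun h => hik h.1, if_neg hik, mul_zero]
    · intro j _ hj
      rw [integral_const_mul, h3, if_neg fun h => hj h.2, mul_zero]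
    · intro h
      exact absurd (Finset.mem_univ j₀) h
  simp only [e3] at e2
  rw [Finset.sum_ite_eq' Finset.univ k, if_pos (Finset.mem_univ k)] at e2
  have hn : (Fintype.card (Fin n) : ℂ) ≠ 0 := by
    have : 0 < n := k.pos
    rw [Fintype.card_fin]
    exact_mod_cast this.ne'
  have e4 : conj (u k) * v j₀ = 0 := by
    rcases mul_eq_zero.1 e2 with h | h
    · exact h
    · exact absurd h (one_div_ne_zero hn)
  rcases mul_eq_zero.1 e4 with h | h
  · rw [Pi.zero_apply]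
    exact (map_eq_zero _).1 h
  · exact absurd h hj₀

end

end SYM
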