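import Pool.Agent.SYM.StZ

/-!
# Symmetric spaces: the pieces of the kernel (module KWSF)

`sum` telescopes, `exp` and `cont` come from KWSX, `sup` from SSUM and ISUM, `mul` from MULZ, `fou` from MULF.
-/

namespace SYM

open STZ LGR MeasureTheory Matrix Filter

open scoped ComplexConjugate Matrix Real Topology

noncomputable section

namespace KWSF

theorem eu_cont : Continuous eu := by
  unfold eu
  fun_prop

theorem eu_per (t : ℝ) (m : ℤ) : eu (-((t + 1) * (m : ℝ))) = eu (-(t * (m : ℝ))) := by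
  unfold eu
  have h : (2 : ℂ) * π * ((-((t + 1) * (m : ℝ)) : ℝ) : ℂ) * Complex.I =
      2 * π * ((-(t * (m : ℝ)) : ℝ) : ℂ) * Complex.I + ((-m : ℤ) : ℂ) * (2 * π * Complex.I) := by
    push_cast
    ring
  rw [h, Complex.exp_add, Complex.exp_int_mul_two_pi_mul_I, mul_one]

section basics

variable {M Y : Type} {r n q : ℕ} (S : SPB M Y r n q) (L : Set (Fin r → ℕ))

theorem mm_cont (N R : ℕ) (b : Fin r → ℕ) : Continuous (S.mm L N R b) := by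
  unfold SPB.mm
  refine continuous_finsetSum _ fun k _ => ?_
  split_ifs
  · exact continuous_const.mul (eu_cont.comp (by fun_prop))
  · exact continuous_const

theorem mm_per (N R : ℕ) (b : Fin r → ℕ) (t : ℝ) : S.mm L N R b (t + 1) = S.mm L N R b t := by
  unfold SPB.mm
  refine Finset.sum_congr rfl fun k _ => ?_
  split_ifs
  · rw [eu_per]
  · rfl

theorem mw_cont (J i : ℕ) (b : Fin r → ℕ) : Continuous (S.mw L J i b) := by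
  unfold SPB.mw
  split_ifs
  · exact (mm_cont S L _ _ b).sub (mm_cont S L _ _ b)
  · exact mm_cont S L _ _ b

theorem mw_per (J i : ℕ) (b : Fin r → ℕ) (t : ℝ) : S.mw L J i b (t + 1) = S.mw L J i b t := by
  unfold SPB.mw
  split_ifs
  · rw [mm_per, mm_per]
  · rw [mm_per]

theorem sg_cont (r M : ℕ) : Continuous (sg r M) := by
  unfold sg AV
  refine continuous_const.sub ((continuous_const.sub (continuous_finsetProd _ fun j _ => ?_)).pow r)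
  refine ((continuous_finsetSum _ fun k _ => ?_).div_const _).pow 2
  exact (continuous_apply j).pow k

theorem cs_cont (s : Fin q) (N : ℕ) (t : ℝ) : Continuous (S.cs s N t) := by
  unfold SPB.cs
  refine continuous_finsetSum _ fun x _ => continuous_const.mul (continuous_finsetProd _ fun j _ => ?_)
  exact (continuous_apply j).pow _

theorem nnf_cont {X : Type} [TopologicalSpace X] (N : ℕ) (f : X → ℝ) (hf : Continuous f) (h1 : ∀ x, f x ≤ 1) :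
    Continuous fun x => NNf N (f x) := by
  unfold NNf
  refine continuous_const.div (by fun_prop) fun x => ?_
  have h2 : (0 : ℝ) ≤ (N : ℝ) * (1 - f x) := mul_nonneg (Nat.cast_nonneg _) (by linarith [h1 x])
  linarith

end basics

section sup

variable {M Y : Type} [TopologicalSpace M] [CompactSpace M] [T2Space M] [SecondCountableTopology M] [MeasurableSpace M] [BorelSpace M]
  [TopologicalSpace Y] [CompactSpace Y] [T2Space Y] [SecondCountableTopology Y] [MeasurableSpace Y] [BorelSpace Y]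
  {r n q : ℕ} {S : SPB M Y r n q} {L : Set (Fin r → ℕ)} {KM : L → M → M → ℂ} {μ : Measure M} {ν : Measure Y}
  [IsProbabilityMeasure ν]

theorem F_le (hS : SPD S L KM μ ν) (j : Fin r) (z : M × M × Y) : ‖S.F j z‖ ≤ 1 := by
  have h1 := hS.F j z
  have h2 : Real.exp (-S.ψ j z) ≤ 1 := Real.exp_le_one_iff.2 (by linarith [hS.ψ j z])
  have h3 : ‖S.F j z‖ ^ 2 ≤ 1 := h1.trans h2
  exact (sq_le_one_iff₀ (norm_nonneg _)).1 h3

theorem cont_int (f : Y → ℂ) (hf : Continuous f) : Integrable f ν :=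
  hf.integrable_of_hasCompactSupport (HasCompactSupport.of_compactSpace f)

theorem cont_int' (f : Y → ℝ) (hf : Continuous f) : Integrable f ν :=
  hf.integrable_of_hasCompactSupport (HasCompactSupport.of_compactSpace f)

theorem cF_k (hS : SPD S L KM μ ν) (g g' : M) (j : Fin r) : Continuous fun k : Y => S.F j (g, g', k) :=
  (hS.cF j).comp (by fun_prop)

theorem cf_k (hS : SPD S L KM μ ν) (g g' : M) (s : Fin q) : Continuous fun k : Y => S.f s (g, g', k) :=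
  (hS.cf s).comp (by fun_prop)

theorem integrand_cont (hS : SPD S L KM μ ν) (g g' : M) (s : Fin q) (N : ℕ) (t : ℝ) (σ : (Fin r → ℂ) → ℂ)
    (hσ : Continuous σ) : Continuous fun k : Y => σ (fun j => S.F j (g, g', k)) * S.f s (g, g', k) *
      S.cs s N t (fun j => S.F j (g, g', k)) := by
  have h : Continuous fun k : Y => fun j => S.F j (g, g', k) := continuous_pi fun j => cF_k hS g g' j
  exact ((hσ.comp h).mul (cf_k hS g g' s)).mul ((cs_cont S s N t).comp h)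

theorem int_bd (hS : SPD S L KM μ ν) (g g' : M) (s : Fin q) (N : ℕ) (t : ℝ) (σ : (Fin r → ℂ) → ℂ)
    (hσ : Continuous σ) (A B : ℝ) (hA : 0 ≤ A)
    (h : ∀ z : Fin r → ℂ, (∀ j, ‖z j‖ ≤ 1) → ‖S.cs s N t z‖ ≤ A * ∏ p, ∑ j, S.α p j * NNf N ‖z j‖)
    (hB : ∫ k, ‖σ (fun j => S.F j (g, g', k))‖ * ‖S.f s (g, g', k)‖ *
      ∏ p, ∑ j, S.α p j * NNf N ‖S.F j (g, g', k)‖ ∂ν ≤ B) :
    ‖∫ k, σ (fun j => S.F j (g, g', k)) * S.f s (g, g', k) *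
      S.cs s N t (fun j => S.F j (g, g', k)) ∂ν‖ ≤ A * B := by
  have hF : Continuous fun k : Y => fun j => S.F j (g, g', k) := continuous_pi fun j => cF_k hS g g' j
  have hc : Continuous fun k : Y => A * (‖σ (fun j => S.F j (g, g', k))‖ * ‖S.f s (g, g', k)‖ *
      ∏ p, ∑ j, S.α p j * NNf N ‖S.F j (g, g', k)‖) := by
    refine continuous_const.mul (((hσ.comp hF).norm.mul (cf_k hS g g' s).norm).mul ?_)
    refine continuous_finsetProd _ fun p _ => continuous_finsetSum _ fun j _ => continuous_const.mul ?_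
    exact nnf_cont N _ (cF_k hS g g' j).norm fun k => F_le hS j _
  calc ‖∫ k, σ (fun j => S.F j (g, g', k)) * S.f s (g, g', k) * S.cs s N t (fun j => S.F j (g, g', k)) ∂ν‖
      ≤ ∫ k, ‖σ (fun j => S.F j (g, g', k)) * S.f s (g, g', k) * S.cs s N t (fun j => S.F j (g, g', k))‖ ∂ν :=
        norm_integral_le_integral_norm _
    _ ≤ ∫ k, A * (‖σ (fun j => S.F j (g, g', k))‖ * ‖S.f s (g, g', k)‖ *
          ∏ p, ∑ j, S.α p j * NNf N ‖S.F j (g, g', k)‖) ∂ν := by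
        refine integral_mono_of_nonneg (Eventually.of_forall fun k => norm_nonneg _) (cont_int' _ hc)
          (Eventually.of_forall fun k => ?_)
        have h1 := h (fun j => S.F j (g, g', k)) fun j => F_le hS j _
        show ‖_‖ ≤ _
        rw [norm_mul, norm_mul]
        have h2 : 0 ≤ ‖σ (fun j => S.F j (g, g', k))‖ * ‖S.f s (g, g', k)‖ := by positivity
        calc _ ≤ ‖σ (fun j => S.F j (g, g', k))‖ * ‖S.f s (g, g', k)‖ *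
              (A * ∏ p, ∑ j, S.α p j * NNf N ‖S.F j (g, g', k)‖) := mul_le_mul_of_nonneg_left h1 h2
          _ = _ := by ring
    _ = A * ∫ k, (‖σ (fun j => S.F j (g, g', k))‖ * ‖S.f s (g, g', k)‖ *
          ∏ p, ∑ j, S.α p j * NNf N ‖S.F j (g, g', k)‖) ∂ν := integral_const_mul _ _
    _ ≤ A * B := mul_le_mul_of_nonneg_left hB hA

end sup

theorem two_pow_half (J : ℕ) : 2 ^ J ≤ 4 * (2 ^ (J / 2)) ^ 2 := by
  have h : 4 * (2 ^ (J / 2)) ^ 2 = 2 ^ (2 + 2 * (J / 2)) := by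
    rw [← pow_mul, pow_add, mul_comm (J / 2) 2]
    norm_num
  rw [h]
  exact Nat.pow_le_pow_right (by norm_num) (by omega)

theorem sum_ok (K₀ N R r B : ℕ) (hN : 1 ≤ N) (hR : R ≤ N) (hK : 1 + (2 * r + 1) * B ≤ K₀) :
    N + (2 * r * R + 1) * B ≤ K₀ * N := by
  have h1 : 2 * r * R + 1 ≤ (2 * r + 1) * N := by
    have : 2 * r * R ≤ 2 * r * N := Nat.mul_le_mul_left _ hR
    nlinarith
  calc N + (2 * r * R + 1) * B ≤ N + ((2 * r + 1) * N) * B := by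
        exact Nat.add_le_add_left (Nat.mul_le_mul_right _ h1) _
    _ = (1 + (2 * r + 1) * B) * N := by ring
    _ ≤ K₀ * N := Nat.mul_le_mul_right _ hK

section main

variable {M Y : Type} [TopologicalSpace M] [CompactSpace M] [T2Space M] [SecondCountableTopology M] [MeasurableSpace M] [BorelSpace M]
  [TopologicalSpace Y] [CompactSpace Y] [T2Space Y] [SecondCountableTopology Y] [MeasurableSpace Y] [BorelSpace Y]
  {r n q : ℕ} {S : SPB M Y r n q} {L : Set (Fin r → ℕ)} {KM : L → M → M → ℂ} {μ : Measure M} {ν : Measure Y}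
  [IsProbabilityMeasure ν]

theorem kc_sub (hS : SPD S L KM μ ν) (N R : ℕ) (t : ℝ) (g g' : M) :
    S.kc ν N R t g g' - S.kc ν N (2 * R) t g g' = ∑ s, (S.c s : ℂ) *
      ∫ k, (sg r R (fun j => S.F j (g, g', k)) - sg r (2 * R) (fun j => S.F j (g, g', k))) * S.f s (g, g', k) *
        S.cs s N t (fun j => S.F j (g, g', k)) ∂ν := by
  unfold SPB.kc
  rw [← Finset.sum_sub_distrib]
  refine Finset.sum_congr rfl fun s _ => ?_
  rw [← mul_sub, ← integral_sub (cont_int _ (integrand_cont hS g g' s N t _ (sg_cont r R)))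
    (cont_int _ (integrand_cont hS g g' s N t _ (sg_cont r (2 * R))))]
  refine congrArg _ (integral_congr_ae (Eventually.of_forall fun k => ?_))
  show _ - _ = _
  ring

/-- a sum over `s` of bounded terms -/
theorem sum_bd (I : Fin q → ℂ) (A : ℝ) (h : ∀ s, ‖I s‖ ≤ A) :
    ‖∑ s, (S.c s : ℂ) * I s‖ ≤ (∑ s, ‖(S.c s : ℂ)‖) * A := by
  rw [Finset.sum_mul]
  refine (norm_sum_le _ _).trans (Finset.sum_le_sum fun s _ => ?_)
  rw [norm_mul]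
  exact mul_le_mul_of_nonneg_left (h s) (norm_nonneg _)

theorem kw_sup (hS : SPD S L KM μ ν) (hW : WWF) (Cs Ci : ℝ) (c₁ c : ℕ) (hCs : 0 ≤ Cs) (hc : c₁ ≤ c)
    (h1 : ∀ (s : Fin q) (N : ℕ) (t : ℝ) (z : Fin r → ℂ), 1 ≤ N → (∀ j, ‖z j‖ ≤ 1) →
      ‖S.cs s N t z‖ ≤ Cs * WW N c₁ t ^ ((r : ℝ) / 2) * ∏ p, ∑ j, S.α p j * NNf N ‖z j‖)
    (h2 : ∀ (s : Fin q) (g g' : M) (N R : ℕ), 1 ≤ N → 1 ≤ R →
      ∫ k, ‖sg r R (fun j => S.F j (g, g', k)) - sg r (2 * R) (fun j => S.F j (g, g', k))‖ * ‖S.f s (g, g', k)‖ *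
        ∏ p, ∑ j, S.α p j * NNf N ‖S.F j (g, g', k)‖ ∂ν ≤ Ci * ((N : ℝ) ^ n * ((R : ℝ) / (N : ℝ) ^ (1 / 2 : ℝ)) ^ r) ∧
      (N ≤ 4 * R ^ 2 → ∫ k, ‖sg r R (fun j => S.F j (g, g', k))‖ * ‖S.f s (g, g', k)‖ *
        ∏ p, ∑ j, S.α p j * NNf N ‖S.F j (g, g', k)‖ ∂ν ≤ Ci * ((N : ℝ) ^ n * ((R : ℝ) / (N : ℝ) ^ (1 / 2 : ℝ)) ^ r)))
    (hCi : 0 ≤ Ci) (J i : ℕ) (hi : i ≤ J / 2) (t : ℝ) (g g' : M) :
    ‖S.kw ν J i t g g'‖ ≤ (∑ s, ‖(S.c s : ℂ)‖) * (Cs * Ci) * (((2 ^ J : ℕ) : ℝ) ^ n * WW (2 ^ J) c t ^ ((r : ℝ) / 2) *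
      (((2 ^ i : ℕ) : ℝ) / ((2 ^ J : ℕ) : ℝ) ^ (1 / 2 : ℝ)) ^ r) := by
  have hN : 1 ≤ 2 ^ J := Nat.one_le_two_pow
  have hR : 1 ≤ 2 ^ i := Nat.one_le_two_pow
  have hw0 : 0 ≤ WW (2 ^ J) c₁ t := (Nat.cast_nonneg _).trans (hW.ge _ _ t)
  have hw : WW (2 ^ J) c₁ t ^ ((r : ℝ) / 2) ≤ WW (2 ^ J) c t ^ ((r : ℝ) / 2) :=
    Real.rpow_le_rpow hw0 (hW.mono _ _ _ _ t le_rfl hc) (by positivity)
  have hA : 0 ≤ Cs * WW (2 ^ J) c₁ t ^ ((r : ℝ) / 2) := mul_nonneg hCs (Real.rpow_nonneg hw0 _)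
  have hmain : ‖S.kw ν J i t g g'‖ ≤ (∑ s, ‖(S.c s : ℂ)‖) * (Cs * WW (2 ^ J) c₁ t ^ ((r : ℝ) / 2) *
      (Ci * (((2 ^ J : ℕ) : ℝ) ^ n * (((2 ^ i : ℕ) : ℝ) / ((2 ^ J : ℕ) : ℝ) ^ (1 / 2 : ℝ)) ^ r))) := by
    unfold SPB.kw
    split_ifs with h
    · rw [pow_succ' 2 i, kc_sub hS]
      refine sum_bd _ _ fun s => ?_
      exact int_bd hS g g' s (2 ^ J) t (fun z => sg r (2 ^ i) z - sg r (2 * 2 ^ i) z)
        ((sg_cont _ _).sub (sg_cont _ _)) _ _ hA (fun z hz => h1 s (2 ^ J) t z hN hz)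
        (h2 s g g' (2 ^ J) (2 ^ i) hN hR).1
    · have hi' : i = J / 2 := le_antisymm hi (not_lt.1 h)
      refine sum_bd _ _ fun s => ?_
      refine int_bd hS g g' s (2 ^ J) t (sg r (2 ^ i))
        (sg_cont _ _) _ _ hA (fun z hz => h1 s (2 ^ J) t z hN hz)
        ((h2 s g g' (2 ^ J) (2 ^ i) hN hR).2 ?_)
      rw [hi']
      exact two_pow_half J
  refine hmain.trans ?_
  have h0 : 0 ≤ (∑ s, ‖(S.c s : ℂ)‖) * (Cs * Ci) :=
    mul_nonneg (Finset.sum_nonneg fun s _ => norm_nonneg _) (mul_nonneg hCs hCi)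
  have h3 : 0 ≤ ((2 ^ J : ℕ) : ℝ) ^ n * (((2 ^ i : ℕ) : ℝ) / ((2 ^ J : ℕ) : ℝ) ^ (1 / 2 : ℝ)) ^ r := by positivity
  calc (∑ s, ‖(S.c s : ℂ)‖) * (Cs * WW (2 ^ J) c₁ t ^ ((r : ℝ) / 2) *
        (Ci * (((2 ^ J : ℕ) : ℝ) ^ n * (((2 ^ i : ℕ) : ℝ) / ((2 ^ J : ℕ) : ℝ) ^ (1 / 2 : ℝ)) ^ r)))
      = (∑ s, ‖(S.c s : ℂ)‖) * (Cs * Ci) * ((((2 ^ J : ℕ) : ℝ) ^ n *
          (((2 ^ i : ℕ) : ℝ) / ((2 ^ J : ℕ) : ℝ) ^ (1 / 2 : ℝ)) ^ r) * WW (2 ^ J) c₁ t ^ ((r : ℝ) / 2)) := by ring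
    _ ≤ (∑ s, ‖(S.c s : ℂ)‖) * (Cs * Ci) * ((((2 ^ J : ℕ) : ℝ) ^ n *
          (((2 ^ i : ℕ) : ℝ) / ((2 ^ J : ℕ) : ℝ) ^ (1 / 2 : ℝ)) ^ r) * WW (2 ^ J) c t ^ ((r : ℝ) / 2)) :=
        mul_le_mul_of_nonneg_left (mul_le_mul_of_nonneg_left hw h3) h0
    _ = _ := by ring

theorem exp_ok (h : ∀ (N R L₁ : ℕ) (t : ℝ) (g g' : M), 1 ≤ R → N + (2 * r * R + 1) * ∑ j, S.β j ≤ L₁ →
      S.kc ν N R t g g' = ∑ b ∈ TS L L₁, S.mm L N R b.1 t * KM b g g') (K₀ : ℕ)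
    (hK : 1 + (2 * r + 1) * ∑ j, S.β j ≤ K₀) (J i : ℕ) (hi : i ≤ J / 2) (t : ℝ) (g g' : M) :
    S.kw ν J i t g g' = ∑ b ∈ TS L (K₀ * 2 ^ J), S.mw L J i b.1 t * KM b g g' := by
  have hk : ∀ i' ≤ J, S.kc ν (2 ^ J) (2 ^ i') t g g' =
      ∑ b ∈ TS L (K₀ * 2 ^ J), S.mm L (2 ^ J) (2 ^ i') b.1 t * KM b g g' := fun i' hi' =>
    h (2 ^ J) (2 ^ i') (K₀ * 2 ^ J) t g g' Nat.one_le_two_pow
      (sum_ok K₀ (2 ^ J) (2 ^ i') r _ Nat.one_le_two_pow (Nat.pow_le_pow_right (by norm_num) hi') hK)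
  unfold SPB.kw SPB.mw
  split_ifs with h1
  · rw [hk i (by omega), hk (i + 1) (by omega), ← Finset.sum_sub_distrib]
    exact Finset.sum_congr rfl fun b _ => (sub_mul _ _ _).symm
  · exact hk i (by omega)

theorem sum_kw (J : ℕ) (t : ℝ) (g g' : M) :
    ∑ i ∈ Finset.range (J / 2 + 1), S.kw ν J i t g g' = S.kc ν (2 ^ J) 1 t g g' := by
  rw [Finset.sum_range_succ]
  have h1 : ∑ i ∈ Finset.range (J / 2), S.kw ν J i t g g' =
      ∑ i ∈ Finset.range (J / 2), (S.kc ν (2 ^ J) (2 ^ i) t g g' - S.kc ν (2 ^ J) (2 ^ (i + 1)) t g g') := by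
    refine Finset.sum_congr rfl fun i hi => ?_
    rw [SPB.kw, if_pos (Finset.mem_range.1 hi)]
  rw [h1, Finset.sum_range_sub' (fun i => S.kc ν (2 ^ J) (2 ^ i) t g g'), SPB.kw, if_neg (lt_irrefl _), pow_zero,
    sub_add_cancel]

end main

theorem ww_scale (hW : WWF) (r R c₁ c : ℕ) (t : ℝ) (hR : 1 ≤ R) (hc : 2 * c₁ ≤ c) :
    ((2 * R : ℕ) : ℝ) ^ (-(r : ℝ)) * WW (2 * R) c₁ t ^ ((r : ℝ) / 2) ≤
      (R : ℝ) ^ (-(r : ℝ)) * WW R c t ^ ((r : ℝ) / 2) := by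
  have hR0 : (0 : ℝ) < (R : ℝ) := by exact_mod_cast hR
  have hw0 : 0 ≤ WW (2 * R) c₁ t := (Nat.cast_nonneg _).trans (hW.ge _ _ t)
  have hw1 : 0 ≤ WW R c t := (Nat.cast_nonneg _).trans (hW.ge _ _ t)
  have h1 : WW (2 * R) c₁ t ≤ 2 * WW R c t := by
    have h2 := hW.scale 2 R c₁ t (by norm_num)
    have h3 := hW.mono R R (2 * c₁) c t le_rfl hc
    push_cast at h2
    linarith
  have h2 : WW (2 * R) c₁ t ^ ((r : ℝ) / 2) ≤ (2 : ℝ) ^ (r : ℝ) * WW R c t ^ ((r : ℝ) / 2) := by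
    calc WW (2 * R) c₁ t ^ ((r : ℝ) / 2) ≤ (2 * WW R c t) ^ ((r : ℝ) / 2) :=
          Real.rpow_le_rpow hw0 h1 (by positivity)
      _ = (2 : ℝ) ^ ((r : ℝ) / 2) * WW R c t ^ ((r : ℝ) / 2) := Real.mul_rpow (by norm_num) hw1
      _ ≤ (2 : ℝ) ^ (r : ℝ) * WW R c t ^ ((r : ℝ) / 2) := by
          refine mul_le_mul_of_nonneg_right ?_ (Real.rpow_nonneg hw1 _)
          refine Real.rpow_le_rpow_of_exponent_le (by norm_num) ?_
          have : (0 : ℝ) ≤ r := Nat.cast_nonneg _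
          linarith
  have h3 : ((2 * R : ℕ) : ℝ) ^ (-(r : ℝ)) = (2 : ℝ) ^ (-(r : ℝ)) * (R : ℝ) ^ (-(r : ℝ)) := by
    push_cast
    exact Real.mul_rpow (by norm_num) hR0.le
  rw [h3]
  have h4 : (2 : ℝ) ^ (-(r : ℝ)) * (2 : ℝ) ^ (r : ℝ) = 1 := by
    rw [← Real.rpow_add (by norm_num)]
    simp
  calc (2 : ℝ) ^ (-(r : ℝ)) * (R : ℝ) ^ (-(r : ℝ)) * WW (2 * R) c₁ t ^ ((r : ℝ) / 2)
      ≤ (2 : ℝ) ^ (-(r : ℝ)) * (R : ℝ) ^ (-(r : ℝ)) * ((2 : ℝ) ^ (r : ℝ) * WW R c t ^ ((r : ℝ) / 2)) :=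
        mul_le_mul_of_nonneg_left h2 (by positivity)
    _ = ((2 : ℝ) ^ (-(r : ℝ)) * (2 : ℝ) ^ (r : ℝ)) * ((R : ℝ) ^ (-(r : ℝ)) * WW R c t ^ ((r : ℝ) / 2)) := by ring
    _ = _ := by rw [h4, one_mul]

theorem mw_mul {M Y : Type} {r n q : ℕ} (S : SPB M Y r n q) (L : Set (Fin r → ℕ)) (hW : WWF) (Cm : ℝ) (c₁ c : ℕ)
    (hCm : 0 ≤ Cm) (hc : 2 * c₁ ≤ c)
    (h : ∀ (N R : ℕ) (b : Fin r → ℕ) (t : ℝ), 1 ≤ R →
      ‖S.mm L N R b t‖ ≤ Cm * ((R : ℝ) ^ (-(r : ℝ)) * WW R c₁ t ^ ((r : ℝ) / 2)))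
    (J i : ℕ) (b : Fin r → ℕ) (t : ℝ) :
    ‖S.mw L J i b t‖ ≤ 2 * Cm * (((2 ^ i : ℕ) : ℝ) ^ (-(r : ℝ)) * WW (2 ^ i) c t ^ ((r : ℝ) / 2)) := by
  have hR : 1 ≤ 2 ^ i := Nat.one_le_two_pow
  have hw0 : 0 ≤ WW (2 ^ i) c₁ t := (Nat.cast_nonneg _).trans (hW.ge _ _ t)
  have hw1 : 0 ≤ WW (2 ^ i) c t := (Nat.cast_nonneg _).trans (hW.ge _ _ t)
  have hX0 : 0 ≤ ((2 ^ i : ℕ) : ℝ) ^ (-(r : ℝ)) * WW (2 ^ i) c t ^ ((r : ℝ) / 2) :=
    mul_nonneg (by positivity) (Real.rpow_nonneg hw1 _)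
  have h1 : ‖S.mm L (2 ^ J) (2 ^ i) b t‖ ≤ Cm * (((2 ^ i : ℕ) : ℝ) ^ (-(r : ℝ)) * WW (2 ^ i) c t ^ ((r : ℝ) / 2)) := by
    refine (h (2 ^ J) (2 ^ i) b t hR).trans (mul_le_mul_of_nonneg_left ?_ hCm)
    refine mul_le_mul_of_nonneg_left ?_ (by positivity)
    exact Real.rpow_le_rpow hw0 (hW.mono _ _ _ _ t le_rfl (by omega)) (by positivity)
  unfold SPB.mw
  split_ifs with hi
  · rw [pow_succ' 2 i]
    have h2 : ‖S.mm L (2 ^ J) (2 * 2 ^ i) b t‖ ≤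
        Cm * (((2 ^ i : ℕ) : ℝ) ^ (-(r : ℝ)) * WW (2 ^ i) c t ^ ((r : ℝ) / 2)) := by
      refine (h (2 ^ J) (2 * 2 ^ i) b t (by omega)).trans (mul_le_mul_of_nonneg_left ?_ hCm)
      exact ww_scale hW r (2 ^ i) c₁ c t hR hc
    calc _ ≤ ‖S.mm L (2 ^ J) (2 ^ i) b t‖ + ‖S.mm L (2 ^ J) (2 * 2 ^ i) b t‖ := norm_sub_le _ _
      _ ≤ _ := by linarith
  · refine h1.trans ?_
    nlinarith [mul_nonneg hCm hX0]

theorem chi_int (χ : ℝ → ℝ) (hχ : TC χ) (m : ℝ → ℂ) (hm : Continuous m) (j : ℤ) :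
    IntervalIntegrable (fun t => (χ t : ℂ) * m t * eu (-(j * t))) volume 0 1 := by
  have h1 : IntervalIntegrable (fun t => m t * eu (-(j * t))) volume 0 1 :=
    (hm.mul (eu_cont.comp (by fun_prop))).intervalIntegrable 0 1
  have h2 : AEStronglyMeasurable (fun t => (χ t : ℂ)) (volume.restrict (Set.uIoc (0 : ℝ) 1)) :=
    (Complex.measurable_ofReal.comp hχ.meas).aestronglyMeasurable
  rw [intervalIntegrable_iff] at h1 ⊢
  have h3 := Integrable.bdd_mul (c := 1) h1 h2 (Eventually.of_forall fun t => by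
    rw [Complex.norm_real, Real.norm_eq_abs, abs_of_nonneg (hχ.nn t)]
    exact hχ.le t)
  refine h3.congr (Eventually.of_forall fun t => ?_)
  show _ * (_ * _) = _
  ring

theorem mw_fou {M Y : Type} {r n q : ℕ} (S : SPB M Y r n q) (L : Set (Fin r → ℕ)) (Cf ε : ℝ)
    (hCf : 0 ≤ Cf)
    (h : ∀ (N R : ℕ) (b : Fin r → ℕ), 1 ≤ R → R ≤ N →
      ∀ (χ : ℝ → ℝ) (E₁ E₂ : ℝ), TC χ → 0 ≤ E₁ → 0 ≤ E₂ →
      (∀ j : ℤ, j ≠ 0 → ‖∫ t in (0 : ℝ)..1, (χ t : ℂ) * eu (-(j * t))‖ ≤ E₁) → ‖∫ t in (0 : ℝ)..1, (χ t : ℂ)‖ ≤ E₂ →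
      ∀ j : ℤ, ‖∫ t in (0 : ℝ)..1, (χ t : ℂ) * S.mm L N R b t * eu (-(j * t))‖ ≤
        Cf * (E₁ + E₂ * (N : ℝ) ^ ε / (R : ℝ) ^ 2))
    (J i : ℕ) (hi : i ≤ J / 2) (b : Fin r → ℕ) (χ : ℝ → ℝ) (E₁ E₂ : ℝ) (hχ : TC χ) (hE₁ : 0 ≤ E₁) (hE₂ : 0 ≤ E₂)
    (h1 : ∀ j : ℤ, j ≠ 0 → ‖∫ t in (0 : ℝ)..1, (χ t : ℂ) * eu (-(j * t))‖ ≤ E₁)
    (h2 : ‖∫ t in (0 : ℝ)..1, (χ t : ℂ)‖ ≤ E₂) (j : ℤ) :
    ‖∫ t in (0 : ℝ)..1, (χ t : ℂ) * S.mw L J i b t * eu (-(j * t))‖ ≤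
      2 * Cf * (E₁ + E₂ * ((2 ^ J : ℕ) : ℝ) ^ ε / ((2 ^ i : ℕ) : ℝ) ^ 2) := by
  have hN : (0 : ℝ) ≤ ((2 ^ J : ℕ) : ℝ) ^ ε := by positivity
  have hX : 0 ≤ E₁ + E₂ * ((2 ^ J : ℕ) : ℝ) ^ ε / ((2 ^ i : ℕ) : ℝ) ^ 2 := by positivity
  have ha := h (2 ^ J) (2 ^ i) b Nat.one_le_two_pow (Nat.pow_le_pow_right (by norm_num) (by omega)) χ E₁ E₂ hχ hE₁ hE₂ h1 h2 j
  unfold SPB.mw
  split_ifs with hi'
  · have hb := h (2 ^ J) (2 ^ (i + 1)) b Nat.one_le_two_pow (Nat.pow_le_pow_right (by norm_num) (by omega)) χ E₁ E₂ hχ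
      hE₁ hE₂ h1 h2 j
    have hb' : ‖∫ t in (0 : ℝ)..1, (χ t : ℂ) * S.mm L (2 ^ J) (2 ^ (i + 1)) b t * eu (-(j * t))‖ ≤
        Cf * (E₁ + E₂ * ((2 ^ J : ℕ) : ℝ) ^ ε / ((2 ^ i : ℕ) : ℝ) ^ 2) := by
      refine hb.trans (mul_le_mul_of_nonneg_left (add_le_add_right ?_ _) hCf)
      refine div_le_div_of_nonneg_left (mul_nonneg hE₂ hN) (by positivity) ?_
      refine pow_le_pow_left₀ (by positivity) ?_ 2
      exact_mod_cast Nat.pow_le_pow_right (by norm_num) (Nat.le_succ i)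
    have hs : ∫ t in (0 : ℝ)..1, (χ t : ℂ) * (S.mm L (2 ^ J) (2 ^ i) b t - S.mm L (2 ^ J) (2 ^ (i + 1)) b t) * eu (-(j * t)) =
        (∫ t in (0 : ℝ)..1, (χ t : ℂ) * S.mm L (2 ^ J) (2 ^ i) b t * eu (-(j * t))) -
          ∫ t in (0 : ℝ)..1, (χ t : ℂ) * S.mm L (2 ^ J) (2 ^ (i + 1)) b t * eu (-(j * t)) := by
      rw [← intervalIntegral.integral_sub (chi_int χ hχ _ (mm_cont S L _ _ b) j) (chi_int χ hχ _ (mm_cont S L _ _ b) j)]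
      refine intervalIntegral.integral_congr fun t _ => ?_
      show _ * (_ - _) * _ = _ - _
      ring
    rw [hs]
    calc _ ≤ _ := norm_sub_le _ _
      _ ≤ _ := by linarith
  · refine ha.trans ?_
    nlinarith [mul_nonneg hCf hX]

end KWSF

theorem t_KWSF : M_KWSF := by
  intro hW _ hSS hIS hKX hMZ hMF M Y _ _ _ _ _ _ _ _ _ _ _ _ r n q S L KM μ ν _ hS hr
  obtain ⟨Cs, c₁, hCs, hc₁, h1⟩ := hSS M Y r n q S L KM μ ν hS
  obtain ⟨Ci, hCi, h2⟩ := hIS M Y r n q S L KM μ ν hS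
  obtain ⟨h3, h4⟩ := hKX M Y r n q S L KM μ ν hS (by omega)
  obtain ⟨Cm, c₂, hCm, hc₂, h5⟩ := hMZ M Y r n q S L KM μ ν hS
  refine ⟨max c₁ (2 * c₂), 1 + (2 * r + 1) * ∑ j, S.β j, le_max_of_le_left hc₁, fun ε hε => ?_⟩
  obtain ⟨Cf, hCf, h6⟩ := hMF M Y r n q S L KM μ ν hS hr ε hε
  have hX0 : 0 ≤ (∑ s, ‖(S.c s : ℂ)‖) * (Cs * Ci) :=
    mul_nonneg (Finset.sum_nonneg fun s _ => norm_nonneg _) (mul_nonneg hCs hCi)
  refine ⟨(∑ s, ‖(S.c s : ℂ)‖) * (Cs * Ci) + 2 * Cm + 2 * Cf, by positivity, fun J => ?_⟩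
  have hexp : ∀ i, i ≤ J / 2 → ∀ t g g', S.kw ν J i t g g' =
      ∑ b ∈ TS L ((1 + (2 * r + 1) * ∑ j, S.β j) * 2 ^ J), S.mw L J i b.1 t * KM b g g' := fun i hi t g g' =>
    KWSF.exp_ok h3 _ le_rfl J i hi t g g'
  refine ⟨fun i hi => ?_, fun t g g' => ?_, hexp, fun i b => KWSF.mw_cont S L J i b,
    fun i b t => KWSF.mw_per S L J i b t, fun i hi t g g' => ?_, fun i hi b t => ?_, ?_⟩
  · have h7 : (fun z : ℝ × M × M => S.kw ν J i z.1 z.2.1 z.2.2) = fun z : ℝ × M × M =>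
        ∑ b ∈ TS L ((1 + (2 * r + 1) * ∑ j, S.β j) * 2 ^ J), S.mw L J i b.1 z.1 * KM b z.2.1 z.2.2 := by
      funext z
      exact hexp i hi z.1 z.2.1 z.2.2
    rw [h7]
    refine continuous_finsetSum _ fun b _ => ?_
    exact ((KWSF.mw_cont S L J i b.1).comp continuous_fst).mul ((hS.ker.cont b).comp continuous_snd)
  · rw [KWSF.sum_kw, h4]
  · refine (KWSF.kw_sup hS hW Cs Ci c₁ _ hCs (le_max_left c₁ (2 * c₂)) h1 h2 hCi J i hi t g g').trans ?_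
    refine mul_le_mul_of_nonneg_right (by linarith) ?_
    have hw1 : 0 ≤ WW (2 ^ J) (max c₁ (2 * c₂)) t := (Nat.cast_nonneg _).trans (hW.ge _ _ t)
    exact mul_nonneg (mul_nonneg (by positivity) (Real.rpow_nonneg hw1 _)) (by positivity)
  · refine (KWSF.mw_mul S L hW Cm c₂ _ hCm (le_max_right c₁ (2 * c₂)) h5 J i b t).trans ?_
    refine mul_le_mul_of_nonneg_right (by linarith) ?_
    have hw1 : 0 ≤ WW (2 ^ i) (max c₁ (2 * c₂)) t := (Nat.cast_nonneg _).trans (hW.ge _ _ t)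
    exact mul_nonneg (by positivity) (Real.rpow_nonneg hw1 _)
  · intro i hi b χ E₁ E₂ hχ hE₁ hE₂ ha hb j
    refine (KWSF.mw_fou S L Cf ε hCf h6 J i hi b χ E₁ E₂ hχ hE₁ hE₂ ha hb j).trans ?_
    exact mul_le_mul_of_nonneg_right (by linarith) (by positivity)

end

end SYM
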