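import Pool.Agent.SYM.StZ

/-!
# KWSX: the kernels with the cutoff as sums of the kernels `KM`
-/

namespace SYM

open STZ LGR MeasureTheory Matrix Filter

open scoped ComplexConjugate Matrix Real Topology

noncomputable section

namespace KWSX

variable {M Y : Type} {r n q : ℕ}

/-- the points with coordinates less than `N` -/
def YN (r N : ℕ) : Finset (Fin r → ℕ) := Fintype.piFinset fun _ => Finset.range N

theorem mem_YN (N : ℕ) (y : Fin r → ℕ) : y ∈ YN r N ↔ ∀ j, y j < N := by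
  simp [YN, Fintype.mem_piFinset]

theorem nn_lt (S : SPB M Y r n q) (hβ : ∀ j, 1 ≤ S.β j) (s : Fin q) (N : ℕ) (j : Fin r) (m : ℕ) :
    m < S.nn s N j ↔ S.a s j + S.β j * m < N := by
  have hb := hβ j
  rw [SPB.nn, Nat.lt_iff_add_one_le, Nat.le_div_iff_mul_le (by omega)]
  have : (m + 1) * S.β j = S.β j * m + S.β j := by ring
  rw [this]
  generalize S.β j * m = p
  omega

theorem sum_class (S : SPB M Y r n q) (hβ : ∀ j, 1 ≤ S.β j) (s : Fin q) (N : ℕ) (H : (Fin r → ℤ) → ℂ) :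
    ∑ x ∈ bxn (0 : Fin r → ℤ) (S.nn s N), H (S.pt s x) =
      ∑ y ∈ YN r N, if ∀ j, S.a s j ≤ y j ∧ S.β j ∣ y j - S.a s j then H (fun j => (y j : ℤ)) else 0 := by
  rw [← Finset.sum_filter]
  refine Finset.sum_nbij' (fun x j => (S.pt s x j).toNat) (fun y j => (((y j - S.a s j) / S.β j : ℕ) : ℤ)) ?_ ?_ ?_ ?_ ?_
  · intro x hx
    simp only [bxn, Fintype.mem_piFinset, Finset.mem_Ico, Pi.zero_apply, zero_add] at hx
    rw [Finset.mem_filter, mem_YN]
    refine ⟨fun j => ?_, fun j => ?_⟩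
    · obtain ⟨m, hm⟩ := Int.eq_ofNat_of_zero_le (hx j).1
      have h2 := (hx j).2
      rw [hm] at h2
      have h3 := (nn_lt S hβ s N j m).1 (by exact_mod_cast h2)
      have h4 : S.pt s x j = ((S.a s j + S.β j * m : ℕ) : ℤ) := by
        rw [SPB.pt, hm]; push_cast; rfl
      show (S.pt s x j).toNat < N
      rw [h4, Int.toNat_natCast]; exact h3
    · obtain ⟨m, hm⟩ := Int.eq_ofNat_of_zero_le (hx j).1
      have h4 : S.pt s x j = ((S.a s j + S.β j * m : ℕ) : ℤ) := by
        rw [SPB.pt, hm]; push_cast; rfl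
      show S.a s j ≤ (S.pt s x j).toNat ∧ S.β j ∣ (S.pt s x j).toNat - S.a s j
      rw [h4, Int.toNat_natCast]
      refine ⟨by omega, ?_⟩
      rw [Nat.add_sub_cancel_left]
      exact dvd_mul_right _ _
  · intro y hy
    rw [Finset.mem_filter, mem_YN] at hy
    simp only [bxn, Fintype.mem_piFinset, Finset.mem_Ico, Pi.zero_apply, zero_add]
    intro j
    refine ⟨by positivity, ?_⟩
    have h3 : (y j - S.a s j) / S.β j < S.nn s N j := by
      rw [nn_lt S hβ, Nat.mul_div_cancel' (hy.2 j).2]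
      have := hy.1 j
      have := (hy.2 j).1
      omega
    exact_mod_cast h3
  · intro x hx
    simp only [bxn, Fintype.mem_piFinset, Finset.mem_Ico, Pi.zero_apply, zero_add] at hx
    funext j
    obtain ⟨m, hm⟩ := Int.eq_ofNat_of_zero_le (hx j).1
    have h4 : S.pt s x j = ((S.a s j + S.β j * m : ℕ) : ℤ) := by
      rw [SPB.pt, hm]; push_cast; rfl
    show ((((S.pt s x j).toNat - S.a s j) / S.β j : ℕ) : ℤ) = x j
    rw [h4, Int.toNat_natCast, Nat.add_sub_cancel_left, Nat.mul_div_cancel_left _ (hβ j), hm]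
  · intro y hy
    rw [Finset.mem_filter, mem_YN] at hy
    funext j
    show (S.pt s (fun j => (((y j - S.a s j) / S.β j : ℕ) : ℤ)) j).toNat = y j
    have h4 : S.pt s (fun j => (((y j - S.a s j) / S.β j : ℕ) : ℤ)) j = ((y j : ℕ) : ℤ) := by
      have h5 := Nat.mul_div_cancel' (hy.2 j).2
      have h6 := (hy.2 j).1
      rw [SPB.pt]
      have h7 : (S.β j : ℤ) * (((y j - S.a s j) / S.β j : ℕ) : ℤ) = ((y j - S.a s j : ℕ) : ℤ) := by
        exact_mod_cast h5
      show (S.a s j : ℤ) + (S.β j : ℤ) * (((y j - S.a s j) / S.β j : ℕ) : ℤ) = (y j : ℤ)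
      rw [h7]; omega
    rw [h4, Int.toNat_natCast]
  · intro x hx
    simp only [bxn, Fintype.mem_piFinset, Finset.mem_Ico, Pi.zero_apply, zero_add] at hx
    congr 1
    funext j
    obtain ⟨m, hm⟩ := Int.eq_ofNat_of_zero_le (hx j).1
    have h4 : S.pt s x j = ((S.a s j + S.β j * m : ℕ) : ℤ) := by
      rw [SPB.pt, hm]; push_cast; rfl
    show S.pt s x j = (((S.pt s x j).toNat : ℕ) : ℤ)
    rw [h4, Int.toNat_natCast]

open Classical in
/-- the kernels, `0` outside `L` -/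
def KX (L : Set (Fin r → ℕ)) (KM : L → M → M → ℂ) (g g' : M) (b : Fin r → ℕ) : ℂ :=
  if hb : b ∈ L then KM ⟨b, hb⟩ g g' else 0

theorem KX_coe (L : Set (Fin r → ℕ)) (KM : L → M → M → ℂ) (g g' : M) (i : L) : KX L KM g g' i.1 = KM i g g' := by
  rw [KX, dif_pos i.2]

/-- the integrals -/
def II [MeasurableSpace Y] (S : SPB M Y r n q) (ν : Measure Y) (g g' : M) (s : Fin q) (x : Fin r → ℕ) : ℂ :=
  ∫ k, S.f s (g, g', k) * ∏ j, S.F j (g, g', k) ^ x j ∂ν

section

variable [TopologicalSpace M] [CompactSpace M] [T2Space M] [SecondCountableTopology M] [MeasurableSpace M]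
  [BorelSpace M] [TopologicalSpace Y] [CompactSpace Y] [T2Space Y] [SecondCountableTopology Y] [MeasurableSpace Y]
  [BorelSpace Y] (S : SPB M Y r n q) (L : Set (Fin r → ℕ)) (KM : L → M → M → ℂ) (μ : Measure M) (ν : Measure Y)
  [IsProbabilityMeasure ν]

omit [CompactSpace M] [T2Space M] [SecondCountableTopology M] [BorelSpace M] [CompactSpace Y] [T2Space Y]
  [SecondCountableTopology Y] [BorelSpace Y] [IsProbabilityMeasure ν] in
theorem dd_pos (h : SPD S L KM μ ν) (y : Fin r → ℕ) : 0 < S.dd (fun j => (y j : ℤ)) := by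
  rw [SPB.dd]
  refine mul_pos h.D₀ (Finset.prod_pos fun p _ => ?_)
  refine add_pos_of_pos_of_nonneg (h.a₀ p) (Finset.sum_nonneg fun j _ => mul_nonneg (h.α p j) ?_)
  positivity

omit [CompactSpace M] [T2Space M] [SecondCountableTopology M] [BorelSpace M] [CompactSpace Y] [T2Space Y]
  [SecondCountableTopology Y] [BorelSpace Y] [IsProbabilityMeasure ν] in
theorem int_eq (h : SPD S L KM μ ν) (g g' : M) (s : Fin q) (x : Fin r → ℕ) :
    (fun j => S.a s j + S.β j * x j) ∈ L ∧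
      II S ν g g' s x = KX L KM g g' (fun j => S.a s j + S.β j * x j) /
        (S.dd (fun j => ((S.a s j + S.β j * x j : ℕ) : ℤ)) : ℂ) := by
  obtain ⟨i, hi, hK⟩ := h.int s x
  have hi' : (fun j => S.a s j + S.β j * x j) = i.1 := funext fun j => (hi j).symm
  refine ⟨by rw [hi']; exact i.2, ?_⟩
  have h1 : (fun j => ((S.a s j + S.β j * x j : ℕ) : ℤ)) = fun j => ((i.1 j : ℕ) : ℤ) :=
    funext fun j => by rw [← hi j]
  rw [h1, hi', KX_coe, hK g g', II]
  have h2 : (S.dd (fun j => ((i.1 j : ℕ) : ℤ)) : ℂ) ≠ 0 := by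
    exact_mod_cast (dd_pos S L KM μ ν h i.1).ne'
  rw [mul_div_cancel_left₀ _ h2]

omit [CompactSpace M] [T2Space M] [SecondCountableTopology M] [BorelSpace M] [T2Space Y]
  [SecondCountableTopology Y] in
theorem integrable_fF (h : SPD S L KM μ ν) (g g' : M) (s : Fin q) (x : Fin r → ℕ) :
    Integrable (fun k => S.f s (g, g', k) * ∏ j, S.F j (g, g', k) ^ x j) ν := by
  have hc : Continuous fun k : Y => S.f s (g, g', k) * ∏ j, S.F j (g, g', k) ^ x j := by
    have h1 : Continuous fun k : Y => ((g, g', k) : M × M × Y) := by fun_prop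
    refine ((h.cf s).comp h1).mul (continuous_finsetProd _ fun j _ => ((h.cF j).comp h1).pow _)
  exact hc.integrable_of_hasCompactSupport (HasCompactSupport.of_compactSpace _)

/-- the summand for the point `y` -/
def HH (t : ℝ) (g g' : M) (k : Fin r → ℤ) (y : Fin r → ℤ) : ℂ :=
  (S.dd y : ℂ) * eu (-(t * (S.Q y : ℝ))) * (KX L KM g g' (fun j => (y j).toNat + S.β j * (k j).toNat) /
    (S.dd (fun j => (((y j).toNat + S.β j * (k j).toNat : ℕ) : ℤ)) : ℂ))

omit [CompactSpace M] [T2Space M] [SecondCountableTopology M] [BorelSpace M] [T2Space Y]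
  [SecondCountableTopology Y] in
theorem int_cs (h : SPD S L KM μ ν) (N : ℕ) (t : ℝ) (g g' : M) (k : Fin r → ℤ) (s : Fin q) :
    ∫ y, (∏ j, S.F j (g, g', y) ^ (k j).toNat) * S.f s (g, g', y) * S.cs s N t (fun j => S.F j (g, g', y)) ∂ν =
      ∑ x ∈ bxn (0 : Fin r → ℤ) (S.nn s N), HH S L KM t g g' k (S.pt s x) := by
  have h1 : ∀ y, (∏ j, S.F j (g, g', y) ^ (k j).toNat) * S.f s (g, g', y) * S.cs s N t (fun j => S.F j (g, g', y)) =
      ∑ x ∈ bxn (0 : Fin r → ℤ) (S.nn s N), ((S.dd (S.pt s x) : ℂ) * eu (-(t * (S.Q (S.pt s x) : ℝ)))) *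
        (S.f s (g, g', y) * ∏ j, S.F j (g, g', y) ^ ((k j).toNat + (x j).toNat)) := by
    intro y
    rw [SPB.cs, Finset.mul_sum]
    refine Finset.sum_congr rfl fun x _ => ?_
    simp only [pow_add, Finset.prod_mul_distrib]
    ring
  simp only [h1]
  rw [integral_finsetSum _ fun x _ => (integrable_fF S L KM μ ν h g g' s _).const_mul _]
  refine Finset.sum_congr rfl fun x hx => ?_
  rw [integral_const_mul]
  simp only [bxn, Fintype.mem_piFinset, Finset.mem_Ico, Pi.zero_apply, zero_add] at hx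
  have h2 := (int_eq S L KM μ ν h g g' s (fun j => (k j).toNat + (x j).toNat)).2
  rw [II] at h2
  rw [h2, HH]
  have h3 : (fun j => S.a s j + S.β j * ((k j).toNat + (x j).toNat)) =
      fun j => (S.pt s x j).toNat + S.β j * (k j).toNat := by
    funext j
    obtain ⟨m, hm⟩ := Int.eq_ofNat_of_zero_le (hx j).1
    have h4 : S.pt s x j = ((S.a s j + S.β j * m : ℕ) : ℤ) := by
      rw [SPB.pt, hm]; push_cast; rfl
    rw [h4, Int.toNat_natCast, hm]
    simp only [Int.toNat_natCast]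
    ring
  have h5 : (fun j => ((S.a s j + S.β j * ((k j).toNat + (x j).toNat) : ℕ) : ℤ)) =
      fun j => (((S.pt s x j).toNat + S.β j * (k j).toNat : ℕ) : ℤ) := by
    funext j
    exact congrArg (fun m : ℕ => (m : ℤ)) (congrFun h3 j)
  rw [h5, h3]

open Classical in
omit [CompactSpace M] [T2Space M] [SecondCountableTopology M] [BorelSpace M] [T2Space Y]
  [SecondCountableTopology Y] in
theorem sum_s (h : SPD S L KM μ ν) (N : ℕ) (t : ℝ) (g g' : M) (k : Fin r → ℤ) :
    ∑ s, (S.c s : ℂ) * ∫ y, (∏ j, S.F j (g, g', y) ^ (k j).toNat) * S.f s (g, g', y) *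
      S.cs s N t (fun j => S.F j (g, g', y)) ∂ν =
      ∑ y ∈ (YN r N).filter (· ∈ L), HH S L KM t g g' k (fun j => (y j : ℤ)) := by
  have h1 : ∀ s, (S.c s : ℂ) * ∫ y, (∏ j, S.F j (g, g', y) ^ (k j).toNat) * S.f s (g, g', y) *
      S.cs s N t (fun j => S.F j (g, g', y)) ∂ν =
      ∑ y ∈ YN r N, ((if ∀ j, S.a s j ≤ y j ∧ S.β j ∣ y j - S.a s j then S.c s else 0 : ℤ) : ℂ) *
        HH S L KM t g g' k (fun j => (y j : ℤ)) := by
    intro s
    rw [int_cs S L KM μ ν h, sum_class S h.β s N (HH S L KM t g g' k), Finset.mul_sum]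
    refine Finset.sum_congr rfl fun y _ => ?_
    split_ifs <;> simp
  rw [Finset.sum_congr rfl fun s _ => h1 s, Finset.sum_comm, Finset.sum_filter]
  refine Finset.sum_congr rfl fun y _ => ?_
  rw [← Finset.sum_mul, ← Int.cast_sum]
  split_ifs with hy
  · rw [(h.cls y).1 hy]; simp
  · rw [(h.cls y).2 hy]; simp

omit [CompactSpace M] [T2Space M] [SecondCountableTopology M] [BorelSpace M] [CompactSpace Y] [T2Space Y]
  [SecondCountableTopology Y] [BorelSpace Y] [IsProbabilityMeasure ν] in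
theorem mem_L (h : SPD S L KM μ ν) (y : Fin r → ℕ) (hy : y ∈ L) (k : Fin r → ℕ) :
    (fun j => y j + S.β j * k j) ∈ L := by
  have h1 := (h.cls y).1 hy
  obtain ⟨s, _, hs⟩ := Finset.exists_ne_zero_of_sum_ne_zero (h1.trans_ne one_ne_zero)
  have h2 : ∀ j, S.a s j ≤ y j ∧ S.β j ∣ y j - S.a s j := by
    by_contra hc
    rw [if_neg hc] at hs
    exact hs rfl
  obtain ⟨i, hi, -⟩ := h.int s (fun j => (y j - S.a s j) / S.β j + k j)
  have h3 : (fun j => y j + S.β j * k j) = i.1 := by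
    funext j
    rw [hi j, mul_add, Nat.mul_div_cancel' (h2 j).2]
    have := (h2 j).1
    omega
  rw [h3]; exact i.2

open Classical in
omit [TopologicalSpace M] [CompactSpace M] [T2Space M] [SecondCountableTopology M] [MeasurableSpace M]
  [BorelSpace M] in
theorem sum_TS (N : ℕ) (Φ : (Fin r → ℕ) → ℂ) :
    ∑ b ∈ TS L N, Φ b.1 = ∑ b ∈ (YN r N).filter (· ∈ L), Φ b := by
  have h1 : (YN r N).filter (· ∈ L) = (TS L N).image Subtype.val := by
    ext y
    rw [Finset.mem_filter, mem_YN, Finset.mem_image]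
    constructor
    · rintro ⟨h1, h2⟩
      exact ⟨⟨y, h2⟩, (mem_TS L N _).2 h1, rfl⟩
    · rintro ⟨b, hb, rfl⟩
      exact ⟨(mem_TS L N b).1 hb, b.2⟩
  rw [h1, Finset.sum_image Subtype.val_injective.injOn]

omit [CompactSpace M] [T2Space M] [SecondCountableTopology M] [BorelSpace M] [T2Space Y]
  [SecondCountableTopology Y] in
theorem integrable_k (h : SPD S L KM μ ν) (N : ℕ) (t : ℝ) (g g' : M) (k : Fin r → ℤ) (s : Fin q) :
    Integrable (fun y => (∏ j, S.F j (g, g', y) ^ (k j).toNat) * S.f s (g, g', y) *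
      S.cs s N t (fun j => S.F j (g, g', y))) ν := by
  have h1 : Continuous fun k : Y => ((g, g', k) : M × M × Y) := by fun_prop
  have hc : Continuous fun y : Y => (∏ j, S.F j (g, g', y) ^ (k j).toNat) * S.f s (g, g', y) *
      S.cs s N t (fun j => S.F j (g, g', y)) := by
    refine ((continuous_finsetProd _ fun j _ => ((h.cF j).comp h1).pow _).mul ((h.cf s).comp h1)).mul ?_
    simp only [SPB.cs]
    exact continuous_finsetSum _ fun x _ => continuous_const.mul
      (continuous_finsetProd _ fun j _ => ((h.cF j).comp h1).pow _)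
  exact hc.integrable_of_hasCompactSupport (HasCompactSupport.of_compactSpace _)

omit [CompactSpace M] [T2Space M] [SecondCountableTopology M] [BorelSpace M] [T2Space Y]
  [SecondCountableTopology Y] in
theorem kc_sum (hC : CUT) (h : SPD S L KM μ ν) (N R : ℕ) (hR : 1 ≤ R) (t : ℝ) (g g' : M) :
    S.kc ν N R t g g' = ∑ k ∈ bx (0 : Fin r → ℤ) (2 * r * R + 1), (sc r R k : ℂ) * ∑ s, (S.c s : ℂ) *
      ∫ y, (∏ j, S.F j (g, g', y) ^ (k j).toNat) * S.f s (g, g', y) * S.cs s N t (fun j => S.F j (g, g', y)) ∂ν := by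
  rw [SPB.kc]
  simp only [Finset.mul_sum]
  rw [Finset.sum_comm]
  refine Finset.sum_congr rfl fun s _ => ?_
  have h1 : ∀ y, sg r R (fun j => S.F j (g, g', y)) * S.f s (g, g', y) * S.cs s N t (fun j => S.F j (g, g', y)) =
      ∑ k ∈ bx (0 : Fin r → ℤ) (2 * r * R + 1), (sc r R k : ℂ) *
        ((∏ j, S.F j (g, g', y) ^ (k j).toNat) * S.f s (g, g', y) * S.cs s N t (fun j => S.F j (g, g', y))) := by
    intro y
    rw [hC.sum r R _ hR, Finset.sum_mul, Finset.sum_mul]
    refine Finset.sum_congr rfl fun k _ => ?_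
    ring
  simp only [h1]
  rw [integral_finsetSum _ fun k _ => (integrable_k S L KM μ ν h N t g g' k s).const_mul _, Finset.mul_sum]
  refine Finset.sum_congr rfl fun k _ => ?_
  rw [integral_const_mul]
  ring

open Classical in
omit [CompactSpace M] [T2Space M] [SecondCountableTopology M] [BorelSpace M] [CompactSpace Y] [T2Space Y]
  [SecondCountableTopology Y] [BorelSpace Y] [IsProbabilityMeasure ν] in
theorem fix_k (h : SPD S L KM μ ν) (N R L₁ : ℕ) (t : ℝ) (g g' : M) (hL : N + (2 * r * R + 1) * ∑ j, S.β j ≤ L₁)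
    (k : Fin r → ℤ) (hk : k ∈ bx (0 : Fin r → ℤ) (2 * r * R + 1)) :
    (sc r R k : ℂ) * ∑ y ∈ (YN r N).filter (· ∈ L), HH S L KM t g g' k (fun j => (y j : ℤ)) =
      ∑ b ∈ (YN r L₁).filter (· ∈ L), (if ∃ x ∈ L, (∀ j, x j < N) ∧ ∀ j, (b j : ℤ) = x j + S.β j * k j then
        (sc r R k : ℂ) * ((S.dd (fun j => b j - S.β j * k j) / S.dd (fun j => b j) : ℝ) : ℂ) *
          eu (-(t * (S.Q (fun j => b j - S.β j * k j) : ℝ))) else 0) * KX L KM g g' b := by
  simp only [bx, Fintype.mem_piFinset, Finset.mem_Ico, Pi.zero_apply, zero_add] at hk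
  obtain ⟨m, hm⟩ : ∃ m : Fin r → ℕ, ∀ j, k j = m j :=
    ⟨fun j => (k j).toNat, fun j => (Int.toNat_of_nonneg (hk j).1).symm⟩
  have hm' : ∀ j, (k j).toNat = m j := fun j => by rw [hm j, Int.toNat_natCast]
  have hm2 : ∀ j, m j ≤ 2 * r * R := fun j => by
    have := (hk j).2
    rw [hm j] at this
    have h2 : (m j : ℤ) < ((2 * r * R + 1 : ℕ) : ℤ) := by exact_mod_cast this
    have h3 : m j < 2 * r * R + 1 := by exact_mod_cast h2
    omega
  rw [Finset.mul_sum]
  simp only [ite_mul, zero_mul]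
  rw [← Finset.sum_filter]
  refine Finset.sum_nbij (fun y j => y j + S.β j * m j) ?_ ?_ ?_ ?_
  · intro y hy
    rw [Finset.mem_filter, mem_YN] at hy
    rw [Finset.mem_filter, Finset.mem_filter, mem_YN]
    refine ⟨⟨fun j => ?_, mem_L S L KM μ ν h y hy.2 m⟩, y, hy.2, hy.1, fun j => ?_⟩
    · have h1 := hy.1 j
      have h2 : S.β j ≤ ∑ j, S.β j := Finset.single_le_sum (f := S.β) (fun _ _ => Nat.zero_le _) (Finset.mem_univ j)
      have h3 : S.β j * m j ≤ (∑ j, S.β j) * (2 * r * R) := Nat.mul_le_mul h2 (hm2 j)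
      have h4 : (2 * r * R + 1) * ∑ j, S.β j = (∑ j, S.β j) * (2 * r * R) + ∑ j, S.β j := by ring
      omega
    · rw [hm j]; push_cast; rfl
  · intro y _ y' _ he
    funext j
    have := congrFun he j
    simp only at this
    omega
  · intro b hb
    rw [Finset.mem_coe, Finset.mem_filter, Finset.mem_filter, mem_YN] at hb
    obtain ⟨-, x, hx, hx1, hx2⟩ := hb
    refine ⟨x, ?_, ?_⟩
    · rw [Finset.mem_coe, Finset.mem_filter, mem_YN]
      exact ⟨hx1, hx⟩
    · funext j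
      have := hx2 j
      rw [hm j] at this
      exact_mod_cast this.symm
  · intro y hy
    have h1 : (fun j => (((y j + S.β j * m j : ℕ) : ℤ)) - S.β j * k j) = fun j => (y j : ℤ) := by
      funext j
      rw [hm j]; push_cast; ring
    show _ = (sc r R k : ℂ) * ((S.dd (fun j => (((y j + S.β j * m j : ℕ) : ℤ)) - S.β j * k j) /
      S.dd (fun j => ((y j + S.β j * m j : ℕ) : ℤ)) : ℝ) : ℂ) *
      eu (-(t * (S.Q (fun j => (((y j + S.β j * m j : ℕ) : ℤ)) - S.β j * k j) : ℝ))) *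
      KX L KM g g' (fun j => y j + S.β j * m j)
    rw [h1, HH]
    simp only [hm', Int.toNat_natCast]
    push_cast
    ring

omit [CompactSpace M] [T2Space M] [SecondCountableTopology M] [BorelSpace M] [T2Space Y]
  [SecondCountableTopology Y] in
theorem claim1 (hC : CUT) (h : SPD S L KM μ ν) (N R L₁ : ℕ) (t : ℝ) (g g' : M) (hR : 1 ≤ R)
    (hL : N + (2 * r * R + 1) * ∑ j, S.β j ≤ L₁) :
    S.kc ν N R t g g' = ∑ b ∈ TS L L₁, S.mm L N R b.1 t * KM b g g' := by
  classical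
  rw [kc_sum S L KM μ ν hC h N R hR t g g']
  have h1 : ∀ k ∈ bx (0 : Fin r → ℤ) (2 * r * R + 1), _ = _ := fun k hk =>
    (congrArg (fun z : ℂ => (sc r R k : ℂ) * z) (sum_s S L KM μ ν h N t g g' k)).trans
      (fix_k S L KM μ ν h N R L₁ t g g' hL k hk)
  rw [Finset.sum_congr rfl h1, Finset.sum_comm]
  have h2 : ∑ b ∈ TS L L₁, S.mm L N R b.1 t * KM b g g' =
      ∑ b ∈ TS L L₁, (fun b : Fin r → ℕ => S.mm L N R b t * KX L KM g g' b) b.1 :=
    Finset.sum_congr rfl fun b _ => by rw [← KX_coe L KM g g' b]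
  rw [h2]
  refine Eq.trans ?_ (sum_TS L L₁ (fun b : Fin r → ℕ => S.mm L N R b t * KX L KM g g' b)).symm
  refine Finset.sum_congr rfl fun b _ => ?_
  rw [SPB.mm, Finset.sum_mul]

omit [CompactSpace M] [T2Space M] [SecondCountableTopology M] [BorelSpace M] [T2Space Y]
  [SecondCountableTopology Y] in
theorem claim2 (hC : CUT) (h : SPD S L KM μ ν) (hr : 1 ≤ r) (N : ℕ) (t : ℝ) (g g' : M) :
    S.kc ν N 1 t g g' = ∑ b ∈ TS L N, eu (-(t * (S.Q (fun j => b.1 j) : ℝ))) * KM b g g' := by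
  classical
  have h1 := sum_s S L KM μ ν h N t g g' 0
  simp only [Pi.zero_apply, Int.toNat_zero, pow_zero, Finset.prod_const_one, one_mul] at h1
  have h2 : S.kc ν N 1 t g g' = ∑ s, (S.c s : ℂ) * ∫ y, S.f s (g, g', y) *
      S.cs s N t (fun j => S.F j (g, g', y)) ∂ν := by
    rw [SPB.kc]
    simp only [hC.one r _ hr, one_mul]
  have h3 : ∑ b ∈ TS L N, eu (-(t * (S.Q (fun j => b.1 j) : ℝ))) * KM b g g' =
      ∑ b ∈ TS L N, (fun b : Fin r → ℕ => eu (-(t * (S.Q (fun j => b j) : ℝ))) * KX L KM g g' b) b.1 :=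
    Finset.sum_congr rfl fun b _ => by rw [← KX_coe L KM g g' b]
  rw [h2, h1, h3]
  refine Eq.trans ?_ (sum_TS L N (fun b : Fin r → ℕ => eu (-(t * (S.Q (fun j => b j) : ℝ))) * KX L KM g g' b)).symm
  refine Finset.sum_congr rfl fun y _ => ?_
  have h4 : (S.dd (fun j => ((y j : ℕ) : ℤ)) : ℂ) ≠ 0 := by
    exact_mod_cast (dd_pos S L KM μ ν h y).ne'
  rw [HH]
  simp only [Pi.zero_apply, Int.toNat_zero, mul_zero, add_zero, Int.toNat_natCast]
  field_simp

end

end KWSX

open KWSX in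
theorem t_KWSX : M_KWSX := by
  intro hC M Y _ _ _ _ _ _ _ _ _ _ _ _ r n q S L KM μ ν _ h hr
  exact ⟨fun N R L₁ t g g' hR hL => claim1 S L KM μ ν hC h N R L₁ t g g' hR hL,
    fun N t g g' => claim2 S L KM μ ν hC h hr N t g g'⟩

end

end SYM
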