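import Pool.Agent.SYM.StQ
import Pool.Agent.STZ.Base
import Pool.Agent.STZ.EXP

/-!
# Symmetric spaces: the upper bound, block Q: module LEMK
-/

namespace SYM

open STZ LGR MeasureTheory Matrix Filter

open scoped ComplexConjugate Matrix Real Topology

noncomputable section

namespace LEMK

/-- entrywise derivative at `0` -/
def HD {N : ℕ} (F : ℝ → Matrix (Fin N) (Fin N) ℂ) (F' : Matrix (Fin N) (Fin N) ℂ) : Prop :=
  ∀ i j, HasDerivAt (fun t => F t i j) (F' i j) 0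

theorem HD.mul {N : ℕ} {F G : ℝ → Matrix (Fin N) (Fin N) ℂ} {F' G' : Matrix (Fin N) (Fin N) ℂ}
    (hF : HD F F') (hG : HD G G') : HD (fun t => F t * G t) (F' * G 0 + F 0 * G') := by
  intro i j
  have h : HasDerivAt (fun t => ∑ k, F t i k * G t k j)
      (∑ k, (F' i k * G 0 k j + F 0 i k * G' k j)) 0 :=
    HasDerivAt.fun_sum fun k _ => (hF i k).mul (hG k j)
  simpa only [Matrix.mul_apply, Matrix.add_apply, Finset.sum_add_distrib] using h

theorem HD.const {N : ℕ} (A : Matrix (Fin N) (Fin N) ℂ) : HD (fun _ => A) 0 := by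
  intro i j
  exact hasDerivAt_const _ _

theorem HD.conj {N : ℕ} {F : ℝ → Matrix (Fin N) (Fin N) ℂ} {F' : Matrix (Fin N) (Fin N) ℂ}
    (hF : HD F F') : HD (fun t => (F t)ᴴ) F'ᴴ := by
  intro i j
  exact (hF j i).star

theorem HD.trace {N : ℕ} {F : ℝ → Matrix (Fin N) (Fin N) ℂ} {F' : Matrix (Fin N) (Fin N) ℂ}
    (hF : HD F F') : HasDerivAt (fun t => (F t).trace) F'.trace 0 := by
  have h : HasDerivAt (fun t => ∑ k, F t k k) (∑ k, F' k k) 0 :=
    HasDerivAt.fun_sum fun k _ => hF k k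
  exact h

/-- the real part of the trace of `C Cᴴ` vanishes only for `C = 0` -/
theorem zero_of {N : ℕ} (C : Matrix (Fin N) (Fin N) ℂ) (h : (C * Cᴴ).trace.re = 0) : C = 0 := by
  have h1 : (C * Cᴴ).trace.re = ∑ i, ∑ j, ‖C i j‖ ^ 2 := by
    simp only [Matrix.trace, Matrix.diag, Matrix.mul_apply, Matrix.conjTranspose_apply,
      Complex.re_sum]
    refine Finset.sum_congr rfl fun i _ => Finset.sum_congr rfl fun j _ => ?_
    rw [Complex.star_def, Complex.mul_conj, Complex.ofReal_re, Complex.normSq_eq_norm_sq]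
  rw [h1] at h
  ext i j
  have h2 := (Finset.sum_eq_zero_iff_of_nonneg (fun i _ =>
    Finset.sum_nonneg fun j _ => by positivity)).1 h i (Finset.mem_univ _)
  have h3 := (Finset.sum_eq_zero_iff_of_nonneg (fun j _ => by positivity)).1 h2 j
    (Finset.mem_univ _)
  simpa using h3

theorem mul_star_self' {N : ℕ} (g : SU N) : g.1 * g.1ᴴ = 1 := congrArg Subtype.val (mul_inv_cancel g)

theorem star_mul_self' {N : ℕ} (g : SU N) : g.1ᴴ * g.1 = 1 := congrArg Subtype.val (inv_mul_cancel g)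

/-- the adjoint of a unitary matrix which commutes with `s` commutes with `s` -/
theorem star_comm {N : ℕ} (g : SU N) (s : Matrix (Fin N) (Fin N) ℂ) (h : g.1 * s = s * g.1) :
    g.1ᴴ * s = s * g.1ᴴ := by
  have h1 : g.1ᴴ * s = g.1ᴴ * s * (g.1 * g.1ᴴ) := by rw [mul_star_self', Matrix.mul_one]
  have h2 : g.1ᴴ * s * (g.1 * g.1ᴴ) = g.1ᴴ * (s * g.1) * g.1ᴴ := by
    simp only [Matrix.mul_assoc]
  rw [h1, h2, ← h]
  have h3 : g.1ᴴ * (g.1 * s) * g.1ᴴ = (g.1ᴴ * g.1) * s * g.1ᴴ := by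
    simp only [Matrix.mul_assoc]
  rw [h3, star_mul_self', Matrix.one_mul]

/-- `exp (t C)` commutes with `s` if `C` does -/
theorem ex_comm {N : ℕ} (C s : Matrix (Fin N) (Fin N) ℂ) (hC : C ∈ su N) (h : C * s = s * C) (t : ℝ) :
    (ex C t).1 * s = s * (ex C t).1 := by
  rw [(t_EXP N C hC).coe t]
  have hc : Commute s ((t : ℂ) • C) := (show Commute s C from h.symm).smul_right _
  exact (hc.exp_right).eq.symm

/-- the first variation at a minimum -/
theorem var {N : ℕ} (U Z Y : Matrix (Fin N) (Fin N) ℂ) (hU : U ∈ su N)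
    (hmin : ∀ t : ℝ, (Z * Y).trace.re ≤ ((ex U t).1 * Z * (ex U t).1ᴴ * Y).trace.re) :
    (U * (Z * Y - Y * Z)).trace.re = 0 := by
  have hE := t_EXP N U hU
  have hd0 : HD (fun t => (ex U t).1) U := hE.der
  have hd : HD (fun t => (ex U t).1 * Z * (ex U t).1ᴴ * Y)
      (((U * Z + (ex U 0).1 * 0) * (ex U 0).1ᴴ + (ex U 0).1 * Z * Uᴴ) * Y
        + (ex U 0).1 * Z * (ex U 0).1ᴴ * 0) :=
    ((hd0.mul (HD.const Z)).mul hd0.conj).mul (HD.const Y)
  have ht := hd.trace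
  have hre : HasDerivAt (fun t => ((ex U t).1 * Z * (ex U t).1ᴴ * Y).trace.re)
      ((((U * Z + (ex U 0).1 * 0) * (ex U 0).1ᴴ + (ex U 0).1 * Z * Uᴴ) * Y
        + (ex U 0).1 * Z * (ex U 0).1ᴴ * 0).trace.re) 0 := by
    have := Complex.reCLM.hasFDerivAt.comp_hasDerivAt (0 : ℝ) ht
    exact this
  have hmin' : IsLocalMin (fun t => ((ex U t).1 * Z * (ex U t).1ᴴ * Y).trace.re) 0 := by
    refine Filter.Eventually.of_forall fun t => ?_
    have h5 : (ex U 0).1 * Z * (ex U 0).1ᴴ = Z := by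
      rw [hE.zero]
      simp
    have h7 : ((ex U 0).1 * Z * (ex U 0).1ᴴ * Y).trace.re = (Z * Y).trace.re := by
      rw [h5]
    exact h7.le.trans (hmin t)
  have h0 := hmin'.hasDerivAt_eq_zero hre
  rw [hE.zero] at h0
  have hUs : Uᴴ = -U := hU.1
  have h6 : (U * (Z * Y - Y * Z)).trace = (((U * Z + (1 : SU N).1 * 0) * (1 : SU N).1ᴴ
      + (1 : SU N).1 * Z * Uᴴ) * Y + (1 : SU N).1 * Z * (1 : SU N).1ᴴ * 0).trace := by
    have h7 : ((1 : SU N).1 : Matrix (Fin N) (Fin N) ℂ) = 1 := rfl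
    rw [h7, hUs]
    simp only [Matrix.conjTranspose_one, Matrix.mul_one, Matrix.one_mul, Matrix.mul_zero,
      add_zero, Matrix.mul_neg, Matrix.add_mul, Matrix.neg_mul, Matrix.trace_add,
      Matrix.trace_neg, Matrix.mul_sub, Matrix.trace_sub]
    rw [Matrix.mul_assoc U Z Y, ← sub_eq_add_neg]
    rw [← Matrix.mul_assoc U Y Z, Matrix.trace_mul_cycle U Y Z]
  rw [h6]
  exact h0

end LEMK

open LEMK

theorem t_LEMK : M_LEMK := by
  intro _ hL hT N H K σ τ hH hS P S X Y hX hτX hY hτY hcS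
  have L := hL N H hH
  have T := hT N H K σ τ hH hS P
  have hclosed : IsClosed ((K : Set (SU N)) ∩ {k : SU N | ∀ s ∈ S, k.1 * s = s * k.1}) := by
    refine P.closed.inter ?_
    have h1 : {k : SU N | ∀ s ∈ S, k.1 * s = s * k.1} =
        ⋂ s ∈ S, {k : SU N | k.1 * s = s * k.1} := by
      ext k
      simp
    rw [h1]
    refine isClosed_biInter fun s _ => ?_
    have hv : Continuous fun h : SU N => (h.1 : Matrix (Fin N) (Fin N) ℂ) := continuous_subtype_val
    exact isClosed_eq (hv.matrix_mul continuous_const) (continuous_const.matrix_mul hv)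
  have hne : ((K : Set (SU N)) ∩ {k : SU N | ∀ s ∈ S, k.1 * s = s * k.1}).Nonempty := by
    refine ⟨1, K.one_mem, fun s _ => ?_⟩
    have h7 : ((1 : SU N).1 : Matrix (Fin N) (Fin N) ℂ) = 1 := rfl
    rw [h7, Matrix.one_mul, Matrix.mul_one]
  have hcont : Continuous fun h : SU N => (h.1 * X * h.1ᴴ * Y).trace.re := by
    have hv : Continuous fun h : SU N => (h.1 : Matrix (Fin N) (Fin N) ℂ) := continuous_subtype_val
    exact Complex.continuous_re.comp
      ((((hv.matrix_mul continuous_const).matrix_mul hv.matrix_conjTranspose).matrix_mul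
        continuous_const).matrix_trace)
  obtain ⟨k, ⟨hk, hkS⟩, hmin⟩ := hclosed.isCompact.exists_isMinOn hne hcont.continuousOn
  refine ⟨k, hk, hkS, ?_⟩
  have hkH : k ∈ H := P.sub hk
  set Z := k.1 * X * k.1ᴴ with hZ
  have hZm : Z ∈ lie H := L.ad k hkH X hX
  have hτZ : τ Z = -Z := by
    have h1 := T.Ad ⟨k, hkH⟩ X hX
    rw [P.fix ⟨k, hkH⟩ hk, hτX] at h1
    rw [hZ]
    refine h1.trans ?_
    rw [Matrix.mul_neg, Matrix.neg_mul]
  have hC : Z * Y - Y * Z ∈ lie H := L.br Z hZm Y hY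
  have hτC : τ (Z * Y - Y * Z) = Z * Y - Y * Z := by
    rw [T.br Z hZm Y hY, hτZ, hτY]
    simp only [Matrix.mul_neg, Matrix.neg_mul, neg_neg]
  have hCK : Z * Y - Y * Z ∈ lie K := P.big _ hC hτC
  have hZS : ∀ s ∈ S, Z * s = s * Z := by
    intro s hs
    have h1 := star_comm k s (hkS s hs)
    have h2 := (hcS s hs).1
    have h3 := hkS s hs
    calc Z * s = k.1 * X * (k.1ᴴ * s) := by rw [hZ, Matrix.mul_assoc]
      _ = k.1 * (X * s) * k.1ᴴ := by rw [h1]; simp only [Matrix.mul_assoc]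
      _ = (k.1 * s) * X * k.1ᴴ := by rw [h2]; simp only [Matrix.mul_assoc]
      _ = s * Z := by rw [h3, hZ]; simp only [Matrix.mul_assoc]
  have hCS : ∀ s ∈ S, (Z * Y - Y * Z) * s = s * (Z * Y - Y * Z) := by
    intro s hs
    have h1 := hZS s hs
    have h2 := (hcS s hs).2
    rw [Matrix.sub_mul, Matrix.mul_sub]
    congr 1
    · rw [Matrix.mul_assoc, h2, ← Matrix.mul_assoc, h1, Matrix.mul_assoc]
    · rw [Matrix.mul_assoc, h1, ← Matrix.mul_assoc, h2, Matrix.mul_assoc]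
  have key : ((Z * Y - Y * Z) * (Z * Y - Y * Z)).trace.re = 0 := by
    refine var _ Z Y (L.su _ hC) fun t => ?_
    have h1 : (ex (Z * Y - Y * Z) t * k) ∈
        (K : Set (SU N)) ∩ {k : SU N | ∀ s ∈ S, k.1 * s = s * k.1} := by
      refine ⟨K.mul_mem (hCK.2 t) hk, fun s hs => ?_⟩
      have h4 : (ex (Z * Y - Y * Z) t * k).1 = (ex (Z * Y - Y * Z) t).1 * k.1 := rfl
      rw [h4, Matrix.mul_assoc, hkS s hs, ← Matrix.mul_assoc,
        ex_comm _ s (L.su _ hC) (hCS s hs) t, Matrix.mul_assoc]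
    have h2 := hmin h1
    simp only [Set.mem_setOf_eq] at h2
    have h3 : ((ex (Z * Y - Y * Z) t * k : SU N) : Matrix (Fin N) (Fin N) ℂ) * X
        * ((ex (Z * Y - Y * Z) t * k : SU N) : Matrix (Fin N) (Fin N) ℂ)ᴴ * Y
        = (ex (Z * Y - Y * Z) t).1 * Z * (ex (Z * Y - Y * Z) t).1ᴴ * Y := by
      rw [hZ]
      have h4 : ((ex (k.1 * X * k.1ᴴ * Y - Y * (k.1 * X * k.1ᴴ)) t * k : SU N) :
          Matrix (Fin N) (Fin N) ℂ) =
          (ex (k.1 * X * k.1ᴴ * Y - Y * (k.1 * X * k.1ᴴ)) t).1 * k.1 := rfl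
      rw [h4, Matrix.conjTranspose_mul]
      simp only [Matrix.mul_assoc]
    rw [h3] at h2
    exact h2
  have hs : (Z * Y - Y * Z)ᴴ = -(Z * Y - Y * Z) := (L.su _ hC).1
  have h9 : Z * Y - Y * Z = 0 := by
    refine zero_of _ ?_
    rw [hs, Matrix.mul_neg, Matrix.trace_neg, Complex.neg_re, key, neg_zero]
  exact sub_eq_zero.1 h9

end

end SYM
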