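import Pool.Agent.SYM.StQ

/-!
# LEVC: the Levi subgroups of the symmetric pair
-/

namespace SYM

open STZ LGR MeasureTheory Matrix Filter

open scoped ComplexConjugate Matrix Real Topology

noncomputable section

namespace LEVC

variable {N : ℕ} {H K : Subgroup (SU N)} {σ : H →* H}
  {τ : Matrix (Fin N) (Fin N) ℂ →ₗ[ℝ] Matrix (Fin N) (Fin N) ℂ}
  {A : Submodule ℝ (Matrix (Fin N) (Fin N) ℂ)}
  {l : ℕ} {Φ : RT l} {B : Matrix (Fin l) (Fin l) ℤ} {Hc : Fin l → Matrix (Fin N) (Fin N) ℂ}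
  {E : (Fin l → ℤ) × (Fin l → ℤ) → Matrix (Fin N) (Fin N) ℂ} {x₀ : Fin l → ℝ}

theorem hxc (hL : LRD H Φ B Hc E) (x y : Fin l → ℝ) :
    hx Hc x * hx Hc y = hx Hc y * hx Hc x := by
  have h : Commute (hx Hc x) (hx Hc y) := by
    simp only [hx]
    refine Commute.sum_left _ _ _ fun i _ => Commute.sum_right _ _ _ fun j _ => ?_
    exact ((show Commute (Hc i) (Hc j) from hL.comm i j).smul_left _).smul_right _
  exact h.eq

theorem pos_mem {p : (Fin l → ℤ) × (Fin l → ℤ)} (hp : p ∈ pos Φ) : p ∈ Φ :=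
  (Finset.mem_filter.1 hp).1

/-- the commutator of `hx x` with a component -/
theorem brk (hT : TAF H Φ Hc E) (hw : WFF Φ B) (hL : LRD H Φ B Hc E) (x : Fin l → ℝ) (c : ℂ)
    {p : (Fin l → ℤ) × (Fin l → ℤ)} (hp : p ∈ Φ) :
    hx Hc x * (c • E p - conj c • (E p)ᴴ) - (c • E p - conj c • (E p)ᴴ) * hx Hc x =
      (dz p.1 x * Complex.I) • (c • E p + conj c • (E p)ᴴ) := by
  have e1 := hT.ade p hp x
  have e2 := hT.ade _ (hw.neg p hp) x
  rw [hL.star p hp] at e2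
  have e3 : (((∑ j, (((-p.1 : Fin l → ℤ) j : ℤ) : ℝ) * x j : ℝ) : ℂ) * Complex.I) =
      -(dz p.1 x * Complex.I) := by
    rw [dz]
    push_cast
    simp only [Pi.neg_apply, Int.cast_neg, neg_mul, Finset.sum_neg_distrib]
  change _ = (((∑ j, (((-p.1 : Fin l → ℤ) j : ℤ) : ℝ) * x j : ℝ) : ℂ) * Complex.I) • _ at e2
  rw [e3] at e2
  change _ = (dz p.1 x * Complex.I) • _ at e1
  rw [Matrix.mul_sub, Matrix.sub_mul, mul_smul_comm, mul_smul_comm, smul_mul_assoc,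
    smul_mul_assoc, sub_sub_sub_comm, ← smul_sub, ← smul_sub, e1, e2]
  module

/-- the elements which commute with `hx x` -/
theorem coef (hT : TAF H Φ Hc E) (hw : WFF Φ B) (hL : LRD H Φ B Hc E) (x y : Fin l → ℝ)
    (z : (Fin l → ℤ) × (Fin l → ℤ) → ℂ) :
    (hx Hc y + ∑ p ∈ pos Φ, (z p • E p - conj (z p) • (E p)ᴴ)) * hx Hc x =
      hx Hc x * (hx Hc y + ∑ p ∈ pos Φ, (z p • E p - conj (z p) • (E p)ᴴ)) ↔
    ∀ p ∈ pos Φ, z p * (dz p.1 x : ℂ) = 0 := by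
  have h1 : hx Hc x * (hx Hc y + ∑ p ∈ pos Φ, (z p • E p - conj (z p) • (E p)ᴴ)) -
      (hx Hc y + ∑ p ∈ pos Φ, (z p • E p - conj (z p) • (E p)ᴴ)) * hx Hc x =
      ∑ p ∈ pos Φ, (dz p.1 x * Complex.I) • (z p • E p + conj (z p) • (E p)ᴴ) := by
    rw [Matrix.mul_add, Matrix.add_mul, hxc hL x y, add_sub_add_left_eq_sub, Finset.mul_sum,
      Finset.sum_mul, ← Finset.sum_sub_distrib]
    exact Finset.sum_congr rfl fun p hp => brk hT hw hL x (z p) (pos_mem hp)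
  constructor
  · intro h q hq
    rw [h, sub_self] at h1
    have h2 := congrArg (fun M => (M * (E q)ᴴ).trace) h1
    simp only [Matrix.zero_mul, Matrix.trace_zero, Finset.sum_mul, Matrix.trace_sum] at h2
    have hst : ∀ p ∈ pos Φ, ((E p)ᴴ * (E q)ᴴ).trace = 0 := by
      intro p hp
      rw [← hL.star p (pos_mem hp)]
      refine hT.orth _ (hw.neg p (pos_mem hp)) q (pos_mem hq) ?_
      intro h
      exact (hw.dich p (pos_mem hp)).1 hp (h ▸ hq)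
    rw [Finset.sum_eq_single q] at h2
    · rw [smul_mul_assoc, Matrix.trace_smul, Matrix.add_mul, Matrix.trace_add, smul_mul_assoc,
        smul_mul_assoc, Matrix.trace_smul, Matrix.trace_smul, hst q hq, smul_zero, add_zero,
        smul_eq_mul, smul_eq_mul] at h2
      have h3 : (E q * (E q)ᴴ).trace ≠ 0 := by
        intro h
        have := (hT.pos q (pos_mem hq)).1
        rw [h] at this
        simp at this
      have h4 := h2.symm
      rw [mul_eq_zero, mul_eq_zero, mul_eq_zero] at h4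
      rcases h4 with (h4 | h4) | (h4 | h4)
      · rw [h4, mul_zero]
      · exact absurd h4 Complex.I_ne_zero
      · rw [h4, zero_mul]
      · exact absurd h4 h3
    · intro p hp hpq
      rw [smul_mul_assoc, Matrix.trace_smul, Matrix.add_mul, Matrix.trace_add, smul_mul_assoc,
        smul_mul_assoc, Matrix.trace_smul, Matrix.trace_smul, hst p hp,
        hT.orth p (pos_mem hp) q (pos_mem hq) hpq, smul_zero, smul_zero, add_zero, smul_zero]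
    · intro h
      exact absurd hq h
  · intro h
    have h2 : ∑ p ∈ pos Φ, (dz p.1 x * Complex.I) • (z p • E p + conj (z p) • (E p)ᴴ) = 0 := by
      refine Finset.sum_eq_zero fun p hp => ?_
      rcases mul_eq_zero.1 (h p hp) with h3 | h3
      · rw [h3, map_zero, zero_smul, zero_smul, add_zero, smul_zero]
      · rw [h3, zero_mul, zero_smul]
    rw [h2] at h1
    exact (sub_eq_zero.1 h1).symm

/-- an element of the tangent space which commutes with the regular element is in `A` -/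
theorem reg (hT : TAF H Φ Hc E) (hw : WFF Φ B) (hs : SR H A Φ B Hc E x₀) (hM : MaxAbP H τ A)
    (X : Matrix (Fin N) (Fin N) ℂ) (hX : X ∈ lie H) (hτ : τ X = -X)
    (hc : X * hx Hc x₀ = hx Hc x₀ * X) : X ∈ A := by
  refine hM.max X hX hτ fun Y hY => ?_
  obtain ⟨x, rfl⟩ := hs.sub Y hY
  obtain ⟨a, z, haz⟩ := hs.lrd.span X hX
  change X = hx Hc a + _ at haz
  rw [haz] at hc ⊢
  rw [coef hT hw hs.lrd] at hc ⊢
  intro p hp
  rcases mul_eq_zero.1 (hc p hp) with h | h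
  · rw [h, zero_mul]
  · have h1 : dz p.1 x₀ = 0 := by exact_mod_cast h
    rw [hs.x0r p (pos_mem hp) h1 x hY, Complex.ofReal_zero, mul_zero]

theorem dz_sum {r : ℕ} (J : Finset (Fin r)) (κ : Fin l → ℤ) (y : Fin r → Fin l → ℝ) :
    dz κ (fun i => ∑ j ∈ J, y j i) = ∑ j ∈ J, dz κ (y j) := by
  simp only [dz]
  rw [Finset.sum_comm]
  exact Finset.sum_congr rfl fun i _ => Finset.mul_sum _ _ _

theorem hx_sum {r : ℕ} (J : Finset (Fin r)) (y : Fin r → Fin l → ℝ) :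
    hx Hc (fun i => ∑ j ∈ J, y j i) = ∑ j ∈ J, hx Hc (y j) := by
  simp only [hx]
  rw [Finset.sum_comm]
  refine Finset.sum_congr rfl fun i _ => ?_
  rw [← Finset.sum_smul]
  congr 1
  push_cast
  rw [Finset.sum_mul]

/-- conjugation by a unitary matrix and the exponential -/
theorem exp_cj (u : SU N) (X : Matrix (Fin N) (Fin N) ℂ) :
    NormedSpace.exp (u.1 * X * u.1ᴴ) = u.1 * NormedSpace.exp X * u.1ᴴ := by
  have h1 : u.1 * u.1ᴴ = 1 := by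
    have h : (u * u⁻¹).1 = 1 := by rw [mul_inv_cancel]; rfl
    exact h
  have h2 : (u.1)⁻¹ = u.1ᴴ := Matrix.inv_eq_right_inv h1
  have h3 : IsUnit u.1 := by
    have h4 : u.1ᴴ * u.1 = 1 := by
      have h : (u⁻¹ * u).1 = 1 := by rw [inv_mul_cancel]; rfl
      exact h
    exact ⟨⟨u.1, u.1ᴴ, h1, h4⟩, rfl⟩
  rw [← h2]
  exact Matrix.exp_conj u.1 X h3

theorem ux (u : SU N) : u.1 * u.1ᴴ = 1 := by
  have h : (u * u⁻¹).1 = 1 := by rw [mul_inv_cancel]; rfl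
  exact h

theorem xu (u : SU N) : u.1ᴴ * u.1 = 1 := by
  have h : (u⁻¹ * u).1 = 1 := by rw [inv_mul_cancel]; rfl
  exact h

/-- elements of `K` act on the tangent space -/
theorem tad (hl : LIF H) (hF : TSF H σ τ) (hS : SymP H K σ τ) (k : SU N) (hk : k ∈ K)
    (X : Matrix (Fin N) (Fin N) ℂ) (hX : X ∈ lie H) (hτ : τ X = -X) :
    k.1 * X * k.1ᴴ ∈ lie H ∧ τ (k.1 * X * k.1ᴴ) = -(k.1 * X * k.1ᴴ) := by
  refine ⟨hl.ad k (hS.sub hk) X hX, ?_⟩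
  have h := hF.Ad ⟨k, hS.sub hk⟩ X hX
  rw [hS.fix ⟨k, hS.sub hk⟩ hk, hτ] at h
  change τ (k.1 * X * k.1ᴴ) = k.1 * (-X) * k.1ᴴ at h
  rw [h, Matrix.mul_neg, Matrix.neg_mul]

/-- the coefficients of an element which commutes with `∑ j ∈ J, (-i) δ j` -/
theorem levi (hT : TAF H Φ Hc E) (hw : WFF Φ B) (hL : LRD H Φ B Hc E) {r : ℕ}
    (J : Finset (Fin r)) (y : Fin r → Fin l → ℝ)
    (hneg : ∀ p ∈ pos Φ, ∀ j, dz p.1 (y j) ≤ 0)
    (X : Matrix (Fin N) (Fin N) ℂ) (hX : X ∈ lie H)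
    (hc : X * hx Hc (fun i => ∑ j ∈ J, y j i) = hx Hc (fun i => ∑ j ∈ J, y j i) * X) :
    ∀ j ∈ J, X * hx Hc (y j) = hx Hc (y j) * X := by
  intro j hj
  obtain ⟨a, z, haz⟩ := hL.span X hX
  change X = hx Hc a + _ at haz
  rw [haz] at hc ⊢
  rw [coef hT hw hL] at hc ⊢
  intro p hp
  rcases mul_eq_zero.1 (hc p hp) with h | h
  · rw [h, zero_mul]
  · have h1 : dz p.1 (fun i => ∑ j ∈ J, y j i) = 0 := by exact_mod_cast h
    rw [dz_sum] at h1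
    have h2 : ∑ j ∈ J, -dz p.1 (y j) = 0 := by
      rw [Finset.sum_neg_distrib, h1, neg_zero]
    have h3 := (Finset.sum_eq_zero_iff_of_nonneg (s := J) (f := fun j => -dz p.1 (y j))
      (fun i _ => neg_nonneg.2 (hneg p hp i))).1 h2 j hj
    have h4 : dz p.1 (y j) = 0 := neg_eq_zero.1 h3
    rw [h4, Complex.ofReal_zero, mul_zero]

end LEVC

open LEVC

theorem t_LEVC : M_LEVC := by
  intro hLIEB hWFAC hTAUF hTAUS hSNIL hLEMK hCONQ N H K σ τ A l Φ B Hc E x₀ θ r s ε hD J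
  have hl : LIF H := hLIEB N H hD.closed
  have hL : LRD H Φ B Hc E := hD.sr.lrd
  have hw : WFF Φ B := hWFAC l Φ B hL.ird
  have hT : TAF H Φ Hc E := hTAUF N H l Φ B Hc E hD.closed hL
  have hF : TSF H σ τ := hTAUS N H K σ τ hD.closed hD.simple hD.sym
  have hN := hSNIL N H K σ τ A l Φ B Hc E x₀ θ r s ε hD
  have hK := hLEMK N H K σ τ hD.closed hD.simple hD.sym
  have hC := hCONQ N H K σ τ A l Φ B Hc E x₀ θ r s ε hD
  obtain ⟨δ, hδ⟩ : ∃ δ : Fin r → Matrix (Fin N) (Fin N) ℂ, δ = fun j => db E (pe Φ (ε j)) :=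
    ⟨_, rfl⟩
  have hδj : ∀ j, db E (pe Φ (ε j)) = δ j := fun j => by rw [hδ]
  simp only [hδj] at hN ⊢
  have hy : ∀ j, ∃ y : Fin l → ℝ, (-Complex.I) • δ j = hx Hc y := fun j =>
    hD.sr.sub _ (hN j).1.dA
  choose y hy using hy
  have hyA : ∀ j, hx Hc (y j) ∈ A := fun j => by
    rw [← hy j]
    exact (hN j).1.dA
  have hδy : ∀ j, δ j = Complex.I • hx Hc (y j) := by
    intro j
    rw [← hy j, smul_smul, mul_neg, Complex.I_mul_I, neg_neg, one_smul]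
  -- commuting with `δ j` and with `hx (y j)`
  have hcm : ∀ (j : Fin r) (X : Matrix (Fin N) (Fin N) ℂ), X * δ j = δ j * X ↔
      X * hx Hc (y j) = hx Hc (y j) * X := by
    intro j X
    constructor
    · intro h
      rw [← hy j, mul_smul_comm, h, smul_mul_assoc]
    · intro h
      rw [hδy j, mul_smul_comm, h, smul_mul_assoc]
  have hneg : ∀ p ∈ pos Φ, ∀ j, dz p.1 (y j) ≤ 0 := by
    intro p hp j
    obtain ⟨c, hc, h⟩ := (hN j).2 p (pos_mem hp)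
    have h1 := hT.ade p (pos_mem hp) (y j)
    rw [← hy j, smul_mul_assoc, mul_smul_comm, ← smul_sub, h, smul_smul] at h1
    have hE : E p ≠ 0 := by
      intro h0
      have := (hT.pos p (pos_mem hp)).1
      rw [h0, Matrix.zero_mul, Matrix.trace_zero] at this
      simp at this
    have h2 := smul_left_injective ℂ hE h1
    have h3 : (((c * ((p.2 ⬝ᵥ ε j : ℤ) : ℝ) : ℝ) : ℂ)) = -(dz p.1 (y j) : ℂ) := by
      have h4 : -Complex.I * ((c * ((p.2 ⬝ᵥ ε j : ℤ) : ℝ) : ℝ) : ℂ) =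
          (dz p.1 (y j) : ℂ) * Complex.I := h2
      have h5 : -Complex.I * (((c * ((p.2 ⬝ᵥ ε j : ℤ) : ℝ) : ℝ) : ℂ) + (dz p.1 (y j) : ℂ)) = 0 := by
        rw [mul_add, h4]
        ring
      rcases mul_eq_zero.1 h5 with h6 | h6
      · exact absurd (neg_eq_zero.1 h6) Complex.I_ne_zero
      · exact eq_neg_of_add_eq_zero_left h6
    have h4 : c * ((p.2 ⬝ᵥ ε j : ℤ) : ℝ) = -dz p.1 (y j) := by exact_mod_cast h3
    have h5 : (0 : ℝ) ≤ ((p.2 ⬝ᵥ ε j : ℤ) : ℝ) := by exact_mod_cast hD.so.nn p hp j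
    have h6 : 0 ≤ c * ((p.2 ⬝ᵥ ε j : ℤ) : ℝ) := mul_nonneg hc.le h5
    linarith
  have hx0 : hx Hc x₀ ∈ A := hD.sr.x0A
  have hx0l : hx Hc x₀ ∈ lie H := hD.maxab.sub _ hx0
  have hx0t : τ (hx Hc x₀) = -hx Hc x₀ := hD.maxab.anti _ hx0
  have hreg := reg hT hw hD.sr hD.maxab
  -- the adjoint of an element commuting with `δ j`
  have hinv : ∀ (q : SU N) (M : Matrix (Fin N) (Fin N) ℂ), q.1 * M = M * q.1 →
      (q⁻¹).1 * M = M * (q⁻¹).1 := by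
    intro q M h
    change q.1ᴴ * M = M * q.1ᴴ
    calc q.1ᴴ * M = q.1ᴴ * M * (q.1 * q.1ᴴ) := by rw [ux, Matrix.mul_one]
      _ = q.1ᴴ * (M * q.1) * q.1ᴴ := by simp only [Matrix.mul_assoc]
      _ = q.1ᴴ * (q.1 * M) * q.1ᴴ := by rw [h]
      _ = (q.1ᴴ * q.1) * M * q.1ᴴ := by simp only [Matrix.mul_assoc]
      _ = M * q.1ᴴ := by rw [xu, Matrix.one_mul]
  have hinvH : ∀ q : SU N, (q⁻¹).1ᴴ = q.1 := by
    intro q
    change q.1ᴴᴴ = q.1
    rw [Matrix.conjTranspose_conjTranspose]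
  refine ⟨?_, ?_⟩
  · intro g hg
    obtain ⟨k₁, hk₁, x₁, hx₁, hyg⟩ := hC g
    obtain ⟨Y, hY⟩ : ∃ Y, Y = yy σ g := ⟨_, rfl⟩
    rw [← hY] at hg hyg ⊢
    obtain ⟨D, hDd⟩ : ∃ D, D = hx Hc (fun i => ∑ j ∈ J, y j i) := ⟨_, rfl⟩
    have hDA : D ∈ A := by
      rw [hDd, hx_sum]
      exact Submodule.sum_mem _ fun j _ => hyA j
    have hDY : D * Y = Y * D := by
      rw [hDd, hx_sum, Finset.sum_mul, Finset.mul_sum]
      exact Finset.sum_congr rfl fun j hj => ((hcm j Y).1 (hg j hj)).symm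
    have hx0x1 : hx Hc x₀ * NormedSpace.exp (hx Hc x₁) =
        NormedSpace.exp (hx Hc x₁) * hx Hc x₀ := by
      have h : Commute (hx Hc x₁) (hx Hc x₀) := hxc hL _ _
      exact (h.exp_left).symm.eq
    obtain ⟨hY0l, hY0t⟩ := tad hl hF hD.sym k₁ hk₁ _ hx0l hx0t
    obtain ⟨c, hcK, hcY, hcc⟩ := hK {Y} D (k₁.1 * hx Hc x₀ * k₁.1ᴴ) (hD.maxab.sub _ hDA)
      (hD.maxab.anti _ hDA) hY0l hY0t (by
        intro s hs
        rw [Set.mem_singleton_iff] at hs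
        subst hs
        refine ⟨hDY, ?_⟩
        rw [hyg]
        have e1 := xu k₁
        calc k₁.1 * hx Hc x₀ * k₁.1ᴴ * (k₁.1 * NormedSpace.exp (hx Hc x₁) * k₁.1ᴴ)
            = k₁.1 * hx Hc x₀ * (k₁.1ᴴ * k₁.1) * NormedSpace.exp (hx Hc x₁) * k₁.1ᴴ := by
              simp only [Matrix.mul_assoc]
          _ = k₁.1 * (hx Hc x₀ * NormedSpace.exp (hx Hc x₁)) * k₁.1ᴴ := by
              rw [e1]
              simp only [Matrix.mul_assoc, Matrix.one_mul]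
          _ = k₁.1 * (NormedSpace.exp (hx Hc x₁) * hx Hc x₀) * k₁.1ᴴ := by rw [hx0x1]
          _ = k₁.1 * NormedSpace.exp (hx Hc x₁) * (k₁.1ᴴ * k₁.1) * hx Hc x₀ * k₁.1ᴴ := by
              rw [e1]
              simp only [Matrix.mul_assoc, Matrix.one_mul]
          _ = k₁.1 * NormedSpace.exp (hx Hc x₁) * k₁.1ᴴ * (k₁.1 * hx Hc x₀ * k₁.1ᴴ) := by
              simp only [Matrix.mul_assoc])
    have hcY : c.1 * Y = Y * c.1 := hcY Y rfl
    obtain ⟨m, hm⟩ : ∃ m : SU N, m = k₁⁻¹ * c := ⟨_, rfl⟩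
    have hm1 : m.1 = k₁.1ᴴ * c.1 := by rw [hm]; rfl
    have hmK : m ∈ K := by
      rw [hm]
      exact K.mul_mem (K.inv_mem hk₁) hcK
    have hm2 : m.1ᴴ = c.1ᴴ * k₁.1 := by
      rw [hm1, Matrix.conjTranspose_mul, Matrix.conjTranspose_conjTranspose]
    -- `m D mᴴ` commutes with `hx x₀`
    have hM0 : (m.1 * D * m.1ᴴ) * hx Hc x₀ = hx Hc x₀ * (m.1 * D * m.1ᴴ) := by
      have e1 := xu k₁
      calc (m.1 * D * m.1ᴴ) * hx Hc x₀
          = k₁.1ᴴ * (c.1 * D * c.1ᴴ) * (k₁.1 * hx Hc x₀ * (k₁.1ᴴ * k₁.1)) := by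
            rw [e1, hm2, hm1, Matrix.mul_one]
            simp only [Matrix.mul_assoc]
        _ = k₁.1ᴴ * ((c.1 * D * c.1ᴴ) * (k₁.1 * hx Hc x₀ * k₁.1ᴴ)) * k₁.1 := by
            simp only [Matrix.mul_assoc]
        _ = k₁.1ᴴ * ((k₁.1 * hx Hc x₀ * k₁.1ᴴ) * (c.1 * D * c.1ᴴ)) * k₁.1 := by rw [hcc]
        _ = (k₁.1ᴴ * k₁.1) * hx Hc x₀ * (k₁.1ᴴ * c.1 * D * (c.1ᴴ * k₁.1)) := by
            simp only [Matrix.mul_assoc]
        _ = hx Hc x₀ * (m.1 * D * m.1ᴴ) := by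
            rw [e1, Matrix.one_mul, ← hm1, ← hm2]
    obtain ⟨H1, hH1⟩ : ∃ H1, H1 = (m⁻¹).1 * hx Hc x₀ * (m⁻¹).1ᴴ := ⟨_, rfl⟩
    have hH1' : H1 = m.1ᴴ * hx Hc x₀ * m.1 := by
      rw [hH1, hinvH]
      rfl
    obtain ⟨hH1l, hH1t⟩ := tad hl hF hD.sym m⁻¹ (K.inv_mem hmK) _ hx0l hx0t
    rw [← hH1] at hH1l hH1t
    have hH1D : H1 * D = D * H1 := by
      rw [hH1']
      have e1 := xu m
      calc m.1ᴴ * hx Hc x₀ * m.1 * D = m.1ᴴ * hx Hc x₀ * m.1 * D * (m.1ᴴ * m.1) := by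
            rw [e1, Matrix.mul_one]
        _ = m.1ᴴ * (hx Hc x₀ * (m.1 * D * m.1ᴴ)) * m.1 := by simp only [Matrix.mul_assoc]
        _ = m.1ᴴ * ((m.1 * D * m.1ᴴ) * hx Hc x₀) * m.1 := by rw [hM0]
        _ = (m.1ᴴ * m.1) * D * (m.1ᴴ * hx Hc x₀ * m.1) := by simp only [Matrix.mul_assoc]
        _ = D * (m.1ᴴ * hx Hc x₀ * m.1) := by rw [e1, Matrix.one_mul]
    have hH1δ : ∀ j ∈ J, H1 * δ j = δ j * H1 := by
      intro j hj
      rw [hcm]
      rw [hDd] at hH1D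
      exact levi hT hw hL J y hneg H1 hH1l hH1D j hj
    obtain ⟨q, hqK, hqδ, hqc⟩ := hK {M | ∃ j ∈ J, M = δ j} H1 (hx Hc x₀) hH1l hH1t hx0l hx0t (by
      rintro M ⟨j, hj, rfl⟩
      refine ⟨hH1δ j hj, ?_⟩
      rw [hcm]
      exact hxc hL _ _)
    have hqδ : ∀ j ∈ J, q.1 * δ j = δ j * q.1 := fun j hj => hqδ _ ⟨j, hj, rfl⟩
    obtain ⟨u, hu⟩ : ∃ u : SU N, u = q * m⁻¹ := ⟨_, rfl⟩
    have hu1 : u.1 = q.1 * m.1ᴴ := by rw [hu]; rfl
    have hu2 : u.1ᴴ = m.1 * q.1ᴴ := by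
      rw [hu1, Matrix.conjTranspose_mul, Matrix.conjTranspose_conjTranspose]
    have huK : u ∈ K := by
      rw [hu]
      exact K.mul_mem hqK (K.inv_mem hmK)
    obtain ⟨hH2l, hH2t⟩ := tad hl hF hD.sym u huK _ hx0l hx0t
    have hH2 : u.1 * hx Hc x₀ * u.1ᴴ = q.1 * H1 * q.1ᴴ := by
      rw [hu2, hu1, hH1']
      simp only [Matrix.mul_assoc]
    have hH2A : u.1 * hx Hc x₀ * u.1ᴴ ∈ A := hreg _ hH2l hH2t (by rw [hH2]; exact hqc)
    -- `uᴴ A u ⊆ A`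
    have huA : ∀ a ∈ A, u.1ᴴ * a * u.1 ∈ A := by
      intro a ha
      obtain ⟨h1, h2⟩ := tad hl hF hD.sym u⁻¹ (K.inv_mem huK) _ (hD.maxab.sub _ ha)
        (hD.maxab.anti _ ha)
      rw [hinvH] at h1 h2
      change u.1ᴴ * a * u.1 ∈ lie H at h1
      change τ (u.1ᴴ * a * u.1) = -(u.1ᴴ * a * u.1) at h2
      refine hreg _ h1 h2 ?_
      have e1 := xu u
      have e2 := hD.maxab.comm _ ha _ hH2A
      calc u.1ᴴ * a * u.1 * hx Hc x₀ = u.1ᴴ * a * u.1 * hx Hc x₀ * (u.1ᴴ * u.1) := by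
            rw [e1, Matrix.mul_one]
        _ = u.1ᴴ * (a * (u.1 * hx Hc x₀ * u.1ᴴ)) * u.1 := by simp only [Matrix.mul_assoc]
        _ = u.1ᴴ * ((u.1 * hx Hc x₀ * u.1ᴴ) * a) * u.1 := by rw [e2]
        _ = (u.1ᴴ * u.1) * hx Hc x₀ * (u.1ᴴ * a * u.1) := by simp only [Matrix.mul_assoc]
        _ = hx Hc x₀ * (u.1ᴴ * a * u.1) := by rw [e1, Matrix.one_mul]
    -- `u A uᴴ ⊆ A`
    have huA' : ∀ X ∈ A, u.1 * X * u.1ᴴ ∈ A := by
      intro X hX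
      obtain ⟨h1, h2⟩ := tad hl hF hD.sym u huK _ (hD.maxab.sub _ hX) (hD.maxab.anti _ hX)
      refine hD.maxab.max _ h1 h2 fun a ha => ?_
      have e1 := ux u
      have e2 := hD.maxab.comm _ hX _ (huA a ha)
      calc u.1 * X * u.1ᴴ * a = u.1 * X * u.1ᴴ * a * (u.1 * u.1ᴴ) := by
            rw [e1, Matrix.mul_one]
        _ = u.1 * (X * (u.1ᴴ * a * u.1)) * u.1ᴴ := by simp only [Matrix.mul_assoc]
        _ = u.1 * ((u.1ᴴ * a * u.1) * X) * u.1ᴴ := by rw [e2]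
        _ = (u.1 * u.1ᴴ) * a * (u.1 * X * u.1ᴴ) := by simp only [Matrix.mul_assoc]
        _ = a * (u.1 * X * u.1ᴴ) := by rw [e1, Matrix.one_mul]
    obtain ⟨x, hx'⟩ := hD.sr.sub _ (huA' _ hx₁)
    refine ⟨q⁻¹, K.inv_mem hqK, fun j hj => hinv q _ (hqδ j hj), x, ?_, ?_⟩
    · rw [← hx']
      exact huA' _ hx₁
    · rw [hinvH, ← hx', exp_cj u]
      change q.1 * Y * q.1ᴴ = _
      have e1 : Y = c.1ᴴ * Y * c.1 := by
        rw [Matrix.mul_assoc, ← hcY, ← Matrix.mul_assoc, xu, Matrix.one_mul]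
      have e2 : c.1ᴴ * Y * c.1 = m.1ᴴ * NormedSpace.exp (hx Hc x₁) * m.1 := by
        rw [hyg, hm2, hm1]
        simp only [Matrix.mul_assoc]
      rw [e1, e2, hu2, hu1]
      simp only [Matrix.mul_assoc]
  · intro X hX hτ hc
    obtain ⟨q, hqK, hqδ, hqc⟩ := hK {M | ∃ j ∈ J, M = δ j} X (hx Hc x₀) hX hτ hx0l hx0t (by
      rintro M ⟨j, hj, rfl⟩
      refine ⟨hc j hj, ?_⟩
      rw [hcm]
      exact hxc hL _ _)
    obtain ⟨h1, h2⟩ := tad hl hF hD.sym q hqK _ hX hτ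
    refine ⟨q⁻¹, K.inv_mem hqK, fun j hj => hinv q _ (hqδ _ ⟨j, hj, rfl⟩), ?_⟩
    rw [hinvH]
    exact hreg _ h1 h2 hqc

end

end SYM
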