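import Pool.Agent.SYM.StZ
import Pool.Agent.STZ.LOCY

/-!
# Symmetric spaces: the estimate for bounded frequencies
-/

namespace SYM

open STZ LGR MeasureTheory Matrix Filter

open scoped ComplexConjugate Matrix Real Topology

noncomputable section

namespace LOCS

section pre

variable {M Y : Type} [TopologicalSpace M] [MeasurableSpace M] [TopologicalSpace Y]
  [MeasurableSpace Y] {r n q : ℕ} {S : SPB M Y r n q} {L : Set (Fin r → ℕ)}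
  {KM : L → M → M → ℂ} {μ : Measure M} {ν : Measure Y}

theorem F_le (hS : SPD S L KM μ ν) (j : Fin r) (z : M × M × Y) : ‖S.F j z‖ ≤ 1 := by
  have h1 := hS.F j z
  have h2 : Real.exp (-S.ψ j z) ≤ 1 := Real.exp_le_one_iff.2 (by linarith [hS.ψ j z])
  have h3 : ‖S.F j z‖ ^ 2 ≤ 1 := h1.trans h2
  have := norm_nonneg (S.F j z)
  nlinarith

/-- the bound for the dimensions -/
theorem dd_le (hS : SPD S L KM μ ν) {N : ℕ} (hN : 1 ≤ N) (x : Fin r → ℤ)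
    (h0 : ∀ j, 0 ≤ x j) (hx : ∀ j, x j ≤ N) :
    |S.dd x| ≤ (S.D₀ * ∏ p, (S.a₀ p + ∑ j, S.α p j)) * (N : ℝ) ^ n := by
  have hN' : (1 : ℝ) ≤ N := by exact_mod_cast hN
  have h1 : ∀ p : Fin n, 0 ≤ S.a₀ p + ∑ j, S.α p j * (x j : ℝ) := fun p =>
    add_nonneg (hS.a₀ p).le (Finset.sum_nonneg fun j _ =>
      mul_nonneg (hS.α p j) (by exact_mod_cast h0 j))
  have h2 : ∀ p : Fin n, S.a₀ p + ∑ j, S.α p j * (x j : ℝ) ≤ (S.a₀ p + ∑ j, S.α p j) * N := by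
    intro p
    rw [add_mul, Finset.sum_mul]
    refine add_le_add ?_ (Finset.sum_le_sum fun j _ => ?_)
    · exact le_mul_of_one_le_right (hS.a₀ p).le hN'
    · exact mul_le_mul_of_nonneg_left (by exact_mod_cast hx j) (hS.α p j)
  have h3 : 0 ≤ ∏ p, (S.a₀ p + ∑ j, S.α p j * (x j : ℝ)) := Finset.prod_nonneg fun p _ => h1 p
  unfold SPB.dd
  rw [abs_of_nonneg (mul_nonneg hS.D₀.le h3), mul_assoc]
  refine mul_le_mul_of_nonneg_left ?_ hS.D₀.le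
  refine (Finset.prod_le_prod (fun p _ => h1 p) fun p _ => h2 p).trans (le_of_eq ?_)
  rw [Finset.prod_mul_distrib, Finset.prod_const, Finset.card_univ, Fintype.card_fin]

theorem cls_mem (hS : SPD S L KM μ ν) (i : L) :
    ∃ (s : Fin q) (x : Fin r → ℕ), ∀ j, i.1 j = S.a s j + S.β j * x j := by
  have h1 := (hS.cls i.1).1 i.2
  have h2 : ∃ s : Fin q, ∀ j, S.a s j ≤ i.1 j ∧ S.β j ∣ i.1 j - S.a s j := by
    by_contra hc
    push Not at hc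
    have h3 : ∑ s, (if ∀ j, S.a s j ≤ i.1 j ∧ S.β j ∣ i.1 j - S.a s j then S.c s else 0) = 0 := by
      refine Finset.sum_eq_zero fun s _ => if_neg ?_
      intro hh
      obtain ⟨j, hj⟩ := hc s
      exact hj (hh j).1 (hh j).2
    rw [h1] at h3
    exact one_ne_zero h3
  obtain ⟨s, hs⟩ := h2
  choose y hy using fun j => (hs j).2
  refine ⟨s, y, fun j => ?_⟩
  have h3 := (hs j).1
  have h4 := hy j
  omega

end pre

section pre2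

variable {M Y : Type} [TopologicalSpace M] [CompactSpace M] [MeasurableSpace M]
  [TopologicalSpace Y] [CompactSpace Y]
  [MeasurableSpace Y] {r n q : ℕ} {S : SPB M Y r n q} {L : Set (Fin r → ℕ)}
  {KM : L → M → M → ℂ} {μ : Measure M} {ν : Measure Y}

/-- the bound for the kernels on the diagonal -/
theorem diag [IsProbabilityMeasure ν] (hS : SPD S L KM μ ν) : ∃ C : ℝ, 0 ≤ C ∧
    ∀ (i : L) (N : ℕ), (∀ j, i.1 j < N) → 1 ≤ N → ∀ g, ‖KM i g g‖ ≤ C * (N : ℝ) ^ n := by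
  have hb : ∀ s : Fin q, ∃ B : ℝ, 0 ≤ B ∧ ∀ z, ‖S.f s z‖ ≤ B := by
    intro s
    obtain ⟨B, hB⟩ := isCompact_univ.exists_bound_of_continuousOn (hS.cf s).continuousOn
    exact ⟨max B 0, le_max_right _ _, fun z => (hB z (Set.mem_univ z)).trans (le_max_left _ _)⟩
  choose B hB0 hB using hb
  set A : ℝ := S.D₀ * ∏ p, (S.a₀ p + ∑ j, S.α p j) with hA
  have hA0 : 0 ≤ A := mul_nonneg hS.D₀.le (Finset.prod_nonneg fun p _ =>
    add_nonneg (hS.a₀ p).le (Finset.sum_nonneg fun j _ => hS.α p j))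
  refine ⟨A * ∑ s, B s, mul_nonneg hA0 (Finset.sum_nonneg fun s _ => hB0 s), ?_⟩
  intro i N hi hN g
  obtain ⟨s, x, hx⟩ := cls_mem hS i
  obtain ⟨i', hi', hi2⟩ := hS.int s x
  have hii : i' = i := by
    apply Subtype.ext
    funext j
    rw [hi' j, hx j]
  subst hii
  rw [hi2 g g, norm_mul, Complex.norm_real, Real.norm_eq_abs]
  have h1 := dd_le hS hN (fun j => (i'.1 j : ℤ)) (fun j => Int.natCast_nonneg _)
    (fun j => by exact_mod_cast (hi j).le)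
  have h2 : ‖∫ k, S.f s (g, g, k) * ∏ j, S.F j (g, g, k) ^ x j ∂ν‖ ≤ ∑ s, B s := by
    have h3 : ∀ k, ‖S.f s (g, g, k) * ∏ j, S.F j (g, g, k) ^ x j‖ ≤ ∑ s, B s := by
      intro k
      rw [norm_mul, norm_prod]
      have h4 : ∏ j, ‖S.F j (g, g, k) ^ x j‖ ≤ 1 := by
        refine Finset.prod_le_one (fun _ _ => norm_nonneg _) fun j _ => ?_
        rw [norm_pow]
        exact pow_le_one₀ (norm_nonneg _) (F_le hS j _)
      have h5 : B s ≤ ∑ s, B s := Finset.single_le_sum (fun s _ => hB0 s) (Finset.mem_univ s)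
      have h6 := hB s (g, g, k)
      calc ‖S.f s (g, g, k)‖ * ∏ j, ‖S.F j (g, g, k) ^ x j‖ ≤ ‖S.f s (g, g, k)‖ * 1 :=
            mul_le_mul_of_nonneg_left h4 (norm_nonneg _)
        _ ≤ _ := by linarith
    have h7 := norm_integral_le_of_norm_le_const (μ := ν) (Filter.Eventually.of_forall h3)
    simpa using h7
  refine (mul_le_mul h1 h2 (norm_nonneg _) (by positivity)).trans (le_of_eq ?_)
  rw [← hA]
  ring

end pre2


/-! ### the constants -/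

section consts

variable {M Y : Type} [TopologicalSpace M] [MeasurableSpace Y] {r n q : ℕ} {S : SPB M Y r n q} {L : Set (Fin r → ℕ)}
  {KM : L → M → M → ℂ} {ν : Measure Y}

theorem ksf_mono (hW : WWF) {C C' : ℝ} {c K₀ : ℕ} {ε : ℝ} {J : ℕ} (hCC : C ≤ C')
    (h : KSF S L KM ν C c K₀ ε J) : KSF S L KM ν C' c K₀ ε J where
  cont := h.cont
  sum := h.sum
  exp := h.exp
  mcont := h.mcont
  mper := h.mper
  sup i hi t g g' := by
    refine (h.sup i hi t g g').trans (mul_le_mul_of_nonneg_right hCC ?_)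
    have := LOCY.ww_nn hW (2 ^ J) c t
    positivity
  mul i hi b t := by
    refine (h.mul i hi b t).trans (mul_le_mul_of_nonneg_right hCC ?_)
    have := LOCY.ww_nn hW (2 ^ i) c t
    positivity
  fou i hi b χ E₁ E₂ h1 h2 h3 h4 h5 j := by
    refine (h.fou i hi b χ E₁ E₂ h1 h2 h3 h4 h5 j).trans (mul_le_mul_of_nonneg_right hCC ?_)
    positivity

theorem nice_A (hW : WWF) (R c n r : ℕ) (C y : ℝ) (hC : 0 ≤ C) (hy : 0 ≤ y) :
    Nice fun t => C * ((R : ℝ) ^ n * WW R c t ^ ((r : ℝ) / 2) * y) :=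
  LOCY.nice_A hW R c n r C y hC hy

theorem nice_E (hW : WWF) (R c r : ℕ) (C y : ℝ) (hC : 0 ≤ C) (hy : 0 ≤ y) :
    Nice fun t => C * (y * WW R c t ^ ((r : ℝ) / 2)) where
  cont := by
    refine continuous_const.mul (continuous_const.mul ?_)
    exact (hW.cont R c).rpow_const fun t => Or.inr (by positivity)
  nn t := by
    have := LOCY.ww_nn hW R c t
    positivity
  per t := by
    show C * (y * WW R c (t + 1) ^ ((r : ℝ) / 2)) = _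
    rw [hW.per]
  even t := by
    show C * (y * WW R c (-t) ^ ((r : ℝ) / 2)) = _
    rw [hW.even]

end consts

/-! ### the estimate of the quadratic form -/

section form

variable {M Y : Type} [TopologicalSpace M] [CompactSpace M] [T2Space M]
  [SecondCountableTopology M] [MeasurableSpace M] [BorelSpace M] [MeasurableSpace Y]
  {r n q : ℕ} {S : SPB M Y r n q} {L : Set (Fin r → ℕ)}
  {KM : L → M → M → ℂ}

/-- the terms with the major arcs -/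
theorem first (hW : WWF) (hKOP : S_KOP) (hKIA : S_KIA) (μ : Measure M) [IsProbabilityMeasure μ]
    (ν : Measure Y) (hker : Ker μ KM) {p C : ℝ} (hp : 2 < p) (hC : 0 ≤ C) {c K₀ : ℕ} {ε : ℝ}
    {J : ℕ} (h : KSF S L KM ν C c K₀ ε J) {i : ℕ} (hi : i ≤ J / 2) {χ : ℝ → ℝ} (hχ : TC χ) {Γ : ℝ}
    (hΓ : ∫ t in (0 : ℝ)..1, χ t *
          ((C * (((2 ^ J : ℕ) : ℝ) ^ n * WW (2 ^ J) c t ^ ((r : ℝ) / 2) *
              (((2 ^ i : ℕ) : ℝ) / ((2 ^ J : ℕ) : ℝ) ^ (1 / 2 : ℝ)) ^ r)) ^ (p / 2 - 1) *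
            (C * (((2 ^ i : ℕ) : ℝ) ^ (-(r : ℝ)) * WW (2 ^ i) c t ^ ((r : ℝ) / 2)))) ≤ Γ)
    (G : ℝ → M → ℂ) (hG : JC G) (hG1 : ∀ t x, ‖G t x‖ ≤ 1) :
    ‖JJ μ (fun t x y => (χ t : ℂ) * S.kw ν J i t x y) G‖ ≤
      Γ ^ (2 / p) * (∫ t in (0 : ℝ)..1, ∫ x, ‖G t x‖ ∂μ) ^ (2 - 2 / p) := by
  refine hKIA M μ p hp (fun t x y => S.kw ν J i t x y) χ
    (fun t => C * (((2 ^ J : ℕ) : ℝ) ^ n * WW (2 ^ J) c t ^ ((r : ℝ) / 2) *
              (((2 ^ i : ℕ) : ℝ) / ((2 ^ J : ℕ) : ℝ) ^ (1 / 2 : ℝ)) ^ r))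
    (fun t => C * (((2 ^ i : ℕ) : ℝ) ^ (-(r : ℝ)) * WW (2 ^ i) c t ^ ((r : ℝ) / 2))) Γ hχ
    (h.cont i hi) (nice_A hW _ _ _ _ _ _ hC (by positivity))
    (nice_E hW _ _ _ _ _ hC (by positivity)) (fun t x y => h.sup i hi t x y) ?_ hΓ G hG hG1
  intro t u v hu hv
  have h0 : 0 ≤ C * (((2 ^ i : ℕ) : ℝ) ^ (-(r : ℝ)) * WW (2 ^ i) c t ^ ((r : ℝ) / 2)) := by
    have := LOCY.ww_nn hW (2 ^ i) c t
    positivity
  have h1 := hKOP M μ L KM hker (TS L (K₀ * 2 ^ J)) (fun b => S.mw L J i b.1 t) _ h0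
    (fun b _ => h.mul i hi b.1 t) u v hu hv
  simp only [← h.exp i hi t] at h1
  exact h1

/-- the terms with the other arcs -/
theorem second (hW : WWF) (hKIB : S_KIB) (μ : Measure M) [IsProbabilityMeasure μ]
    (ν : Measure Y) (hker : Ker μ KM) {p C : ℝ} (hp : 2 < p) (hC : 0 ≤ C) {c K₀ : ℕ} {ε : ℝ}
    {J : ℕ} (h : KSF S L KM ν C c K₀ ε J) {i : ℕ} (hi : i ≤ J / 2) {χ : ℝ → ℝ} (hχ : TC χ) {P : ℝ}
    (hP : 0 < P) (hχ1 : ∀ t, χ t ≠ 0 → WW (2 ^ J) c t ≤ C * ((2 ^ J : ℕ) : ℝ) ^ ε / P)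
    (hχ2 : ∀ j : ℤ, j ≠ 0 → ‖∫ t in (0 : ℝ)..1, (χ t : ℂ) * eu (-(j * t))‖ ≤
      C * ((2 ^ J : ℕ) : ℝ) ^ ε * P)
    (hχ3 : ‖∫ t in (0 : ℝ)..1, (χ t : ℂ)‖ ≤ C * ((2 ^ J : ℕ) : ℝ) * P) {Γ : ℝ}
    (hΓ : (C * (((2 ^ J : ℕ) : ℝ) ^ n * (C * ((2 ^ J : ℕ) : ℝ) ^ ε / P) ^ ((r : ℝ) / 2) *
            (((2 ^ i : ℕ) : ℝ) / ((2 ^ J : ℕ) : ℝ) ^ (1 / 2 : ℝ)) ^ r)) ^ (p / 2 - 1) *
          (C * (C * ((2 ^ J : ℕ) : ℝ) ^ ε * P + C * ((2 ^ J : ℕ) : ℝ) * P *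
            ((2 ^ J : ℕ) : ℝ) ^ ε / ((2 ^ i : ℕ) : ℝ) ^ 2)) ≤ Γ)
    (G : ℝ → M → ℂ) (hG : JC G) (hG1 : ∀ t x, ‖G t x‖ ≤ 1) :
    ‖JJ μ (fun t x y => (χ t : ℂ) * S.kw ν J i t x y) G‖ ≤
      Γ ^ (2 / p) * (∫ t in (0 : ℝ)..1, ∫ x, ‖G t x‖ ∂μ) ^ (2 - 2 / p) := by
  have hA : 0 ≤ C * (((2 ^ J : ℕ) : ℝ) ^ n * (C * ((2 ^ J : ℕ) : ℝ) ^ ε / P) ^ ((r : ℝ) / 2) *
            (((2 ^ i : ℕ) : ℝ) / ((2 ^ J : ℕ) : ℝ) ^ (1 / 2 : ℝ)) ^ r) := by positivity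
  have hE : 0 ≤ C * (C * ((2 ^ J : ℕ) : ℝ) ^ ε * P + C * ((2 ^ J : ℕ) : ℝ) * P *
            ((2 ^ J : ℕ) : ℝ) ^ ε / ((2 ^ i : ℕ) : ℝ) ^ 2) := by positivity
  have h1 := hKIB M μ L KM hker p hp (TS L (K₀ * 2 ^ J)) (fun b => S.mw L J i b.1) χ _ _ hχ hA hE
    (fun b _ => h.mcont i b.1) (fun b _ t => h.mper i b.1 t) ?_ ?_ G hG hG1
  · simp only [← h.exp i hi] at h1
    refine h1.trans ?_
    have hm : 0 ≤ (∫ t in (0 : ℝ)..1, ∫ x, ‖G t x‖ ∂μ) ^ (2 - 2 / p) := by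
      refine Real.rpow_nonneg ?_ _
      exact intervalIntegral.integral_nonneg zero_le_one fun t _ =>
        integral_nonneg fun _ => norm_nonneg _
    refine mul_le_mul_of_nonneg_right ?_ hm
    exact Real.rpow_le_rpow (by positivity) hΓ (by positivity)
  · intro t x y
    rw [← h.exp i hi t x y]
    by_cases h0 : χ t = 0
    · rw [h0]
      simpa using hA
    · rw [norm_mul, Complex.norm_real, Real.norm_of_nonneg (hχ.nn t)]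
      refine (mul_le_of_le_one_left (norm_nonneg _) (hχ.le t)).trans ?_
      refine (h.sup i hi t x y).trans (mul_le_mul_of_nonneg_left ?_ hC)
      refine mul_le_mul_of_nonneg_right ?_ (by positivity)
      refine mul_le_mul_of_nonneg_left ?_ (by positivity)
      exact Real.rpow_le_rpow (LOCY.ww_nn hW _ _ _) (hχ1 t h0) (by positivity)
  · intro b _ j
    exact h.fou i hi b.1 χ _ _ hχ (by positivity) (by positivity) hχ2 hχ3 j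

/-- the sum of all the terms -/
theorem total (hW : WWF) (hKOP : S_KOP) (hKIA : S_KIA) (hKIB : S_KIB) (hJADD : S_JADD)
    (μ : Measure M) [IsProbabilityMeasure μ] (ν : Measure Y) (hker : Ker μ KM) {p C C2 : ℝ}
    (hp : 2 < p) (hC : 0 ≤ C) {c K₀ : ℕ} {ε η X : ℝ} {J : ℕ}
    (h : KSF S L KM ν C c K₀ ε J)
    {m : ℕ} {χ : Fin m → ℝ → ℝ} {P : Fin m → ℝ} {X₀ : ℕ} {P₀ : ℝ}
    (hm : (m : ℝ) ≤ C * (1 + Real.log ((2 ^ J : ℕ) : ℝ)))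
    (hX₀ : (X₀ : ℝ) ≤ ((2 ^ J : ℕ) : ℝ) ^ η) (hP₀ : 0 < P₀)
    (hP₀' : P₀ ≤ ((2 ^ J : ℕ) : ℝ) ^ (-2 + η)) (hPX : 2 * P₀ * X₀ ≤ 1) (hai : TC (ai 0 X₀ P₀))
    (hsum : ∀ t, ai 0 X₀ P₀ t + ∑ i, χ i t = 1) (hχ : ∀ i, TC (χ i)) (hP : ∀ i, 0 < P i)
    (hPlo : ∀ i, ((2 ^ J : ℕ) : ℝ) ^ (-2 + η) ≤ C * P i)
    (hPhi : ∀ i, P i ≤ 1 / ((2 ^ J : ℕ) : ℝ))
    (hχ1 : ∀ i t, χ i t ≠ 0 → WW (2 ^ J) c t ≤ C * ((2 ^ J : ℕ) : ℝ) ^ ε / P i)
    (hχ2 : ∀ i, ∀ j : ℤ, j ≠ 0 → ‖∫ t in (0 : ℝ)..1, (χ i t : ℂ) * eu (-(j * t))‖ ≤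
      C * ((2 ^ J : ℕ) : ℝ) ^ ε * P i)
    (hχ3 : ∀ i, ‖∫ t in (0 : ℝ)..1, (χ i t : ℂ)‖ ≤ C * ((2 ^ J : ℕ) : ℝ) * P i)
    (Γ : ℕ → ℝ) (Γ' : ℝ) (hΓ' : 0 ≤ Γ')
    (hg1 : ∀ i, i ≤ J / 2 → ∀ (X₀ : ℕ) (P₀ : ℝ), (X₀ : ℝ) ≤ ((2 ^ J : ℕ) : ℝ) ^ η → 0 < P₀ →
      P₀ ≤ ((2 ^ J : ℕ) : ℝ) ^ (-2 + η) → 2 * P₀ * X₀ ≤ 1 →
        ∫ t in (0 : ℝ)..1, ai 0 X₀ P₀ t *
          ((C * (((2 ^ J : ℕ) : ℝ) ^ n * WW (2 ^ J) c t ^ ((r : ℝ) / 2) *
              (((2 ^ i : ℕ) : ℝ) / ((2 ^ J : ℕ) : ℝ) ^ (1 / 2 : ℝ)) ^ r)) ^ (p / 2 - 1) *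
            (C * (((2 ^ i : ℕ) : ℝ) ^ (-(r : ℝ)) * WW (2 ^ i) c t ^ ((r : ℝ) / 2)))) ≤ Γ i)
    (hg2 : ∀ i, i ≤ J / 2 → ∀ P : ℝ, 0 < P → ((2 ^ J : ℕ) : ℝ) ^ (-2 + η) ≤ C * P →
      P ≤ 1 / ((2 ^ J : ℕ) : ℝ) →
        (C * (((2 ^ J : ℕ) : ℝ) ^ n * (C * ((2 ^ J : ℕ) : ℝ) ^ ε / P) ^ ((r : ℝ) / 2) *
            (((2 ^ i : ℕ) : ℝ) / ((2 ^ J : ℕ) : ℝ) ^ (1 / 2 : ℝ)) ^ r)) ^ (p / 2 - 1) *
          (C * (C * ((2 ^ J : ℕ) : ℝ) ^ ε * P + C * ((2 ^ J : ℕ) : ℝ) * P *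
            ((2 ^ J : ℕ) : ℝ) ^ ε / ((2 ^ i : ℕ) : ℝ) ^ 2)) ≤ Γ')
    (hg3 : ∑ i ∈ Finset.range (J / 2 + 1), (Γ i ^ (2 / p) +
      C * (1 + Real.log ((2 ^ J : ℕ) : ℝ)) * Γ' ^ (2 / p)) ≤ C2 * ((2 ^ J : ℕ) : ℝ) ^ X)
    (G : ℝ → M → ℂ) (hG : JC G) (hG1 : ∀ t x, ‖G t x‖ ≤ 1) :
    ‖JJ μ (fun t x y => ∑ i ∈ Finset.range (J / 2 + 1), S.kw ν J i t x y) G‖ ≤
      C2 * ((2 ^ J : ℕ) : ℝ) ^ X * (∫ t in (0 : ℝ)..1, ∫ x, ‖G t x‖ ∂μ) ^ (2 - 2 / p) := by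
  have hm0 : 0 ≤ (∫ t in (0 : ℝ)..1, ∫ x, ‖G t x‖ ∂μ) ^ (2 - 2 / p) := by
    refine Real.rpow_nonneg ?_ _
    exact intervalIntegral.integral_nonneg zero_le_one fun t _ =>
      integral_nonneg fun _ => norm_nonneg _
  have hχ' : ∀ l : Fin (m + 1), TC ((Fin.cons (ai 0 X₀ P₀) χ : Fin (m + 1) → ℝ → ℝ) l) := by
    intro l
    refine Fin.cases ?_ (fun i => ?_) l
    · simpa using hai
    · simpa using hχ i
  have hsum' : ∀ t, ∑ l : Fin (m + 1), (Fin.cons (ai 0 X₀ P₀) χ : Fin (m + 1) → ℝ → ℝ) l t =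
      1 := by
    intro t
    rw [Fin.sum_univ_succ]
    simpa using hsum t
  have h1 := hJADD M μ (m + 1) (Fin.cons (ai 0 X₀ P₀) χ) hχ' hsum' (J / 2 + 1)
    (fun i t x y => S.kw ν J i t x y) (fun i hi => h.cont i (by omega)) G hG
  rw [h1]
  refine (norm_sum_le _ _).trans ?_
  refine le_trans ?_ (mul_le_mul_of_nonneg_right hg3 hm0)
  rw [Finset.sum_mul]
  refine Finset.sum_le_sum fun i hi => ?_
  have hi' : i ≤ J / 2 := by
    have := Finset.mem_range.1 hi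
    omega
  rw [Fin.sum_univ_succ]
  refine (norm_add_le _ _).trans ?_
  rw [add_mul]
  refine add_le_add ?_ ?_
  · simp only [Fin.cons_zero]
    exact first hW hKOP hKIA μ ν hker hp hC h hi' hai (hg1 i hi' X₀ P₀ hX₀ hP₀ hP₀' hPX) G hG hG1
  · refine (norm_sum_le _ _).trans ?_
    have h2 : ∀ l : Fin m, ‖JJ μ (fun t x y => (((Fin.cons (ai 0 X₀ P₀) χ :
        Fin (m + 1) → ℝ → ℝ) l.succ t : ℝ) : ℂ) * S.kw ν J i t x y) G‖ ≤
        Γ' ^ (2 / p) * (∫ t in (0 : ℝ)..1, ∫ x, ‖G t x‖ ∂μ) ^ (2 - 2 / p) := by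
      intro l
      simp only [Fin.cons_succ]
      exact second hW hKIB μ ν hker hp hC h hi' (hχ l) (hP l) (hχ1 l) (hχ2 l) (hχ3 l)
        (hg2 i hi' (P l) (hP l) (hPlo l) (hPhi l)) G hG hG1
    refine (Finset.sum_le_sum fun l _ => h2 l).trans ?_
    rw [Finset.sum_const, Finset.card_univ, Fintype.card_fin, nsmul_eq_mul, mul_assoc]
    have h3 : 0 ≤ Γ' ^ (2 / p) * (∫ t in (0 : ℝ)..1, ∫ x, ‖G t x‖ ∂μ) ^ (2 - 2 / p) :=
      mul_nonneg (Real.rpow_nonneg hΓ' _) hm0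
    exact mul_le_mul_of_nonneg_right hm h3

end form

/-! ### the estimate -/

/-- the estimate for a set of frequencies in the box -/
theorem box (hKB : S_KB) (hBERN : S_BERN) (hW : S_WWF) (hKOP : S_KOP) (hLEV : S_LEV)
    (hTTA : S_TTA) (hKIA : S_KIA) (hKIB : S_KIB) (hARCS : S_ARCS) (hKWSF : S_KWSF)
    (hJADD : S_JADD) (hGSUS : S_GSUS)
    (M Y : Type) [TopologicalSpace M] [CompactSpace M] [T2Space M] [SecondCountableTopology M]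
    [MeasurableSpace M] [BorelSpace M] [TopologicalSpace Y] [CompactSpace Y] [T2Space Y]
    [SecondCountableTopology Y] [MeasurableSpace Y] [BorelSpace Y]
    (r n q : ℕ) (S : SPB M Y r n q) (L : Set (Fin r → ℕ)) (KM : L → M → M → ℂ) (μ : Measure M)
    (ν : Measure Y) [IsProbabilityMeasure μ] [IsProbabilityMeasure ν] (hS : SPD S L KM μ ν)
    (hr : 2 ≤ r) (p' : ℝ) (hp' : 2 + 4 / (r : ℝ) < p') :
    ∃ C : ℝ, 0 ≤ C ∧ ∀ (J : ℕ) (F : Finset L) (u : L → M → ℂ),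
      (∀ i ∈ F, ∀ j, i.1 j < 2 ^ J) → (∀ i ∈ F, Mem μ (KM i) (u i)) →
      ∫ t in (0 : ℝ)..1, ∫ g, ‖∑ i ∈ F,
        eu (t * ((-S.Q (wG i.1 - 1) : ℤ) : ℝ)) * u i g‖ ^ p' ∂μ ≤
      C * (((2 ^ J : ℕ) : ℝ) ^ (((n : ℝ) + r) * p' / 2 - ((n : ℝ) + r) - 2) *
        (∑ i ∈ F, nsq μ (u i)) ^ (p' / 2)) := by
  have hr0 : (0 : ℝ) < r := by
    have : 0 < r := by omega
    exact_mod_cast this
  obtain ⟨p, hp1, hpp'⟩ := exists_between hp'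
  have h4 : 0 < 4 / (r : ℝ) := by positivity
  have hp20 : 2 < p := by linarith
  have hker := hS.ker
  have hK := hKB M μ L KM hker
  obtain ⟨C0, hC0, hdiag⟩ := diag hS
  obtain ⟨c, K₀, hc, hks⟩ := hKWSF M Y r n q S L KM μ ν hS hr
  obtain ⟨η, ε, hη, hη1, hε, hgs⟩ := hGSUS r n c p hr hc hp1
  obtain ⟨C1, hC1, hks1⟩ := hks ε hε
  obtain ⟨C4, hC4, harcs⟩ := hARCS c ε η hc hε hη hη1
  set C : ℝ := max C1 C4 with hCdef
  have hC : 0 ≤ C := hC1.trans (le_max_left _ _)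
  have hC14 : C1 ≤ C := le_max_left _ _
  have hC44 : C4 ≤ C := le_max_right _ _
  obtain ⟨C2, hC2, hgam⟩ := hgs C hC
  obtain ⟨C3, hC3, hlev⟩ := hLEV M μ p p' hp20 hpp'
  refine ⟨C3 * (C0 ^ ((p' - p) / 2) * C2 ^ (p / 2)), by positivity, fun J F u hFJ hu => ?_⟩
  have hn1 : 1 ≤ 2 ^ J := Nat.one_le_two_pow
  have hkJ := ksf_mono hW hC14 (hks1 J)
  obtain ⟨Γ, Γ', hΓ, hΓ', hg1, hg2, hg3⟩ := hgam J
  obtain ⟨m, χ, P, X₀, P₀, hm, hX₀, hP₀, hP₀', hPX, hai, hsum, hχ⟩ := harcs (2 ^ J) hn1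
  have hnR : (1 : ℝ) ≤ ((2 ^ J : ℕ) : ℝ) := by exact_mod_cast hn1
  have hn0 : (0 : ℝ) < ((2 ^ J : ℕ) : ℝ) := by linarith
  have hlog : 0 ≤ Real.log ((2 ^ J : ℕ) : ℝ) := Real.log_nonneg hnR
  set Z : ℝ := ∑ i ∈ F, nsq μ (u i) with hZ
  have hZ0 : 0 ≤ Z := Finset.sum_nonneg fun a _ => integral_nonneg fun _ => by positivity
  have hJC : JC fun (t : ℝ) (g : M) =>
      ∑ i ∈ F, eu (t * ((-S.Q (wG i.1 - 1) : ℤ) : ℝ)) * u i g := by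
    refine continuous_finsetSum _ fun i hi => ?_
    refine Continuous.mul ?_ ((hu i hi).1.comp continuous_snd)
    exact LOCY.eu_cont.comp (continuous_fst.mul continuous_const)
  have hFT : F ⊆ TS L (2 ^ J) := fun i hi => (mem_TS L (2 ^ J) i).2 (hFJ i hi)
  have hcard : (F.card : ℝ) ≤ ((2 ^ J : ℕ) : ℝ) ^ r := by
    have h1 : F.card ≤ (ib r (2 ^ J)).card :=
      Finset.card_le_card_of_injOn (fun i : L => i.1)
        (fun i hi => Fintype.mem_piFinset.2 fun j => Finset.mem_range.2 (hFJ i hi j))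
        Subtype.val_injective.injOn
    have h2 : (ib r (2 ^ J)).card = (2 ^ J) ^ r := by
      unfold ib
      rw [Fintype.card_piFinset]
      simp
    rw [h2] at h1
    exact_mod_cast h1
  -- the bound for the maximum
  have hsup : ∀ (t : ℝ) (g : M), ‖∑ i ∈ F, eu (t * ((-S.Q (wG i.1 - 1) : ℤ) : ℝ)) * u i g‖ ≤
      √(C0 * ((2 ^ J : ℕ) : ℝ) ^ ((n : ℝ) + r) * Z) := by
    intro t g
    refine Real.le_sqrt_of_sq_le ?_
    have h1 := LOCY.sup_bound hBERN μ hker hK F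
      (fun i g => eu (t * ((-S.Q (wG i.1 - 1) : ℤ) : ℝ)) * u i g)
      (fun i hi => LOCY.mem_mul μ (hu i hi) _) (C0 * ((2 ^ J : ℕ) : ℝ) ^ ((n : ℝ) + r)) ?_ g
    · simp only [LOCY.nsq_eu] at h1
      exact h1
    · intro g
      have h2 : ∀ i ∈ F, ‖KM i g g‖ ≤ C0 * ((2 ^ J : ℕ) : ℝ) ^ n := fun i hi =>
        hdiag i (2 ^ J) (hFJ i hi) hn1 g
      refine (Finset.sum_le_sum h2).trans ?_
      rw [Finset.sum_const, nsmul_eq_mul]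
      refine (mul_le_mul_of_nonneg_right hcard (by positivity)).trans (le_of_eq ?_)
      rw [Real.rpow_add hn0, Real.rpow_natCast, Real.rpow_natCast]
      ring
  -- the restricted weak type estimate
  have hG1 := hlev (fun t g => ∑ i ∈ F, eu (t * ((-S.Q (wG i.1 - 1) : ℤ) : ℝ)) * u i g)
    (C2 * ((2 ^ J : ℕ) : ℝ) ^ ((((n : ℝ) + r) * (p / 2 - 1) - 2) * (2 / p)) * Z)
    (√(C0 * ((2 ^ J : ℕ) : ℝ) ^ ((n : ℝ) + r) * Z)) hJC (by positivity) (Real.sqrt_nonneg _)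
    hsup ?_
  · refine hG1.trans (le_of_eq ?_)
    rw [LOCY.powers ((2 ^ J : ℕ) : ℝ) ((n : ℝ) + r) (p / 2 - 1) p p' C0 C2 Z hn0 (by linarith) rfl
      hC0 hC2 hZ0 (by linarith)]
    ring
  · intro G hGc hGb
    have h1 := hTTA M μ L KM hker (fun i => -S.Q (wG i.1 - 1)) F (TS L (2 ^ J)) (fun _ => 1) hFT
      (fun _ _ => zero_le_one) (fun _ _ => le_refl _) u hu G hGc
    have h2 : (fun (t : ℝ) (x y : M) => ∑ a ∈ TS L (2 ^ J), (((fun _ => 1 : L → ℝ) a : ℝ) : ℂ) *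
        (eu (t * ((-S.Q (wG a.1 - 1) : ℤ) : ℝ)) * KM a x y)) =
        fun t x y => ∑ i ∈ Finset.range (J / 2 + 1), S.kw ν J i t x y := by
      funext t x y
      rw [← hkJ.sum t x y]
      refine Finset.sum_congr rfl fun a _ => ?_
      have e1 : (wG a.1 - 1 : Fin r → ℤ) = fun j => (a.1 j : ℤ) := by
        funext j
        simp [wG]
      have e2 : t * ((-S.Q (wG a.1 - 1) : ℤ) : ℝ) = -(t * (S.Q (fun j => (a.1 j : ℤ)) : ℝ)) := by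
        rw [e1]
        push_cast
        ring
      rw [e2]
      simp
    rw [h2] at h1
    have h3 := total hW hKOP hKIA hKIB hJADD μ ν hker (X :=
      (((n : ℝ) + r) * (p / 2 - 1) - 2) * (2 / p)) hp20 hC hkJ
      (hm.trans (mul_le_mul_of_nonneg_right hC44 (by linarith))) hX₀ hP₀ hP₀' hPX hai hsum
      (fun i => (hχ i).1) (fun i => (hχ i).2.1)
      (fun i => ((hχ i).2.2.1).trans (mul_le_mul_of_nonneg_right hC44 (hχ i).2.1.le))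
      (fun i => (hχ i).2.2.2.1)
      (fun i t ht => ((hχ i).2.2.2.2.1 t ht).trans (by
        have := (hχ i).2.1
        gcongr))
      (fun i j hj => ((hχ i).2.2.2.2.2.1 j hj).trans (by
        have := (hχ i).2.1
        gcongr))
      (fun i => ((hχ i).2.2.2.2.2.2).trans (by
        have := (hχ i).2.1
        gcongr)) Γ Γ' hΓ' hg1 hg2 hg3 G hGc hGb
    refine h1.trans ((mul_le_mul_of_nonneg_left h3 hZ0).trans (le_of_eq ?_))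
    ring

/-- all the frequencies up to the power of `2` -/
theorem main (hKB : S_KB) (hBERN : S_BERN) (hW : S_WWF) (hKOP : S_KOP) (hLEV : S_LEV)
    (hTTA : S_TTA) (hKIA : S_KIA) (hKIB : S_KIB) (hARCS : S_ARCS) (hKWSF : S_KWSF)
    (hJADD : S_JADD) (hGSUS : S_GSUS) : S_LOCS := by
  intro M Y _ _ _ _ _ _ _ _ _ _ _ _ r n q S L KM μ ν _ _ hS hr p hp
  obtain ⟨C, hC, hbox⟩ := box hKB hBERN hW hKOP hLEV hTTA hKIA hKIB hARCS hKWSF hJADD hGSUS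
    M Y r n q S L KM μ ν hS hr p hp
  have hr0 : (0 : ℝ) < r := by
    have : 0 < r := by omega
    exact_mod_cast this
  have hn0' : 0 ≤ (n : ℝ) := Nat.cast_nonneg _
  have h4 : 0 < 4 / (r : ℝ) := div_pos (by norm_num) hr0
  have hp0 : 0 < p := by linarith
  have hemp : ∀ u : L → M → ℂ,
      nq μ p (uw (fun i : L => wG i.1) (fun w => -S.Q (w - 1)) ∅ u) = 0 := by
    intro u
    unfold nq uw
    simp [Real.zero_rpow hp0.ne']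
    rw [Real.zero_rpow (inv_ne_zero hp0.ne')]
  set s : ℝ := ((r : ℝ) + n) / 2 - ((r : ℝ) + n + 2) / p with hs
  have hs0 : 0 ≤ s := by
    have h2 : 4 ≤ (r + n) * (p - 2) := by
      have h3 : 4 / (r : ℝ) < p - 2 := by linarith
      rw [div_lt_iff₀ hr0] at h3
      have h6 : 0 ≤ (n : ℝ) * (p - 2) := mul_nonneg hn0' (by linarith)
      linarith
    have h5 : ((r : ℝ) + n + 2) / p ≤ ((r : ℝ) + n) / 2 := by
      rw [div_le_div_iff₀ hp0 (by norm_num)]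
      linarith
    rw [hs]
    linarith
  refine ⟨C ^ (1 / p) * 2 ^ s, by positivity, fun F u hu N₀ hN => ?_⟩
  rcases F.eq_empty_or_nonempty with rfl | hne
  · rw [hemp]
    simp
  obtain ⟨i0, hi0⟩ := hne
  have hN1 : 1 ≤ N₀ := (LOCY.one_le_sz _).trans (hN i0 hi0)
  obtain ⟨j, hj1, hj2⟩ := exists_nat_pow_near hN1 (one_lt_two : (1 : ℝ) < 2)
  have hsub : ∀ i ∈ F, ∀ m, i.1 m < 2 ^ (j + 1) := by
    intro i hi m
    have h1 := (LOCY.le_sz i.1 m).trans (hN i hi)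
    have h2 : ((i.1 m : ℕ) : ℝ) < ((2 ^ (j + 1) : ℕ) : ℝ) := by
      push_cast
      linarith
    exact_mod_cast h2
  have hB := hbox (j + 1) F u hsub hu
  have e1 : ∀ (t : ℝ) (g : M), ∑ i ∈ F,
      eu (t * ((-S.Q (wG i.1 - 1) : ℤ) : ℝ)) * u i g =
        uw (fun i : L => wG i.1) (fun w => -S.Q (w - 1)) F u t g := fun t g => rfl
  simp only [e1] at hB
  set Z : ℝ := ∑ i ∈ F, nsq μ (u i) with hZ
  have hZ0 : 0 ≤ Z := Finset.sum_nonneg fun a _ => integral_nonneg fun _ => by positivity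
  set k : ℝ := ((2 ^ (j + 1) : ℕ) : ℝ) with hk
  have hk0 : 0 < k := by
    rw [hk]
    positivity
  have hk2 : k ≤ 2 * N₀ := by
    rw [hk]
    push_cast
    rw [pow_succ]
    linarith
  have hI0 : 0 ≤ ∫ t in (0 : ℝ)..1, ∫ g,
      ‖uw (fun i : L => wG i.1) (fun w => -S.Q (w - 1)) F u t g‖ ^ p ∂μ :=
    intervalIntegral.integral_nonneg zero_le_one fun t _ =>
      integral_nonneg fun _ => by positivity
  unfold nq
  have h1 := Real.rpow_le_rpow hI0 hB (show 0 ≤ 1 / p by positivity)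
  refine h1.trans ?_
  have hnp : 0 ≤ k ^ (((n : ℝ) + r) * p / 2 - ((n : ℝ) + r) - 2) := by positivity
  rw [Real.mul_rpow hC (by positivity), Real.mul_rpow hnp (by positivity), ← Real.rpow_mul hk0.le,
    ← Real.rpow_mul hZ0]
  have e3 : (((n : ℝ) + r) * p / 2 - ((n : ℝ) + r) - 2) * (1 / p) = s := by
    rw [hs]
    field_simp
    ring
  have e4 : p / 2 * (1 / p) = 1 / 2 := by
    field_simp
  rw [e3, e4, ← Real.sqrt_eq_rpow]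
  have h2 : k ^ s ≤ 2 ^ s * N₀ ^ s := by
    rw [← Real.mul_rpow (by norm_num) (by linarith)]
    exact Real.rpow_le_rpow hk0.le hk2 hs0
  calc C ^ (1 / p) * (k ^ s * √Z) ≤ C ^ (1 / p) * (2 ^ s * N₀ ^ s * √Z) := by
        refine mul_le_mul_of_nonneg_left ?_ (by positivity)
        exact mul_le_mul_of_nonneg_right h2 (Real.sqrt_nonneg _)
    _ = _ := by ring

end LOCS

theorem t_LOCS : M_LOCS := fun h1 h2 h3 h4 h5 h6 h7 h8 h9 h10 h11 h12 =>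
  LOCS.main h1 h2 h3 h4 h5 h6 h7 h8 h9 h10 h11 h12

end

end SYM
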