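import Pool.Agent.SYM.StQ

/-!
# COMQ: elements which preserve the span of the `e k`
-/

namespace SYM

open STZ LGR MeasureTheory Matrix Filter

open scoped ComplexConjugate Matrix Real Topology

noncomputable section

namespace COMQ

variable {N n : ℕ}

/-- the trace of `M Mᴴ` is the sum of the squares of the entries -/
theorem tr_self (M : Matrix (Fin N) (Fin N) ℂ) :
    (M * Mᴴ).trace = ((∑ i, ∑ j, ‖M i j‖ ^ 2 : ℝ) : ℂ) := by
  simp only [Matrix.trace, Matrix.diag, Matrix.mul_apply, Matrix.conjTranspose_apply]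
  push_cast
  refine Finset.sum_congr rfl fun i _ => Finset.sum_congr rfl fun j _ => ?_
  rw [Complex.star_def, Complex.mul_conj, Complex.normSq_eq_norm_sq]
  push_cast
  rfl

theorem tr_conj (A B : Matrix (Fin N) (Fin N) ℂ) :
    (A * Bᴴ).trace = conj ((B * Aᴴ).trace) := by
  have h : (B * Aᴴ)ᴴ = A * Bᴴ := by
    rw [Matrix.conjTranspose_mul, Matrix.conjTranspose_conjTranspose]
  rw [← h, Matrix.trace_conjTranspose]
  rfl

/-- rotation of an orthonormal basis -/
theorem rot {V : Type*} [AddCommGroup V] [Module ℂ V] (C : Matrix (Fin n) (Fin n) ℂ)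
    (hC : C * Cᴴ = 1) (b : Fin n → Fin n → V) :
    ∑ k, ∑ j, ∑ l, (C j k * conj (C l k)) • b j l = ∑ j, b j j := by
  rw [Finset.sum_comm]
  refine Finset.sum_congr rfl fun j _ => ?_
  rw [Finset.sum_comm]
  have h : ∀ l, ∑ k, (C j k * conj (C l k)) • b j l = if j = l then b j l else 0 := by
    intro l
    rw [← Finset.sum_smul]
    have e : ∑ k, C j k * conj (C l k) = (C * Cᴴ) j l := by
      rw [Matrix.mul_apply]
      rfl
    rw [e, hC, Matrix.one_apply]
    split_ifs with h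
    · rw [one_smul]
    · rw [zero_smul]
  rw [Finset.sum_congr rfl fun l _ => h l]
  rw [Finset.sum_ite_eq]
  simp

theorem expand (a b : Fin n → ℂ) (g h : Fin n → Matrix (Fin N) (Fin N) ℂ) :
    (∑ j, a j • g j) * (∑ l, b l • h l)ᴴ = ∑ j, ∑ l, (a j * conj (b l)) • (g j * (h l)ᴴ) := by
  rw [Matrix.conjTranspose_sum, Finset.sum_mul]
  refine Finset.sum_congr rfl fun j _ => ?_
  rw [Finset.mul_sum]
  refine Finset.sum_congr rfl fun l _ => ?_
  rw [Matrix.conjTranspose_smul, smul_mul_assoc, mul_smul_comm, smul_smul]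
  rfl

theorem expand' (a b : Fin n → ℂ) (g h : Fin n → Matrix (Fin N) (Fin N) ℂ) :
    (∑ l, b l • h l)ᴴ * (∑ j, a j • g j) = ∑ j, ∑ l, (a j * conj (b l)) • ((h l)ᴴ * g j) := by
  rw [Matrix.conjTranspose_sum, Finset.mul_sum]
  refine Finset.sum_congr rfl fun j _ => ?_
  rw [Finset.sum_mul]
  refine Finset.sum_congr rfl fun l _ => ?_
  rw [Matrix.conjTranspose_smul, smul_mul_assoc, mul_smul_comm, smul_smul, mul_comm]
  rfl

/-- the matrix of `Ad x` on the span of the `e k` is unitary -/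
theorem unit (e : Fin n → Matrix (Fin N) (Fin N) ℂ)
    (he : ∀ j k, (e j * (e k)ᴴ).trace = if j = k then 1 else 0)
    (x : Matrix (Fin N) (Fin N) ℂ) (hx : xᴴ * x = 1) (C : Matrix (Fin n) (Fin n) ℂ)
    (hC : ∀ k, x * e k * xᴴ = ∑ j, C j k • e j) : C * Cᴴ = 1 := by
  refine mul_eq_one_comm.1 ?_
  ext k l
  rw [Matrix.mul_apply, Matrix.one_apply]
  have h1 : ((x * e l * xᴴ) * (x * e k * xᴴ)ᴴ).trace = if l = k then 1 else 0 := by
    rw [← he l k, Matrix.conjTranspose_mul, Matrix.conjTranspose_mul,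
      Matrix.conjTranspose_conjTranspose]
    have e1 : x * e l * xᴴ * (x * ((e k)ᴴ * xᴴ)) = x * (e l * (xᴴ * x) * (e k)ᴴ * xᴴ) := by
      noncomm_ring
    rw [e1, hx, Matrix.trace_mul_comm]
    have e2 : e l * 1 * (e k)ᴴ * xᴴ * x = e l * (e k)ᴴ * (xᴴ * x) := by
      noncomm_ring
    rw [e2, hx, Matrix.mul_one]
  rw [hC l, hC k, expand, Matrix.trace_sum] at h1
  have h2 : ∀ j, (∑ m, (C j l * conj (C m k)) • (e j * (e m)ᴴ)).trace =
      C j l * conj (C j k) := by
    intro j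
    rw [Matrix.trace_sum]
    have h3 : ∀ m, ((C j l * conj (C m k)) • (e j * (e m)ᴴ)).trace =
        if j = m then C j l * conj (C m k) else 0 := by
      intro m
      rw [Matrix.trace_smul, he]
      split_ifs <;> simp
    rw [Finset.sum_congr rfl fun m _ => h3 m, Finset.sum_ite_eq]
    simp
  rw [Finset.sum_congr rfl fun j _ => h2 j] at h1
  have h3 : ∑ j, Cᴴ k j * C j l = ∑ j, C j l * conj (C j k) := by
    refine Finset.sum_congr rfl fun j _ => ?_
    rw [Matrix.conjTranspose_apply, mul_comm]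
    rfl
  rw [h3, h1]
  simp [eq_comm]

/-- `ns e F = 0` means that `F` maps the `e k` to the span of the `e j` -/
theorem ns_zero (e : Fin n → Matrix (Fin N) (Fin N) ℂ)
    (F : Matrix (Fin N) (Fin N) ℂ → Matrix (Fin N) (Fin N) ℂ) (h : ns e F = 0) (k : Fin n) :
    F (e k) = ∑ j, (F (e k) * (e j)ᴴ).trace • e j := by
  have h0 : ∀ k i j, 0 ≤ ‖th e F k i j‖ ^ 2 := fun k i j => by positivity
  unfold ns at h
  have h1 := (Finset.sum_eq_zero_iff_of_nonneg fun k _ =>
    Finset.sum_nonneg fun i _ => Finset.sum_nonneg fun j _ => h0 k i j).1 h k (Finset.mem_univ k)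
  have h2 : th e F k = 0 := by
    ext i j
    have h3 := (Finset.sum_eq_zero_iff_of_nonneg fun i _ =>
      Finset.sum_nonneg fun j _ => h0 k i j).1 h1 i (Finset.mem_univ i)
    have h4 := (Finset.sum_eq_zero_iff_of_nonneg fun j _ => h0 k i j).1 h3 j (Finset.mem_univ j)
    have h5 : ‖th e F k i j‖ = 0 := by simpa using h4
    simpa using h5
  unfold th at h2
  exact sub_eq_zero.1 h2

/-- (1) -/
theorem part1 {H : Subgroup (SU N)} {e : Fin n → Matrix (Fin N) (Fin N) ℂ}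
    {δ : Matrix (Fin N) (Fin N) ℂ} (hN : NIL H e δ) (x : Matrix (Fin N) (Fin N) ℂ)
    (hx : xᴴ * x = 1) (C : Matrix (Fin n) (Fin n) ℂ)
    (hC : ∀ k, x * e k * xᴴ = ∑ j, C j k • e j) : x * δ = δ * x := by
  have hU := unit e hN.orth x hx C hC
  have h1 : x * δ * xᴴ = δ := by
    have e1 : x * δ * xᴴ = ∑ k, ((x * e k * xᴴ) * (x * e k * xᴴ)ᴴ - (x * e k * xᴴ)ᴴ * (x * e k * xᴴ)) := by
      rw [hN.del, Finset.mul_sum, Finset.sum_mul]
      refine Finset.sum_congr rfl fun k _ => ?_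
      rw [Matrix.conjTranspose_mul, Matrix.conjTranspose_mul, Matrix.conjTranspose_conjTranspose]
      have e2 : x * e k * xᴴ * (x * ((e k)ᴴ * xᴴ)) = x * (e k * (xᴴ * x) * (e k)ᴴ) * xᴴ := by
        noncomm_ring
      have e3 : x * ((e k)ᴴ * xᴴ) * (x * e k * xᴴ) = x * ((e k)ᴴ * (xᴴ * x) * e k) * xᴴ := by
        noncomm_ring
      rw [e2, e3, hx, Matrix.mul_one, Matrix.mul_one]
      noncomm_ring
    have e2 : ∀ k, (x * e k * xᴴ) * (x * e k * xᴴ)ᴴ - (x * e k * xᴴ)ᴴ * (x * e k * xᴴ) =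
        ∑ j, ∑ l, (C j k * conj (C l k)) • (e j * (e l)ᴴ - (e l)ᴴ * e j) := by
      intro k
      rw [hC k, expand, expand', ← Finset.sum_sub_distrib]
      refine Finset.sum_congr rfl fun j _ => ?_
      rw [← Finset.sum_sub_distrib]
      refine Finset.sum_congr rfl fun l _ => ?_
      rw [smul_sub]
    rw [e1, Finset.sum_congr rfl fun k _ => e2 k,
      rot C hU (fun j l => e j * (e l)ᴴ - (e l)ᴴ * e j), hN.del]
  calc x * δ = x * δ * (xᴴ * x) := by rw [hx, Matrix.mul_one]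
    _ = x * δ * xᴴ * x := by noncomm_ring
    _ = δ * x := by rw [h1]

/-- (2) -/
theorem part2 {H : Subgroup (SU N)} {e : Fin n → Matrix (Fin N) (Fin N) ℂ}
    {δ : Matrix (Fin N) (Fin N) ℂ} (hN : NIL H e δ) (X : Matrix (Fin N) (Fin N) ℂ)
    (hX : Xᴴ = -X) (a : Fin n → Fin n → ℂ)
    (ha : ∀ j k, a j k = ((X * e k - e k * X) * (e j)ᴴ).trace)
    (hC : ∀ k, X * e k - e k * X = ∑ j, a j k • e j) : X * δ = δ * X := by
  -- the matrix is skew Hermitian
  have hs : ∀ k, X * (e k)ᴴ - (e k)ᴴ * X = ∑ j, conj (a j k) • (e j)ᴴ := by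
    intro k
    have h := congrArg Matrix.conjTranspose (hC k)
    rw [Matrix.conjTranspose_sub, Matrix.conjTranspose_mul, Matrix.conjTranspose_mul, hX,
      Matrix.conjTranspose_sum] at h
    have e1 : ∀ j, (a j k • e j)ᴴ = conj (a j k) • (e j)ᴴ := fun j => by
      rw [Matrix.conjTranspose_smul]; rfl
    rw [Finset.sum_congr rfl fun j _ => e1 j] at h
    rw [← h]
    noncomm_ring
  have hsk : ∀ j k, a j k + conj (a k j) = 0 := by
    intro j k
    have h1 : conj (a k j) = ((e k) * (X * (e j)ᴴ - (e j)ᴴ * X)).trace := by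
      rw [ha k j]
      have e1 : (X * e j - e j * X)ᴴ = X * (e j)ᴴ - (e j)ᴴ * X := by
        rw [Matrix.conjTranspose_sub, Matrix.conjTranspose_mul, Matrix.conjTranspose_mul, hX]
        noncomm_ring
      rw [← e1, tr_conj (e k)]
    rw [h1, ha j k, ← Matrix.trace_add]
    have e2 : (X * e k - e k * X) * (e j)ᴴ + e k * (X * (e j)ᴴ - (e j)ᴴ * X) =
        X * (e k * (e j)ᴴ) - (e k * (e j)ᴴ) * X := by
      noncomm_ring
    rw [e2, Matrix.trace_sub, Matrix.trace_mul_comm, sub_self]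
  have hA : X * (∑ k, e k * (e k)ᴴ) - (∑ k, e k * (e k)ᴴ) * X = 0 := by
    have e1 : X * (∑ k, e k * (e k)ᴴ) - (∑ k, e k * (e k)ᴴ) * X =
        ∑ k, ((X * e k - e k * X) * (e k)ᴴ + e k * (X * (e k)ᴴ - (e k)ᴴ * X)) := by
      rw [Finset.mul_sum, Finset.sum_mul, ← Finset.sum_sub_distrib]
      refine Finset.sum_congr rfl fun k _ => ?_
      noncomm_ring
    rw [e1, Finset.sum_add_distrib]
    have e2 : ∑ k, (X * e k - e k * X) * (e k)ᴴ = ∑ k, ∑ j, a j k • (e j * (e k)ᴴ) := by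
      refine Finset.sum_congr rfl fun k _ => ?_
      rw [hC k, Finset.sum_mul]
      refine Finset.sum_congr rfl fun j _ => ?_
      rw [smul_mul_assoc]
    have e3 : ∑ k, e k * (X * (e k)ᴴ - (e k)ᴴ * X) = ∑ k, ∑ j, conj (a k j) • (e j * (e k)ᴴ) := by
      rw [Finset.sum_comm]
      refine Finset.sum_congr rfl fun k _ => ?_
      rw [hs k, Finset.mul_sum]
      refine Finset.sum_congr rfl fun j _ => ?_
      rw [mul_smul_comm]
    rw [e2, e3, ← Finset.sum_add_distrib]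
    refine Finset.sum_eq_zero fun k _ => ?_
    rw [← Finset.sum_add_distrib]
    refine Finset.sum_eq_zero fun j _ => ?_
    rw [← add_smul, hsk, zero_smul]
  have hB : X * (∑ k, (e k)ᴴ * e k) - (∑ k, (e k)ᴴ * e k) * X = 0 := by
    have e1 : X * (∑ k, (e k)ᴴ * e k) - (∑ k, (e k)ᴴ * e k) * X =
        ∑ k, ((X * (e k)ᴴ - (e k)ᴴ * X) * e k + (e k)ᴴ * (X * e k - e k * X)) := by
      rw [Finset.mul_sum, Finset.sum_mul, ← Finset.sum_sub_distrib]
      refine Finset.sum_congr rfl fun k _ => ?_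
      noncomm_ring
    rw [e1, Finset.sum_add_distrib]
    have e2 : ∑ k, (e k)ᴴ * (X * e k - e k * X) = ∑ k, ∑ j, a j k • ((e k)ᴴ * e j) := by
      refine Finset.sum_congr rfl fun k _ => ?_
      rw [hC k, Finset.mul_sum]
      refine Finset.sum_congr rfl fun j _ => ?_
      rw [mul_smul_comm]
    have e3 : ∑ k, (X * (e k)ᴴ - (e k)ᴴ * X) * e k = ∑ k, ∑ j, conj (a k j) • ((e k)ᴴ * e j) := by
      rw [Finset.sum_comm]
      refine Finset.sum_congr rfl fun k _ => ?_
      rw [hs k, Finset.sum_mul]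
      refine Finset.sum_congr rfl fun j _ => ?_
      rw [smul_mul_assoc]
    rw [e2, e3, add_comm, ← Finset.sum_add_distrib]
    refine Finset.sum_eq_zero fun k _ => ?_
    rw [← Finset.sum_add_distrib]
    refine Finset.sum_eq_zero fun j _ => ?_
    rw [← add_smul, hsk, zero_smul]
  have hd : δ = (∑ k, e k * (e k)ᴴ) - ∑ k, (e k)ᴴ * e k := by
    rw [hN.del, Finset.sum_sub_distrib]
  rw [hd, Matrix.mul_sub, Matrix.sub_mul]
  have h1 := sub_eq_zero.1 hA
  have h2 := sub_eq_zero.1 hB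
  rw [h1, h2]

theorem trs (e : Fin n → Matrix (Fin N) (Fin N) ℂ) (z w : Fin n → ℂ) (Y : Matrix (Fin N) (Fin N) ℂ)
    (ho : ∀ j k, (e j * (e k)ᴴ).trace = if j = k then 1 else 0)
    (ho2 : ∀ j k, (e j * e k).trace = 0) (m : Fin n) (hY : (e m * Y).trace = 0) :
    (e m * (Y + ∑ k, (z k • e k - w k • (e k)ᴴ))).trace = -w m := by
  rw [Matrix.mul_add, Matrix.trace_add, hY, zero_add, Finset.mul_sum, Matrix.trace_sum]
  have h : ∀ k, (e m * (z k • e k - w k • (e k)ᴴ)).trace = if m = k then -w k else 0 := by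
    intro k
    rw [Matrix.mul_sub, Matrix.trace_sub, mul_smul_comm, mul_smul_comm, Matrix.trace_smul,
      Matrix.trace_smul, ho2, ho]
    split_ifs <;> simp
  rw [Finset.sum_congr rfl fun k _ => h k, Finset.sum_ite_eq]
  simp

/-- (3), the first claim -/
theorem part3 {H : Subgroup (SU N)} {e : Fin n → Matrix (Fin N) (Fin N) ℂ}
    {δ : Matrix (Fin N) (Fin N) ℂ} (hL : LIF H) (hN : NIL H e δ) (k : SU N) (hk : k ∈ H)
    (hkk : k.1ᴴ * k.1 = 1) (hkk' : k.1 * k.1ᴴ = 1) (hc : k.1 * δ = δ * k.1) (i : Fin n) :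
    ∃ a : Fin n → ℂ, k.1 * e i * k.1ᴴ = ∑ j, a j • e j := by
  obtain ⟨ci, hci, hei⟩ := hN.eig i
  choose c hcp hce using hN.eig
  have hc' : k.1ᴴ * δ = δ * k.1ᴴ := by
    calc k.1ᴴ * δ = k.1ᴴ * (δ * k.1) * k.1ᴴ := by
          rw [Matrix.mul_assoc, Matrix.mul_assoc, hkk', Matrix.mul_one]
      _ = (k.1ᴴ * k.1) * δ * k.1ᴴ := by rw [← hc]; noncomm_ring
      _ = δ * k.1ᴴ := by rw [hkk, Matrix.one_mul]
  set Z := k.1 * e i * k.1ᴴ with hZ
  have hZe : δ * Z - Z * δ = (ci : ℂ) • Z := by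
    have e1 : δ * Z - Z * δ = k.1 * (δ * e i - e i * δ) * k.1ᴴ := by
      have e2 : δ * Z = k.1 * (δ * e i) * k.1ᴴ := by
        rw [hZ]
        calc δ * (k.1 * e i * k.1ᴴ) = (δ * k.1) * e i * k.1ᴴ := by noncomm_ring
          _ = k.1 * (δ * e i) * k.1ᴴ := by rw [← hc]; noncomm_ring
      have e3 : Z * δ = k.1 * (e i * δ) * k.1ᴴ := by
        rw [hZ]
        calc k.1 * e i * k.1ᴴ * δ = k.1 * e i * (k.1ᴴ * δ) := by noncomm_ring
          _ = k.1 * (e i * δ) * k.1ᴴ := by rw [hc']; noncomm_ring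
      rw [e2, e3]
      noncomm_ring
    rw [e1, hei, mul_smul_comm, smul_mul_assoc]
  have hZm : ∀ m, (e m * Z).trace = 0 := by
    intro m
    have h1 : ((ci : ℂ) + (c m : ℂ)) * (e m * Z).trace = 0 := by
      have e1 : (ci : ℂ) * (e m * Z).trace = (e m * (δ * Z - Z * δ)).trace := by
        rw [hZe, mul_smul_comm, Matrix.trace_smul, smul_eq_mul]
      have e2 : (c m : ℂ) * (e m * Z).trace = ((δ * e m - e m * δ) * Z).trace := by
        rw [hce m, smul_mul_assoc, Matrix.trace_smul, smul_eq_mul]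
      rw [add_mul, e1, e2, ← Matrix.trace_add]
      have e3 : e m * (δ * Z - Z * δ) + (δ * e m - e m * δ) * Z =
          δ * (e m * Z) - (e m * Z) * δ := by
        noncomm_ring
      rw [e3, Matrix.trace_sub, Matrix.trace_mul_comm, sub_self]
    have h2 : ((ci : ℂ) + (c m : ℂ)) ≠ 0 := by
      have : ci + c m ≠ 0 := (add_pos hci (hcp m)).ne'
      exact_mod_cast this
    exact (mul_eq_zero.1 h1).resolve_left h2
  obtain ⟨YU, hYU, hYUc, z, hU⟩ := hN.span _ (hL.ad k hk _ (hN.emem i).1)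
  obtain ⟨YV, hYV, hYVc, w, hV⟩ := hN.span _ (hL.ad k hk _ (hN.emem i).2)
  have hZ2 : Z = (1 / 2 : ℂ) • (k.1 * (e i - (e i)ᴴ) * k.1ᴴ) -
      (Complex.I / 2) • (k.1 * (Complex.I • (e i + (e i)ᴴ)) * k.1ᴴ) := by
    have e1 : k.1 * (Complex.I • (e i + (e i)ᴴ)) * k.1ᴴ =
        Complex.I • (k.1 * e i * k.1ᴴ + k.1 * (e i)ᴴ * k.1ᴴ) := by
      rw [mul_smul_comm, smul_mul_assoc, Matrix.mul_add, Matrix.add_mul]
    have e2 : k.1 * (e i - (e i)ᴴ) * k.1ᴴ = k.1 * e i * k.1ᴴ - k.1 * (e i)ᴴ * k.1ᴴ := by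
      noncomm_ring
    rw [e1, e2, smul_smul]
    have e3 : Complex.I / 2 * Complex.I = -(1 / 2) := by
      have := Complex.I_mul_I
      linear_combination (1 / 2) * this
    rw [e3, ← hZ]
    rw [smul_sub, smul_add, neg_smul, neg_smul]
    have e4 : (1 / 2 : ℂ) • Z + (1 / 2 : ℂ) • Z = Z := by
      rw [← add_smul]
      norm_num
    calc Z = (1 / 2 : ℂ) • Z + (1 / 2 : ℂ) • Z := e4.symm
      _ = _ := by abel
  have hb : ∀ m, -(1 / 2 : ℂ) * conj (z m) + (Complex.I / 2) * conj (w m) = 0 := by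
    intro m
    have h1 := hZm m
    rw [hZ2, Matrix.mul_sub, Matrix.trace_sub, mul_smul_comm, mul_smul_comm, Matrix.trace_smul,
      Matrix.trace_smul, hU, hV,
      trs e z (fun k => conj (z k)) YU hN.orth hN.orth2 m (hN.orthl YU hYU hYUc m),
      trs e w (fun k => conj (w k)) YV hN.orth hN.orth2 m (hN.orthl YV hYV hYVc m)] at h1
    simp only [smul_eq_mul] at h1
    linear_combination h1
  have hZ3 : Z = ((1 / 2 : ℂ) • YU - (Complex.I / 2) • YV) +
      ∑ m, ((1 / 2 : ℂ) * z m - (Complex.I / 2) * w m) • e m := by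
    rw [hZ2, hU, hV, smul_add, smul_add, Finset.smul_sum, Finset.smul_sum]
    have e1 : ∑ m, ((1 / 2 : ℂ) * z m - (Complex.I / 2) * w m) • e m =
        ∑ m, (1 / 2 : ℂ) • (z m • e m - conj (z m) • (e m)ᴴ) -
        ∑ m, (Complex.I / 2) • (w m • e m - conj (w m) • (e m)ᴴ) := by
      rw [← Finset.sum_sub_distrib]
      refine Finset.sum_congr rfl fun m _ => ?_
      have e2 : (1 / 2 : ℂ) • (z m • e m - conj (z m) • (e m)ᴴ) -
          (Complex.I / 2) • (w m • e m - conj (w m) • (e m)ᴴ) =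
          ((1 / 2 : ℂ) * z m - (Complex.I / 2) * w m) • e m +
          (-(1 / 2 : ℂ) * conj (z m) + (Complex.I / 2) * conj (w m)) • (e m)ᴴ := by
        module
      rw [e2, hb m, zero_smul, add_zero]
    rw [e1]
    abel
  have hZ4 : (ci : ℂ) • Z = ∑ m, (((1 / 2 : ℂ) * z m - (Complex.I / 2) * w m) * (c m : ℂ)) • e m := by
    rw [← hZe]
    have e1 : δ * ((1 / 2 : ℂ) • YU - (Complex.I / 2) • YV) -
        ((1 / 2 : ℂ) • YU - (Complex.I / 2) • YV) * δ = 0 := by
      rw [Matrix.mul_sub, Matrix.sub_mul, mul_smul_comm, mul_smul_comm, smul_mul_assoc,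
        smul_mul_assoc, hYUc, hYVc, sub_self]
    have e2 : δ * (∑ m, ((1 / 2 : ℂ) * z m - (Complex.I / 2) * w m) • e m) -
        (∑ m, ((1 / 2 : ℂ) * z m - (Complex.I / 2) * w m) • e m) * δ =
        ∑ m, (((1 / 2 : ℂ) * z m - (Complex.I / 2) * w m) * (c m : ℂ)) • e m := by
      rw [Finset.mul_sum, Finset.sum_mul, ← Finset.sum_sub_distrib]
      refine Finset.sum_congr rfl fun m _ => ?_
      rw [mul_smul_comm, smul_mul_assoc, ← smul_sub, hce m, smul_smul]
    calc δ * Z - Z * δ = (δ * ((1 / 2 : ℂ) • YU - (Complex.I / 2) • YV) -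
          ((1 / 2 : ℂ) • YU - (Complex.I / 2) • YV) * δ) +
          (δ * (∑ m, ((1 / 2 : ℂ) * z m - (Complex.I / 2) * w m) • e m) -
          (∑ m, ((1 / 2 : ℂ) * z m - (Complex.I / 2) * w m) • e m) * δ) := by
            rw [hZ3, Matrix.mul_add, Matrix.add_mul]
            abel
      _ = _ := by rw [e1, e2, zero_add]
  refine ⟨fun m => (ci : ℂ)⁻¹ * (((1 / 2 : ℂ) * z m - (Complex.I / 2) * w m) * (c m : ℂ)), ?_⟩
  have hci0 : (ci : ℂ) ≠ 0 := by exact_mod_cast hci.ne'
  calc Z = (ci : ℂ)⁻¹ • ((ci : ℂ) • Z) := by rw [smul_smul, inv_mul_cancel₀ hci0, one_smul]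
    _ = _ := by
      rw [hZ4, Finset.smul_sum]
      refine Finset.sum_congr rfl fun m _ => ?_
      rw [smul_smul]

/-- the squares of the norms as traces -/
theorem ns_eq (e : Fin n → Matrix (Fin N) (Fin N) ℂ)
    (F : Matrix (Fin N) (Fin N) ℂ → Matrix (Fin N) (Fin N) ℂ) :
    ((ns e F : ℝ) : ℂ) = ∑ k, (th e F k * (th e F k)ᴴ).trace := by
  unfold ns
  rw [Complex.ofReal_sum]
  refine Finset.sum_congr rfl fun k _ => ?_
  rw [tr_self]

/-- (3), the second claim -/
theorem part4 (e : Fin n → Matrix (Fin N) (Fin N) ℂ)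
    (he : ∀ j k, (e j * (e k)ᴴ).trace = if j = k then 1 else 0)
    (k : Matrix (Fin N) (Fin N) ℂ) (hk : kᴴ * k = 1) (hk' : k * kᴴ = 1)
    (C : Matrix (Fin n) (Fin n) ℂ) (hC : ∀ i, k * e i * kᴴ = ∑ j, C j i • e j)
    (F : Matrix (Fin N) (Fin N) ℂ →ₗ[ℂ] Matrix (Fin N) (Fin N) ℂ) :
    ns e (fun V => kᴴ * F (k * V * kᴴ) * k) = ns e F := by
  have hU := unit e he k hk C hC
  -- the inverse map
  have hinv : ∀ l, kᴴ * e l * k = ∑ j, conj (C l j) • e j := by
    intro l
    have h1 : k * (∑ j, conj (C l j) • e j) * kᴴ = e l := by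
      rw [Finset.mul_sum, Finset.sum_mul]
      have e1 : ∀ j, k * (conj (C l j) • e j) * kᴴ = ∑ m, (C m j * conj (C l j)) • e m := by
        intro j
        rw [mul_smul_comm, smul_mul_assoc, hC j, Finset.smul_sum]
        refine Finset.sum_congr rfl fun m _ => ?_
        rw [smul_smul, mul_comm]
      rw [Finset.sum_congr rfl fun j _ => e1 j, Finset.sum_comm]
      have e2 : ∀ m, ∑ j, (C m j * conj (C l j)) • e m = if m = l then e m else 0 := by
        intro m
        rw [← Finset.sum_smul]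
        have e3 : ∑ j, C m j * conj (C l j) = (C * Cᴴ) m l := by
          rw [Matrix.mul_apply]
          rfl
        rw [e3, hU, Matrix.one_apply]
        split_ifs <;> simp
      rw [Finset.sum_congr rfl fun m _ => e2 m, Finset.sum_ite_eq']
      simp
    calc kᴴ * e l * k = kᴴ * (k * (∑ j, conj (C l j) • e j) * kᴴ) * k := by rw [h1]
      _ = (kᴴ * k) * (∑ j, conj (C l j) • e j) * (kᴴ * k) := by noncomm_ring
      _ = _ := by rw [hk, Matrix.one_mul, Matrix.mul_one]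
  have hth : ∀ i, th e (fun V => kᴴ * F (k * V * kᴴ) * k) i =
      kᴴ * (∑ j, C j i • th e F j) * k := by
    intro i
    unfold th
    have e1 : F (k * e i * kᴴ) = ∑ j, C j i • F (e j) := by
      rw [hC i, map_sum]
      refine Finset.sum_congr rfl fun j _ => ?_
      rw [map_smul]
    set M := F (k * e i * kᴴ) with hM
    have e2 : ∑ j, (kᴴ * M * k * (e j)ᴴ).trace • e j = kᴴ * (∑ l, (M * (e l)ᴴ).trace • e l) * k := by
      have e3 : ∀ j, (kᴴ * M * k * (e j)ᴴ).trace = ∑ l, conj (C l j) * (M * (e l)ᴴ).trace := by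
        intro j
        have e4 : (kᴴ * M * k * (e j)ᴴ).trace = (M * (k * e j * kᴴ)ᴴ).trace := by
          rw [Matrix.conjTranspose_mul, Matrix.conjTranspose_mul,
            Matrix.conjTranspose_conjTranspose]
          have e5 : kᴴ * M * k * (e j)ᴴ = kᴴ * (M * (k * (e j)ᴴ)) := by noncomm_ring
          rw [e5, Matrix.trace_mul_comm]
          congr 1
          noncomm_ring
        rw [e4, hC j, Matrix.conjTranspose_sum, Finset.mul_sum, Matrix.trace_sum]
        refine Finset.sum_congr rfl fun l _ => ?_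
        rw [Matrix.conjTranspose_smul, mul_smul_comm, Matrix.trace_smul]
        rfl
      rw [Finset.mul_sum, Finset.sum_mul]
      have e6 : ∀ l, kᴴ * ((M * (e l)ᴴ).trace • e l) * k =
          ∑ j, (conj (C l j) * (M * (e l)ᴴ).trace) • e j := by
        intro l
        rw [mul_smul_comm, smul_mul_assoc, hinv l, Finset.smul_sum]
        refine Finset.sum_congr rfl fun j _ => ?_
        rw [smul_smul, mul_comm]
      rw [Finset.sum_congr rfl fun l _ => e6 l, Finset.sum_comm]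
      refine Finset.sum_congr rfl fun j _ => ?_
      rw [e3 j, Finset.sum_smul]
    rw [e2, ← Matrix.sub_mul, ← Matrix.mul_sub]
    congr 2
    have e7 : ∀ l, (M * (e l)ᴴ).trace = ∑ j, C j i * (F (e j) * (e l)ᴴ).trace := by
      intro l
      rw [e1, Finset.sum_mul, Matrix.trace_sum]
      refine Finset.sum_congr rfl fun j _ => ?_
      rw [smul_mul_assoc, Matrix.trace_smul, smul_eq_mul]
    have e8 : ∑ j, C j i • (F (e j) - ∑ l, (F (e j) * (e l)ᴴ).trace • e l) =
        ∑ j, C j i • F (e j) - ∑ l, (M * (e l)ᴴ).trace • e l := by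
      rw [← e1]
      have e9 : ∑ l, (M * (e l)ᴴ).trace • e l =
          ∑ j, ∑ l, (C j i * (F (e j) * (e l)ᴴ).trace) • e l := by
        rw [Finset.sum_comm]
        refine Finset.sum_congr rfl fun l _ => ?_
        rw [e7 l, Finset.sum_smul]
      rw [e9]
      nth_rewrite 1 [e1]
      rw [← Finset.sum_sub_distrib]
      refine Finset.sum_congr rfl fun j _ => ?_
      rw [smul_sub, Finset.smul_sum]
      congr 1
      refine Finset.sum_congr rfl fun l _ => ?_
      rw [smul_smul]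
    rw [e8, ← e1]
  have h : ((ns e (fun V => kᴴ * F (k * V * kᴴ) * k) : ℝ) : ℂ) = ((ns e F : ℝ) : ℂ) := by
    rw [ns_eq, ns_eq]
    have e1 : ∀ i, (th e (fun V => kᴴ * F (k * V * kᴴ) * k) i *
        (th e (fun V => kᴴ * F (k * V * kᴴ) * k) i)ᴴ).trace =
        ∑ j, ∑ l, (C j i * conj (C l i)) • (th e F j * (th e F l)ᴴ).trace := by
      intro i
      rw [hth i, Matrix.conjTranspose_mul, Matrix.conjTranspose_mul,
        Matrix.conjTranspose_conjTranspose]
      set T := ∑ j, C j i • th e F j with hT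
      have e2 : kᴴ * T * k * (kᴴ * (Tᴴ * k)) = kᴴ * (T * (k * kᴴ) * Tᴴ * k) := by noncomm_ring
      rw [e2, hk', Matrix.mul_one, Matrix.trace_mul_comm]
      have e3 : T * Tᴴ * k * kᴴ = T * Tᴴ * (k * kᴴ) := by noncomm_ring
      rw [e3, hk', Matrix.mul_one, hT, expand, Matrix.trace_sum]
      refine Finset.sum_congr rfl fun j _ => ?_
      rw [Matrix.trace_sum]
      refine Finset.sum_congr rfl fun l _ => ?_
      rw [Matrix.trace_smul]
    rw [Finset.sum_congr rfl fun i _ => e1 i]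
    exact rot C hU (fun j l => (th e F j * (th e F l)ᴴ).trace)
  exact_mod_cast h

end COMQ

/-- COMQ. -/
theorem t_COMQ : M_COMQ := by
  intro hLIEB N H n e δ hcl hN
  have hL := hLIEB N H hcl
  have hu : ∀ x : SU N, x.1ᴴ * x.1 = 1 ∧ x.1 * x.1ᴴ = 1 := by
    intro x
    have h := (Matrix.mem_specialUnitaryGroup_iff.1 x.2).1
    exact ⟨(Matrix.mem_unitaryGroup_iff'.1 h), (Matrix.mem_unitaryGroup_iff.1 h)⟩
  refine ⟨?_, ?_, ?_⟩
  · intro x _ hns
    exact COMQ.part1 hN x.1 (hu x).1 (fun j k => (x.1 * e k * x.1ᴴ * (e j)ᴴ).trace)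
      (fun k => COMQ.ns_zero e _ hns k)
  · intro X hX hns
    have hsk : Xᴴ = -X := by
      have := hL.su X hX
      exact this.1
    exact COMQ.part2 hN X hsk (fun j k => ((X * e k - e k * X) * (e j)ᴴ).trace)
      (fun j k => rfl) (fun k => COMQ.ns_zero e _ hns k)
  · intro k hk hc
    have h3 := COMQ.part3 hL hN k hk (hu k).1 (hu k).2 hc
    refine ⟨h3, ?_⟩
    intro F
    choose a ha using h3
    exact COMQ.part4 e hN.orth k.1 (hu k).1 (hu k).2 (fun j i => a i j) (fun i => ha i) F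

end

end SYM
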