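import Pool.Agent.SYM.StP

/-!
# Roots which do not vanish at a point of the maximal flat

The roots with `exp (i dz p.1 x) ≠ 1` (or with `dz p.1 x ≠ 0`) span everything, so there are enough
of them on the maximal abelian subspace.
-/

namespace SYM

open STZ LGR MeasureTheory Matrix Filter

open scoped ComplexConjugate Matrix Real Topology

noncomputable section

namespace SPAN

variable {l : ℕ}

theorem dz_add (κ : Fin l → ℤ) (x y : Fin l → ℝ) : dz κ (x + y) = dz κ x + dz κ y := by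
  unfold dz
  rw [← Finset.sum_add_distrib]
  exact Finset.sum_congr rfl fun i _ => by rw [Pi.add_apply]; ring

theorem dz_smul (κ : Fin l → ℤ) (c : ℝ) (x : Fin l → ℝ) : dz κ (c • x) = c * dz κ x := by
  unfold dz
  rw [Finset.mul_sum]
  exact Finset.sum_congr rfl fun i _ => by rw [Pi.smul_apply, smul_eq_mul]; ring

theorem dz_neg (κ : Fin l → ℤ) (x : Fin l → ℝ) : dz (-κ) x = -dz κ x := by
  unfold dz
  rw [← Finset.sum_neg_distrib]
  exact Finset.sum_congr rfl fun i _ => by rw [Pi.neg_apply]; push_cast; ring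

theorem dz_sub_smul (κ μ : Fin l → ℤ) (m : ℤ) (x : Fin l → ℝ) :
    dz (κ - m • μ) x = dz κ x - m * dz μ x := by
  unfold dz
  rw [Finset.mul_sum, ← Finset.sum_sub_distrib]
  exact Finset.sum_congr rfl fun i _ => by
    rw [Pi.sub_apply, Pi.smul_apply, smul_eq_mul]; push_cast; ring

/-- the linear form -/
def dzl (κ : Fin l → ℤ) : (Fin l → ℝ) →ₗ[ℝ] ℝ where
  toFun := dz κ
  map_add' := dz_add κ
  map_smul' c x := dz_smul κ c x

/-- the linear map `hx` -/
def hxl {N : ℕ} (Hc : Fin l → Matrix (Fin N) (Fin N) ℂ) :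
    (Fin l → ℝ) →ₗ[ℝ] Matrix (Fin N) (Fin N) ℂ where
  toFun := hx Hc
  map_add' x y := by
    unfold hx
    rw [← Finset.sum_add_distrib]
    exact Finset.sum_congr rfl fun i _ => by
      rw [Pi.add_apply, ← add_smul]; push_cast; ring_nf
  map_smul' c x := by
    unfold hx
    rw [Finset.smul_sum]
    refine Finset.sum_congr rfl fun i _ => ?_
    rw [Pi.smul_apply, smul_eq_mul]
    ext a b
    simp [Matrix.smul_apply, mul_assoc]

theorem hx_inj {N : ℕ} {Hc : Fin l → Matrix (Fin N) (Fin N) ℂ} (hl : LinearIndependent ℝ Hc)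
    {x y : Fin l → ℝ} (h : hx Hc x = hx Hc y) : x = y := by
  have h1 : ∀ z : Fin l → ℝ, hx Hc z = Complex.I • ∑ j, z j • Hc j := by
    intro z
    rw [hx, Finset.smul_sum]
    refine Finset.sum_congr rfl fun j _ => ?_
    have h2 : z j • Hc j = ((z j : ℝ) : ℂ) • Hc j := by
      ext a b
      simp [Matrix.smul_apply]
    rw [h2, smul_smul, mul_comm]
  rw [h1, h1] at h
  have h2 : ∑ j, x j • Hc j = ∑ j, y j • Hc j := smul_right_injective _ Complex.I_ne_zero h
  have h3 : ∑ j, (x j - y j) • Hc j = 0 := by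
    simp only [sub_smul, Finset.sum_sub_distrib]
    rw [h2, sub_self]
  have h4 := Fintype.linearIndependent_iff.1 hl (fun j => x j - y j) h3
  funext j
  exact sub_eq_zero.1 (h4 j)

/-- the roots with the property `S` span everything -/
theorem span_top {Φ : RT l} {B : Matrix (Fin l) (Fin l) ℤ} (h : IRD Φ B)
    {S : (Fin l → ℤ) × (Fin l → ℤ) → Prop} (hne : ∃ p ∈ Φ, S p)
    (hS : ∀ p ∈ Φ, ∀ q ∈ Φ, S q → ¬ S p → S (q.1 - (p.2 ⬝ᵥ q.1) • p.1, q.2 - (q.2 ⬝ᵥ p.1) • p.2)) :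
    Submodule.span ℂ {v : Fin l → ℂ | ∃ p ∈ Φ, S p ∧ v = fun i => (p.1 i : ℂ)} = ⊤ := by
  have key : ∀ p ∈ Φ, ∀ v ∈ Submodule.span ℂ {v : Fin l → ℂ | ∃ p ∈ Φ, S p ∧ v = fun i => (p.1 i : ℂ)},
      (fun i => v i - (∑ j, (p.2 j : ℂ) * v j) * (p.1 i : ℂ)) ∈
        Submodule.span ℂ {v : Fin l → ℂ | ∃ p ∈ Φ, S p ∧ v = fun i => (p.1 i : ℂ)} := by
    intro p hp v hv
    induction hv using Submodule.span_induction with
    | mem v hv =>
      obtain ⟨q, hq, hSq, rfl⟩ := hv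
      by_cases hSp : S p
      · have h1 : (fun i => (q.1 i : ℂ) - (∑ j, (p.2 j : ℂ) * (q.1 j : ℂ)) * (p.1 i : ℂ)) =
            (fun i => (q.1 i : ℂ)) - (∑ j, (p.2 j : ℂ) * (q.1 j : ℂ)) • (fun i => (p.1 i : ℂ)) := by
          funext i
          simp
        rw [h1]
        exact Submodule.sub_mem _ (Submodule.subset_span ⟨q, hq, hSq, rfl⟩)
          (Submodule.smul_mem _ _ (Submodule.subset_span ⟨p, hp, hSp, rfl⟩))
      · refine Submodule.subset_span ⟨_, h.refl p hp q hq, hS p hp q hq hSq hSp, ?_⟩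
        funext i
        simp [dotProduct]
    | zero =>
      have h1 : (fun i => (0 : Fin l → ℂ) i - (∑ j, (p.2 j : ℂ) * (0 : Fin l → ℂ) j) * (p.1 i : ℂ)) =
          (0 : Fin l → ℂ) := by
        funext i
        simp
      rw [h1]
      exact Submodule.zero_mem _
    | add u w _ _ hu hw =>
      have h1 : (fun i => (u + w) i - (∑ j, (p.2 j : ℂ) * (u + w) j) * (p.1 i : ℂ)) =
          (fun i => u i - (∑ j, (p.2 j : ℂ) * u j) * (p.1 i : ℂ)) +
            fun i => w i - (∑ j, (p.2 j : ℂ) * w j) * (p.1 i : ℂ) := by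
        funext i
        simp only [Pi.add_apply, mul_add, Finset.sum_add_distrib]
        ring
      rw [h1]
      exact Submodule.add_mem _ hu hw
    | smul c u _ hu =>
      have h1 : (fun i => (c • u) i - (∑ j, (p.2 j : ℂ) * (c • u) j) * (p.1 i : ℂ)) =
          c • fun i => u i - (∑ j, (p.2 j : ℂ) * u j) * (p.1 i : ℂ) := by
        funext i
        simp only [Pi.smul_apply, smul_eq_mul]
        have h2 : ∑ j, (p.2 j : ℂ) * (c * u j) = c * ∑ j, (p.2 j : ℂ) * u j := by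
          rw [Finset.mul_sum]
          exact Finset.sum_congr rfl fun j _ => by ring
        rw [h2]
        ring
      rw [h1]
      exact Submodule.smul_mem _ _ hu
  rcases h.irr (Submodule.span ℂ {v : Fin l → ℂ | ∃ p ∈ Φ, S p ∧ v = fun i => (p.1 i : ℂ)}) key with
    h1 | h1
  · exfalso
    obtain ⟨p, hp, hSp⟩ := hne
    have h2 : (fun i => (p.1 i : ℂ)) ∈
        Submodule.span ℂ {v : Fin l → ℂ | ∃ p ∈ Φ, S p ∧ v = fun i => (p.1 i : ℂ)} :=
      Submodule.subset_span ⟨p, hp, hSp, rfl⟩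
    rw [h1, Submodule.mem_bot] at h2
    have h3 : p.1 = 0 := by
      funext i
      have h4 := congrFun h2 i
      simpa using h4
    have h4 := h.two p hp
    rw [h3] at h4
    simp at h4
  · exact h1

/-- only `0` is killed by the roots with the property `S` -/
theorem eq_zero {Φ : RT l} {B : Matrix (Fin l) (Fin l) ℤ} (h : IRD Φ B)
    {S : (Fin l → ℤ) × (Fin l → ℤ) → Prop} (hne : ∃ p ∈ Φ, S p)
    (hS : ∀ p ∈ Φ, ∀ q ∈ Φ, S q → ¬ S p → S (q.1 - (p.2 ⬝ᵥ q.1) • p.1, q.2 - (q.2 ⬝ᵥ p.1) • p.2))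
    {y : Fin l → ℝ} (hy : ∀ p ∈ Φ, S p → dz p.1 y = 0) : y = 0 := by
  let f : (Fin l → ℂ) →ₗ[ℂ] ℂ := ∑ i, (y i : ℂ) • LinearMap.proj i
  have hf : ∀ v, f v = ∑ i, (y i : ℂ) * v i := by
    intro v
    simp [f, LinearMap.sum_apply]
  have h1 : Submodule.span ℂ {v : Fin l → ℂ | ∃ p ∈ Φ, S p ∧ v = fun i => (p.1 i : ℂ)} ≤
      LinearMap.ker f := by
    rw [Submodule.span_le]
    rintro _ ⟨p, hp, hSp, rfl⟩
    rw [SetLike.mem_coe, LinearMap.mem_ker, hf]
    have h2 := congrArg (fun t : ℝ => (t : ℂ)) (hy p hp hSp)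
    simp only [dz] at h2
    push_cast at h2
    rw [← h2]
    exact Finset.sum_congr rfl fun i _ => mul_comm _ _
  rw [span_top h hne hS] at h1
  funext i
  have h2 : f (Pi.single i 1) = 0 := h1 (Submodule.mem_top)
  rw [hf, Finset.sum_eq_single i] at h2
  · simpa using h2
  · intro j _ hj
    rw [Pi.single_eq_of_ne hj, mul_zero]
  · intro hi
    exact absurd (Finset.mem_univ i) hi

/-- the choice of the roots -/
theorem core {N : ℕ} {H : Subgroup (SU N)} {A : Submodule ℝ (Matrix (Fin N) (Fin N) ℂ)} {Φ : RT l}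
    {B : Matrix (Fin l) (Fin l) ℤ} {Hc : Fin l → Matrix (Fin N) (Fin N) ℂ}
    {E : (Fin l → ℤ) × (Fin l → ℤ) → Matrix (Fin N) (Fin N) ℂ} {x₀ : Fin l → ℝ}
    (hW : WFF Φ B) (hsr : SR H A Φ B Hc E x₀) {r : ℕ} (hr : Module.finrank ℝ A = r)
    {S : (Fin l → ℤ) × (Fin l → ℤ) → Prop} (hne : ∃ p ∈ Φ, S p)
    (hS : ∀ p ∈ Φ, ∀ q ∈ Φ, S q → ¬ S p → S (q.1 - (p.2 ⬝ᵥ q.1) • p.1, q.2 - (q.2 ⬝ᵥ p.1) • p.2))
    (hneg : ∀ p, S p → S (-p.1, -p.2)) (hA : ∀ p ∈ Φ, S p → dz p.1 x₀ ≠ 0) :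
    ∃ q : Fin r → (Fin l → ℤ) × (Fin l → ℤ), (∀ i, q i ∈ PA Φ x₀ ∧ S (q i)) ∧
      ∀ c : Fin r → ℝ, (∀ y, hx Hc y ∈ A → ∑ i, c i * dz (q i).1 y = 0) → c = 0 := by
  classical
  let A' : Submodule ℝ (Fin l → ℝ) := A.comap (hxl Hc)
  have hA' : ∀ y, y ∈ A' ↔ hx Hc y ∈ A := fun y => Iff.rfl
  have hinj : Function.Injective (hxl Hc) := by
    intro x y hxy
    exact hx_inj hsr.lrd.lin hxy
  have hfr : Module.finrank ℝ A' = r := by
    have h1 : A'.map (hxl Hc) = A := by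
      rw [Submodule.map_comap_eq, inf_eq_right]
      intro X hX
      obtain ⟨x, rfl⟩ := hsr.sub X hX
      exact ⟨x, rfl⟩
    rw [← hr, ← h1]
    exact LinearEquiv.finrank_eq (Submodule.equivMapOfInjective _ hinj A')
  let φ : (Fin l → ℤ) × (Fin l → ℤ) → Module.Dual ℝ A' := fun p => (dzl p.1) ∘ₗ A'.subtype
  have hφ : ∀ p (y : A'), φ p y = dz p.1 y.1 := fun p y => rfl
  let s : Set (Module.Dual ℝ A') := {f | ∃ p ∈ PA Φ x₀, S p ∧ f = φ p}
  have hPA : ∀ p ∈ Φ, S p → p ∈ PA Φ x₀ ∨ (-p.1, -p.2) ∈ PA Φ x₀ := by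
    intro p hp hSp
    by_cases hpp : p ∈ LGR.pos Φ
    · left
      unfold PA
      rw [Finset.mem_filter]
      exact ⟨hpp, lt_of_le_of_ne (hsr.x0p p hpp) (hA p hp hSp).symm⟩
    · right
      have h1 : (-p.1, -p.2) ∈ LGR.pos Φ := by
        by_contra h2
        exact hpp ((hW.dich p hp).2 h2)
      unfold PA
      rw [Finset.mem_filter]
      refine ⟨h1, lt_of_le_of_ne (hsr.x0p _ h1) ?_⟩
      exact (hA _ (hW.neg p hp) (hneg p hSp)).symm
  have hco : (Submodule.span ℝ s).dualCoannihilator = ⊥ := by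
    rw [eq_bot_iff]
    intro y hy
    rw [Submodule.mem_dualCoannihilator] at hy
    rw [Submodule.mem_bot]
    apply Subtype.ext
    refine eq_zero hsr.lrd.ird hne hS ?_
    intro p hp hSp
    rcases hPA p hp hSp with h1 | h1
    · have h2 := hy (φ p) (Submodule.subset_span ⟨p, h1, hSp, rfl⟩)
      rwa [hφ] at h2
    · have h2 := hy (φ (-p.1, -p.2)) (Submodule.subset_span ⟨_, h1, hneg p hSp, rfl⟩)
      rw [hφ, dz_neg, neg_eq_zero] at h2
      exact h2
  have hfs : Module.finrank ℝ (Submodule.span ℝ s) = r := by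
    have h1 := Subspace.finrank_add_finrank_dualCoannihilator_eq (Submodule.span ℝ s)
    rw [hco, finrank_bot, add_zero] at h1
    rw [h1, hfr]
  obtain ⟨f, hf1, -, hf3⟩ := Submodule.exists_fun_fin_finrank_span_eq ℝ s
  choose q hq1 hq2 hq3 using hf1
  let ι : Fin r ≃ Fin (Module.finrank ℝ (Submodule.span ℝ s)) := finCongr hfs.symm
  refine ⟨fun i => q (ι i), fun i => ⟨hq1 _, hq2 _⟩, fun c hc => ?_⟩
  have h1 : LinearIndependent ℝ fun i => f (ι i) := hf3.comp ι ι.injective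
  have h2 := Fintype.linearIndependent_iff.1 h1 c (by
    ext y
    rw [LinearMap.sum_apply, LinearMap.zero_apply]
    have h3 := hc y.1 y.2
    rw [← h3]
    refine Finset.sum_congr rfl fun i _ => ?_
    rw [LinearMap.smul_apply, hq3, hφ, smul_eq_mul])
  exact funext h2

end SPAN

theorem t_SPAN : M_SPAN := by
  intro hWF _ N H K σ τ A l Φ B Hc E x₀ θ r s ε hSD x hx
  have hW : WFF Φ B := hWF l Φ B hSD.sr.lrd.ird
  have hxr : ∀ p ∈ Φ, dz p.1 x ≠ 0 → dz p.1 x₀ ≠ 0 := fun p hp h1 h2 =>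
    h1 (hSD.sr.x0r p hp h2 x hx)
  constructor
  · intro hne
    refine SPAN.core hW hSD.sr hSD.rk
      (S := fun p => Complex.exp (dz p.1 x * Complex.I) ≠ 1) hne ?_ ?_ ?_
    · intro p _ q _ hq hp
      rw [not_not] at hp
      intro h1
      apply hq
      rw [SPAN.dz_sub_smul] at h1
      have h2 : ((dz q.1 x : ℝ) : ℂ) * Complex.I =
          ((dz q.1 x - ((p.2 ⬝ᵥ q.1 : ℤ) : ℝ) * dz p.1 x : ℝ) : ℂ) * Complex.I +
            ((p.2 ⬝ᵥ q.1 : ℤ) : ℂ) * (dz p.1 x * Complex.I) := by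
        push_cast
        ring
      rw [h2, Complex.exp_add, h1, Complex.exp_int_mul, hp, _root_.one_zpow, one_mul]
    · intro p hp h1
      apply hp
      rw [SPAN.dz_neg, Complex.ofReal_neg, neg_mul, Complex.exp_neg, inv_eq_one] at h1
      exact h1
    · intro p hp h1
      refine hxr p hp fun h2 => h1 ?_
      rw [h2, Complex.ofReal_zero, zero_mul, Complex.exp_zero]
  · intro hne
    refine SPAN.core hW hSD.sr hSD.rk (S := fun p => dz p.1 x ≠ 0) hne ?_ ?_ ?_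
    · intro p _ q _ hq hp
      rw [not_not] at hp
      rw [SPAN.dz_sub_smul, hp, mul_zero, sub_zero]
      exact hq
    · intro p hp
      rw [SPAN.dz_neg]
      exact neg_ne_zero.2 hp
    · exact hxr

end

end SYM
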