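import Pool.Agent.SYM.ROWS
import Pool.Agent.SYM.SPAN
import Pool.Agent.SYM.COMQ
import Pool.Agent.LGR.LIPS
import Pool.Agent.LGR.TAUF
import Pool.Agent.LGR.TAUS

/-!
# LROW: the local structure of the functions `ut`
-/

namespace SYM

open STZ LGR MeasureTheory Matrix Filter

open scoped ComplexConjugate Matrix Real Topology

noncomputable section

namespace LROW

/-- a local lower Lipschitz bound, uniform in the parameter `y` -/
theorem low0 {F G : Type*} [NormedAddCommGroup F] [NormedSpace ℝ F] [NormedAddCommGroup G]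
    [NormedSpace ℝ G] {m : ℕ} (Θ : (Fin m → ℝ) × F → G) (Θ' : (Fin m → ℝ) × F →L[ℝ] G) (y₀ : F)
    (h : HasStrictFDerivAt Θ Θ' (0, y₀)) (inj : ∀ v, Θ' (v, 0) = 0 → v = 0) :
    ∃ c > 0, ∃ r > 0, ∀ y : F, ‖y - y₀‖ < r → ∀ s s' : Fin m → ℝ, (∀ i, |s i| ≤ r) →
      (∀ i, |s' i| ≤ r) → c * ‖s - s'‖ ≤ ‖Θ (s, y) - Θ (s', y)‖ := by
  let L : (Fin m → ℝ) →ₗ[ℝ] G := (Θ'.comp (ContinuousLinearMap.inl ℝ (Fin m → ℝ) F)).toLinearMap
  have hLv : ∀ v, L v = Θ' (v, 0) := fun v => rfl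
  have hLker : LinearMap.ker L = ⊥ := by
    rw [LinearMap.ker_eq_bot']
    intro v hv
    exact inj v (by rw [← hLv]; exact hv)
  obtain ⟨K, hK, hKL⟩ := L.exists_antilipschitzWith hLker
  have hKL' : ∀ v, ‖v‖ ≤ K * ‖L v‖ := by
    intro v
    simpa using hKL.le_mul_norm_sub (x := v) (y := 0)
  have hK0 : (0 : ℝ) < K := by exact_mod_cast hK
  have hlo := (hasStrictFDerivAt_iff_isLittleO.mp h).def (c := 1 / (2 * K)) (by positivity)
  rw [Filter.eventually_iff_exists_mem] at hlo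
  obtain ⟨S, hS, hS2⟩ := hlo
  rw [Metric.mem_nhds_iff] at hS
  obtain ⟨ρ, hρ, hρS⟩ := hS
  refine ⟨1 / (2 * K), by positivity, ρ / 2, by positivity, ?_⟩
  intro y hy s s' hs hs'
  have hmem : ∀ t : Fin m → ℝ, (∀ i, |t i| ≤ ρ / 2) → ‖t‖ < ρ := by
    intro t ht
    have h5 : ‖t‖ ≤ ρ / 2 := (pi_norm_le_iff_of_nonneg (by positivity)).mpr ht
    linarith
  have h6 : (((s, y), (s', y)) : ((Fin m → ℝ) × F) × ((Fin m → ℝ) × F)) ∈ S := by
    apply hρS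
    rw [Metric.mem_ball, dist_eq_norm]
    simp only [Prod.mk_sub_mk, Prod.norm_mk, sub_zero]
    have := hmem s hs
    have := hmem s' hs'
    simp only [sup_lt_iff]
    refine ⟨⟨‹_›, ?_⟩, ‹_›, ?_⟩ <;> linarith
  have h7 := hS2 _ h6
  simp only at h7
  have h8 : ((s, y) : (Fin m → ℝ) × F) - (s', y) = (s - s', 0) := by
    simp only [Prod.mk_sub_mk, sub_self]
  rw [h8] at h7
  have h9 : ‖((s - s', 0) : (Fin m → ℝ) × F)‖ = ‖s - s'‖ := by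
    simp [Prod.norm_mk]
  rw [h9, ← hLv] at h7
  have h10 := hKL' (s - s')
  have h11 : ‖L (s - s')‖ ≤ ‖Θ (s, y) - Θ (s', y)‖ + ‖Θ (s, y) - Θ (s', y) - L (s - s')‖ := by
    calc ‖L (s - s')‖ = ‖(Θ (s, y) - Θ (s', y)) - (Θ (s, y) - Θ (s', y) - L (s - s'))‖ := by
          congr 1; abel
      _ ≤ _ := norm_sub_le _ _
  have h12 : 1 / (2 * (K : ℝ)) * ‖s - s'‖ + 1 / (2 * K) * ‖s - s'‖ ≤ ‖L (s - s')‖ := by
    have : 1 / (2 * (K : ℝ)) * ‖s - s'‖ + 1 / (2 * K) * ‖s - s'‖ = ‖s - s'‖ / K := by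
      field_simp
      ring
    rw [this, div_le_iff₀ hK0]
    linarith
  linarith

/-- the ordered product of the exponentials -/
def EM {𝔸 : Type*} [NormedRing 𝔸] [NormedAlgebra ℝ 𝔸] {n : ℕ} (X : Fin n → 𝔸) (s : Fin n → ℝ) : 𝔸 :=
  ((List.finRange n).map (fun i => NormedSpace.exp (s i • X i))).prod

/-- the function -/
def zf {𝔸 : Type*} [NormedRing 𝔸] [NormedAlgebra ℝ 𝔸] (st : 𝔸 →L[ℝ] 𝔸) (L : 𝔸 →L[ℝ] ℝ) (Z w : 𝔸)
    (T : 𝔸 →L[ℝ] 𝔸) (R E : 𝔸) : ℝ :=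
  L (T (E * (R * Z * st R) * st E) * (E * (R * w * st R) * st E))

/-- the derivative of `zf` -/
def zd {𝔸 : Type*} [NormedRing 𝔸] [NormedAlgebra ℝ 𝔸] (st : 𝔸 →L[ℝ] 𝔸) (L : 𝔸 →L[ℝ] ℝ) (Z w : 𝔸)
    (T : 𝔸 →L[ℝ] 𝔸) (R Y : 𝔸) : ℝ :=
  L (T (Y * (R * Z * st R) + (R * Z * st R) * st Y) * (R * w * st R) +
    T (R * Z * st R) * (Y * (R * w * st R) + (R * w * st R) * st Y))

theorem key {𝔸 : Type*} [NormedRing 𝔸] [NormedAlgebra ℝ 𝔸] [FiniteDimensional ℝ 𝔸] {m : ℕ}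
    (st : 𝔸 →L[ℝ] 𝔸) (hst : st 1 = 1) (L : Fin m → 𝔸 →L[ℝ] ℝ) (Z w X : Fin m → 𝔸)
    (T₀ : 𝔸 →L[ℝ] 𝔸) (R₀ : 𝔸)
    (inj : ∀ v : Fin m → ℝ, (∀ i, zd st (L i) (Z i) (w i) T₀ R₀ (∑ j, v j • X j) = 0) → v = 0) :
    ∃ c > 0, ∃ r > 0, ∀ (T : 𝔸 →L[ℝ] 𝔸) (R : 𝔸), ‖T - T₀‖ < r → ‖R - R₀‖ < r →
      ∀ s s' : Fin m → ℝ, (∀ i, |s i| ≤ r) → (∀ i, |s' i| ≤ r) → c * ‖s - s'‖ ≤
        ‖(fun i => zf st (L i) (Z i) (w i) T R (EM X s)) -
          fun i => zf st (L i) (Z i) (w i) T R (EM X s')‖ := by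
  obtain ⟨a1, a2⟩ := LIPS.expl X (List.finRange m)
  have hE0 : EM X 0 = 1 := a1
  let p1 : (Fin m → ℝ) × (𝔸 →L[ℝ] 𝔸) × 𝔸 →L[ℝ] (Fin m → ℝ) := ContinuousLinearMap.fst ℝ _ _
  let p2 : (Fin m → ℝ) × (𝔸 →L[ℝ] 𝔸) × 𝔸 →L[ℝ] (𝔸 →L[ℝ] 𝔸) :=
    (ContinuousLinearMap.fst ℝ (𝔸 →L[ℝ] 𝔸) 𝔸).comp
      (ContinuousLinearMap.snd ℝ (Fin m → ℝ) ((𝔸 →L[ℝ] 𝔸) × 𝔸))
  let p3 : (Fin m → ℝ) × (𝔸 →L[ℝ] 𝔸) × 𝔸 →L[ℝ] 𝔸 :=
    (ContinuousLinearMap.snd ℝ (𝔸 →L[ℝ] 𝔸) 𝔸).comp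
      (ContinuousLinearMap.snd ℝ (Fin m → ℝ) ((𝔸 →L[ℝ] 𝔸) × 𝔸))
  let z₀ : (Fin m → ℝ) × (𝔸 →L[ℝ] 𝔸) × 𝔸 := (0, T₀, R₀)
  obtain ⟨E', hE, hEv⟩ : ∃ E' : (Fin m → ℝ) × (𝔸 →L[ℝ] 𝔸) × 𝔸 →L[ℝ] 𝔸,
      HasStrictFDerivAt (fun z : (Fin m → ℝ) × (𝔸 →L[ℝ] 𝔸) × 𝔸 => EM X z.1) E' z₀ ∧
      ∀ v, E' (v, 0, 0) = ∑ j, v j • X j := by
    have h1 : HasStrictFDerivAt (fun s : Fin m → ℝ => EM X s) _ (p1 z₀) := a2
    refine ⟨_, HasStrictFDerivAt.comp z₀ (f := p1) (g := EM X) h1 p1.hasStrictFDerivAt, fun v => ?_⟩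
    have h2 : ∑ i, v i • X i = ((List.finRange m).map (fun i => v i • X i)).sum := by
      rw [← List.sum_ofFn, List.ofFn_eq_map]
    rw [h2, ContinuousLinearMap.comp_apply]
    exact LIPS.sum_map_apply X (List.finRange m) v
  have h2 : HasStrictFDerivAt (fun z : (Fin m → ℝ) × (𝔸 →L[ℝ] 𝔸) × 𝔸 => z.2.1) p2 z₀ :=
    p2.hasStrictFDerivAt
  have h3 : HasStrictFDerivAt (fun z : (Fin m → ℝ) × (𝔸 →L[ℝ] 𝔸) × 𝔸 => z.2.2) p3 z₀ :=
    p3.hasStrictFDerivAt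
  have h3s : HasStrictFDerivAt (fun z : (Fin m → ℝ) × (𝔸 →L[ℝ] 𝔸) × 𝔸 => st z.2.2) (st.comp p3) z₀ :=
    (st.comp p3).hasStrictFDerivAt
  have hEs : HasStrictFDerivAt (fun z : (Fin m → ℝ) × (𝔸 →L[ℝ] 𝔸) × 𝔸 => st (EM X z.1))
      (st.comp E') z₀ :=
    HasStrictFDerivAt.comp z₀ (f := fun z : (Fin m → ℝ) × (𝔸 →L[ℝ] 𝔸) × 𝔸 => EM X z.1) (g := st)
      st.hasStrictFDerivAt hE
  have hA : ∀ M : 𝔸, ∃ A' : (Fin m → ℝ) × (𝔸 →L[ℝ] 𝔸) × 𝔸 →L[ℝ] 𝔸,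
      HasStrictFDerivAt (fun z : (Fin m → ℝ) × (𝔸 →L[ℝ] 𝔸) × 𝔸 =>
        EM X z.1 * (z.2.2 * M * st z.2.2) * st (EM X z.1)) A' z₀ ∧
      ∀ v, A' (v, 0, 0) = (∑ j, v j • X j) * (R₀ * M * st R₀) + (R₀ * M * st R₀) * st (∑ j, v j • X j) := by
    intro M
    refine ⟨_, (hE.mul' ((h3.mul_const' M).mul' h3s)).mul' hEs, fun v => ?_⟩
    simp [z₀, p3, hEv, hE0, hst]
    abel
  have hf : ∀ i, ∃ y' : (Fin m → ℝ) × (𝔸 →L[ℝ] 𝔸) × 𝔸 →L[ℝ] ℝ,
      HasStrictFDerivAt (fun z : (Fin m → ℝ) × (𝔸 →L[ℝ] 𝔸) × 𝔸 =>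
        zf st (L i) (Z i) (w i) z.2.1 z.2.2 (EM X z.1)) y' z₀ ∧
      ∀ v, y' (v, 0, 0) = zd st (L i) (Z i) (w i) T₀ R₀ (∑ j, v j • X j) := by
    intro i
    obtain ⟨A', hA', hAv⟩ := hA (Z i)
    obtain ⟨B', hB', hBv⟩ := hA (w i)
    have h4 := h2.clm_apply hA'
    have h5 := h4.mul' hB'
    refine ⟨_, HasStrictFDerivAt.comp z₀ (g := L i)
      (f := fun z : (Fin m → ℝ) × (𝔸 →L[ℝ] 𝔸) × 𝔸 =>
        z.2.1 (EM X z.1 * (z.2.2 * Z i * st z.2.2) * st (EM X z.1)) *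
          (EM X z.1 * (z.2.2 * w i * st z.2.2) * st (EM X z.1)))
      (L i).hasStrictFDerivAt h5, fun v => ?_⟩
    have e1 : EM X z₀.1 = 1 := hE0
    simp only [ContinuousLinearMap.comp_apply, _root_.add_apply, _root_.smul_apply,
      hAv, hBv, ContinuousLinearMap.flip_apply, smul_eq_mul, MulOpposite.smul_eq_mul_unop,
      MulOpposite.unop_op, e1, hst, one_mul, mul_one]
    unfold zd
    simp [z₀, p2]
    abel
  choose y' hy hyv using hf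
  have hΘ : HasStrictFDerivAt (fun z : (Fin m → ℝ) × (𝔸 →L[ℝ] 𝔸) × 𝔸 =>
      fun i => zf st (L i) (Z i) (w i) z.2.1 z.2.2 (EM X z.1)) (ContinuousLinearMap.pi y') z₀ :=
    hasStrictFDerivAt_pi.mpr hy
  obtain ⟨c, hc, r, hr, h⟩ := low0 (fun z : (Fin m → ℝ) × (𝔸 →L[ℝ] 𝔸) × 𝔸 =>
      fun i => zf st (L i) (Z i) (w i) z.2.1 z.2.2 (EM X z.1)) _ (T₀, R₀) hΘ (by
    intro v hv
    apply inj
    intro i
    rw [← hyv]
    exact congrFun hv i)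
  refine ⟨c, hc, r, hr, fun T R hT hR s s' hs hs' => ?_⟩
  exact h (T, R) (by
    rw [Prod.mk_sub_mk, Prod.norm_mk, sup_lt_iff]
    exact ⟨hT, hR⟩) s s' hs hs'

/-- `bo ρ W` as a real linear map -/
def bol {N : ℕ} (hB : BOF N) (ρ : ℝ) (W : Matrix (Fin N) (Fin N) ℂ) :
    Matrix (Fin N) (Fin N) ℂ →ₗ[ℝ] Matrix (Fin N) (Fin N) ℂ where
  toFun := bo ρ W
  map_add' := hB.add ρ W
  map_smul' := by
    intro c V
    have h : ∀ V : Matrix (Fin N) (Fin N) ℂ, c • V = (c : ℂ) • V := fun V => rfl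
    rw [h, hB.smul]
    rfl

/-- the ordered product of the exponentials of matrices -/
def EX {N m : ℕ} (X : Fin m → Matrix (Fin N) (Fin N) ℂ) (s : Fin m → ℝ) : Matrix (Fin N) (Fin N) ℂ :=
  ((List.finRange m).map (fun i => NormedSpace.exp (s i • X i))).prod

/-- the function for matrices -/
def zm {N : ℕ} (L : Matrix (Fin N) (Fin N) ℂ →ₗ[ℝ] ℝ) (Z w : Matrix (Fin N) (Fin N) ℂ) (ρ : ℝ)
    (W R E : Matrix (Fin N) (Fin N) ℂ) : ℝ :=
  L (bo ρ W (E * (R * Z * Rᴴ) * Eᴴ) * (E * (R * w * Rᴴ) * Eᴴ))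

theorem boc {N : ℕ} (hB : BOF N) (V : Matrix (Fin N) (Fin N) ℂ) :
    Continuous fun z : ℝ × Matrix (Fin N) (Fin N) ℂ => bo z.1 z.2 V := by
  have h1 : Continuous fun z : ℝ × Matrix (Fin N) (Fin N) ℂ => (z.1, z.2, V) :=
    continuous_fst.prodMk (continuous_snd.prodMk continuous_const)
  have h2 := hB.cont
  exact Continuous.comp (f := fun z : ℝ × Matrix (Fin N) (Fin N) ℂ => (z.1, z.2, V))
    (g := fun z : ℝ × Matrix (Fin N) (Fin N) ℂ × Matrix (Fin N) (Fin N) ℂ => bo z.1 z.2.1 z.2.2) h2 h1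

open scoped Matrix.Norms.Operator in
set_option backward.isDefEq.respectTransparency false in
theorem tcont {N : ℕ} (hB : BOF N) :
    Continuous fun z : ℝ × Matrix (Fin N) (Fin N) ℂ => LinearMap.toContinuousLinearMap (bol hB z.1 z.2) := by
  rw [continuous_clm_apply]
  intro V
  exact boc hB V

open scoped Matrix.Norms.Operator in
set_option backward.isDefEq.respectTransparency false in
theorem keyM {N m : ℕ} (hB : BOF N) (L : Fin m → Matrix (Fin N) (Fin N) ℂ →ₗ[ℝ] ℝ)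
    (Z w X : Fin m → Matrix (Fin N) (Fin N) ℂ) (ρ₀ : ℝ) (W₀ R₀ : Matrix (Fin N) (Fin N) ℂ)
    (inj : ∀ v : Fin m → ℝ, (∀ i, L i (bo ρ₀ W₀ ((∑ j, v j • X j) * (R₀ * Z i * R₀ᴴ) +
      (R₀ * Z i * R₀ᴴ) * (∑ j, v j • X j)ᴴ) * (R₀ * w i * R₀ᴴ) + bo ρ₀ W₀ (R₀ * Z i * R₀ᴴ) *
      ((∑ j, v j • X j) * (R₀ * w i * R₀ᴴ) + (R₀ * w i * R₀ᴴ) * (∑ j, v j • X j)ᴴ)) = 0) → v = 0) :
    ∃ c > 0, ∃ r > 0, ∃ S ∈ 𝓝 ((ρ₀, W₀, R₀) : ℝ × Matrix (Fin N) (Fin N) ℂ × Matrix (Fin N) (Fin N) ℂ),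
      ∀ z ∈ S, ∀ s s' : Fin m → ℝ, (∀ i, |s i| ≤ r) → (∀ i, |s' i| ≤ r) → c * ‖s - s'‖ ≤
        ‖(fun i => zm (L i) (Z i) (w i) z.1 z.2.1 z.2.2 (EX X s)) -
          fun i => zm (L i) (Z i) (w i) z.1 z.2.1 z.2.2 (EX X s')‖ := by
  let T : ℝ × Matrix (Fin N) (Fin N) ℂ → (Matrix (Fin N) (Fin N) ℂ →L[ℝ] Matrix (Fin N) (Fin N) ℂ) :=
    fun z => LinearMap.toContinuousLinearMap (bol hB z.1 z.2)
  have hT : Continuous T := tcont hB
  obtain ⟨c, hc, r, hr, h⟩ := key (LinearMap.toContinuousLinearMap (LIPS.ct N)) (by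
      change (1 : Matrix (Fin N) (Fin N) ℂ)ᴴ = 1
      exact Matrix.conjTranspose_one)
    (fun i => LinearMap.toContinuousLinearMap (L i)) Z w X (T (ρ₀, W₀)) R₀ inj
  refine ⟨c, hc, r, hr, {z | T (z.1, z.2.1) ∈ Metric.ball (T (ρ₀, W₀)) r ∧ z.2.2 ∈ Metric.ball R₀ r},
    Filter.inter_mem ?_ ?_, ?_⟩
  · have h1 : Continuous fun z : ℝ × Matrix (Fin N) (Fin N) ℂ × Matrix (Fin N) (Fin N) ℂ => T (z.1, z.2.1) :=
      hT.comp (continuous_fst.prodMk (continuous_fst.comp continuous_snd))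
    exact h1.continuousAt.preimage_mem_nhds (Metric.ball_mem_nhds _ hr)
  · have h1 : Continuous fun z : ℝ × Matrix (Fin N) (Fin N) ℂ × Matrix (Fin N) (Fin N) ℂ => z.2.2 :=
      continuous_snd.comp continuous_snd
    exact h1.continuousAt.preimage_mem_nhds (Metric.ball_mem_nhds _ hr)
  · intro z hz s s' hs hs'
    obtain ⟨hz1, hz2⟩ := hz
    rw [Metric.mem_ball, dist_eq_norm] at hz1 hz2
    exact h _ _ hz1 hz2 s s' hs hs'

/-- the derivative in the direction `U` -/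
def dd {N : ℕ} (T : Matrix (Fin N) (Fin N) ℂ → Matrix (Fin N) (Fin N) ℂ) (U Z w : Matrix (Fin N) (Fin N) ℂ) : ℂ :=
  ((T (U * Z - Z * U) - (U * T Z - T Z * U)) * wᴴ).trace

/-- `dd` is linear in `U` -/
def ddl {N : ℕ} (T : Matrix (Fin N) (Fin N) ℂ →ₗ[ℝ] Matrix (Fin N) (Fin N) ℂ) (Z w : Matrix (Fin N) (Fin N) ℂ) :
    Matrix (Fin N) (Fin N) ℂ →ₗ[ℝ] ℂ where
  toFun := fun U => dd T U Z w
  map_add' := by
    intro U V
    unfold dd
    rw [← Matrix.trace_add, ← Matrix.add_mul]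
    congr 2
    have h : (U + V) * Z - Z * (U + V) = (U * Z - Z * U) + (V * Z - Z * V) := by noncomm_ring
    rw [h, map_add]
    noncomm_ring
  map_smul' := by
    intro c U
    unfold dd
    rw [RingHom.id_apply, ← Matrix.trace_smul, ← Matrix.smul_mul]
    congr 2
    have h : (c • U) * Z - Z * (c • U) = c • (U * Z - Z * U) := by
      rw [smul_mul_assoc, mul_smul_comm, smul_sub]
    rw [h, map_smul, smul_mul_assoc, mul_smul_comm, ← smul_sub, ← smul_sub]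

/-- the conjugation rule of `bo` -/
theorem bcj {N : ℕ} (hB : BOF N) (ρ : ℝ) (W R V : Matrix (Fin N) (Fin N) ℂ) (h1 : Rᴴ * R = 1)
    (h2 : R * Rᴴ = 1) : bo ρ W (R * V * Rᴴ) = R * bo ρ (Rᴴ * W * R) V * Rᴴ := by
  rw [← hB.cnj ρ W V R h1 h2]
  calc bo ρ W (R * V * Rᴴ) = (R * Rᴴ) * bo ρ W (R * V * Rᴴ) * (R * Rᴴ) := by
        rw [h2, Matrix.one_mul, Matrix.mul_one]
    _ = _ := by simp only [Matrix.mul_assoc]

theorem conj_mul {N : ℕ} (R A B : Matrix (Fin N) (Fin N) ℂ) (h1 : Rᴴ * R = 1) :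
    (R * A * Rᴴ) * (R * B * Rᴴ) = R * (A * B) * Rᴴ := by
  calc (R * A * Rᴴ) * (R * B * Rᴴ) = R * A * (Rᴴ * R) * B * Rᴴ := by simp only [Matrix.mul_assoc]
    _ = _ := by rw [h1, Matrix.mul_one]; simp only [Matrix.mul_assoc]

theorem conj_tr {N : ℕ} (R A : Matrix (Fin N) (Fin N) ℂ) (h1 : Rᴴ * R = 1) :
    (R * A * Rᴴ).trace = A.trace := by
  rw [Matrix.trace_mul_comm, ← Matrix.mul_assoc, h1, Matrix.one_mul]

/-- the derivative as `dd` -/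
theorem dlin {N : ℕ} (hB : BOF N) (ρ : ℝ) (W R U Z w : Matrix (Fin N) (Fin N) ℂ) (h1 : Rᴴ * R = 1)
    (h2 : R * Rᴴ = 1) (hU : Uᴴ = -U) :
    (bo ρ W ((R * U * Rᴴ) * (R * Z * Rᴴ) + (R * Z * Rᴴ) * (R * U * Rᴴ)ᴴ) * (R * wᴴ * Rᴴ) +
      bo ρ W (R * Z * Rᴴ) * ((R * U * Rᴴ) * (R * wᴴ * Rᴴ) + (R * wᴴ * Rᴴ) * (R * U * Rᴴ)ᴴ)).trace =
    dd (bo ρ (Rᴴ * W * R)) U Z w := by
  have hY : (R * U * Rᴴ)ᴴ = R * (-U) * Rᴴ := by
    rw [Matrix.conjTranspose_mul, Matrix.conjTranspose_mul, Matrix.conjTranspose_conjTranspose, hU,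
      Matrix.mul_assoc]
  have e1 : (R * U * Rᴴ) * (R * Z * Rᴴ) + (R * Z * Rᴴ) * (R * U * Rᴴ)ᴴ = R * (U * Z - Z * U) * Rᴴ := by
    rw [hY, conj_mul R U Z h1, conj_mul R Z (-U) h1, ← Matrix.add_mul, ← Matrix.mul_add]
    congr 2
    noncomm_ring
  have e2 : (R * U * Rᴴ) * (R * wᴴ * Rᴴ) + (R * wᴴ * Rᴴ) * (R * U * Rᴴ)ᴴ = R * (U * wᴴ - wᴴ * U) * Rᴴ := by
    rw [hY, conj_mul R U wᴴ h1, conj_mul R wᴴ (-U) h1, ← Matrix.add_mul, ← Matrix.mul_add]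
    congr 2
    noncomm_ring
  rw [e1, e2, bcj hB ρ W R _ h1 h2, bcj hB ρ W R _ h1 h2, conj_mul _ _ _ h1, conj_mul _ _ _ h1,
    Matrix.trace_add, conj_tr _ _ h1, conj_tr _ _ h1]
  unfold dd
  generalize bo ρ (Rᴴ * W * R) (U * Z - Z * U) = P
  generalize bo ρ (Rᴴ * W * R) Z = Q
  have e3 : (Q * (U * wᴴ - wᴴ * U)).trace = ((Q * U - U * Q) * wᴴ).trace := by
    rw [Matrix.mul_sub, Matrix.trace_sub, Matrix.sub_mul, Matrix.trace_sub, ← Matrix.mul_assoc,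
      ← Matrix.mul_assoc, Matrix.trace_mul_comm (Q * wᴴ) U, ← Matrix.mul_assoc]
  rw [e3, ← Matrix.trace_add, ← Matrix.add_mul]
  congr 2
  abel

/-- the functional `Y ↦ Re (a tr Y)` -/
def Lt {N : ℕ} (a : ℂ) : Matrix (Fin N) (Fin N) ℂ →ₗ[ℝ] ℝ where
  toFun := fun Y => (a * Y.trace).re
  map_add' := by
    intro Y Y'
    rw [Matrix.trace_add, mul_add, Complex.add_re]
  map_smul' := by
    intro c Y
    have h : (c • Y).trace = (c : ℂ) * Y.trace := by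
      rw [Matrix.trace_smul]
      rfl
    rw [h, RingHom.id_apply, smul_eq_mul, ← mul_assoc, mul_comm a, mul_assoc, Complex.re_ofReal_mul]

theorem keyD {N m : ℕ} (hB : BOF N) (U Z w : Fin m → Matrix (Fin N) (Fin N) ℂ) (ρ₀ : ℝ)
    (W₀ R : Matrix (Fin N) (Fin N) ℂ) (h1 : Rᴴ * R = 1) (h2 : R * Rᴴ = 1) (hU : ∀ i, (U i)ᴴ = -U i)
    (off : ∀ i j, i ≠ j → dd (bo ρ₀ (Rᴴ * W₀ * R)) (U j) (Z i) (w i) = 0)
    (diag : ∀ i, dd (bo ρ₀ (Rᴴ * W₀ * R)) (U i) (Z i) (w i) ≠ 0) :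
    ∃ a : Fin m → ℂ, ∃ c > 0, ∃ r > 0,
      ∃ S ∈ 𝓝 ((ρ₀, W₀, R) : ℝ × Matrix (Fin N) (Fin N) ℂ × Matrix (Fin N) (Fin N) ℂ),
      ∀ z ∈ S, ∀ s s' : Fin m → ℝ, (∀ i, |s i| ≤ r) → (∀ i, |s' i| ≤ r) → c * ‖s - s'‖ ≤
        ‖(fun i => zm (Lt (a i)) (Z i) (w i)ᴴ z.1 z.2.1 z.2.2 (EX (fun i => R * U i * Rᴴ) s)) -
          fun i => zm (Lt (a i)) (Z i) (w i)ᴴ z.1 z.2.1 z.2.2 (EX (fun i => R * U i * Rᴴ) s')‖ := by
  refine ⟨fun i => conj (dd (bo ρ₀ (Rᴴ * W₀ * R)) (U i) (Z i) (w i)), ?_⟩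
  refine keyM hB (fun i => Lt (conj (dd (bo ρ₀ (Rᴴ * W₀ * R)) (U i) (Z i) (w i)))) Z (fun i => (w i)ᴴ)
    (fun i => R * U i * Rᴴ) ρ₀ W₀ R ?_
  intro v hv
  funext i
  have h3 := hv i
  have h4 : ∑ j, v j • (R * U j * Rᴴ) = R * (∑ j, v j • U j) * Rᴴ := by
    rw [Matrix.mul_sum, Matrix.sum_mul]
    refine Finset.sum_congr rfl fun j _ => ?_
    rw [mul_smul_comm, smul_mul_assoc]
  have h5 : (∑ j, v j • U j)ᴴ = -∑ j, v j • U j := by
    rw [Matrix.conjTranspose_sum, ← Finset.sum_neg_distrib]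
    refine Finset.sum_congr rfl fun j _ => ?_
    rw [Matrix.conjTranspose_smul, hU, smul_neg]
    simp
  rw [h4] at h3
  change (conj (dd (bo ρ₀ (Rᴴ * W₀ * R)) (U i) (Z i) (w i)) * _).re = 0 at h3
  rw [dlin hB ρ₀ W₀ R _ (Z i) (w i) h1 h2 h5] at h3
  have h6 : dd (bo ρ₀ (Rᴴ * W₀ * R)) (∑ j, v j • U j) (Z i) (w i) =
      ((v i : ℝ) : ℂ) * dd (bo ρ₀ (Rᴴ * W₀ * R)) (U i) (Z i) (w i) := by
    have h7 : ∀ U, dd (bo ρ₀ (Rᴴ * W₀ * R)) U (Z i) (w i) =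
        ddl (bol hB ρ₀ (Rᴴ * W₀ * R)) (Z i) (w i) U := fun U => rfl
    rw [h7, map_sum, Finset.sum_eq_single i]
    · rw [map_smul, ← h7]
      rfl
    · intro j _ hj
      rw [map_smul, ← h7, off i j (Ne.symm hj), smul_zero]
    · intro hi
      exact absurd (Finset.mem_univ i) hi
  rw [h6, mul_left_comm, Complex.re_ofReal_mul] at h3
  have h8 : (conj (dd (bo ρ₀ (Rᴴ * W₀ * R)) (U i) (Z i) (w i)) *
      dd (bo ρ₀ (Rᴴ * W₀ * R)) (U i) (Z i) (w i)).re ≠ 0 := by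
    rw [mul_comm, Complex.mul_conj, Complex.ofReal_re]
    exact (Complex.normSq_pos.2 (diag i)).ne'
  exact (mul_eq_zero.1 h3).resolve_right h8

theorem eprod_coe {N m : ℕ} {K : Subgroup (SU N)} (X : Fin m → Matrix (Fin N) (Fin N) ℂ)
    (hX : ∀ i, X i ∈ lie K) (s : Fin m → ℝ) : (eprod K X s).1.1 = EX X s := by
  rw [eprod, LIPS.coe_list, List.ofFn_eq_map, List.map_map, EX]
  congr 1
  refine List.map_congr_left fun i _ => ?_
  exact LIPS.exH_coe (hX i) (s i)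

/-- the function at a point -/
def za {N : ℕ} (L : Matrix (Fin N) (Fin N) ℂ →ₗ[ℝ] ℝ) (Z w : Matrix (Fin N) (Fin N) ℂ) (ρ : ℝ)
    (W R : Matrix (Fin N) (Fin N) ℂ) : ℝ :=
  L (bo ρ W (R * Z * Rᴴ) * (R * w * Rᴴ))

theorem za_mul {N : ℕ} (L : Matrix (Fin N) (Fin N) ℂ →ₗ[ℝ] ℝ) (Z w : Matrix (Fin N) (Fin N) ℂ) (ρ : ℝ)
    (W R E : Matrix (Fin N) (Fin N) ℂ) : za L Z w ρ W (E * R) = zm L Z w ρ W R E := by
  have h : ∀ V : Matrix (Fin N) (Fin N) ℂ, (E * R) * V * (E * R)ᴴ = E * (R * V * Rᴴ) * Eᴴ := by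
    intro V
    rw [Matrix.conjTranspose_mul]
    simp only [Matrix.mul_assoc]
  unfold za zm
  rw [h, h]

/-- the complex linear map -/
def FL {N : ℕ} (hB : BOF N) (ρ : ℝ) (W R : Matrix (Fin N) (Fin N) ℂ) :
    Matrix (Fin N) (Fin N) ℂ →ₗ[ℂ] Matrix (Fin N) (Fin N) ℂ where
  toFun := fun V => Rᴴ * bo ρ W (R * V * Rᴴ) * R
  map_add' := by
    intro V V'
    rw [← Matrix.add_mul, ← Matrix.mul_add, ← hB.add, ← Matrix.add_mul, ← Matrix.mul_add]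
  map_smul' := by
    intro c V
    rw [RingHom.id_apply, mul_smul_comm, smul_mul_assoc, hB.smul, mul_smul_comm, smul_mul_assoc]

theorem tr_sum {N : ℕ} (P w : Matrix (Fin N) (Fin N) ℂ) :
    (P * wᴴ).trace = ∑ i, ∑ j, P i j * conj (w i j) := by
  rw [Matrix.trace]
  refine Finset.sum_congr rfl fun i _ => ?_
  rw [Matrix.diag_apply, Matrix.mul_apply]
  rfl

/-- the bound by Cauchy-Schwarz -/
theorem bdl {N n : ℕ} (e : Fin n → Matrix (Fin N) (Fin N) ℂ) (Z w : Matrix (Fin N) (Fin N) ℂ)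
    (z : Fin n → ℂ) (hZ : Z = ∑ k, z k • e k) (hw : ∀ k, (e k * wᴴ).trace = 0) :
    ∃ C : ℝ, 0 ≤ C ∧ ∀ F : Matrix (Fin N) (Fin N) ℂ →ₗ[ℂ] Matrix (Fin N) (Fin N) ℂ,
      ‖(F Z * wᴴ).trace‖ ^ 2 ≤ C * ns e F := by
  refine ⟨∑ x : Fin n × Fin N × Fin N, (‖z x.1‖ * ‖w x.2.1 x.2.2‖) ^ 2, by positivity, fun F => ?_⟩
  have h1 : (F Z * wᴴ).trace = ∑ k, z k * (th e F k * wᴴ).trace := by
    rw [hZ, map_sum, Matrix.sum_mul, Matrix.trace_sum]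
    refine Finset.sum_congr rfl fun k _ => ?_
    rw [map_smul, Matrix.smul_mul, Matrix.trace_smul, smul_eq_mul]
    congr 1
    unfold th
    rw [Matrix.sub_mul, Matrix.trace_sub, Matrix.sum_mul, Matrix.trace_sum]
    have h2 : ∑ j, (((F (e k) * (e j)ᴴ).trace • e j) * wᴴ).trace = 0 := by
      refine Finset.sum_eq_zero fun j _ => ?_
      rw [Matrix.smul_mul, Matrix.trace_smul, hw, smul_zero]
    rw [h2, sub_zero]
  have h2 : ‖(F Z * wᴴ).trace‖ ≤ ∑ x : Fin n × Fin N × Fin N,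
      (‖z x.1‖ * ‖w x.2.1 x.2.2‖) * ‖th e F x.1 x.2.1 x.2.2‖ := by
    rw [h1, Fintype.sum_prod_type]
    refine (norm_sum_le _ _).trans (Finset.sum_le_sum fun k _ => ?_)
    rw [norm_mul, tr_sum, Fintype.sum_prod_type]
    refine (mul_le_mul_of_nonneg_left (norm_sum_le _ _) (norm_nonneg _)).trans ?_
    rw [Finset.mul_sum]
    refine Finset.sum_le_sum fun i _ => ?_
    refine (mul_le_mul_of_nonneg_left (norm_sum_le _ _) (norm_nonneg _)).trans ?_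
    rw [Finset.mul_sum]
    refine Finset.sum_le_sum fun j _ => ?_
    rw [norm_mul, RCLike.norm_conj]
    apply le_of_eq
    ring
  have h3 : ns e F = ∑ x : Fin n × Fin N × Fin N, ‖th e F x.1 x.2.1 x.2.2‖ ^ 2 := by
    rw [Fintype.sum_prod_type]
    unfold ns
    refine Finset.sum_congr rfl fun k _ => ?_
    rw [Fintype.sum_prod_type]
  have h4 : 0 ≤ ‖(F Z * wᴴ).trace‖ := norm_nonneg _
  calc ‖(F Z * wᴴ).trace‖ ^ 2 ≤ (∑ x : Fin n × Fin N × Fin N,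
      (‖z x.1‖ * ‖w x.2.1 x.2.2‖) * ‖th e F x.1 x.2.1 x.2.2‖) ^ 2 := by gcongr
    _ ≤ _ := by
      rw [h3]
      exact Finset.sum_mul_sq_le_sq_mul_sq _ _ _

theorem za_le {N n : ℕ} (hB : BOF N) (e : Fin n → Matrix (Fin N) (Fin N) ℂ) (Z w : Matrix (Fin N) (Fin N) ℂ)
    (a : ℂ) (C : ℝ) (h : ∀ F : Matrix (Fin N) (Fin N) ℂ →ₗ[ℂ] Matrix (Fin N) (Fin N) ℂ,
      ‖(F Z * wᴴ).trace‖ ^ 2 ≤ C * ns e F) (ρ : ℝ) (W R : Matrix (Fin N) (Fin N) ℂ) :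
    za (Lt a) Z wᴴ ρ W R ^ 2 ≤ (‖a‖ ^ 2 * C) * ns e (FL hB ρ W R) := by
  have h1 : za (Lt a) Z wᴴ ρ W R = (a * (FL hB ρ W R Z * wᴴ).trace).re := by
    change (a * (bo ρ W (R * Z * Rᴴ) * (R * wᴴ * Rᴴ)).trace).re = _
    congr 2
    change _ = (Rᴴ * bo ρ W (R * Z * Rᴴ) * R * wᴴ).trace
    rw [← Matrix.mul_assoc, Matrix.trace_mul_comm, ← Matrix.mul_assoc, ← Matrix.mul_assoc]
  have h2 := h (FL hB ρ W R)
  have h3 : |za (Lt a) Z wᴴ ρ W R| ≤ ‖a‖ * ‖(FL hB ρ W R Z * wᴴ).trace‖ := by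
    rw [h1, ← norm_mul]
    exact Complex.abs_re_le_norm _
  have h4 : za (Lt a) Z wᴴ ρ W R ^ 2 ≤ (‖a‖ * ‖(FL hB ρ W R Z * wᴴ).trace‖) ^ 2 := by
    rw [← sq_abs]
    gcongr
  refine h4.trans ?_
  rw [mul_pow, mul_assoc]
  gcongr

theorem cont_F {N : ℕ} (hB : BOF N) {Y : Type*} [TopologicalSpace Y] (ρ : Y → ℝ)
    (W V : Y → Matrix (Fin N) (Fin N) ℂ) (hρ : Continuous ρ) (hW : Continuous W) (hV : Continuous V) :
    Continuous fun y => bo (ρ y) (W y) (V y) := by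
  have h1 : Continuous fun y => (ρ y, W y, V y) := hρ.prodMk (hW.prodMk hV)
  have h2 := hB.cont
  exact Continuous.comp (f := fun y => (ρ y, W y, V y))
    (g := fun z : ℝ × Matrix (Fin N) (Fin N) ℂ × Matrix (Fin N) (Fin N) ℂ => bo z.1 z.2.1 z.2.2) h2 h1

theorem cont_ns {N n : ℕ} (hB : BOF N) {Y : Type*} [TopologicalSpace Y] (e : Fin n → Matrix (Fin N) (Fin N) ℂ)
    (ρ : Y → ℝ) (W R : Y → Matrix (Fin N) (Fin N) ℂ) (hρ : Continuous ρ) (hW : Continuous W)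
    (hR : Continuous R) : Continuous fun y => ns e (FL hB (ρ y) (W y) (R y)) := by
  have h1 : ∀ k, Continuous fun y => FL hB (ρ y) (W y) (R y) (e k) := by
    intro k
    have h2 : Continuous fun y => bo (ρ y) (W y) (R y * e k * (R y)ᴴ) :=
      cont_F hB ρ W (fun y => R y * e k * (R y)ᴴ) hρ hW
        ((hR.matrix_mul continuous_const).matrix_mul hR.matrix_conjTranspose)
    exact (hR.matrix_conjTranspose.matrix_mul h2).matrix_mul hR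
  have h2 : ∀ k, Continuous fun y => th e (FL hB (ρ y) (W y) (R y)) k := by
    intro k
    refine (h1 k).sub (continuous_finsetSum _ fun j _ => ?_)
    exact (((h1 k).matrix_mul continuous_const).matrix_trace).smul continuous_const
  refine continuous_finsetSum _ fun k _ => continuous_finsetSum _ fun i _ =>
    continuous_finsetSum _ fun j _ => ?_
  exact (((h2 k).matrix_elem i j).norm).pow 2

theorem cont_za {N : ℕ} (hB : BOF N) {Y : Type*} [TopologicalSpace Y] (a : ℂ)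
    (Z w : Matrix (Fin N) (Fin N) ℂ) (ρ : Y → ℝ) (W R : Y → Matrix (Fin N) (Fin N) ℂ) (hρ : Continuous ρ)
    (hW : Continuous W) (hR : Continuous R) : Continuous fun y => za (Lt a) Z w (ρ y) (W y) (R y) := by
  have h2 : Continuous fun y => bo (ρ y) (W y) (R y * Z * (R y)ᴴ) :=
    cont_F hB ρ W (fun y => R y * Z * (R y)ᴴ) hρ hW
      ((hR.matrix_mul continuous_const).matrix_mul hR.matrix_conjTranspose)
  have h3 : Continuous fun y => bo (ρ y) (W y) (R y * Z * (R y)ᴴ) * (R y * w * (R y)ᴴ) :=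
    h2.matrix_mul ((hR.matrix_mul continuous_const).matrix_mul hR.matrix_conjTranspose)
  exact Complex.continuous_re.comp (continuous_const.mul h3.matrix_trace)

theorem ddA {N : ℕ} (hB : BOF N) (ρ : ℝ) (X T U Z w : Matrix (Fin N) (Fin N) ℂ)
    (h : NormedSpace.exp ((ρ : ℂ) • X) = NormedSpace.exp T) :
    (ρ : ℂ) * dd (bo ρ X) U Z w = ((NormedSpace.exp T * (U * Z - Z * U) * NormedSpace.exp (-T) -
      (U * (NormedSpace.exp T * Z * NormedSpace.exp (-T)) -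
        (NormedSpace.exp T * Z * NormedSpace.exp (-T)) * U)) * wᴴ).trace := by
  have h' : NormedSpace.exp (-((ρ : ℂ) • X)) = NormedSpace.exp (-T) := by
    rw [Matrix.exp_neg, h, ← Matrix.exp_neg]
  have h1 : ∀ V, (ρ : ℂ) • bo ρ X V = NormedSpace.exp T * V * NormedSpace.exp (-T) - V := by
    intro V
    rw [hB.eq, h, h']
  unfold dd
  rw [← smul_eq_mul, ← Matrix.trace_smul, ← Matrix.smul_mul, smul_sub, smul_sub, ← mul_smul_comm,
    ← smul_mul_assoc, h1, h1]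
  congr 2
  noncomm_ring

theorem ddB {N : ℕ} (hB : BOF N) (X U Z w : Matrix (Fin N) (Fin N) ℂ) :
    dd (bo 0 X) U Z w = ((X * (U * Z - Z * U) - (U * Z - Z * U) * X -
      (U * (X * Z - Z * X) - (X * Z - Z * X) * U)) * wᴴ).trace := by
  unfold dd
  rw [hB.zero, hB.zero]

theorem coe_mulH {N : ℕ} {H : Subgroup (SU N)} (a b : H) : (a * b).1.1 = a.1.1 * b.1.1 := rfl

theorem exp_conj' {N : ℕ} (W k : Matrix (Fin N) (Fin N) ℂ) (h1 : kᴴ * k = 1) (h2 : k * kᴴ = 1) :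
    NormedSpace.exp (kᴴ * W * k) = kᴴ * NormedSpace.exp W * k := by
  have h3 : (kᴴ * W * k) * kᴴ = kᴴ * W := by
    rw [Matrix.mul_assoc, h2, Matrix.mul_one]
  have h4 := TAUF.exp_semi h3
  rw [← h4, Matrix.mul_assoc (NormedSpace.exp (kᴴ * W * k)), h1, Matrix.mul_one]

theorem th_zero {N n : ℕ} (e : Fin n → Matrix (Fin N) (Fin N) ℂ)
    (he : ∀ j k, (e j * (e k)ᴴ).trace = if j = k then 1 else 0)
    (G : Matrix (Fin N) (Fin N) ℂ → Matrix (Fin N) (Fin N) ℂ) (k : Fin n) (b : Fin n → ℂ)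
    (h : G (e k) = ∑ j, b j • e j) : th e G k = 0 := by
  unfold th
  rw [h]
  have h1 : ∀ j, ((∑ i, b i • e i) * (e j)ᴴ).trace = b j := by
    intro j
    rw [Matrix.sum_mul, Matrix.trace_sum, Finset.sum_eq_single j]
    · rw [Matrix.smul_mul, Matrix.trace_smul, he, if_pos rfl, smul_eq_mul, mul_one]
    · intro i _ hi
      rw [Matrix.smul_mul, Matrix.trace_smul, he, if_neg hi, smul_zero]
    · intro hj
      exact absurd (Finset.mem_univ j) hj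
  simp only [h1]
  exact sub_self _

theorem ns_zero' {N n : ℕ} (e : Fin n → Matrix (Fin N) (Fin N) ℂ)
    (he : ∀ j k, (e j * (e k)ᴴ).trace = if j = k then 1 else 0)
    (F G : Matrix (Fin N) (Fin N) ℂ → Matrix (Fin N) (Fin N) ℂ) (ρ : ℂ)
    (hFG : ∀ V, G V = ρ • F V + V) (h : ns e F = 0) : ns e G = 0 := by
  unfold ns
  refine Finset.sum_eq_zero fun k _ => ?_
  have h1 := COMQ.ns_zero e F h k
  have h2 : th e G k = 0 := by
    refine th_zero e he G k (fun j => ρ * (F (e k) * (e j)ᴴ).trace + if j = k then 1 else 0) ?_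
    rw [hFG]
    simp only [add_smul, Finset.sum_add_distrib, mul_smul, ite_smul, one_smul, zero_smul]
    rw [← Finset.smul_sum, ← h1]
    simp
  rw [h2]
  simp

theorem ns_nonneg {N n : ℕ} (e : Fin n → Matrix (Fin N) (Fin N) ℂ)
    (F : Matrix (Fin N) (Fin N) ℂ → Matrix (Fin N) (Fin N) ℂ) : 0 ≤ ns e F := by
  unfold ns
  positivity

theorem exg {r : ℕ} (f : Fin r → ℝ) (hf : ∀ i, 0 < f i) : ∃ g > 0, ∀ i, g < f i := by
  rcases isEmpty_or_nonempty (Fin r) with h | h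
  · exact ⟨1, one_pos, fun i => (h.false i).elim⟩
  · obtain ⟨i₀, h0⟩ := Finite.exists_min f
    refine ⟨f i₀ / 2, half_pos (hf i₀), fun i => ?_⟩
    have := h0 i
    have := hf i₀
    linarith

theorem csm {N : ℕ} (c : ℝ) (M : Matrix (Fin N) (Fin N) ℂ) : c • M = (c : ℂ) • M := rfl

end LROW

open LROW in
theorem t_LROW : M_LROW := by
  classical
  intro _ hLIEB hWFAC hTAUF hTAUS hSPAN hSNIL hLEVC hBOPQ hCOMQ hKDIR hROWS N H K σ τ A l Φ B Hc E x₀ θ r s ε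
    hSD D hD c hc z₀
  have hL : LRD H Φ B Hc E := hSD.sr.lrd
  have hF : TAF H Φ Hc E := hTAUF N H l Φ B Hc E hSD.closed hL
  have hW : WFF Φ B := hWFAC l Φ B hL.ird
  have hB : BOF N := hBOPQ N
  have fH : LIF H := hLIEB N H hSD.closed
  have fK : LIF K := hLIEB N K hSD.sym.closed
  have TS : TSF H σ τ := hTAUS N H K σ τ hSD.closed hSD.simple hSD.sym
  have hPA : ∀ p ∈ PA Φ x₀, p ∈ Φ := by
    intro p hp
    exact (hW.ppos p (Finset.mem_filter.1 hp).1).1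
  obtain ⟨⟨⟨ρ₀, ω₀⟩, hρ, hω, hA, hDm⟩, k₀⟩ := z₀
  simp only at hρ hω hA hDm
  have hk1 : k₀.1.1ᴴ * k₀.1.1 = 1 := LIEB.ct_mul _
  have hk2 : k₀.1.1 * k₀.1.1ᴴ = 1 := LIEB.mul_ct _
  have hkH : k₀.1 ∈ H := hSD.sym.sub k₀.2
  have hN := fun j => (hSNIL N H K σ τ A l Φ B Hc E x₀ θ r s ε hSD j).1.nil
  have hut : ∀ (j : Fin r) (z : ℝ × (Fin l → ℝ)) (k : Matrix (Fin N) (Fin N) ℂ),
      ut Hc (eb E (pe Φ (ε j))) z k = ns (eb E (pe Φ (ε j))) (FL hB z.1 (hx Hc z.2) k) := fun _ _ _ => rfl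
  have hut' : ∀ (j : Fin r) (z : ℝ × (Fin l → ℝ)) (k : Matrix (Fin N) (Fin N) ℂ), kᴴ * k = 1 → k * kᴴ = 1 →
      ut Hc (eb E (pe Φ (ε j))) z k = ns (eb E (pe Φ (ε j))) (bo z.1 (kᴴ * hx Hc z.2 * k)) := by
    intro j z k h1 h2
    unfold ut
    congr 1
    funext V
    exact hB.cnj _ _ _ _ h1 h2
  set J : Finset (Fin r) := Finset.univ.filter fun j => ut Hc (eb E (pe Φ (ε j))) (ρ₀, ω₀) k₀.1.1 = 0 with hJ
  have hJ0 : ∀ j ∈ J, ns (eb E (pe Φ (ε j))) (bo ρ₀ (k₀.1.1ᴴ * hx Hc ω₀ * k₀.1.1)) = 0 := by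
    intro j hj
    rw [hJ, Finset.mem_filter] at hj
    rw [← hut' j (ρ₀, ω₀) k₀.1.1 hk1 hk2]
    exact hj.2
  have hst : ∀ x, (hx Hc x)ᴴ = -hx Hc x := fun x => ROWS.hx_star hL x
  obtain ⟨k₂, hk₂K, hk₂c, q, hqP, hli, hoff, hdiag⟩ : ∃ k₂ ∈ K,
      (∀ j ∈ J, k₂.1 * db E (pe Φ (ε j)) = db E (pe Φ (ε j)) * k₂.1) ∧
      ∃ q : Fin r → (Fin l → ℤ) × (Fin l → ℤ), (∀ i, q i ∈ PA Φ x₀) ∧
      (∀ d : Fin r → ℝ, (∀ y, hx Hc y ∈ A → ∑ i, d i * dz (q i).1 y = 0) → d = 0) ∧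
      (∀ (j i i' : Fin r) (Z Z' w : Matrix (Fin N) (Fin N) ℂ), ZP A Φ Hc E x₀ ε (q i) Z →
        ZP A Φ Hc E x₀ ε (q i') Z' → 0 < (q i).2 ⬝ᵥ ε j → Z ≠ 0 → w = Zᴴ * Z - Z * Zᴴ →
        (∃ y, hx Hc y ∈ A ∧ dz (q i).1 y ≠ dz (q i').1 y) →
        dd (bo ρ₀ ((k₀.1.1 * k₂.1)ᴴ * hx Hc ω₀ * (k₀.1.1 * k₂.1))) (Z' - Z'ᴴ) Z w = 0) ∧
      (∀ (j i : Fin r) (Z w : Matrix (Fin N) (Fin N) ℂ), ZP A Φ Hc E x₀ ε (q i) Z →
        0 < (q i).2 ⬝ᵥ ε j → Z ≠ 0 → w = Zᴴ * Z - Z * Zᴴ →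
        dd (bo ρ₀ ((k₀.1.1 * k₂.1)ᴴ * hx Hc ω₀ * (k₀.1.1 * k₂.1))) (Z - Zᴴ) Z w ≠ 0) := by
    have hww : ∀ w : Matrix (Fin N) (Fin N) ℂ, w ≠ 0 → (w * wᴴ).trace ≠ 0 := by
      intro w hw h
      have h1 := (TAUF.tr_pos hw).1
      rw [h] at h1
      simp at h1
    rcases hρ.eq_or_lt with h0 | h0
    · -- the case `ρ₀ = 0`
      subst h0
      set X₁ : Matrix (Fin N) (Fin N) ℂ := k₀.1.1ᴴ * hx Hc ω₀ * k₀.1.1 with hX₁
      have hinv : (k₀.1⁻¹).1 = k₀.1.1ᴴ := LIEB.coe_inv _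
      have hX₁H : X₁ ∈ lie H := by
        have h := fH.ad _ (H.inv_mem hkH) (hx Hc ω₀) (hF.hmem ω₀)
        rw [hinv, Matrix.conjTranspose_conjTranspose] at h
        exact h
      have hX₁τ : τ X₁ = -X₁ := by
        have h := TS.Ad ⟨k₀.1⁻¹, H.inv_mem hkH⟩ (hx Hc ω₀) (hF.hmem ω₀)
        rw [hSD.sym.fix ⟨k₀.1⁻¹, H.inv_mem hkH⟩ (K.inv_mem k₀.2), hSD.maxab.anti _ hA] at h
        simp only at h
        rw [hinv, Matrix.conjTranspose_conjTranspose] at h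
        rw [hX₁, h]
        simp only [Matrix.mul_neg, Matrix.neg_mul]
      have hcom : ∀ j ∈ J, X₁ * db E (pe Φ (ε j)) = db E (pe Φ (ε j)) * X₁ := by
        intro j hj
        have h := hJ0 j hj
        have h1 : (bo 0 X₁ : Matrix (Fin N) (Fin N) ℂ → Matrix (Fin N) (Fin N) ℂ) = fun V => X₁ * V - V * X₁ := by
          funext V
          exact hB.zero X₁ V
        rw [h1] at h
        exact (hCOMQ N H _ _ _ hSD.closed (hN j)).2.1 X₁ hX₁H h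
      obtain ⟨k₂, hk₂K, hk₂c, hk₂A⟩ :=
        (hLEVC N H K σ τ A l Φ B Hc E x₀ θ r s ε hSD J).2 X₁ hX₁H hX₁τ hcom
      obtain ⟨x₁, hx₁⟩ := hSD.sr.sub _ hk₂A
      have hR : (k₀.1.1 * k₂.1)ᴴ * hx Hc ω₀ * (k₀.1.1 * k₂.1) = hx Hc x₁ := by
        rw [← hx₁, hX₁, Matrix.conjTranspose_mul]
        simp only [Matrix.mul_assoc]
      have hx₁A : hx Hc x₁ ∈ A := by rw [← hx₁]; exact hk₂A
      have hne : ∃ p ∈ Φ, dz p.1 x₁ ≠ 0 := by
        by_contra hcon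
        push Not at hcon
        have hx0 : x₁ = 0 := by
          obtain ⟨p₀, hp₀⟩ : ∃ p₀, p₀ ∈ Φ := ⟨_, hL.ird.base ⟨0, hSD.l1⟩⟩
          exact SPAN.eq_zero hL.ird (S := fun _ => True) ⟨p₀, hp₀, trivial⟩ (fun _ _ _ _ _ h => absurd trivial h)
            (fun p hp _ => hcon p hp)
        have hR0 : hx Hc x₁ = 0 := by
          rw [hx0]
          unfold hx
          simp
        rw [hR0] at hR
        have k1 : k₂.1ᴴ * k₂.1 = 1 := LIEB.ct_mul _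
        have k2 : k₂.1 * k₂.1ᴴ = 1 := LIEB.mul_ct _
        have h5 : hx Hc ω₀ = 0 := by
          calc hx Hc ω₀ = (k₀.1.1 * (k₂.1 * k₂.1ᴴ) * k₀.1.1ᴴ) * hx Hc ω₀ * (k₀.1.1 * (k₂.1 * k₂.1ᴴ) * k₀.1.1ᴴ) := by
                rw [k2, Matrix.mul_one, hk2, Matrix.one_mul, Matrix.mul_one]
            _ = (k₀.1.1 * k₂.1) * ((k₀.1.1 * k₂.1)ᴴ * hx Hc ω₀ * (k₀.1.1 * k₂.1)) * (k₀.1.1 * k₂.1)ᴴ := by
                rw [Matrix.conjTranspose_mul]
                simp only [Matrix.mul_assoc]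
            _ = 0 := by rw [hR, Matrix.mul_zero, Matrix.zero_mul]
        have h6 : ω₀ = 0 := by
          refine SPAN.hx_inj hL.lin ?_
          rw [h5]
          unfold hx
          simp
        rw [h6, norm_zero] at hω
        exact zero_ne_one hω
      obtain ⟨q, hq, hli⟩ := (hSPAN N H K σ τ A l Φ B Hc E x₀ θ r s ε hSD x₁ hx₁A).2 hne
      refine ⟨k₂, hk₂K, hk₂c, q, fun i => (hq i).1, hli, ?_, ?_⟩
      · intro j i i' Z Z' w hZ hZ' hp hZ0 hw hy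
        rw [hR, ddB hB]
        exact ((hROWS N H K σ τ A l Φ B Hc E x₀ θ r s ε hSD j (q i) (q i') Z Z' w hZ hZ' hp hZ0 hw).2 x₁ hx₁A).2.1 hy
      · intro j i Z w hZ hp hZ0 hw
        obtain ⟨⟨hw0, -, -⟩, h⟩ := hROWS N H K σ τ A l Φ B Hc E x₀ θ r s ε hSD j (q i) (q i) Z Z w hZ hZ hp hZ0 hw
        rw [hR, ddB hB, (h x₁ hx₁A).2.2]
        refine mul_ne_zero (mul_ne_zero (Complex.ofReal_ne_zero.2 (hq i).2) Complex.I_ne_zero) (hww w hw0)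
    · -- the case `ρ₀ > 0`
      have hWl : hx Hc ω₀ ∈ lie H := hF.hmem ω₀
      have hτ : τ (hx Hc ω₀) = -hx Hc ω₀ := hSD.maxab.anti _ hA
      have hnl : -hx Hc ω₀ ∈ lie H := by
        have := fH.smul (-1) _ hWl
        simpa using this
      set X₁ : Matrix (Fin N) (Fin N) ℂ := k₀.1.1ᴴ * hx Hc ω₀ * k₀.1.1 with hX₁
      let g : H := exH H (hx Hc ω₀) (ρ₀ / 2) * ⟨k₀.1, hkH⟩
      have hyy : yy σ g = k₀.1.1ᴴ * NormedSpace.exp ((ρ₀ : ℂ) • hx Hc ω₀) * k₀.1.1 := by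
        have e1 : (σ g).1.1 = NormedSpace.exp ((ρ₀ / 2) • (-hx Hc ω₀)) * k₀.1.1 := by
          change (σ (exH H (hx Hc ω₀) (ρ₀ / 2) * ⟨k₀.1, hkH⟩)).1.1 = _
          rw [map_mul, hSD.sym.dif _ hWl, hτ, hSD.sym.fix ⟨k₀.1, hkH⟩ k₀.2, coe_mulH, LIPS.exH_coe hnl]
        have e2 : g.1.1 = NormedSpace.exp ((ρ₀ / 2) • (hx Hc ω₀)) * k₀.1.1 := by
          change (exH H (hx Hc ω₀) (ρ₀ / 2) * ⟨k₀.1, hkH⟩ : H).1.1 = _
          rw [coe_mulH, LIPS.exH_coe hWl]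
        have e3 : (NormedSpace.exp ((ρ₀ / 2) • (-hx Hc ω₀)))ᴴ = NormedSpace.exp ((ρ₀ / 2) • (hx Hc ω₀)) := by
          rw [← Matrix.exp_conjTranspose, Matrix.conjTranspose_smul, Matrix.conjTranspose_neg, hst]
          simp
        have e4 : NormedSpace.exp ((ρ₀ / 2) • (hx Hc ω₀)) * NormedSpace.exp ((ρ₀ / 2) • (hx Hc ω₀)) =
            NormedSpace.exp ((ρ₀ : ℂ) • hx Hc ω₀) := by
          rw [← Matrix.exp_add_of_commute _ _ (Commute.refl _), ← add_smul, add_halves]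
          rfl
        unfold yy
        rw [e1, e2, Matrix.conjTranspose_mul, e3, ← e4]
        simp only [Matrix.mul_assoc]
      have hsm : ∀ R : Matrix (Fin N) (Fin N) ℂ, (ρ₀ : ℂ) • (Rᴴ * hx Hc ω₀ * R) = Rᴴ * ((ρ₀ : ℂ) • hx Hc ω₀) * R := by
        intro R
        rw [mul_smul_comm, smul_mul_assoc]
      have hexp1 : NormedSpace.exp ((ρ₀ : ℂ) • X₁) = yy σ g := by
        rw [hX₁, hsm, exp_conj' _ _ hk1 hk2, hyy]
      have hinvH : ((σ g)⁻¹ * g : H).1.1 = yy σ g := by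
        rw [coe_mulH]
        unfold yy
        congr 1
      have hyyct : (yy σ g)ᴴ = NormedSpace.exp (-((ρ₀ : ℂ) • X₁)) := by
        rw [← hexp1, ← Matrix.exp_conjTranspose]
        congr 1
        rw [hX₁, Matrix.conjTranspose_smul, Matrix.conjTranspose_mul, Matrix.conjTranspose_mul,
          Matrix.conjTranspose_conjTranspose, hst]
        simp only [Matrix.neg_mul, Matrix.mul_neg, smul_neg, Matrix.mul_assoc]
        simp
      have hcom : ∀ j ∈ J, yy σ g * db E (pe Φ (ε j)) = db E (pe Φ (ε j)) * yy σ g := by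
        intro j hj
        have h := hJ0 j hj
        have h1 : ns (eb E (pe Φ (ε j))) (fun V => ((σ g)⁻¹ * g : H).1.1 * V * ((σ g)⁻¹ * g : H).1.1ᴴ) = 0 := by
          refine ns_zero' _ (hN j).orth _ _ (ρ₀ : ℂ) ?_ h
          intro V
          rw [hinvH, hB.eq, hyyct, hexp1]
          abel
        have h2 := (hCOMQ N H _ _ _ hSD.closed (hN j)).1 ((σ g)⁻¹ * g : H).1 ((σ g)⁻¹ * g : H).2 h1
        rw [hinvH] at h2
        exact h2
      obtain ⟨k₂, hk₂K, hk₂c, x₁, hx₁A, hk₂e⟩ :=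
        (hLEVC N H K σ τ A l Φ B Hc E x₀ θ r s ε hSD J).1 g hcom
      have k1 : k₂.1ᴴ * k₂.1 = 1 := LIEB.ct_mul _
      have k2 : k₂.1 * k₂.1ᴴ = 1 := LIEB.mul_ct _
      have hk₂H : k₂ ∈ H := hSD.sym.sub hk₂K
      have hR1 : (k₀.1.1 * k₂.1)ᴴ * (k₀.1.1 * k₂.1) = 1 := by
        rw [Matrix.conjTranspose_mul, ← Matrix.mul_assoc, Matrix.mul_assoc k₂.1ᴴ, hk1, Matrix.mul_one, k1]
      have hR2 : (k₀.1.1 * k₂.1) * (k₀.1.1 * k₂.1)ᴴ = 1 := by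
        rw [Matrix.conjTranspose_mul, ← Matrix.mul_assoc, Matrix.mul_assoc k₀.1.1, k2, Matrix.mul_one, hk2]
      have hR : NormedSpace.exp ((ρ₀ : ℂ) • ((k₀.1.1 * k₂.1)ᴴ * hx Hc ω₀ * (k₀.1.1 * k₂.1))) =
          NormedSpace.exp (hx Hc x₁) := by
        rw [hsm, exp_conj' _ _ hR1 hR2, ← hk₂e, hyy, Matrix.conjTranspose_mul]
        simp only [Matrix.mul_assoc]
      have hne : ∃ p ∈ Φ, Complex.exp (dz p.1 x₁ * Complex.I) ≠ 1 := by
        by_contra hcon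
        push Not at hcon
        have hT : NormedSpace.exp (-hx Hc x₁) * NormedSpace.exp (hx Hc x₁) = 1 := ROWS.exp_neg_mul _
        have hcE : ∀ p ∈ Φ, NormedSpace.exp (hx Hc x₁) * E p = E p * NormedSpace.exp (hx Hc x₁) := by
          intro p hp
          have h := ROWS.expE (ROWS.adE hF hp x₁)
          rw [hcon p hp, one_smul] at h
          calc NormedSpace.exp (hx Hc x₁) * E p =
              NormedSpace.exp (hx Hc x₁) * E p * (NormedSpace.exp (-hx Hc x₁) * NormedSpace.exp (hx Hc x₁)) := by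
                rw [hT, Matrix.mul_one]
            _ = (NormedSpace.exp (hx Hc x₁) * E p * NormedSpace.exp (-hx Hc x₁)) * NormedSpace.exp (hx Hc x₁) := by
                simp only [Matrix.mul_assoc]
            _ = _ := by rw [h]
        have hcX : ∀ X ∈ lie H, NormedSpace.exp (hx Hc x₁) * X = X * NormedSpace.exp (hx Hc x₁) := by
          intro X hX
          obtain ⟨x, z, hz⟩ := hL.span X hX
          have h1 : NormedSpace.exp (hx Hc x₁) * hx Hc x = hx Hc x * NormedSpace.exp (hx Hc x₁) :=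
            TAUF.exp_semi (TAUF.hx_comm hL x₁ x)
          have hz' : X = hx Hc x + ∑ p ∈ pos Φ, (z p • E p - conj (z p) • (E p)ᴴ) := hz
          rw [hz', Matrix.mul_add, Matrix.add_mul, h1, Matrix.mul_sum, Matrix.sum_mul]
          congr 1
          refine Finset.sum_congr rfl fun p hp => ?_
          have hpΦ := (hW.ppos p hp).1
          have h2 := hcE p hpΦ
          have h3 := hcE _ (hW.neg p hpΦ)
          rw [hL.star p hpΦ] at h3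
          rw [Matrix.mul_sub, Matrix.sub_mul, mul_smul_comm, mul_smul_comm, smul_mul_assoc, smul_mul_assoc, h2, h3]
        set y := NormedSpace.exp ((ρ₀ : ℂ) • hx Hc ω₀) with hy
        have hyR : y = (k₀.1.1 * k₂.1) * NormedSpace.exp (hx Hc x₁) * (k₀.1.1 * k₂.1)ᴴ := by
          rw [← hR, hsm, exp_conj' _ _ hR1 hR2, ← hy]
          calc y = ((k₀.1.1 * k₂.1) * (k₀.1.1 * k₂.1)ᴴ) * y * ((k₀.1.1 * k₂.1) * (k₀.1.1 * k₂.1)ᴴ) := by
                rw [hR2, Matrix.one_mul, Matrix.mul_one]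
            _ = _ := by simp only [Matrix.mul_assoc]
        have hcy : ∀ X ∈ lie H, y * X = X * y := by
          intro X hX
          have h1 : (k₀.1.1 * k₂.1)ᴴ * X * (k₀.1.1 * k₂.1) ∈ lie H := by
            have h := fH.ad _ (H.inv_mem (H.mul_mem hkH hk₂H)) X hX
            have h2 : ((k₀.1 * k₂)⁻¹).1 = (k₀.1.1 * k₂.1)ᴴ := LIEB.coe_inv _
            rw [h2, Matrix.conjTranspose_conjTranspose] at h
            exact h
          have h2 := hcX _ h1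
          calc y * X = (k₀.1.1 * k₂.1) * (NormedSpace.exp (hx Hc x₁) *
                ((k₀.1.1 * k₂.1)ᴴ * X * (k₀.1.1 * k₂.1))) * (k₀.1.1 * k₂.1)ᴴ := by
                rw [hyR]
                calc _ = (k₀.1.1 * k₂.1) * NormedSpace.exp (hx Hc x₁) * (k₀.1.1 * k₂.1)ᴴ * X *
                      ((k₀.1.1 * k₂.1) * (k₀.1.1 * k₂.1)ᴴ) := by rw [hR2, Matrix.mul_one]
                  _ = _ := by simp only [Matrix.mul_assoc]
            _ = X * y := by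
                rw [h2, hyR]
                calc _ = ((k₀.1.1 * k₂.1) * (k₀.1.1 * k₂.1)ᴴ) * X * (k₀.1.1 * k₂.1) *
                      NormedSpace.exp (hx Hc x₁) * (k₀.1.1 * k₂.1)ᴴ := by simp only [Matrix.mul_assoc]
                  _ = _ := by
                    rw [hR2, Matrix.one_mul]
                    simp only [Matrix.mul_assoc]
        have hcyE : ∀ p ∈ Φ, y * E p = E p * y := by
          intro p hp
          obtain ⟨h1, h2⟩ := hL.emem p hp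
          have h3 := hcy _ h1
          have h4 := hcy _ h2
          have h5 : E p = (1 / 2 : ℂ) • (E p - (E p)ᴴ) + (-Complex.I / 2) • (Complex.I • (E p + (E p)ᴴ)) := by
            rw [smul_smul]
            have : -Complex.I / 2 * Complex.I = 1 / 2 := by
              rw [div_mul_eq_mul_div, neg_mul, Complex.I_mul_I, neg_neg]
            rw [this]
            module
          calc y * E p = y * ((1 / 2 : ℂ) • (E p - (E p)ᴴ) + (-Complex.I / 2) • (Complex.I • (E p + (E p)ᴴ))) := by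
                rw [← h5]
            _ = ((1 / 2 : ℂ) • (E p - (E p)ᴴ) + (-Complex.I / 2) • (Complex.I • (E p + (E p)ᴴ))) * y := by
                rw [Matrix.mul_add, Matrix.add_mul, mul_smul_comm, mul_smul_comm _ y, smul_mul_assoc,
                  smul_mul_assoc _ _ y, h3, h4]
            _ = _ := by rw [← h5]
        have hxs : (ρ₀ : ℂ) • hx Hc ω₀ = hx Hc (ρ₀ • ω₀) := by
          have h := (SPAN.hxl Hc).map_smul ρ₀ ω₀
          exact h.symm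
        have h1 : ∀ p ∈ Φ, Complex.exp (dz p.1 (ρ₀ • ω₀) * Complex.I) = 1 := by
          intro p hp
          have h := ROWS.expE (ROWS.adE hF hp (ρ₀ • ω₀))
          have h2 : NormedSpace.exp (hx Hc (ρ₀ • ω₀)) = y := by rw [hy, hxs]
          have h3 : NormedSpace.exp (hx Hc (ρ₀ • ω₀)) * NormedSpace.exp (-hx Hc (ρ₀ • ω₀)) = 1 := by
            have := ROWS.exp_neg_mul (-hx Hc (ρ₀ • ω₀))
            rwa [neg_neg] at this
          rw [h2] at h h3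
          rw [hcyE p hp, Matrix.mul_assoc, h3, Matrix.mul_one] at h
          have h4 : (Complex.exp (dz p.1 (ρ₀ • ω₀) * Complex.I) - 1) • E p = 0 := by
            rw [sub_smul, one_smul, ← h, sub_self]
          exact sub_eq_zero.1 ((smul_eq_zero.1 h4).resolve_right (TAUF.E_ne hL hp))
        have h2 := hD _ hDm h1
        rcases smul_eq_zero.1 h2 with h3 | h3
        · exact h0.ne' h3
        · rw [h3, norm_zero] at hω
          exact zero_ne_one hω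
      obtain ⟨q, hq, hli⟩ := (hSPAN N H K σ τ A l Φ B Hc E x₀ θ r s ε hSD x₁ hx₁A).1 hne
      have hρc : (ρ₀ : ℂ) ≠ 0 := Complex.ofReal_ne_zero.2 h0.ne'
      refine ⟨k₂, hk₂K, hk₂c, q, fun i => (hq i).1, hli, ?_, ?_⟩
      · intro j i i' Z Z' w hZ hZ' hp hZ0 hw hy
        have h1 := ddA hB ρ₀ _ (hx Hc x₁) (Z' - Z'ᴴ) Z w hR
        rw [((hROWS N H K σ τ A l Φ B Hc E x₀ θ r s ε hSD j (q i) (q i') Z Z' w hZ hZ' hp hZ0 hw).2 x₁ hx₁A).1.1 hy] at h1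
        exact (mul_eq_zero.1 h1).resolve_left hρc
      · intro j i Z w hZ hp hZ0 hw hd
        obtain ⟨⟨hw0, -, -⟩, h⟩ := hROWS N H K σ τ A l Φ B Hc E x₀ θ r s ε hSD j (q i) (q i) Z Z w hZ hZ hp hZ0 hw
        have h1 := ddA hB ρ₀ _ (hx Hc x₁) (Z - Zᴴ) Z w hR
        rw [(h x₁ hx₁A).1.2, hd, mul_zero] at h1
        refine mul_ne_zero (neg_ne_zero.2 (sub_ne_zero.2 (hq i).2.symm)) (hww w hw0) h1.symm
  -- the assembly
  have k1 : k₂.1ᴴ * k₂.1 = 1 := LIEB.ct_mul _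
  have k2 : k₂.1 * k₂.1ᴴ = 1 := LIEB.mul_ct _
  have hk₂H : k₂ ∈ H := hSD.sym.sub hk₂K
  set R : Matrix (Fin N) (Fin N) ℂ := k₀.1.1 * k₂.1 with hR
  have hR1 : Rᴴ * R = 1 := by
    rw [hR, Matrix.conjTranspose_mul, ← Matrix.mul_assoc, Matrix.mul_assoc k₂.1ᴴ, hk1, Matrix.mul_one, k1]
  have hR2 : R * Rᴴ = 1 := by
    rw [hR, Matrix.conjTranspose_mul, ← Matrix.mul_assoc, Matrix.mul_assoc k₀.1.1, k2, Matrix.mul_one, hk2]
  have hsep : ∀ i i', i ≠ i' → ∃ y, hx Hc y ∈ A ∧ dz (q i).1 y ≠ dz (q i').1 y := by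
    intro i i' hii
    by_contra hcon
    push Not at hcon
    have h := hli (Pi.single i 1 - Pi.single i' 1) (by
      intro y hy
      simp only [Pi.sub_apply, sub_mul, Finset.sum_sub_distrib, Pi.single_apply, ite_mul, one_mul, zero_mul,
        Finset.sum_ite_eq', Finset.mem_univ, if_true]
      rw [hcon y hy, sub_self])
    have h1 := congrFun h i
    simp [Pi.single_apply, hii] at h1
  have hZex : ∀ p ∈ PA Φ x₀, ∃ Z, ZP A Φ Hc E x₀ ε p Z ∧ Z ≠ 0 ∧ Z - Zᴴ ∈ lie K := by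
    intro p hp
    obtain ⟨q', a, b, hq', h1, h2, h3, h4⟩ := hKDIR N H K σ τ A l Φ B Hc E x₀ θ r s ε hSD p hp
    exact ⟨_, ⟨q', a, b, hp, hq', h1, h2, rfl⟩, h3, h4⟩
  let q' : Fin r → {p // p ∈ PA Φ x₀} := fun i => ⟨q i, hqP i⟩
  have hq'inj : Function.Injective q' := by
    intro i i' h
    by_contra hne
    obtain ⟨y, -, hy⟩ := hsep i i' hne
    exact hy (by rw [show q i = q i' from congrArg Subtype.val h])
  let Bd : Finset (Fin r) := Finset.univ.filter fun i => c (q' i) ∈ J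
  let b : Fin Bd.card → Fin r := fun k => (Bd.equivFin.symm k).1
  have hb : ∀ k, c (q' (b k)) ∈ J := by
    intro k
    have h := (Bd.equivFin.symm k).2
    exact (Finset.mem_filter.1 h).2
  have hbinj : Function.Injective b := by
    intro k k' h
    exact Bd.equivFin.symm.injective (Subtype.ext h)
  have hbr : ∀ i, i ∉ Set.range b → c (q' i) ∉ J := by
    intro i hi hcon
    apply hi
    refine ⟨Bd.equivFin ⟨i, Finset.mem_filter.2 ⟨Finset.mem_univ _, hcon⟩⟩, ?_⟩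
    simp [b]
  choose Z hZP hZ0 hZK using fun k : Fin Bd.card => hZex (q (b k)) (hqP _)
  let U : Fin Bd.card → Matrix (Fin N) (Fin N) ℂ := fun k => Z k - (Z k)ᴴ
  let w : Fin Bd.card → Matrix (Fin N) (Fin N) ℂ := fun k => (Z k)ᴴ * Z k - Z k * (Z k)ᴴ
  have hU : ∀ k, (U k)ᴴ = -U k := by
    intro k
    change (Z k - (Z k)ᴴ)ᴴ = -(Z k - (Z k)ᴴ)
    rw [Matrix.conjTranspose_sub, Matrix.conjTranspose_conjTranspose, neg_sub]
  have hpj : ∀ k, 0 < (q (b k)).2 ⬝ᵥ ε (c (q' (b k))) := fun k => hc (q' (b k))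
  have off : ∀ i j, i ≠ j → dd (bo ρ₀ (Rᴴ * hx Hc ω₀ * R)) (U j) (Z i) (w i) = 0 := by
    intro i j hij
    exact hoff _ _ _ (Z i) (Z j) (w i) (hZP i) (hZP j) (hpj i) (hZ0 i) rfl (hsep _ _ (hbinj.ne hij))
  have diag : ∀ i, dd (bo ρ₀ (Rᴴ * hx Hc ω₀ * R)) (U i) (Z i) (w i) ≠ 0 := by
    intro i
    exact hdiag _ _ (Z i) (w i) (hZP i) (hpj i) (hZ0 i) rfl
  obtain ⟨a, cL, hcL, rL, hrL, S, hS, hlow⟩ := keyD hB U Z w ρ₀ (hx Hc ω₀) R hR1 hR2 hU off diag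
  have hXK : ∀ k, R * U k * Rᴴ ∈ lie K := by
    intro k
    exact fK.ad (k₀.1 * k₂) (K.mul_mem k₀.2 hk₂K) (U k) (hZK k)
  have hCb : ∀ k, ∃ C : ℝ, 0 ≤ C ∧ ∀ F : Matrix (Fin N) (Fin N) ℂ →ₗ[ℂ] Matrix (Fin N) (Fin N) ℂ,
      ‖(F (Z k) * (w k)ᴴ).trace‖ ^ 2 ≤ C * ns (eb E (pe Φ (ε (c (q' (b k)))))) F := by
    intro k
    obtain ⟨⟨-, h1, z, hz⟩, -⟩ := hROWS N H K σ τ A l Φ B Hc E x₀ θ r s ε hSD (c (q' (b k))) (q (b k)) (q (b k))
      (Z k) (Z k) (w k) (hZP k) (hZP k) (hpj k) (hZ0 k) rfl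
    exact bdl _ _ _ z hz h1
  choose Cb hCb0 hCb using hCb
  have hns : ∀ j ∈ J, ∀ (ρ : ℝ) (W R' : Matrix (Fin N) (Fin N) ℂ),
      ns (eb E (pe Φ (ε j))) (FL hB ρ W (R' * k₂.1)) = ns (eb E (pe Φ (ε j))) (FL hB ρ W R') := by
    intro j hj ρ W R'
    rw [← ((hCOMQ N H _ _ _ hSD.closed (hN j)).2.2 k₂ hk₂H (hk₂c j hj)).2 (FL hB ρ W R')]
    congr 1
    funext V
    change (R' * k₂.1)ᴴ * bo ρ W ((R' * k₂.1) * V * (R' * k₂.1)ᴴ) * (R' * k₂.1) =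
      k₂.1ᴴ * (R'ᴴ * bo ρ W (R' * (k₂.1 * V * k₂.1ᴴ) * R'ᴴ) * R') * k₂.1
    have e1 : (R' * k₂.1) * V * (R' * k₂.1)ᴴ = R' * (k₂.1 * V * k₂.1ᴴ) * R'ᴴ := by
      rw [Matrix.conjTranspose_mul]
      simp only [Matrix.mul_assoc]
    rw [e1, Matrix.conjTranspose_mul]
    simp only [Matrix.mul_assoc]
  -- continuity of the coordinates
  have cρ : Continuous fun z : DW A Hc D × K => z.1.1.1 :=
    continuous_fst.comp (continuous_subtype_val.comp continuous_fst)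
  have cω : Continuous fun z : DW A Hc D × K => z.1.1.2 :=
    continuous_snd.comp (continuous_subtype_val.comp continuous_fst)
  have chx : Continuous fun x : Fin l → ℝ => hx Hc x := by
    unfold hx
    refine continuous_finsetSum _ fun j _ => ?_
    exact ((Complex.continuous_ofReal.comp (continuous_apply j)).mul continuous_const).smul continuous_const
  have cW : Continuous fun z : DW A Hc D × K => hx Hc z.1.1.2 := chx.comp cω
  have ck : Continuous fun z : DW A Hc D × K => z.2.1.1 :=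
    continuous_subtype_val.comp (continuous_subtype_val.comp continuous_snd)
  have ckk : Continuous fun z : DW A Hc D × K => z.2.1.1 * k₂.1 := ck.matrix_mul continuous_const
  have cut : ∀ j, Continuous fun z : DW A Hc D × K => ut Hc (eb E (pe Φ (ε j))) z.1.1 z.2.1.1 := by
    intro j
    exact cont_ns hB (eb E (pe Φ (ε j))) _ _ _ cρ cW ck
  -- the lower bounds of the good functions
  set z₀ : DW A Hc D × K := (⟨(ρ₀, ω₀), hρ, hω, hA, hDm⟩, k₀) with hz₀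
  obtain ⟨g, hg, hgl⟩ := exg (fun i => if c (q' i) ∈ J then (1 : ℝ) else
      ut Hc (eb E (pe Φ (ε (c (q' i))))) z₀.1.1 z₀.2.1.1) (by
    intro i
    split_ifs with h
    · exact one_pos
    · refine lt_of_le_of_ne (ns_nonneg _ _) (fun h1 => h ?_)
      rw [hJ, Finset.mem_filter]
      exact ⟨Finset.mem_univ _, h1.symm⟩)
  have hev : ∀ i, ∀ᶠ z in 𝓝 z₀, c (q' i) ∉ J → g ≤ ut Hc (eb E (pe Φ (ε (c (q' i))))) z.1.1 z.2.1.1 := by
    intro i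
    by_cases h : c (q' i) ∈ J
    · exact Eventually.of_forall fun z h1 => absurd h h1
    · have h1 := hgl i
      rw [if_neg h] at h1
      have h2 := (cut (c (q' i))).continuousAt.eventually (lt_mem_nhds h1)
      exact h2.mono fun z hz _ => hz.le
  have hev2 := Filter.eventually_all.2 hev
  have hev3 : ∀ᶠ z : DW A Hc D × K in 𝓝 z₀, ((z.1.1.1, hx Hc z.1.1.2, z.2.1.1 * k₂.1) :
      ℝ × Matrix (Fin N) (Fin N) ℂ × Matrix (Fin N) (Fin N) ℂ) ∈ S := by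
    have h1 : Continuous fun z : DW A Hc D × K => ((z.1.1.1, hx Hc z.1.1.2, z.2.1.1 * k₂.1) :
        ℝ × Matrix (Fin N) (Fin N) ℂ × Matrix (Fin N) (Fin N) ℂ) := cρ.prodMk (cW.prodMk ckk)
    exact h1.continuousAt.eventually hS
  have hmul : ∀ (t : Fin Bd.card → ℝ) (k : K), (eprod K (fun i => R * U i * Rᴴ) t * k).1.1 * k₂.1 =
      EX (fun i => R * U i * Rᴴ) t * (k.1.1 * k₂.1) := by
    intro t k
    rw [coe_mulH, eprod_coe _ hXK, Matrix.mul_assoc]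
  refine ⟨q', Bd.card, b, fun i => R * U i * Rᴴ,
    fun i z => za (Lt (a i)) (Z i) (w i)ᴴ z.1.1.1 (hx Hc z.1.1.2) (z.2.1.1 * k₂.1),
    min cL g, ∑ k, ‖a k‖ ^ 2 * Cb k, rL,
    {z | ∀ i, c (q' i) ∉ J → g ≤ ut Hc (eb E (pe Φ (ε (c (q' i))))) z.1.1 z.2.1.1} ∩
      {z | ((z.1.1.1, hx Hc z.1.1.2, z.2.1.1 * k₂.1) :
        ℝ × Matrix (Fin N) (Fin N) ℂ × Matrix (Fin N) (Fin N) ℂ) ∈ S}, ?_⟩
  exact
    { inj := hq'inj
      binj := hbinj
      mem := hXK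
      cpos := lt_min hcL hg
      epos := hrL
      nhd := Filter.inter_mem hev2 hev3
      good := by
        intro i hi z hz
        exact (min_le_right _ _).trans (hz.1 i (hbr i hi))
      cont := by
        intro i
        exact cont_za hB _ _ _ _ _ _ cρ cW ckk
      bd := by
        intro i z _ t _
        simp only
        refine (za_le hB _ (Z i) (w i) (a i) (Cb i) (hCb i) _ _ _).trans ?_
        rw [hns _ (hb i)]
        have h1 : ‖a i‖ ^ 2 * Cb i ≤ ∑ k, ‖a k‖ ^ 2 * Cb k :=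
          Finset.single_le_sum (f := fun k => ‖a k‖ ^ 2 * Cb k)
            (fun k _ => mul_nonneg (by positivity) (hCb0 k)) (Finset.mem_univ i)
        exact mul_le_mul_of_nonneg_right h1 (ns_nonneg _ _)
      low := by
        intro z hz t t' ht ht'
        have h1 := hlow _ hz.2 t t' ht ht'
        have h2 : ∀ t : Fin Bd.card → ℝ, (fun i => zm (Lt (a i)) (Z i) (w i)ᴴ z.1.1.1 (hx Hc z.1.1.2)
            (z.2.1.1 * k₂.1) (EX (fun i => R * U i * Rᴴ) t)) = fun i => za (Lt (a i)) (Z i) (w i)ᴴ z.1.1.1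
            (hx Hc z.1.1.2) ((eprod K (fun i => R * U i * Rᴴ) t * z.2).1.1 * k₂.1) := by
          intro t
          funext i
          rw [hmul, za_mul]
        simp only at h1
        rw [h2, h2] at h1
        refine le_trans ?_ h1
        exact mul_le_mul_of_nonneg_right (min_le_left _ _) (norm_nonneg _) }

end

end SYM
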