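import Pool.Agent.SYM.StZ

/-!
# Symmetric spaces: MAINS, the upper bound for the symmetric spaces of rank at least two
-/

namespace SYM

open STZ LGR MeasureTheory Matrix Filter

open scoped ComplexConjugate Matrix Real Topology

noncomputable section

theorem t_MAINS : M_MAINS := by
  intro hKFRM hFORM hSRDX hSTAU hSSAT hSCRD hSPXX hSPDX hLOCS hSTRS N H K σ τ A D d r hcl hconn hsim hsym hmax hD hd hr
    h2r p hp μ hμ hμl a b hab
  obtain ⟨l, Φ, B, Hc, E, x₀, hl, hSR⟩ := hSRDX N H K σ τ A hcl hconn hsim hsym hmax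
  obtain ⟨θ, hθ⟩ := hSTAU N H K σ τ A l Φ B Hc E x₀ hcl hsim hsym hmax hSR
  obtain ⟨s, ε, hSO⟩ := hSSAT N H τ A l Φ B Hc E x₀ θ hSR hθ
  subst hr
  have hSD : SD H K σ τ A Φ B Hc E x₀ θ s ε := ⟨hcl, hconn, hsim, hsym, hmax, hl, hSR, hθ, hSO, rfl⟩
  have hdim := hSCRD N H K σ τ A l Φ B Hc E x₀ θ _ s ε hSD
  rw [hd] at hdim
  obtain ⟨c, hc, hfr, hkf⟩ := hKFRM N H hcl hsim
  obtain ⟨X, hX⟩ := hfr D hD
  obtain ⟨k, hk⟩ := hFORM N H l Φ B Hc E hcl hSR.lrd hl c hc
  have hcompH : CompactSpace H := isCompact_iff_compactSpace.1 hcl.isCompact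
  have hsecH : SecondCountableTopology H :=
    inferInstanceAs (SecondCountableTopology ((H : Set (SU N)) : Type))
  have hcompK : CompactSpace K := isCompact_iff_compactSpace.1 hsym.closed.isCompact
  have hsecK : SecondCountableTopology K :=
    inferInstanceAs (SecondCountableTopology ((K : Set (SU N)) : Type))
  let νK : Measure K := Measure.haarMeasure ⊤
  have hν : IsProbabilityMeasure νK := ⟨by
    have := Measure.haarMeasure_self (K₀ := (⊤ : TopologicalSpace.PositiveCompacts K))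
    simpa using this⟩
  have hνl : νK.IsMulLeftInvariant := inferInstanceAs (Measure.haarMeasure ⊤).IsMulLeftInvariant
  obtain ⟨KM, hKM⟩ := hSPXX N H K σ τ A l Φ B Hc E x₀ θ _ s ε hSD c k D X hk hX μ νK hsym.sub
  obtain ⟨q, S, hSQ, hSP⟩ := hSPDX N H K σ τ A l Φ B Hc E x₀ θ _ s ε hSD c k D μ νK hsym.sub KM hKM
  have hL := hLOCS H K _ _ q S _ KM μ νK hSP h2r
  have hL' : LOCH μ KM ((PA Φ x₀).card : ℝ) (fun i : SL (H := H) K σ Φ Hc E ε => wG i.1)
      (fun w => -QZ Φ ε (w - 1)) (2 + 4 / ((Module.finrank ℝ A : ℕ) : ℝ)) := by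
    have he : (fun w => -S.Q (w - 1)) = fun w => -QZ Φ ε (w - 1) := by
      funext w
      rw [hSQ]
    rw [he] at hL
    exact hL
  rw [hdim]
  exact hSTRS N H K σ τ A l Φ B Hc E x₀ θ _ s ε hSD h2r c k D hk (hkf D) μ νK hsym.sub KM hKM hL' p hp a b hab

end

end SYM
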