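import Pool.Agent.SYM.StT

/-!
# Symmetric spaces: the variation of `y ^ e s ^ y`
-/

namespace SYM

open STZ LGR MeasureTheory Matrix Filter

open scoped ComplexConjugate Matrix Real Topology

noncomputable section

namespace MONO

theorem sum_le (e m : ℕ) (s : ℝ) (h0 : 0 ≤ s) (h1 : s < 1) :
    ∑ j ∈ Finset.range m, (j : ℝ) ^ e * s ^ j ≤ (e.factorial : ℝ) / (1 - s) ^ (e + 1) := by
  have hs : ‖s‖ < 1 := by rw [Real.norm_of_nonneg h0]; exact h1
  have H := hasSum_choose_mul_geometric_of_norm_lt_one e hs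
  have hle : ∀ j : ℕ, (j : ℝ) ^ e * s ^ j ≤
      (e.factorial : ℝ) * (((j + e).choose e : ℝ) * s ^ j) := by
    intro j
    have h2 : j ^ e ≤ e.factorial * (j + e).choose e := by
      rw [← Nat.ascFactorial_eq_factorial_mul_choose]
      exact le_trans (Nat.pow_le_pow_left (Nat.le_succ j) e) (Nat.pow_succ_le_ascFactorial (j + 1) e)
    have h3 : ((j ^ e : ℕ) : ℝ) ≤ ((e.factorial * (j + e).choose e : ℕ) : ℝ) := by
      exact_mod_cast h2
    push_cast at h3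
    rw [← mul_assoc]
    exact mul_le_mul_of_nonneg_right h3 (pow_nonneg h0 j)
  calc ∑ j ∈ Finset.range m, (j : ℝ) ^ e * s ^ j
      ≤ ∑ j ∈ Finset.range m, (e.factorial : ℝ) * (((j + e).choose e : ℝ) * s ^ j) :=
        Finset.sum_le_sum fun j _ => hle j
    _ = (e.factorial : ℝ) * ∑ j ∈ Finset.range m, (((j + e).choose e : ℝ) * s ^ j) := by
        rw [Finset.mul_sum]
    _ ≤ (e.factorial : ℝ) * (1 / (1 - s) ^ (e + 1)) := by
        apply mul_le_mul_of_nonneg_left _ (Nat.cast_nonneg _)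
        exact sum_le_hasSum _ (fun i _ => mul_nonneg (Nat.cast_nonneg _) (pow_nonneg h0 i)) H
    _ = (e.factorial : ℝ) / (1 - s) ^ (e + 1) := by ring

theorem last_le (e m : ℕ) (s : ℝ) (h0 : 0 ≤ s) (h1 : s < 1) :
    (m : ℝ) ^ e * s ^ m ≤ (e.factorial : ℝ) / (1 - s) ^ e := by
  have hu : 0 < 1 - s := by linarith
  have h2 : s ≤ Real.exp (-(1 - s)) := by
    have := Real.one_sub_le_exp_neg (1 - s)
    linarith
  have h3 : s ^ m ≤ Real.exp (-((1 - s) * m)) := by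
    calc s ^ m ≤ Real.exp (-(1 - s)) ^ m := pow_le_pow_left₀ h0 h2 m
      _ = Real.exp (-((1 - s) * m)) := by
        rw [← Real.exp_nat_mul]; congr 1; ring
  have hx : 0 ≤ (1 - s) * m := mul_nonneg hu.le (Nat.cast_nonneg m)
  have h4 := Real.pow_div_factorial_le_exp ((1 - s) * m) hx e
  have hf : (0 : ℝ) < e.factorial := by exact_mod_cast Nat.factorial_pos e
  rw [div_le_iff₀ hf] at h4
  rw [le_div_iff₀ (pow_pos hu e)]
  calc (m : ℝ) ^ e * s ^ m * (1 - s) ^ e = ((1 - s) * m) ^ e * s ^ m := by rw [mul_pow]; ring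
    _ ≤ (Real.exp ((1 - s) * m) * e.factorial) * Real.exp (-((1 - s) * m)) := by
        apply mul_le_mul h4 h3 (pow_nonneg h0 m)
        positivity
    _ = e.factorial := by
        rw [Real.exp_neg]; field_simp

/-- the sum with the monotone weights -/
theorem var_le (e m : ℕ) (s : ℝ) (h0 : 0 ≤ s) (h1 : s ≤ 1) :
    ∑ j ∈ Finset.range m, |((j : ℝ) + 1) ^ e * s ^ (j + 1) - (j : ℝ) ^ e * s ^ j| ≤
      (m : ℝ) ^ e * s ^ m + 2 * ((1 - s) * ∑ j ∈ Finset.range m, (j : ℝ) ^ e * s ^ j) := by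
  induction m with
  | zero => simp [pow_nonneg]
  | succ m ih =>
    rw [Finset.sum_range_succ, Finset.sum_range_succ]
    have h2 : (m : ℝ) ^ e ≤ ((m : ℝ) + 1) ^ e := by
      apply pow_le_pow_left₀ (Nat.cast_nonneg m); linarith
    have h3 : |((m : ℝ) + 1) ^ e * s ^ (m + 1) - (m : ℝ) ^ e * s ^ m| ≤
        (((m : ℝ) + 1) ^ e - (m : ℝ) ^ e) * s ^ (m + 1) + (m : ℝ) ^ e * s ^ m * (1 - s) := by
      have h4 : ((m : ℝ) + 1) ^ e * s ^ (m + 1) - (m : ℝ) ^ e * s ^ m =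
        (((m : ℝ) + 1) ^ e - (m : ℝ) ^ e) * s ^ (m + 1) - (m : ℝ) ^ e * s ^ m * (1 - s) := by ring
      rw [h4]
      have h5 : 0 ≤ (((m : ℝ) + 1) ^ e - (m : ℝ) ^ e) * s ^ (m + 1) :=
        mul_nonneg (by linarith) (pow_nonneg h0 _)
      have h6 : 0 ≤ (m : ℝ) ^ e * s ^ m * (1 - s) :=
        mul_nonneg (mul_nonneg (pow_nonneg (Nat.cast_nonneg m) _) (pow_nonneg h0 _)) (by linarith)
      rw [abs_le]; constructor <;> linarith
    push_cast
    have h7 : (m : ℝ) ^ e * s ^ m + (((m : ℝ) + 1) ^ e - (m : ℝ) ^ e) * s ^ (m + 1) +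
        (m : ℝ) ^ e * s ^ m * (1 - s) =
        ((m : ℝ) + 1) ^ e * s ^ (m + 1) + 2 * ((1 - s) * ((m : ℝ) ^ e * s ^ m)) := by ring
    nlinarith [ih, h3, h7]

theorem NNf_half (N : ℕ) (s : ℝ) (hN : 1 ≤ N) (h0 : 0 ≤ s) (h1 : s ≤ 1) : 1 / 2 ≤ NNf N s := by
  unfold NNf
  have h2 : (1 : ℝ) ≤ N := by exact_mod_cast hN
  have h3 : 0 ≤ (N : ℝ) * (1 - s) := mul_nonneg (by linarith) (by linarith)
  rw [div_le_div_iff₀ (by norm_num) (by linarith)]
  nlinarith

/-- real numbers at most `x` for all the `x` needed -/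
theorem key (e m N : ℕ) (s : ℝ) (hN : 1 ≤ N) (hm : m ≤ N) (h0 : 0 ≤ s) (h1 : s ≤ 1) :
    (m : ℝ) ^ e * s ^ m ≤ (2 ^ e * e.factorial) * NNf N s ^ e ∧
    (1 - s) * ∑ j ∈ Finset.range m, (j : ℝ) ^ e * s ^ j ≤ (2 ^ e * e.factorial) * NNf N s ^ e := by
  have h2 : (1 : ℝ) ≤ N := by exact_mod_cast hN
  have h3 : 0 ≤ (N : ℝ) * (1 - s) := mul_nonneg (by linarith) (by linarith)
  have hf : (1 : ℝ) ≤ e.factorial := by exact_mod_cast Nat.factorial_pos e
  have hmN : (m : ℝ) ≤ N := by exact_mod_cast hm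
  rcases le_or_gt ((N : ℝ) * (1 - s)) 1 with h | h
  · -- short sums
    have hNN : (N : ℝ) ≤ 2 * NNf N s := by
      unfold NNf
      rw [mul_div_assoc', le_div_iff₀ (by linarith)]
      nlinarith
    have h4 : (N : ℝ) ^ e ≤ (2 ^ e * e.factorial) * NNf N s ^ e := by
      have h5 : (N : ℝ) ^ e ≤ (2 * NNf N s) ^ e := pow_le_pow_left₀ (by linarith) hNN e
      rw [mul_pow] at h5
      have h6 : 0 ≤ (2 : ℝ) ^ e * NNf N s ^ e := le_trans (pow_nonneg (by linarith) _) h5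
      calc (N : ℝ) ^ e ≤ 2 ^ e * NNf N s ^ e * 1 := by linarith
        _ ≤ 2 ^ e * NNf N s ^ e * e.factorial := mul_le_mul_of_nonneg_left hf h6
        _ = _ := by ring
    have h7 : ∀ j : ℕ, j ≤ N → (j : ℝ) ^ e * s ^ j ≤ (N : ℝ) ^ e := by
      intro j hj
      have h8 : (j : ℝ) ^ e ≤ (N : ℝ) ^ e :=
        pow_le_pow_left₀ (Nat.cast_nonneg j) (by exact_mod_cast hj) e
      have h9 : s ^ j ≤ 1 := pow_le_one₀ h0 h1
      calc (j : ℝ) ^ e * s ^ j ≤ (j : ℝ) ^ e * 1 :=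
            mul_le_mul_of_nonneg_left h9 (pow_nonneg (Nat.cast_nonneg j) _)
        _ ≤ (N : ℝ) ^ e := by linarith
    refine ⟨le_trans (h7 m hm) h4, ?_⟩
    refine le_trans ?_ h4
    have h8 : ∑ j ∈ Finset.range m, (j : ℝ) ^ e * s ^ j ≤ m * (N : ℝ) ^ e := by
      have := Finset.sum_le_card_nsmul (Finset.range m) (fun j : ℕ => (j : ℝ) ^ e * s ^ j)
        ((N : ℝ) ^ e) (fun j hj => h7 j (le_trans (Finset.mem_range.mp hj).le hm))
      rw [Finset.card_range, nsmul_eq_mul] at this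
      exact this
    have hNe : (0 : ℝ) ≤ (N : ℝ) ^ e := by positivity
    calc (1 - s) * ∑ j ∈ Finset.range m, (j : ℝ) ^ e * s ^ j
        ≤ (1 - s) * (m * (N : ℝ) ^ e) := mul_le_mul_of_nonneg_left h8 (by linarith)
      _ = (m * (1 - s)) * (N : ℝ) ^ e := by ring
      _ ≤ 1 * (N : ℝ) ^ e := by
          apply mul_le_mul_of_nonneg_right _ hNe
          refine le_trans ?_ h
          exact mul_le_mul_of_nonneg_right hmN (by linarith)
      _ = (N : ℝ) ^ e := one_mul _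
  · -- long sums
    have hs1 : s < 1 := by
      by_contra hc
      have : s = 1 := le_antisymm h1 (not_lt.mp hc)
      rw [this] at h; norm_num at h
    have hu : 0 < 1 - s := by linarith
    have hNN : 1 / (1 - s) ≤ 2 * NNf N s := by
      unfold NNf
      rw [mul_div_assoc', div_le_div_iff₀ hu (by linarith)]
      nlinarith
    have h4 : (e.factorial : ℝ) / (1 - s) ^ e ≤ (2 ^ e * e.factorial) * NNf N s ^ e := by
      have h5 : (1 / (1 - s)) ^ e ≤ (2 * NNf N s) ^ e :=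
        pow_le_pow_left₀ (by positivity) hNN e
      rw [mul_pow, div_pow, one_pow] at h5
      calc (e.factorial : ℝ) / (1 - s) ^ e = e.factorial * (1 / (1 - s) ^ e) := by ring
        _ ≤ e.factorial * (2 ^ e * NNf N s ^ e) :=
            mul_le_mul_of_nonneg_left h5 (by linarith)
        _ = _ := by ring
    refine ⟨le_trans (last_le e m s h0 hs1) h4, le_trans ?_ h4⟩
    calc (1 - s) * ∑ j ∈ Finset.range m, (j : ℝ) ^ e * s ^ j
        ≤ (1 - s) * ((e.factorial : ℝ) / (1 - s) ^ (e + 1)) :=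
          mul_le_mul_of_nonneg_left (sum_le e m s h0 hs1) hu.le
      _ = (e.factorial : ℝ) / (1 - s) ^ e := by
          rw [pow_succ]; field_simp

theorem norm_g (e : ℕ) (s : ℝ) (h0 : 0 ≤ s) (j : ℕ) :
    ‖(((j : ℤ) : ℂ)) ^ e * (s : ℂ) ^ ((j : ℤ)).toNat‖ = (j : ℝ) ^ e * s ^ j := by
  rw [norm_mul, norm_pow, norm_pow, Complex.norm_intCast, Complex.norm_real, Int.toNat_natCast]
  simp [abs_of_nonneg h0]

theorem norm_d (e : ℕ) (s : ℝ) (j : ℕ) :
    ‖((((0 : ℤ) + j + 1 : ℤ) : ℂ)) ^ e * (s : ℂ) ^ ((0 : ℤ) + j + 1).toNat -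
      ((((0 : ℤ) + j : ℤ) : ℂ)) ^ e * (s : ℂ) ^ ((0 : ℤ) + j).toNat‖ =
      |((j : ℝ) + 1) ^ e * s ^ (j + 1) - (j : ℝ) ^ e * s ^ j| := by
  have h1 : ((0 : ℤ) + j + 1).toNat = j + 1 := by omega
  have h2 : ((0 : ℤ) + j).toNat = j := by omega
  rw [h1, h2, ← Real.norm_eq_abs, ← Complex.norm_real]
  congr 1
  push_cast
  ring

end MONO

theorem t_MONO : S_MONO := by
  intro e
  refine ⟨4 * (2 ^ e * e.factorial), by positivity, ?_⟩
  intro N n s hN hn h0 h1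
  have hNN := MONO.NNf_half N s hN h0 h1
  have hf : (1 : ℝ) ≤ e.factorial := by exact_mod_cast Nat.factorial_pos e
  rcases n with _ | m
  · have h2 : va 0 0 (fun y => (y : ℂ) ^ e * (s : ℂ) ^ y.toNat) = 1 := by
      unfold va
      simp
    rw [h2]
    have h3 : (1 : ℝ) ≤ (2 * NNf N s) ^ e := one_le_pow₀ (by linarith)
    rw [mul_pow] at h3
    calc (1 : ℝ) ≤ 2 ^ e * NNf N s ^ e := h3
      _ = 1 * (2 ^ e * NNf N s ^ e) := (one_mul _).symm
      _ ≤ (4 * e.factorial) * (2 ^ e * NNf N s ^ e) := by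
          apply mul_le_mul_of_nonneg_right _ (by linarith)
          linarith
      _ = _ := by ring
  · have hm : m ≤ N := le_trans (Nat.le_succ m) hn
    have h2 : va 0 (m + 1) (fun y => (y : ℂ) ^ e * (s : ℂ) ^ y.toNat) =
        (m : ℝ) ^ e * s ^ m +
        ∑ j ∈ Finset.range m, |((j : ℝ) + 1) ^ e * s ^ (j + 1) - (j : ℝ) ^ e * s ^ j| := by
      unfold va
      have h3 : (0 : ℤ) + ((m + 1 : ℕ) : ℤ) - 1 = (m : ℤ) := by push_cast; ring
      rw [h3]
      congr 1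
      · exact MONO.norm_g e s h0 m
      · rw [Nat.add_sub_cancel]
        exact Finset.sum_congr rfl fun j _ => MONO.norm_d e s j
    rw [h2]
    obtain ⟨k1, k2⟩ := MONO.key e m N s hN hm h0 h1
    have k3 := MONO.var_le e m s h0 h1
    linarith

end

end SYM
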