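import Pool.Agent.SYM.StZ

/-!
# SYM, module MULF: the Fourier coefficients of the multipliers
-/

set_option autoImplicit false

namespace SYM

open STZ LGR MeasureTheory Matrix Filter

open scoped ComplexConjugate Matrix Real Topology

namespace MULF

theorem euadd (a b : ℝ) : eu (a + b) = eu a * eu b := by
  unfold eu
  rw [← Complex.exp_add]
  congr 1
  push_cast
  ring

theorem eucont : Continuous eu := by
  unfold eu
  fun_prop

theorem eunorm (a : ℝ) : ‖eu a‖ = 1 := by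
  unfold eu
  rw [show (2 * (π : ℂ) * (a : ℂ) * Complex.I) = ((2 * π * a : ℝ) : ℂ) * Complex.I by
    push_cast; ring]
  exact Complex.norm_exp_ofReal_mul_I _

/-! ### the coefficients of the cutoff -/

theorem fc_sum (hC : CUT) {r M i : ℕ} (hM : 1 ≤ M) (hi : i ≤ r) :
    ∑ k ∈ Finset.Ico (0 : ℤ) (0 + ((2 * r * M + 1 : ℕ) : ℤ)), fc M i k = 1 := by
  have h1 := hC.pow M i 1 hM
  have h2 : AV M 1 = 1 := by
    unfold AV
    simp only [one_pow, Finset.sum_const, Finset.card_range, nsmul_eq_mul, mul_one]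
    have : (M : ℂ) ≠ 0 := by
      have : M ≠ 0 := by omega
      exact_mod_cast this
    exact div_self this
  rw [h2, one_pow] at h1
  simp only [one_pow, mul_one] at h1
  have h3 : ∑ k ∈ Finset.Ico (0 : ℤ) (2 * i * M + 1), fc M i k = 1 := by
    have h4 : ((∑ k ∈ Finset.Ico (0 : ℤ) (2 * i * M + 1), fc M i k : ℝ) : ℂ) = 1 := by
      push_cast
      exact h1.symm
    exact_mod_cast h4
  rw [← h3]
  symm
  apply Finset.sum_subset
  · intro k hk
    rw [Finset.mem_Ico] at hk ⊢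
    refine ⟨hk.1, hk.2.trans_le ?_⟩
    push_cast
    have h5 : (i : ℤ) * M ≤ r * M := by
      exact_mod_cast Nat.mul_le_mul_right M hi
    nlinarith
  · intro k _ hk
    by_contra h5
    have h6 := hC.supp M i k hM h5
    exact hk (Finset.mem_Ico.2 ⟨h6.1, by exact_mod_cast h6.2⟩)

theorem choose_sum (r : ℕ) : ∑ i ∈ Finset.Icc 1 r, (r.choose i : ℝ) ≤ 2 ^ r := by
  have h1 : ∑ i ∈ Finset.range (r + 1), (r.choose i : ℝ) = 2 ^ r := by
    have := Nat.sum_range_choose r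
    exact_mod_cast this
  rw [← h1]
  refine Finset.sum_le_sum_of_subset_of_nonneg ?_ fun _ _ _ => by positivity
  intro i hi
  rw [Finset.mem_Icc] at hi
  rw [Finset.mem_range]
  omega

theorem sc_abs (hC : CUT) (r M : ℕ) (k : Fin r → ℤ) :
    |sc r M k| ≤ ∑ i ∈ Finset.Icc 1 r, (r.choose i : ℝ) * ∏ j, fc M i (k j) := by
  unfold sc
  refine (Finset.abs_sum_le_sum_abs _ _).trans (Finset.sum_le_sum fun i _ => le_of_eq ?_)
  have h1 : 0 ≤ ∏ j, fc M i (k j) := Finset.prod_nonneg fun j _ => hC.nn M i (k j)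
  rw [abs_mul, abs_mul, abs_pow, abs_neg, abs_one, one_pow, one_mul, Nat.abs_cast,
    abs_of_nonneg h1]

theorem sc_sum (hC : CUT) {r M : ℕ} (hM : 1 ≤ M) :
    ∑ k ∈ bx (0 : Fin r → ℤ) (2 * r * M + 1), |sc r M k| ≤ 2 ^ r := by
  refine (Finset.sum_le_sum fun k _ => sc_abs hC r M k).trans ?_
  rw [Finset.sum_comm]
  refine le_trans (Finset.sum_le_sum fun i hi => le_of_eq ?_) (choose_sum r)
  rw [← Finset.mul_sum]
  have h1 : ∑ k ∈ bx (0 : Fin r → ℤ) (2 * r * M + 1), ∏ j, fc M i (k j) = 1 := by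
    unfold bx
    rw [← Finset.prod_univ_sum]
    refine Finset.prod_eq_one fun j _ => ?_
    exact fc_sum hC hM (Finset.mem_Icc.1 hi).2
  rw [h1, mul_one]

theorem sc_le (hC : CUT) {r M : ℕ} (hM : 1 ≤ M) (k : Fin r → ℤ) :
    |sc r M k| ≤ 2 ^ r * (1 / (M : ℝ)) ^ r := by
  refine (sc_abs hC r M k).trans ?_
  have h1 : ∀ i ∈ Finset.Icc 1 r, (r.choose i : ℝ) * ∏ j, fc M i (k j) ≤
      (r.choose i : ℝ) * (1 / (M : ℝ)) ^ r := by
    intro i hi
    refine mul_le_mul_of_nonneg_left ?_ (by positivity)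
    calc ∏ j, fc M i (k j) ≤ ∏ _j : Fin r, (1 / (M : ℝ)) :=
          Finset.prod_le_prod (fun j _ => hC.nn M i (k j)) fun j _ =>
            hC.le M i (k j) hM (Finset.mem_Icc.1 hi).1
      _ = _ := by rw [Finset.prod_const, Finset.card_univ, Fintype.card_fin]
  refine (Finset.sum_le_sum h1).trans ?_
  rw [← Finset.sum_mul]
  exact mul_le_mul_of_nonneg_right (choose_sum r) (by positivity)

/-! ### the quadratic form -/

section

variable {r : ℕ} {G : Matrix (Fin r) (Fin r) ℤ} {Q : (Fin r → ℤ) → ℤ}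

theorem sym (hG : PD G) (u w : Fin r → ℤ) : u ⬝ᵥ (G *ᵥ w) = w ⬝ᵥ (G *ᵥ u) := by
  rw [Matrix.dotProduct_mulVec, ← Matrix.mulVec_transpose, hG.1, dotProduct_comm]

/-- the linear part -/
def La (G : Matrix (Fin r) (Fin r) ℤ) (Q : (Fin r → ℤ) → ℤ) (w : Fin r → ℤ) : ℤ :=
  2 * (Q w - Q 0) - w ⬝ᵥ (G *ᵥ w)

theorem La_add (hG : PD G) (hQ : ∀ u w, Q (u + w) = Q u + Q w - Q 0 + u ⬝ᵥ (G *ᵥ w))
    (u w : Fin r → ℤ) : La G Q (u + w) = La G Q u + La G Q w := by
  unfold La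
  rw [hQ, Matrix.mulVec_add, dotProduct_add, add_dotProduct, add_dotProduct, sym hG w u]
  ring

/-- the linear part as an additive map -/
def Lh (hG : PD G) (hQ : ∀ u w, Q (u + w) = Q u + Q w - Q 0 + u ⬝ᵥ (G *ᵥ w)) :
    (Fin r → ℤ) →+ ℤ where
  toFun := La G Q
  map_zero' := by
    unfold La
    simp
  map_add' := La_add hG hQ

theorem Lh_eq (hG : PD G) (hQ : ∀ u w, Q (u + w) = Q u + Q w - Q 0 + u ⬝ᵥ (G *ᵥ w))
    (w : Fin r → ℤ) : La G Q w = ∑ j, w j * La G Q (Pi.single j 1) := by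
  have h1 : w = ∑ j, w j • (Pi.single j 1 : Fin r → ℤ) := by
    ext i
    rw [Finset.sum_apply, Finset.sum_eq_single i]
    · simp
    · intro j _ hj
      simp [Pi.single_eq_of_ne hj.symm]
    · intro h
      exact absurd (Finset.mem_univ i) h
  have h2 : La G Q w = Lh hG hQ w := rfl
  rw [h2]
  conv_lhs => rw [h1]
  rw [map_sum]
  refine Finset.sum_congr rfl fun j _ => ?_
  rw [map_zsmul, smul_eq_mul]
  rfl

/-- the matrix `G'` -/
def Gb (G : Matrix (Fin r) (Fin r) ℤ) (β : Fin r → ℕ) : Matrix (Fin r) (Fin r) ℤ :=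
  Matrix.of fun i j => (β i : ℤ) * β j * G i j

theorem Gb_dot (G : Matrix (Fin r) (Fin r) ℤ) (β : Fin r → ℕ) (u w : Fin r → ℤ) :
    u ⬝ᵥ (Gb G β *ᵥ w) = (fun j => (β j : ℤ) * u j) ⬝ᵥ (G *ᵥ fun j => (β j : ℤ) * w j) := by
  simp only [dotProduct, Matrix.mulVec, Gb, Matrix.of_apply, Finset.mul_sum]
  refine Finset.sum_congr rfl fun i _ => Finset.sum_congr rfl fun j _ => ?_
  ring

theorem Gb_pd (hG : PD G) (β : Fin r → ℕ) (hβ : ∀ j, 1 ≤ β j) : PD (Gb G β) := by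
  constructor
  · ext i j
    have h1 : G j i = G i j := by
      have := congrFun (congrFun hG.1 i) j
      simpa using this
    simp only [Gb, Matrix.transpose_apply, Matrix.of_apply, h1]
    ring
  · intro x hx
    rw [Gb_dot]
    apply hG.2
    intro h
    apply hx
    ext j
    have h1 := congrFun h j
    simp only [Pi.zero_apply] at h1 ⊢
    rcases mul_eq_zero.1 h1 with h2 | h2
    · have := hβ j
      omega
    · exact h2

/-- the linear form -/
def ll (G : Matrix (Fin r) (Fin r) ℤ) (Q : (Fin r → ℤ) → ℤ) (β : Fin r → ℕ) (b : Fin r → ℤ)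
    (j : Fin r) : ℤ :=
  -(β j : ℤ) * La G Q (Pi.single j 1) - 2 * ((β j : ℤ) * (G *ᵥ b) j)

theorem quad (hG : PD G) (hQ : ∀ u w, Q (u + w) = Q u + Q w - Q 0 + u ⬝ᵥ (G *ᵥ w))
    (β : Fin r → ℕ) (b k : Fin r → ℤ) :
    2 * (Q (fun j => b j - β j * k j) - Q b) =
      k ⬝ᵥ (Gb G β *ᵥ k) + ll G Q β b ⬝ᵥ k := by
  obtain ⟨w, hw⟩ : ∃ w : Fin r → ℤ, w = fun j => -((β j : ℤ) * k j) := ⟨_, rfl⟩
  have h1 : (fun j => b j - (β j : ℤ) * k j) = b + w := by
    rw [hw]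
    ext j
    simp only [Pi.add_apply]
    ring
  have h2 : k ⬝ᵥ (Gb G β *ᵥ k) = w ⬝ᵥ (G *ᵥ w) := by
    rw [Gb_dot]
    have h3 : w = -(fun j => (β j : ℤ) * k j) := by
      rw [hw]
      rfl
    rw [h3, Matrix.mulVec_neg, dotProduct_neg, neg_dotProduct, neg_neg]
  have h3 : ll G Q β b ⬝ᵥ k = La G Q w + 2 * (b ⬝ᵥ (G *ᵥ w)) := by
    rw [Lh_eq hG hQ w, sym hG b w]
    simp only [dotProduct, ll, hw]
    rw [Finset.mul_sum, ← Finset.sum_add_distrib]
    refine Finset.sum_congr rfl fun j _ => ?_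
    ring
  rw [h1, hQ, h2, h3]
  unfold La
  ring

end

/-! ### the main estimate -/

theorem integrable_aux {χ : ℝ → ℝ} (hχ : TC χ) (g : ℝ → ℂ) (hg : Continuous g) :
    IntervalIntegrable (fun t => (χ t : ℂ) * g t) volume 0 1 := by
  have h1 : IntervalIntegrable (fun t => (χ t : ℂ)) volume 0 1 := by
    rw [intervalIntegrable_iff_integrableOn_Ioc_of_le zero_le_one]
    refine Integrable.mono' (g := fun _ => (1 : ℝ)) (integrable_const 1)
      (Complex.measurable_ofReal.comp hχ.meas).aestronglyMeasurable ?_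
    refine Filter.Eventually.of_forall fun t => ?_
    rw [Complex.norm_real, Real.norm_of_nonneg (hχ.nn t)]
    exact hχ.le t
  exact h1.mul_continuousOn hg.continuousOn

theorem int_sum {χ : ℝ → ℝ} (hχ : TC χ) {ι : Type} (T : Finset ι) (γ : ι → ℂ) (Qk : ι → ℤ)
    (j : ℤ) {E₁ E₂ : ℝ} (c : ι → ℝ) (hc : ∀ k ∈ T, ‖γ k‖ ≤ c k) (h1 : 0 ≤ E₁) (h2 : 0 ≤ E₂)
    (hE₁ : ∀ j : ℤ, j ≠ 0 → ‖∫ t in (0 : ℝ)..1, (χ t : ℂ) * eu (-(j * t))‖ ≤ E₁)
    (hE₂ : ‖∫ t in (0 : ℝ)..1, (χ t : ℂ)‖ ≤ E₂) :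
    ‖∫ t in (0 : ℝ)..1, (χ t : ℂ) * (∑ k ∈ T, γ k * eu (-(t * (Qk k : ℝ)))) * eu (-(j * t))‖ ≤
      E₁ * ∑ k ∈ T, c k + E₂ * ∑ k ∈ T.filter (fun k => Qk k = -j), c k := by
  have h3 : (∫ t in (0 : ℝ)..1, (χ t : ℂ) * (∑ k ∈ T, γ k * eu (-(t * (Qk k : ℝ)))) *
      eu (-(j * t))) = ∑ k ∈ T, γ k * ∫ t in (0 : ℝ)..1, (χ t : ℂ) *
        eu (-(((j + Qk k : ℤ) : ℝ) * t)) := by
    have h4 : ∀ t : ℝ, (χ t : ℂ) * (∑ k ∈ T, γ k * eu (-(t * (Qk k : ℝ)))) * eu (-(j * t)) =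
        ∑ k ∈ T, γ k * ((χ t : ℂ) * eu (-(((j + Qk k : ℤ) : ℝ) * t))) := by
      intro t
      rw [Finset.mul_sum, Finset.sum_mul]
      refine Finset.sum_congr rfl fun k _ => ?_
      have h5 : -(((j + Qk k : ℤ) : ℝ) * t) = -(t * (Qk k : ℝ)) + -(j * t) := by
        push_cast
        ring
      rw [h5, euadd]
      ring
    simp only [h4]
    rw [intervalIntegral.integral_finsetSum]
    · refine Finset.sum_congr rfl fun k _ => ?_
      rw [intervalIntegral.integral_const_mul]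
    · intro k _
      refine (integrable_aux hχ _ ?_).const_mul _
      exact eucont.comp (by fun_prop)
  rw [h3]
  refine (norm_sum_le _ _).trans ?_
  have h6 : ∀ k ∈ T, ‖γ k * ∫ t in (0 : ℝ)..1, (χ t : ℂ) * eu (-(((j + Qk k : ℤ) : ℝ) * t))‖ ≤
      E₁ * c k + (if Qk k = -j then E₂ * c k else 0) := by
    intro k hk
    have hck : 0 ≤ c k := (norm_nonneg _).trans (hc k hk)
    rw [norm_mul, mul_comm]
    by_cases h7 : Qk k = -j
    · rw [if_pos h7]
      have h8 : j + Qk k = 0 := by omega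
      rw [h8]
      have h9 : ∀ t : ℝ, (χ t : ℂ) * eu (-(((0 : ℤ) : ℝ) * t)) = (χ t : ℂ) := by
        intro t
        unfold eu
        simp
      simp only [h9]
      have h10 := mul_le_mul hE₂ (hc k hk) (norm_nonneg _) h2
      have h11 : 0 ≤ E₁ * c k := mul_nonneg h1 hck
      linarith
    · rw [if_neg h7, add_zero]
      exact mul_le_mul (hE₁ _ (by omega)) (hc k hk) (norm_nonneg _) h1
  refine (Finset.sum_le_sum h6).trans (le_of_eq ?_)
  rw [Finset.sum_add_distrib, ← Finset.mul_sum, ← Finset.sum_filter, Finset.mul_sum (s := T.filter _)]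

end MULF

open MULF

theorem t_MULF : M_MULF := by
  intro hC hZ M Y _ _ _ _ r n q S L KM μ ν h hr ε hε
  obtain ⟨C₀, hC₀, hZ'⟩ := hZ r (Gb S.G S.β) hr (Gb_pd h.G S.β h.β) ε hε
  -- the constant in the size of the linear form
  obtain ⟨D, hD⟩ : ∃ D : ℝ, D = ∑ j, ((S.β j : ℝ) * |(La S.G S.Q (Pi.single j 1) : ℝ)| +
      2 * (S.β j : ℝ) * ∑ i, |(S.G j i : ℝ)| * (1 + 2 * r * S.β i)) := ⟨_, rfl⟩
  have hD0 : 0 ≤ D := by
    rw [hD]
    positivity
  obtain ⟨X₀, hX₀⟩ : ∃ X₀ : ℝ, X₀ = D + 2 * r + 1 := ⟨_, rfl⟩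
  have hX1 : 1 ≤ X₀ := by
    rw [hX₀]
    have : (0 : ℝ) ≤ r := by positivity
    linarith
  obtain ⟨C₁, hC₁⟩ : ∃ C₁ : ℝ, C₁ = C₀ * X₀ ^ ε * (2 * r + 1 : ℝ) ^ ((r : ℝ) - 2) := ⟨_, rfl⟩
  have hC₁0 : 0 ≤ C₁ := by
    rw [hC₁]
    positivity
  refine ⟨2 ^ r * (1 + C₁), by positivity, ?_⟩
  intro N R b hR hRN χ E₁ E₂ hχ h1 h2 hE₁ hE₂ j
  have hR0 : (0 : ℝ) < R := by
    have : 0 < R := hR
    exact_mod_cast this
  have hN1 : (1 : ℝ) ≤ N := by
    have : 1 ≤ N := hR.trans hRN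
    exact_mod_cast this
  have hRN' : (R : ℝ) ≤ N := by exact_mod_cast hRN
  classical
  -- the set of the indices
  obtain ⟨T, hT⟩ : ∃ T : Finset (Fin r → ℤ), T = (bx (0 : Fin r → ℤ) (2 * r * R + 1)).filter
      fun k => ∃ x ∈ L, (∀ j, x j < N) ∧ ∀ j, (b j : ℤ) = x j + S.β j * k j := ⟨_, rfl⟩
  obtain ⟨γ, hγ⟩ : ∃ γ : (Fin r → ℤ) → ℂ, γ = fun k => (sc r R k : ℂ) *
      ((S.dd (fun j => b j - S.β j * k j) / S.dd (fun j => b j) : ℝ) : ℂ) := ⟨_, rfl⟩
  have hmm : ∀ t, S.mm L N R b t = ∑ k ∈ T, γ k *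
      eu (-(t * ((S.Q (fun j => b j - S.β j * k j) : ℤ) : ℝ))) := by
    intro t
    rw [hT, hγ, Finset.sum_filter]
    unfold SPB.mm
    refine Finset.sum_congr rfl fun k _ => ?_
    split_ifs <;> rfl
  simp only [hmm]
  -- the coefficients
  have hkT : ∀ k ∈ T, (∀ j, 0 ≤ k j ∧ k j < 2 * r * R + 1) ∧ (∀ j, (b j : ℤ) - S.β j * k j < N) ∧
      ∀ j, 0 ≤ (b j : ℤ) - S.β j * k j := by
    intro k hk
    rw [hT, Finset.mem_filter] at hk
    obtain ⟨hk1, x, _, hx, hb⟩ := hk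
    refine ⟨fun j => ?_, fun j => ?_, fun j => ?_⟩
    · have := Fintype.mem_piFinset.1 hk1 j
      rw [Finset.mem_Ico] at this
      simp only [Pi.zero_apply, zero_add] at this
      exact ⟨this.1, by exact_mod_cast this.2⟩
    · rw [hb j]
      have := hx j
      omega
    · rw [hb j]
      have : (0 : ℤ) ≤ x j := by positivity
      omega
  have hdd : ∀ x : Fin r → ℤ, (∀ j, 0 ≤ x j) → 0 < S.dd x := by
    intro x hx
    unfold SPB.dd
    refine mul_pos h.D₀ (Finset.prod_pos fun p _ => ?_)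
    have : 0 ≤ ∑ j, S.α p j * (x j : ℝ) := Finset.sum_nonneg fun j _ =>
      mul_nonneg (h.α p j) (by exact_mod_cast hx j)
    linarith [h.a₀ p]
  have hγle : ∀ k ∈ T, ‖γ k‖ ≤ |sc r R k| := by
    intro k hk
    obtain ⟨k1, _, k3⟩ := hkT k hk
    have p1 := hdd _ k3
    have p2 := hdd (fun j => (b j : ℤ)) fun j => by positivity
    rw [hγ]
    simp only [norm_mul, Complex.norm_real, Real.norm_eq_abs]
    refine mul_le_of_le_one_right (abs_nonneg _) ?_
    rw [abs_of_nonneg (div_nonneg p1.le p2.le), div_le_one p2]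
    unfold SPB.dd
    refine mul_le_mul_of_nonneg_left (Finset.prod_le_prod (fun p _ => ?_) fun p _ => ?_) h.D₀.le
    · have : 0 ≤ ∑ j, S.α p j * (((b j : ℤ) - S.β j * k j : ℤ) : ℝ) :=
        Finset.sum_nonneg fun j _ => mul_nonneg (h.α p j) (by exact_mod_cast k3 j)
      linarith [h.a₀ p]
    · refine add_le_add le_rfl (Finset.sum_le_sum fun j _ =>
        mul_le_mul_of_nonneg_left ?_ (h.α p j))
      have h5 : (b j : ℤ) - S.β j * k j ≤ b j := by
        have : (0 : ℤ) ≤ S.β j * k j := mul_nonneg (by positivity) (k1 j).1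
        omega
      exact_mod_cast h5
  refine (int_sum hχ T γ (fun k => S.Q (fun j => b j - S.β j * k j)) j (fun k => |sc r R k|)
    hγle h1 h2 hE₁ hE₂).trans ?_
  -- the first sum
  have s1 : ∑ k ∈ T, |sc r R k| ≤ 2 ^ r := by
    refine le_trans ?_ (sc_sum hC hR)
    rw [hT]
    exact Finset.sum_le_sum_of_subset_of_nonneg (Finset.filter_subset _ _)
      fun _ _ _ => abs_nonneg _
  -- the second sum
  have s2 : ∑ k ∈ T.filter (fun k => S.Q (fun j => b j - S.β j * k j) = -j), |sc r R k| ≤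
      2 ^ r * (C₁ * ((N : ℝ) ^ ε / (R : ℝ) ^ 2)) := by
    by_cases hem : T = ∅
    · rw [hem]
      simp only [Finset.filter_empty, Finset.sum_empty]
      positivity
    obtain ⟨k₀, hk₀⟩ := Finset.nonempty_iff_ne_empty.2 hem
    obtain ⟨c1, c2, _⟩ := hkT k₀ hk₀
    -- the size of `b`
    have hb : ∀ i, (b i : ℝ) ≤ (1 + 2 * r * S.β i) * N := by
      intro i
      have e1 : (b i : ℤ) ≤ N + S.β i * (2 * r * R) := by
        have e2 := c2 i
        have e3 : (S.β i : ℤ) * k₀ i ≤ S.β i * (2 * r * R) :=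
          mul_le_mul_of_nonneg_left (by have := (c1 i).2; omega) (by positivity)
        omega
      have e4 : (b i : ℝ) ≤ N + S.β i * (2 * r * R) := by exact_mod_cast e1
      refine e4.trans ?_
      have e5 : (S.β i : ℝ) * (2 * r * R) ≤ S.β i * (2 * r * N) :=
        mul_le_mul_of_nonneg_left (mul_le_mul_of_nonneg_left hRN' (by positivity)) (by positivity)
      nlinarith
    -- the size of the linear form
    have hl : ∀ i, |(ll S.G S.Q S.β (fun j => (b j : ℤ)) i : ℝ)| ≤ X₀ * N := by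
      intro i
      have e1 : |(ll S.G S.Q S.β (fun j => (b j : ℤ)) i : ℝ)| ≤
          (S.β i : ℝ) * |(La S.G S.Q (Pi.single i 1) : ℝ)| +
          2 * (S.β i : ℝ) * ∑ l, |(S.G i l : ℝ)| * (b l : ℝ) := by
        unfold ll
        push_cast
        refine (abs_sub _ _).trans (add_le_add ?_ ?_)
        · rw [abs_mul, abs_neg, Nat.abs_cast]
        · rw [abs_mul, abs_mul, Nat.abs_cast, abs_two, ← mul_assoc]
          refine mul_le_mul_of_nonneg_left ?_ (by positivity)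
          simp only [Matrix.mulVec, dotProduct]
          push_cast
          refine (Finset.abs_sum_le_sum_abs _ _).trans (Finset.sum_le_sum fun l _ => ?_)
          rw [abs_mul, Nat.abs_cast]
      refine e1.trans ?_
      have e2 : ∑ l, |(S.G i l : ℝ)| * (b l : ℝ) ≤ (∑ l, |(S.G i l : ℝ)| * (1 + 2 * r * S.β l)) * N := by
        rw [Finset.sum_mul]
        refine Finset.sum_le_sum fun l _ => ?_
        rw [mul_assoc]
        exact mul_le_mul_of_nonneg_left (hb l) (abs_nonneg _)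
      have e3 : (S.β i : ℝ) * |(La S.G S.Q (Pi.single i 1) : ℝ)| +
          2 * (S.β i : ℝ) * ∑ l, |(S.G i l : ℝ)| * (1 + 2 * r * S.β l) ≤ D := by
        rw [hD]
        exact Finset.single_le_sum (f := fun j => (S.β j : ℝ) *
          |(La S.G S.Q (Pi.single j 1) : ℝ)| + 2 * (S.β j : ℝ) *
            ∑ i, |(S.G j i : ℝ)| * (1 + 2 * r * S.β i)) (fun j _ => by positivity)
          (Finset.mem_univ i)
      have e4 : 0 ≤ (S.β i : ℝ) * |(La S.G S.Q (Pi.single i 1) : ℝ)| := by positivity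
      have e5 : 2 * (S.β i : ℝ) * ∑ l, |(S.G i l : ℝ)| * (b l : ℝ) ≤
          2 * (S.β i : ℝ) * ((∑ l, |(S.G i l : ℝ)| * (1 + 2 * r * S.β l)) * N) :=
        mul_le_mul_of_nonneg_left e2 (by positivity)
      have e6 : (0 : ℝ) ≤ r := by positivity
      rw [hX₀]
      nlinarith
    -- the number of the solutions
    have hcard : (((T.filter (fun k => S.Q (fun j => b j - S.β j * k j) = -j)).card : ℕ) : ℝ) ≤
        C₁ * ((N : ℝ) ^ ε * (R : ℝ) ^ ((r : ℝ) - 2)) := by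
      have e1 := hZ' (2 * r * R + 1) (X₀ * N) (ll S.G S.Q S.β (fun j => (b j : ℤ))) 0
        (2 * (-j - S.Q (fun j => (b j : ℤ)))) (by omega) (by
          push_cast
          rw [hX₀]
          have e6 : (0 : ℝ) ≤ r := by positivity
          have e7 : 2 * (r : ℝ) * R ≤ 2 * r * N := mul_le_mul_of_nonneg_left hRN' (by positivity)
          nlinarith [mul_nonneg hD0 (by positivity : (0 : ℝ) ≤ N)]) (by
          intro i
          simp only [Pi.zero_apply, Int.cast_zero, abs_zero]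
          positivity) hl
      have e2 : (T.filter (fun k => S.Q (fun j => b j - S.β j * k j) = -j)).card ≤
          ((bx (0 : Fin r → ℤ) (2 * r * R + 1)).filter (fun x => x ⬝ᵥ (Gb S.G S.β *ᵥ x) +
            ll S.G S.Q S.β (fun j => (b j : ℤ)) ⬝ᵥ x =
              2 * (-j - S.Q (fun j => (b j : ℤ))))).card := by
        apply Finset.card_le_card
        intro k hk
        rw [Finset.mem_filter] at hk ⊢
        obtain ⟨hk1, hk2⟩ := hk
        rw [hT, Finset.mem_filter] at hk1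
        refine ⟨hk1.1, ?_⟩
        rw [← quad h.G h.quad S.β (fun j => (b j : ℤ)) k, hk2]
      have e3 : (((T.filter (fun k => S.Q (fun j => b j - S.β j * k j) = -j)).card : ℕ) : ℝ) ≤
          C₀ * (X₀ * N) ^ ε * ((2 * r * R + 1 : ℕ) : ℝ) ^ ((r : ℝ) - 2) :=
        le_trans (by exact_mod_cast e2) e1
      refine e3.trans ?_
      have e4 : (X₀ * N) ^ ε = X₀ ^ ε * (N : ℝ) ^ ε := Real.mul_rpow (by linarith) (by positivity)
      have hr2 : (0 : ℝ) ≤ (r : ℝ) - 2 := by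
        have : (2 : ℝ) ≤ r := by exact_mod_cast hr
        linarith
      have e5 : ((2 * r * R + 1 : ℕ) : ℝ) ^ ((r : ℝ) - 2) ≤
          (2 * r + 1 : ℝ) ^ ((r : ℝ) - 2) * (R : ℝ) ^ ((r : ℝ) - 2) := by
        rw [← Real.mul_rpow (by positivity) hR0.le]
        refine Real.rpow_le_rpow (by positivity) ?_ hr2
        push_cast
        have : (1 : ℝ) ≤ R := by exact_mod_cast hR
        nlinarith
      rw [e4, hC₁]
      have e6 : 0 ≤ C₀ * (X₀ ^ ε * (N : ℝ) ^ ε) := by positivity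
      calc C₀ * (X₀ ^ ε * (N : ℝ) ^ ε) * ((2 * r * R + 1 : ℕ) : ℝ) ^ ((r : ℝ) - 2) ≤
          C₀ * (X₀ ^ ε * (N : ℝ) ^ ε) *
            ((2 * r + 1 : ℝ) ^ ((r : ℝ) - 2) * (R : ℝ) ^ ((r : ℝ) - 2)) :=
            mul_le_mul_of_nonneg_left e5 e6
        _ = _ := by ring
    refine (Finset.sum_le_card_nsmul _ _ _ fun k _ => sc_le hC hR k).trans ?_
    rw [nsmul_eq_mul]
    have e1 : (0 : ℝ) ≤ 2 ^ r * (1 / (R : ℝ)) ^ r := by positivity
    refine (mul_le_mul_of_nonneg_right hcard e1).trans (le_of_eq ?_)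
    have e2 : (R : ℝ) ^ ((r : ℝ) - 2) = (R : ℝ) ^ r / (R : ℝ) ^ 2 := by
      rw [Real.rpow_sub hR0, Real.rpow_natCast]
      congr 1
      exact_mod_cast Real.rpow_natCast (R : ℝ) 2
    rw [e2, one_div, inv_pow]
    have e3 : (R : ℝ) ^ r ≠ 0 := by positivity
    have e4 : (R : ℝ) ^ 2 ≠ 0 := by positivity
    field_simp
  have s3 := mul_le_mul_of_nonneg_left s1 h1
  have s4 := mul_le_mul_of_nonneg_left s2 h2
  have s5 : 0 ≤ E₂ * ((N : ℝ) ^ ε / (R : ℝ) ^ 2) := by positivity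
  have s6 : E₂ * (N : ℝ) ^ ε / (R : ℝ) ^ 2 = E₂ * ((N : ℝ) ^ ε / (R : ℝ) ^ 2) := by ring
  rw [s6]
  have s7 : 0 ≤ (2 : ℝ) ^ r * C₁ * E₁ := by positivity
  have s8 : 0 ≤ (2 : ℝ) ^ r * (E₂ * ((N : ℝ) ^ ε / (R : ℝ) ^ 2)) := by positivity
  calc E₁ * ∑ k ∈ T, |sc r R k| + E₂ * ∑ k ∈ T.filter
        (fun k => S.Q (fun j => b j - S.β j * k j) = -j), |sc r R k| ≤
      E₁ * 2 ^ r + E₂ * (2 ^ r * (C₁ * ((N : ℝ) ^ ε / (R : ℝ) ^ 2))) := add_le_add s3 s4
    _ ≤ 2 ^ r * (1 + C₁) * (E₁ + E₂ * ((N : ℝ) ^ ε / (R : ℝ) ^ 2)) := by nlinarith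

end SYM
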