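import Pool.Agent.SYM.StT
import Pool.Agent.STZ.WCLF

/-!
# MULS: the bound of the multipliers
-/

namespace SYM

open STZ LGR MeasureTheory Matrix Filter

open scoped ComplexConjugate Matrix Real Topology

noncomputable section

namespace MULS

variable {r : ℕ}

/-- affine weights on boxes with different scales -/
theorem linY (z : Fin r → ℤ) (n : Fin r → ℕ) (R : Fin r → ℝ) (L : ℝ) (a : Fin r → ℂ) (b : ℂ)
    (hR : ∀ i, 0 < R i) (hL : 0 ≤ L) (ha : ∀ i, ‖a i‖ ≤ L / R i)
    (hf : ∀ x ∈ bxn z n, ‖b + ∑ i, a i * x i‖ ≤ L) :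
    WClY z n R L (fun x => b + ∑ i, a i * x i) := by
  intro S x hx _
  rcases S.eq_empty_or_nonempty with rfl | ⟨i, hi⟩
  · rw [WCLF.DS_empty]
    simpa using hf x hx
  · rw [← Finset.insert_erase hi, WCLF.DS_insert' (Finset.notMem_erase i S)]
    have e : (fun y : Fin r → ℤ => (b + ∑ j, a j * y j) -
        (b + ∑ j, a j * ((y + ind {i} : Fin r → ℤ) j : ℂ))) = fun _ => -a i := by
      funext y
      have : ∑ j, a j * ((y + ind {i} : Fin r → ℤ) j : ℂ) = ∑ j, a j * y j + a i := by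
        have h2 : ∑ j, a j * ((ind {i} : Fin r → ℤ) j : ℂ) = a i := by
          rw [Finset.sum_eq_single i]
          · simp [ind]
          · intro j _ hj
            simp [ind, hj]
          · intro h
            exact absurd (Finset.mem_univ i) h
        rw [← h2, ← Finset.sum_add_distrib]
        refine Finset.sum_congr rfl fun j _ => ?_
        rw [Pi.add_apply]
        push_cast
        ring
      rw [this]
      ring
    rw [e]
    rcases (S.erase i).eq_empty_or_nonempty with h0 | h0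
    · rw [h0, WCLF.DS_empty, norm_neg]
      simpa using ha i
    · rw [WCLF.DS_const h0, norm_zero]
      exact div_nonneg hL (Finset.prod_nonneg fun j _ => (hR j).le)

/-- products of weights -/
theorem prodY (hC : WCY) {ι : Type} (s : Finset ι) (z : Fin r → ℤ) (n : Fin r → ℕ) (R : Fin r → ℝ)
    (L : ι → ℝ) (g : ι → (Fin r → ℤ) → ℂ) (hR : ∀ i, 0 < R i) (hL : ∀ p, 0 ≤ L p)
    (hg : ∀ p, WClY z n R (L p) (g p)) :
    WClY z n R ((2 ^ r) ^ s.card * ∏ p ∈ s, L p) (fun x => ∏ p ∈ s, g p x) := by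
  classical
  induction s using Finset.induction_on with
  | empty =>
    have := hC.const r z n R 1 hR
    simpa using this
  | insert p s hp ih =>
    have h0 : 0 ≤ (2 ^ r : ℝ) ^ s.card * ∏ p ∈ s, L p :=
      mul_nonneg (by positivity) (Finset.prod_nonneg fun p _ => hL p)
    have h := hC.mul r z n R (L p) ((2 ^ r) ^ s.card * ∏ p ∈ s, L p) (g p) (fun x => ∏ p ∈ s, g p x)
      hR (hL p) h0 (hg p) ih
    have e1 : (fun x => ∏ p ∈ insert p s, g p x) = fun x => g p x * ∏ p ∈ s, g p x := by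
      funext x
      rw [Finset.prod_insert hp]
    have e2 : (2 ^ r : ℝ) ^ (insert p s).card * ∏ p ∈ insert p s, L p =
        2 ^ r * (L p * ((2 ^ r) ^ s.card * ∏ p ∈ s, L p)) := by
      rw [Finset.card_insert_of_notMem hp, Finset.prod_insert hp, pow_succ]
      ring
    rw [e1, e2]
    exact h

/-- the substitution `x = v - k` -/
theorem sum_box (K : ℕ) (l u v : Fin r → ℤ) (F : (Fin r → ℤ) → ℂ) :
    (∑ k ∈ bx (0 : Fin r → ℤ) (K + 1), if ∀ j, l j ≤ v j - k j ∧ v j - k j < u j then F (v - k) else 0) =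
      ∑ x ∈ bxn (fun j => max (v j - (K : ℤ)) (l j))
        (fun j => (min (v j + 1) (u j) - max (v j - (K : ℤ)) (l j)).toNat), F x := by
  classical
  rw [← Finset.sum_filter]
  refine Finset.sum_nbij' (fun k => v - k) (fun x => v - x) ?_ ?_ ?_ ?_ ?_
  · intro k hk
    rw [Finset.mem_filter] at hk
    obtain ⟨h1, h2⟩ := hk
    rw [bx, Fintype.mem_piFinset] at h1
    rw [bxn, Fintype.mem_piFinset]
    intro j
    have h3 := Finset.mem_Ico.1 (h1 j)
    have h4 := h2 j
    rw [Finset.mem_Ico]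
    simp only [Pi.sub_apply, Pi.zero_apply] at h3 ⊢
    push_cast at h3
    omega
  · intro x hx
    rw [bxn, Fintype.mem_piFinset] at hx
    rw [Finset.mem_filter, bx, Fintype.mem_piFinset]
    constructor
    · intro j
      have h3 := Finset.mem_Ico.1 (hx j)
      rw [Finset.mem_Ico]
      simp only [Pi.sub_apply, Pi.zero_apply] at h3 ⊢
      push_cast
      omega
    · intro j
      have h3 := Finset.mem_Ico.1 (hx j)
      simp only [Pi.sub_apply] at h3 ⊢
      omega
  · intro k _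
    exact sub_sub_cancel v k
  · intro x _
    exact sub_sub_cancel v x
  · intro k _
    rfl

end MULS

open MULS in
theorem t_MULS : M_MULS := by
  intro hW hY hA hC hF
  unfold S_MULS
  intro r G hG ι _ a₀ a ha₀ ha
  classical
  obtain ⟨c, hc1, hc⟩ := hY r G hG
  set Cp : ι → ℝ := fun p => 1 + ∑ j, a p j / a₀ p with hCp
  have hCp1 : ∀ p, 1 ≤ Cp p := by
    intro p
    have : 0 ≤ ∑ j, a p j / a₀ p := Finset.sum_nonneg fun j _ => div_nonneg (ha p j) (ha₀ p).le
    rw [hCp]
    simp only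
    linarith
  have hCp0 : ∀ p, 0 ≤ Cp p := fun p => zero_le_one.trans (hCp1 p)
  set q := Fintype.card ι with hq
  set C₁ : ℝ := √(c * (2 * r + 1) ^ r) * (2 ^ r * ((2 ^ r) ^ q * ∏ p, Cp p)) * (2 * r + 2) ^ r with hC₁
  have hPC : 0 ≤ ∏ p, Cp p := Finset.prod_nonneg fun p _ => hCp0 p
  have hC₁0 : 0 ≤ C₁ := by
    rw [hC₁]
    positivity
  refine ⟨2 ^ r * C₁, (2 * r + 1) * c, by positivity, ?_, ?_⟩
  · exact Nat.one_le_iff_ne_zero.2 (Nat.mul_ne_zero (by omega) (by omega))
  intro M l u v t φ ψ hM hl hv hφ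
  have hM' : (1 : ℝ) ≤ M := by exact_mod_cast hM
  have hM0 : (0 : ℝ) < M := by linarith
  set W := WW M ((2 * r + 1) * c) t with hWdef
  have hWM : (M : ℝ) ≤ W := hW.ge M _ t
  have hW0 : 0 ≤ W := by linarith
  set Λ : ι → (Fin r → ℤ) → ℝ := fun p x => a₀ p + ∑ j, a p j * (x j : ℝ) with hΛ
  have hΛv : ∀ p, 0 ≤ Λ p v := by
    intro p
    refine add_nonneg (ha₀ p).le (Finset.sum_nonneg fun j _ => mul_nonneg (ha p j) ?_)
    exact_mod_cast hv j
  set K : ℕ := 2 * r * M with hK
  set z : Fin r → ℤ := fun j => max (v j - (K : ℤ)) (l j) with hz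
  set n : Fin r → ℕ := fun j => (min (v j + 1) (u j) - max (v j - (K : ℤ)) (l j)).toNat with hn
  set R : Fin r → ℕ := fun j => min M (v j + 1).toNat with hR
  have hR1 : ∀ j, 1 ≤ R j := by
    intro j
    have := hv j
    rw [hR]
    simp only
    omega
  have hR1' : ∀ j, (1 : ℝ) ≤ R j := fun j => by exact_mod_cast hR1 j
  have hR0 : ∀ j, (0 : ℝ) < (fun j => (R j : ℝ)) j := fun j => by
    have := hR1' j
    simp only
    linarith
  have hRM : ∀ j, R j ≤ M := fun j => min_le_left _ _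
  have hRv : ∀ j, (R j : ℝ) ≤ v j + 1 := by
    intro j
    have h1 : R j ≤ (v j + 1).toNat := min_le_right _ _
    have h2 : ((v j + 1).toNat : ℤ) = v j + 1 := Int.toNat_of_nonneg (by have := hv j; omega)
    have h3 : (R j : ℤ) ≤ v j + 1 := by rw [← h2]; exact_mod_cast h1
    exact_mod_cast h3
  have hnR : ∀ j, n j ≤ (2 * r + 1) * R j := by
    intro j
    have h1 : n j ≤ K + 1 := by
      rw [hn]
      simp only
      omega
    have h2 : n j ≤ (v j + 1).toNat := by
      have := hl j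
      rw [hn]
      simp only
      omega
    rcases le_total M (v j + 1).toNat with h3 | h3
    · have h4 : R j = M := min_eq_left h3
      rw [h4]
      refine h1.trans ?_
      rw [hK]
      have : (2 * r + 1) * M = 2 * r * M + M := by ring
      omega
    · have h4 : R j = (v j + 1).toNat := min_eq_right h3
      rw [h4]
      refine h2.trans ?_
      exact Nat.le_mul_of_pos_left _ (by omega)
  -- the exponential sum
  set B : ℝ := √(c * (2 * r + 1) ^ r) * W ^ ((r : ℝ) / 2) with hB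
  have hB0 : 0 ≤ B := mul_nonneg (Real.sqrt_nonneg _) (Real.rpow_nonneg hW0 _)
  have hsub : ∀ m : Fin r → ℕ, (∀ i, m i ≤ n i) → ‖∑ x ∈ bxn z m, eu (φ x)‖ ≤ B := by
    intro m hm
    have h1 := hc (fun j => (2 * r + 1) * R j) z m t φ ψ
      (fun j => Nat.one_le_iff_ne_zero.2 (Nat.mul_ne_zero (by omega) (by have := hR1 j; omega)))
      (fun i => (hm i).trans (hnR i)) hφ
    have h2 : ∏ i, WW ((2 * r + 1) * R i) c t ≤ ∏ _i : Fin r, ((2 * r + 1) * W) := by
      refine Finset.prod_le_prod (fun i _ => ?_) fun i _ => ?_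
      · exact le_trans (Nat.cast_nonneg _) (hW.ge _ c t)
      · refine (hW.scale (2 * r + 1) (R i) c t (by omega)).trans ?_
        push_cast
        refine mul_le_mul_of_nonneg_left (hW.mono _ _ _ _ t (hRM i) le_rfl) (by positivity)
    rw [Finset.prod_const, Finset.card_univ, Fintype.card_fin, mul_pow] at h2
    have h3 : ‖∑ x ∈ bxn z m, eu (φ x)‖ ^ 2 ≤ c * (2 * r + 1) ^ r * W ^ r := by
      refine h1.trans ?_
      rw [mul_assoc]
      exact mul_le_mul_of_nonneg_left h2 (Nat.cast_nonneg c)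
    refine (Real.le_sqrt_of_sq_le h3).trans (le_of_eq ?_)
    have h4 : √(W ^ r) = W ^ ((r : ℝ) / 2) := by
      rw [Real.sqrt_eq_rpow, ← Real.rpow_natCast, ← Real.rpow_mul hW0]
      congr 1
      ring
    rw [Real.sqrt_mul (by positivity), hB, h4]
  -- the weights
  have hlin : ∀ p, WClY z n (fun j => (R j : ℝ)) (Cp p * Λ p v) (fun x => ((Λ p x : ℝ) : ℂ)) := by
    intro p
    have h1 := linY z n (fun j => (R j : ℝ)) (Cp p * Λ p v) (fun j => (a p j : ℂ)) (a₀ p : ℂ) hR0
      (mul_nonneg (hCp0 p) (hΛv p)) ?_ ?_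
    · have e : (fun x : Fin r → ℤ => ((Λ p x : ℝ) : ℂ)) =
          fun x => (a₀ p : ℂ) + ∑ i, (fun j => (a p j : ℂ)) i * x i := by
        funext x
        rw [hΛ]
        push_cast
        rfl
      rw [e]
      exact h1
    · intro j
      rw [le_div_iff₀ (hR0 j), Complex.norm_real, Real.norm_of_nonneg (ha p j)]
      have h2 : a p j * R j ≤ a p j * (v j + 1) := mul_le_mul_of_nonneg_left (hRv j) (ha p j)
      have h3 : a p j * (v j : ℝ) ≤ ∑ j, a p j * (v j : ℝ) := by
        refine Finset.single_le_sum (f := fun j => a p j * (v j : ℝ)) (fun j _ => ?_) (Finset.mem_univ j)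
        refine mul_nonneg (ha p j) ?_
        exact_mod_cast hv j
      have h4 : a p j / a₀ p ≤ ∑ j, a p j / a₀ p :=
        Finset.single_le_sum (f := fun j => a p j / a₀ p)
          (fun j _ => div_nonneg (ha p j) (ha₀ p).le) (Finset.mem_univ j)
      have h5 : a p j ≤ (∑ j, a p j / a₀ p) * Λ p v := by
        have h6 : a₀ p ≤ Λ p v := by
          rw [hΛ]
          simp only
          have : 0 ≤ ∑ j, a p j * (v j : ℝ) := Finset.sum_nonneg fun j _ =>
            mul_nonneg (ha p j) (by exact_mod_cast hv j)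
          linarith
        have h7 : a p j / a₀ p * a₀ p ≤ (∑ j, a p j / a₀ p) * Λ p v :=
          mul_le_mul h4 h6 (ha₀ p).le (Finset.sum_nonneg fun j _ => div_nonneg (ha p j) (ha₀ p).le)
        rwa [div_mul_cancel₀ _ (ha₀ p).ne'] at h7
      have h8 : a p j * (v j : ℝ) ≤ Λ p v := by
        rw [hΛ]
        simp only
        have := (ha₀ p).le
        linarith
      rw [hCp]
      simp only
      nlinarith
    · intro x hx
      have hx' := (WCLF.mem_bxn).1 hx
      have hx0 : ∀ j, 0 ≤ x j := by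
        intro j
        have h2 := (hx' j).1
        have h3 := hl j
        rw [hz] at h2
        simp only at h2
        omega
      have hxv : ∀ j, x j ≤ v j := by
        intro j
        have h2 := hx' j
        have h3 := hl j
        rw [hz, hn] at h2
        simp only at h2
        omega
      have e : (a₀ p : ℂ) + ∑ i, (fun j => (a p j : ℂ)) i * x i = ((Λ p x : ℝ) : ℂ) := by
        rw [hΛ]
        push_cast
        rfl
      have h0 : 0 ≤ Λ p x := add_nonneg (ha₀ p).le (Finset.sum_nonneg fun j _ =>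
        mul_nonneg (ha p j) (by exact_mod_cast hx0 j))
      rw [e, Complex.norm_real, Real.norm_of_nonneg h0]
      have h1 : Λ p x ≤ Λ p v := by
        rw [hΛ]
        simp only
        refine add_le_add_right ?_ _
        refine Finset.sum_le_sum fun j _ => mul_le_mul_of_nonneg_left ?_ (ha p j)
        exact_mod_cast hxv j
      refine h1.trans ?_
      exact le_mul_of_one_le_left (hΛv p) (hCp1 p)
  have hprod : WClY z n (fun j => (R j : ℝ)) ((2 ^ r) ^ q * ∏ p, (Cp p * Λ p v))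
      (fun x => ∏ p, ((Λ p x : ℝ) : ℂ)) := by
    have := prodY hC Finset.univ z n (fun j => (R j : ℝ)) (fun p => Cp p * Λ p v)
      (fun p x => ((Λ p x : ℝ) : ℂ)) hR0 (fun p => mul_nonneg (hCp0 p) (hΛv p)) hlin
    rwa [Finset.card_univ] at this
  have hfc : ∀ i, 1 ≤ i → WClY z n (fun j => (R j : ℝ)) (∏ _j : Fin r, (1 / (M : ℝ)))
      (fun x => ∏ j, ((fc M i (v j - x j) : ℝ) : ℂ)) := by
    intro i hi
    refine hC.coord r z n (fun j => (R j : ℝ)) (fun _ => 1 / (M : ℝ))
      (fun j y => ((fc M i (v j - y) : ℝ) : ℂ)) hR0 (fun _ => by positivity) ?_ ?_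
    · intro j y
      rw [Complex.norm_real, Real.norm_of_nonneg (hF.nn M i _)]
      exact hF.le M i _ hM hi
    · intro j y
      rw [← Complex.ofReal_sub, Complex.norm_real, Real.norm_eq_abs, abs_sub_comm]
      have h1 := hF.dif M i (v j - (y + 1)) hM hi
      have h2 : v j - (y + 1) + 1 = v j - y := by ring
      rw [h2] at h1
      refine h1.trans ?_
      rw [div_div, sq]
      refine one_div_le_one_div_of_le (mul_pos hM0 (hR0 j)) ?_
      refine mul_le_mul_of_nonneg_left ?_ hM0.le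
      exact_mod_cast hRM j
  have hweight : ∀ i, 1 ≤ i → WClY z n (fun j => (R j : ℝ))
      (2 ^ r * ((∏ _j : Fin r, (1 / (M : ℝ))) * ((2 ^ r) ^ q * ∏ p, (Cp p * Λ p v))))
      (fun x => (∏ j, ((fc M i (v j - x j) : ℝ) : ℂ)) * ∏ p, ((Λ p x : ℝ) : ℂ)) := by
    intro i hi
    exact hC.mul r z n _ _ _ _ _ hR0 (Finset.prod_nonneg fun _ _ => by positivity)
      (mul_nonneg (by positivity) (Finset.prod_nonneg fun p _ => mul_nonneg (hCp0 p) (hΛv p)))
      (hfc i hi) hprod
  have hPL : 0 ≤ ∏ p, Λ p v := Finset.prod_nonneg fun p _ => hΛv p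
  -- one of the sums
  have hone : ∀ i, 1 ≤ i → ‖∑ x ∈ bxn z n, eu (φ x) *
      ((∏ j, ((fc M i (v j - x j) : ℝ) : ℂ)) * ∏ p, ((Λ p x : ℝ) : ℂ))‖ ≤
      C₁ * ((∏ p, Λ p v) * ((M : ℝ) ^ (-(r : ℝ)) * W ^ ((r : ℝ) / 2))) := by
    intro i hi
    have hL0 : 0 ≤ 2 ^ r * ((∏ _j : Fin r, (1 / (M : ℝ))) * ((2 ^ r) ^ q * ∏ p, (Cp p * Λ p v))) := by
      have := Finset.prod_nonneg fun p (_ : p ∈ Finset.univ) => mul_nonneg (hCp0 p) (hΛv p)
      positivity
    have h1 := hA r z n (fun j => (R j : ℝ)) _ B (fun x => eu (φ x))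
      (fun x => (∏ j, ((fc M i (v j - x j) : ℝ) : ℂ)) * ∏ p, ((Λ p x : ℝ) : ℂ)) hR0 hL0 hB0 hsub
      (hweight i hi)
    refine h1.trans ?_
    have h2 : ∏ j, (1 + (n j : ℝ) / R j) ≤ ∏ _j : Fin r, ((2 * r + 2 : ℝ)) := by
      refine Finset.prod_le_prod (fun j _ => by positivity) fun j _ => ?_
      have h3 : (n j : ℝ) / R j ≤ 2 * r + 1 := by
        have h4 : (n j : ℝ) ≤ (2 * r + 1) * R j := by exact_mod_cast hnR j
        rw [div_le_iff₀ (hR0 j)]
        exact h4
      linarith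
    rw [Finset.prod_const, Finset.card_univ, Fintype.card_fin] at h2
    refine (mul_le_mul_of_nonneg_left h2 (mul_nonneg hB0 hL0)).trans (le_of_eq ?_)
    rw [Finset.prod_const, Finset.card_univ, Fintype.card_fin, Finset.prod_mul_distrib, hB, hC₁,
      Real.rpow_neg hM0.le, Real.rpow_natCast, one_div, inv_pow]
    ring
  -- the sum over `i`
  have hsum : (∑ k ∈ bx (0 : Fin r → ℤ) (2 * r * M + 1), if ∀ j, l j ≤ v j - k j ∧ v j - k j < u j then
      (sc r M k : ℂ) * ((∏ p, (a₀ p + ∑ j, a p j * ((v j - k j : ℤ) : ℝ)) : ℝ) : ℂ) * eu (φ (v - k)) else 0) =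
      ∑ i ∈ Finset.Icc 1 r, ((-1 : ℂ) ^ (i + 1) * (r.choose i)) * ∑ x ∈ bxn z n, eu (φ x) *
        ((∏ j, ((fc M i (v j - x j) : ℝ) : ℂ)) * ∏ p, ((Λ p x : ℝ) : ℂ)) := by
    have h1 := sum_box K l u v (fun x => ∑ i ∈ Finset.Icc 1 r, ((-1 : ℂ) ^ (i + 1) * (r.choose i)) *
      (eu (φ x) * ((∏ j, ((fc M i (v j - x j) : ℝ) : ℂ)) * ∏ p, ((Λ p x : ℝ) : ℂ))))
    rw [Finset.sum_comm] at h1
    refine Eq.trans ?_ (h1.trans ?_)
    · refine Finset.sum_congr rfl fun k _ => ?_
      split_ifs with h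
      · rw [sc, hΛ]
        push_cast
        simp only [Pi.sub_apply, sub_sub_cancel]
        rw [mul_assoc, Finset.sum_mul]
        refine Finset.sum_congr rfl fun i _ => ?_
        push_cast
        ring
      · rfl
    · refine Finset.sum_congr rfl fun i _ => ?_
      rw [Finset.mul_sum]
  rw [hsum]
  have h9 : ∀ i ∈ Finset.Icc 1 r, ‖((-1 : ℂ) ^ (i + 1) * (r.choose i)) * ∑ x ∈ bxn z n, eu (φ x) *
        ((∏ j, ((fc M i (v j - x j) : ℝ) : ℂ)) * ∏ p, ((Λ p x : ℝ) : ℂ))‖ ≤
      (r.choose i : ℝ) * (C₁ * ((∏ p, Λ p v) * ((M : ℝ) ^ (-(r : ℝ)) * W ^ ((r : ℝ) / 2)))) := by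
    intro i hi
    rw [norm_mul, norm_mul, norm_pow, norm_neg, norm_one, one_pow, one_mul, Complex.norm_natCast]
    exact mul_le_mul_of_nonneg_left (hone i (Finset.mem_Icc.1 hi).1) (Nat.cast_nonneg _)
  refine (norm_sum_le_of_le _ h9).trans ?_
  rw [← Finset.sum_mul]
  have h10 : ∑ i ∈ Finset.Icc 1 r, (r.choose i : ℝ) ≤ 2 ^ r := by
    have h11 : ∑ i ∈ Finset.Icc 1 r, (r.choose i : ℝ) ≤ ∑ i ∈ Finset.range (r + 1), (r.choose i : ℝ) := by
      refine Finset.sum_le_sum_of_subset_of_nonneg ?_ fun _ _ _ => Nat.cast_nonneg _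
      intro i hi
      have := Finset.mem_Icc.1 hi
      exact Finset.mem_range.2 (by omega)
    refine h11.trans (le_of_eq ?_)
    have := Nat.sum_range_choose r
    exact_mod_cast this
  have h12 : 0 ≤ C₁ * ((∏ p, Λ p v) * ((M : ℝ) ^ (-(r : ℝ)) * W ^ ((r : ℝ) / 2))) := by
    have := Real.rpow_nonneg hM0.le (-(r : ℝ))
    have := Real.rpow_nonneg hW0 ((r : ℝ) / 2)
    positivity
  refine (mul_le_mul_of_nonneg_right h10 h12).trans (le_of_eq ?_)
  ring

end

end SYM
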