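import Pool.Agent.SYM.StZ

/-!
# Module MULZ
-/

set_option autoImplicit false

namespace SYM

open STZ LGR MeasureTheory Matrix Filter

open scoped ComplexConjugate Matrix Real Topology

namespace MULZ

/-- the matrix `β i β j G i j` -/
def Gb {r : ℕ} (β : Fin r → ℕ) (G : Matrix (Fin r) (Fin r) ℤ) : Matrix (Fin r) (Fin r) ℤ :=
  Matrix.of fun i j => (β i : ℤ) * β j * G i j

lemma Gb_dot {r : ℕ} (β : Fin r → ℕ) (G : Matrix (Fin r) (Fin r) ℤ) (x h : Fin r → ℤ) :
    x ⬝ᵥ (Gb β G *ᵥ h) = (fun j => (β j : ℤ) * x j) ⬝ᵥ (G *ᵥ fun j => (β j : ℤ) * h j) := by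
  simp only [dotProduct, mulVec, Gb, Matrix.of_apply, Finset.mul_sum]
  refine Finset.sum_congr rfl fun i _ => Finset.sum_congr rfl fun j _ => ?_
  ring

lemma Gb_pd {r : ℕ} (β : Fin r → ℕ) (G : Matrix (Fin r) (Fin r) ℤ) (hG : PD G)
    (hβ : ∀ j, 1 ≤ β j) : PD (Gb β G) := by
  constructor
  · ext i j
    have h := congrFun (congrFun hG.1 i) j
    rw [Matrix.transpose_apply] at h
    rw [Matrix.transpose_apply]
    simp only [Gb, Matrix.of_apply]
    rw [h]
    ring
  · intro x hx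
    rw [Gb_dot]
    apply hG.2
    intro h0
    apply hx
    ext j
    have h1 : (β j : ℤ) * x j = 0 := congrFun h0 j
    have h2 : (β j : ℤ) ≠ 0 := by
      have := hβ j
      omega
    exact (mul_eq_zero.mp h1).resolve_left h2

/-- the indicator function of `L`, written with the classes -/
lemma step1 {r q : ℕ} (L : Set (Fin r → ℕ)) (β : Fin r → ℕ) (a : Fin q → Fin r → ℕ)
    (c : Fin q → ℤ)
    (cls : ∀ x : Fin r → ℕ, (x ∈ L → ∑ s, (if ∀ j, a s j ≤ x j ∧ β j ∣ x j - a s j then c s else 0) = 1) ∧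
      (x ∉ L → ∑ s, (if ∀ j, a s j ≤ x j ∧ β j ∣ x j - a s j then c s else 0) = 0))
    (N : ℕ) (b : Fin r → ℕ) (k : Fin r → ℤ) (w : ℂ) [d : Decidable (∃ x ∈ L, (∀ j, x j < N) ∧ ∀ j, (b j : ℤ) = x j + β j * k j)]
    [d' : ∀ s, Decidable (∀ j, (a s j : ℤ) ≤ b j - β j * k j ∧ (b j : ℤ) - β j * k j < N ∧
        (β j : ℤ) ∣ b j - β j * k j - a s j)] :
    (if ∃ x ∈ L, (∀ j, x j < N) ∧ ∀ j, (b j : ℤ) = x j + β j * k j then w else 0) =
      ∑ s, (c s : ℂ) * (if ∀ j, (a s j : ℤ) ≤ b j - β j * k j ∧ (b j : ℤ) - β j * k j < N ∧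
        (β j : ℤ) ∣ b j - β j * k j - a s j then w else 0) := by
  by_cases hpos : ∀ j, 0 ≤ (b j : ℤ) - β j * k j
  swap
  · rw [if_neg, eq_comm]
    · apply Finset.sum_eq_zero
      intro s _
      rw [if_neg, mul_zero]
      intro h
      apply hpos
      intro j
      have := (h j).1
      omega
    · rintro ⟨x, -, -, hx⟩
      apply hpos
      intro j
      have := hx j
      omega
  obtain ⟨x, hx⟩ : ∃ x : Fin r → ℕ, ∀ j, (x j : ℤ) = (b j : ℤ) - β j * k j :=
    ⟨fun j => ((b j : ℤ) - β j * k j).toNat, fun j => Int.toNat_of_nonneg (hpos j)⟩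
  have h1 : (∃ x ∈ L, (∀ j, x j < N) ∧ ∀ j, (b j : ℤ) = x j + β j * k j) ↔
      (x ∈ L ∧ ∀ j, x j < N) := by
    constructor
    · rintro ⟨y, hy, hyN, hyb⟩
      have : y = x := by
        ext j
        have h1 := hx j
        have h2 := hyb j
        omega
      subst this
      exact ⟨hy, hyN⟩
    · rintro ⟨h1, h2⟩
      exact ⟨x, h1, h2, fun j => by have := hx j; omega⟩
  have h2 : ∀ s, (∀ j, (a s j : ℤ) ≤ b j - β j * k j ∧ (b j : ℤ) - β j * k j < N ∧
        (β j : ℤ) ∣ b j - β j * k j - a s j) ↔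
      ((∀ j, x j < N) ∧ ∀ j, a s j ≤ x j ∧ β j ∣ x j - a s j) := by
    intro s
    constructor
    · intro h
      refine ⟨fun j => ?_, fun j => ⟨?_, ?_⟩⟩
      · have h1 := hx j
        have h2 := (h j).2.1
        omega
      · have h1 := hx j
        have h2 := (h j).1
        omega
      · have h1 := hx j
        have h2 := (h j).1
        have h3 := (h j).2.2
        rw [← h1] at h3 h2
        have h4 : a s j ≤ x j := by exact_mod_cast h2
        have h5 : ((x j - a s j : ℕ) : ℤ) = (x j : ℤ) - a s j := by omega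
        rw [← h5] at h3
        exact_mod_cast h3
    · rintro ⟨h1, h2⟩ j
      rw [← hx j]
      refine ⟨by exact_mod_cast (h2 j).1, by exact_mod_cast h1 j, ?_⟩
      have h5 : ((x j - a s j : ℕ) : ℤ) = (x j : ℤ) - a s j := by
        have := (h2 j).1
        omega
      rw [← h5]
      exact_mod_cast (h2 j).2
  by_cases hN : ∀ j, x j < N
  swap
  · rw [if_neg, eq_comm]
    · apply Finset.sum_eq_zero
      intro s _
      rw [if_neg, mul_zero]
      rw [h2]
      exact fun h => hN h.1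
    · rw [h1]
      exact fun h => hN h.2
  have h3 : ∀ s, (c s : ℂ) * (if ∀ j, (a s j : ℤ) ≤ b j - β j * k j ∧ (b j : ℤ) - β j * k j < N ∧
        (β j : ℤ) ∣ b j - β j * k j - a s j then w else 0) =
      ((if ∀ j, a s j ≤ x j ∧ β j ∣ x j - a s j then c s else 0 : ℤ) : ℂ) * w := by
    intro s
    by_cases h : ∀ j, a s j ≤ x j ∧ β j ∣ x j - a s j
    · rw [if_pos ((h2 s).mpr ⟨hN, h⟩), if_pos h]
    · rw [if_neg (fun h' => h ((h2 s).mp h').2), if_neg h]
      simp
  rw [Finset.sum_congr rfl fun s _ => h3 s, ← Finset.sum_mul, ← Int.cast_sum]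
  by_cases hL : x ∈ L
  · rw [if_pos (h1.mpr ⟨hL, hN⟩), (cls x).1 hL]
    simp
  · rw [if_neg (fun h => hL (h1.mp h).1), (cls x).2 hL]
    simp

lemma lt_nn {r n q : ℕ} {M Y : Type} (S : SPB M Y r n q) (hβ : ∀ j, 1 ≤ S.β j) (s : Fin q) (N : ℕ) (j : Fin r)
    (y : ℤ) (hy : 0 ≤ y) : y < (S.nn s N j : ℤ) ↔ (S.a s j : ℤ) + S.β j * y < N := by
  obtain ⟨y, rfl⟩ := Int.eq_ofNat_of_zero_le hy
  have hb := hβ j
  have h1 : (y < S.nn s N j) ↔ S.a s j + S.β j * y < N := by
    rw [SPB.nn, Nat.lt_iff_add_one_le, Nat.le_div_iff_mul_le (by omega)]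
    have h2 : (y + 1) * S.β j = S.β j * y + S.β j := by ring
    rw [h2]
    omega
  constructor
  · intro h
    have h' : y < S.nn s N j := by exact_mod_cast h
    exact_mod_cast h1.mp h'
  · intro h
    have h' : S.a s j + S.β j * y < N := by exact_mod_cast h
    exact_mod_cast h1.mpr h'

end MULZ

open MULZ

open Classical in
theorem t_MULZ : M_MULZ := by
  intro hW hM M Y _ _ _ _ r n q S L KM μ ν hS
  have hPD := Gb_pd S.β S.G hS.G hS.β
  have hforms := fun s : Fin q => hM r (Gb S.β S.G) hPD (Fin n) (fun p => S.a₀ p + ∑ j, S.α p j * (S.a s j : ℝ))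
    (fun p j => S.α p j * S.β j)
    (fun p => add_pos_of_pos_of_nonneg (hS.a₀ p) (Finset.sum_nonneg fun j _ => mul_nonneg (hS.α p j) (Nat.cast_nonneg _)))
    (fun p j => mul_nonneg (hS.α p j) (Nat.cast_nonneg _))
  choose C c hC hc hb using hforms
  refine ⟨∑ s, |(S.c s : ℝ)| * C s, 1 + ∑ s, c s, Finset.sum_nonneg fun s _ => mul_nonneg (abs_nonneg _) (hC s), by omega, ?_⟩
  intro N R b t hR
  set Pb : ℝ := ∏ p, (S.a₀ p + ∑ j, S.α p j * (b j : ℝ)) with hPb
  have hPb0 : 0 < Pb := Finset.prod_pos fun p _ =>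
    add_pos_of_pos_of_nonneg (hS.a₀ p) (Finset.sum_nonneg fun j _ => mul_nonneg (hS.α p j) (Nat.cast_nonneg _))
  set w : (Fin r → ℤ) → ℂ := fun k => (sc r R k : ℂ) * ((S.dd (fun j => b j - S.β j * k j) / S.dd (fun j => b j) : ℝ) : ℂ) *
      eu (-(t * (S.Q (fun j => b j - S.β j * k j) : ℝ))) with hw
  set T : Fin q → ℂ := fun s => ∑ k ∈ bx (0 : Fin r → ℤ) (2 * r * R + 1),
    if ∀ j, (S.a s j : ℤ) ≤ b j - S.β j * k j ∧ (b j : ℤ) - S.β j * k j < N ∧
        (S.β j : ℤ) ∣ b j - S.β j * k j - S.a s j then w k else 0 with hT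
  have hmm : S.mm L N R b t = ∑ s, (S.c s : ℂ) * T s := by
    rw [SPB.mm]
    simp only [hT, Finset.mul_sum]
    rw [Finset.sum_comm]
    refine Finset.sum_congr rfl fun k _ => ?_
    exact step1 L S.β S.a S.c hS.cls N b k (w k)
  have hR0 : (0 : ℝ) ≤ (R : ℝ) ^ (-(r : ℝ)) := Real.rpow_nonneg (Nat.cast_nonneg _) _
  have hWW0 : ∀ c' : ℕ, (0 : ℝ) ≤ WW R c' t := fun c' => (Nat.cast_nonneg R).trans (hW.ge R c' t)
  have hTs : ∀ s, ‖T s‖ ≤ C s * ((R : ℝ) ^ (-(r : ℝ)) * WW R (c s) t ^ ((r : ℝ) / 2)) := by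
    intro s
    have hnn : 0 ≤ C s * ((R : ℝ) ^ (-(r : ℝ)) * WW R (c s) t ^ ((r : ℝ) / 2)) :=
      mul_nonneg (hC s) (mul_nonneg hR0 (Real.rpow_nonneg (hWW0 _) _))
    by_cases hdv : ∀ j, (S.β j : ℤ) ∣ b j - S.a s j
    swap
    · have : T s = 0 := by
        rw [hT]
        apply Finset.sum_eq_zero
        intro k _
        rw [if_neg]
        intro h
        apply hdv
        intro j
        have h1 := (h j).2.2
        have h2 : (b j : ℤ) - S.a s j = ((b j : ℤ) - S.β j * k j - S.a s j) + S.β j * k j := by ring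
        rw [h2]
        exact dvd_add h1 (dvd_mul_right _ _)
      rw [this, norm_zero]
      exact hnn
    choose z hz using hdv
    have hβ0 : ∀ j, (0 : ℤ) < S.β j := fun j => by have := hS.β j; omega
    have hbk : ∀ (k : Fin r → ℤ) j, (b j : ℤ) - S.β j * k j = S.a s j + S.β j * (z j - k j) := by
      intro k j
      have := hz j
      linear_combination this
    have hcond : ∀ k : Fin r → ℤ, (∀ j, (S.a s j : ℤ) ≤ b j - S.β j * k j ∧ (b j : ℤ) - S.β j * k j < N ∧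
        (S.β j : ℤ) ∣ b j - S.β j * k j - S.a s j) ↔ ∀ j, (0 : ℤ) ≤ z j - k j ∧ z j - k j < (S.nn s N j : ℤ) := by
      intro k
      refine forall_congr' fun j => ?_
      rw [hbk k j]
      constructor
      · rintro ⟨h1, h2, -⟩
        have h3 : 0 ≤ z j - k j := by
          by_contra hcon
          push Not at hcon
          have := mul_neg_of_pos_of_neg (hβ0 j) hcon
          omega
        exact ⟨h3, (lt_nn S hS.β s N j _ h3).mpr h2⟩
      · rintro ⟨h1, h2⟩
        refine ⟨?_, (lt_nn S hS.β s N j _ h1).mp h2, ⟨z j - k j, by ring⟩⟩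
        have := mul_nonneg (hβ0 j).le h1
        omega
    by_cases hz0 : ∀ j, 0 ≤ z j
    swap
    · have : T s = 0 := by
        rw [hT]
        apply Finset.sum_eq_zero
        intro k hk
        rw [if_neg]
        intro h
        rw [hcond] at h
        apply hz0
        intro j
        have h1 := (h j).1
        rw [bx, Fintype.mem_piFinset] at hk
        have h2 := Finset.mem_Ico.mp (hk j)
        have h3 := h2.1
        simp only [Pi.zero_apply] at h3
        omega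
      rw [this, norm_zero]
      exact hnn
    have hpt : ∀ k : Fin r → ℤ, (fun j => (b j : ℤ) - S.β j * k j) = S.pt s (z - k) := by
      intro k
      ext j
      rw [hbk k j]
      rfl
    have hprod : ∀ y : Fin r → ℤ, ∏ p, (S.a₀ p + ∑ j, S.α p j * (S.pt s y j : ℝ)) =
        ∏ p, ((S.a₀ p + ∑ j, S.α p j * (S.a s j : ℝ)) + ∑ j, S.α p j * S.β j * (y j : ℝ)) := by
      intro y
      refine Finset.prod_congr rfl fun p _ => ?_
      rw [add_assoc, ← Finset.sum_add_distrib]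
      congr 1
      refine Finset.sum_congr rfl fun j _ => ?_
      simp only [SPB.pt]
      push_cast
      ring
    have hbz : (fun j => (b j : ℤ)) = S.pt s z := by
      have := hpt 0
      simpa using this
    have hPbz : Pb = ∏ p, ((S.a₀ p + ∑ j, S.α p j * (S.a s j : ℝ)) + ∑ j, S.α p j * S.β j * (z j : ℝ)) := by
      rw [← hprod, ← hbz, hPb]
      simp
    have hφ : ∀ x h : Fin r → ℤ, -(t * (S.Q (S.pt s (x + h)) : ℝ)) = -(t * (S.Q (S.pt s x) : ℝ)) +
        -(t * ((S.Q (fun j => S.β j * h j) - S.Q 0 + (fun j => (S.a s j : ℤ)) ⬝ᵥ (S.G *ᵥ fun j => (S.β j : ℤ) * h j) : ℤ) : ℝ)) +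
        (-t) * ((x ⬝ᵥ (Gb S.β S.G *ᵥ h) : ℤ) : ℝ) := by
      intro x h
      have h1 : S.pt s (x + h) = S.pt s x + fun j => (S.β j : ℤ) * h j := by
        ext j
        simp only [SPB.pt, Pi.add_apply]
        ring
      have h2 : S.pt s x ⬝ᵥ (S.G *ᵥ fun j => (S.β j : ℤ) * h j) =
          (fun j => (S.a s j : ℤ)) ⬝ᵥ (S.G *ᵥ fun j => (S.β j : ℤ) * h j) +
            (fun j => (S.β j : ℤ) * x j) ⬝ᵥ (S.G *ᵥ fun j => (S.β j : ℤ) * h j) := by
        rw [← add_dotProduct]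
        rfl
      rw [h1, hS.quad, Gb_dot, h2]
      push_cast
      ring
    have hmain := hb s R (fun _ => 0) (fun j => (S.nn s N j : ℤ)) z (-t) (fun x => -(t * (S.Q (S.pt s x) : ℝ))) _
      hR (fun _ => le_rfl) hz0 hφ
    rw [← hPbz, hW.even] at hmain
    have hTeq : T s = ((Pb⁻¹ : ℝ) : ℂ) * ∑ k ∈ bx (0 : Fin r → ℤ) (2 * r * R + 1),
        if ∀ j, (0 : ℤ) ≤ z j - k j ∧ z j - k j < (S.nn s N j : ℤ) then
          (sc r R k : ℂ) * ((∏ p, ((S.a₀ p + ∑ j, S.α p j * (S.a s j : ℝ)) + ∑ j, S.α p j * S.β j * ((z j - k j : ℤ) : ℝ)) : ℝ) : ℂ) *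
            eu (-(t * (S.Q (S.pt s (z - k)) : ℝ))) else 0 := by
      rw [hT, Finset.mul_sum]
      refine Finset.sum_congr rfl fun k _ => ?_
      by_cases hk : ∀ j, (0 : ℤ) ≤ z j - k j ∧ z j - k j < (S.nn s N j : ℤ)
      · rw [if_pos ((hcond k).mpr hk), if_pos hk]
        simp only [hw]
        rw [hpt k]
        have hdd : S.dd (S.pt s (z - k)) / S.dd (fun j => (b j : ℤ)) = Pb⁻¹ *
            ∏ p, ((S.a₀ p + ∑ j, S.α p j * (S.a s j : ℝ)) + ∑ j, S.α p j * S.β j * ((z j - k j : ℤ) : ℝ)) := by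
          have h1 : S.dd (fun j => (b j : ℤ)) = S.D₀ * Pb := by
            rw [SPB.dd, hPb]
            simp
          rw [h1, SPB.dd, hprod]
          have := hS.D₀.ne'
          have := hPb0.ne'
          simp only [Pi.sub_apply]
          field_simp
        rw [hdd]
        push_cast
        ring
      · rw [if_neg (fun h => hk ((hcond k).mp h)), if_neg hk, mul_zero]
    rw [hTeq, norm_mul, Complex.norm_real, Real.norm_of_nonneg (inv_nonneg.mpr hPb0.le)]
    have hmain' : ‖∑ k ∈ bx (0 : Fin r → ℤ) (2 * r * R + 1),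
        if ∀ j, (0 : ℤ) ≤ z j - k j ∧ z j - k j < (S.nn s N j : ℤ) then
          (sc r R k : ℂ) * ((∏ p, ((S.a₀ p + ∑ j, S.α p j * (S.a s j : ℝ)) + ∑ j, S.α p j * S.β j * ((z j - k j : ℤ) : ℝ)) : ℝ) : ℂ) *
            eu (-(t * (S.Q (S.pt s (z - k)) : ℝ))) else 0‖ ≤
        C s * Pb * ((R : ℝ) ^ (-(r : ℝ)) * WW R (c s) t ^ ((r : ℝ) / 2)) := by
      convert hmain using 2
    calc Pb⁻¹ * _ ≤ Pb⁻¹ * (C s * Pb * ((R : ℝ) ^ (-(r : ℝ)) * WW R (c s) t ^ ((r : ℝ) / 2))) :=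
          mul_le_mul_of_nonneg_left hmain' (inv_nonneg.mpr hPb0.le)
      _ = _ := by
          field_simp
  rw [hmm]
  calc ‖∑ s, (S.c s : ℂ) * T s‖ ≤ ∑ s, ‖(S.c s : ℂ) * T s‖ := norm_sum_le _ _
    _ ≤ ∑ s, |(S.c s : ℝ)| * (C s * ((R : ℝ) ^ (-(r : ℝ)) * WW R (1 + ∑ s, c s) t ^ ((r : ℝ) / 2))) := by
        refine Finset.sum_le_sum fun s _ => ?_
        rw [norm_mul]
        have h1 : ‖(S.c s : ℂ)‖ = |(S.c s : ℝ)| := by
          rw [← Complex.ofReal_intCast, Complex.norm_real, Real.norm_eq_abs]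
        rw [h1]
        refine mul_le_mul_of_nonneg_left ((hTs s).trans ?_) (abs_nonneg _)
        refine mul_le_mul_of_nonneg_left ?_ (hC s)
        refine mul_le_mul_of_nonneg_left ?_ hR0
        refine Real.rpow_le_rpow (hWW0 _) (hW.mono R R _ _ t le_rfl ?_) (by positivity)
        have : c s ≤ ∑ s, c s := Finset.single_le_sum (f := c) (fun _ _ => Nat.zero_le _) (Finset.mem_univ s)
        omega
    _ = _ := by
        rw [Finset.sum_mul]
        refine Finset.sum_congr rfl fun s _ => ?_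
        ring

end SYM
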