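import Pool.Agent.SYM.StQ
import Pool.Agent.LGR.TAUF

/-!
# ROWS: the derivatives of the rows
-/

namespace SYM

open STZ LGR MeasureTheory Matrix Filter

open scoped ComplexConjugate Matrix Real Topology

noncomputable section

namespace ROWS

variable {N : ℕ}

/-- an eigenvector of `ad T` for an eigenvalue `≠ 0` is orthogonal to `w` if `w` commutes with `T` -/
theorem orthw {T w F : Matrix (Fin N) (Fin N) ℂ} {c : ℂ} (hw : T * w = w * T)
    (hF : T * F - F * T = c • F) (hc : c ≠ 0) : (F * w).trace = 0 := by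
  have h1 : c * (F * w).trace = 0 := by
    have h2 : (c • F * w).trace = c * (F * w).trace := by
      rw [smul_mul_assoc, Matrix.trace_smul, smul_eq_mul]
    rw [← h2, ← hF, Matrix.sub_mul, Matrix.trace_sub, Matrix.mul_assoc T F w, Matrix.trace_mul_comm T,
      Matrix.mul_assoc F T w, hw, Matrix.mul_assoc, sub_self]
  exact (mul_eq_zero.1 h1).resolve_left hc

theorem br_add {T F G : Matrix (Fin N) (Fin N) ℂ} {a b : ℂ} (hF : T * F - F * T = a • F)
    (hG : T * G - G * T = b • G) :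
    T * (F * G - G * F) - (F * G - G * F) * T = (a + b) • (F * G - G * F) := by
  have h1 : T * (F * G) - (F * G) * T = (a + b) • (F * G) := by
    have e : T * (F * G) - (F * G) * T = (T * F - F * T) * G + F * (T * G - G * T) := by
      noncomm_ring
    rw [e, hF, hG, smul_mul_assoc, mul_smul_comm, add_smul]
  have h2 : T * (G * F) - (G * F) * T = (a + b) • (G * F) := by
    have e : T * (G * F) - (G * F) * T = (T * G - G * T) * F + G * (T * F - F * T) := by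
      noncomm_ring
    rw [e, hF, hG, smul_mul_assoc, mul_smul_comm, add_comm a b, add_smul]
  rw [smul_sub, ← h1, ← h2]
  noncomm_ring

theorem starE {T F : Matrix (Fin N) (Fin N) ℂ} {c : ℝ} (hT : Tᴴ = -T)
    (hF : T * F - F * T = ((c : ℂ) * Complex.I) • F) :
    T * Fᴴ - Fᴴ * T = (-((c : ℂ) * Complex.I)) • Fᴴ := by
  have h := congrArg Matrix.conjTranspose hF
  rw [Matrix.conjTranspose_sub, Matrix.conjTranspose_mul, Matrix.conjTranspose_mul, hT,
    Matrix.conjTranspose_smul] at h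
  have e : star ((c : ℂ) * Complex.I) = -((c : ℂ) * Complex.I) := by
    simp
  rw [e] at h
  rw [← h]
  noncomm_ring

theorem expE {T F : Matrix (Fin N) (Fin N) ℂ} {c : ℂ} (hF : T * F - F * T = c • F) :
    NormedSpace.exp T * F * NormedSpace.exp (-T) = Complex.exp c • F := by
  have h1 : T * F = F * (T + c • 1) := by
    rw [Matrix.mul_add, mul_smul_comm, Matrix.mul_one, ← hF]
    abel
  have h2 : NormedSpace.exp (T + c • (1 : Matrix (Fin N) (Fin N) ℂ)) =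
      NormedSpace.exp T * NormedSpace.exp (c • (1 : Matrix (Fin N) (Fin N) ℂ)) :=
    Matrix.exp_add_of_commute _ _ ((Commute.one_right T).smul_right c)
  have h3 : NormedSpace.exp T * NormedSpace.exp (-T) = 1 := by
    rw [← Matrix.exp_add_of_commute _ _ (Commute.refl T).neg_right, add_neg_cancel,
      NormedSpace.exp_zero]
  rw [TAUF.exp_semi h1, h2, TAUF.exp_scalar, mul_smul_comm, mul_smul_comm, Matrix.mul_one,
    smul_mul_assoc, Matrix.mul_assoc, h3, Matrix.mul_one]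

theorem exp_neg_mul (T : Matrix (Fin N) (Fin N) ℂ) :
    NormedSpace.exp (-T) * NormedSpace.exp T = 1 := by
  rw [← Matrix.exp_add_of_commute _ _ (Commute.refl T).neg_left, neg_add_cancel,
    NormedSpace.exp_zero]

/-- the traces of the derivatives, group version -/
theorem trG {T Z Z' w : Matrix (Fin N) (Fin N) ℂ} {α β : ℝ} (hT : Tᴴ = -T)
    (hZ : T * Z - Z * T = ((α : ℂ) * Complex.I) • Z) (hZ' : T * Z' - Z' * T = ((β : ℂ) * Complex.I) • Z') :
    ((NormedSpace.exp T * ((Z' - Z'ᴴ) * Z - Z * (Z' - Z'ᴴ)) * NormedSpace.exp (-T) -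
        ((Z' - Z'ᴴ) * (NormedSpace.exp T * Z * NormedSpace.exp (-T)) -
          (NormedSpace.exp T * Z * NormedSpace.exp (-T)) * (Z' - Z'ᴴ))) * w).trace =
      Complex.exp ((α : ℂ) * Complex.I) *
        ((Complex.exp ((β : ℂ) * Complex.I) - 1) * ((Z' * Z - Z * Z') * w).trace -
          (Complex.exp (-((β : ℂ) * Complex.I)) - 1) * ((Z'ᴴ * Z - Z * Z'ᴴ) * w).trace) := by
  have hs := starE hT hZ'
  have e1 := expE hZ
  have e2 := expE hZ'
  have e3 := expE hs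
  have hv := exp_neg_mul T
  generalize NormedSpace.exp T = U at *
  generalize NormedSpace.exp (-T) = V at *
  generalize Complex.exp ((α : ℂ) * Complex.I) = a at *
  generalize Complex.exp ((β : ℂ) * Complex.I) = b at *
  generalize Complex.exp (-((β : ℂ) * Complex.I)) = b' at *
  have e4 : ∀ F G : Matrix (Fin N) (Fin N) ℂ, U * (F * G) * V = (U * F * V) * (U * G * V) := by
    intro F G
    have : (U * F * V) * (U * G * V) = U * F * (V * U) * G * V := by noncomm_ring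
    rw [this, hv]
    noncomm_ring
  have e5 : U * ((Z' - Z'ᴴ) * Z - Z * (Z' - Z'ᴴ)) * V =
      (U * Z' * V - U * Z'ᴴ * V) * (U * Z * V) - (U * Z * V) * (U * Z' * V - U * Z'ᴴ * V) := by
    rw [Matrix.mul_sub, Matrix.sub_mul, e4, e4, Matrix.mul_sub, Matrix.sub_mul]
  rw [e5, e1, e2, e3]
  have e6 : (b • Z' - b' • Z'ᴴ) * a • Z - a • Z * (b • Z' - b' • Z'ᴴ) -
      ((Z' - Z'ᴴ) * a • Z - a • Z * (Z' - Z'ᴴ)) =
      (a * (b - 1)) • (Z' * Z - Z * Z') - (a * (b' - 1)) • (Z'ᴴ * Z - Z * Z'ᴴ) := by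
    simp only [Matrix.sub_mul, Matrix.mul_sub, smul_mul_assoc, mul_smul_comm, smul_sub, smul_smul]
    module
  rw [e6, Matrix.sub_mul, smul_mul_assoc, smul_mul_assoc, Matrix.trace_sub, Matrix.trace_smul,
    Matrix.trace_smul, smul_eq_mul, smul_eq_mul]
  ring

/-- the traces of the derivatives, Lie algebra version -/
theorem trL {T Z Z' w : Matrix (Fin N) (Fin N) ℂ} {β : ℝ} (hT : Tᴴ = -T)
    (hZ' : T * Z' - Z' * T = ((β : ℂ) * Complex.I) • Z') :
    (((T * ((Z' - Z'ᴴ) * Z - Z * (Z' - Z'ᴴ)) - ((Z' - Z'ᴴ) * Z - Z * (Z' - Z'ᴴ)) * T) -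
        ((Z' - Z'ᴴ) * (T * Z - Z * T) - (T * Z - Z * T) * (Z' - Z'ᴴ))) * w).trace =
      ((β : ℂ) * Complex.I) *
        (((Z' * Z - Z * Z') * w).trace + ((Z'ᴴ * Z - Z * Z'ᴴ) * w).trace) := by
  have hs := starE hT hZ'
  have e1 : (T * ((Z' - Z'ᴴ) * Z - Z * (Z' - Z'ᴴ)) - ((Z' - Z'ᴴ) * Z - Z * (Z' - Z'ᴴ)) * T) -
        ((Z' - Z'ᴴ) * (T * Z - Z * T) - (T * Z - Z * T) * (Z' - Z'ᴴ)) =
      ((T * Z' - Z' * T) - (T * Z'ᴴ - Z'ᴴ * T)) * Z - Z * ((T * Z' - Z' * T) - (T * Z'ᴴ - Z'ᴴ * T)) := by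
    noncomm_ring
  rw [e1, hZ', hs]
  have e2 : ((((β : ℂ) * Complex.I) • Z' - (-((β : ℂ) * Complex.I)) • Z'ᴴ) * Z -
      Z * (((β : ℂ) * Complex.I) • Z' - (-((β : ℂ) * Complex.I)) • Z'ᴴ)) =
      ((β : ℂ) * Complex.I) • ((Z' * Z - Z * Z') + (Z'ᴴ * Z - Z * Z'ᴴ)) := by
    simp only [Matrix.sub_mul, Matrix.mul_sub, smul_mul_assoc, mul_smul_comm, smul_sub, smul_add]
    module
  rw [e2, smul_mul_assoc, Matrix.trace_smul, smul_eq_mul, Matrix.add_mul, Matrix.trace_add]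

theorem tr_nn (A : Matrix (Fin N) (Fin N) ℂ) : 0 ≤ (A * Aᴴ).trace.re := by
  rw [TAUF.tr_self, Complex.ofReal_re]
  exact Finset.sum_nonneg fun i _ => Finset.sum_nonneg fun j _ => Complex.normSq_nonneg _

theorem tr_zero {A : Matrix (Fin N) (Fin N) ℂ} (h : (A * Aᴴ).trace.re = 0) : A = 0 := by
  by_contra hA
  exact (TAUF.tr_pos hA).1.ne' h

/-- a normal combination of two eigenvectors of `ad δ` with positive eigenvalues is `0` -/
theorem wne {δ X Y : Matrix (Fin N) (Fin N) ℂ} {C C' : ℝ} (hC : 0 < C) (hC' : 0 < C')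
    (h1 : δ * X - X * δ = (C : ℂ) • X) (h2 : δ * Y - Y * δ = (C' : ℂ) • Y)
    (ho : (X * Yᴴ).trace = 0) (hw : (X + Y)ᴴ * (X + Y) - (X + Y) * (X + Y)ᴴ = 0) : X + Y = 0 := by
  have e0 : ((X + Y)ᴴ * (δ * (X + Y) - (X + Y) * δ)).trace = 0 := by
    have e1 : (((X + Y)ᴴ * (X + Y) - (X + Y) * (X + Y)ᴴ) * δ).trace = 0 := by
      rw [hw, Matrix.zero_mul, Matrix.trace_zero]
    rw [Matrix.sub_mul, Matrix.trace_sub] at e1
    rw [Matrix.mul_sub, Matrix.trace_sub]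
    have e2 : ((X + Y)ᴴ * (δ * (X + Y))).trace = ((X + Y) * (X + Y)ᴴ * δ).trace := by
      rw [← Matrix.mul_assoc, Matrix.trace_mul_comm, Matrix.mul_assoc]
    have e3 : ((X + Y)ᴴ * ((X + Y) * δ)).trace = ((X + Y)ᴴ * (X + Y) * δ).trace := by
      rw [Matrix.mul_assoc]
    rw [e2, e3]
    linear_combination -e1
  have e4 : δ * (X + Y) - (X + Y) * δ = (C : ℂ) • X + (C' : ℂ) • Y := by
    rw [← h1, ← h2]
    noncomm_ring
  have ho' : (Y * Xᴴ).trace = 0 := by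
    have h := congrArg star ho
    rw [← Matrix.trace_conjTranspose, Matrix.conjTranspose_mul, Matrix.conjTranspose_conjTranspose,
      star_zero] at h
    exact h
  rw [e4, Matrix.conjTranspose_add, Matrix.add_mul, Matrix.mul_add, Matrix.mul_add, mul_smul_comm,
    mul_smul_comm, mul_smul_comm, mul_smul_comm, Matrix.trace_add, Matrix.trace_add,
    Matrix.trace_add, Matrix.trace_smul, Matrix.trace_smul, Matrix.trace_smul, Matrix.trace_smul,
    Matrix.trace_mul_comm Xᴴ X, Matrix.trace_mul_comm Xᴴ Y, Matrix.trace_mul_comm Yᴴ X,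
    Matrix.trace_mul_comm Yᴴ Y, ho, ho', smul_zero, smul_zero, add_zero, zero_add] at e0
  have e5 := congrArg Complex.re e0
  rw [Complex.add_re, smul_eq_mul, smul_eq_mul, Complex.re_ofReal_mul, Complex.re_ofReal_mul,
    Complex.zero_re] at e5
  have hX := tr_nn X
  have hY := tr_nn Y
  have hX' : 0 ≤ C * (X * Xᴴ).trace.re := mul_nonneg hC.le hX
  have hY' : 0 ≤ C' * (Y * Yᴴ).trace.re := mul_nonneg hC'.le hY
  have hX0 : (X * Xᴴ).trace.re = 0 := by
    have : C * (X * Xᴴ).trace.re = 0 := by linarith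
    exact (mul_eq_zero.1 this).resolve_left hC.ne'
  have hY0 : (Y * Yᴴ).trace.re = 0 := by
    have : C' * (Y * Yᴴ).trace.re = 0 := by linarith
    exact (mul_eq_zero.1 this).resolve_left hC'.ne'
  rw [tr_zero hX0, tr_zero hY0, add_zero]

section

variable {H : Subgroup (SU N)} {l : ℕ} {Φ : RT l} {B : Matrix (Fin l) (Fin l) ℤ}
  {Hc : Fin l → Matrix (Fin N) (Fin N) ℂ} {E : (Fin l → ℤ) × (Fin l → ℤ) → Matrix (Fin N) (Fin N) ℂ}

theorem hx_star (hL : LRD H Φ B Hc E) (x : Fin l → ℝ) : (hx Hc x)ᴴ = -hx Hc x := by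
  simp only [hx]
  rw [Matrix.conjTranspose_sum, ← Finset.sum_neg_distrib]
  refine Finset.sum_congr rfl fun j _ => ?_
  rw [Matrix.conjTranspose_smul, hL.herm j, ← neg_smul]
  congr 1
  simp

theorem adE (hF : TAF H Φ Hc E) {p : (Fin l → ℤ) × (Fin l → ℤ)} (hp : p ∈ Φ) (x : Fin l → ℝ) :
    hx Hc x * E p - E p * hx Hc x = ((dz p.1 x : ℂ) * Complex.I) • E p :=
  hF.ade p hp x

/-- elements of `ZP` are eigenvectors of `ad A` -/
theorem zp_br (hF : TAF H Φ Hc E) {A : Submodule ℝ (Matrix (Fin N) (Fin N) ℂ)} {x₀ : Fin l → ℝ} {r : ℕ}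
    {ε : Fin r → Fin l → ℤ} {p : (Fin l → ℤ) × (Fin l → ℤ)} {Z : Matrix (Fin N) (Fin N) ℂ}
    (hPA : ∀ p ∈ PA Φ x₀, p ∈ Φ) (hZ : ZP A Φ Hc E x₀ ε p Z) (y : Fin l → ℝ) (hy : hx Hc y ∈ A) :
    hx Hc y * Z - Z * hx Hc y = ((dz p.1 y : ℂ) * Complex.I) • Z := by
  obtain ⟨q, a, b, hp, hq, -, h2, rfl⟩ := hZ
  have e1 := adE hF (hPA p hp) y
  have e2 := adE hF (hPA q hq) y
  rw [h2 y hy] at e2
  have e3 : hx Hc y * (a • E p + b • E q) - (a • E p + b • E q) * hx Hc y =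
      a • (hx Hc y * E p - E p * hx Hc y) + b • (hx Hc y * E q - E q * hx Hc y) := by
    simp only [Matrix.mul_add, Matrix.add_mul, smul_mul_assoc, mul_smul_comm, smul_sub]
    abel
  rw [e3, e1, e2, smul_add, smul_comm a, smul_comm b]

/-- a root vector of `P` is a multiple of one of the `eb E P k` -/
theorem eb_ex (hF : TAF H Φ Hc E) {P : RT l} {p : (Fin l → ℤ) × (Fin l → ℤ)} (hp : p ∈ Φ) (hP : p ∈ P) :
    ∃ z : Fin P.card → ℂ, E p = ∑ k, z k • eb E P k := by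
  classical
  refine ⟨fun k => if k = P.equivFin ⟨p, hP⟩ then ((√((E p * (E p)ᴴ).trace.re) : ℝ) : ℂ) else 0, ?_⟩
  simp only [ite_smul, zero_smul]
  rw [Finset.sum_ite_eq' Finset.univ (P.equivFin ⟨p, hP⟩), if_pos (Finset.mem_univ _)]
  simp only [eb, Equiv.symm_apply_apply]
  rw [smul_smul, ← Complex.ofReal_mul, mul_inv_cancel₀ (Real.sqrt_pos.2 (hF.pos p hp).1).ne',
    Complex.ofReal_one, one_smul]

end

end ROWS

theorem t_ROWS : M_ROWS := by
  intro hWFAC hTAUF hSNIL N H K σ τ A l Φ B Hc E x₀ θ r s ε hSD j p q Z Z' w hZ hZ' hpj hZ0 hw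
  have hL : LRD H Φ B Hc E := hSD.sr.lrd
  have hF : TAF H Φ Hc E := hTAUF N H l Φ B Hc E hSD.closed hL
  have hW : WFF Φ B := hWFAC l Φ B hL.ird
  have hPA : ∀ p ∈ PA Φ x₀, p ∈ Φ := by
    intro p hp
    exact (hW.ppos p (Finset.mem_filter.1 hp).1).1
  have hPA0 : ∀ p ∈ PA Φ x₀, 0 < dz p.1 x₀ := fun p hp => (Finset.mem_filter.1 hp).2
  obtain ⟨hN, hc⟩ := hSNIL N H K σ τ A l Φ B Hc E x₀ θ r s ε hSD j
  have hwH : wᴴ = w := by
    rw [hw]
    simp [Matrix.conjTranspose_sub, Matrix.conjTranspose_mul]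
  have hbr := fun y hy => ROWS.zp_br hF hPA hZ y hy
  have hbr' := fun y hy => ROWS.zp_br hF hPA hZ' y hy
  have hst := fun y => ROWS.hx_star hL y
  -- `w` commutes with `A`
  have hcw : ∀ y, hx Hc y ∈ A → hx Hc y * w = w * hx Hc y := by
    intro y hy
    have h := ROWS.br_add (ROWS.starE (hst y) (hbr y hy)) (hbr y hy)
    rw [neg_add_cancel, zero_smul, ← hw] at h
    exact sub_eq_zero.1 h
  have hx0 : hx Hc x₀ ∈ A := hSD.sr.x0A
  have hp1 : p ∈ PA Φ x₀ := by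
    obtain ⟨_, _, _, h, _⟩ := hZ
    exact h
  have hq1 : q ∈ PA Φ x₀ := by
    obtain ⟨_, _, _, h, _⟩ := hZ'
    exact h
  have hI : ∀ c : ℝ, c ≠ 0 → (c : ℂ) * Complex.I ≠ 0 := by
    intro c hc
    exact mul_ne_zero (Complex.ofReal_ne_zero.2 hc) Complex.I_ne_zero
  -- first trace
  have ht1 : ((Z' * Z - Z * Z') * w).trace = 0 := by
    have h := ROWS.br_add (hbr' x₀ hx0) (hbr x₀ hx0)
    refine ROWS.orthw (hcw x₀ hx0) h ?_
    have := hPA0 p hp1
    have := hPA0 q hq1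
    rw [← add_mul, ← Complex.ofReal_add]
    exact hI _ (by positivity)
  have ht1' : ((Z * Z - Z * Z) * w).trace = 0 := by rw [sub_self, Matrix.zero_mul, Matrix.trace_zero]
  have ht2' : ((Zᴴ * Z - Z * Zᴴ) * w).trace = (w * w).trace := by rw [← hw]
  have ht2 : (∃ y, hx Hc y ∈ A ∧ dz p.1 y ≠ dz q.1 y) → ((Z'ᴴ * Z - Z * Z'ᴴ) * w).trace = 0 := by
    rintro ⟨y, hy, hne⟩
    have h := ROWS.br_add (ROWS.starE (hst y) (hbr' y hy)) (hbr y hy)
    refine ROWS.orthw (hcw y hy) h ?_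
    rw [neg_add_eq_sub, ← sub_mul, ← Complex.ofReal_sub]
    exact hI _ (sub_ne_zero.2 hne)
  rw [hwH]
  refine ⟨⟨?_, ?_, ?_⟩, ?_⟩
  · -- `w ≠ 0`
    intro hw0
    obtain ⟨p', a, b, -, hp', hpp, -, hZe⟩ := hZ
    obtain ⟨c, hc0, hce⟩ := hc p (hPA p hp1)
    obtain ⟨c', hc0', hce'⟩ := hc p' (hPA p' hp')
    rw [hpp j] at hce'
    have hn : (0 : ℝ) < ((p.2 ⬝ᵥ ε j : ℤ) : ℝ) := by exact_mod_cast hpj
    rw [hw, hZe] at hw0
    apply hZ0
    rw [hZe]
    have hsm : ∀ (C : ℂ) (X : Matrix (Fin N) (Fin N) ℂ) (a : ℂ),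
        db E (pe Φ (ε j)) * X - X * db E (pe Φ (ε j)) = C • X →
        db E (pe Φ (ε j)) * (a • X) - (a • X) * db E (pe Φ (ε j)) = C • (a • X) := by
      intro C X a h
      rw [mul_smul_comm, smul_mul_assoc, ← smul_sub, h, smul_comm]
    by_cases hpp' : p = p'
    · subst hpp'
      rw [← add_smul] at hw0 ⊢
      have h := ROWS.wne (δ := db E (pe Φ (ε j))) (X := (a + b) • E p) (Y := 0)
        (mul_pos hc0 hn) one_pos (hsm _ _ _ hce) (by simp) (by simp) (by rw [add_zero]; exact hw0)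
      rw [add_zero] at h
      exact h
    · refine ROWS.wne (mul_pos hc0 hn) (mul_pos hc0' hn) (hsm _ _ _ hce) (hsm _ _ _ hce') ?_ hw0
      rw [Matrix.conjTranspose_smul, smul_mul_assoc, mul_smul_comm, Matrix.trace_smul,
        Matrix.trace_smul, hF.orth p (hPA p hp1) p' (hPA p' hp') hpp', smul_zero, smul_zero]
  · intro k
    have hm : ((pe Φ (ε j)).equivFin.symm k).1 ∈ pe Φ (ε j) := ((pe Φ (ε j)).equivFin.symm k).2
    have hm1 := (Finset.mem_filter.1 hm).1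
    have hm2 := (Finset.mem_filter.1 hm).2
    have hpos := (hSD.so.pos _ hm1).2 ⟨j, hm2⟩
    have h := ROWS.adE hF (hW.ppos _ hm1).1 x₀
    have h0 := ROWS.orthw (hcw x₀ hx0) h (hI _ hpos.ne')
    unfold eb
    rw [smul_mul_assoc, Matrix.trace_smul, h0, smul_zero]
  · obtain ⟨p', a, b, -, hp', hpp, -, hZe⟩ := hZ
    have hm : p ∈ pe Φ (ε j) := Finset.mem_filter.2 ⟨(Finset.mem_filter.1 hp1).1, hpj⟩
    have hm' : p' ∈ pe Φ (ε j) :=
      Finset.mem_filter.2 ⟨(Finset.mem_filter.1 hp').1, by rw [hpp j]; exact hpj⟩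
    obtain ⟨z, hz⟩ := ROWS.eb_ex hF (hPA p hp1) hm
    obtain ⟨z', hz'⟩ := ROWS.eb_ex hF (hPA p' hp') hm'
    refine ⟨fun k => a * z k + b * z' k, ?_⟩
    rw [hZe, hz, hz', Finset.smul_sum, Finset.smul_sum, ← Finset.sum_add_distrib]
    refine Finset.sum_congr rfl fun k _ => ?_
    rw [smul_smul, smul_smul, add_smul]
  · intro x hx
    refine ⟨⟨fun hy => ?_, ?_⟩, ⟨fun hy => ?_, ?_⟩⟩
    · rw [ROWS.trG (hst x) (hbr x hx) (hbr' x hx), ht1, ht2 hy]
      ring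
    · rw [ROWS.trG (hst x) (hbr x hx) (hbr x hx), ht1', ht2']
      have e : Complex.exp ((dz p.1 x : ℂ) * Complex.I) * Complex.exp (-((dz p.1 x : ℂ) * Complex.I)) = 1 := by
        rw [← Complex.exp_add, add_neg_cancel, Complex.exp_zero]
      linear_combination (-(w * w).trace) * e
    · rw [ROWS.trL (hst x) (hbr' x hx), ht1, ht2 hy]
      ring
    · rw [ROWS.trL (hst x) (hbr x hx), ht1', ht2']
      ring

end

end SYM
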