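import Pool.Agent.SYM.StP

/-!
# Symmetric spaces: the upper bound: the dimension of the tangent space

`D X = [hx x₀, X]` maps the `-1` eigenspace `W` of `τ` in `lie H` to the `1` eigenspace `P` and conversely. The kernel of `D` in `W`
is `A`, `D` is injective on `D (lie H)`, which is the direct sum of `D W` and `D P`, of equal dimensions, and `D (lie H)` is the sum
of the planes `{z E p - conj z (E p)ᴴ}` for `p ∈ PA Φ x₀`.
-/

namespace SYM

open STZ LGR MeasureTheory Matrix Filter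

open scoped ComplexConjugate Matrix Real Topology

noncomputable section

namespace SCRD

variable {N l : ℕ}

/-- the combination of the root vectors -/
def gf (E : (Fin l → ℤ) × (Fin l → ℤ) → Matrix (Fin N) (Fin N) ℂ) (S : RT l)
    (z : (Fin l → ℤ) × (Fin l → ℤ) → ℂ) : Matrix (Fin N) (Fin N) ℂ :=
  ∑ p ∈ S, (z p • E p - conj (z p) • (E p)ᴴ)

/-- the bracket with `h` -/
def ad (h : Matrix (Fin N) (Fin N) ℂ) : Matrix (Fin N) (Fin N) ℂ →ₗ[ℝ] Matrix (Fin N) (Fin N) ℂ where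
  toFun X := h * X - X * h
  map_add' X Y := by rw [mul_add, add_mul]; abel
  map_smul' c X := by
    simp only [RingHom.id_apply, smul_sub, Matrix.mul_smul, Matrix.smul_mul]

theorem ad_apply (h X : Matrix (Fin N) (Fin N) ℂ) : ad h X = h * X - X * h := rfl

variable {H K : Subgroup (SU N)} {σ : H →* H}
  {τ : Matrix (Fin N) (Fin N) ℂ →ₗ[ℝ] Matrix (Fin N) (Fin N) ℂ} {A : Submodule ℝ (Matrix (Fin N) (Fin N) ℂ)}
  {Φ : RT l} {B : Matrix (Fin l) (Fin l) ℤ} {Hc : Fin l → Matrix (Fin N) (Fin N) ℂ}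
  {E : (Fin l → ℤ) × (Fin l → ℤ) → Matrix (Fin N) (Fin N) ℂ} {x₀ : Fin l → ℝ}

theorem hx_herm (hL : LRD H Φ B Hc E) (y : Fin l → ℝ) : (hx Hc y)ᴴ = -hx Hc y := by
  unfold hx
  rw [Matrix.conjTranspose_sum, ← Finset.sum_neg_distrib]
  refine Finset.sum_congr rfl fun j _ => ?_
  rw [Matrix.conjTranspose_smul, hL.herm j, ← neg_smul]
  congr 1
  simp

theorem hx_comm (hL : LRD H Φ B Hc E) (x y : Fin l → ℝ) : hx Hc y * hx Hc x = hx Hc x * hx Hc y := by
  unfold hx
  rw [Finset.sum_mul_sum, Finset.sum_mul_sum, Finset.sum_comm]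
  refine Finset.sum_congr rfl fun i _ => Finset.sum_congr rfl fun j _ => ?_
  rw [Matrix.smul_mul, Matrix.mul_smul, Matrix.smul_mul, Matrix.mul_smul, hL.comm, smul_comm]

theorem ad_E (hT : TAF H Φ Hc E) {p : (Fin l → ℤ) × (Fin l → ℤ)} (hp : p ∈ Φ) (y : Fin l → ℝ) :
    hx Hc y * E p - E p * hx Hc y = (((dz p.1 y : ℝ) : ℂ) * Complex.I) • E p := hT.ade p hp y

theorem ad_Eh (hL : LRD H Φ B Hc E) (hT : TAF H Φ Hc E) {p : (Fin l → ℤ) × (Fin l → ℤ)} (hp : p ∈ Φ)
    (y : Fin l → ℝ) :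
    hx Hc y * (E p)ᴴ - (E p)ᴴ * hx Hc y = (-(((dz p.1 y : ℝ) : ℂ) * Complex.I)) • (E p)ᴴ := by
  have h := congrArg Matrix.conjTranspose (ad_E hT hp y)
  rw [Matrix.conjTranspose_sub, Matrix.conjTranspose_mul, Matrix.conjTranspose_mul, hx_herm hL,
    Matrix.conjTranspose_smul] at h
  have h2 : star (((dz p.1 y : ℝ) : ℂ) * Complex.I) = -(((dz p.1 y : ℝ) : ℂ) * Complex.I) := by
    simp
  rw [h2] at h
  rw [← h]
  rw [Matrix.mul_neg, Matrix.neg_mul]
  abel

theorem ad_gf (hL : LRD H Φ B Hc E) (hT : TAF H Φ Hc E) {S : RT l} (hS : ∀ p ∈ S, p ∈ Φ) (y : Fin l → ℝ)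
    (z : (Fin l → ℤ) × (Fin l → ℤ) → ℂ) :
    ad (hx Hc y) (gf E S z) = gf E S (fun p => (((dz p.1 y : ℝ) : ℂ) * Complex.I) * z p) := by
  unfold gf
  rw [map_sum]
  refine Finset.sum_congr rfl fun p hp => ?_
  rw [ad_apply]
  have h1 := ad_E hT (hS p hp) y
  have h2 := ad_Eh hL hT (hS p hp) y
  have h3 : hx Hc y * (z p • E p - conj (z p) • (E p)ᴴ) - (z p • E p - conj (z p) • (E p)ᴴ) * hx Hc y =
      z p • (hx Hc y * E p - E p * hx Hc y) - conj (z p) • (hx Hc y * (E p)ᴴ - (E p)ᴴ * hx Hc y) := by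
    rw [mul_sub, sub_mul, Matrix.mul_smul, Matrix.mul_smul, Matrix.smul_mul, Matrix.smul_mul, smul_sub, smul_sub]
    abel
  rw [h3, h1, h2, smul_smul, smul_smul]
  congr 1
  · rw [mul_comm]
  · congr 1
    simp only [map_mul, Complex.conj_ofReal, Complex.conj_I]
    ring

theorem tr_gf (hL : LRD H Φ B Hc E) (hW : WFF Φ B) (hT : TAF H Φ Hc E) {S : RT l} (hS : S ⊆ pos Φ)
    (z : (Fin l → ℤ) × (Fin l → ℤ) → ℂ) {q : (Fin l → ℤ) × (Fin l → ℤ)} (hq : q ∈ S) :
    (gf E S z * (E q)ᴴ).trace = z q * (E q * (E q)ᴴ).trace := by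
  have hqp := hS hq
  have hqΦ := (hW.ppos q hqp).1
  unfold gf
  rw [Finset.sum_mul, Matrix.trace_sum, Finset.sum_eq_single q]
  · rw [sub_mul, Matrix.smul_mul, Matrix.smul_mul, Matrix.trace_sub, Matrix.trace_smul, Matrix.trace_smul]
    have h0 : ((E q)ᴴ * (E q)ᴴ).trace = 0 := by
      rw [← hL.star q hqΦ]
      have h := hT.orth _ (hW.neg q hqΦ) q hqΦ (by
        intro h
        have h1 := (hW.dich q hqΦ).1 hqp
        rw [h] at h1
        exact h1 hqp)
      have h' := hL.star q hqΦ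
      rw [h'] at h
      rw [h']
      exact h
    rw [h0]
    simp
  · intro p hp hpq
    have hpp := hS hp
    have hpΦ := (hW.ppos p hpp).1
    rw [sub_mul, Matrix.smul_mul, Matrix.smul_mul, Matrix.trace_sub, Matrix.trace_smul, Matrix.trace_smul,
      hT.orth p hpΦ q hqΦ hpq]
    have h := hT.orth _ (hW.neg p hpΦ) q hqΦ (by
        intro h
        have h1 := (hW.dich p hpΦ).1 hpp
        rw [h] at h1
        exact h1 hqp)
    rw [hL.star p hpΦ] at h
    rw [h]
    simp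
  · intro h
    exact absurd hq h

theorem gf_zero (hL : LRD H Φ B Hc E) (hW : WFF Φ B) (hT : TAF H Φ Hc E) {S : RT l} (hS : S ⊆ pos Φ)
    (z : (Fin l → ℤ) × (Fin l → ℤ) → ℂ) (h0 : gf E S z = 0) {q : (Fin l → ℤ) × (Fin l → ℤ)} (hq : q ∈ S) :
    z q = 0 := by
  have h := tr_gf hL hW hT hS z hq
  rw [h0, Matrix.zero_mul, Matrix.trace_zero] at h
  have hp := hT.pos q (hW.ppos q (hS hq)).1
  rcases mul_eq_zero.1 h.symm with h | h
  · exact h
  · rw [h] at hp
    simp at hp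

theorem gf_mem (hI : LIF H) (hL : LRD H Φ B Hc E) {S : RT l} (hS : ∀ p ∈ S, p ∈ Φ)
    (z : (Fin l → ℤ) × (Fin l → ℤ) → ℂ) : gf E S z ∈ lie H := by
  classical
  unfold gf
  induction S using Finset.induction_on with
  | empty => simpa using hI.zero
  | insert a s ha ih =>
    rw [Finset.sum_insert ha]
    refine hI.add _ ?_ _ (ih fun p hp => hS p (Finset.mem_insert_of_mem hp))
    have hm := hL.emem a (hS a (Finset.mem_insert_self a s))
    have h1 := hI.smul (z a).re _ hm.1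
    have h2 := hI.smul (z a).im _ hm.2
    have h3 := hI.add _ h1 _ h2
    have h4 : (((z a).re : ℂ)) • (E a - (E a)ᴴ) + (((z a).im : ℂ)) • (Complex.I • (E a + (E a)ᴴ)) =
        z a • E a - conj (z a) • (E a)ᴴ := by
      have e1 : z a = ((z a).re : ℂ) + ((z a).im : ℂ) * Complex.I := (Complex.re_add_im _).symm
      have e2 : conj (z a) = ((z a).re : ℂ) - ((z a).im : ℂ) * Complex.I := by
        apply Complex.ext <;> simp
      have e3 : z a • E a = (((z a).re : ℂ) + ((z a).im : ℂ) * Complex.I) • E a := by rw [← e1]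
      rw [e2, e3]
      simp only [smul_sub, smul_add, add_smul, sub_smul, smul_smul]
      abel
    rw [h4] at h3
    exact h3

/-- `lie H` as a subspace -/
def lm (hI : LIF H) : Submodule ℝ (Matrix (Fin N) (Fin N) ℂ) where
  carrier := lie H
  add_mem' := fun {a b} ha hb => hI.add a ha b hb
  zero_mem' := hI.zero
  smul_mem' := fun c x hx => by
    have h := hI.smul c x hx
    have e : (c : ℂ) • x = c • x := by
      ext i j
      simp
    rw [e] at h
    exact h

/-- the eigenspace of `τ` in `lie H` for the eigenvalue `e` -/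
def ei (hI : LIF H) (τ : Matrix (Fin N) (Fin N) ℂ →ₗ[ℝ] Matrix (Fin N) (Fin N) ℂ) (e : ℝ) :
    Submodule ℝ (Matrix (Fin N) (Fin N) ℂ) := lm hI ⊓ LinearMap.ker (τ - e • LinearMap.id)

theorem mem_ei (hI : LIF H) (e : ℝ) (X : Matrix (Fin N) (Fin N) ℂ) :
    X ∈ ei hI τ e ↔ X ∈ lie H ∧ τ X = e • X := by
  unfold ei
  rw [Submodule.mem_inf, LinearMap.mem_ker, LinearMap.sub_apply, LinearMap.smul_apply, LinearMap.id_apply,
    sub_eq_zero]
  exact Iff.rfl

/-- the map of the coefficients -/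
def fm (E : (Fin l → ℤ) × (Fin l → ℤ) → Matrix (Fin N) (Fin N) ℂ) (S : RT l) :
    ({p // p ∈ S} → ℂ) →ₗ[ℝ] Matrix (Fin N) (Fin N) ℂ where
  toFun z := ∑ p, (z p • E p.1 - conj (z p) • (E p.1)ᴴ)
  map_add' z w := by
    rw [← Finset.sum_add_distrib]
    refine Finset.sum_congr rfl fun p _ => ?_
    rw [Pi.add_apply, map_add, add_smul, add_smul]
    abel
  map_smul' c z := by
    rw [RingHom.id_apply, Finset.smul_sum]
    refine Finset.sum_congr rfl fun p _ => ?_
    rw [Pi.smul_apply, Complex.real_smul, map_mul, Complex.conj_ofReal, mul_smul, mul_smul, smul_sub]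
    rfl

theorem fm_gf (S : RT l) (z : (Fin l → ℤ) × (Fin l → ℤ) → ℂ) : fm E S (fun p => z p.1) = gf E S z := by
  show ∑ p : {p // p ∈ S}, (z p.1 • E p.1 - conj (z p.1) • (E p.1)ᴴ) = _
  unfold gf
  exact Finset.sum_coe_sort S (fun p => z p • E p - conj (z p) • (E p)ᴴ)

open Classical in
theorem fm_ext (S : RT l) (z : {p // p ∈ S} → ℂ) :
    fm E S z = gf E S (fun p => if h : p ∈ S then z ⟨p, h⟩ else 0) := by
  rw [← fm_gf]
  congr 1
  funext p
  rw [dif_pos p.2]

end SCRD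

open SCRD in
theorem t_SCRD : M_SCRD := by
  intro hLIEB hWFAC hTAUF hTAUS N H K σ τ A l Φ B Hc E x₀ θ r s ε hD
  classical
  have hI : LIF H := hLIEB N H hD.closed
  have hL : LRD H Φ B Hc E := hD.sr.lrd
  have hW : WFF Φ B := hWFAC l Φ B hL.ird
  have hT : TAF H Φ Hc E := hTAUF N H l Φ B Hc E hD.closed hL
  have hS : TSF H σ τ := hTAUS N H K σ τ hD.closed hD.simple hD.sym
  set h : Matrix (Fin N) (Fin N) ℂ := hx Hc x₀ with hh
  have hhA : h ∈ A := hD.sr.x0A
  have hhl : h ∈ lie H := hD.maxab.sub h hhA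
  have hhτ : τ h = -h := hD.maxab.anti h hhA
  set W := ei hI τ (-1) with hWd
  set P := ei hI τ 1 with hPd
  have memW : ∀ X, X ∈ W ↔ X ∈ lie H ∧ τ X = -X := fun X => by
    rw [hWd, mem_ei]
    simp
  have memP : ∀ X, X ∈ P ↔ X ∈ lie H ∧ τ X = X := fun X => by
    rw [hPd, mem_ei]
    simp
  have memL : ∀ X, X ∈ lm hI ↔ X ∈ lie H := fun X => Iff.rfl
  have PAsub : PA Φ x₀ ⊆ pos Φ := Finset.filter_subset _ _
  have PAΦ : ∀ p ∈ PA Φ x₀, p ∈ Φ := fun p hp => (hW.ppos p (PAsub hp)).1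
  have posΦ : ∀ p ∈ pos Φ, p ∈ Φ := fun p hp => (hW.ppos p hp).1
  have PAp : ∀ p ∈ PA Φ x₀, 0 < dz p.1 x₀ := fun p hp => (Finset.mem_filter.1 hp).2
  -- the bracket with `h` of an element of `lie H`
  have brl : ∀ X ∈ lie H, ∃ (x : Fin l → ℝ) (z : (Fin l → ℤ) × (Fin l → ℤ) → ℂ), X = hx Hc x + gf E (pos Φ) z := by
    intro X hX
    obtain ⟨x, z, hxz⟩ := hL.span X hX
    exact ⟨x, z, hxz⟩
  have adl : ∀ (y x : Fin l → ℝ) (z : (Fin l → ℤ) × (Fin l → ℤ) → ℂ),
      ad (hx Hc y) (hx Hc x + gf E (pos Φ) z) =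
        gf E (pos Φ) (fun p => (((dz p.1 y : ℝ) : ℂ) * Complex.I) * z p) := by
    intro y x z
    rw [map_add, ad_gf hL hT posΦ, ad_apply, hx_comm hL x y, sub_self, zero_add]
  have gfPA : ∀ z : (Fin l → ℤ) × (Fin l → ℤ) → ℂ,
      gf E (pos Φ) (fun p => (((dz p.1 x₀ : ℝ) : ℂ) * Complex.I) * z p) =
        gf E (PA Φ x₀) (fun p => (((dz p.1 x₀ : ℝ) : ℂ) * Complex.I) * z p) := by
    intro z
    unfold gf
    symm
    refine Finset.sum_subset PAsub fun p hp hpn => ?_
    have h0 : dz p.1 x₀ = 0 := by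
      have h1 := hD.sr.x0p p hp
      by_contra h2
      exact hpn (Finset.mem_filter.2 ⟨hp, lt_of_le_of_ne h1 (Ne.symm h2)⟩)
    beta_reduce
    rw [h0]
    simp
  -- the image of `lie H`
  have himg : (lm hI).map (ad h) = LinearMap.range (fm E (PA Φ x₀)) := by
    ext Y
    constructor
    · rintro ⟨X, hX, rfl⟩
      obtain ⟨x, z, rfl⟩ := brl X hX
      rw [hh, adl, gfPA, ← fm_gf]
      exact ⟨_, rfl⟩
    · rintro ⟨z, rfl⟩
      rw [fm_ext]
      set w : (Fin l → ℤ) × (Fin l → ℤ) → ℂ := fun p => if h : p ∈ PA Φ x₀ then z ⟨p, h⟩ else 0 with hw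
      refine ⟨gf E (PA Φ x₀) (fun p => (((dz p.1 x₀ : ℝ) : ℂ) * Complex.I)⁻¹ * w p),
        gf_mem hI hL PAΦ _, ?_⟩
      rw [hh, ad_gf hL hT PAΦ]
      unfold gf
      refine Finset.sum_congr rfl fun p hp => ?_
      have h1 : (((dz p.1 x₀ : ℝ) : ℂ) * Complex.I) ≠ 0 := by
        have := PAp p hp
        exact mul_ne_zero (by exact_mod_cast this.ne') Complex.I_ne_zero
      beta_reduce
      rw [mul_inv_cancel_left₀ h1]
  have finj : Function.Injective (fm E (PA Φ x₀)) := by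
    rw [← LinearMap.ker_eq_bot, LinearMap.ker_eq_bot']
    intro z hz
    rw [fm_ext] at hz
    funext p
    have h1 := gf_zero hL hW hT PAsub _ hz p.2
    rw [dif_pos p.2] at h1
    exact h1
  -- `ad h` is injective on the image
  have dinj : ∀ Y ∈ (lm hI).map (ad h), ad h Y = 0 → Y = 0 := by
    intro Y hY h0
    rw [himg] at hY
    obtain ⟨z, rfl⟩ := hY
    rw [fm_ext, hh, ad_gf hL hT PAΦ] at h0
    have hz : z = 0 := by
      funext p
      have h1 := gf_zero hL hW hT PAsub _ h0 p.2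
      simp only [dif_pos p.2] at h1
      rcases mul_eq_zero.1 h1 with h2 | h2
      · exfalso
        have := PAp p.1 p.2
        exact (mul_ne_zero (by exact_mod_cast this.ne') Complex.I_ne_zero) h2
      · exact h2
    rw [hz, map_zero]
  -- `ad h` exchanges the eigenspaces
  have τad : ∀ X ∈ lie H, τ (ad h X) = -(ad h (τ X)) := by
    intro X hX
    rw [ad_apply, hS.br h hhl X hX, hhτ, ad_apply]
    rw [Matrix.neg_mul, Matrix.mul_neg]
    abel
  have WP : ∀ X ∈ W, ad h X ∈ P := by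
    intro X hX
    rw [memW] at hX
    rw [memP]
    refine ⟨hI.br h hhl X hX.1, ?_⟩
    rw [τad X hX.1, hX.2, map_neg, neg_neg]
  have PW : ∀ X ∈ P, ad h X ∈ W := by
    intro X hX
    rw [memP] at hX
    rw [memW]
    refine ⟨hI.br h hhl X hX.1, ?_⟩
    rw [τad X hX.1, hX.2]
  have WL : W ≤ lm hI := inf_le_left
  have PL : P ≤ lm hI := inf_le_left
  have LWP : lm hI ≤ W ⊔ P := by
    intro X hX
    rw [Submodule.mem_sup]
    have hX' : X ∈ lie H := hX
    have hτX : τ X ∈ lie H := hD.sym.mem X hX'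
    have hs2 : ∀ (c : ℝ) (Y : Matrix (Fin N) (Fin N) ℂ), Y ∈ lie H → c • Y ∈ lie H := fun c Y hY =>
      (lm hI).smul_mem c hY
    have hn : ∀ Y : Matrix (Fin N) (Fin N) ℂ, Y ∈ lie H → -Y ∈ lie H := fun Y hY => (lm hI).neg_mem hY
    refine ⟨(1 / 2 : ℝ) • (X - τ X), ?_, (1 / 2 : ℝ) • (X + τ X), ?_, ?_⟩
    · rw [memW]
      refine ⟨hs2 _ _ ?_, ?_⟩
      · rw [sub_eq_add_neg]
        exact hI.add _ hX' _ (hn _ hτX)
      · rw [map_smul, map_sub, hS.inv X hX', ← smul_neg, neg_sub]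
    · rw [memP]
      refine ⟨hs2 _ _ (hI.add _ hX' _ hτX), ?_⟩
      rw [map_smul, map_add, hS.inv X hX', add_comm]
    · rw [← smul_add, sub_add_add_cancel, ← two_smul ℝ X, smul_smul]
      norm_num
  have Leq : lm hI = W ⊔ P := le_antisymm LWP (sup_le WL PL)
  have disj : W.map (ad h) ⊓ P.map (ad h) = ⊥ := by
    rw [eq_bot_iff]
    rintro Y ⟨⟨X₁, hX₁, rfl⟩, ⟨X₂, hX₂, h2⟩⟩
    have h3 := (memP _).1 (WP X₁ hX₁)
    have h4 := (memW _).1 (PW X₂ hX₂)
    rw [h2] at h4
    rw [Submodule.mem_bot]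
    have h5 : ad h X₁ = -(ad h X₁) := by
      rw [← h4.2, h3.2]
    have h6 : (2 : ℝ) • ad h X₁ = 0 := by
      rw [two_smul]
      nth_rewrite 2 [h5]
      exact add_neg_cancel _
    exact (smul_eq_zero.1 h6).resolve_left (by norm_num)
  have fsum : Module.finrank ℝ ((lm hI).map (ad h)) =
      Module.finrank ℝ (W.map (ad h)) + Module.finrank ℝ (P.map (ad h)) := by
    rw [← Submodule.finrank_sup_add_finrank_inf_eq, disj, ← Submodule.map_sup, ← Leq, finrank_bot, add_zero]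
  have le1 : Module.finrank ℝ (W.map (ad h)) ≤ Module.finrank ℝ (P.map (ad h)) := by
    have hm : ∀ x ∈ W.map (ad h), ad h x ∈ P.map (ad h) := by
      rintro _ ⟨X, hX, rfl⟩
      exact ⟨ad h X, WP X hX, rfl⟩
    refine LinearMap.finrank_le_finrank_of_injective (f := (ad h).restrict hm) ?_
    rw [← LinearMap.ker_eq_bot, LinearMap.ker_eq_bot']
    rintro ⟨Y, hY⟩ h0
    have h1 : ad h Y = 0 := congrArg Subtype.val h0
    exact Subtype.ext (dinj Y (Submodule.map_mono WL hY) h1)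
  have le2 : Module.finrank ℝ (P.map (ad h)) ≤ Module.finrank ℝ (W.map (ad h)) := by
    have hm : ∀ x ∈ P.map (ad h), ad h x ∈ W.map (ad h) := by
      rintro _ ⟨X, hX, rfl⟩
      exact ⟨ad h X, PW X hX, rfl⟩
    refine LinearMap.finrank_le_finrank_of_injective (f := (ad h).restrict hm) ?_
    rw [← LinearMap.ker_eq_bot, LinearMap.ker_eq_bot']
    rintro ⟨Y, hY⟩ h0
    have h1 : ad h Y = 0 := congrArg Subtype.val h0
    exact Subtype.ext (dinj Y (Submodule.map_mono PL hY) h1)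
  have fL : Module.finrank ℝ ((lm hI).map (ad h)) = 2 * (PA Φ x₀).card := by
    rw [himg, LinearMap.finrank_range_of_inj finj, Module.finrank_pi_fintype]
    simp [Complex.finrank_real_complex, mul_comm]
  have fW : Module.finrank ℝ (W.map (ad h)) = (PA Φ x₀).card := by omega
  -- the kernel of `ad h` on `W`
  have AW : A ≤ W := fun X hX => (memW X).2 ⟨hD.maxab.sub X hX, hD.maxab.anti X hX⟩
  have kerA : LinearMap.ker ((ad h).domRestrict W) = A.comap W.subtype := by
    ext X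
    rw [LinearMap.mem_ker, LinearMap.domRestrict_apply, Submodule.mem_comap, Submodule.subtype_apply]
    constructor
    · intro h0
      have hX := (memW _).1 X.2
      obtain ⟨x, z, hxz⟩ := brl X.1 hX.1
      refine hD.maxab.max X.1 hX.1 hX.2 fun Y hY => ?_
      obtain ⟨y, rfl⟩ := hD.sr.sub Y hY
      rw [hxz, hh, adl, gfPA] at h0
      have h1 : ad (hx Hc y) X.1 = 0 := by
        rw [hxz, adl]
        unfold gf
        refine Finset.sum_eq_zero fun p hp => ?_
        by_cases hpA : p ∈ PA Φ x₀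
        · have h2 := gf_zero hL hW hT PAsub _ h0 hpA
          rcases mul_eq_zero.1 h2 with h3 | h3
          · exfalso
            have := PAp p hpA
            exact (mul_ne_zero (by exact_mod_cast this.ne') Complex.I_ne_zero) h3
          · beta_reduce
            rw [h3]
            simp
        · have h2 : dz p.1 x₀ = 0 := by
            have h1 := hD.sr.x0p p hp
            by_contra h2
            exact hpA (Finset.mem_filter.2 ⟨hp, lt_of_le_of_ne h1 (Ne.symm h2)⟩)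
          have h3 := hD.sr.x0r p (posΦ p hp) h2 y hY
          beta_reduce
          rw [h3]
          simp
      rw [ad_apply, sub_eq_zero] at h1
      exact h1.symm
    · intro hX
      rw [ad_apply, hD.maxab.comm h hhA X.1 hX, sub_self]
  have fA : Module.finrank ℝ W = (PA Φ x₀).card + r := by
    have h1 := LinearMap.finrank_range_add_finrank_ker ((ad h).domRestrict W)
    rw [kerA, LinearMap.range_domRestrict, fW, (Submodule.comapSubtypeEquivOfLe AW).finrank_eq, hD.rk] at h1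
    exact h1.symm
  have hspan : Submodule.span ℝ {X | X ∈ lie H ∧ τ X = -X} = W := by
    have h1 : {X | X ∈ lie H ∧ τ X = -X} = (W : Set (Matrix (Fin N) (Fin N) ℂ)) := by
      ext X
      exact (memW X).symm
    rw [h1, Submodule.span_eq]
  rw [hspan, fA, add_comm]

end

end SYM
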