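import Pool.Agent.SYM.StS

/-!
# SHWM: products of highest weight functions
-/

namespace SYM

open STZ LGR MeasureTheory Matrix Filter

open scoped ComplexConjugate Matrix Real Topology

theorem t_SHWM : M_SHWM := by
  intro hCAL hLIE hWFA hTAU hPG N H K σ τ l Φ B Hc E hcl hsi hsy hL ν ν' f f' hf hf'
  have hC : CALFH H := hCAL N H
  have hT : TAF H Φ Hc E := hTAU N H l Φ B Hc E hcl hL
  have hW : WFF Φ B := hWFA l Φ B hL.ird
  have hA : SMA H (PG H σ) := (hPG N H K σ τ hcl hsi hsy).1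
  have h1 : C1H f := (hA.c2 f hf.mem).1
  have h2 : C1H f' := (hA.c2 f' hf'.mem).1
  refine ⟨(PG H σ).mul_mem hf.mem hf'.mem, ?_, ?_, ?_, ?_⟩
  · intro k g hk
    show f (k * g) * f' (k * g) = f g * f' g
    rw [hf.left k g hk, hf'.left k g hk]
  · intro x g
    rw [hC.dmul _ (hT.hmem x) f f' h1 h2 g, hf.wt x g, hf'.wt x g]
    have e : (∑ j, (((ν + ν') j : ℤ) : ℝ) * x j : ℝ) =
        (∑ j, (ν j : ℝ) * x j) + ∑ j, (ν' j : ℝ) * x j := by
      rw [← Finset.sum_add_distrib]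
      refine Finset.sum_congr rfl fun j _ => ?_
      rw [Pi.add_apply, Int.cast_add]
      ring
    rw [e]
    push_cast
    ring
  · intro p hp g
    have hpΦ : p ∈ Φ := (hW.ppos p hp).1
    obtain ⟨m1, m2⟩ := hL.emem p hpΦ
    rw [hC.dmul _ m1 f f' h1 h2 g, hC.dmul _ m2 f f' h1 h2 g, hf.hw p hp g, hf'.hw p hp g]
    ring
  · show f 1 * f' 1 = 1
    rw [hf.one, hf'.one, one_mul]

end SYM
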