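import Pool.Agent.SYM.StZ

/-!
# Module SPDX: the data of a symmetric space
-/

set_option autoImplicit false

namespace SYM

open STZ LGR MeasureTheory Matrix Filter

open scoped ComplexConjugate Matrix Real Topology

noncomputable section

namespace SPDX

/-! ### highest weight functions -/

/-- products with powers -/
theorem shw_pow {N : ℕ} {H K : Subgroup (SU N)} {σ : H →* H} {l : ℕ} {Φ : RT l}
    {Hc : Fin l → Matrix (Fin N) (Fin N) ℂ} {E : (Fin l → ℤ) × (Fin l → ℤ) → Matrix (Fin N) (Fin N) ℂ}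
    (hM : ∀ (ν ν' : Fin l → ℤ) (f f' : H → ℂ), SHW K σ Φ Hc E ν f → SHW K σ Φ Hc E ν' f' →
      SHW K σ Φ Hc E (ν + ν') (fun g => f g * f' g))
    {ν w : Fin l → ℤ} {f F : H → ℂ} (hf : SHW K σ Φ Hc E ν f) (hF : SHW K σ Φ Hc E w F) (n : ℕ) :
    SHW K σ Φ Hc E (ν + (n : ℤ) • w) (fun g => f g * F g ^ n) := by
  induction n with
  | zero =>
    have e1 : ν + ((0 : ℕ) : ℤ) • w = ν := by simp
    have e2 : (fun g => f g * F g ^ 0) = f := by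
      funext g
      simp
    rw [e1, e2]
    exact hf
  | succ n ih =>
    have h := hM _ _ _ _ ih hF
    have e1 : ν + ((n + 1 : ℕ) : ℤ) • w = ν + (n : ℤ) • w + w := by
      rw [Nat.cast_add, Nat.cast_one, add_smul, one_smul, add_assoc]
    have e2 : (fun g => f g * F g ^ (n + 1)) = fun g => f g * F g ^ n * F g := by
      funext g
      rw [pow_succ, mul_assoc]
    rw [e1, e2]
    exact h

/-- products with products of powers -/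
theorem shw_prod {N : ℕ} {H K : Subgroup (SU N)} {σ : H →* H} {l : ℕ} {Φ : RT l}
    {Hc : Fin l → Matrix (Fin N) (Fin N) ℂ} {E : (Fin l → ℤ) × (Fin l → ℤ) → Matrix (Fin N) (Fin N) ℂ}
    (hM : ∀ (ν ν' : Fin l → ℤ) (f f' : H → ℂ), SHW K σ Φ Hc E ν f → SHW K σ Φ Hc E ν' f' →
      SHW K σ Φ Hc E (ν + ν') (fun g => f g * f' g))
    {r : ℕ} {ν : Fin l → ℤ} {w : Fin r → Fin l → ℤ} {f : H → ℂ} {F : Fin r → H → ℂ}
    (hf : SHW K σ Φ Hc E ν f) (hF : ∀ j, SHW K σ Φ Hc E (w j) (F j)) (x : Fin r → ℕ)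
    (T : Finset (Fin r)) :
    SHW K σ Φ Hc E (ν + ∑ j ∈ T, (x j : ℤ) • w j) (fun g => f g * ∏ j ∈ T, F j g ^ x j) := by
  induction T using Finset.induction_on with
  | empty =>
    have e2 : (fun g => f g * ∏ j ∈ (∅ : Finset (Fin r)), F j g ^ x j) = f := by
      funext g
      rw [Finset.prod_empty, mul_one]
    rw [Finset.sum_empty, add_zero, e2]
    exact hf
  | insert a T ha ih =>
    have h := shw_pow hM ih (hF a) (x a)
    have e1 : ν + ∑ j ∈ insert a T, (x j : ℤ) • w j = ν + ∑ j ∈ T, (x j : ℤ) • w j + (x a : ℤ) • w a := by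
      rw [Finset.sum_insert ha]
      abel
    have e2 : (fun g => f g * ∏ j ∈ insert a T, F j g ^ x j) =
        fun g => f g * (∏ j ∈ T, F j g ^ x j) * F a g ^ x a := by
      funext g
      rw [Finset.prod_insert ha]
      ring
    rw [e1, e2]
    exact h

/-! ### the quadratic form -/

theorem gram {l r : ℕ} (A : Matrix (Fin l) (Fin l) ℤ) (ε : Fin r → Fin l → ℤ) (u w : Fin r → ℤ) :
    u ⬝ᵥ ((Matrix.of fun i j => ε i ⬝ᵥ (A *ᵥ ε j)) *ᵥ w) = (∑ i, u i • ε i) ⬝ᵥ (A *ᵥ ∑ j, w j • ε j) := by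
  rw [Matrix.mulVec_sum, sum_dotProduct]
  unfold dotProduct Matrix.mulVec
  refine Finset.sum_congr rfl fun i _ => ?_
  have e : (u i • ε i) ⬝ᵥ (∑ j, A *ᵥ (w j • ε j)) = u i * ∑ j, (ε i ⬝ᵥ (A *ᵥ ε j)) * w j := by
    rw [smul_dotProduct, dotProduct_sum, smul_eq_mul]
    congr 1
    refine Finset.sum_congr rfl fun j _ => ?_
    rw [Matrix.mulVec_smul, dotProduct_smul, smul_eq_mul, mul_comm]
  exact e.symm

theorem pdG {l r : ℕ} {Φ : RT l} {θ : Matrix (Fin l) (Fin l) ℤ} {x₀ : Fin l → ℝ} {s : Fin r → Fin l}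
    {ε : Fin r → Fin l → ℤ} (O : SO Φ θ x₀ s ε) {A : Matrix (Fin l) (Fin l) ℤ} {Q : (Fin l → ℤ) → ℤ}
    (hA : Aᵀ = A) (h2 : ∀ v, v ⬝ᵥ (A *ᵥ v) = 2 * Q v) {c : ℝ} (hc : 0 < c)
    (hQ : ∀ v, c * (sz v - 1) ^ 2 ≤ (Q v : ℝ)) :
    PD (Matrix.of fun i j => ε i ⬝ᵥ (A *ᵥ ε j)) := by
  constructor
  · ext i j
    rw [Matrix.transpose_apply, Matrix.of_apply, Matrix.of_apply, Matrix.dotProduct_mulVec,
      ← Matrix.mulVec_transpose, hA, dotProduct_comm]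
  · intro x hx
    rw [gram, h2]
    set v : Fin l → ℤ := ∑ i, x i • ε i with hv
    have hvs : ∀ i, v (s i) = x i := by
      intro i
      rw [hv, Finset.sum_apply, Finset.sum_eq_single i]
      · rw [Pi.smul_apply, O.sj, if_pos rfl, smul_eq_mul, mul_one]
      · intro j _ hj
        rw [Pi.smul_apply, O.sj, if_neg (Ne.symm hj), smul_zero]
      · intro h
        exact absurd (Finset.mem_univ i) h
    obtain ⟨i, hi⟩ : ∃ i, x i ≠ 0 := by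
      by_contra hcon
      push Not at hcon
      exact hx (funext hcon)
    have h1 : 0 < sz v - 1 := by
      unfold sz
      rw [add_sub_cancel_left]
      refine Finset.sum_pos' (fun i _ => abs_nonneg _) ⟨s i, Finset.mem_univ _, ?_⟩
      rw [hvs i]
      exact abs_pos.2 (Int.cast_ne_zero.2 hi)
    have h3 : (0 : ℝ) < (Q v : ℝ) := lt_of_lt_of_le (mul_pos hc (pow_pos h1 2)) (hQ v)
    have h4 : 0 < Q v := by exact_mod_cast h3
    omega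

theorem quadG {l r : ℕ} {A : Matrix (Fin l) (Fin l) ℤ} {Q : (Fin l → ℤ) → ℤ} (hQ : QF Q A)
    (ε : Fin r → Fin l → ℤ) (u w : Fin r → ℤ) :
    Q (1 + ∑ j, (u + w) j • ε j) = Q (1 + ∑ j, u j • ε j) + Q (1 + ∑ j, w j • ε j) -
      Q (1 + ∑ j, (0 : Fin r → ℤ) j • ε j) + u ⬝ᵥ ((Matrix.of fun i j => ε i ⬝ᵥ (A *ᵥ ε j)) *ᵥ w) := by
  rw [gram]
  have e1 : ∑ j, (u + w) j • ε j = ∑ j, u j • ε j + ∑ j, w j • ε j := by
    rw [← Finset.sum_add_distrib]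
    refine Finset.sum_congr rfl fun j _ => ?_
    rw [Pi.add_apply, add_smul]
  have e0 : ∑ j, (0 : Fin r → ℤ) j • ε j = 0 := by
    refine Finset.sum_eq_zero fun j _ => ?_
    rw [Pi.zero_apply, zero_smul]
  rw [e1, e0, add_zero, ← add_assoc, hQ.polar (1 + ∑ j, u j • ε j) (∑ j, w j • ε j),
    hQ.polar 1 (∑ j, w j • ε j), add_dotProduct]
  ring

/-! ### the dimension -/

theorem one_pos {l : ℕ} {p : (Fin l → ℤ) × (Fin l → ℤ)} (h1 : ∀ i, 0 ≤ p.2 i) (h2 : p.2 ≠ 0) :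
    0 < p.2 ⬝ᵥ (1 : Fin l → ℤ) := by
  obtain ⟨i, hi⟩ : ∃ i, p.2 i ≠ 0 := by
    by_contra hc
    push Not at hc
    exact h2 (funext hc)
  have h3 : p.2 ⬝ᵥ (1 : Fin l → ℤ) = ∑ i, p.2 i := by
    simp [dotProduct]
  rw [h3]
  exact Finset.sum_pos' (fun i _ => h1 i) ⟨i, Finset.mem_univ i, lt_of_le_of_ne (h1 i) (Ne.symm hi)⟩

/-- the element `k` of `PA` -/
def ep {l : ℕ} (Φ : RT l) (x₀ : Fin l → ℝ) (k : Fin (PA Φ x₀).card) : (Fin l → ℤ) × (Fin l → ℤ) :=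
  ((PA Φ x₀).equivFin.symm k).1

theorem ep_mem {l : ℕ} (Φ : RT l) (x₀ : Fin l → ℝ) (k : Fin (PA Φ x₀).card) : ep Φ x₀ k ∈ PA Φ x₀ :=
  ((PA Φ x₀).equivFin.symm k).2

theorem PA_sub {l : ℕ} (Φ : RT l) (x₀ : Fin l → ℝ) : PA Φ x₀ ⊆ pos Φ := by
  classical
  unfold PA
  exact Finset.filter_subset _ _

theorem mem_PA {l : ℕ} (Φ : RT l) (x₀ : Fin l → ℝ) (p : (Fin l → ℤ) × (Fin l → ℤ)) :
    p ∈ PA Φ x₀ ↔ p ∈ pos Φ ∧ 0 < dz p.1 x₀ := by
  classical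
  unfold PA
  exact Finset.mem_filter

theorem prod_ep {l : ℕ} (Φ : RT l) (x₀ : Fin l → ℝ) (g : (Fin l → ℤ) × (Fin l → ℤ) → ℝ) :
    ∏ k, g (ep Φ x₀ k) = ∏ p ∈ PA Φ x₀, g p := by
  rw [← Finset.prod_coe_sort (PA Φ x₀) g]
  exact Equiv.prod_comp (PA Φ x₀).equivFin.symm (fun p => g p.1)

theorem dd_eq {l r : ℕ} {Φ : RT l} {θ : Matrix (Fin l) (Fin l) ℤ} {x₀ : Fin l → ℝ} {s : Fin r → Fin l}
    {ε : Fin r → Fin l → ℤ} (O : SO Φ θ x₀ s ε) (m : Fin r → ℤ) :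
    ((∏ p ∈ pos Φ \ PA Φ x₀, (p.2 ⬝ᵥ (1 : Fin l → ℤ)) : ℤ) : ℝ) /
      ((∏ p ∈ pos Φ, (p.2 ⬝ᵥ (1 : Fin l → ℤ)) : ℤ) : ℝ) *
      ∏ k, ((((ep Φ x₀ k).2 ⬝ᵥ (1 : Fin l → ℤ) : ℤ) : ℝ) +
        ∑ j, (((ep Φ x₀ k).2 ⬝ᵥ ε j : ℤ) : ℝ) * (m j : ℝ)) = dZ Φ ε m := by
  have h1 : ∀ p : (Fin l → ℤ) × (Fin l → ℤ), (((p.2 ⬝ᵥ (1 : Fin l → ℤ) : ℤ) : ℝ) +
      ∑ j, ((p.2 ⬝ᵥ ε j : ℤ) : ℝ) * (m j : ℝ)) = ((p.2 ⬝ᵥ (1 + ∑ j, m j • ε j) : ℤ) : ℝ) := by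
    intro p
    rw [dotProduct_add, dotProduct_sum, Int.cast_add, Int.cast_sum]
    congr 1
    refine Finset.sum_congr rfl fun j _ => ?_
    rw [dotProduct_smul, smul_eq_mul, Int.cast_mul, mul_comm]
  rw [prod_ep Φ x₀ (fun p => ((p.2 ⬝ᵥ (1 : Fin l → ℤ) : ℤ) : ℝ) +
      ∑ j, ((p.2 ⬝ᵥ ε j : ℤ) : ℝ) * (m j : ℝ))]
  unfold dZ
  rw [← Finset.prod_sdiff (PA_sub Φ x₀) (f := fun p => p.2 ⬝ᵥ (1 + ∑ j, m j • ε j))]
  have h2 : ∏ p ∈ pos Φ \ PA Φ x₀, (p.2 ⬝ᵥ (1 + ∑ j, m j • ε j)) =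
      ∏ p ∈ pos Φ \ PA Φ x₀, (p.2 ⬝ᵥ (1 : Fin l → ℤ)) := by
    refine Finset.prod_congr rfl fun p hp => ?_
    obtain ⟨hp1, hp2⟩ := Finset.mem_sdiff.1 hp
    rw [dotProduct_add, dotProduct_sum]
    have h3 : ∀ j, p.2 ⬝ᵥ ε j = 0 := by
      intro j
      by_contra hne
      have h4 : 0 < p.2 ⬝ᵥ ε j := lt_of_le_of_ne (O.nn p hp1 j) (Ne.symm hne)
      exact hp2 ((mem_PA Φ x₀ p).2 ⟨hp1, (O.pos p hp1).2 ⟨j, h4⟩⟩)
    rw [Finset.sum_eq_zero, add_zero]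
    intro j _
    rw [dotProduct_smul, h3 j, smul_zero]
  rw [h2, Int.cast_mul]
  simp only [h1]
  rw [Int.cast_prod (s := PA Φ x₀)]
  ring

/-! ### continuity -/

theorem np_cont {N : ℕ} {H : Subgroup (SU N)} {σ : H →* H} (hσ : Continuous σ) {l : ℕ} (Φ : RT l)
    (E : (Fin l → ℤ) × (Fin l → ℤ) → Matrix (Fin N) (Fin N) ℂ) (ε : Fin l → ℤ) : Continuous (np σ Φ E ε) := by
  have h1 : Continuous fun g : H => yy σ g := by
    unfold yy
    have a1 : Continuous fun g : H => (σ g).1.1 :=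
      continuous_subtype_val.comp (continuous_subtype_val.comp hσ)
    have a2 : Continuous fun g : H => g.1.1 := continuous_subtype_val.comp continuous_subtype_val
    exact a1.matrix_conjTranspose.matrix_mul a2
  unfold np
  refine continuous_finsetSum _ fun k _ => continuous_finsetSum _ fun i _ => continuous_finsetSum _ fun j _ => ?_
  refine (Continuous.norm ?_).pow 2
  have h2 : Continuous fun g : H => LGR.ps (eb E (pe Φ ε)) (yy σ g) k := by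
    unfold LGR.ps LGR.cm
    refine Continuous.sub ?_ ?_
    · exact (h1.matrix_mul continuous_const).matrix_mul h1.matrix_conjTranspose
    · refine continuous_finsetSum _ fun j _ => ?_
      have h3 : Continuous fun g : H =>
          (yy σ g * eb E (pe Φ ε) k * (yy σ g)ᴴ * (eb E (pe Φ ε) j)ᴴ).trace :=
        (((h1.matrix_mul continuous_const).matrix_mul h1.matrix_conjTranspose).matrix_mul
          continuous_const).matrix_trace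
      exact h3.smul (continuous_const (y := eb E (pe Φ ε) j))
  exact h2.matrix_elem i j

theorem ik_cont {N : ℕ} {H K : Subgroup (SU N)} (hK : K ≤ H) :
    Continuous fun z : H × H × K => z.2.1⁻¹ * z.1 * ik hK z.2.2 := by
  have h1 : Continuous (ik hK) := by
    unfold ik
    exact Continuous.subtype_mk continuous_subtype_val _
  exact ((continuous_fst.comp continuous_snd).inv.mul continuous_fst).mul
    (h1.comp (continuous_snd.comp continuous_snd))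

theorem np_nn {N : ℕ} {H : Subgroup (SU N)} (σ : H →* H) {l : ℕ} (Φ : RT l)
    (E : (Fin l → ℤ) × (Fin l → ℤ) → Matrix (Fin N) (Fin N) ℂ) (ε : Fin l → ℤ) (g : H) :
    0 ≤ np σ Φ E ε g := by
  unfold np
  exact Finset.sum_nonneg fun k _ => Finset.sum_nonneg fun i _ => Finset.sum_nonneg fun j _ => sq_nonneg _

end SPDX

open SPDX

theorem t_SPDX : M_SPDX := by
  intro hWF hQU hPG hSM hDE hGE hCL N H K σ τ A l Φ B Hc E x₀ θ r s ε Dt c k D μ _ _ νK _ _ hK KM P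
  have L := Dt.sr.lrd
  have O := Dt.so
  have hW : WFF Φ B := hWF l Φ B L.ird
  obtain ⟨-, hQF, hAt, hA2, -, ⟨cQ, hcQ, hcQ'⟩, -⟩ := hQU l Φ B L.ird hW
  have hS : SMA H (PG H σ) := (hPG N H K σ τ Dt.closed Dt.simple Dt.sym).1
  have hM := hSM N H K σ τ l Φ B Hc E Dt.closed Dt.simple Dt.sym L
  have hFc : ∀ f ∈ PG H σ, Continuous f := fun f hf => (hS.c2 f hf).1.cont
  -- the numbers `b`
  choose b hb2 hb using O.beta
  have hF : ∀ j, SHW K σ Φ Hc E ((2 * b j) • ε j) (FJ σ Φ E (ε j)) ∧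
      ∀ g, ‖FJ σ Φ E (ε j) g‖ ^ 2 ≤ Real.exp (-np σ Φ E (ε j) g) :=
    fun j => hDE N H K σ τ A l Φ B Hc E x₀ θ r s ε Dt j (b j) (hb j)
  obtain ⟨β, hβ⟩ : ∃ β : Fin r → ℕ, ∀ j, (β j : ℤ) = 2 * b j := by
    refine ⟨fun j => (2 * b j).toNat, fun j => ?_⟩
    have := hb2 j
    exact Int.toNat_of_nonneg (by omega)
  have hβ1 : ∀ j, 1 ≤ β j := by
    intro j
    have h1 := hb2 j
    have h2 := hβ j
    omega
  have hFS : ∀ j, SHW K σ Φ Hc E ((β j : ℤ) • ε j) (FJ σ Φ E (ε j)) := by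
    intro j
    rw [hβ j]
    exact (hF j).1
  have hup : ∀ x ∈ SL (H := H) K σ Φ Hc E ε, ∀ j, (fun i => x i + if i = j then β j else 0) ∈ SL (H := H) K σ Φ Hc E ε := by
    rintro x ⟨f, hf⟩ j
    refine ⟨fun g => f g * FJ σ Φ E (ε j) g, ?_⟩
    have h := hM _ _ _ _ hf (hFS j)
    have e : ∑ i, ((x i + if i = j then β j else 0 : ℕ) : ℤ) • ε i = ∑ i, (x i : ℤ) • ε i + (β j : ℤ) • ε j := by
      have e1 : ∀ i, ((x i + if i = j then β j else 0 : ℕ) : ℤ) • ε i =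
          (x i : ℤ) • ε i + if i = j then (β j : ℤ) • ε i else 0 := by
        intro i
        by_cases hij : i = j
        · rw [if_pos hij, if_pos hij, Nat.cast_add, add_smul]
        · rw [if_neg hij, if_neg hij, add_zero, add_zero]
      rw [Finset.sum_congr rfl fun i _ => e1 i, Finset.sum_add_distrib, Finset.sum_ite_eq' Finset.univ j,
        if_pos (Finset.mem_univ j)]
    show SHW K σ Φ Hc E (∑ i, ((x i + if i = j then β j else 0 : ℕ) : ℤ) • ε i) _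
    rw [e]
    exact h
  obtain ⟨q, a, cc, haL, hcls⟩ := hCL r β (SL (H := H) K σ Φ Hc E ε) hβ1 hup
  choose fs hfs using haL
  obtain ⟨C, hC0, hC⟩ := hGE N H K σ τ A l Φ B Hc E x₀ θ r s ε Dt νK hK
  refine ⟨q, {
    G := Matrix.of fun i j => ε i ⬝ᵥ ((rd Φ).A *ᵥ ε j)
    Q := QZ Φ ε
    D₀ := ((∏ p ∈ pos Φ \ PA Φ x₀, (p.2 ⬝ᵥ (1 : Fin l → ℤ)) : ℤ) : ℝ) /
      ((∏ p ∈ pos Φ, (p.2 ⬝ᵥ (1 : Fin l → ℤ)) : ℤ) : ℝ)
    a₀ := fun k => (((ep Φ x₀ k).2 ⬝ᵥ (1 : Fin l → ℤ) : ℤ) : ℝ)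
    α := fun k j => (((ep Φ x₀ k).2 ⬝ᵥ ε j : ℤ) : ℝ)
    β := β
    a := a
    c := cc
    f := fun s z => fs s (z.2.1⁻¹ * z.1 * ik hK z.2.2)
    F := fun j z => FJ σ Φ E (ε j) (z.2.1⁻¹ * z.1 * ik hK z.2.2)
    ψ := fun j z => np σ Φ E (ε j) (z.2.1⁻¹ * z.1 * ik hK z.2.2) }, fun m => rfl, ?_⟩
  have hpos : ∀ p ∈ pos Φ, 0 < p.2 ⬝ᵥ (1 : Fin l → ℤ) := by
    intro p hp
    obtain ⟨-, h1, h2, -⟩ := hW.ppos p hp
    exact one_pos h1 h2
  constructor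
  · exact P.ker
  · exact pdG O hAt hA2 hcQ fun v => (hcQ' v).1
  · intro u w
    exact quadG hQF ε u w
  · refine div_pos ?_ ?_
    · have h : 0 < ∏ p ∈ pos Φ \ PA Φ x₀, (p.2 ⬝ᵥ (1 : Fin l → ℤ)) :=
        Finset.prod_pos fun p hp => hpos p (Finset.mem_sdiff.1 hp).1
      exact_mod_cast h
    · have h : 0 < ∏ p ∈ pos Φ, (p.2 ⬝ᵥ (1 : Fin l → ℤ)) := Finset.prod_pos hpos
      exact_mod_cast h
  · intro p
    have h := hpos _ (PA_sub Φ x₀ (ep_mem Φ x₀ p))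
    show (0 : ℝ) < (((ep Φ x₀ p).2 ⬝ᵥ (1 : Fin l → ℤ) : ℤ) : ℝ)
    exact_mod_cast h
  · intro p j
    have h := O.nn _ (PA_sub Φ x₀ (ep_mem Φ x₀ p)) j
    show (0 : ℝ) ≤ (((ep Φ x₀ p).2 ⬝ᵥ ε j : ℤ) : ℝ)
    exact_mod_cast h
  · intro p
    obtain ⟨h1, h2⟩ := (mem_PA Φ x₀ _).1 (ep_mem Φ x₀ p)
    obtain ⟨j, hj⟩ := (O.pos _ h1).1 h2
    refine ⟨j, ?_⟩
    show (0 : ℝ) < (((ep Φ x₀ p).2 ⬝ᵥ ε j : ℤ) : ℝ)
    exact_mod_cast hj
  · exact hβ1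
  · exact hcls
  · intro i
    exact (hFc _ (hfs i).mem).comp (ik_cont hK)
  · intro j
    exact (hFc _ (hFS j).mem).comp (ik_cont hK)
  · intro j
    exact (np_cont Dt.sym.cont Φ E (ε j)).comp (ik_cont hK)
  · intro j z
    exact np_nn σ Φ E (ε j) _
  · intro j z
    exact (hF j).2 _
  · intro i x
    have h := shw_prod hM (hfs i) hFS x Finset.univ
    have e : ∑ j, (a i j : ℤ) • ε j + ∑ j, (x j : ℤ) • (β j : ℤ) • ε j =
        ∑ j, ((a i j + β j * x j : ℕ) : ℤ) • ε j := by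
      rw [← Finset.sum_add_distrib]
      refine Finset.sum_congr rfl fun j _ => ?_
      rw [smul_smul, ← add_smul, Nat.cast_add, Nat.cast_mul, mul_comm (x j : ℤ)]
    rw [e] at h
    refine ⟨⟨fun j => a i j + β j * x j, ⟨_, h⟩⟩, fun j => rfl, ?_⟩
    intro g g'
    rw [P.int ⟨fun j => a i j + β j * x j, ⟨_, h⟩⟩ _ h g g']
    congr 2
    exact (dd_eq O (fun j => ((a i j + β j * x j : ℕ) : ℤ))).symm
  · refine ⟨C, hC0, fun g g' => ?_⟩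
    obtain ⟨ρ, h0, h1, h2⟩ := hC (g'⁻¹ * g)
    refine ⟨ρ, h0, fun j k => h1 j k, ?_⟩
    intro c' hc' R hR
    have h3 := h2 (fun p => c' ((PA Φ x₀).equivFin p)) (by
      intro p
      have h4 := hc' ((PA Φ x₀).equivFin p)
      have h5 : ep Φ x₀ ((PA Φ x₀).equivFin p) = p.1 := by
        unfold ep
        rw [Equiv.symm_apply_apply]
      have h6 : (0 : ℝ) < (((ep Φ x₀ ((PA Φ x₀).equivFin p)).2 ⬝ᵥ ε (c' ((PA Φ x₀).equivFin p)) : ℤ) : ℝ) := h4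
      rw [h5] at h6
      exact_mod_cast h6) R hR
    have e : ∀ k : K, ∏ p : {p // p ∈ PA Φ x₀}, (1 + R * np σ Φ E (ε (c' ((PA Φ x₀).equivFin p))) (g'⁻¹ * g * ik hK k))⁻¹ =
        ∏ p, (1 + R * np σ Φ E (ε (c' p)) (g'⁻¹ * g * ik hK k))⁻¹ := by
      intro k
      exact Equiv.prod_comp (PA Φ x₀).equivFin
        (fun p => (1 + R * np σ Φ E (ε (c' p)) (g'⁻¹ * g * ik hK k))⁻¹)
    simp only [e] at h3
    exact h3

end

end SYM
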