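import Pool.Agent.SYM.StS

/-!
# Symmetric spaces: the average of a character over `K`
-/

namespace SYM

open STZ LGR MeasureTheory Matrix Filter

open scoped ComplexConjugate Matrix Real Topology

noncomputable section

namespace SPHR

section avg

variable {G : Type} [Group G] [TopologicalSpace G] [IsTopologicalGroup G] [CompactSpace G]
  [MeasurableSpace G] [BorelSpace G] (μ : Measure G) [IsProbabilityMeasure μ] {n : ℕ} (R : Rep G (Fin n))

theorem cont_entry (i j : Fin n) : Continuous fun g => R.ρ g i j :=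
  (R.cont).matrix_elem i j


theorem integ {u : G → ℂ} (hu : Continuous u) : Integrable u μ :=
  hu.integrable_of_hasCompactSupport (HasCompactSupport.of_compactSpace u)

/-- the mean of the representation -/
def av : Matrix (Fin n) (Fin n) ℂ := fun i j => ∫ g, R.ρ g i j ∂μ


/-- linear functionals of the representation can be integrated through the mean -/
theorem lin_av (c : Matrix (Fin n) (Fin n) ℂ) :
    ∫ g, ∑ i, ∑ j, c i j * R.ρ g i j ∂μ = ∑ i, ∑ j, c i j * av μ R i j := by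
  have hint : ∀ i j, Integrable (fun g => c i j * R.ρ g i j) μ := fun i j =>
    (integ μ (cont_entry R i j)).const_mul _
  rw [integral_finsetSum _ (fun i _ => integrable_finsetSum _ fun j _ => hint i j)]
  refine Finset.sum_congr rfl fun i _ => ?_
  rw [integral_finsetSum _ (fun j _ => hint i j)]
  refine Finset.sum_congr rfl fun j _ => ?_
  rw [integral_const_mul]
  rfl

theorem av_left [μ.IsMulLeftInvariant] (h : G) : R.ρ h * av μ R = av μ R := by
  ext i j
  rw [Matrix.mul_apply]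
  have h1 : ∀ k, R.ρ h i k * av μ R k j = ∫ g, R.ρ h i k * R.ρ g k j ∂μ := fun k =>
    (integral_const_mul _ _).symm
  simp only [h1]
  rw [← integral_finsetSum _ (fun k _ => (integ μ (cont_entry R k j)).const_mul _)]
  have h2 : ∀ g, ∑ k, R.ρ h i k * R.ρ g k j = R.ρ (h * g) i j := by
    intro g
    rw [map_mul, Matrix.mul_apply]
  simp only [h2]
  exact integral_mul_left_eq_self (fun g => R.ρ g i j) h

theorem av_herm [μ.IsInvInvariant] : (av μ R)ᴴ = av μ R := by
  ext i j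
  rw [Matrix.conjTranspose_apply]
  unfold av
  rw [show star (∫ g, R.ρ g j i ∂μ) = conj (∫ g, R.ρ g j i ∂μ) from rfl, ← integral_conj]
  have h2 : ∀ g, conj (R.ρ g j i) = R.ρ g⁻¹ i j := by
    intro g
    rw [R.unit, Matrix.conjTranspose_apply]
    rfl
  simp only [h2]
  exact integral_inv_eq_self (fun g => R.ρ g i j) μ


theorem av_fix (u : Fin n → ℂ) (hu : ∀ g, R.ρ g *ᵥ u = u) : av μ R *ᵥ u = u := by
  funext i
  have h1 : (av μ R *ᵥ u) i = ∑ j, ∫ g, R.ρ g i j * u j ∂μ := by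
    rw [Matrix.mulVec, dotProduct]
    exact Finset.sum_congr rfl fun j _ => (integral_mul_const _ _).symm
  rw [h1, ← integral_finsetSum _ (fun j _ => (integ μ (cont_entry R i j)).mul_const _)]
  have h2 : ∀ g, ∑ j, R.ρ g i j * u j = u i := fun g => congrFun (hu g) i
  simp only [h2]
  simp

end avg

section co

variable {N : ℕ} {H : Subgroup (SU N)} {n : ℕ} (σ : Rep H (Fin n))

/-- the matrix coefficient -/
def co (u v : Fin n → ℂ) (g : H) : ℂ := star u ⬝ᵥ (σ.ρ g *ᵥ v)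

theorem co_eq (u v : Fin n → ℂ) (g : H) :
    co σ u v g = ∑ i, ∑ j, (conj (u i) * v j) * σ.ρ g i j := by
  unfold co
  simp only [dotProduct, mulVec, Finset.mul_sum, Pi.star_apply]
  refine Finset.sum_congr rfl fun i _ => Finset.sum_congr rfl fun j _ => ?_
  rw [show star (u i) = conj (u i) from rfl]
  ring

theorem co_mem (hσ : PRep σ) (u v : Fin n → ℂ) : co σ u v ∈ PF H := by
  have h : co σ u v = ∑ i, ∑ j, (conj (u i) * v j) • (fun g : H => σ.ρ g i j) := by
    funext g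
    rw [co_eq]
    simp only [Finset.sum_apply, Pi.smul_apply, smul_eq_mul]
  rw [h]
  exact Subalgebra.sum_mem _ fun i _ => Subalgebra.sum_mem _ fun j _ => Subalgebra.smul_mem _ (hσ i j) _

theorem dH_co (hP : PFF H) (hσ : PRep σ) (hD : DRF σ) (a : ℂ)
    (u v : Fin n → ℂ) (X : Matrix (Fin N) (Fin N) ℂ) (hX : X ∈ lie H) (g : H) :
    dH X (fun g => co σ u v g * a) g = (star u ⬝ᵥ ((σ.ρ g) *ᵥ (dr σ X *ᵥ v))) * a := by
  have h1 : ∀ i j, HasDerivAt (fun t : ℝ => σ.ρ (g * exH H X t) i j) ((σ.ρ g * dr σ X) i j) 0 := by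
    intro i j
    have h2 : DifferentiableAt ℝ (fun t : ℝ => σ.ρ (g * exH H X t) i j) 0 := ((hP.c2 _ (hσ i j)).1).diff X hX g
    have h3 := h2.hasDerivAt
    have h4 : deriv (fun t : ℝ => σ.ρ (g * exH H X t) i j) 0 = (σ.ρ g * dr σ X) i j := hD.d X hX g i j
    rw [h4] at h3
    exact h3
  have h5 : HasDerivAt (fun t : ℝ => co σ u v (g * exH H X t) * a)
      ((∑ i, ∑ j, (conj (u i) * v j) * (σ.ρ g * dr σ X) i j) * a) 0 := by
    have h6 : HasDerivAt (fun t : ℝ => ∑ i, ∑ j, (conj (u i) * v j) * σ.ρ (g * exH H X t) i j)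
        (∑ i, ∑ j, (conj (u i) * v j) * (σ.ρ g * dr σ X) i j) 0 := by
      refine HasDerivAt.fun_sum fun i _ => HasDerivAt.fun_sum fun j _ => ?_
      exact (h1 i j).const_mul _
    have h7 : (fun t : ℝ => co σ u v (g * exH H X t) * a) =
        fun t : ℝ => (∑ i, ∑ j, (conj (u i) * v j) * σ.ρ (g * exH H X t) i j) * a := by
      funext t
      rw [co_eq σ u v _]
    rw [h7]
    exact h6.mul_const a
  have h8 : dH X (fun g => co σ u v g * a) g =
      (∑ i, ∑ j, (conj (u i) * v j) * (σ.ρ g * dr σ X) i j) * a := h5.deriv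
  rw [h8, Matrix.mulVec_mulVec]
  congr 1
  simp only [dotProduct, mulVec, Finset.mul_sum, Pi.star_apply]
  refine Finset.sum_congr rfl fun i _ => Finset.sum_congr rfl fun j _ => ?_
  rw [show star (u i) = conj (u i) from rfl]
  ring

end co

theorem nz {n : ℕ} (u : Fin n → ℂ) (h : star u ⬝ᵥ u = 0) : u = 0 := by
  have h1 : star u ⬝ᵥ u = ((∑ i, ‖u i‖ ^ 2 : ℝ) : ℂ) := by
    simp only [dotProduct, Pi.star_apply]
    push_cast
    refine Finset.sum_congr rfl fun i _ => ?_
    rw [show star (u i) = conj (u i) from rfl, Complex.conj_mul']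
  rw [h1] at h
  have h2 : ∑ i, ‖u i‖ ^ 2 = 0 := by exact_mod_cast h
  rw [Finset.sum_eq_zero_iff_of_nonneg (fun i _ => by positivity)] at h2
  funext i
  have h3 := h2 i (Finset.mem_univ i)
  have h4 : ‖u i‖ = 0 := by
    exact pow_eq_zero_iff (two_ne_zero) |>.1 h3
  exact norm_eq_zero.1 h4

theorem PF_le_PG {N : ℕ} (H : Subgroup (SU N)) (σ : H →* H) : PF H ≤ PG H σ := by
  unfold PF PG
  exact Algebra.adjoin_mono Set.subset_union_left

end SPHR

theorem t_SPHR : M_SPHR := by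
  intro hHA hCA hLI hWF hTAx hPFx hDRx hHW hKS
  intro N H K σ τ A l Φ B Hc E x₀ θ r s ε hSD c k D X hKC hFr νK _ _ hK n ρ hIrr hPR lam hHWR
  have hcl := hSD.closed
  have hlrd := hSD.sr.lrd
  have hTA := hTAx N H l Φ B Hc E hcl hlrd
  have hPF := hPFx N H hcl
  have hDR := hDRx N H n ρ hcl hPR
  have hKcl : IsClosed (K : Set (SU N)) := hSD.sym.closed
  have hKc : CompactSpace K := isCompact_iff_compactSpace.1 hKcl.isCompact
  have hsec : SecondCountableTopology K :=
    inferInstanceAs (SecondCountableTopology ((K : Set (SU N)) : Type))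
  obtain ⟨hri, hii, -⟩ := hHA K νK
  -- the restriction to `K`
  let R : Rep K (Fin n) :=
    { ρ := ρ.ρ.comp (Subgroup.inclusion hK)
      cont := ρ.cont.comp (Continuous.subtype_mk continuous_subtype_val _)
      unit := fun g => ρ.unit (Subgroup.inclusion hK g) }
  have hR : ∀ k : K, R.ρ k = ρ.ρ (ik hK k) := fun k => rfl
  set P := SPHR.av νK R with hP
  -- the integral of a trace
  have htr : ∀ g : H, ∫ k, ρ.ch (g * ik hK k) ∂νK = (ρ.ρ g * P).trace := by
    intro g
    have h1 : ∀ k : K, ρ.ch (g * ik hK k) = ∑ i, ∑ j, (ρ.ρ g)ᵀ i j * R.ρ k i j := by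
      intro k
      rw [Rep.ch, map_mul, Matrix.trace, hR, Finset.sum_comm]
      refine Finset.sum_congr rfl fun i _ => ?_
      rw [Matrix.diag_apply, Matrix.mul_apply]
      rfl
    simp only [h1]
    rw [SPHR.lin_av, Matrix.trace, Finset.sum_comm]
    refine Finset.sum_congr rfl fun i _ => ?_
    rw [Matrix.diag_apply, Matrix.mul_apply]
    rfl
  by_cases hP0 : P = 0
  · left
    intro g
    rw [htr, hP0, Matrix.mul_zero, Matrix.trace_zero]
  right
  obtain ⟨v, hv1, hvw, hvu⟩ := hHW N H l Φ B Hc E c k D X hcl hlrd hKC hFr n ρ hIrr hPR lam hHWR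
  have hv0 : v ≠ 0 := by
    rintro rfl
    simp at hv1
  have hks := hKS N H K σ τ A l Φ B Hc E x₀ θ r s ε hSD n ρ hIrr hPR (lam - 1) v hvw hv0
  -- a fixed vector
  obtain ⟨w, hw⟩ : ∃ w, P *ᵥ w ≠ 0 := by
    by_contra hcon
    push Not at hcon
    apply hP0
    ext i j
    have h1 := congrFun (hcon (Pi.single j 1)) i
    rw [Matrix.mulVec_single_one] at h1
    exact h1
  set u := P *ᵥ w with hu
  have hfixP : ∀ x : Fin n → ℂ, ∀ k : K, R.ρ k *ᵥ (P *ᵥ x) = P *ᵥ x := by
    intro x k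
    rw [Matrix.mulVec_mulVec, hP, SPHR.av_left]
  have hfix' : ∀ x : Fin n → ℂ, ∀ k : H, k.1 ∈ K → ρ.ρ k *ᵥ (P *ᵥ x) = P *ᵥ x := by
    intro x k hk
    exact hfixP x ⟨k.1, hk⟩
  have hufix : ∀ k : H, k.1 ∈ K → ρ.ρ k *ᵥ u = u := hfix' w
  have ha0 : star u ⬝ᵥ v ≠ 0 := fun h => hw (hks u hufix h)
  set a := star u ⬝ᵥ v with ha
  have hva : star v ⬝ᵥ u = conj a := by
    rw [ha, show conj (star u ⬝ᵥ v) = star (star u ⬝ᵥ v) from rfl, Matrix.star_dotProduct]
  have hva0 : star v ⬝ᵥ u ≠ 0 := by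
    rw [hva]
    exact (map_ne_zero _).2 ha0
  -- `P x` is a multiple of `u`
  have hPx : ∀ x : Fin n → ℂ, ∃ t : ℂ, P *ᵥ x = t • u := by
    intro x
    refine ⟨(star v ⬝ᵥ (P *ᵥ x)) / (star v ⬝ᵥ u), ?_⟩
    rw [← sub_eq_zero]
    apply hks
    · intro k hk
      rw [Matrix.mulVec_sub, Matrix.mulVec_smul, hfix' x k hk, hufix k hk]
    · have h1 : star v ⬝ᵥ (P *ᵥ x - (star v ⬝ᵥ (P *ᵥ x) / star v ⬝ᵥ u) • u) = 0 := by
        rw [dotProduct_sub, dotProduct_smul, smul_eq_mul, div_mul_cancel₀ _ hva0, sub_self]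
      have h2 := congrArg star h1
      rw [Matrix.star_dotProduct, star_star, star_zero] at h2
      rw [dotProduct_comm]
      simpa [dotProduct_comm] using h2
  have huu : star u ⬝ᵥ u ≠ 0 := by
    exact fun h => hw (SPHR.nz u h)
  have hPu : star u ᵥ* P = star u := by
    have h1 : P *ᵥ u = u := by
      rw [hP]
      exact SPHR.av_fix νK R u (fun k => hfixP w k)
    have h2 := congrArg star h1
    rw [Matrix.star_mulVec, hP, SPHR.av_herm] at h2
    exact h2
  have hPt : ∀ x : Fin n → ℂ, P *ᵥ x = ((star u ⬝ᵥ x) / (star u ⬝ᵥ u)) • u := by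
    intro x
    obtain ⟨t, ht⟩ := hPx x
    have h1 : star u ⬝ᵥ (P *ᵥ x) = star u ⬝ᵥ x := by
      rw [Matrix.dotProduct_mulVec, hPu]
    rw [ht, dotProduct_smul, smul_eq_mul] at h1
    rw [ht]
    congr 1
    rw [eq_div_iff huu, h1]
  refine ⟨fun g => SPHR.co ρ u v g * a⁻¹, ⟨?_, ?_, ?_, ?_, ?_⟩, ?_⟩
  · -- mem
    have h1 : (fun g => SPHR.co ρ u v g * a⁻¹) = a⁻¹ • SPHR.co ρ u v := by
      funext g
      rw [Pi.smul_apply, smul_eq_mul, mul_comm]
    rw [h1]
    exact Subalgebra.smul_mem _ (SPHR.PF_le_PG H σ (SPHR.co_mem ρ hPR u v)) _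
  · -- left
    intro k g hk
    have h1 : star u ᵥ* ρ.ρ k = star u := by
      have h2 : ρ.ρ k⁻¹ *ᵥ u = u := hufix k⁻¹ (by
        have h3 : (k⁻¹ : H).1 = k.1⁻¹ := rfl
        rw [h3]
        exact inv_mem hk)
      have h3 := congrArg star h2
      rw [Matrix.star_mulVec, ρ.unit, Matrix.conjTranspose_conjTranspose] at h3
      exact h3
    have h2 : SPHR.co ρ u v (k * g) = SPHR.co ρ u v g := by
      unfold SPHR.co
      rw [map_mul, ← Matrix.mulVec_mulVec, Matrix.dotProduct_mulVec, h1]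
    show SPHR.co ρ u v (k * g) * a⁻¹ = _
    rw [h2]
  · -- wt
    intro x g
    rw [SPHR.dH_co ρ hPF hPR hDR a⁻¹ u v _ (hTA.hmem x) g, hvw.wt x, Matrix.mulVec_smul, dotProduct_smul,
      smul_eq_mul]
    unfold SPHR.co
    ring
  · -- hw
    intro p hp g
    have hpΦ : p ∈ Φ := (Finset.mem_filter.1 hp).1
    obtain ⟨h1, h2⟩ := hlrd.emem p hpΦ
    rw [SPHR.dH_co ρ hPF hPR hDR a⁻¹ u v _ h1 g, SPHR.dH_co ρ hPF hPR hDR a⁻¹ u v _ h2 g, hvw.hw p hp,
      Matrix.mulVec_smul, dotProduct_smul, smul_eq_mul]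
    ring
  · -- one
    unfold SPHR.co
    show star u ⬝ᵥ (ρ.ρ 1 *ᵥ v) * a⁻¹ = 1
    rw [map_one, Matrix.one_mulVec]
    exact mul_inv_cancel₀ ha0
  · -- the integral
    intro g
    rw [htr]
    have h1 : ∀ k : K, SPHR.co ρ u v (g * ik hK k) * a⁻¹ =
        ∑ i, ∑ j, ((star u ᵥ* ρ.ρ g) i * v j * a⁻¹) * R.ρ k i j := by
      intro k
      unfold SPHR.co
      rw [map_mul, ← Matrix.mulVec_mulVec, Matrix.dotProduct_mulVec, dotProduct, Finset.sum_mul]
      refine Finset.sum_congr rfl fun i _ => ?_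
      rw [Matrix.mulVec, dotProduct, Finset.mul_sum, Finset.sum_mul]
      refine Finset.sum_congr rfl fun j _ => ?_
      rw [hR]
      ring
    simp only [h1]
    have h2 := SPHR.lin_av νK R (fun i j => (star u ᵥ* ρ.ρ g) i * v j * a⁻¹)
    rw [h2]
    have h3 : ∑ i, ∑ j, ((star u ᵥ* ρ.ρ g) i * v j * a⁻¹) * P i j =
        ((star u ᵥ* ρ.ρ g) ⬝ᵥ (P *ᵥ v)) * a⁻¹ := by
      rw [dotProduct, Finset.sum_mul]
      refine Finset.sum_congr rfl fun i _ => ?_
      rw [Matrix.mulVec, dotProduct, Finset.mul_sum, Finset.sum_mul]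
      refine Finset.sum_congr rfl fun j _ => ?_
      ring
    rw [h3, hPt v, dotProduct_smul, smul_eq_mul, ← ha]
    have h4 : (ρ.ρ g * P).trace = ((star u ᵥ* ρ.ρ g) ⬝ᵥ u) / (star u ⬝ᵥ u) := by
      have h5 : P = (star u ⬝ᵥ u)⁻¹ • Matrix.vecMulVec u (star u) := by
        ext i j
        have h6 := congrFun (hPt (Pi.single j 1)) i
        rw [Matrix.mulVec_single_one] at h6
        have h7 : star u ⬝ᵥ (Pi.single j 1 : Fin n → ℂ) = star (u j) := by
          rw [dotProduct_single_one]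
          rfl
        rw [h7] at h6
        have h8 : P i j = (star (u j) / (star u ⬝ᵥ u)) * u i := h6
        rw [h8, Matrix.smul_apply, Matrix.vecMulVec_apply, smul_eq_mul, Pi.star_apply]
        ring
      rw [h5, Matrix.mul_smul, Matrix.trace_smul, smul_eq_mul, Matrix.mul_vecMulVec, Matrix.trace_vecMulVec,
        div_eq_inv_mul, ← Matrix.dotProduct_mulVec, dotProduct_comm (ρ.ρ g *ᵥ u) (star u)]
    rw [h4]
    field_simp

end

end SYM
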