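import Pool.Agent.SYM.StS
import Pool.Agent.STZ.KERI

/-!
# SYM, module SPHU: a spherical highest weight function comes from one representation
-/

namespace SYM

open STZ LGR MeasureTheory Matrix Filter

open scoped ComplexConjugate Matrix Real Topology

noncomputable section

namespace SPHU

section rep

variable {G : Type} [Group G] [TopologicalSpace G] [IsTopologicalGroup G] [CompactSpace G]
  [T2Space G] [SecondCountableTopology G] [MeasurableSpace G] [BorelSpace G]
  (μ : Measure G) [IsProbabilityMeasure μ] [μ.IsMulLeftInvariant]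

/-- the coefficients of a function -/
def cf {n : ℕ} (σ : Rep G (Fin n)) (u : G → ℂ) (p q : Fin n) : ℂ := ∫ y, u y * conj (σ.ρ y p q) ∂μ

omit [T2Space G] in
theorem cf_left {n : ℕ} (σ : Rep G (Fin n)) {u : G → ℂ} (hu : Continuous u) (k : G)
    (hk : ∀ y, u (k * y) = u y) (p q : Fin n) :
    cf μ σ u p q = ∑ s, conj (σ.ρ k p s) * cf μ σ u s q := by
  have h1 := integral_mul_left_eq_self (μ := μ) (fun y => u y * conj (σ.ρ y p q)) k
  have h2 : ∀ y, u (k * y) * conj (σ.ρ (k * y) p q) = ∑ s, conj (σ.ρ k p s) * (u y * conj (σ.ρ y s q)) := by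
    intro y
    rw [hk, map_mul, Matrix.mul_apply, map_sum, Finset.mul_sum]
    refine Finset.sum_congr rfl fun s _ => ?_
    rw [map_mul]
    ring
  simp only [h2] at h1
  rw [integral_finsetSum] at h1
  · rw [cf, ← h1]
    refine Finset.sum_congr rfl fun s _ => ?_
    rw [integral_const_mul]
    rfl
  · intro s _
    exact (KERI.integ μ (hu.mul (Complex.continuous_conj.comp (KERI.cont_entry σ s q)))).const_mul _

omit [T2Space G] [IsTopologicalGroup G] [μ.IsMulLeftInvariant] in
theorem Pr_eq {ι : Type} {χ : ι → G → ℂ} {a : ι} {n : ℕ} {σ : Rep G (Fin n)}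
    (hσ : ∀ g, σ.ch g = χ a g) {u : G → ℂ} (hu : Continuous u) (g : G) :
    Pr μ (KK χ) {a} u g = n * ∑ p, ∑ q, σ.ρ g p q * cf μ σ u p q := by
  unfold Pr
  rw [Finset.sum_singleton, KERI.int_KK μ hσ g hu]
  rfl

end rep

/-- the derivative and the coefficients -/
theorem cf_der {N : ℕ} {H : Subgroup (SU N)} (hcl : IsClosed (H : Set (SU N))) (hCA : S_CALH) (hGR : S_GRH)
    (hPF : S_PFFX) (hDR : S_DREP) (μ : Measure H) [IsProbabilityMeasure μ] [μ.IsMulLeftInvariant]
    {n : ℕ} (σ : Rep H (Fin n)) (hσ : PRep σ) {u : H → ℂ} (hu : C2H u)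
    (X : Matrix (Fin N) (Fin N) ℂ) (hX : X ∈ lie H) (p q : Fin n) :
    cf μ σ (dH X u) p q = ∑ s, dr σ X q s * cf μ σ u p s := by
  have hcomp : CompactSpace H := isCompact_iff_compactSpace.1 hcl.isCompact
  have hsec : SecondCountableTopology H :=
    inferInstanceAs (SecondCountableTopology ((H : Set (SU N)) : Type))
  have hC := hCA N H
  have hD := hDR N H n σ hcl hσ
  have hc2 : ∀ s, C2H (fun g : H => σ.ρ g p s) := fun s => (hPF N H hcl).c2 _ (hσ p s)
  have hcj : ∀ s, C2H (fun g : H => conj (σ.ρ g p s)) := fun s => hC.cj _ (hc2 s)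
  have h0 := (hGR N H hcl μ).1 X hX (fun g => u g * conj (σ.ρ g p q)) (hC.mul1 _ _ hu.1 (hcj q).1)
  have h1 : ∀ g, dH X (fun g => u g * conj (σ.ρ g p q)) g =
      dH X u g * conj (σ.ρ g p q) - ∑ s, dr σ X q s * (u g * conj (σ.ρ g p s)) := by
    intro g
    rw [hC.dmul X hX _ _ hu.1 (hcj q).1, hC.dconj X hX _ (hc2 q).1, hD.d X hX, Matrix.mul_apply, map_sum,
      sub_eq_add_neg, ← Finset.sum_neg_distrib, Finset.mul_sum]
    congr 1
    refine Finset.sum_congr rfl fun s _ => ?_
    have h2 : conj (dr σ X s q) = -dr σ X q s := by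
      have h3 := congrFun (congrFun (hD.skew X hX) q) s
      rw [Matrix.conjTranspose_apply, Matrix.neg_apply] at h3
      exact h3
    rw [map_mul, h2]
    ring
  simp only [h1] at h0
  have hi1 : Integrable (fun g => dH X u g * conj (σ.ρ g p q)) μ :=
    KERI.integ μ ((hu.1.dcont X hX).mul (hcj q).1.cont)
  have hi2 : ∀ s, Integrable (fun g => dr σ X q s * (u g * conj (σ.ρ g p s))) μ := fun s =>
    (KERI.integ μ (hu.1.cont.mul (hcj s).1.cont)).const_mul _
  rw [integral_sub hi1 (integrable_finsetSum _ fun s _ => hi2 s),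
    integral_finsetSum _ fun s _ => hi2 s, sub_eq_zero] at h0
  rw [cf, h0]
  refine Finset.sum_congr rfl fun s _ => ?_
  rw [integral_const_mul]
  rfl

/-- linear algebra -/
theorem lin {n : ℕ} (P M : Matrix (Fin n) (Fin n) ℂ) (u v z : Fin n → ℂ) (h1 : ∀ p q, P p q = z q * u p)
    (hP : Pᴴ = P) (huv : ∑ p, conj (u p) * v p = 1) :
    (M * P).trace = ∑ p, conj (u p) * (M *ᵥ (P *ᵥ v)) p := by
  set a : ℂ := ∑ q, z q * v q with ha
  have hz : ∀ q, z q = conj a * conj (u q) := by
    intro q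
    have h2 : ∀ p, conj (z p) * conj (u q) = z q * u p := by
      intro p
      have h3 := congrFun (congrFun hP p) q
      rw [Matrix.conjTranspose_apply, h1, h1] at h3
      rw [← h3, star_mul']
      rfl
    have h4 : ∑ p, conj (v p) * (conj (z p) * conj (u q)) = ∑ p, conj (v p) * (z q * u p) :=
      Finset.sum_congr rfl fun p _ => by rw [h2]
    have h5 : ∑ p, conj (v p) * (conj (z p) * conj (u q)) = conj a * conj (u q) := by
      rw [ha, map_sum, Finset.sum_mul]
      refine Finset.sum_congr rfl fun p _ => ?_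
      rw [map_mul]
      ring
    have h6 : ∑ p, conj (v p) * (z q * u p) = z q * conj (∑ p, conj (u p) * v p) := by
      rw [map_sum, Finset.mul_sum]
      refine Finset.sum_congr rfl fun p _ => ?_
      rw [map_mul, Complex.conj_conj]
      ring
    rw [h5, h6, huv, map_one, mul_one] at h4
    exact h4.symm
  have haa : a = conj a := by
    have h2 : a = ∑ q, (conj a * conj (u q)) * v q := by
      rw [ha]
      refine Finset.sum_congr rfl fun q _ => ?_
      rw [hz q]
    have h3 : ∑ q, (conj a * conj (u q)) * v q = conj a * ∑ q, conj (u q) * v q := by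
      rw [Finset.mul_sum]
      refine Finset.sum_congr rfl fun q _ => ?_
      ring
    rw [h3, huv, mul_one] at h2
    exact h2
  have hPv : P *ᵥ v = a • u := by
    funext p
    rw [Matrix.mulVec, dotProduct, Pi.smul_apply, smul_eq_mul, ha, Finset.sum_mul]
    refine Finset.sum_congr rfl fun q _ => ?_
    rw [h1]
    ring
  rw [hPv, Matrix.mulVec_smul, Matrix.trace]
  refine Finset.sum_congr rfl fun q _ => ?_
  rw [Matrix.diag_apply, Matrix.mul_apply, Pi.smul_apply, smul_eq_mul, Matrix.mulVec, dotProduct,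
    Finset.mul_sum, Finset.mul_sum]
  refine Finset.sum_congr rfl fun p _ => ?_
  rw [h1, hz q, ← haa]
  ring

/-- the mean over `K` -/
def PK {N : ℕ} {H K : Subgroup (SU N)} (hK : K ≤ H) (νK : Measure K) {n : ℕ} (ρ : Rep H (Fin n)) :
    Matrix (Fin n) (Fin n) ℂ := fun p q => ∫ k, ρ.ρ (ik hK k) p q ∂νK

section meanK

variable {N : ℕ} {H K : Subgroup (SU N)} (hKc : IsClosed (K : Set (SU N))) (hK : K ≤ H)
  (νK : Measure K) [IsProbabilityMeasure νK] [νK.IsMulLeftInvariant] {n : ℕ} (ρ : Rep H (Fin n))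

theorem ik_mul (k k' : K) : ik hK (k * k') = ik hK k * ik hK k' := rfl

theorem ik_inv (k : K) : ik hK k⁻¹ = (ik hK k)⁻¹ := rfl

theorem ik_cont : Continuous (ik hK) := by
  unfold ik
  exact Continuous.subtype_mk continuous_subtype_val _

include hKc in
omit [νK.IsMulLeftInvariant] in
theorem integK {u : K → ℂ} (hu : Continuous u) : Integrable u νK := by
  have hcomp : CompactSpace K := isCompact_iff_compactSpace.1 hKc.isCompact
  exact hu.integrable_of_hasCompactSupport (HasCompactSupport.of_compactSpace u)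

omit [νK.IsMulLeftInvariant] in
theorem cont_en (p q : Fin n) : Continuous fun k : K => ρ.ρ (ik hK k) p q :=
  (KERI.cont_entry ρ p q).comp (ik_cont hK)

include hKc in
theorem PK_fix (k : K) : ρ.ρ (ik hK k) * PK hK νK ρ = PK hK νK ρ := by
  ext p q
  have h1 := integral_mul_left_eq_self (μ := νK) (fun y => ρ.ρ (ik hK y) p q) k
  have h2 : ∀ y, ρ.ρ (ik hK (k * y)) p q = ∑ s, ρ.ρ (ik hK k) p s * ρ.ρ (ik hK y) s q := by
    intro y
    rw [ik_mul, map_mul, Matrix.mul_apply]
  simp only [h2] at h1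
  rw [integral_finsetSum] at h1
  · rw [Matrix.mul_apply]
    unfold PK
    rw [← h1]
    refine Finset.sum_congr rfl fun s _ => ?_
    rw [integral_const_mul]
  · intro s _
    exact (integK hKc νK (cont_en hK ρ s q)).const_mul _

omit [IsProbabilityMeasure νK] [νK.IsMulLeftInvariant] in
theorem PK_herm [νK.IsInvInvariant] : (PK hK νK ρ)ᴴ = PK hK νK ρ := by
  ext p q
  rw [Matrix.conjTranspose_apply]
  unfold PK
  have h1 : star (∫ k, ρ.ρ (ik hK k) q p ∂νK) = ∫ k, conj (ρ.ρ (ik hK k) q p) ∂νK := integral_conj.symm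
  rw [h1, ← integral_inv_eq_self (fun k => ρ.ρ (ik hK k) p q) νK]
  refine integral_congr_ae (Filter.Eventually.of_forall fun k => ?_)
  simp only
  rw [ik_inv, ρ.unit]
  rfl

include hKc in
omit [νK.IsMulLeftInvariant] in
theorem int_tr (g : H) : ∫ k, ρ.ch (g * ik hK k) ∂νK = (ρ.ρ g * PK hK νK ρ).trace := by
  have h1 : ∀ k, ρ.ch (g * ik hK k) = ∑ p, ∑ q, ρ.ρ g p q * ρ.ρ (ik hK k) q p := by
    intro k
    rw [Rep.ch, map_mul, Matrix.trace]
    refine Finset.sum_congr rfl fun p _ => ?_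
    rw [Matrix.diag_apply, Matrix.mul_apply]
  have hi : ∀ p q, Integrable (fun k => ρ.ρ g p q * ρ.ρ (ik hK k) q p) νK := fun p q =>
    (integK hKc νK (cont_en hK ρ q p)).const_mul _
  simp only [h1]
  rw [integral_finsetSum _ fun p _ => integrable_finsetSum _ fun q _ => hi p q, Matrix.trace]
  refine Finset.sum_congr rfl fun p _ => ?_
  rw [integral_finsetSum _ fun q _ => hi p q, Matrix.diag_apply, Matrix.mul_apply]
  refine Finset.sum_congr rfl fun q _ => ?_
  rw [integral_const_mul]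
  rfl

include hKc in
omit [νK.IsMulLeftInvariant] in
theorem int_sp (u v : Fin n → ℂ) (g : H) :
    ∫ k, (∑ p, conj (u p) * (ρ.ρ (g * ik hK k) *ᵥ v) p) ∂νK =
      ∑ p, conj (u p) * (ρ.ρ g *ᵥ (PK hK νK ρ *ᵥ v)) p := by
  have h1 : ∀ k, (∑ p, conj (u p) * (ρ.ρ (g * ik hK k) *ᵥ v) p) =
      ∑ p, ∑ s, ∑ q, (conj (u p) * ρ.ρ g p s * v q) * ρ.ρ (ik hK k) s q := by
    intro k
    refine Finset.sum_congr rfl fun p _ => ?_
    rw [map_mul, ← Matrix.mulVec_mulVec, Matrix.mulVec, dotProduct, Finset.mul_sum]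
    refine Finset.sum_congr rfl fun s _ => ?_
    rw [Matrix.mulVec, dotProduct, Finset.mul_sum, Finset.mul_sum]
    refine Finset.sum_congr rfl fun q _ => ?_
    ring
  have hi : ∀ p s q, Integrable (fun k => (conj (u p) * ρ.ρ g p s * v q) * ρ.ρ (ik hK k) s q) νK := fun p s q =>
    (integK hKc νK (cont_en hK ρ s q)).const_mul _
  simp only [h1]
  rw [integral_finsetSum _ fun p _ => integrable_finsetSum _ fun s _ => integrable_finsetSum _ fun q _ => hi p s q]
  refine Finset.sum_congr rfl fun p _ => ?_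
  rw [integral_finsetSum _ fun s _ => integrable_finsetSum _ fun q _ => hi p s q, Matrix.mulVec, dotProduct,
    Finset.mul_sum]
  refine Finset.sum_congr rfl fun s _ => ?_
  rw [integral_finsetSum _ fun q _ => hi p s q, Matrix.mulVec, dotProduct, Finset.mul_sum, Finset.mul_sum]
  refine Finset.sum_congr rfl fun q _ => ?_
  rw [integral_const_mul]
  unfold PK
  ring

end meanK

/-- a piece of `f` which is not zero -/
theorem piece {N : ℕ} {H K : Subgroup (SU N)} {σ : H →* H} {l : ℕ} {Φ : RT l} {B : Matrix (Fin l) (Fin l) ℤ}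
    {Hc : Fin l → Matrix (Fin N) (Fin N) ℂ} {E : (Fin l → ℤ) × (Fin l → ℤ) → Matrix (Fin N) (Fin N) ℂ}
    {c k : ℝ} {D : ℕ} (hCA : S_CALH) (hGR : S_GRH) (hWF : S_WFAC) (hTA : S_TAUF)
    (hPF : S_PFFX) (hDR : S_DREP) (hHV : S_HWVX)
    (hcl : IsClosed (H : Set (SU N))) (hL : LRD H Φ B Hc E) (hKC : KC Φ Hc E c k)
    (X : Fin D → Matrix (Fin N) (Fin N) ℂ) (hF : FrameH H c X)
    (μ : Measure H) [IsProbabilityMeasure μ] [μ.IsMulLeftInvariant]
    (χ : IX Hc → H → ℂ) (hχ : CHI Φ Hc c k D χ) (ν : Fin l → ℤ) (f : H → ℂ)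
    (hf2 : C2H f) (hf : SHW K σ Φ Hc E ν f) (i : IX Hc) (hne : Pr μ (KK χ) {i} f ≠ 0) :
    wG i.1 = ν + 1 ∧ ∃ (n : ℕ) (ρ : Rep H (Fin n)) (u v : Fin n → ℂ), ρ.Irr ∧ PRep ρ ∧ (∀ g, ρ.ch g = χ i g) ∧
      HWV Φ Hc E ρ ν v ∧ v ≠ 0 ∧ (∀ k : H, k.1 ∈ K → ρ.ρ k *ᵥ u = u) ∧
      ∀ g, Pr μ (KK χ) {i} f g = ∑ p, conj (u p) * (ρ.ρ g *ᵥ v) p := by
  have hcomp : CompactSpace H := isCompact_iff_compactSpace.1 hcl.isCompact
  have hsec : SecondCountableTopology H :=
    inferInstanceAs (SecondCountableTopology ((H : Set (SU N)) : Type))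
  obtain ⟨n, ρ, hirr, hP, hW, hch⟩ := hχ i
  have hTAF := hTA N H l Φ B Hc E hcl hL
  have hfc : Continuous f := hf2.1.cont
  obtain ⟨v, hv1, hv2, hv3⟩ := hHV N H l Φ B Hc E c k D X hcl hL hKC hF n ρ hirr hP _ hW
  have hder : ∀ Y ∈ lie H, ∀ p q, cf μ ρ (dH Y f) p q = ∑ s, dr ρ Y q s * cf μ ρ f p s :=
    fun Y hY p q => cf_der hcl hCA hGR hPF hDR μ ρ hP hf2 Y hY p q
  -- the rows are highest weight vectors
  have hrow : ∀ p, HWV Φ Hc E ρ ν (fun q => cf μ ρ f p q) := by
    intro p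
    constructor
    · intro x
      funext q
      have h1 := hder _ (hTAF.hmem x) p q
      have h2 : dH (hx Hc x) f = fun g => (Complex.I * ((∑ j, (ν j : ℝ) * x j : ℝ) : ℂ)) * f g := by
        funext g
        exact hf.wt x g
      rw [Matrix.mulVec, dotProduct, ← h1, h2, Pi.smul_apply, smul_eq_mul]
      unfold cf
      rw [← integral_const_mul]
      refine integral_congr_ae (Filter.Eventually.of_forall fun g => ?_)
      simp only
      ring
    · intro r hr
      funext q
      have hr' := ((hWF l Φ B hL.ird).ppos r hr).1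
      have h1 := hder _ (hL.emem r hr').1 p q
      have h2 := hder _ (hL.emem r hr').2 p q
      have h3 : dH (E r - (E r)ᴴ) f = fun g => Complex.I * dH (Complex.I • (E r + (E r)ᴴ)) f g := by
        funext g
        exact hf.hw r hr g
      rw [Matrix.mulVec, dotProduct, ← h1, Pi.smul_apply, smul_eq_mul, Matrix.mulVec, dotProduct, ← h2, h3]
      unfold cf
      rw [← integral_const_mul]
      refine integral_congr_ae (Filter.Eventually.of_forall fun g => ?_)
      simp only
      ring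
  -- some row is not zero
  have hn0 : ∃ p, (fun q => cf μ ρ f p q) ≠ 0 := by
    by_contra hcon
    push Not at hcon
    apply hne
    funext g
    rw [Pr_eq μ hch hfc g]
    have h1 : ∀ p q, cf μ ρ f p q = 0 := fun p q => congrFun (hcon p) q
    simp [h1]
  obtain ⟨p₀, hp₀⟩ := hn0
  obtain ⟨hν, -⟩ := hv3 ν _ (hrow p₀) hp₀
  have hex : ∀ p, ∃ a : ℂ, ∀ q, cf μ ρ f p q = a * v q := by
    intro p
    by_cases h0 : (fun q => cf μ ρ f p q) = 0
    · exact ⟨0, fun q => by rw [zero_mul]; exact congrFun h0 q⟩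
    · obtain ⟨-, a, ha⟩ := hv3 ν _ (hrow p) h0
      exact ⟨a, fun q => congrFun ha q⟩
  choose y hy using hex
  have hv0 : v ≠ 0 := by
    intro h0
    rw [h0, dotProduct_zero] at hv1
    exact zero_ne_one hv1
  refine ⟨by rw [hν]; abel, n, ρ, fun p => conj ((n : ℂ) * y p), v, hirr, hP, hch, ?_, hv0, ?_, ?_⟩
  · rw [hν]; exact hv2
  · intro k hk
    funext p
    obtain ⟨q, hq⟩ : ∃ q, v q ≠ 0 := by
      by_contra hcon
      push Not at hcon
      exact hv0 (funext hcon)
    have h1 := cf_left μ ρ hfc k (fun g => hf.left k g hk) p q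
    have h2 : ∑ s, conj (ρ.ρ k p s) * cf μ ρ f s q = (∑ s, conj (ρ.ρ k p s) * y s) * v q := by
      rw [Finset.sum_mul]
      refine Finset.sum_congr rfl fun s _ => ?_
      rw [hy]
      ring
    rw [hy, h2] at h1
    have h3 := mul_right_cancel₀ hq h1
    rw [Matrix.mulVec, dotProduct]
    have h4 : conj (y p) = ∑ s, ρ.ρ k p s * conj (y s) := by
      rw [h3, map_sum]
      refine Finset.sum_congr rfl fun s _ => ?_
      rw [map_mul, Complex.conj_conj]
    rw [map_mul, h4, Finset.mul_sum]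
    refine Finset.sum_congr rfl fun s _ => ?_
    rw [map_mul]
    ring
  · intro g
    rw [Pr_eq μ hch hfc g, Finset.mul_sum]
    refine Finset.sum_congr rfl fun p _ => ?_
    rw [Complex.conj_conj, Matrix.mulVec, dotProduct, Finset.mul_sum, Finset.mul_sum]
    refine Finset.sum_congr rfl fun q _ => ?_
    rw [hy]
    ring

end SPHU

open SPHU in
theorem t_SPHU : M_SPHU := by
  intro hHA hSC hGR hKB hKER hCA hLI hWF hRV hTA hPF hDR hEW hGX hPG hHE hHV hKS N H K σ τ A l Φ B Hc E x₀ θ r s ε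
    hSD c k D X hKC hF νK _ _ hK χ hχ ν f hf
  classical
  have hcl := hSD.closed
  have hcomp : CompactSpace H := isCompact_iff_compactSpace.1 hcl.isCompact
  have hsec : SecondCountableTopology H :=
    inferInstanceAs (SecondCountableTopology ((H : Set (SU N)) : Type))
  have hcompK : CompactSpace K := isCompact_iff_compactSpace.1 hSD.sym.closed.isCompact
  have hsecK : SecondCountableTopology K :=
    inferInstanceAs (SecondCountableTopology ((K : Set (SU N)) : Type))
  let μ : Measure H := Measure.haarMeasure ⊤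
  have hμ : IsProbabilityMeasure μ := ⟨by
    have := Measure.haarMeasure_self (K₀ := (⊤ : TopologicalSpace.PositiveCompacts H))
    simpa using this⟩
  have hL := hSD.sr.lrd
  have hf2 : C2H f := (hPG N H K σ τ hcl hSD.simple hSD.sym).1.c2 f hf.mem
  obtain ⟨-, hGXall⟩ := hGX N H l Φ B Hc E c k D X hSD.l1 hcl hSD.conn hL hKC hF
  obtain ⟨Z, hG⟩ := hGXall χ hχ
  obtain ⟨S, hS1, hS2⟩ := hEW N H c D l (rd Φ) (pos Φ) (IX Hc) (fun i => i.1) χ Z k (hRV l Φ B hSD.l1 hL.ird) hG
    μ X hF _ f (hHE N H K σ τ l Φ B Hc E c k D X hcl hSD.simple hSD.sym hL hKC hF ν f hf)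
  have hsum : ∀ g, f g = ∑ a ∈ S, Pr μ (KK χ) {a} f g := by
    intro g
    conv_lhs => rw [← hS2]
    unfold Pr
    simp only [Finset.sum_singleton]
  have hpiece := fun i (hne : Pr μ (KK χ) {i} f ≠ 0) =>
    piece hCA hGR hWF hTA hPF hDR hHV hcl hL hKC X hF μ χ hχ ν f hf2 hf i hne
  have hex : ∃ i ∈ S, Pr μ (KK χ) {i} f ≠ 0 := by
    by_contra hcon
    push Not at hcon
    have h1 := hsum 1
    rw [hf.one, Finset.sum_eq_zero (fun i hi => by rw [hcon i hi]; rfl)] at h1
    exact one_ne_zero h1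
  obtain ⟨i, hi, hne⟩ := hex
  obtain ⟨hw, n, ρ, u, v, hirr, hP, hch, hHW, hv0, hu, hFg⟩ := hpiece i hne
  have hfF : ∀ g, f g = ∑ p, conj (u p) * (ρ.ρ g *ᵥ v) p := by
    intro g
    rw [← hFg g, hsum g]
    refine Finset.sum_eq_single i (fun j hj hji => ?_) (fun h => absurd hi h)
    by_contra hne2
    have hne3 : Pr μ (KK χ) {j} f ≠ 0 := fun h => hne2 (by rw [h]; rfl)
    obtain ⟨hw2, -⟩ := hpiece j hne3
    apply hji
    apply Subtype.ext
    funext l
    have h5 := congrFun (hw2.trans hw.symm) l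
    unfold wG at h5
    simpa using h5
  have huv : ∑ p, conj (u p) * v p = 1 := by
    have h1 := hfF 1
    rw [hf.one, map_one] at h1
    simp only [Matrix.one_mulVec] at h1
    exact h1.symm
  -- the fixed vectors
  have hfixv : ∀ w : Fin n → ℂ, (∀ k : H, k.1 ∈ K → ρ.ρ k *ᵥ w = w) → ∀ p, w p = (∑ s, conj (v s) * w s) * u p := by
    intro w hw
    set b : ℂ := ∑ s, conj (v s) * w s with hb
    have h1 : w - b • u = 0 := by
      refine hKS N H K σ τ A l Φ B Hc E x₀ θ r s ε hSD n ρ hirr hP ν v hHW hv0 _ ?_ ?_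
      · intro k hk
        rw [Matrix.mulVec_sub, Matrix.mulVec_smul, hw k hk, hu k hk]
      · rw [dotProduct]
        have h2 : ∀ s, star (w - b • u) s * v s = conj (conj (v s) * w s) - conj b * (conj (u s) * v s) := by
          intro s
          rw [Pi.star_apply, Pi.sub_apply, Pi.smul_apply, smul_eq_mul, star_sub, star_mul', map_mul, Complex.conj_conj]
          change (conj (w s) - conj b * conj (u s)) * v s = _
          ring
        simp only [h2]
        rw [Finset.sum_sub_distrib, ← Finset.mul_sum, huv, ← map_sum, ← hb]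
        ring
    intro p
    have h2 := congrFun h1 p
    rw [Pi.sub_apply, Pi.smul_apply, smul_eq_mul, Pi.zero_apply, sub_eq_zero] at h2
    exact h2
  obtain ⟨-, hinv, -⟩ := hHA K νK
  refine ⟨i, hw, fun g => ?_⟩
  have h1 : ∀ k, χ i (g * ik hK k) = ρ.ch (g * ik hK k) := fun k => (hch _).symm
  have h2 : ∀ k, f (g * ik hK k) = ∑ p, conj (u p) * (ρ.ρ (g * ik hK k) *ᵥ v) p := fun k => hfF _
  simp only [h1, h2]
  rw [int_tr hSD.sym.closed hK νK ρ g, int_sp hSD.sym.closed hK νK ρ u v g]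
  refine lin (PK hK νK ρ) (ρ.ρ g) u v (fun q => ∑ s, conj (v s) * PK hK νK ρ s q) ?_ (PK_herm hK νK ρ) huv
  intro p q
  refine hfixv (fun s => PK hK νK ρ s q) ?_ p
  intro k hk
  funext p
  have h3 := congrFun (congrFun (PK_fix hSD.sym.closed hK νK ρ ⟨k.1, hk⟩) p) q
  have h4 : ik hK ⟨k.1, hk⟩ = k := rfl
  rw [h4, Matrix.mul_apply] at h3
  exact h3

end

end SYM
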