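import Pool.Agent.SYM.StP

/-!
# Module SRDX: root data adapted to the maximal flat
-/

namespace SYM

open STZ LGR MeasureTheory Matrix Filter

open scoped ComplexConjugate Matrix Real Topology

noncomputable section

namespace SRDX

lemma mul_star {N : ℕ} (z : SU N) : z.1 * z.1ᴴ = 1 := congrArg Subtype.val (mul_inv_cancel z)

lemma star_mul' {N : ℕ} (z : SU N) : z.1ᴴ * z.1 = 1 := congrArg Subtype.val (inv_mul_cancel z)

/-- a maximal abelian subspace which contains `A` -/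
lemma exists_maxAb {N : ℕ} (H : Subgroup (SU N)) (F : LIF H) (A : Submodule ℝ (Matrix (Fin N) (Fin N) ℂ))
    (hA1 : ∀ X ∈ A, X ∈ lie H) (hA2 : ∀ X ∈ A, ∀ Y ∈ A, X * Y = Y * X) :
    ∃ T : Submodule ℝ (Matrix (Fin N) (Fin N) ℂ), MaxAb H T ∧ A ≤ T := by
  let S : Set (Submodule ℝ (Matrix (Fin N) (Fin N) ℂ)) :=
    {V | (∀ X ∈ V, X ∈ lie H) ∧ (∀ X ∈ V, ∀ Y ∈ V, X * Y = Y * X) ∧ A ≤ V}
  have hne : S.Nonempty := ⟨A, hA1, hA2, le_refl _⟩
  have hwf : WellFounded ((· > ·) : Submodule ℝ (Matrix (Fin N) (Fin N) ℂ) → _ → Prop) :=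
    wellFounded_gt
  obtain ⟨T, hT, hmax⟩ := hwf.has_min S hne
  refine ⟨T, ⟨hT.1, hT.2.1, ?_⟩, hT.2.2⟩
  intro X hX hXT
  by_contra hcon
  have hlt : T < T ⊔ Submodule.span ℝ {X} := by
    refine lt_of_le_of_ne le_sup_left ?_
    intro he
    apply hcon
    rw [he]
    exact Submodule.mem_sup_right (Submodule.mem_span_singleton_self X)
  refine hmax (T ⊔ Submodule.span ℝ {X}) ⟨?_, ?_, hT.2.2.trans le_sup_left⟩ hlt
  · intro Z hZ
    obtain ⟨A', hA', B, hB, rfl⟩ := Submodule.mem_sup.1 hZ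
    obtain ⟨s, rfl⟩ := Submodule.mem_span_singleton.1 hB
    refine F.add _ (hT.1 A' hA') _ ?_
    have h := F.smul s X hX
    rwa [Complex.coe_smul] at h
  · intro Z hZ W hW
    obtain ⟨A₁, hA₁, B, hB, rfl⟩ := Submodule.mem_sup.1 hZ
    obtain ⟨s, rfl⟩ := Submodule.mem_span_singleton.1 hB
    obtain ⟨A₂, hA₂, B₂, hB₂, rfl⟩ := Submodule.mem_sup.1 hW
    obtain ⟨t, rfl⟩ := Submodule.mem_span_singleton.1 hB₂
    have c1 : Commute A₁ A₂ := hT.2.1 A₁ hA₁ A₂ hA₂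
    have c2 : Commute X A₂ := hXT A₂ hA₂
    have c3 : Commute A₁ X := (hXT A₁ hA₁).symm
    have c4 : Commute X X := Commute.refl X
    exact ((c1.add_right (c3.smul_right t)).add_left
      (((c2.smul_left s)).add_right ((c4.smul_left s).smul_right t))).eq

variable {N r : ℕ}

/-- conjugation -/
lemma cj (n : SU N) (X Y : Matrix (Fin N) (Fin N) ℂ) :
    (n.1ᴴ * X * n.1) * (n.1ᴴ * Y * n.1) = n.1ᴴ * (X * Y) * n.1 := by
  have h := mul_star n
  calc (n.1ᴴ * X * n.1) * (n.1ᴴ * Y * n.1) = n.1ᴴ * X * (n.1 * n.1ᴴ) * Y * n.1 := by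
        simp only [Matrix.mul_assoc]
    _ = n.1ᴴ * (X * Y) * n.1 := by rw [h]; simp only [Matrix.mul_assoc, Matrix.mul_one]

lemma cjs (n : SU N) (c : ℂ) (X : Matrix (Fin N) (Fin N) ℂ) :
    n.1ᴴ * (c • X) * n.1 = c • (n.1ᴴ * X * n.1) := by
  rw [Matrix.mul_smul, Matrix.smul_mul]

lemma cja (n : SU N) (X Y : Matrix (Fin N) (Fin N) ℂ) :
    n.1ᴴ * (X + Y) * n.1 = n.1ᴴ * X * n.1 + n.1ᴴ * Y * n.1 := by
  rw [Matrix.mul_add, Matrix.add_mul]

lemma cjb (n : SU N) (X Y : Matrix (Fin N) (Fin N) ℂ) :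
    n.1ᴴ * (X - Y) * n.1 = n.1ᴴ * X * n.1 - n.1ᴴ * Y * n.1 := by
  rw [Matrix.mul_sub, Matrix.sub_mul]

lemma cjh (n : SU N) (X : Matrix (Fin N) (Fin N) ℂ) :
    (n.1ᴴ * X * n.1)ᴴ = n.1ᴴ * Xᴴ * n.1 := by
  rw [Matrix.conjTranspose_mul, Matrix.conjTranspose_mul, Matrix.conjTranspose_conjTranspose, Matrix.mul_assoc]

lemma cjsum {ι : Type*} (n : SU N) (s : Finset ι) (f : ι → Matrix (Fin N) (Fin N) ℂ) :
    n.1ᴴ * (∑ i ∈ s, f i) * n.1 = ∑ i ∈ s, n.1ᴴ * f i * n.1 := by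
  rw [Finset.mul_sum, Finset.sum_mul]

lemma cjhx (n : SU N) (Hc : Fin r → Matrix (Fin N) (Fin N) ℂ) (x : Fin r → ℝ) :
    hx (fun j => n.1ᴴ * Hc j * n.1) x = n.1ᴴ * hx Hc x * n.1 := by
  unfold hx
  rw [cjsum]
  exact Finset.sum_congr rfl fun j _ => (cjs n _ _).symm

/-- the root data can be conjugated -/
lemma lrd_conj {H : Subgroup (SU N)} (F : LIF H) {Φ : RT r} {B : Matrix (Fin r) (Fin r) ℤ}
    {Hc : Fin r → Matrix (Fin N) (Fin N) ℂ} {E : (Fin r → ℤ) × (Fin r → ℤ) → Matrix (Fin N) (Fin N) ℂ}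
    (L : LRD H Φ B Hc E) (n : SU N) (hn : n ∈ H) :
    LRD H Φ B (fun j => n.1ᴴ * Hc j * n.1) (fun p => n.1ᴴ * E p * n.1) := by
  have hni : n⁻¹ ∈ H := H.inv_mem hn
  have adi : ∀ X ∈ lie H, n.1ᴴ * X * n.1 ∈ lie H := by
    intro X hX
    have h := F.ad n⁻¹ hni X hX
    have e1 : (n⁻¹ : SU N).1 = n.1ᴴ := rfl
    rw [e1, Matrix.conjTranspose_conjTranspose] at h
    exact h
  refine ⟨L.ird, ?_, ?_, ?_, ?_, ?_, ?_, ?_, ?_, ?_, ?_⟩
  · intro j
    rw [cjh, L.herm j]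
  · intro j
    have h := adi _ (L.mem j)
    rwa [cjs] at h
  · intro i j
    rw [cj, cj, L.comm i j]
  · intro j
    have hu : n.1 * n.1ᴴ = 1 := mul_star n
    have hi : (n.1ᴴ)⁻¹ = n.1 := Matrix.inv_eq_left_inv hu
    have hunit : IsUnit n.1ᴴ := (Matrix.isUnit_iff_isUnit_det _).2 (Matrix.isUnit_det_of_left_inverse hu)
    have h1 : (2 * π * Complex.I : ℂ) • (n.1ᴴ * Hc j * n.1) = n.1ᴴ * ((2 * π * Complex.I : ℂ) • Hc j) * (n.1ᴴ)⁻¹ := by
      rw [hi, cjs]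
    rw [h1, Matrix.exp_conj _ _ hunit, L.per j, hi, Matrix.mul_one, star_mul']
  · rw [Fintype.linearIndependent_iff]
    intro g hg
    have h0 : ∑ j, g j • Hc j = 0 := by
      have e1 : ∑ j, g j • (n.1ᴴ * Hc j * n.1) = n.1ᴴ * (∑ j, g j • Hc j) * n.1 := by
        rw [cjsum]
        refine Finset.sum_congr rfl fun j _ => ?_
        rw [Matrix.mul_smul, Matrix.smul_mul]
      rw [e1] at hg
      calc ∑ j, g j • Hc j = (n.1 * n.1ᴴ) * (∑ j, g j • Hc j) * (n.1 * n.1ᴴ) := by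
            rw [mul_star, Matrix.one_mul, Matrix.mul_one]
        _ = n.1 * (n.1ᴴ * (∑ j, g j • Hc j) * n.1) * n.1ᴴ := by simp only [Matrix.mul_assoc]
        _ = 0 := by rw [hg, Matrix.mul_zero, Matrix.zero_mul]
    exact Fintype.linearIndependent_iff.1 L.lin g h0
  · intro p hp
    show n.1ᴴ * E (-p.1, -p.2) * n.1 = (n.1ᴴ * E p * n.1)ᴴ
    rw [cjh, L.star p hp]
  · intro p hp j
    show (n.1ᴴ * Hc j * n.1) * (n.1ᴴ * E p * n.1) - (n.1ᴴ * E p * n.1) * (n.1ᴴ * Hc j * n.1) = _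
    rw [cj, cj, ← cjb, L.ead p hp j, cjs]
  · intro p hp
    show (n.1ᴴ * E p * n.1) * (n.1ᴴ * E p * n.1)ᴴ - (n.1ᴴ * E p * n.1)ᴴ * (n.1ᴴ * E p * n.1) = _
    rw [cjh, cj, cj, ← cjb, L.cor p hp, cjsum]
    exact Finset.sum_congr rfl fun j _ => cjs n _ _
  · intro p hp
    obtain ⟨h1, h2⟩ := L.emem p hp
    refine ⟨?_, ?_⟩
    · show (n.1ᴴ * E p * n.1) - (n.1ᴴ * E p * n.1)ᴴ ∈ lie H
      rw [cjh, ← cjb]
      exact adi _ h1
    · show Complex.I • ((n.1ᴴ * E p * n.1) + (n.1ᴴ * E p * n.1)ᴴ) ∈ lie H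
      rw [cjh, ← cja, ← cjs]
      exact adi _ h2
  · intro X hX
    obtain ⟨x, z, hz⟩ := L.span _ (F.ad n hn X hX)
    refine ⟨x, z, ?_⟩
    have h1 : X = n.1ᴴ * (n.1 * X * n.1ᴴ) * n.1 := by
      calc X = (n.1ᴴ * n.1) * X * (n.1ᴴ * n.1) := by rw [star_mul', Matrix.one_mul, Matrix.mul_one]
        _ = _ := by simp only [Matrix.mul_assoc]
    rw [h1, hz, cja, cjsum, cjsum]
    congr 1
    · exact Finset.sum_congr rfl fun j _ => cjs n _ _
    · refine Finset.sum_congr rfl fun p _ => ?_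
      rw [cjb, cjs, cjs, cjh]

/-- a matrix which is the multiple of a root vector -/
lemma split (E : Matrix (Fin N) (Fin N) ℂ) :
    E = (1 / 2 : ℂ) • ((E - Eᴴ) - Complex.I • (Complex.I • (E + Eᴴ))) := by
  rw [smul_smul, Complex.I_mul_I, neg_one_smul, sub_neg_eq_add]
  have : (E - Eᴴ) + (E + Eᴴ) = (2 : ℂ) • E := by rw [two_smul]; abel
  rw [this, smul_smul]
  norm_num

lemma dz_sum (m : Fin r → ℤ) (B : Matrix (Fin r) (Fin r) ℤ) (y : Fin r → ℝ) :
    dz (∑ i, m i • B i) y = ∑ i, (m i : ℝ) * dz (B i) y := by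
  unfold dz
  simp_rw [Finset.mul_sum]
  rw [Finset.sum_comm]
  refine Finset.sum_congr rfl fun j _ => ?_
  rw [Finset.sum_apply, Int.cast_sum, Finset.sum_mul]
  refine Finset.sum_congr rfl fun i _ => ?_
  rw [Pi.smul_apply, smul_eq_mul, Int.cast_mul]
  ring

/-- the Weyl chamber -/
lemma chamber {Φ : RT r} {B : Matrix (Fin r) (Fin r) ℤ} (I : IRD Φ B) (W : WFF Φ B) (x₁ : Fin r → ℝ) :
    ∃ w ∈ WF Φ, ∀ p ∈ pos Φ, 0 ≤ dz p.1 (fun j => ∑ i, (w i j : ℝ) * x₁ i) := by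
  obtain ⟨w, hw, hmax⟩ := Finset.exists_max_image (WF Φ)
    (fun w => ∑ j, ∑ i, (w i j : ℝ) * x₁ i) ⟨1, W.one⟩
  refine ⟨w, hw, ?_⟩
  have hs : ∀ i, 0 ≤ dz (B i) (fun j => ∑ i, (w i j : ℝ) * x₁ i) := by
    intro k
    set y : Fin r → ℝ := fun j => ∑ i, (w i j : ℝ) * x₁ i with hy
    have hmem : w * rf (B k, Pi.single k 1) ∈ WF Φ := by
      refine W.mul _ hw _ ?_
      rw [W.mem]
      exact Submonoid.subset_closure ⟨_, I.base k, rfl⟩
    have h := hmax _ hmem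
    have e1 : ∀ j, ∑ i, ((w * rf (B k, Pi.single k 1)) i j : ℝ) * x₁ i = y j - dz (B k) y * (if j = k then 1 else 0) := by
      intro j
      have e2 : ∀ i, (((w * rf (B k, Pi.single k 1)) i j : ℤ) : ℝ) =
          ∑ m, (w i m : ℝ) * ((if m = j then 1 else 0) - (B k m : ℝ) * (if j = k then 1 else 0)) := by
        intro i
        rw [Matrix.mul_apply, Int.cast_sum]
        refine Finset.sum_congr rfl fun m _ => ?_
        rw [Int.cast_mul]
        congr 1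
        show (((if m = j then 1 else 0) - B k m * (Pi.single k 1 : Fin r → ℤ) j : ℤ) : ℝ) = _
        rw [Pi.single_apply]
        push_cast
        rfl
      simp_rw [e2, Finset.sum_mul]
      rw [Finset.sum_comm]
      have e3 : ∀ m, ∑ i, (w i m : ℝ) * ((if m = j then 1 else 0) - (B k m : ℝ) * (if j = k then 1 else 0)) * x₁ i =
          ((if m = j then 1 else 0) - (B k m : ℝ) * (if j = k then 1 else 0)) * y m := by
        intro m
        rw [hy]
        simp only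
        rw [Finset.mul_sum]
        refine Finset.sum_congr rfl fun i _ => ?_
        ring
      rw [Finset.sum_congr rfl fun m _ => e3 m]
      simp_rw [sub_mul, ite_mul, one_mul, zero_mul]
      rw [Finset.sum_sub_distrib, Finset.sum_ite_eq' Finset.univ j y, if_pos (Finset.mem_univ j)]
      congr 1
      rw [dz, Finset.sum_mul]
      refine Finset.sum_congr rfl fun m _ => ?_
      ring
    have e4 : ∑ j, ∑ i, ((w * rf (B k, Pi.single k 1)) i j : ℝ) * x₁ i = ∑ j, y j - dz (B k) y := by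
      rw [Finset.sum_congr rfl fun j _ => e1 j, Finset.sum_sub_distrib]
      congr 1
      simp_rw [mul_ite, mul_one, mul_zero]
      rw [Finset.sum_ite_eq' Finset.univ k (fun _ => dz (B k) y), if_pos (Finset.mem_univ k)]
    have h5 : ∑ j, ∑ i, (w i j : ℝ) * x₁ i = ∑ j, y j := rfl
    have h6 : ∑ j, y j - dz (B k) y ≤ ∑ j, y j := by
      rw [← e4]
      exact h
    linarith
  intro p hp
  obtain ⟨_, _, _, m, hm, hm0⟩ := W.ppos p hp
  rw [hm, dz_sum]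
  refine Finset.sum_nonneg fun i _ => mul_nonneg ?_ (hs i)
  exact_mod_cast hm0 i

end SRDX

open SRDX in
theorem t_SRDX : M_SRDX := by
  intro hLIEB hWFAC _ hTAUF hWREP hLRDX hNILP N H K σ τ A hcl hco hsi hsy hma
  have F : LIF H := hLIEB N H hcl
  obtain ⟨T, hT, hAT⟩ := exists_maxAb H F A hma.sub hma.comm
  obtain ⟨Φ, B, Hc, E, L, hL⟩ := hLRDX N H T (Module.finrank ℝ T) hcl hsi hT rfl
  obtain ⟨n0, e, δ, NS⟩ := hNILP N H K σ τ A hcl hsi hsy hma
  have W : WFF Φ B := hWFAC _ Φ B L.ird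
  obtain ⟨x₁, hx₁⟩ := (hL _).1 (hAT NS.dA)
  obtain ⟨w, hw, hch⟩ := chamber L.ird W x₁
  obtain ⟨n, hn, hnx, _⟩ := hWREP N H _ Φ B Hc E hcl L w hw
  have L' := lrd_conj F L n hn
  have TA := hTAUF N H _ Φ B _ _ hcl L'
  have key : ∀ x, hx (fun j => n.1ᴴ * Hc j * n.1) (fun j => ∑ i, (w i j : ℝ) * x i) = hx Hc x := by
    intro x
    rw [cjhx, ← hnx x]
    calc n.1ᴴ * (n.1 * hx Hc x * n.1ᴴ) * n.1 = (n.1ᴴ * n.1) * hx Hc x * (n.1ᴴ * n.1) := by
          simp only [Matrix.mul_assoc]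
      _ = hx Hc x := by rw [star_mul', Matrix.one_mul, Matrix.mul_one]
  refine ⟨_, Φ, B, _, _, (fun j => ∑ i, (w i j : ℝ) * x₁ i), ?_, L', ?_, ?_, hch, ?_⟩
  · by_contra hcon
    have h0 : Module.finrank ℝ T = 0 := by omega
    obtain ⟨⟨X, hX, Y, hY, hXY⟩, _⟩ := hsi
    have hz : ∀ X ∈ lie H, X = 0 := by
      intro X hX
      obtain ⟨x, z, hz⟩ := L.span X hX
      have hp : pos Φ = ∅ := by
        rw [Finset.eq_empty_iff_forall_notMem]
        intro p hp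
        refine (W.ppos p hp).2.2.1 ?_
        funext i
        exact absurd i.2 (by omega)
      rw [hz, hp, Finset.sum_empty, add_zero]
      refine Finset.sum_eq_zero fun j _ => ?_
      exact absurd j.2 (by omega)
    exact hXY (by rw [hz X hX, hz Y hY])
  · intro X hX
    obtain ⟨x, rfl⟩ := (hL X).1 (hAT hX)
    exact ⟨_, (key x).symm⟩
  · rw [key, ← hx₁]
    exact NS.dA
  · intro p hp hp0 x hxA
    have hδ : hx (fun j => n.1ᴴ * Hc j * n.1) (fun j => ∑ i, (w i j : ℝ) * x₁ i) = (-Complex.I) • δ := by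
      rw [key, hx₁]
    have h1 := TA.ade p hp (fun j => ∑ i, (w i j : ℝ) * x₁ i)
    have h2 : (∑ j, (p.1 j : ℝ) * (fun j => ∑ i, (w i j : ℝ) * x₁ i) j : ℝ) = 0 := hp0
    rw [h2, hδ] at h1
    set P : Matrix (Fin N) (Fin N) ℂ := n.1ᴴ * E p * n.1 with hP
    have hc1 : P * δ = δ * P := by
      have h3 : (-Complex.I) • (δ * P - P * δ) = 0 := by
        rw [smul_sub, ← Matrix.smul_mul, ← Matrix.mul_smul]
        rw [h1]
        simp
      rcases smul_eq_zero.1 h3 with h4 | h4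
      · simp at h4
      · exact (sub_eq_zero.1 h4).symm
    have hδh : δᴴ = δ := by
      rw [NS.nil.del, Matrix.conjTranspose_sum]
      refine Finset.sum_congr rfl fun k _ => ?_
      rw [Matrix.conjTranspose_sub, Matrix.conjTranspose_mul, Matrix.conjTranspose_mul,
        Matrix.conjTranspose_conjTranspose]
    have hc2 : Pᴴ * δ = δ * Pᴴ := by
      have h3 : (P * δ)ᴴ = (δ * P)ᴴ := by rw [hc1]
      have h4 : (P * δ)ᴴ = δ * Pᴴ := by
        have := Matrix.conjTranspose_mul P δ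
        rwa [hδh] at this
      have h5 : (δ * P)ᴴ = Pᴴ * δ := by
        have := Matrix.conjTranspose_mul δ P
        rwa [hδh] at this
      rw [← h5, ← h3, h4]
    obtain ⟨m1, m2⟩ := L'.emem p hp
    have m1' : P - Pᴴ ∈ lie H := m1
    have m2' : Complex.I • (P + Pᴴ) ∈ lie H := m2
    have k1 := NS.cen _ m1' (by rw [sub_mul, mul_sub, hc1, hc2]) _ hxA
    have k2 := NS.cen _ m2' (by rw [Matrix.smul_mul, Matrix.mul_smul, add_mul, mul_add, hc1, hc2]) _ hxA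
    set Y : Matrix (Fin N) (Fin N) ℂ := hx (fun j => n.1ᴴ * Hc j * n.1) x with hY
    have k3 : P * Y = Y * P := by
      rw [split P, Matrix.smul_mul, Matrix.mul_smul, sub_mul, mul_sub, Matrix.smul_mul Complex.I,
        Matrix.mul_smul Y Complex.I, k1, k2]
    have h5 := TA.ade p hp x
    have h6 : Y * P - P * Y = (((dz p.1 x : ℝ) : ℂ) * Complex.I) • P := h5
    rw [k3, sub_self] at h6
    have hP0 : P ≠ 0 := by
      intro hP0
      have h7 := (TA.pos p hp).1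
      have h8 : 0 < (P * Pᴴ).trace.re := h7
      rw [hP0] at h8
      simp at h8
    rcases smul_eq_zero.1 h6.symm with h9 | h9
    · rcases mul_eq_zero.1 h9 with h10 | h10
      · exact_mod_cast h10
      · exact absurd h10 Complex.I_ne_zero
    · exact absurd h9 hP0

end

end SYM
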