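import Pool.Agent.SYM.StP

/-!
# Module SSAT: the Satake diagram
-/

namespace SYM

open STZ LGR MeasureTheory Matrix Filter

open scoped ComplexConjugate Matrix Real Topology

noncomputable section

namespace SSAT

/-- combinatorics of the matrix `θ`: the involution on the complement of `I₀` -/
theorem exists_perm {l : ℕ} (θ : Matrix (Fin l) (Fin l) ℤ) (Z : Fin l → Prop)
    (hθ : θ * θ = 1) (h0 : ∀ i, Z i → ∀ k, θ k i = if k = i then 1 else 0)
    (hn : ∀ i, ¬ Z i → ∀ k, θ k i ≤ 0) :
    ∃ pm : Fin l → Fin l, ∀ i, ¬ Z i → ¬ Z (pm i) ∧ pm (pm i) = i ∧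
      ∀ k, ¬ Z k → θ k i = if k = pm i then -1 else 0 := by
  classical
  have hprod : ∀ i j, ¬ Z i → ¬ Z j →
      ∑ k ∈ Finset.univ.filter (fun k => ¬ Z k), θ j k * θ k i = if j = i then 1 else 0 := by
    intro i j hi hj
    have h1 := congrFun (congrFun hθ j) i
    rw [Matrix.mul_apply, Matrix.one_apply] at h1
    rw [← h1, Finset.sum_filter]
    refine Finset.sum_congr rfl fun k _ => ?_
    by_cases hk : Z k
    · have : θ j k = 0 := by
        rw [h0 k hk j, if_neg]
        rintro rfl
        exact hj hk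
      rw [this]
      simp
    · rw [if_pos hk]
  have hnn : ∀ i j k, ¬ Z i → ¬ Z k → 0 ≤ θ j k * θ k i := by
    intro i j k hi hk
    exact mul_nonneg_of_nonpos_of_nonpos (hn k hk j) (hn i hi k)
  have key : ∀ i, ¬ Z i → ∃ k, ¬ Z k ∧ θ k i = -1 ∧ θ i k = -1 ∧ ∀ k', ¬ Z k' → k' ≠ k → θ k' i = 0 := by
    intro i hi
    have h1 := hprod i i hi hi
    rw [if_pos rfl] at h1
    have h2 : ∃ k ∈ Finset.univ.filter (fun k => ¬ Z k), 0 < θ i k * θ k i := by
      by_contra hcon
      push Not at hcon
      have := Finset.sum_nonpos hcon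
      omega
    obtain ⟨k, hk, hpos⟩ := h2
    have hkZ : ¬ Z k := (Finset.mem_filter.1 hk).2
    have hle : θ i k * θ k i ≤ 1 := by
      rw [← h1]
      exact Finset.single_le_sum (f := fun k => θ i k * θ k i)
        (fun k' hk' => hnn i i k' hi (Finset.mem_filter.1 hk').2) hk
    have heq : θ i k * θ k i = 1 := by omega
    have ha := hn k hkZ i
    have hb := hn i hi k
    have h3 : θ k i = -1 ∧ θ i k = -1 := by
      rcases Int.mul_eq_one_iff_eq_one_or_neg_one.1 heq with ⟨h4, h5⟩ | ⟨h4, h5⟩
      · omega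
      · exact ⟨h5, h4⟩
    refine ⟨k, hkZ, h3.1, h3.2, ?_⟩
    intro k' hk' hne
    -- (θ²) k' k has the entry θ k' i * θ i k
    have h6 := hprod k k' hkZ hk'
    rw [if_neg hne] at h6
    have h7 := (Finset.sum_eq_zero_iff_of_nonneg
      (fun j hj => hnn k k' j hkZ (Finset.mem_filter.1 hj).2)).1 h6 i
      (Finset.mem_filter.2 ⟨Finset.mem_univ _, hi⟩)
    rw [h3.2] at h7
    omega
  choose! pm hpm using key
  refine ⟨pm, fun i hi => ?_⟩
  obtain ⟨h1, h2, h3, h4⟩ := hpm i hi
  refine ⟨h1, ?_, ?_⟩
  · by_contra hne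
    have := (hpm (pm i) h1).2.2.2 i hi (Ne.symm hne)
    omega
  · intro k hk
    split_ifs with hki
    · rw [hki, h2]
    · exact h4 k hk hki

/-- `hx` as a linear map -/
def hxl {N l : ℕ} (Hc : Fin l → Matrix (Fin N) (Fin N) ℂ) : (Fin l → ℝ) →ₗ[ℝ] Matrix (Fin N) (Fin N) ℂ where
  toFun := hx Hc
  map_add' := by
    intro x y
    unfold hx
    rw [← Finset.sum_add_distrib]
    refine Finset.sum_congr rfl fun j _ => ?_
    rw [Pi.add_apply, ← add_smul]
    congr 1
    push_cast
    ring
  map_smul' := by
    intro c x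
    unfold hx
    rw [Finset.smul_sum]
    refine Finset.sum_congr rfl fun j _ => ?_
    rw [Pi.smul_apply, smul_eq_mul, RingHom.id_apply]
    have : c • (((x j : ℂ) * Complex.I) • Hc j) = ((c : ℂ) * ((x j : ℂ) * Complex.I)) • Hc j := by
      rw [← smul_smul (c : ℂ)]
      rfl
    rw [this]
    congr 1
    push_cast
    ring

theorem hxl_inj {N l : ℕ} {Hc : Fin l → Matrix (Fin N) (Fin N) ℂ} (h : LinearIndependent ℝ Hc) :
    Function.Injective (hxl Hc) := by
  rw [← LinearMap.ker_eq_bot, LinearMap.ker_eq_bot']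
  intro x hx0
  have h1 : hx Hc x = 0 := hx0
  unfold hx at h1
  have h2 : ∑ j, x j • Hc j = 0 := by
    have h3 : (-Complex.I) • ∑ j, ((x j : ℂ) * Complex.I) • Hc j = ∑ j, x j • Hc j := by
      rw [Finset.smul_sum]
      refine Finset.sum_congr rfl fun j _ => ?_
      rw [smul_smul]
      have : -Complex.I * ((x j : ℂ) * Complex.I) = (x j : ℂ) := by
        have := Complex.I_mul_I
        linear_combination (-(x j : ℂ)) * this
      rw [this]
      rfl
    rw [← h3, h1, smul_zero]
  funext j
  exact Fintype.linearIndependent_iff.1 h x h2 j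

end SSAT

open SSAT in
theorem t_SSAT : M_SSAT := by
  classical
  intro tWF tRH tQU N H τ A l Φ B Hc E x₀ θ hSR hSA
  have hI : IRD Φ B := hSR.lrd.ird
  have hW := tWF l Φ B hI
  have hR := tRH l Φ B hI hW
  have hQ := (tQU l Φ B hI hW).2.2.2.2.2.2
  -- simple roots
  have hsimp : ∀ i, (B i, Pi.single i 1) ∈ pos Φ := by
    intro i
    unfold pos
    rw [Finset.mem_filter]
    refine ⟨hI.base i, fun j => ?_⟩
    simp only
    by_cases hj : j = i
    · subst hj; simp
    · rw [Pi.single_eq_of_ne hj]
  have hdzneg : ∀ (κ : Fin l → ℤ) (x : Fin l → ℝ), dz (-κ) x = -dz κ x := by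
    intro κ x
    unfold dz
    rw [← Finset.sum_neg_distrib]
    refine Finset.sum_congr rfl fun i _ => ?_
    rw [Pi.neg_apply]
    push_cast
    ring
  -- posθ
  have hposθ : ∀ p ∈ PA Φ x₀, (-(θᵀ *ᵥ p.1), -(θ *ᵥ p.2)) ∈ PA Φ x₀ := by
    intro p hp
    unfold PA at hp ⊢
    rw [Finset.mem_filter] at hp ⊢
    obtain ⟨hp1, hp2⟩ := hp
    have hpΦ := (hW.ppos p hp1).1
    have h1 := hSA.perm p hpΦ
    have h2 := hW.neg _ h1
    simp only at h2
    have h3 : dz (-(θᵀ *ᵥ p.1)) x₀ = dz p.1 x₀ := by
      rw [hdzneg, hSA.anti p hpΦ, neg_neg]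
    refine ⟨?_, by rw [h3]; exact hp2⟩
    rw [hW.dich _ h2]
    intro h4
    have h5 := hSR.x0p _ h4
    simp only at h5
    rw [hdzneg, h3] at h5
    linarith
  -- the zero set
  set Z : Fin l → Prop := fun i => dz (B i) x₀ = 0 with hZ
  have hZpos : ∀ i, ¬ Z i → 0 < dz (B i) x₀ := by
    intro i hi
    exact lt_of_le_of_ne (hSR.x0p _ (hsimp i)) (Ne.symm hi)
  have h0 : ∀ i, Z i → ∀ k, θ k i = if k = i then 1 else 0 := by
    intro i hi k
    have h1 := (hSA.tc0 _ (hI.base i) hi).2.1
    have h2 := congrFun h1 k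
    simp only [Matrix.mulVec_single_one, Matrix.col_apply] at h2
    rw [h2, Pi.single_apply]
  have hn : ∀ i, ¬ Z i → ∀ k, θ k i ≤ 0 := by
    intro i hi k
    have h1 : (B i, Pi.single i 1) ∈ PA Φ x₀ := by
      unfold PA
      rw [Finset.mem_filter]
      exact ⟨hsimp i, hZpos i hi⟩
    have h2 := hposθ _ h1
    unfold PA at h2
    rw [Finset.mem_filter] at h2
    have h3 := (hW.ppos _ h2.1).2.1 k
    simp only [Matrix.mulVec_single_one, Pi.neg_apply, Matrix.col_apply] at h3
    omega
  obtain ⟨pm, hpm⟩ := exists_perm θ Z hSA.sq h0 hn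
  -- representatives
  set R : Finset (Fin l) := Finset.univ.filter fun i => ¬ Z i ∧ i ≤ pm i with hRdef
  set s : Fin R.card → Fin l := fun j => (R.equivFin.symm j).1 with hs
  have hsR : ∀ j, s j ∈ R := fun j => (R.equivFin.symm j).2
  have hsZ : ∀ j, ¬ Z (s j) := fun j => (Finset.mem_filter.1 (hsR j)).2.1
  have hspm : ∀ j, s j ≤ pm (s j) := fun j => (Finset.mem_filter.1 (hsR j)).2.2
  have hsinj : ∀ i j, s i = s j → i = j := by
    intro i j hij
    exact R.equivFin.symm.injective (Subtype.ext hij)
  have hssurj : ∀ i ∈ R, ∃ j, s j = i := by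
    intro i hi
    exact ⟨R.equivFin ⟨i, hi⟩, by simp [hs]⟩
  set ε : Fin R.card → Fin l → ℤ := fun j i => if i = s j ∨ i = pm (s j) then 1 else 0 with hε
  have hεZ : ∀ j i, Z i → ε j i = 0 := by
    intro j i hi
    rw [hε]
    simp only
    rw [if_neg]
    rintro (h | h)
    · exact hsZ j (h ▸ hi)
    · exact (hpm _ (hsZ j)).1 (h ▸ hi)
  have hpminj : ∀ i k, ¬ Z i → ¬ Z k → pm i = pm k → i = k := by
    intro i k hi hk h
    rw [← (hpm i hi).2.1, h, (hpm k hk).2.1]
  have hεpm : ∀ j i, ¬ Z i → ε j (pm i) = ε j i := by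
    intro j i hi
    rw [hε]
    simp only
    congr 1
    rw [eq_iff_iff]
    constructor
    · rintro (h | h)
      · right
        rw [← h, (hpm i hi).2.1]
      · left
        exact hpminj _ _ hi (hsZ j) h
    · rintro (h | h)
      · right; rw [h]
      · left; rw [h, (hpm _ (hsZ j)).2.1]
  have he01 : ∀ j i, ε j i = 0 ∨ ε j i = 1 := by
    intro j i
    rw [hε]
    simp only
    split_ifs
    · right; rfl
    · left; rfl
  have hsj : ∀ i j, ε j (s i) = if i = j then 1 else 0 := by
    intro i j
    rw [hε]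
    simp only
    by_cases hij : i = j
    · rw [if_pos hij, if_pos]
      left; rw [hij]
    · rw [if_neg hij, if_neg]
      rintro (h | h)
      · exact hij (hsinj _ _ h)
      · have h1 := hspm i
        have h2 := hspm j
        rw [h, (hpm _ (hsZ j)).2.1] at h1
        have h3 : s j = pm (s j) := le_antisymm h2 h1
        exact hij (hsinj _ _ (h.trans h3.symm))
  have hcover : ∀ i, ¬ Z i → ∃ j, i = s j ∨ i = pm (s j) := by
    intro i hi
    rcases le_total i (pm i) with h | h
    · obtain ⟨j, hj⟩ := hssurj i (Finset.mem_filter.2 ⟨Finset.mem_univ _, hi, h⟩)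
      exact ⟨j, Or.inl hj.symm⟩
    · have h1 := (hpm i hi)
      obtain ⟨j, hj⟩ := hssurj (pm i) (Finset.mem_filter.2 ⟨Finset.mem_univ _, h1.1, by rw [h1.2.1]; exact h⟩)
      exact ⟨j, Or.inr (by rw [hj, h1.2.1])⟩
  -- action of θᵀ on functions (integers and reals)
  have hact : ∀ (K : Type) [Ring K] (ν : Fin l → K) (i : Fin l),
      (Z i → ∑ k, (θ k i : K) * ν k = ν i) ∧
      (¬ Z i → (∀ k, Z k → ν k = 0) → ∑ k, (θ k i : K) * ν k = -ν (pm i)) := by
    intro K _ ν i
    constructor
    · intro hi
      rw [Finset.sum_eq_single i]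
      · rw [h0 i hi, if_pos rfl]; simp
      · intro k _ hk
        rw [h0 i hi, if_neg hk]; simp
      · intro h; exact absurd (Finset.mem_univ _) h
    · intro hi hν
      rw [Finset.sum_eq_single (pm i)]
      · rw [(hpm i hi).2.2 _ (hpm i hi).1, if_pos rfl]; simp
      · intro k _ hk
        by_cases hkZ : Z k
        · rw [hν k hkZ, mul_zero]
        · rw [(hpm i hi).2.2 k hkZ, if_neg hk]; simp
      · intro h; exact absurd (Finset.mem_univ _) h
  have htr : ∀ (ν : Fin l → ℤ) (i : Fin l), (θᵀ *ᵥ ν) i = ∑ k, ((θ k i : ℤ) : ℤ) * ν k := by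
    intro ν i
    rw [Matrix.mulVec, dotProduct]
    rfl
  have hanti : ∀ j, θᵀ *ᵥ ε j = -ε j := by
    intro j
    funext i
    rw [htr, Pi.neg_apply]
    by_cases hi : Z i
    · have := (hact ℤ (ε j) i).1 hi
      simp only [Int.cast_id] at this
      rw [this, hεZ j i hi]; rfl
    · have := (hact ℤ (ε j) i).2 hi (hεZ j)
      simp only [Int.cast_id] at this
      rw [this, hεpm j i hi]
  -- the span, for a general ring without 2-torsion
  have hspan : ∀ (K : Type) [Ring K] (h2 : ∀ a : K, a = -a → a = 0) (ν : Fin l → K),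
      (∀ i, ∑ k, (θ k i : K) * ν k = -ν i) → ∀ i, ν i = ∑ j, ν (s j) * (ε j i : K) := by
    intro K _ h2 ν hν i
    have hνZ : ∀ k, Z k → ν k = 0 := by
      intro k hk
      apply h2
      rw [← hν k]
      exact ((hact K ν k).1 hk).symm
    have hνpm : ∀ k, ¬ Z k → ν (pm k) = ν k := by
      intro k hk
      have h3 := hν k
      rw [(hact K ν k).2 hk hνZ] at h3
      exact neg_injective h3
    by_cases hi : Z i
    · rw [hνZ i hi]
      symm
      apply Finset.sum_eq_zero
      intro j _
      rw [hεZ j i hi]; simp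
    · obtain ⟨j, hj⟩ := hcover i hi
      have hval : ν i = ν (s j) := by
        rcases hj with h | h
        · rw [h]
        · rw [h, hνpm _ (hsZ j)]
      rw [Finset.sum_eq_single j]
      · have : ε j i = 1 := by
          rw [hε]
          simp only
          rw [if_pos hj]
        rw [this, hval]; simp
      · intro j' _ hj'
        have : ε j' i = 0 := by
          have h5 : ε j' i = ε j' (s j) := by
            rcases hj with h | h
            · rw [h]
            · rw [h, hεpm j' _ (hsZ j)]
          rw [h5, hsj, if_neg (Ne.symm hj')]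
        rw [this]; simp
      · intro h; exact absurd (Finset.mem_univ _) h
  have hspanZ : ∀ ν : Fin l → ℤ, θᵀ *ᵥ ν = -ν → ν = ∑ j, ν (s j) • ε j := by
    intro ν hν
    funext i
    have h1 := hspan ℤ (by intro a ha; omega) ν (by
      intro i
      have := congrFun hν i
      rw [htr] at this
      simpa using this) i
    rw [Finset.sum_apply]
    simpa using h1
  -- zeros of p.2 and n
  have hzero : ∀ p ∈ pos Φ, ∀ n : Fin l → ℤ, p.1 = ∑ i, n i • B i → ∀ i,
      ∃ a b : ℝ, 0 < a ∧ 0 < b ∧ (p.2 i : ℝ) * a = n i * b := by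
    intro p hp n hpn i
    have hpΦ := (hW.ppos p hp).1
    have q1 := hQ p hpΦ
    have qB := fun k => hQ _ (hI.base k)
    refine ⟨((p.1 ⬝ᵥ ((rd Φ).A *ᵥ p.1) : ℤ) : ℝ), ((B i ⬝ᵥ ((rd Φ).A *ᵥ B i) : ℤ) : ℝ),
      by exact_mod_cast q1.1, by exact_mod_cast (qB i).1, ?_⟩
    have e1 := q1.2 (Pi.single i 1)
    have e2 : p.1 ⬝ᵥ ((rd Φ).A *ᵥ Pi.single i 1) =
        ∑ k, n k * (B k ⬝ᵥ ((rd Φ).A *ᵥ Pi.single i 1)) := by
      rw [hpn, sum_dotProduct]
      refine Finset.sum_congr rfl fun k _ => ?_
      rw [smul_dotProduct, smul_eq_mul]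
    have e3 : ∀ k, 2 * (B k ⬝ᵥ ((rd Φ).A *ᵥ Pi.single i 1)) =
        (if k = i then 1 else 0) * (B k ⬝ᵥ ((rd Φ).A *ᵥ B k)) := by
      intro k
      have := (qB k).2 (Pi.single i 1)
      simp only at this
      rw [this]
      congr 1
      rw [single_dotProduct, one_mul, Pi.single_apply]
    have e4 : 2 * (p.1 ⬝ᵥ ((rd Φ).A *ᵥ Pi.single i 1)) = n i * (B i ⬝ᵥ ((rd Φ).A *ᵥ B i)) := by
      rw [e2, Finset.mul_sum, Finset.sum_eq_single i]
      · have := e3 i
        rw [if_pos rfl, one_mul] at this
        rw [← this]; ring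
      · intro k _ hk
        have := e3 k
        rw [if_neg hk, zero_mul] at this
        have h6 : B k ⬝ᵥ ((rd Φ).A *ᵥ Pi.single i 1) = 0 := by omega
        rw [h6]; ring
      · intro h; exact absurd (Finset.mem_univ _) h
    rw [e4] at e1
    have e5 : p.2 ⬝ᵥ Pi.single i 1 = p.2 i := by simp
    rw [e5] at e1
    exact_mod_cast e1.symm
  have hnn : ∀ p ∈ pos Φ, ∀ j, 0 ≤ p.2 ⬝ᵥ ε j := by
    intro p hp j
    apply Finset.sum_nonneg
    intro i _
    apply mul_nonneg ((hW.ppos p hp).2.1 i)
    rcases he01 j i with h | h <;> rw [h] <;> norm_num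
  have hpos : ∀ p ∈ pos Φ, 0 < dz p.1 x₀ ↔ ∃ j, 0 < p.2 ⬝ᵥ ε j := by
    intro p hp
    obtain ⟨hpΦ, hp2, _, n, hpn, hn0⟩ := hW.ppos p hp
    have hdz : dz p.1 x₀ = ∑ i, (n i : ℝ) * dz (B i) x₀ := by
      unfold dz
      rw [hpn]
      simp_rw [Finset.mul_sum]
      rw [Finset.sum_comm]
      refine Finset.sum_congr rfl fun k _ => ?_
      rw [Finset.sum_apply]
      push_cast
      rw [Finset.sum_mul]
      refine Finset.sum_congr rfl fun i _ => ?_
      simp only [Pi.smul_apply, smul_eq_mul]
      push_cast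
      ring
    have hterm : ∀ i, 0 ≤ (n i : ℝ) * dz (B i) x₀ := by
      intro i
      apply mul_nonneg (by exact_mod_cast hn0 i) (hSR.x0p _ (hsimp i))
    constructor
    · intro h
      rw [hdz] at h
      have h1 : ∃ i ∈ Finset.univ, 0 < (n i : ℝ) * dz (B i) x₀ := by
        by_contra hcon
        push Not at hcon
        have := Finset.sum_nonpos hcon
        linarith
      obtain ⟨i, _, hi⟩ := h1
      have hiZ : ¬ Z i := by
        intro h2
        have h3 : dz (B i) x₀ = 0 := h2
        rw [h3, mul_zero] at hi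
        exact lt_irrefl _ hi
      have hni : (0:ℝ) < n i := by
        by_contra h3
        have h4 : (n i : ℝ) = 0 := le_antisymm (not_lt.1 h3) (by exact_mod_cast hn0 i)
        rw [h4, zero_mul] at hi
        exact lt_irrefl _ hi
      obtain ⟨a, b, ha, hb, hab⟩ := hzero p hp n hpn i
      have hp2i : (0:ℝ) < p.2 i := by
        have : 0 < (p.2 i : ℝ) * a := by rw [hab]; positivity
        exact pos_of_mul_pos_left this ha.le
      have hp2i' : 0 < p.2 i := by exact_mod_cast hp2i
      obtain ⟨j, hj⟩ := hcover i hiZ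
      refine ⟨j, ?_⟩
      have h5 : ε j i = 1 := by
        rw [hε]
        simp only
        rw [if_pos hj]
      calc 0 < p.2 i * ε j i := by rw [h5]; omega
        _ ≤ p.2 ⬝ᵥ ε j := by
          apply Finset.single_le_sum (f := fun i => p.2 i * ε j i) _ (Finset.mem_univ i)
          intro k _
          apply mul_nonneg (hp2 k)
          rcases he01 j k with h | h <;> rw [h] <;> norm_num
    · rintro ⟨j, hj⟩
      have h1 : ∃ i ∈ Finset.univ, 0 < p.2 i * ε j i := by
        by_contra hcon
        push Not at hcon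
        have : p.2 ⬝ᵥ ε j ≤ 0 := Finset.sum_nonpos hcon
        omega
      obtain ⟨i, _, hi⟩ := h1
      have hεi : ε j i ≠ 0 := by
        intro h; rw [h, mul_zero] at hi; exact lt_irrefl _ hi
      have hiZ : ¬ Z i := fun h => hεi (hεZ j i h)
      have hp2i : 0 < p.2 i := by
        rcases he01 j i with h | h
        · exact absurd h hεi
        · rw [h, mul_one] at hi; exact hi
      obtain ⟨a, b, ha, hb, hab⟩ := hzero p hp n hpn i
      have hni : (0:ℝ) < n i := by
        have h2 : (0:ℝ) < p.2 i := by exact_mod_cast hp2i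
        have : 0 < (n i : ℝ) * b := by rw [← hab]; positivity
        exact pos_of_mul_pos_left this hb.le
      rw [hdz]
      calc 0 < (n i : ℝ) * dz (B i) x₀ := mul_pos hni (hZpos i hiZ)
        _ ≤ _ := Finset.single_le_sum (f := fun i => (n i : ℝ) * dz (B i) x₀) (fun k _ => hterm k)
          (Finset.mem_univ i)
  -- beta
  have hbeta : ∀ j, ∃ b : ℤ, 2 ≤ b ∧ ∑ p ∈ pe Φ (ε j), p.1 = b • ε j := by
    intro j
    set P := pe Φ (ε j) with hP
    have hPmem : ∀ p, p ∈ P ↔ p ∈ pos Φ ∧ 0 < p.2 ⬝ᵥ ε j := by
      intro p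
      rw [hP]
      unfold pe
      rw [Finset.mem_filter]
    set β : Fin l → ℤ := ∑ p ∈ P, p.1 with hβ
    have hBne : ∀ k, B k ≠ 0 := by
      intro k h
      apply hI.det
      exact Matrix.det_eq_zero_of_row_eq_zero k (fun i => by rw [h]; rfl)
    have hBkk : ∀ k, B k k = 2 := by
      intro k
      have := hI.two _ (hI.base k)
      simp only at this
      rw [single_dotProduct, one_mul] at this
      exact this
    -- β k = 0
    have hβ0 : ∀ k, ε j k = 0 → β k = 0 := by
      intro k hk
      have h1 : ∑ p ∈ P, (p.1 - p.1 k • B k) = ∑ p ∈ P, p.1 := by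
        refine Finset.sum_bij' (i := fun p _ => ((p.1 - p.1 k • B k, p.2 - (p.2 ⬝ᵥ B k) • Pi.single k 1) :
            (Fin l → ℤ) × (Fin l → ℤ)))
          (j := fun p _ => ((p.1 - p.1 k • B k, p.2 - (p.2 ⬝ᵥ B k) • Pi.single k 1) :
            (Fin l → ℤ) × (Fin l → ℤ))) ?_ ?_ ?_ ?_ ?_
        · intro p hp
          rw [hPmem] at hp ⊢
          have hne : p ≠ (B k, Pi.single k 1) := by
            rintro rfl
            have := hp.2
            simp only at this
            rw [single_dotProduct, one_mul, hk] at this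
            exact lt_irrefl _ this
          refine ⟨hW.simp k p hp.1 hne, ?_⟩
          simp only
          rw [sub_dotProduct, smul_dotProduct, single_dotProduct, hk]
          simpa using hp.2
        · intro p hp
          rw [hPmem] at hp ⊢
          have hne : p ≠ (B k, Pi.single k 1) := by
            rintro rfl
            have := hp.2
            simp only at this
            rw [single_dotProduct, one_mul, hk] at this
            exact lt_irrefl _ this
          refine ⟨hW.simp k p hp.1 hne, ?_⟩
          simp only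
          rw [sub_dotProduct, smul_dotProduct, single_dotProduct, hk]
          simpa using hp.2
        · intro p _
          apply Prod.ext
          · funext i
            simp only [Pi.sub_apply, Pi.smul_apply, smul_eq_mul, hBkk]
            ring
          · funext i
            simp only [sub_dotProduct, smul_dotProduct, single_dotProduct, hBkk, Pi.sub_apply,
              Pi.smul_apply, smul_eq_mul]
            ring
        · intro p _
          apply Prod.ext
          · funext i
            simp only [Pi.sub_apply, Pi.smul_apply, smul_eq_mul, hBkk]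
            ring
          · funext i
            simp only [sub_dotProduct, smul_dotProduct, single_dotProduct, hBkk, Pi.sub_apply,
              Pi.smul_apply, smul_eq_mul]
            ring
        · intro p _
          rfl
      rw [Finset.sum_sub_distrib] at h1
      have h2 : ∑ p ∈ P, p.1 k • B k = β k • B k := by
        rw [← Finset.sum_smul, hβ, Finset.sum_apply]
      rw [h2] at h1
      have h3 : β k • B k = 0 := by
        have := sub_eq_self.1 h1
        exact this
      rcases smul_eq_zero.1 h3 with h | h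
      · exact h
      · exact absurd h (hBne k)
    have hβθ : θᵀ *ᵥ β = -β := by
      have hPA : ∀ p ∈ P, p ∈ PA Φ x₀ := by
        intro p hp
        rw [hPmem] at hp
        unfold PA
        rw [Finset.mem_filter]
        exact ⟨hp.1, (hpos p hp.1).2 ⟨j, hp.2⟩⟩
      have hmap : ∀ p ∈ P, ((-(θᵀ *ᵥ p.1), -(θ *ᵥ p.2)) : (Fin l → ℤ) × (Fin l → ℤ)) ∈ P := by
        intro p hp
        have h1 := hposθ p (hPA p hp)
        rw [hPmem] at hp ⊢
        unfold PA at h1
        rw [Finset.mem_filter] at h1
        refine ⟨h1.1, ?_⟩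
        simp only
        have h2 : (θ *ᵥ p.2) ⬝ᵥ ε j = p.2 ⬝ᵥ (θᵀ *ᵥ ε j) := by
          rw [Matrix.dotProduct_mulVec, Matrix.vecMul_transpose]
        rw [neg_dotProduct, h2, hanti, dotProduct_neg, neg_neg]
        exact hp.2
      have hθT : θᵀ * θᵀ = 1 := by
        rw [← Matrix.transpose_mul, hSA.sq, Matrix.transpose_one]
      have hinv : ∀ p : (Fin l → ℤ) × (Fin l → ℤ),
          ((-(θᵀ *ᵥ (-(θᵀ *ᵥ p.1))), -(θ *ᵥ (-(θ *ᵥ p.2)))) : (Fin l → ℤ) × (Fin l → ℤ)) = p := by
        intro p
        apply Prod.ext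
        · simp only
          rw [Matrix.mulVec_neg, neg_neg, Matrix.mulVec_mulVec, hθT, Matrix.one_mulVec]
        · simp only
          rw [Matrix.mulVec_neg, neg_neg, Matrix.mulVec_mulVec, hSA.sq, Matrix.one_mulVec]
      have h1 : ∑ p ∈ P, -(θᵀ *ᵥ p.1) = ∑ p ∈ P, p.1 := by
        refine Finset.sum_bij' (i := fun p _ => ((-(θᵀ *ᵥ p.1), -(θ *ᵥ p.2)) :
            (Fin l → ℤ) × (Fin l → ℤ)))
          (j := fun p _ => ((-(θᵀ *ᵥ p.1), -(θ *ᵥ p.2)) : (Fin l → ℤ) × (Fin l → ℤ))) ?_ ?_ ?_ ?_ ?_
        · exact hmap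
        · exact hmap
        · intro p _
          exact hinv p
        · intro p _
          exact hinv p
        · intro p _
          rfl
      rw [Finset.sum_neg_distrib] at h1
      have h2 : ∑ p ∈ P, θᵀ *ᵥ p.1 = θᵀ *ᵥ β := by
        rw [hβ, Matrix.mulVec_sum]
      rw [h2] at h1
      rw [← hβ] at h1
      exact neg_eq_iff_eq_neg.1 h1
    refine ⟨β (s j), ?_, ?_⟩
    · have h1 : ∑ p ∈ pos Φ, p.1 (s j) = 2 := by
        have := congrFun hR.1 (s j)
        rw [Finset.sum_apply] at this
        exact this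
      have hPsub : P ⊆ pos Φ := fun p hp => ((hPmem p).1 hp).1
      rw [← Finset.sum_sdiff hPsub] at h1
      have h2 : β (s j) = ∑ p ∈ P, p.1 (s j) := by rw [hβ, Finset.sum_apply]
      rw [← h2] at h1
      have h3 : ∑ p ∈ pos Φ \ P, p.1 (s j) ≤ 0 := by
        apply Finset.sum_nonpos
        intro p hp
        rw [Finset.mem_sdiff, hPmem] at hp
        obtain ⟨hp1, hp2⟩ := hp
        have hp3 : p.2 ⬝ᵥ ε j = 0 := by
          have := hnn p hp1 j
          by_contra hne
          exact hp2 ⟨hp1, lt_of_le_of_ne this (Ne.symm hne)⟩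
        obtain ⟨hpΦ, hp4, _, n, hpn, hn0⟩ := hW.ppos p hp1
        have hp5 : p.2 (s j) = 0 := by
          have h4 := (Finset.sum_eq_zero_iff_of_nonneg (s := Finset.univ)
            (f := fun i => p.2 i * ε j i) (fun i _ => by
              apply mul_nonneg (hp4 i)
              rcases he01 j i with h | h <;> rw [h] <;> norm_num)).1 hp3 (s j) (Finset.mem_univ _)
          rw [hsj, if_pos rfl, mul_one] at h4
          exact h4
        have hn1 : n (s j) = 0 := by
          obtain ⟨a, b, ha, hb, hab⟩ := hzero p hp1 n hpn (s j)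
          rw [hp5] at hab
          simp only [Int.cast_zero, zero_mul] at hab
          have := (mul_eq_zero.1 hab.symm).resolve_right hb.ne'
          exact_mod_cast this
        rw [hpn, Finset.sum_apply]
        apply Finset.sum_nonpos
        intro k _
        rw [Pi.smul_apply, smul_eq_mul]
        by_cases hk : k = s j
        · rw [hk, hn1, zero_mul]
        · apply mul_nonpos_of_nonneg_of_nonpos (hn0 k)
          have hne : ((B (s j), Pi.single (s j) 1) : (Fin l → ℤ) × (Fin l → ℤ)) ≠
              (B k, Pi.single k 1) := by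
            intro h
            have h5 := congrArg (fun x : (Fin l → ℤ) × (Fin l → ℤ) => x.2 k) h
            simp only [Pi.single_eq_same] at h5
            rw [Pi.single_eq_of_ne hk] at h5
            exact zero_ne_one h5
          have h6 := (hW.ppos _ (hW.simp k _ (hsimp (s j)) hne)).2.1 k
          rw [single_dotProduct, one_mul] at h6
          simp only [Pi.sub_apply, Pi.smul_apply, Pi.single_eq_same, smul_eq_mul, mul_one] at h6
          rw [Pi.single_eq_of_ne hk] at h6
          omega
      omega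
    · refine (hspanZ β hβθ).trans (Finset.sum_eq_single j ?_ ?_)
      · intro i _ hi
        rw [hβ0 (s i) (by rw [hsj, if_neg hi]), zero_smul]
      · intro h; exact absurd (Finset.mem_univ _) h
  have hSO : SO Φ θ x₀ s ε := ⟨hnn, hpos, hposθ, hanti, he01, hsj, hspanZ, hbeta⟩
  -- the rank
  have hrk : Module.finrank ℝ A = R.card := by
    set Θ : Matrix (Fin l) (Fin l) ℝ := θ.map (Int.cast : ℤ → ℝ) with hΘ
    set K1 : Submodule ℝ (Fin l → ℝ) := LinearMap.ker (Θ + 1).mulVecLin with hK1
    set K2 : Submodule ℝ (Fin l → ℝ) := LinearMap.ker (Θᵀ + 1).mulVecLin with hK2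
    have hm1 : ∀ x, x ∈ K1 ↔ ∀ i, ∑ j, (θ i j : ℝ) * x j = -x i := by
      intro x
      rw [hK1, LinearMap.mem_ker, Matrix.mulVecLin_apply, Matrix.add_mulVec, Matrix.one_mulVec]
      constructor
      · intro h i
        have := congrFun h i
        simp only [Pi.add_apply, Pi.zero_apply] at this
        have h2 : (Θ *ᵥ x) i = ∑ j, (θ i j : ℝ) * x j := rfl
        rw [← h2]
        linarith
      · intro h
        funext i
        simp only [Pi.add_apply, Pi.zero_apply]
        have h2 : (Θ *ᵥ x) i = ∑ j, (θ i j : ℝ) * x j := rfl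
        rw [h2, h i]
        ring
    have hm2 : ∀ x, x ∈ K2 ↔ ∀ i, ∑ k, (θ k i : ℝ) * x k = -x i := by
      intro x
      rw [hK2, LinearMap.mem_ker, Matrix.mulVecLin_apply, Matrix.add_mulVec, Matrix.one_mulVec]
      constructor
      · intro h i
        have := congrFun h i
        simp only [Pi.add_apply, Pi.zero_apply] at this
        have h2 : (Θᵀ *ᵥ x) i = ∑ k, (θ k i : ℝ) * x k := rfl
        rw [← h2]
        linarith
      · intro h
        funext i
        simp only [Pi.add_apply, Pi.zero_apply]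
        have h2 : (Θᵀ *ᵥ x) i = ∑ k, (θ k i : ℝ) * x k := rfl
        rw [h2, h i]
        ring
    have hA : A = K1.map (hxl Hc) := by
      ext X
      rw [Submodule.mem_map]
      constructor
      · intro hX
        obtain ⟨x, rfl⟩ := hSR.sub X hX
        exact ⟨x, (hm1 x).2 ((hSA.A x).1 hX), rfl⟩
      · rintro ⟨x, hx1, rfl⟩
        exact (hSA.A x).2 ((hm1 x).1 hx1)
    have e1 : Module.finrank ℝ A = Module.finrank ℝ K1 := by
      rw [hA]
      exact (LinearEquiv.finrank_eq (Submodule.equivMapOfInjective (hxl Hc)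
        (hxl_inj hSR.lrd.lin) K1)).symm
    have e2 : Module.finrank ℝ K1 = Module.finrank ℝ K2 := by
      have r1 := LinearMap.finrank_range_add_finrank_ker (Θ + 1).mulVecLin
      have r2 := LinearMap.finrank_range_add_finrank_ker (Θᵀ + 1).mulVecLin
      have r3 : (Θ + 1).rank = (Θᵀ + 1).rank := by
        have : Θᵀ + 1 = (Θ + 1)ᵀ := by rw [Matrix.transpose_add, Matrix.transpose_one]
        rw [this, Matrix.rank_transpose]
      unfold Matrix.rank at r3
      rw [← hK1] at r1
      rw [← hK2] at r2
      omega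
    have e3 : Module.finrank ℝ K2 = R.card := by
      set F : (Fin R.card → ℝ) →ₗ[ℝ] (Fin l → ℝ) :=
        { toFun := fun c i => ∑ j, c j * (ε j i : ℝ)
          map_add' := by
            intro c d
            funext i
            simp only [Pi.add_apply]
            rw [← Finset.sum_add_distrib]
            refine Finset.sum_congr rfl fun j _ => ?_
            ring
          map_smul' := by
            intro a c
            funext i
            simp only [Pi.smul_apply, smul_eq_mul, RingHom.id_apply]
            rw [Finset.mul_sum]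
            refine Finset.sum_congr rfl fun j _ => ?_
            ring } with hF
      have hFapp : ∀ c i, F c i = ∑ j, c j * (ε j i : ℝ) := fun c i => rfl
      have hFs : ∀ c i, F c (s i) = c i := by
        intro c i
        rw [hFapp, Finset.sum_eq_single i]
        · rw [hsj, if_pos rfl]; simp
        · intro j _ hj
          rw [hsj, if_neg (Ne.symm hj)]; simp
        · intro h; exact absurd (Finset.mem_univ _) h
      have hFinj : Function.Injective F := by
        intro c d hcd
        funext i
        rw [← hFs c i, hcd, hFs]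
      have hrange : LinearMap.range F = K2 := by
        apply le_antisymm
        · rintro x ⟨c, rfl⟩
          rw [hm2]
          intro i
          simp_rw [hFapp, Finset.mul_sum]
          rw [Finset.sum_comm, ← Finset.sum_neg_distrib]
          refine Finset.sum_congr rfl fun j _ => ?_
          have h1 := congrFun (hanti j) i
          rw [htr, Pi.neg_apply] at h1
          have h2 : ∑ k, (θ k i : ℝ) * (ε j k : ℝ) = -(ε j i : ℝ) := by
            have := congrArg (fun z : ℤ => (z : ℝ)) h1
            push_cast at this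
            simpa using this
          have h3 : ∑ k, (θ k i : ℝ) * (c j * (ε j k : ℝ)) =
              c j * ∑ k, (θ k i : ℝ) * (ε j k : ℝ) := by
            rw [Finset.mul_sum]
            refine Finset.sum_congr rfl fun k _ => ?_
            ring
          rw [h3, h2]
          ring
        · intro x hx1
          rw [hm2] at hx1
          refine ⟨fun j => x (s j), ?_⟩
          funext i
          rw [hFapp]
          exact (hspan ℝ (by intro a ha; linarith) x hx1 i).symm
      rw [← hrange, LinearMap.finrank_range_of_inj hFinj]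
      simp
    rw [e1, e2, e3]
  rw [hrk]
  exact ⟨s, ε, hSO⟩

end

end SYM
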