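import Pool.Agent.SYM.StZ

/-!
# Symmetric spaces, block Z: the sums over the classes
-/

namespace SYM

namespace SSUM

open STZ LGR MeasureTheory Matrix

open scoped ComplexConjugate Matrix Real Topology

noncomputable section

/-- the matrix in the coordinates of a class -/
def G' {r : ℕ} (G : Matrix (Fin r) (Fin r) ℤ) (β : Fin r → ℕ) : Matrix (Fin r) (Fin r) ℤ :=
  fun i j => β i * β j * G i j

/-- the scaled vector -/
def sv {r : ℕ} (β : Fin r → ℕ) (x : Fin r → ℤ) : Fin r → ℤ := fun j => β j * x j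

theorem dot {r : ℕ} (G : Matrix (Fin r) (Fin r) ℤ) (β : Fin r → ℕ) (x h : Fin r → ℤ) :
    sv β x ⬝ᵥ (G *ᵥ sv β h) = x ⬝ᵥ (G' G β *ᵥ h) := by
  simp only [dotProduct, mulVec, sv, G', Finset.mul_sum]
  refine Finset.sum_congr rfl fun i _ => Finset.sum_congr rfl fun j _ => by ring

theorem pd {r : ℕ} {G : Matrix (Fin r) (Fin r) ℤ} (hG : PD G) {β : Fin r → ℕ}
    (hβ : ∀ j, 1 ≤ β j) : PD (G' G β) := by
  refine ⟨?_, fun x hx => ?_⟩
  · ext i j
    have h := congrFun (congrFun hG.1 i) j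
    rw [transpose_apply] at h ⊢
    simp only [G']
    rw [h]
    ring
  · rw [← dot]
    refine hG.2 _ fun h => hx ?_
    funext j
    have h1 := congrFun h j
    simp only [sv, Pi.zero_apply] at h1
    have h2 := hβ j
    rcases mul_eq_zero.1 h1 with h3 | h3
    · have : β j = 0 := by exact_mod_cast h3
      omega
    · exact h3

theorem nn_le {a b N : ℕ} (hb : 1 ≤ b) (hN : 1 ≤ N) : (N - a + b - 1) / b ≤ N := by
  refine Nat.div_le_of_le_mul ?_
  have h1 : N - a ≤ N := Nat.sub_le _ _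
  obtain ⟨b, rfl⟩ : ∃ c, b = c + 1 := ⟨b - 1, by omega⟩
  obtain ⟨N, rfl⟩ : ∃ c, N = c + 1 := ⟨N - 1, by omega⟩
  have : (b + 1) * (N + 1) = b * N + b + N + 1 := by ring
  rw [this]
  have : 0 ≤ b * N := Nat.zero_le _
  omega

theorem NNf_nonneg (N : ℕ) {s : ℝ} (hs : s ≤ 1) : 0 ≤ NNf N s := by
  rw [NNf]
  have : (0 : ℝ) ≤ N := Nat.cast_nonneg N
  have h1 : 0 ≤ 1 - s := by linarith
  positivity

end

end SSUM

open SSUM STZ LGR MeasureTheory Matrix in
theorem t_SSUM : M_SSUM := by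
  intro hW hD M Y _ _ _ _ r n q S L KM μ ν hS
  have key : ∀ s : Fin q, ∃ (C : ℝ) (c : ℕ), 0 ≤ C ∧ 1 ≤ c ∧ ∀ (N : ℕ) (t : ℝ) (z : Fin r → ℂ), 1 ≤ N →
      (∀ j, ‖z j‖ ≤ 1) →
      ‖S.cs s N t z‖ ≤ C * WW N c t ^ ((r : ℝ) / 2) * ∏ p, ∑ j, S.α p j * NNf N ‖z j‖ := by
    intro s
    obtain ⟨C, c, hC, hc, h⟩ := hD r (G' S.G S.β) (pd hS.G hS.β) (Fin n)
      (fun p => S.a₀ p + ∑ j, S.α p j * S.a s j) (fun p j => S.α p j * S.β j)
      (fun p => add_nonneg (hS.a₀ p).le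
        (Finset.sum_nonneg fun j _ => mul_nonneg (hS.α p j) (Nat.cast_nonneg _)))
      (fun p j => mul_nonneg (hS.α p j) (Nat.cast_nonneg _))
      (fun p => by
        obtain ⟨j, hj⟩ := hS.αe p
        refine ⟨j, mul_pos hj ?_⟩
        have := hS.β j
        exact_mod_cast (by omega : 0 < S.β j))
    let B : ℝ := ∑ j, (S.β j : ℝ)
    have hB : 0 ≤ B := Finset.sum_nonneg fun j _ => Nat.cast_nonneg _
    refine ⟨S.D₀ * (C * B ^ n), c, mul_nonneg hS.D₀.le (mul_nonneg hC (pow_nonneg hB n)), hc, ?_⟩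
    intro N t z hN hz
    have h1 := h N (S.nn s N) (-t) (fun x => -(t * (S.Q (S.pt s x) : ℝ)))
      (fun x => -(t * ((S.Q (sv S.β x) - S.Q 0 +
        (fun j => (S.a s j : ℤ)) ⬝ᵥ (S.G *ᵥ sv S.β x) : ℤ) : ℝ))) z hN
      (fun j => nn_le (hS.β j) hN) (fun x h => by
        have e1 : S.pt s (x + h) = S.pt s x + sv S.β h := by
          funext j
          simp only [SPB.pt, sv, Pi.add_apply]
          ring
        have e2 : S.pt s x = (fun j => (S.a s j : ℤ)) + sv S.β x := by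
          funext j
          simp only [SPB.pt, sv, Pi.add_apply]
        have e3 : S.Q (S.pt s (x + h)) = S.Q (S.pt s x) + (S.Q (sv S.β h) - S.Q 0 +
            (fun j => (S.a s j : ℤ)) ⬝ᵥ (S.G *ᵥ sv S.β h)) + x ⬝ᵥ (G' S.G S.β *ᵥ h) := by
          rw [e1, hS.quad, ← dot]
          conv_lhs =>
            rw [show S.pt s x ⬝ᵥ (S.G *ᵥ sv S.β h) =
              (fun j => (S.a s j : ℤ)) ⬝ᵥ (S.G *ᵥ sv S.β h) + sv S.β x ⬝ᵥ (S.G *ᵥ sv S.β h) by
                rw [e2, add_dotProduct]]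
          ring
        rw [e3]
        push_cast
        ring) hz
    have h2 : S.cs s N t z = (S.D₀ : ℂ) * ∑ x ∈ bxn (0 : Fin r → ℤ) (S.nn s N),
        ((∏ p, (S.a₀ p + ∑ j, S.α p j * S.a s j + ∑ j, S.α p j * S.β j * x j) : ℝ) : ℂ) *
          eu (-(t * (S.Q (S.pt s x) : ℝ))) * ∏ j, z j ^ (x j).toNat := by
      rw [SPB.cs, Finset.mul_sum]
      refine Finset.sum_congr rfl fun x _ => ?_
      have e : S.dd (S.pt s x) = S.D₀ *
          ∏ p, (S.a₀ p + ∑ j, S.α p j * S.a s j + ∑ j, S.α p j * S.β j * x j) := by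
        rw [SPB.dd]
        congr 1
        refine Finset.prod_congr rfl fun p _ => ?_
        rw [add_assoc, ← Finset.sum_add_distrib]
        congr 1
        refine Finset.sum_congr rfl fun j _ => ?_
        simp only [SPB.pt]
        push_cast
        ring
      rw [e]
      push_cast
      ring
    rw [h2, norm_mul, Complex.norm_real, Real.norm_of_nonneg hS.D₀.le]
    have h3 : ∏ p, ∑ j, S.α p j * S.β j * NNf N ‖z j‖ ≤
        B ^ n * ∏ p, ∑ j, S.α p j * NNf N ‖z j‖ := by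
      have e : B ^ n * ∏ p : Fin n, ∑ j, S.α p j * NNf N ‖z j‖ =
          ∏ p : Fin n, (B * ∑ j, S.α p j * NNf N ‖z j‖) := by
        rw [Finset.prod_mul_distrib, Finset.prod_const, Finset.card_univ, Fintype.card_fin]
      rw [e]
      refine Finset.prod_le_prod (fun p _ => Finset.sum_nonneg fun j _ =>
        mul_nonneg (mul_nonneg (hS.α p j) (Nat.cast_nonneg _)) (NNf_nonneg N (hz j)))
        fun p _ => ?_
      rw [Finset.mul_sum]
      refine Finset.sum_le_sum fun j _ => ?_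
      have hb : (S.β j : ℝ) ≤ B :=
        Finset.single_le_sum (f := fun j => (S.β j : ℝ)) (fun j _ => Nat.cast_nonneg _)
          (Finset.mem_univ j)
      have := mul_le_mul_of_nonneg_right hb (mul_nonneg (hS.α p j) (NNf_nonneg N (hz j)))
      calc S.α p j * S.β j * NNf N ‖z j‖ = S.β j * (S.α p j * NNf N ‖z j‖) := by ring
        _ ≤ B * (S.α p j * NNf N ‖z j‖) := this
    have hWn : 0 ≤ WW N c t ^ ((r : ℝ) / 2) :=
      Real.rpow_nonneg ((Nat.cast_nonneg N).trans (hW.ge N c t)) _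
    rw [hW.even] at h1
    calc S.D₀ * _ ≤ S.D₀ * (C * WW N c t ^ ((r : ℝ) / 2) *
          ∏ p, ∑ j, S.α p j * S.β j * NNf N ‖z j‖) := mul_le_mul_of_nonneg_left h1 hS.D₀.le
      _ ≤ S.D₀ * (C * WW N c t ^ ((r : ℝ) / 2) * (B ^ n * ∏ p, ∑ j, S.α p j * NNf N ‖z j‖)) :=
        mul_le_mul_of_nonneg_left (mul_le_mul_of_nonneg_left h3 (mul_nonneg hC hWn)) hS.D₀.le
      _ = _ := by ring
  choose C c hC hc h using key
  refine ⟨∑ s, C s, 1 + ∑ s, c s, Finset.sum_nonneg fun s _ => hC s, by omega, ?_⟩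
  intro s N t z hN hz
  have hP : 0 ≤ ∏ p, ∑ j, S.α p j * NNf N ‖z j‖ := Finset.prod_nonneg fun p _ =>
    Finset.sum_nonneg fun j _ => mul_nonneg (hS.α p j) (NNf_nonneg N (hz j))
  have h0 : 0 ≤ WW N (c s) t := (Nat.cast_nonneg N).trans (hW.ge N (c s) t)
  have hcs : c s ≤ 1 + ∑ s, c s :=
    (Finset.single_le_sum (f := c) (fun j _ => Nat.zero_le _) (Finset.mem_univ s)).trans (by omega)
  have h1 : WW N (c s) t ^ ((r : ℝ) / 2) ≤ WW N (1 + ∑ s, c s) t ^ ((r : ℝ) / 2) :=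
    Real.rpow_le_rpow h0 (hW.mono N N _ _ t le_rfl hcs) (by positivity)
  refine (h s N t z hN hz).trans (mul_le_mul_of_nonneg_right ?_ hP)
  exact mul_le_mul (Finset.single_le_sum (f := C) (fun j _ => hC j) (Finset.mem_univ s)) h1
    (Real.rpow_nonneg h0 _) (Finset.sum_nonneg fun s _ => hC s)

end SYM
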