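import Pool.Agent.SYM.StP
import Pool.Agent.LGR.AUTN

/-!
# Symmetric spaces, block P: the action of the involution on the root data
-/

namespace SYM

open STZ LGR MeasureTheory Matrix Filter

open scoped ComplexConjugate Matrix Real Topology

noncomputable section

namespace STAU

open LGR.AUTN

variable {N r : ℕ}

/-- `tcx τ` as a complex linear map -/
def TCx (τ : Matrix (Fin N) (Fin N) ℂ →ₗ[ℝ] Matrix (Fin N) (Fin N) ℂ) :
    Matrix (Fin N) (Fin N) ℂ →ₗ[ℂ] Matrix (Fin N) (Fin N) ℂ where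
  toFun := tcx τ
  map_add' := by
    intro X Y
    unfold tcx
    have h1 : X + Y - (X + Y)ᴴ = (X - Xᴴ) + (Y - Yᴴ) := by
      rw [conjTranspose_add]; abel
    have h2 : Complex.I • (X + Y + (X + Y)ᴴ) =
        Complex.I • (X + Xᴴ) + Complex.I • (Y + Yᴴ) := by
      rw [conjTranspose_add, ← smul_add]
      congr 1
      abel
    rw [h1, h2, map_add, map_add]
    module
  map_smul' := by
    intro c X
    unfold tcx
    have h1 : c • X - (c • X)ᴴ = c.re • (X - Xᴴ) + c.im • (Complex.I • (X + Xᴴ)) := by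
      ext i j
      simp only [Matrix.sub_apply, Matrix.add_apply, Matrix.smul_apply, conjTranspose_apply, smul_eq_mul, star_mul',
        Complex.real_smul, Complex.star_def]
      apply Complex.ext
      · simp
        ring
      · simp
        ring
    have h2 : Complex.I • (c • X + (c • X)ᴴ) =
        c.re • (Complex.I • (X + Xᴴ)) - c.im • (X - Xᴴ) := by
      ext i j
      simp only [Matrix.sub_apply, Matrix.add_apply, Matrix.smul_apply, conjTranspose_apply, smul_eq_mul, star_mul',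
        Complex.real_smul, Complex.star_def]
      apply Complex.ext
      · simp
        ring
      · simp
        ring
    rw [h1, h2, map_add, map_sub, τ.map_smul, τ.map_smul, τ.map_smul, τ.map_smul]
    generalize τ (X - Xᴴ) = P
    generalize τ (Complex.I • (X + Xᴴ)) = Q
    ext i j
    simp only [Matrix.sub_apply, Matrix.add_apply, Matrix.smul_apply, smul_eq_mul, Complex.real_smul, RingHom.id_apply]
    apply Complex.ext
    · simp
      ring
    · simp
      ring

theorem TCx_apply (τ : Matrix (Fin N) (Fin N) ℂ →ₗ[ℝ] Matrix (Fin N) (Fin N) ℂ)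
    (X : Matrix (Fin N) (Fin N) ℂ) : TCx τ X = tcx τ X := rfl

theorem TCx_skew (τ : Matrix (Fin N) (Fin N) ℂ →ₗ[ℝ] Matrix (Fin N) (Fin N) ℂ)
    {X : Matrix (Fin N) (Fin N) ℂ} (h : Xᴴ = -X) : TCx τ X = τ X := by
  rw [TCx_apply, tcx, h]
  have h1 : X - -X = (2 : ℝ) • X := by
    rw [sub_neg_eq_add, two_smul]
  rw [h1, add_neg_cancel, smul_zero, map_zero, map_smul, smul_zero, sub_zero]
  rw [show ((2 : ℝ) • τ X) = (2 : ℂ) • τ X by
    rw [two_smul, two_smul], smul_smul]
  norm_num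

variable {H : Subgroup (SU N)} {Φ : RT r} {B : Matrix (Fin r) (Fin r) ℤ}
  {Hc : Fin r → Matrix (Fin N) (Fin N) ℂ}
  {E : (Fin r → ℤ) × (Fin r → ℤ) → Matrix (Fin N) (Fin N) ℂ}

/-- the complexification of the Lie algebra -/
def LC (hI : LIF H) : Submodule ℂ (Matrix (Fin N) (Fin N) ℂ) where
  carrier := {X | ∃ A ∈ lie H, ∃ C ∈ lie H, X = A + Complex.I • C}
  add_mem' := by
    rintro _ _ ⟨A, hA, C, hC, rfl⟩ ⟨A', hA', C', hC', rfl⟩
    refine ⟨A + A', hI.add _ hA _ hA', C + C', hI.add _ hC _ hC', ?_⟩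
    rw [smul_add]
    abel
  zero_mem' := ⟨0, hI.zero, 0, hI.zero, by simp⟩
  smul_mem' := by
    rintro c _ ⟨A, hA, C, hC, rfl⟩
    refine ⟨(c.re : ℂ) • A + ((-c.im : ℝ) : ℂ) • C, hI.add _ (hI.smul _ _ hA) _ (hI.smul _ _ hC),
      (c.im : ℂ) • A + (c.re : ℂ) • C, hI.add _ (hI.smul _ _ hA) _ (hI.smul _ _ hC), ?_⟩
    ext i j
    simp only [Matrix.add_apply, Matrix.smul_apply, smul_eq_mul]
    apply Complex.ext
    · simp
      ring
    · simp
      ring

theorem mem_LC {hI : LIF H} {X : Matrix (Fin N) (Fin N) ℂ} :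
    X ∈ LC hI ↔ ∃ A ∈ lie H, ∃ C ∈ lie H, X = A + Complex.I • C := Iff.rfl

theorem lie_LC (hI : LIF H) {X : Matrix (Fin N) (Fin N) ℂ} (hX : X ∈ lie H) : X ∈ LC hI :=
  ⟨X, hX, 0, hI.zero, by simp⟩

theorem LC_SP (hI : LIF H) (hL : LRD H Φ B Hc E) {X : Matrix (Fin N) (Fin N) ℂ} (hX : X ∈ LC hI) :
    X ∈ SP Φ Hc E := by
  obtain ⟨A, hA, C, hC, rfl⟩ := hX
  exact Submodule.add_mem _ (lie_sub hL hA) (Submodule.smul_mem _ _ (lie_sub hL hC))

theorem half (X : Matrix (Fin N) (Fin N) ℂ) :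
    X = (1 / 2 : ℂ) • (X - Xᴴ) + (-Complex.I / 2) • (Complex.I • (X + Xᴴ)) := by
  rw [smul_smul]
  have h4 : -Complex.I / 2 * Complex.I = 1 / 2 := by
    have := Complex.I_mul_I
    linear_combination (-1 / 2 : ℂ) * this
  rw [h4, ← smul_add]
  have h5 : X - Xᴴ + (X + Xᴴ) = (2 : ℂ) • X := by
    rw [two_smul]
    abel
  rw [h5, smul_smul]
  norm_num

theorem E_LC (hI : LIF H) (hL : LRD H Φ B Hc E) {p : (Fin r → ℤ) × (Fin r → ℤ)} (hp : p ∈ Φ) :
    E p ∈ LC hI := by
  rw [half (E p)]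
  exact Submodule.add_mem _ (Submodule.smul_mem _ _ (lie_LC hI (hL.emem p hp).1))
    (Submodule.smul_mem _ _ (lie_LC hI (hL.emem p hp).2))

theorem Hc_LC (hI : LIF H) (hL : LRD H Φ B Hc E) (j : Fin r) : Hc j ∈ LC hI := by
  have h : Hc j = (-Complex.I) • (Complex.I • Hc j) := by
    rw [smul_smul]
    have : -Complex.I * Complex.I = 1 := by
      rw [neg_mul, Complex.I_mul_I, neg_neg]
    rw [this, one_smul]
  rw [h]
  exact Submodule.smul_mem _ _ (lie_LC hI (hL.mem j))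

/-- properties of the complexified involution -/
structure TP (hI : LIF H) (T : Matrix (Fin N) (Fin N) ℂ →ₗ[ℂ] Matrix (Fin N) (Fin N) ℂ) :
    Prop where
  mem : ∀ X ∈ LC hI, T X ∈ LC hI
  br : ∀ X ∈ LC hI, ∀ Y ∈ LC hI, T (X * Y - Y * X) = T X * T Y - T Y * T X
  star : ∀ X ∈ LC hI, T Xᴴ = (T X)ᴴ
  inv : ∀ X ∈ LC hI, T (T X) = X

theorem tp {K : Subgroup (SU N)} {σ : H →* H}
    {τ : Matrix (Fin N) (Fin N) ℂ →ₗ[ℝ] Matrix (Fin N) (Fin N) ℂ} (hI : LIF H)
    (hS : SymP H K σ τ) (hT : TSF H σ τ) : TP hI (TCx τ) := by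
  have hsk : ∀ X ∈ lie H, Xᴴ = -X := fun X hX => (hI.su X hX).1
  have hTl : ∀ X ∈ lie H, TCx τ X = τ X := fun X hX => TCx_skew τ (hsk X hX)
  refine ⟨?_, ?_, ?_, ?_⟩
  · rintro _ ⟨A, hA, C, hC, rfl⟩
    rw [map_add, LinearMap.map_smul, hTl A hA, hTl C hC]
    exact ⟨_, hS.mem A hA, _, hS.mem C hC, rfl⟩
  · rintro _ ⟨A, hA, C, hC, rfl⟩ _ ⟨A', hA', C', hC', rfl⟩
    have e1 : (A + Complex.I • C) * (A' + Complex.I • C') - (A' + Complex.I • C') *
        (A + Complex.I • C) = (A * A' - A' * A) + Complex.I • (A * C' - C' * A) +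
          Complex.I • (C * A' - A' * C) + (Complex.I * Complex.I) • (C * C' - C' * C) := by
      simp only [mul_add, add_mul, smul_mul_assoc, mul_smul_comm, smul_add, smul_sub, smul_smul]
      abel
    have e2 : (TCx τ (A + Complex.I • C)) * (TCx τ (A' + Complex.I • C')) -
        (TCx τ (A' + Complex.I • C')) * (TCx τ (A + Complex.I • C)) =
        (τ A * τ A' - τ A' * τ A) + Complex.I • (τ A * τ C' - τ C' * τ A) +
          Complex.I • (τ C * τ A' - τ A' * τ C) +
            (Complex.I * Complex.I) • (τ C * τ C' - τ C' * τ C) := by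
      rw [map_add, map_add, LinearMap.map_smul, LinearMap.map_smul, hTl A hA, hTl C hC, hTl A' hA',
        hTl C' hC']
      simp only [mul_add, add_mul, smul_mul_assoc, mul_smul_comm, smul_add, smul_sub, smul_smul]
      abel
    rw [e2, e1, map_add, map_add, map_add, LinearMap.map_smul, LinearMap.map_smul,
      LinearMap.map_smul, hTl _ (hI.br A hA A' hA'), hTl _ (hI.br A hA C' hC'),
      hTl _ (hI.br C hC A' hA'), hTl _ (hI.br C hC C' hC'), hT.br A hA A' hA', hT.br A hA C' hC',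
      hT.br C hC A' hA', hT.br C hC C' hC']
  · rintro _ ⟨A, hA, C, hC, rfl⟩
    have e1 : ∀ A C : Matrix (Fin N) (Fin N) ℂ, Aᴴ = -A → Cᴴ = -C →
        (A + Complex.I • C)ᴴ = -A + Complex.I • C := by
      intro A C hA hC
      rw [conjTranspose_add, conjTranspose_smul, hA, hC, Complex.star_def, Complex.conj_I,
        neg_smul, smul_neg, neg_neg]
    rw [e1 A C (hsk A hA) (hsk C hC), map_add, map_add, LinearMap.map_smul, map_neg, hTl A hA,
      hTl C hC, e1 _ _ (hsk _ (hS.mem A hA)) (hsk _ (hS.mem C hC))]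
  · rintro _ ⟨A, hA, C, hC, rfl⟩
    rw [map_add, LinearMap.map_smul, hTl A hA, hTl C hC, map_add, LinearMap.map_smul,
      hTl _ (hS.mem A hA), hTl _ (hS.mem C hC), hT.inv A hA, hT.inv C hC]

theorem main {hI : LIF H} (hL : LRD H Φ B Hc E) (hT : TAF H Φ Hc E)
    {T : Matrix (Fin N) (Fin N) ℂ →ₗ[ℂ] Matrix (Fin N) (Fin N) ℂ} (hP : TP hI T)
    (Y : (Fin r → ℝ) → (Fin r → ℝ)) (hY : ∀ x, T (hx Hc x) = hx Hc (Y x))
    (hsurj : Function.Surjective Y) {p : (Fin r → ℤ) × (Fin r → ℤ)} (hp : p ∈ Φ) :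
    ∃ q ∈ Φ, (T (∑ j, (p.2 j : ℂ) • Hc j) = ∑ j, (q.2 j : ℂ) • Hc j) ∧
      (∀ x, ∑ j, (q.1 j : ℝ) * Y x j = ∑ j, (p.1 j : ℝ) * x j) ∧
      ∃ c : ℂ, c * conj c = 1 ∧ T (E p) = c • E q := by
  obtain ⟨F, hF⟩ : ∃ F, F = T (E p) := ⟨_, rfl⟩
  have hEL := E_LC hI hL hp
  have hEH : (E p)ᴴ ∈ LC hI := by
    rw [← hL.star p hp]
    exact E_LC hI hL (neg_mem hL hp)
  have hFH : Fᴴ = T (E p)ᴴ := by rw [hF, hP.star _ hEL]
  have hF0 : F ≠ 0 := by
    intro h0
    apply E_ne hT hp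
    rw [← hP.inv _ hEL, ← hF, h0, map_zero]
  have hFS : F ∈ SP Φ Hc E := by
    rw [hF]
    exact LC_SP hI hL (hP.mem _ hEL)
  have hlF : ∀ x, hx Hc (Y x) * F - F * hx Hc (Y x) =
      (((∑ j, (p.1 j : ℝ) * x j : ℝ) : ℂ) * Complex.I) • F := by
    intro x
    rw [hF, ← hY x, ← hP.br _ (lie_LC hI (hT.hmem x)) _ hEL, hT.ade p hp x, LinearMap.map_smul]
  have hne : ∃ x : Fin r → ℝ, ∑ j, (p.1 j : ℝ) * x j ≠ 0 := by
    obtain ⟨x, hx⟩ := hT.reg
    exact ⟨x, hx p hp⟩
  obtain ⟨q, hq, hq0, hqx⟩ := eig hI hL hT hFS hF0 Y (fun x => ∑ j, (p.1 j : ℝ) * x j) hlF hne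
  obtain ⟨c, hc⟩ : ∃ c, c = (F * (E q)ᴴ).trace / (E q * (E q)ᴴ).trace := ⟨_, rfl⟩
  have hFc : F = c • E q := by
    by_contra hcon
    have hG0 : F - c • E q ≠ 0 := sub_ne_zero.2 hcon
    have hGS : F - c • E q ∈ SP Φ Hc E :=
      Submodule.sub_mem _ hFS (Submodule.smul_mem _ _ (E_mem Hc E hq))
    have hlG : ∀ x, hx Hc (Y x) * (F - c • E q) - (F - c • E q) * hx Hc (Y x) =
        (((∑ j, (p.1 j : ℝ) * x j : ℝ) : ℂ) * Complex.I) • (F - c • E q) := by
      intro x
      have h1 := hT.ade q hq (Y x)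
      rw [hqx x] at h1
      have h2 : hx Hc (Y x) * (F - c • E q) - (F - c • E q) * hx Hc (Y x) =
          (hx Hc (Y x) * F - F * hx Hc (Y x)) - c • (hx Hc (Y x) * E q - E q * hx Hc (Y x)) := by
        simp only [mul_sub, sub_mul, mul_smul_comm, smul_mul_assoc, smul_sub]
        abel
      rw [h2, hlF x, h1, smul_sub, smul_comm c]
    obtain ⟨q', hq', hq0', hqx'⟩ := eig hI hL hT hGS hG0 Y (fun x => ∑ j, (p.1 j : ℝ) * x j) hlG hne
    have h3 : q'.1 = q.1 := by
      funext k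
      obtain ⟨x, hx⟩ := hsurj (Pi.single k 1)
      have h4 := (hqx' x).trans (hqx x).symm
      rw [hx] at h4
      simp only [Pi.single_apply, mul_ite, mul_one, mul_zero, Finset.sum_ite_eq', Finset.mem_univ,
        if_true] at h4
      exact_mod_cast h4
    have h5 := root_inj hL hq' hq h3
    subst h5
    apply hq0'
    rw [sub_mul, trace_sub, smul_mul_assoc, trace_smul, smul_eq_mul, hc,
      div_mul_cancel₀ _ (tr_ne hT hq), sub_self]
  have hc0 : c ≠ 0 := by
    intro h0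
    rw [h0, zero_smul] at hFc
    exact hF0 hFc
  have hh : T (∑ j, (p.2 j : ℂ) • Hc j) = (c * conj c) • ∑ j, (q.2 j : ℂ) • Hc j := by
    rw [← hL.cor p hp, ← hL.cor q hq, hP.br _ hEL _ hEH, ← hF, ← hFH, hFc,
      conjTranspose_smul, smul_mul_smul_comm, smul_mul_smul_comm, smul_sub, Complex.star_def,
      mul_comm (conj c) c]
  have two : ∀ p ∈ Φ, (∑ j, (p.2 j : ℂ) • Hc j) * E p - E p * (∑ j, (p.2 j : ℂ) • Hc j) =
      (2 : ℂ) • E p := by
    intro p hp
    rw [Finset.sum_mul, Finset.mul_sum, ← Finset.sum_sub_distrib]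
    have h1 : ∀ j ∈ Finset.univ, ((p.2 j : ℂ) • Hc j) * E p - E p * ((p.2 j : ℂ) • Hc j) =
        ((p.2 j : ℂ) * (p.1 j : ℂ)) • E p := by
      intro j _
      rw [smul_mul_assoc, mul_smul_comm, ← smul_sub, hL.ead p hp j, smul_smul]
    rw [Finset.sum_congr rfl h1, ← Finset.sum_smul]
    congr 1
    have h2 := hL.ird.two p hp
    rw [dotProduct] at h2
    exact_mod_cast h2
  have hcc : c * conj c = 1 := by
    have hsum : (∑ j, (p.2 j : ℂ) • Hc j) ∈ LC hI :=
      Submodule.sum_mem _ fun j _ => Submodule.smul_mem _ _ (Hc_LC hI hL j)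
    have h1 := congrArg T (two p hp)
    rw [hP.br _ hsum _ hEL, hh, ← hF, hFc, LinearMap.map_smul, ← hF, hFc,
      smul_mul_smul_comm, smul_mul_smul_comm, mul_comm c (c * conj c),
      ← smul_sub, two q hq, smul_smul, smul_smul] at h1
    have h2 := sub_eq_zero.2 h1
    rw [← sub_smul] at h2
    rcases smul_eq_zero.1 h2 with h3 | h3
    · have h4 : c * (c * conj c - 1) = 0 := by linear_combination h3 / 2
      rcases mul_eq_zero.1 h4 with h5 | h5
      · exact absurd h5 hc0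
      · exact sub_eq_zero.1 h5
    · exact absurd h3 (E_ne hT hq)
  refine ⟨q, hq, ?_, hqx, c, hcc, ?_⟩
  · rw [hh, hcc, one_smul]
  · rw [← hF, hFc]

theorem hx_comm (hL : LRD H Φ B Hc E) (x y : Fin r → ℝ) : hx Hc x * hx Hc y = hx Hc y * hx Hc x := by
  rw [hx, hx, Finset.sum_mul_sum, Finset.sum_mul_sum, Finset.sum_comm]
  refine Finset.sum_congr rfl fun i _ => Finset.sum_congr rfl fun j _ => ?_
  rw [smul_mul_smul_comm, smul_mul_smul_comm, hL.comm j i, mul_comm ((x j : ℂ) * Complex.I)]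

theorem hx_sub (x y : Fin r → ℝ) : hx Hc x - hx Hc y = hx Hc (x - y) := by
  have h := hx_add Hc (x - y) y
  rw [sub_add_cancel] at h
  rw [h, add_sub_cancel_right]

theorem hx_neg (x : Fin r → ℝ) : -hx Hc x = hx Hc (-x) := by
  have h := hx_sub (Hc := Hc) 0 x
  rw [zero_sub] at h
  rw [← h]
  simp [hx]

theorem lie_sub2 (hI : LIF H) {X Y : Matrix (Fin N) (Fin N) ℂ} (hX : X ∈ lie H) (hY : Y ∈ lie H) :
    X - Y ∈ lie H := by
  have h := hI.add X hX _ (hI.smul (-1) Y hY)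
  have e : X + ((-1 : ℝ) : ℂ) • Y = X - Y := by
    push_cast
    rw [neg_smul, one_smul, sub_eq_add_neg]
  rwa [e] at h

end STAU

open STAU LGR.AUTN in
theorem t_STAU : M_STAU := by
  intro hLB _ hTA hTS N H K σ τ A l Φ B Hc E x₀ hcl hSim hS hA hR
  have hI := hLB N H hcl
  have hL := hR.lrd
  have hT := hTA N H l Φ B Hc E hcl hL
  have hts := hTS N H K σ τ hcl hSim hS
  have hP := tp hI hS hts
  have hsk : ∀ X ∈ lie H, Xᴴ = -X := fun X hX => (hI.su X hX).1
  have hTl : ∀ X ∈ lie H, TCx τ X = τ X := fun X hX => TCx_skew τ (hsk X hX)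
  have hYex : ∀ x, ∃ y, τ (hx Hc x) = hx Hc y := by
    intro x
    have hX := hT.hmem x
    have hZl : hx Hc x - τ (hx Hc x) ∈ lie H := lie_sub2 hI hX (hS.mem _ hX)
    have hZA : hx Hc x - τ (hx Hc x) ∈ A := by
      refine hA.max _ hZl ?_ ?_
      · rw [map_sub, hts.inv _ hX]
        abel
      · intro V hV
        obtain ⟨y, rfl⟩ := hR.sub V hV
        have hVl := hA.sub _ hV
        have hb := hts.br _ hX _ (hS.mem _ hVl)
        rw [hts.inv _ hVl, hA.anti _ hV, mul_neg, neg_mul, hx_comm hL x y, sub_neg_eq_add,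
          neg_add_cancel, map_zero] at hb
        rw [sub_mul, mul_sub, hx_comm hL x y, sub_eq_zero.1 hb.symm]
    obtain ⟨y, hy⟩ := hR.sub _ hZA
    refine ⟨x - y, ?_⟩
    rw [← hx_sub, ← hy]
    abel
  choose Y hY0 using hYex
  have hY : ∀ x, TCx τ (hx Hc x) = hx Hc (Y x) := fun x => by rw [hTl _ (hT.hmem x), hY0]
  have hYY : ∀ x, Y (Y x) = x := by
    intro x
    apply hx_inj hL.lin
    rw [← hY0, ← hY0, hts.inv _ (hT.hmem x)]
  have hsurj : Function.Surjective Y := fun x => ⟨Y x, hYY x⟩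
  have key : ∀ p ∈ Φ, ∃ q, q ∈ Φ ∧ (TCx τ (∑ j, (p.2 j : ℂ) • Hc j) = ∑ j, (q.2 j : ℂ) • Hc j) ∧
      (∀ x, ∑ j, (q.1 j : ℝ) * Y x j = ∑ j, (p.1 j : ℝ) * x j) ∧
      ∃ c : ℂ, c * conj c = 1 ∧ TCx τ (E p) = c • E q := by
    intro p hp
    obtain ⟨q, hq, h1, h2, h3⟩ := STAU.main hL hT hP Y hY hsurj hp
    exact ⟨q, hq, h1, h2, h3⟩
  choose! f hf hf2 hf1 hfc using key
  obtain ⟨θ, hθ⟩ : ∃ θ : Matrix (Fin l) (Fin l) ℤ, θ = fun i j => (f (B j, Pi.single j 1)).2 i :=
    ⟨_, rfl⟩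
  have hTj : ∀ j, TCx τ (Hc j) = ∑ i, (θ i j : ℂ) • Hc i := by
    intro j
    have h1 := hf2 _ (hL.ird.base j)
    rw [hθ, ← h1]
    congr 1
    rw [Finset.sum_eq_single j]
    · simp
    · intro b _ hb
      simp [hb]
    · intro hj
      exact absurd (Finset.mem_univ j) hj
  have gen : ∀ a : Fin l → ℂ, TCx τ (∑ j, a j • Hc j) = ∑ i, (∑ j, (θ i j : ℂ) * a j) • Hc i := by
    intro a
    rw [map_sum]
    calc ∑ j, TCx τ (a j • Hc j) = ∑ j, ∑ i, ((θ i j : ℂ) * a j) • Hc i := by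
          refine Finset.sum_congr rfl fun j _ => ?_
          rw [LinearMap.map_smul, hTj, Finset.smul_sum]
          refine Finset.sum_congr rfl fun i _ => ?_
          rw [smul_smul, mul_comm]
      _ = ∑ i, (∑ j, (θ i j : ℂ) * a j) • Hc i := by
          rw [Finset.sum_comm]
          refine Finset.sum_congr rfl fun i _ => ?_
          rw [Finset.sum_smul]
  have hform : ∀ x : Fin l → ℝ, TCx τ (hx Hc x) = hx Hc (fun i => ∑ j, (θ i j : ℝ) * x j) := by
    intro x
    rw [hx, gen, hx]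
    refine Finset.sum_congr rfl fun i _ => ?_
    congr 1
    push_cast
    rw [Finset.sum_mul]
    refine Finset.sum_congr rfl fun j _ => ?_
    ring
  have hYf : ∀ x, Y x = fun i => ∑ j, (θ i j : ℝ) * x j := by
    intro x
    apply hx_inj hL.lin
    rw [← hY, hform]
  have hco : ∀ p ∈ Φ, (f p).2 = θ *ᵥ p.2 := by
    intro p hp
    funext i
    have h1 := hf2 p hp
    rw [gen] at h1
    have h2 : ∑ j, ((fun i => (((θ *ᵥ p.2) i : ℤ) : ℝ)) j : ℂ) • Hc j =
        ∑ j, ((fun i => (((f p).2 i : ℤ) : ℝ)) j : ℂ) • Hc j := by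
      have h3 : ∑ j, ((fun i => (((f p).2 i : ℤ) : ℝ)) j : ℂ) • Hc j = ∑ j, ((f p).2 j : ℂ) • Hc j := by
        refine Finset.sum_congr rfl fun j _ => ?_
        congr 1
      rw [h3, ← h1]
      refine Finset.sum_congr rfl fun j _ => ?_
      congr 1
      simp only [mulVec, dotProduct]
      push_cast
      rfl
    have h4 : (((θ *ᵥ p.2) i : ℤ) : ℝ) = (((f p).2 i : ℤ) : ℝ) := congrFun (lin_inj hL.lin h2) i
    exact_mod_cast h4.symm
  have hdz : ∀ (μ : Fin l → ℤ) (x : Fin l → ℝ), dz (θᵀ *ᵥ μ) x = dz μ (Y x) := by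
    intro μ x
    rw [hYf, dz, dz]
    simp only [mulVec, dotProduct, transpose_apply]
    push_cast
    simp only [Finset.sum_mul, Finset.mul_sum]
    rw [Finset.sum_comm]
    refine Finset.sum_congr rfl fun i _ => Finset.sum_congr rfl fun j _ => ?_
    ring
  have hdzs : ∀ (μ : Fin l → ℤ) (k : Fin l), dz μ (Pi.single k 1) = μ k := by
    intro μ k
    rw [dz]
    simp [Pi.single_apply]
  have hro : ∀ p ∈ Φ, (f p).1 = θᵀ *ᵥ p.1 := by
    intro p hp
    funext k
    have h1 := hf1 p hp (Y (Pi.single k 1))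
    rw [hYY] at h1
    have h2 : dz (f p).1 (Pi.single k 1) = dz p.1 (Y (Pi.single k 1)) := h1
    rw [← hdz, hdzs, hdzs] at h2
    exact_mod_cast h2
  have hfp : ∀ p ∈ Φ, f p = (θᵀ *ᵥ p.1, θ *ᵥ p.2) := fun p hp => Prod.ext (hro p hp) (hco p hp)
  have htc : ∀ p ∈ Φ, ∃ c : ℂ, c * conj c = 1 ∧ tcx τ (E p) = c • E (θᵀ *ᵥ p.1, θ *ᵥ p.2) := by
    intro p hp
    rw [← hfp p hp]
    exact hfc p hp
  have hAiff : ∀ x, hx Hc x ∈ A ↔ ∀ i, ∑ j, (θ i j : ℝ) * x j = -x i := by
    intro x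
    constructor
    · intro h
      have h1 : hx Hc (Y x) = hx Hc (-x) := by
        rw [← hY0, hA.anti _ h, hx_neg]
      have h2 := hx_inj hL.lin h1
      rw [hYf] at h2
      exact fun i => congrFun h2 i
    · intro h
      refine hA.max _ (hT.hmem x) ?_ ?_
      · rw [hY0, hx_neg]
        congr 1
        rw [hYf]
        funext i
        exact h i
      · intro V hV
        obtain ⟨y, rfl⟩ := hR.sub V hV
        exact hx_comm hL x y
  refine ⟨θ, ?_, ?_, hAiff, ?_, ?_, ?_, ?_⟩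
  · intro x
    rw [hY0, hYf]
  · ext i k
    have h1 := hYY (Pi.single k 1)
    have h2 := congrFun h1 i
    rw [hYf, hYf] at h2
    simp only [Pi.single_apply, mul_ite, mul_one, mul_zero, Finset.sum_ite_eq', Finset.mem_univ,
      if_true] at h2
    rw [Matrix.mul_apply, Matrix.one_apply]
    exact_mod_cast h2
  · intro p hp
    rw [← hfp p hp]
    exact hf p hp
  · intro p hp
    obtain ⟨c, hc, h⟩ := htc p hp
    refine ⟨c, ?_, h⟩
    rw [Complex.mul_conj, Complex.normSq_eq_norm_sq] at hc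
    have h2 : ‖c‖ ^ 2 = 1 := by exact_mod_cast hc
    nlinarith [norm_nonneg c]
  · intro p hp h0
    have hvan := hR.x0r p hp h0
    have hsame : ∀ x, dz p.1 (Y x) = dz p.1 x := by
      intro x
      have h1 : hx Hc (x - Y x) ∈ A := by
        refine hA.max _ (hT.hmem _) ?_ ?_
        · rw [hY0, hx_neg]
          congr 1
          have h2 : Y (x - Y x) = Y x - Y (Y x) := by
            apply hx_inj hL.lin
            rw [← hY0, ← hx_sub, map_sub, hY0, hY0, hx_sub]
          rw [h2, hYY, neg_sub]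
        · intro V hV
          obtain ⟨y, rfl⟩ := hR.sub V hV
          exact hx_comm hL _ y
      have h2 := hvan _ h1
      have h3 : dz p.1 (x - Y x) = dz p.1 x - dz p.1 (Y x) := by
        rw [dz, dz, dz, ← Finset.sum_sub_distrib]
        refine Finset.sum_congr rfl fun i _ => ?_
        simp only [Pi.sub_apply]
        ring
      rw [h3] at h2
      linarith
    have hp1 : θᵀ *ᵥ p.1 = p.1 := by
      funext k
      have h1 := hsame (Pi.single k 1)
      rw [← hdz, hdzs, hdzs] at h1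
      exact_mod_cast h1
    have hfpp : f p = p := root_inj hL (hf p hp) hp ((hro p hp).trans hp1)
    have hp2 : θ *ᵥ p.2 = p.2 := by rw [← hco p hp, hfpp]
    refine ⟨hp1, hp2, ?_⟩
    obtain ⟨c, hc, h⟩ := hfc p hp
    rw [hfpp] at h
    have hc2 : c * c = 1 := by
      have h1 := hP.inv _ (E_LC hI hL hp)
      rw [h, LinearMap.map_smul, h, smul_smul] at h1
      have h2 : (c * c - 1) • E p = 0 := by rw [sub_smul, h1, one_smul, sub_self]
      rcases smul_eq_zero.1 h2 with h3 | h3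
      · exact sub_eq_zero.1 h3
      · exact absurd h3 (E_ne hT hp)
    have hc3 : (c - 1) * (c + 1) = 0 := by linear_combination hc2
    rcases mul_eq_zero.1 hc3 with h3 | h3
    · rw [← TCx_apply, h, sub_eq_zero.1 h3, one_smul]
    · exfalso
      have hcm : c = -1 := eq_neg_of_add_eq_zero_left h3
      rw [hcm, neg_smul, one_smul] at h
      have hEl := (hL.emem p hp).1
      have hEA : E p - (E p)ᴴ ∈ A := by
        refine hA.max _ hEl ?_ ?_
        · rw [← hTl _ hEl, map_sub, hP.star _ (E_LC hI hL hp), h, conjTranspose_neg]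
          abel
        · intro V hV
          obtain ⟨y, rfl⟩ := hR.sub V hV
          have h4 := hT.ade p hp y
          have h5 : ∑ j, (p.1 j : ℝ) * y j = 0 := hvan y hV
          rw [h5] at h4
          simp only [Complex.ofReal_zero, zero_mul, zero_smul] at h4
          have h6 := congrArg conjTranspose h4
          rw [conjTranspose_sub, conjTranspose_mul, conjTranspose_mul, hsk _ (hT.hmem y),
            conjTranspose_zero, mul_neg, neg_mul, sub_neg_eq_add, neg_add_eq_sub] at h6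
          rw [sub_mul, mul_sub, sub_eq_zero.1 h4, sub_eq_zero.1 h6]
      obtain ⟨y, hy⟩ := hR.sub _ hEA
      have h7 := congrArg (fun M => (M * (E p)ᴴ).trace) hy
      simp only [sub_mul, trace_sub] at h7
      have h8 : ((E p)ᴴ * (E p)ᴴ).trace = 0 := by
        have h9 : ((E p)ᴴ * (E p)ᴴ) = (E p * E p)ᴴ := by rw [conjTranspose_mul]
        have h10 : (E p * (E (-p.1, -p.2))ᴴ).trace = 0 := by
          refine hT.orth p hp _ (neg_mem hL hp) ?_
          intro h11
          have h12 : p.1 = -p.1 := congrArg Prod.fst h11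
          have h13 := hL.ird.two p hp
          have h14 : p.1 = 0 := by
            funext i
            have := congrFun h12 i
            simp only [Pi.neg_apply] at this
            simp only [Pi.zero_apply]
            omega
          rw [h14] at h13
          simp at h13
        rw [hL.star p hp, conjTranspose_conjTranspose] at h10
        rw [h9, trace_conjTranspose, h10, star_zero]
      have h9 : (hx Hc y * (E p)ᴴ).trace = 0 := by
        rw [hx, Finset.sum_mul, trace_sum]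
        refine Finset.sum_eq_zero fun j _ => ?_
        rw [smul_mul_assoc, trace_smul, trH hL hT hp, smul_zero]
      rw [h8, h9, sub_zero] at h7
      exact tr_ne hT hp h7
  · intro p hp
    rw [hdz]
    have h1 := (hAiff x₀).1 hR.x0A
    have h2 : Y x₀ = -x₀ := by
      rw [hYf]
      funext i
      exact h1 i
    rw [h2, dz, dz, ← Finset.sum_neg_distrib]
    refine Finset.sum_congr rfl fun i _ => ?_
    simp only [Pi.neg_apply]
    ring

end

end SYM
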