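import Pool.Agent.SYM.StZ
import Pool.Agent.STZ.STRX

/-!
# Module STRS: assembly of the upper bound for a symmetric space with given kernels
-/

set_option autoImplicit false

namespace SYM

open STZ LGR MeasureTheory Matrix Filter

open scoped ComplexConjugate Matrix Real Topology

noncomputable section

namespace STRS

/-- the weight of the index -/
theorem wG_sub {r : ℕ} (m : Fin r → ℕ) : wG m - 1 = fun j => (m j : ℤ) := by
  funext j
  simp [wG]

/-- the comparison of the size and of the quadratic form -/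
theorem cmp {l r : ℕ} {Φ : RT l} {B : Matrix (Fin l) (Fin l) ℤ} {θ : Matrix (Fin l) (Fin l) ℤ} {x₀ : Fin l → ℝ}
    {s : Fin r → Fin l} {ε : Fin r → Fin l → ℤ} (hw : WFF Φ B) (O : SO Φ θ x₀ s ε) {c : ℝ} (hc : 0 < c)
    (hq : ∀ v : Fin l → ℤ, c * (sz v - 1) ^ 2 ≤ (rd Φ).Q v) (m : Fin r → ℕ) :
    c * (∑ j, (m j : ℝ)) ^ 2 ≤ (QZ Φ ε (fun j => (m j : ℤ)) : ℝ) - (rd Φ).Q 1 := by
  set ν : Fin l → ℤ := ∑ j, (m j : ℤ) • ε j with hν
  have hν0 : ∀ i, 0 ≤ ν i := by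
    intro i
    rw [hν, Finset.sum_apply]
    refine Finset.sum_nonneg fun j _ => ?_
    rw [Pi.smul_apply, smul_eq_mul]
    refine mul_nonneg (by positivity) ?_
    rcases O.e01 j i with h | h <;> rw [h]
    norm_num
  have hsinj : Function.Injective s := by
    intro i i' h
    by_contra hne
    have h1 := O.sj i i
    have h2 := O.sj i' i
    rw [h, h2, if_pos rfl, if_neg (Ne.symm hne)] at h1
    exact absurd h1 (by norm_num)
  have hνs : ∀ i, ν (s i) = m i := by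
    intro i
    rw [hν, Finset.sum_apply, Finset.sum_eq_single i]
    · rw [Pi.smul_apply, O.sj, if_pos rfl, smul_eq_mul, mul_one]
    · intro j _ hj
      rw [Pi.smul_apply, O.sj, if_neg (Ne.symm hj), smul_zero]
    · intro h
      exact absurd (Finset.mem_univ i) h
  have h1 : ∑ j, (m j : ℝ) ≤ sz ν - 1 := by
    have h2 : sz ν - 1 = ∑ i, |(ν i : ℝ)| := by
      unfold sz
      ring
    rw [h2]
    calc ∑ j, (m j : ℝ) = ∑ j, |(ν (s j) : ℝ)| := by
          refine Finset.sum_congr rfl fun j _ => ?_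
          rw [hνs j, Int.cast_natCast, abs_of_nonneg (Nat.cast_nonneg _)]
      _ = ∑ i ∈ Finset.univ.image s, |(ν i : ℝ)| := by
          rw [Finset.sum_image fun _ _ _ _ h => hsinj h]
      _ ≤ ∑ i, |(ν i : ℝ)| :=
          Finset.sum_le_sum_of_subset_of_nonneg (Finset.subset_univ _) fun _ _ _ => abs_nonneg _
  have h0 : 0 ≤ ∑ j, (m j : ℝ) := Finset.sum_nonneg fun _ _ => Nat.cast_nonneg _
  have h2 : c * (∑ j, (m j : ℝ)) ^ 2 ≤ c * (sz ν - 1) ^ 2 :=
    mul_le_mul_of_nonneg_left (pow_le_pow_left₀ h0 h1 2) hc.le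
  have h3 : (rd Φ).Q ν + (rd Φ).Q 1 ≤ QZ Φ ε (fun j => (m j : ℤ)) := by
    unfold QZ rd
    simp only
    rw [← hν, ← Finset.sum_add_distrib]
    refine Finset.sum_le_sum fun p hp => ?_
    have h4 := (hw.ppos p hp).2.1
    have h5 : 0 ≤ p.2 ⬝ᵥ ν := Finset.sum_nonneg fun i _ => mul_nonneg (h4 i) (hν0 i)
    have h6 : 0 ≤ p.2 ⬝ᵥ (1 : Fin l → ℤ) := by
      refine Finset.sum_nonneg fun i _ => mul_nonneg (h4 i) ?_
      simp
    rw [dotProduct_add]
    nlinarith [mul_nonneg h5 h6]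
  have h4 : ((rd Φ).Q ν : ℝ) + (rd Φ).Q 1 ≤ QZ Φ ε (fun j => (m j : ℤ)) := by exact_mod_cast h3
  linarith [hq ν]

end STRS

open STRS

open STZ.STRX in
theorem t_STRS : M_STRS := by
  intro hNQ hKB _ _ hWF hQU hALLX N H K σ τ A l Φ B Hc E x₀ θ r s ε Dt hr2 c k D hKC hfr μ _ _ νK _ _ hK KM hSP
    hloc p hp a b hab
  have hcpt : CompactSpace H := isCompact_iff_compactSpace.1 Dt.closed.isCompact
  have h2c : SecondCountableTopology H := TopologicalSpace.Subtype.secondCountableTopology _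
  have hw : WFF Φ B := hWF l Φ B Dt.sr.lrd.ird
  obtain ⟨-, -, -, -, -, ⟨c1, hc1, hpd⟩, -⟩ := hQU l Φ B Dt.sr.lrd.ird hw
  have hcmp := fun m => cmp hw Dt.so hc1 (fun v => (hpd v).1) m
  have hker := hSP.ker
  have hr0 : (0 : ℝ) < r := by
    have h1 : (2 : ℝ) ≤ r := by exact_mod_cast hr2
    linarith
  set n : ℝ := ((PA Φ x₀).card : ℝ) with hn
  have he0 : (0 : ℝ) ≤ n := Nat.cast_nonneg _
  have h4 : 0 < 4 / (r : ℝ) := by positivity
  have hp0 : 0 < p := by linarith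
  have hAX := hALLX H μ (SL (H := H) K σ Φ Hc E ε) KM r n (fun i => wG i.1) (fun w => -QZ Φ ε (w - 1))
    (2 + 4 / (r : ℝ)) he0 (by linarith) hloc p hp
  have hse : 0 ≤ ((r : ℝ) + n) / 2 - (r + n + 2) / p := by
    rw [sub_nonneg, div_le_div_iff₀ hp0 (by norm_num : (0 : ℝ) < 2)]
    have h1 : (2 + 4 / (r : ℝ)) * (r + n) ≤ (r + n) * p := by
      rw [mul_comm ((r : ℝ) + n) p]
      exact mul_le_mul_of_nonneg_right hp.le (by positivity)
    have h3 : 4 ≤ 4 / (r : ℝ) * (r + n) := by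
      rw [mul_add, div_mul_cancel₀ _ hr0.ne']
      have : 0 ≤ 4 / (r : ℝ) * n := by positivity
      linarith
    nlinarith
  have hkpos := hKC.kpos
  have hQ : ∀ m : Fin r → ℕ, 0 ≤ (QZ Φ ε (wG m - 1) : ℝ) - (rd Φ).Q 1 := by
    intro m
    rw [wG_sub]
    exact le_trans (by positivity) (hcmp m)
  have hk1 : ∀ m : Fin r → ℕ, 0 ≤ k * (((QZ Φ ε (wG m - 1) : ℤ) : ℝ) - (rd Φ).Q 1) := fun m =>
    mul_nonneg hkpos.le (hQ m)
  set C1 : ℝ := 2 * (1 + r) ^ 2 + 2 / (k * c1) with hC1def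
  have hC10 : 0 ≤ C1 := by positivity
  have hC1 : ∀ m : Fin r → ℕ, sz (wG m) ^ 2 ≤ C1 * (1 + k * (((QZ Φ ε (wG m - 1) : ℤ) : ℝ) - (rd Φ).Q 1)) := by
    intro m
    have h1 := hcmp m
    rw [← wG_sub] at h1
    set t : ℝ := ∑ j, (m j : ℝ) with ht
    set Y : ℝ := ((QZ Φ ε (wG m - 1) : ℤ) : ℝ) - (rd Φ).Q 1 with hY
    have ht0 : 0 ≤ t := Finset.sum_nonneg fun _ _ => Nat.cast_nonneg _
    have h2 : sz (wG m) = 1 + r + t := by
      unfold sz wG
      have h3 : ∀ i, |(((m i : ℤ) + 1 : ℤ) : ℝ)| = (m i : ℝ) + 1 := by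
        intro i
        push_cast
        exact abs_of_nonneg (by positivity)
      rw [Finset.sum_congr rfl fun i _ => h3 i, Finset.sum_add_distrib, Finset.sum_const, Finset.card_univ,
        Fintype.card_fin, nsmul_eq_mul, mul_one, ht]
      ring
    have hY0 : 0 ≤ Y := hQ m
    have h3 : t ^ 2 ≤ 1 / (k * c1) * (k * Y) := by
      have h4 : 1 / (k * c1) * (k * Y) = Y / c1 := by
        field_simp
      rw [h4, le_div_iff₀ hc1]
      linarith
    have hkY : 0 ≤ k * Y := by positivity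
    have h5 : 0 ≤ 1 / (k * c1) := by positivity
    have h6 : C1 = 2 * (1 + (r : ℝ)) ^ 2 + 2 * (1 / (k * c1)) := by
      rw [hC1def]
      ring
    rw [h2, h6]
    have h7 : (1 + (r : ℝ) + t) ^ 2 ≤ 2 * (1 + r) ^ 2 + 2 * t ^ 2 := by nlinarith [sq_nonneg (1 + (r : ℝ) - t)]
    have h8 : 0 ≤ (1 + (r : ℝ)) ^ 2 * (k * Y) := by positivity
    nlinarith
  have hK' := core hNQ hKB H μ (SL (H := H) K σ Φ Hc E ε) KM r n (fun i => wG i.1) hker
    (fun w => QZ Φ ε (w - 1)) k hkpos ((rd Φ).Q 1 : ℝ) C1 (fun i => hk1 i.1) (fun i => hC1 i.1) hC10 p hp0 hse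
    a b hab hAX
  obtain ⟨C0, hC0⟩ := hK'
  refine ⟨max C0 0, ?_⟩
  intro X hX κ f hκ hf hfK hs u hu hlim
  have hXF := hfr X hX
  choose S hS1 hS2 using fun j => hSP.eig X hXF (κ j) (f j) (hf j) (hfK j)
  have hfc : ∀ j, Continuous (f j) := fun j => (hf j).1.1.cont
  have hS1' : ∀ j, ∀ i ∈ S j, κ j = k * (((QZ Φ ε (wG i.1 - 1) : ℤ) : ℝ) - (rd Φ).Q 1) := by
    intro j i hi
    rw [wG_sub]
    exact hS1 j i hi
  have hexp : ((r : ℝ) + n) / 2 - (r + n + 2) / p =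
      ((r + (PA Φ x₀).card : ℕ) : ℝ) / 2 - (((r + (PA Φ x₀).card : ℕ) : ℝ) + 2) / p := by
    push_cast
    rfl
  have hwt : ∀ j, 0 ≤ (1 + κ j) ^ (((r + (PA Φ x₀).card : ℕ) : ℝ) / 2 - (((r + (PA Φ x₀).card : ℕ) : ℝ) + 2) / p) *
      ∫ g, ‖f j g‖ ^ 2 ∂μ := by
    intro j
    by_cases h : (S j).Nonempty
    · obtain ⟨i, hi⟩ := h
      refine mul_nonneg (Real.rpow_nonneg ?_ _) (integral_nonneg fun _ => by positivity)
      rw [hS1' j i hi]
      linarith [hk1 i.1]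
    · rw [Finset.not_nonempty_iff_eq_empty] at h
      have h1 : f j = 0 := by
        rw [← hS2 j, h]
        funext y
        simp [Pr]
      rw [h1]
      simp
  refine FING.all_data μ _ p hp0 a b hab (max C0 0) (le_max_right _ _) κ f hfc hwt hs ?_ u hu hlim
  intro M
  have h1 := hC0 M (fun j => κ j) (fun j => f j) (fun j => S j)
    (fun i j hij => Fin.ext (hκ hij)) (fun j => hfc j) (fun j => hS1' j) (fun j => hS2 j)
  rw [hexp] at h1
  refine h1.trans ?_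
  refine mul_le_mul_of_nonneg_right (le_max_left _ _) (Real.rpow_nonneg ?_ _)
  exact Finset.sum_nonneg fun j _ => hwt j

end

end SYM
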