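import Pool.Agent.SYM.StT
import Pool.Agent.STZ.TTX

/-!
# Module TTA: the `T T*` reduction
-/

set_option autoImplicit false
set_option linter.unusedSectionVars false

namespace SYM

open STZ LGR MeasureTheory Matrix Filter Set

open scoped ComplexConjugate Matrix Real Topology

noncomputable section

open STZ.TTX in
theorem t_TTA : M_TTA := by
  intro hKB M _ _ _ _ _ _ μ _ ι K hK φ F T η hFT hη0 hη1 u hu G hG
  have B := hKB M μ ι K hK
  have hGt : ∀ t, Continuous (G t) := sec' hG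
  have hvc : ∀ a, Continuous (vt (φ a) G) := fun a => vt_cont hG (φ a)
  -- first step: the pairing
  have h1 : ∫ t in (0 : ℝ)..1, ∫ x, conj (G t x) * ∑ a ∈ F, eu (t * φ a) * u a x ∂μ =
      ∑ a ∈ F, ∫ x, conj (vt (φ a) G x) * u a x ∂μ := by
    have hc : ∀ a ∈ F, Continuous fun z : ℝ × M =>
        conj (G z.1 z.2) * (eu (z.1 * φ a) * u a z.2) := by
      intro a ha
      refine (Complex.continuous_conj.comp hG).mul
        (Continuous.mul (eu_cont.comp (by fun_prop)) ((hu a ha).1.comp continuous_snd))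
    have h2 : ∀ t, ∫ x, conj (G t x) * ∑ a ∈ F, eu (t * φ a) * u a x ∂μ =
        ∑ a ∈ F, ∫ x, conj (G t x) * (eu (t * φ a) * u a x) ∂μ := by
      intro t
      rw [← integral_finsetSum]
      · refine integral_congr_ae (Filter.Eventually.of_forall fun x => ?_)
        simp only
        rw [Finset.mul_sum]
      · intro a ha
        exact integ μ ((hc a ha).comp (f := fun x : M => (t, x)) (by fun_prop))
    simp only [h2]
    rw [intervalIntegral.integral_finsetSum]
    · refine Finset.sum_congr rfl fun a ha => ?_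
      exact pair μ hG (φ a) (hu a ha).1
    · intro a ha
      refine Continuous.intervalIntegrable ?_ _ _
      exact par μ (f := fun (t : ℝ) (x : M) => conj (G t x) * (eu (t * φ a) * u a x)) (hc a ha)
  rw [h1]
  -- second step: Cauchy-Schwarz
  have h2 : ∀ a ∈ F, ‖∫ x, conj (vt (φ a) G x) * u a x ∂μ‖ ≤
      √(nsq μ (u a)) * √(nsq μ (Pr μ K {a} (vt (φ a) G))) := by
    intro a ha
    have h3 := B.adj {a} (u a) (vt (φ a) G) (hu a ha).1 (hvc a)
    rw [B.fix {a} a (u a) (Finset.mem_singleton_self a) (hu a ha)] at h3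
    rw [← h3]
    exact cs μ (hu a ha).1 (B.cont {a} _ (hvc a))
  have hn0 : ∀ w : M → ℂ, 0 ≤ nsq μ w := fun w => integral_nonneg fun x => by positivity
  have h3 : ‖∑ a ∈ F, ∫ x, conj (vt (φ a) G x) * u a x ∂μ‖ ^ 2 ≤
      (∑ a ∈ F, nsq μ (u a)) * ∑ a ∈ F, nsq μ (Pr μ K {a} (vt (φ a) G)) := by
    have h4 : ‖∑ a ∈ F, ∫ x, conj (vt (φ a) G x) * u a x ∂μ‖ ≤
        √(∑ a ∈ F, nsq μ (u a)) * √(∑ a ∈ F, nsq μ (Pr μ K {a} (vt (φ a) G))) :=
      ((norm_sum_le _ _).trans (Finset.sum_le_sum h2)).trans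
        (Real.sum_sqrt_mul_sqrt_le F (fun a => hn0 _) (fun a => hn0 _))
    have h5 := pow_le_pow_left₀ (norm_nonneg _) h4 2
    rw [mul_pow, Real.sq_sqrt (Finset.sum_nonneg fun a _ => hn0 _),
      Real.sq_sqrt (Finset.sum_nonneg fun a _ => hn0 _)] at h5
    exact h5
  have h3' : ∑ a ∈ F, nsq μ (Pr μ K {a} (vt (φ a) G)) ≤
      ∑ a ∈ T, η a * nsq μ (Pr μ K {a} (vt (φ a) G)) := by
    refine (Finset.sum_le_sum (g := fun a => η a * nsq μ (Pr μ K {a} (vt (φ a) G)))
      fun a ha => ?_).trans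
      (Finset.sum_le_sum_of_subset_of_nonneg hFT fun a ha _ => mul_nonneg (hη0 a ha) (hn0 _))
    exact le_mul_of_one_le_left (hn0 _) (hη1 a ha)
  -- third step: the kernel
  have hinn : ∀ {f : ℝ → ℝ → ℂ}, Continuous (fun z : ℝ × ℝ => f z.1 z.2) →
      Continuous fun t => ∫ s in (0 : ℝ)..1, f t s := by
    intro f hf
    exact intervalIntegral.continuous_parametric_intervalIntegral_of_continuous'
      (f := fun (t s : ℝ) => f t s) hf 0 1
  have h4 : ((∑ a ∈ T, η a * nsq μ (Pr μ K {a} (vt (φ a) G)) : ℝ) : ℂ) =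
      JJ μ (fun t x y => ∑ a ∈ T, (η a : ℂ) * (eu (t * φ a) * K a x y)) G := by
    have h5 : ∀ a ∈ T, ((η a * nsq μ (Pr μ K {a} (vt (φ a) G)) : ℝ) : ℂ) =
        ∫ t in (0 : ℝ)..1, ∫ s in (0 : ℝ)..1,
          (η a : ℂ) * (eu ((t - s) * φ a) * bf μ (K a) (G s) (G t)) := by
      intro a _
      simp only [intervalIntegral.integral_const_mul]
      rw [← bf_vt μ (hK.cont a) hG (φ a), Complex.ofReal_mul,
        ← B.inn {a} (vt (φ a) G) (hvc a)]
      unfold bf Pr
      simp only [Finset.sum_singleton]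
    have hKc : ∀ a, Continuous fun z : ℝ × ℝ =>
        (η a : ℂ) * (eu ((z.1 - z.2) * φ a) * bf μ (K a) (G z.2) (G z.1)) := by
      intro a
      refine continuous_const.mul (Continuous.mul (eu_cont.comp (by fun_prop)) ?_)
      refine bf_cont μ (X := ℝ × ℝ) (k := fun _ => K a) (u := fun z => G z.2)
        (v := fun z => G z.1) ?_ ?_ ?_
      · exact (hK.cont a).comp (f := fun z : (ℝ × ℝ) × M × M => (z.2.1, z.2.2)) (by fun_prop)
      · exact Continuous.comp (g := fun z : ℝ × M => G z.1 z.2) hG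
          (f := fun z : (ℝ × ℝ) × M => (z.1.2, z.2)) (by fun_prop)
      · exact Continuous.comp (g := fun z : ℝ × M => G z.1 z.2) hG
          (f := fun z : (ℝ × ℝ) × M => (z.1.1, z.2)) (by fun_prop)
    rw [Complex.ofReal_sum, Finset.sum_congr rfl h5, ← intervalIntegral.integral_finsetSum]
    · unfold JJ
      refine intervalIntegral.integral_congr fun t _ => ?_
      rw [← intervalIntegral.integral_finsetSum]
      · refine intervalIntegral.integral_congr fun s _ => ?_
        have h6' : ∑ a ∈ T, (η a : ℂ) * (eu ((t - s) * φ a) * bf μ (K a) (G s) (G t)) =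
            ∑ a ∈ T, ((η a : ℂ) * eu ((t - s) * φ a)) * bf μ (K a) (G s) (G t) :=
          Finset.sum_congr rfl fun a _ => by ring
        have h6 : (fun x y => ∑ a ∈ T, ((η a : ℂ) * eu ((t - s) * φ a)) * K a x y) =
            fun x y => ∑ a ∈ T, (η a : ℂ) * (eu ((t - s) * φ a) * K a x y) := by
          funext x y
          exact Finset.sum_congr rfl fun a _ => by ring
        show ∑ a ∈ T, (η a : ℂ) * (eu ((t - s) * φ a) * bf μ (K a) (G s) (G t)) =
          bf μ (fun x y => ∑ a ∈ T, (η a : ℂ) * (eu ((t - s) * φ a) * K a x y)) (G s) (G t)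
        rw [h6', ← bf_sum μ T (fun a => (η a : ℂ) * eu ((t - s) * φ a)) K (fun a _ => hK.cont a)
          (hGt s) (hGt t), h6]
      · intro a _
        exact ((hKc a).comp (f := fun s : ℝ => (t, s)) (by fun_prop)).intervalIntegrable _ _
    · intro a _
      exact (hinn (hKc a)).intervalIntegrable _ _
  have h7 : ∑ a ∈ T, η a * nsq μ (Pr μ K {a} (vt (φ a) G)) =
      ‖JJ μ (fun t x y => ∑ a ∈ T, (η a : ℂ) * (eu (t * φ a) * K a x y)) G‖ := by
    rw [← h4, Complex.norm_real, Real.norm_of_nonneg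
      (Finset.sum_nonneg fun a ha => mul_nonneg (hη0 a ha) (hn0 _))]
  refine h3.trans (mul_le_mul_of_nonneg_left ?_ (Finset.sum_nonneg fun a _ => hn0 _))
  rw [← h7]
  exact h3'

end

end SYM
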