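import Pool.Agent.SYM.StU

/-!
# Module VARC: arcs in time
-/

namespace SYM

open STZ LGR MeasureTheory Matrix Filter

open scoped ComplexConjugate Matrix Real Topology

noncomputable section

namespace VARC

/-! ### the arcs -/

lemma open_ar (X₀ X : ℕ) (P : ℝ) : IsOpen (ar X₀ X P) := by
  have h : ar X₀ X P = ⋃ ρ : ℚ, {t : ℝ | X₀ < ρ.den ∧ ρ.den ≤ X ∧ |t - ρ| < P / ρ.den} := by
    ext t
    simp [ar]
  rw [h]
  refine isOpen_iUnion fun ρ => ?_
  by_cases h1 : X₀ < ρ.den ∧ ρ.den ≤ X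
  · have h2 : {t : ℝ | X₀ < ρ.den ∧ ρ.den ≤ X ∧ |t - ρ| < P / ρ.den} = {t : ℝ | |t - ρ| < P / ρ.den} := by
      ext t
      simp [h1.1, h1.2]
    rw [h2]
    exact isOpen_lt (by fun_prop) continuous_const
  · have h2 : {t : ℝ | X₀ < ρ.den ∧ ρ.den ≤ X ∧ |t - ρ| < P / ρ.den} = ∅ := by
      ext t
      simp only [Set.mem_ofPred_eq, Set.mem_empty_iff_false, iff_false]
      intro h3
      exact h1 ⟨h3.1, h3.2.1⟩
    rw [h2]
    exact isOpen_empty

lemma meas_ar (X₀ X : ℕ) (P : ℝ) : MeasurableSet (ar X₀ X P) := (open_ar X₀ X P).measurableSet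

lemma ar_add (X₀ X : ℕ) (P : ℝ) (t : ℝ) : t ∈ ar X₀ X P → t + 1 ∈ ar X₀ X P := by
  rintro ⟨ρ, h1, h2, h3⟩
  have hd : (ρ + 1).den = ρ.den := by
    have := Rat.add_intCast_den ρ 1
    rw [Int.cast_one] at this
    exact this
  refine ⟨ρ + 1, by rw [hd]; exact h1, by rw [hd]; exact h2, ?_⟩
  rw [hd]
  have h4 : t + 1 - ((ρ + 1 : ℚ) : ℝ) = t - ρ := by
    push_cast
    ring
  rw [h4]
  exact h3

lemma ar_sub (X₀ X : ℕ) (P : ℝ) (t : ℝ) : t + 1 ∈ ar X₀ X P → t ∈ ar X₀ X P := by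
  rintro ⟨ρ, h1, h2, h3⟩
  have hd : (ρ - 1).den = ρ.den := by
    have := Rat.add_intCast_den ρ (-1)
    simpa [sub_eq_add_neg] using this
  refine ⟨ρ - 1, by rw [hd]; exact h1, by rw [hd]; exact h2, ?_⟩
  rw [hd]
  have h4 : t - ((ρ - 1 : ℚ) : ℝ) = t + 1 - ρ := by
    push_cast
    ring
  rw [h4]
  exact h3

lemma ar_neg (X₀ X : ℕ) (P : ℝ) (t : ℝ) : t ∈ ar X₀ X P → -t ∈ ar X₀ X P := by
  rintro ⟨ρ, h1, h2, h3⟩
  refine ⟨-ρ, by rw [Rat.neg_den]; exact h1, by rw [Rat.neg_den]; exact h2, ?_⟩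
  rw [Rat.neg_den]
  have h4 : -t - ((-ρ : ℚ) : ℝ) = -(t - ρ) := by
    push_cast
    ring
  rw [h4, abs_neg]
  exact h3

lemma tc_ai (X₀ X : ℕ) (P : ℝ) : TC (ai X₀ X P) where
  meas := measurable_const.indicator (meas_ar X₀ X P)
  per := by
    intro t
    unfold ai
    by_cases h : t ∈ ar X₀ X P
    · rw [Set.indicator_of_mem h, Set.indicator_of_mem (ar_add _ _ _ _ h)]
    · have h' : t + 1 ∉ ar X₀ X P := fun h1 => h (ar_sub _ _ _ _ h1)
      rw [Set.indicator_of_notMem h, Set.indicator_of_notMem h']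
  even := by
    intro t
    unfold ai
    by_cases h : t ∈ ar X₀ X P
    · rw [Set.indicator_of_mem h, Set.indicator_of_mem (ar_neg _ _ _ _ h)]
    · have h' : -t ∉ ar X₀ X P := fun h1 => h (by simpa using ar_neg _ _ _ _ h1)
      rw [Set.indicator_of_notMem h, Set.indicator_of_notMem h']
  nn := fun t => Set.indicator_nonneg (fun _ _ => zero_le_one) t
  le := fun t => Set.indicator_le_self' (fun _ _ => zero_le_one) t

/-- the index set of the arcs in one period -/
def idx (X₀ X : ℕ) : Finset (Σ _ : ℕ, ℕ) :=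
  (Finset.Ioc X₀ X).sigma fun q => (Finset.range q).filter (fun a => Nat.Coprime a q)

/-- the arcs of one period -/
def arc (P : ℝ) (p : Σ _ : ℕ, ℕ) : Set ℝ := Set.Ioo ((p.2 : ℝ) / p.1 - P / p.1) ((p.2 : ℝ) / p.1 + P / p.1)

lemma mem_idx {X₀ X : ℕ} {p : Σ _ : ℕ, ℕ} : p ∈ idx X₀ X ↔ (X₀ < p.1 ∧ p.1 ≤ X) ∧ p.2 < p.1 ∧ Nat.Coprime p.2 p.1 := by
  unfold idx
  rw [Finset.mem_sigma, Finset.mem_Ioc, Finset.mem_filter, Finset.mem_range]

lemma mem_arc {P : ℝ} {p : Σ _ : ℕ, ℕ} {t : ℝ} : t ∈ arc P p ↔ |t - (p.2 : ℝ) / p.1| < P / p.1 := by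
  unfold arc
  rw [Set.mem_Ioo, abs_lt]
  constructor
  · rintro ⟨h1, h2⟩
    constructor <;> linarith
  · rintro ⟨h1, h2⟩
    constructor <;> linarith

/-- the arcs in one period -/
lemma inter_eq (X₀ X : ℕ) (P : ℝ) (hX : 1 ≤ X) (hP : 0 < P) (hPX : 2 * P * X ≤ 1) :
    Set.Ioc (-P) (-P + 1) ∩ ar X₀ X P = ⋃ p ∈ idx X₀ X, arc P p := by
  have hX1 : (1 : ℝ) ≤ X := by exact_mod_cast hX
  have hP2 : P ≤ 1 / 2 := by nlinarith
  ext t
  simp only [Set.mem_inter_iff, Set.mem_Ioc, Set.mem_iUnion, exists_prop]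
  constructor
  · rintro ⟨⟨h1, h2⟩, ρ, h3, h4, h5⟩
    have hq : (0 : ℝ) < ρ.den := by exact_mod_cast ρ.den_pos
    have hq1 : (1 : ℝ) ≤ ρ.den := by exact_mod_cast ρ.den_pos
    have hqX : (ρ.den : ℝ) ≤ X := by exact_mod_cast h4
    have hρ : (ρ : ℝ) = (ρ.num : ℝ) / ρ.den := by
      have := Rat.num_div_den ρ
      exact_mod_cast this.symm
    have hPq : P * ρ.den ≤ 1 / 2 := by nlinarith
    rw [hρ, abs_lt] at h5
    have e1 : t * ρ.den - ρ.num > -P := by
      have := h5.1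
      have h6 : -(P / ρ.den) * ρ.den < (t - ρ.num / ρ.den) * ρ.den := mul_lt_mul_of_pos_right this hq
      have h7 : -(P / ρ.den) * ρ.den = -P := by field_simp
      have h8 : (t - ρ.num / ρ.den) * ρ.den = t * ρ.den - ρ.num := by field_simp
      rw [h7, h8] at h6
      exact h6
    have e2 : t * ρ.den - ρ.num < P := by
      have := h5.2
      have h6 : (t - ρ.num / ρ.den) * ρ.den < (P / ρ.den) * ρ.den := mul_lt_mul_of_pos_right this hq
      have h7 : (P / ρ.den) * ρ.den = P := by field_simp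
      have h8 : (t - ρ.num / ρ.den) * ρ.den = t * ρ.den - ρ.num := by field_simp
      rw [h7, h8] at h6
      exact h6
    have hn0 : 0 ≤ ρ.num := by
      by_contra hn
      push Not at hn
      have h6 : (ρ.num : ℝ) ≤ -1 := by exact_mod_cast Int.le_sub_one_of_lt hn
      nlinarith
    have hn1 : ρ.num < ρ.den := by
      by_contra hn
      push Not at hn
      have h6 : (ρ.den : ℝ) ≤ ρ.num := by exact_mod_cast hn
      nlinarith
    refine ⟨⟨ρ.den, ρ.num.toNat⟩, mem_idx.2 ⟨⟨h3, h4⟩, ?_, ?_⟩, mem_arc.2 ?_⟩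
    · simp only
      omega
    · have := ρ.reduced
      simp only
      have h6 : ρ.num.toNat = ρ.num.natAbs := by omega
      rw [h6]
      exact this
    · simp only
      have h6 : ((ρ.num.toNat : ℕ) : ℝ) = (ρ.num : ℝ) := by
        have : ((ρ.num.toNat : ℕ) : ℤ) = ρ.num := Int.toNat_of_nonneg hn0
        exact_mod_cast this
      rw [h6, abs_lt]
      exact h5
  · rintro ⟨p, hp, ht⟩
    obtain ⟨⟨h1, h2⟩, h3, h4⟩ := mem_idx.1 hp
    have hq0 : 0 < p.1 := by omega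
    have hq : (0 : ℝ) < p.1 := by exact_mod_cast hq0
    have hq1 : (1 : ℝ) ≤ p.1 := by exact_mod_cast hq0
    have hqX : (p.1 : ℝ) ≤ X := by exact_mod_cast h2
    have hPq : P * p.1 ≤ 1 / 2 := by nlinarith
    have h5 := mem_arc.1 ht
    rw [abs_lt] at h5
    have e1 : t * p.1 - p.2 > -P := by
      have := h5.1
      have h6 : -(P / p.1) * p.1 < (t - p.2 / p.1) * p.1 := mul_lt_mul_of_pos_right this hq
      have h7 : -(P / p.1) * p.1 = -P := by field_simp
      have h8 : (t - p.2 / p.1) * p.1 = t * p.1 - p.2 := by field_simp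
      rw [h7, h8] at h6
      exact h6
    have e2 : t * p.1 - p.2 < P := by
      have := h5.2
      have h6 : (t - p.2 / p.1) * p.1 < (P / p.1) * p.1 := mul_lt_mul_of_pos_right this hq
      have h7 : (P / p.1) * p.1 = P := by field_simp
      have h8 : (t - p.2 / p.1) * p.1 = t * p.1 - p.2 := by field_simp
      rw [h7, h8] at h6
      exact h6
    have hp0 : (0 : ℝ) ≤ p.2 := Nat.cast_nonneg _
    have hp1 : (p.2 : ℝ) + 1 ≤ p.1 := by exact_mod_cast h3
    refine ⟨⟨?_, ?_⟩, ((p.2 : ℤ) : ℚ) / ((p.1 : ℤ) : ℚ), ?_⟩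
    · by_contra hn
      push Not at hn
      nlinarith
    · by_contra hn
      push Not at hn
      nlinarith
    · have hden : (((p.2 : ℤ) : ℚ) / ((p.1 : ℤ) : ℚ)).den = p.1 := by
        have := Rat.den_div_eq_of_coprime (a := (p.2 : ℤ)) (b := (p.1 : ℤ)) (by exact_mod_cast hq0)
          (by simpa using h4)
        exact_mod_cast this
      rw [hden]
      refine ⟨h1, h2, ?_⟩
      have h6 : (((((p.2 : ℤ) : ℚ) / ((p.1 : ℤ) : ℚ) : ℚ)) : ℝ) = (p.2 : ℝ) / p.1 := by
        push_cast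
        rfl
      rw [h6, abs_lt]
      exact h5

/-- different reduced fractions -/
lemma disj (X₀ X : ℕ) (P : ℝ) (hP : 0 < P) (hPX : 2 * P * X ≤ 1) :
    (↑(idx X₀ X) : Set (Σ _ : ℕ, ℕ)).Pairwise (Function.onFun Disjoint (arc P)) := by
  intro p hp p' hp' hne
  obtain ⟨⟨h1, h2⟩, h3, h4⟩ := mem_idx.1 (Finset.mem_coe.1 hp)
  obtain ⟨⟨h1', h2'⟩, h3', h4'⟩ := mem_idx.1 (Finset.mem_coe.1 hp')
  rw [Function.onFun, Set.disjoint_left]
  intro t ht ht'
  have hq0 : 0 < p.1 := by omega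
  have hq0' : 0 < p'.1 := by omega
  have hq : (0 : ℝ) < p.1 := by exact_mod_cast hq0
  have hq' : (0 : ℝ) < p'.1 := by exact_mod_cast hq0'
  have hqX : (p.1 : ℝ) ≤ X := by exact_mod_cast h2
  have hqX' : (p'.1 : ℝ) ≤ X := by exact_mod_cast h2'
  have h5 := mem_arc.1 ht
  have h5' := mem_arc.1 ht'
  have h6 : |(p.2 : ℝ) / p.1 - (p'.2 : ℝ) / p'.1| < P / p.1 + P / p'.1 := by
    have h7 : (p.2 : ℝ) / p.1 - (p'.2 : ℝ) / p'.1 = (t - (p'.2 : ℝ) / p'.1) - (t - (p.2 : ℝ) / p.1) := by ring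
    rw [h7]
    calc |(t - (p'.2 : ℝ) / p'.1) - (t - (p.2 : ℝ) / p.1)|
        ≤ |t - (p'.2 : ℝ) / p'.1| + |t - (p.2 : ℝ) / p.1| := abs_sub _ _
      _ < P / p.1 + P / p'.1 := by linarith
  have h8 : |(p.2 : ℝ) * p'.1 - (p'.2 : ℝ) * p.1| < P * (p'.1 + p.1) := by
    have h9 : (p.2 : ℝ) * p'.1 - (p'.2 : ℝ) * p.1 =
        ((p.2 : ℝ) / p.1 - (p'.2 : ℝ) / p'.1) * (p.1 * p'.1) := by
      field_simp
    rw [h9, abs_mul, abs_of_pos (mul_pos hq hq')]
    calc |(p.2 : ℝ) / p.1 - (p'.2 : ℝ) / p'.1| * (p.1 * p'.1)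
        < (P / p.1 + P / p'.1) * (p.1 * p'.1) := mul_lt_mul_of_pos_right h6 (mul_pos hq hq')
      _ = P * (p'.1 + p.1) := by field_simp
  have h10 : |(p.2 : ℝ) * p'.1 - (p'.2 : ℝ) * p.1| < 1 := by
    refine lt_of_lt_of_le h8 ?_
    nlinarith
  have h11 : (p.2 : ℤ) * p'.1 - (p'.2 : ℤ) * p.1 = 0 := by
    rw [← Int.abs_lt_one_iff]
    have h12 : ((|(p.2 : ℤ) * p'.1 - (p'.2 : ℤ) * p.1| : ℤ) : ℝ) < 1 := by
      push_cast
      exact h10
    exact_mod_cast h12
  have h13 : p.2 * p'.1 = p'.2 * p.1 := by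
    have : (p.2 : ℤ) * p'.1 = (p'.2 : ℤ) * p.1 := by linarith
    exact_mod_cast this
  apply hne
  have h14 : p.1 ∣ p'.1 := by
    have h15 : p.1 ∣ p.2 * p'.1 := ⟨p'.2, by rw [h13]; ring⟩
    exact (Nat.Coprime.symm h4).dvd_of_dvd_mul_left h15
  have h16 : p'.1 ∣ p.1 := by
    have h15 : p'.1 ∣ p'.2 * p.1 := ⟨p.2, by rw [← h13]; ring⟩
    exact (Nat.Coprime.symm h4').dvd_of_dvd_mul_left h15
  have h17 : p.1 = p'.1 := Nat.dvd_antisymm h14 h16
  have h18 : p.2 = p'.2 := by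
    rw [← h17] at h13
    exact Nat.eq_of_mul_eq_mul_right hq0 h13
  obtain ⟨a, b⟩ := p
  obtain ⟨a', b'⟩ := p'
  simp only at h17 h18
  subst h17
  subst h18
  rfl

/-- the integral over a period -/
lemma main {E : Type*} [NormedAddCommGroup E] [NormedSpace ℝ E] (X₀ X : ℕ) (P : ℝ) (hX : 1 ≤ X) (hP : 0 < P)
    (hPX : 2 * P * X ≤ 1) (G : ℝ → E) (hG : Continuous G) (hper : ∀ t, G (t + 1) = G t) :
    ∫ t in (0 : ℝ)..1, ai X₀ X P t • G t =
      ∑ q ∈ Finset.Ioc X₀ X, ∑ a ∈ (Finset.range q).filter (fun a => Nat.Coprime a q),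
        ∫ β in (-(P / q))..(P / q), G ((a : ℝ) / q + β) := by
  have hper' : Function.Periodic (fun t => ai X₀ X P t • G t) 1 := by
    intro t
    simp only
    rw [(tc_ai X₀ X P).per t, hper t]
  have h0 : ∫ t in (0 : ℝ)..1, ai X₀ X P t • G t = ∫ t in (-P)..(-P + 1), ai X₀ X P t • G t := by
    have := hper'.intervalIntegral_add_eq 0 (-P)
    rw [zero_add] at this
    exact this
  have h1 : ∀ t, ai X₀ X P t • G t = (ar X₀ X P).indicator G t := by
    intro t
    unfold ai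
    by_cases h : t ∈ ar X₀ X P
    · rw [Set.indicator_of_mem h, Set.indicator_of_mem h, one_smul]
    · rw [Set.indicator_of_notMem h, Set.indicator_of_notMem h, zero_smul]
  rw [h0, intervalIntegral.integral_of_le (by linarith)]
  simp only [h1]
  rw [setIntegral_indicator (meas_ar X₀ X P), inter_eq X₀ X P hX hP hPX,
    integral_biUnion_finset (s := arc P) (idx X₀ X) (fun p _ => measurableSet_Ioo) (disj X₀ X P hP hPX)]
  · unfold idx
    rw [Finset.sum_sigma]
    refine Finset.sum_congr rfl fun q hq => ?_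
    refine Finset.sum_congr rfl fun a ha => ?_
    have hq0 : (0 : ℝ) < q := by
      have := (Finset.mem_Ioc.1 hq).1
      exact_mod_cast (by omega : 0 < q)
    have hPq : 0 < P / q := div_pos hP hq0
    rw [intervalIntegral.integral_comp_add_left, intervalIntegral.integral_of_le (by linarith),
      integral_Ioc_eq_integral_Ioo]
    unfold arc
    simp only
    rw [sub_eq_add_neg]
  · intro p _
    exact (hG.integrableOn_Icc (μ := volume)).mono_set Set.Ioo_subset_Icc_self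

/-! ### exponentials -/

lemma eu_add (x y : ℝ) : eu (x + y) = eu x * eu y := by
  unfold eu
  rw [← Complex.exp_add]
  congr 1
  push_cast
  ring

lemma eu_int (k : ℤ) : eu (k : ℝ) = 1 := by
  unfold eu
  rw [Complex.exp_eq_one_iff]
  exact ⟨k, by push_cast; ring⟩

lemma eu_cont : Continuous eu := by
  unfold eu
  fun_prop

lemma norm_eu (x : ℝ) : ‖eu x‖ = 1 := by
  unfold eu
  rw [Complex.norm_exp]
  simp

lemma int_eu_le (j : ℤ) (s : ℝ) (hs : 0 ≤ s) : ‖∫ β in (-s)..s, eu (-(j * β))‖ ≤ 2 * s := by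
  have h := intervalIntegral.norm_integral_le_of_norm_le_const (a := -s) (b := s) (C := 1)
    (f := fun β : ℝ => eu (-(j * β))) (fun x _ => by rw [norm_eu])
  rw [one_mul, abs_of_nonneg (by linarith)] at h
  linarith

lemma int_eu_le' (j : ℤ) (hj : j ≠ 0) (s : ℝ) : ‖∫ β in (-s)..s, eu (-(j * β))‖ ≤ 1 / |(j : ℝ)| := by
  have hj' : (j : ℝ) ≠ 0 := by exact_mod_cast hj
  have hja : 0 < |(j : ℝ)| := abs_pos.2 hj'
  set c : ℂ := -(2 * π * j * Complex.I) with hc
  have hc0 : c ≠ 0 := by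
    rw [hc, neg_ne_zero]
    have h1 : (π : ℂ) ≠ 0 := by exact_mod_cast Real.pi_ne_zero
    have h2 : (j : ℂ) ≠ 0 := by exact_mod_cast hj
    have h3 : (2 : ℂ) ≠ 0 := two_ne_zero
    exact mul_ne_zero (mul_ne_zero (mul_ne_zero h3 h1) h2) Complex.I_ne_zero
  have h1 : ∀ β : ℝ, eu (-(j * β)) = Complex.exp (c * β) := by
    intro β
    unfold eu
    congr 1
    rw [hc]
    push_cast
    ring
  simp only [h1]
  rw [integral_exp_mul_complex hc0, norm_div]
  have h2 : ∀ x : ℝ, ‖Complex.exp (c * x)‖ = 1 := by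
    intro x
    rw [← h1, norm_eu]
  have h3 : ‖Complex.exp (c * (s : ℝ)) - Complex.exp (c * ((-s : ℝ) : ℂ))‖ ≤ 2 := by
    refine (norm_sub_le _ _).trans ?_
    rw [h2, h2]
    norm_num
  have h4 : ‖c‖ = 2 * π * |(j : ℝ)| := by
    rw [hc, norm_neg, norm_mul, norm_mul, norm_mul, Complex.norm_I, mul_one]
    have h5 : ‖(π : ℂ)‖ = π := by
      rw [Complex.norm_real, Real.norm_eq_abs, abs_of_pos Real.pi_pos]
    have h6 : ‖(j : ℂ)‖ = |(j : ℝ)| := by
      rw [Complex.norm_intCast]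
    have h7 : ‖(2 : ℂ)‖ = 2 := by norm_num
    rw [h5, h6, h7]
  rw [h4, div_le_div_iff₀ (by positivity) hja]
  have h8 : 1 < π := by linarith [Real.pi_gt_three]
  nlinarith

end VARC

open VARC in
theorem t_VARC : M_VARC := by
  intro hR X₀ X P hX hP hPX
  obtain ⟨_, hR2, hR3⟩ := hR
  have hX1 : (1 : ℝ) ≤ X := by exact_mod_cast hX
  refine ⟨tc_ai X₀ X P, ?_, ?_, ?_⟩
  · intro j hj
    have hper : ∀ t : ℝ, eu (-(j * (t + 1))) = eu (-(j * t)) := by
      intro t
      have h1 : -((j : ℝ) * (t + 1)) = -(j * t) + ((-j : ℤ) : ℝ) := by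
        push_cast
        ring
      rw [h1, eu_add, eu_int, mul_one]
    have hc : Continuous fun t : ℝ => eu (-(j * t)) := eu_cont.comp (by fun_prop)
    have h0 := main X₀ X P hX hP hPX (fun t : ℝ => eu (-(j * t))) hc hper
    have h1 : ∫ t in (0 : ℝ)..1, (ai X₀ X P t : ℂ) * eu (-(j * t)) =
        ∑ q ∈ Finset.Ioc X₀ X, ram q (-j) * ∫ β in (-(P / q))..(P / q), eu (-(j * β)) := by
      have h2 : ∫ t in (0 : ℝ)..1, (ai X₀ X P t : ℂ) * eu (-(j * t)) =
          ∫ t in (0 : ℝ)..1, ai X₀ X P t • eu (-(j * t)) := by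
        congr 1
      rw [h2, h0]
      refine Finset.sum_congr rfl fun q hq => ?_
      unfold ram
      rw [Finset.sum_mul]
      refine Finset.sum_congr rfl fun a _ => ?_
      rw [← intervalIntegral.integral_const_mul]
      congr 1
      ext β
      rw [← eu_add]
      congr 1
      push_cast
      ring
    have hq0 : ∀ q ∈ Finset.Ioc X₀ X, (0 : ℝ) < q := by
      intro q hq
      have := (Finset.mem_Ioc.1 hq).1
      exact_mod_cast (by omega : 0 < q)
    rw [h1]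
    refine le_min ?_ ?_
    · calc ‖∑ q ∈ Finset.Ioc X₀ X, ram q (-j) * ∫ β in (-(P / q))..(P / q), eu (-(j * β))‖
          ≤ ∑ q ∈ Finset.Ioc X₀ X, ‖ram q (-j) * ∫ β in (-(P / q))..(P / q), eu (-(j * β))‖ := norm_sum_le _ _
        _ ≤ ∑ q ∈ Finset.Ioc X₀ X, 2 * P * (‖ram q (-j)‖ / q) := by
            refine Finset.sum_le_sum fun q hq => ?_
            have hq' := hq0 q hq
            rw [norm_mul]
            calc ‖ram q (-j)‖ * ‖∫ β in (-(P / q))..(P / q), eu (-(j * β))‖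
                ≤ ‖ram q (-j)‖ * (2 * (P / q)) :=
                  mul_le_mul_of_nonneg_left (int_eu_le j _ (div_pos hP hq').le) (norm_nonneg _)
              _ = 2 * P * (‖ram q (-j)‖ / q) := by ring
        _ = 2 * P * ∑ q ∈ Finset.Ioc X₀ X, ‖ram q (-j)‖ / q := by rw [Finset.mul_sum]
        _ ≤ 2 * P * ∑ q ∈ Finset.Icc 1 X, ‖ram q (-j)‖ / q := by
            refine mul_le_mul_of_nonneg_left ?_ (by positivity)
            refine Finset.sum_le_sum_of_subset_of_nonneg ?_ (fun q _ _ => by positivity)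
            intro q hq
            rw [Finset.mem_Ioc] at hq
            rw [Finset.mem_Icc]
            omega
        _ ≤ 2 * P * ((Nat.divisors j.natAbs).card * (1 + Real.log X)) := by
            refine mul_le_mul_of_nonneg_left ?_ (by positivity)
            have := hR3 X (-j) hX (neg_ne_zero.2 hj)
            rw [Int.natAbs_neg] at this
            exact this
    · calc ‖∑ q ∈ Finset.Ioc X₀ X, ram q (-j) * ∫ β in (-(P / q))..(P / q), eu (-(j * β))‖
          ≤ ∑ q ∈ Finset.Ioc X₀ X, ‖ram q (-j) * ∫ β in (-(P / q))..(P / q), eu (-(j * β))‖ := norm_sum_le _ _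
        _ ≤ ∑ q ∈ Finset.Ioc X₀ X, (X : ℝ) * (1 / |(j : ℝ)|) := by
            refine Finset.sum_le_sum fun q hq => ?_
            rw [norm_mul]
            refine mul_le_mul ((hR2 q (-j)).trans ?_) (int_eu_le' j hj _) (norm_nonneg _) (by positivity)
            exact_mod_cast (Finset.mem_Ioc.1 hq).2
        _ = ((X - X₀ : ℕ) : ℝ) * ((X : ℝ) * (1 / |(j : ℝ)|)) := by
            rw [Finset.sum_const, Nat.card_Ioc, nsmul_eq_mul]
        _ ≤ (X : ℝ) * ((X : ℝ) * (1 / |(j : ℝ)|)) := by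
            refine mul_le_mul_of_nonneg_right ?_ (by positivity)
            exact_mod_cast Nat.sub_le X X₀
        _ = (X : ℝ) ^ 2 / |(j : ℝ)| := by ring
  · have h0 := main X₀ X P hX hP hPX (fun _ : ℝ => (1 : ℝ)) continuous_const (fun _ => rfl)
    have h1 : ∫ t in (0 : ℝ)..1, ai X₀ X P t = ∫ t in (0 : ℝ)..1, ai X₀ X P t • (1 : ℝ) := by
      simp
    rw [h1, h0]
    calc ∑ q ∈ Finset.Ioc X₀ X, ∑ a ∈ (Finset.range q).filter (fun a => Nat.Coprime a q),
          ∫ β in (-(P / q))..(P / q), (1 : ℝ)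
        ≤ ∑ q ∈ Finset.Ioc X₀ X, 2 * P := by
          refine Finset.sum_le_sum fun q hq => ?_
          have hq0 : (0 : ℝ) < q := by
            have := (Finset.mem_Ioc.1 hq).1
            exact_mod_cast (by omega : 0 < q)
          rw [intervalIntegral.integral_const, Finset.sum_const, nsmul_eq_mul, smul_eq_mul, mul_one]
          have h2 : (((Finset.range q).filter (fun a => Nat.Coprime a q)).card : ℝ) ≤ q := by
            have := Finset.card_filter_le (Finset.range q) (fun a => Nat.Coprime a q)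
            rw [Finset.card_range] at this
            exact_mod_cast this
          have h3 : P / q - -(P / q) = 2 * P / q := by ring
          rw [h3]
          calc (((Finset.range q).filter (fun a => Nat.Coprime a q)).card : ℝ) * (2 * P / q)
              ≤ q * (2 * P / q) := mul_le_mul_of_nonneg_right h2 (by positivity)
            _ = 2 * P := by field_simp
      _ = ((X - X₀ : ℕ) : ℝ) * (2 * P) := by
          rw [Finset.sum_const, Nat.card_Ioc, nsmul_eq_mul]
      _ ≤ (X : ℝ) * (2 * P) := by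
          refine mul_le_mul_of_nonneg_right ?_ (by positivity)
          exact_mod_cast Nat.sub_le X X₀
      _ = 2 * P * X := by ring
  · intro F hF hF0 hF1
    have h0 := main X₀ X P hX hP hPX F hF hF1
    have h1 : ∫ t in (0 : ℝ)..1, ai X₀ X P t * F t = ∫ t in (0 : ℝ)..1, ai X₀ X P t • F t := by
      simp
    rw [h1, h0]
    refine Finset.sum_le_sum fun q hq => ?_
    have hq0 : (0 : ℝ) < q := by
      have := (Finset.mem_Ioc.1 hq).1
      exact_mod_cast (by omega : 0 < q)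
    refine Finset.sum_le_sum_of_subset_of_nonneg (Finset.filter_subset _ _) fun a _ _ => ?_
    refine intervalIntegral.integral_nonneg ?_ fun β _ => hF0 _
    have := div_pos hP hq0
    linarith

end

end SYM
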