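import Pool.Agent.SYM.StU
import Pool.Agent.Lib_helper91.Div

/-!
# The number of divisors

The bound `d(n) ≤ C n ^ ε`, from `Pool.Agent.Lib_helper91.exists_divisor_bound`.
-/

set_option autoImplicit false

namespace SYM

theorem t_VDIV : S_VDIV := by
  intro ε hε
  obtain ⟨L, hL⟩ := exists_nat_gt (1 / ε)
  have hL0 : 0 < L := by
    have h1 : (0 : ℝ) < L := lt_trans (by positivity) hL
    exact_mod_cast h1
  obtain ⟨C, hC, h⟩ := Pool.Agent.Lib_helper91.exists_divisor_bound L hL0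
  refine ⟨C, by linarith, fun n hn => (h n (by omega)).trans ?_⟩
  have h1 : (1 : ℝ) / L ≤ ε := by
    have h2 : (0 : ℝ) < L := by exact_mod_cast hL0
    rw [div_le_iff₀ h2]
    have h3 := (div_lt_iff₀ hε).1 hL
    linarith
  have h2 : (n : ℝ) ^ ((1 : ℝ) / L) ≤ (n : ℝ) ^ ε :=
    Real.rpow_le_rpow_of_exponent_le (by exact_mod_cast hn) h1
  exact mul_le_mul_of_nonneg_left h2 (by linarith)

end SYM
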