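import Pool.Agent.SYM.StU

/-!
# Symmetric spaces: the integral over the major arcs
-/

namespace SYM

open STZ LGR MeasureTheory Matrix Filter

open scoped ComplexConjugate Matrix Real Topology

noncomputable section

namespace VMAJ

/-! ### the distance to the nearest integer -/

lemma nd_eq (x : ℝ) : nd x = ‖(x : UnitAddCircle)‖ := (UnitAddCircle.norm_eq).symm

lemma nd_cont : Continuous nd := by
  have h : nd = fun x : ℝ => ‖(x : UnitAddCircle)‖ := funext nd_eq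
  rw [h]
  exact continuous_norm.comp (AddCircle.continuous_mk' 1)

lemma nd_add_int (x : ℝ) (n : ℤ) : nd ((n : ℝ) + x) = nd x := by
  unfold nd
  rw [add_comm, round_add_intCast]
  push_cast
  congr 1
  ring

lemma nd_small {x : ℝ} (h : |x| ≤ 1 / 2) : nd x = |x| := by
  rw [nd_eq]
  rw [AddCircle.norm_coe_eq_abs_iff 1 one_ne_zero]
  rwa [abs_one]

/-! ### the profile -/

/-- the integral of the profile -/
def KK (s : ℝ) : ℝ := ∫ u : ℝ, (1 + ‖u‖) ^ (-s)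

lemma KK_nonneg (s : ℝ) : 0 ≤ KK s := by
  apply integral_nonneg
  intro u
  apply Real.rpow_nonneg
  positivity

lemma int_sym (L s A : ℝ) (hL : 0 < L) (hs : 1 < s) (hA : 0 ≤ A) :
    ∫ β in (-A)..A, (1 + L * |β|) ^ (-s) ≤ L⁻¹ * KK s := by
  have hI : Integrable (fun u : ℝ => (1 + ‖u‖) ^ (-s)) := by
    apply integrable_one_add_norm
    simp only [Module.finrank_self, Nat.cast_one]
    exact hs
  have e1 : (∫ β in (-A)..A, (1 + L * |β|) ^ (-s)) =
      ∫ β in (-A)..A, (fun u : ℝ => (1 + ‖u‖) ^ (-s)) (L * β) := by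
    apply intervalIntegral.integral_congr
    intro t _
    show (1 + L * |t|) ^ (-s) = (1 + ‖L * t‖) ^ (-s)
    rw [norm_mul, Real.norm_of_nonneg hL.le, Real.norm_eq_abs]
  rw [e1, intervalIntegral.integral_comp_mul_left (fun u : ℝ => (1 + ‖u‖) ^ (-s)) hL.ne',
    smul_eq_mul]
  apply mul_le_mul_of_nonneg_left _ (inv_nonneg.mpr hL.le)
  rw [intervalIntegral.integral_of_le (by nlinarith)]
  apply setIntegral_le_integral hI
  filter_upwards with u
  apply Real.rpow_nonneg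
  positivity

/-! ### the arcs of one denominator -/

lemma ai_nonneg (X₀ X : ℕ) (P t : ℝ) : 0 ≤ ai X₀ X P t := by
  unfold ai
  exact Set.indicator_nonneg (fun _ _ => zero_le_one) t

lemma ai_le_one (X₀ X : ℕ) (P t : ℝ) : ai X₀ X P t ≤ 1 := by
  unfold ai
  exact Set.indicator_le_self' (fun _ _ => zero_le_one) t

lemma ai_of_mem {X₀ X : ℕ} {P t : ℝ} (h : t ∈ ar X₀ X P) : ai X₀ X P t = 1 := by
  unfold ai
  rw [Set.indicator_of_mem h]

lemma ai_of_not_mem {X₀ X : ℕ} {P t : ℝ} (h : t ∉ ar X₀ X P) : ai X₀ X P t = 0 := by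
  unfold ai
  rw [Set.indicator_of_notMem h]

lemma ai_le_sum (X₀ : ℕ) (P t : ℝ) :
    ai 0 X₀ P t ≤ ∑ q ∈ Finset.Icc 1 X₀, ai (q - 1) q P t := by
  by_cases h : t ∈ ar 0 X₀ P
  · rw [ai_of_mem h]
    obtain ⟨ρ, h1, h2, h3⟩ := h
    have h4 : ai (ρ.den - 1) ρ.den P t = 1 := ai_of_mem ⟨ρ, by omega, le_rfl, h3⟩
    have h5 : ρ.den ∈ Finset.Icc 1 X₀ := Finset.mem_Icc.mpr ⟨h1, h2⟩
    calc (1 : ℝ) = ai (ρ.den - 1) ρ.den P t := h4.symm
      _ ≤ _ := Finset.single_le_sum (f := fun q => ai (q - 1) q P t)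
        (fun q _ => ai_nonneg _ _ _ _) h5
  · rw [ai_of_not_mem h]
    exact Finset.sum_nonneg fun q _ => ai_nonneg _ _ _ _

lemma ai_int {X₀ X : ℕ} {P : ℝ} (h : TC (ai X₀ X P)) (F : ℝ → ℝ) (hF : Continuous F) :
    IntervalIntegrable (fun t => ai X₀ X P t * F t) volume 0 1 := by
  have h1 : IntervalIntegrable (ai X₀ X P) volume 0 1 := by
    rw [intervalIntegrable_iff]
    refine Measure.integrableOn_of_bounded (M := 1) ?_ h.meas.aestronglyMeasurable ?_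
    · rw [Set.uIoc_of_le zero_le_one, Real.volume_Ioc]
      exact ENNReal.ofReal_ne_top
    · filter_upwards with t
      rw [Real.norm_of_nonneg (h.nn t)]
      exact h.le t
  exact h1.mul_continuousOn hF.continuousOn

/-- the arcs with the denominator `q` -/
lemma one_arc (hV : S_VARC) (q : ℕ) (P s E L : ℝ) (hq : 1 ≤ q) (hP : 0 < P) (hPq : 2 * P * q ≤ 1)
    (hs : 1 < s) (hE : 0 ≤ E) (hL : 0 < L) (F : ℝ → ℝ) (hF : Continuous F)
    (hb : ∀ (t : ℝ) (ρ : ℚ), ρ.den = q → |t - ρ| < P / q → F t ≤ E * (1 + L * |t - ρ|) ^ (-s)) :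
    ∫ t in (0 : ℝ)..1, ai (q - 1) q P t * F t ≤ E * q * (L⁻¹ * KK s) := by
  obtain ⟨hTC, _, _, hv⟩ := hV (q - 1) q P hq hP hPq
  have hq0 : (0 : ℝ) < q := by exact_mod_cast hq
  set G : ℝ → ℝ := fun t => E * (1 + L * (nd (q * t) / q)) ^ (-s) with hG
  have hnn : ∀ x, 0 ≤ nd x := fun x => by unfold nd; exact abs_nonneg _
  have hpos : ∀ t : ℝ, 0 < 1 + L * (nd (q * t) / q) := by
    intro t
    have := div_nonneg (hnn (q * t)) hq0.le
    have := mul_nonneg hL.le this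
    linarith
  have hGc : Continuous G := by
    apply continuous_const.mul
    apply Continuous.rpow_const
    · exact continuous_const.add (continuous_const.mul
        ((nd_cont.comp (continuous_const.mul continuous_id)).div_const _))
    · intro t
      exact Or.inl (hpos t).ne'
  have hG0 : ∀ t, 0 ≤ G t := fun t => mul_nonneg hE (Real.rpow_nonneg (hpos t).le _)
  have hGper : ∀ t, G (t + 1) = G t := by
    intro t
    have h1 : (q : ℝ) * (t + 1) = ((q : ℤ) : ℝ) + q * t := by push_cast; ring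
    simp only [hG]
    rw [h1, nd_add_int]
  have hle : ∀ t, ai (q - 1) q P t * F t ≤ ai (q - 1) q P t * G t := by
    intro t
    by_cases ht : t ∈ ar (q - 1) q P
    · rw [ai_of_mem ht, one_mul, one_mul]
      obtain ⟨ρ, h1, h2, h3⟩ := ht
      have hd : ρ.den = q := by omega
      rw [hd] at h3
      refine (hb t ρ hd h3).trans (le_of_eq ?_)
      have h4 : (q : ℝ) * t = (ρ.num : ℝ) + q * (t - ρ) := by
        have h5 : (ρ : ℝ) = (ρ.num : ℝ) / ρ.den := Rat.cast_def ρ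
        rw [hd] at h5
        rw [mul_sub, h5]
        field_simp
        ring
      have h6 : |(q : ℝ) * (t - ρ)| ≤ 1 / 2 := by
        rw [abs_mul, abs_of_pos hq0]
        have h7 : (q : ℝ) * |t - ρ| ≤ q * (P / q) := mul_le_mul_of_nonneg_left h3.le hq0.le
        have h8 : (q : ℝ) * (P / q) = P := by field_simp
        have h9 : P * 1 ≤ P * q := mul_le_mul_of_nonneg_left (by exact_mod_cast hq) hP.le
        linarith
      simp only [hG]
      rw [h4, nd_add_int, nd_small h6, abs_mul, abs_of_pos hq0]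
      congr 3
      field_simp
    · rw [ai_of_not_mem ht, zero_mul, zero_mul]
  have step1 : ∫ t in (0 : ℝ)..1, ai (q - 1) q P t * F t ≤
      ∫ t in (0 : ℝ)..1, ai (q - 1) q P t * G t :=
    intervalIntegral.integral_mono_on zero_le_one (ai_int hTC F hF) (ai_int hTC G hGc)
      fun t _ => hle t
  refine step1.trans ((hv G hGc hG0 hGper).trans ?_)
  have hI : Finset.Ioc (q - 1) q = {q} := by
    ext x
    simp only [Finset.mem_Ioc, Finset.mem_singleton]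
    omega
  rw [hI, Finset.sum_singleton]
  have hterm : ∀ a ∈ Finset.range q, ∫ β in (-(P / q))..(P / q), G ((a : ℝ) / q + β) ≤
      E * (L⁻¹ * KK s) := by
    intro a _
    have h1 : (∫ β in (-(P / q))..(P / q), G ((a : ℝ) / q + β)) =
        ∫ β in (-(P / q))..(P / q), E * (1 + L * |β|) ^ (-s) := by
      apply intervalIntegral.integral_congr
      intro β hβ
      rw [Set.uIcc_of_le (by have := div_pos hP hq0; linarith)] at hβ
      have h2 : |β| ≤ P / q := abs_le.mpr hβ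
      have h4 : (q : ℝ) * ((a : ℝ) / q + β) = ((a : ℤ) : ℝ) + q * β := by
        push_cast
        field_simp
      have h6 : |(q : ℝ) * β| ≤ 1 / 2 := by
        rw [abs_mul, abs_of_pos hq0]
        have h7 : (q : ℝ) * |β| ≤ q * (P / q) := mul_le_mul_of_nonneg_left h2 hq0.le
        have h8 : (q : ℝ) * (P / q) = P := by field_simp
        have h9 : P * 1 ≤ P * q := mul_le_mul_of_nonneg_left (by exact_mod_cast hq) hP.le
        linarith
      show E * (1 + L * (nd (q * ((a : ℝ) / q + β)) / q)) ^ (-s) = E * (1 + L * |β|) ^ (-s)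
      rw [h4, nd_add_int, nd_small h6, abs_mul, abs_of_pos hq0]
      congr 3
      field_simp
    rw [h1, intervalIntegral.integral_const_mul]
    exact mul_le_mul_of_nonneg_left (int_sym L s _ hL hs (div_pos hP hq0).le) hE
  refine (Finset.sum_le_sum hterm).trans (le_of_eq ?_)
  rw [Finset.sum_const, Finset.card_range, nsmul_eq_mul]
  ring

/-! ### bounds for the majorant -/

lemma WW_nonneg (R c : ℕ) (t : ℝ) : 0 ≤ WW R c t := by
  unfold WW
  apply Finset.sum_nonneg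
  intro x _
  unfold mn
  positivity

lemma WW_le (R c : ℕ) (t : ℝ) (hR : 1 ≤ R) (hc : 1 ≤ c) : WW R c t ≤ 3 * c * (R : ℝ) ^ 2 := by
  unfold WW
  have h1 : ∀ x ∈ Finset.Icc (-((c * R : ℕ) : ℤ)) ((c * R : ℕ) : ℤ), mn R (t * x) ≤ R := by
    intro x _
    unfold mn
    apply div_le_self (Nat.cast_nonneg R)
    exact le_max_left _ _
  refine (Finset.sum_le_card_nsmul _ _ _ h1).trans ?_
  rw [Int.card_Icc, nsmul_eq_mul]
  have h2 : (((c * R : ℕ) : ℤ) + 1 - -((c * R : ℕ) : ℤ)).toNat = 2 * (c * R) + 1 := by omega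
  rw [h2]
  have h3 : (1 : ℝ) ≤ c * R := by
    have : 1 ≤ c * R := Nat.one_le_iff_ne_zero.mpr (by positivity)
    exact_mod_cast this
  have hR' : (0 : ℝ) ≤ R := Nat.cast_nonneg R
  push_cast
  nlinarith

lemma log_le (x : ℝ) (hx : 1 ≤ x) : x * (1 + Real.log x) ≤ 3 * (x * √x) := by
  have h0 : 0 ≤ x := by linarith
  have h1 : Real.log x ≤ 2 * √x := by
    have h2 := Real.log_le_rpow_div h0 (show (0 : ℝ) < 1 / 2 by norm_num)
    rw [← Real.sqrt_eq_rpow] at h2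
    linarith
  have h3 : 1 ≤ √x := Real.one_le_sqrt.mpr hx
  have h4 : 1 + Real.log x ≤ 3 * √x := by linarith
  have h5 := mul_le_mul_of_nonneg_left h4 h0
  linarith

/-- the scale `N` -/
lemma bound_N (hW : S_WPTG) (c : ℕ) (γ η : ℝ) (hc : 1 ≤ c) (h0 : 0 < γ) (h1 : γ < 1) (hη : 0 < η)
    (hη1 : η ≤ 1 / 8) : ∃ C : ℝ, 0 ≤ C ∧ ∀ (N : ℕ) (t : ℝ) (ρ : ℚ), 1 ≤ N →
      (ρ.den : ℝ) ≤ (N : ℝ) ^ η → |t - ρ| ≤ (N : ℝ) ^ (-2 + η) / ρ.den →
      WW N c t ≤ C * ((N : ℝ) ^ 2 / ρ.den * (1 + (N : ℝ) ^ 2 * |t - ρ|) ^ (-γ)) := by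
  obtain ⟨C₀, hC₀, hC⟩ := hW c γ hc h0 h1
  refine ⟨7 * C₀ + 96 * (c : ℝ) ^ 5, by positivity, ?_⟩
  intro N t ρ hN hq hβ
  have hn : (1 : ℝ) ≤ N := by exact_mod_cast hN
  have hn0 : (0 : ℝ) < N := by linarith
  have hq0 : (0 : ℝ) < ρ.den := by exact_mod_cast ρ.pos
  have hq1 : (1 : ℝ) ≤ ρ.den := by exact_mod_cast ρ.pos
  have hc1 : (1 : ℝ) ≤ c := by exact_mod_cast hc
  set x : ℝ := (N : ℝ) ^ η with hx
  have hx1 : 1 ≤ x := Real.one_le_rpow hn hη.le
  set y : ℝ := √(N : ℝ) with hy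
  have hy1 : 1 ≤ y := Real.one_le_sqrt.mpr hn
  have hyy : y * y = N := Real.mul_self_sqrt hn0.le
  have hxy : x * x ≤ y := by
    rw [hx, hy, Real.sqrt_eq_rpow, ← Real.rpow_add hn0]
    exact Real.rpow_le_rpow_of_exponent_le hn (by linarith)
  have hβ2 : (N : ℝ) ^ 2 * |t - ρ| ≤ x := by
    have h2 : (N : ℝ) ^ (-2 + η) = x / (N : ℝ) ^ 2 := by
      rw [Real.rpow_add hn0, Real.rpow_neg hn0.le, Real.rpow_two, hx]
      field_simp
    rw [h2] at hβ
    have h3 : x / (N : ℝ) ^ 2 / ρ.den ≤ x / (N : ℝ) ^ 2 := div_le_self (by positivity) hq1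
    have h4 := mul_le_mul_of_nonneg_left (hβ.trans h3) (show (0 : ℝ) ≤ (N : ℝ) ^ 2 by positivity)
    have h5 : (N : ℝ) ^ 2 * (x / (N : ℝ) ^ 2) = x := by field_simp
    linarith
  set D : ℝ := 1 + (N : ℝ) ^ 2 * |t - ρ| with hD
  have hD1 : 1 ≤ D := by
    have : 0 ≤ (N : ℝ) ^ 2 * |t - ρ| := by positivity
    linarith
  have hD2 : D ≤ 2 * x := by linarith
  set T : ℝ := (N : ℝ) ^ 2 / ρ.den * D ^ (-γ) with hT
  have hDγ : 1 / (2 * x) ≤ D ^ (-γ) := by
    have h2 : (1 : ℝ) / (2 * x) ≤ 1 / D := one_div_le_one_div_of_le (by linarith) hD2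
    have h3 : 1 / D = D ^ (-1 : ℝ) := by rw [Real.rpow_neg_one, one_div]
    rw [h3] at h2
    exact h2.trans (Real.rpow_le_rpow_of_exponent_le hD1 (by linarith))
  have hTlow : (N : ℝ) * y / 2 ≤ T := by
    have h2 : (N : ℝ) ^ 2 / x ≤ (N : ℝ) ^ 2 / ρ.den := by
      apply div_le_div_of_nonneg_left (by positivity) hq0 hq
    have h3 : (N : ℝ) ^ 2 / x * (1 / (2 * x)) ≤ T := by
      apply mul_le_mul h2 hDγ (by positivity) (by positivity)
    have h4 : (N : ℝ) ^ 2 / x * (1 / (2 * x)) = (N : ℝ) ^ 2 / (2 * (x * x)) := by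
      field_simp
    rw [h4] at h3
    refine le_trans ?_ h3
    rw [div_le_div_iff₀ (by norm_num) (by positivity)]
    have h5 : (N : ℝ) * y * (2 * (x * x)) ≤ (N : ℝ) * y * (2 * y) := by
      apply mul_le_mul_of_nonneg_left _ (by positivity)
      linarith
    have h6 : (N : ℝ) * y * (2 * y) = (N : ℝ) ^ 2 * 2 := by
      have : (N : ℝ) * y * (2 * y) = 2 * N * (y * y) := by ring
      rw [this, hyy]; ring
    linarith
  have hT0 : 0 ≤ T := by positivity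
  have hT1 : 1 / 2 ≤ T := by
    have : 1 ≤ (N : ℝ) * y := one_le_mul_of_one_le_of_one_le hn hy1
    linarith
  rcases le_or_gt (2 * c * x) (N : ℝ) with hcase | hcase
  · have h2 : |t - ρ| ≤ 1 / (ρ.den * (2 * c * N)) := by
      refine hβ.trans ?_
      have h3 : (N : ℝ) ^ (-2 + η) = x / (N : ℝ) ^ 2 := by
        rw [Real.rpow_add hn0, Real.rpow_neg hn0.le, Real.rpow_two, hx]
        field_simp
      rw [h3, div_div, div_le_div_iff₀ (by positivity) (by positivity)]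
      have h4 : x * (ρ.den * (2 * c * N)) = (2 * c * x) * (N * ρ.den) := by ring
      rw [h4]
      have h5 : 1 * ((N : ℝ) ^ 2 * ρ.den) = N * (N * ρ.den) := by ring
      rw [h5]
      exact mul_le_mul_of_nonneg_right hcase (by positivity)
    have h3 : ρ.den ≤ 2 * c * N := by
      have h4 : (ρ.den : ℝ) ≤ N := by
        refine hq.trans ?_
        have : 1 * x ≤ 2 * c * x := mul_le_mul_of_nonneg_right (by linarith) (by linarith)
        linarith
      have h5 : ρ.den ≤ N := by exact_mod_cast h4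
      calc ρ.den ≤ N := h5
        _ = 1 * N := (one_mul _).symm
        _ ≤ 2 * c * N := Nat.mul_le_mul_right _ (by omega)
    have h4 := hC N t ρ hN h3 h2
    have h5 := log_le (N : ℝ) hn
    have h6 : (N : ℝ) * (1 + Real.log N) ≤ 6 * T := by
      have : (N : ℝ) * y = N * √(N : ℝ) := rfl
      linarith
    have h7 : C₀ * ((N : ℝ) * (1 + Real.log N) + T) ≤ C₀ * (7 * T) :=
      mul_le_mul_of_nonneg_left (by linarith) hC₀
    have h8 : 0 ≤ 96 * (c : ℝ) ^ 5 * T := by positivity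
    have h9 : WW N c t ≤ C₀ * ((N : ℝ) * (1 + Real.log N) + T) := h4
    nlinarith
  · have h2 := WW_le N c t hN hc
    have h3 : (N : ℝ) < 4 * (c : ℝ) ^ 2 := by
      have h4 : x ≤ y := by nlinarith
      have h5 : y * y < 2 * c * y := by
        rw [hyy]
        have : 2 * c * x ≤ 2 * c * y := mul_le_mul_of_nonneg_left h4 (by positivity)
        linarith
      have h6 : y < 2 * c := lt_of_mul_lt_mul_right h5 (by linarith)
      calc (N : ℝ) = y * y := hyy.symm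
        _ < (2 * c) * (2 * c) := mul_lt_mul'' h6 h6 (by linarith) (by linarith)
        _ = _ := by ring
    have h4 : 3 * c * (N : ℝ) ^ 2 ≤ 48 * (c : ℝ) ^ 5 := by
      have h5 : (N : ℝ) ^ 2 ≤ (4 * (c : ℝ) ^ 2) ^ 2 := pow_le_pow_left₀ hn0.le h3.le 2
      have h6 := mul_le_mul_of_nonneg_left h5 (show (0 : ℝ) ≤ 3 * c by positivity)
      nlinarith
    have h5 : 96 * (c : ℝ) ^ 5 * (1 / 2) ≤ 96 * (c : ℝ) ^ 5 * T :=
      mul_le_mul_of_nonneg_left hT1 (by positivity)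
    have h6 : 0 ≤ 7 * C₀ * T := by positivity
    nlinarith

/-- the scale `M` -/
lemma bound_M (hW : S_WPTG) (c : ℕ) (η : ℝ) (hc : 1 ≤ c) (hη : 0 < η) :
    ∃ C : ℝ, 0 ≤ C ∧ ∀ (N M : ℕ) (t : ℝ) (ρ : ℚ), 1 ≤ M → M ^ 2 ≤ N →
      (ρ.den : ℝ) ≤ (N : ℝ) ^ η → |t - ρ| ≤ (N : ℝ) ^ (-2 + η) / ρ.den →
      (N : ℝ) ^ (2 * η) ≤ M → WW M c t ≤ C * ((M : ℝ) ^ 2 / ρ.den) := by
  obtain ⟨C₀, hC₀, hC⟩ := hW c (1 / 2) hc (by norm_num) (by norm_num)
  refine ⟨4 * C₀ + 6 * (c : ℝ) ^ 2, by positivity, ?_⟩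
  intro N M t ρ hM hMN hq hβ hbig
  have hm : (1 : ℝ) ≤ M := by exact_mod_cast hM
  have hm0 : (0 : ℝ) < M := by linarith
  have hmn : (M : ℝ) ^ 2 ≤ N := by exact_mod_cast hMN
  have hn : (1 : ℝ) ≤ N := by nlinarith
  have hn0 : (0 : ℝ) < N := by linarith
  have hq0 : (0 : ℝ) < ρ.den := by exact_mod_cast ρ.pos
  have hq1 : (1 : ℝ) ≤ ρ.den := by exact_mod_cast ρ.pos
  have hc1 : (1 : ℝ) ≤ c := by exact_mod_cast hc
  set x : ℝ := (N : ℝ) ^ η with hx
  have hx1 : 1 ≤ x := Real.one_le_rpow hn hη.le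
  have hxx : x * x ≤ M := by
    rw [hx, ← Real.rpow_add hn0]
    refine le_trans (le_of_eq ?_) hbig
    congr 1
    ring
  set y : ℝ := √(M : ℝ) with hy
  have hy1 : 1 ≤ y := Real.one_le_sqrt.mpr hm
  have hyy : y * y = M := Real.mul_self_sqrt hm0.le
  have hxy : x ≤ y := Real.le_sqrt_of_sq_le (by rw [pow_two]; exact hxx)
  have hqy : (ρ.den : ℝ) ≤ y := hq.trans hxy
  have hym : y ≤ M := by nlinarith
  set T : ℝ := (M : ℝ) ^ 2 / ρ.den with hT
  have hTlow : (M : ℝ) * y ≤ T := by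
    rw [hT, le_div_iff₀ hq0]
    calc (M : ℝ) * y * ρ.den ≤ M * y * y := mul_le_mul_of_nonneg_left hqy (by positivity)
      _ = (M : ℝ) ^ 2 := by rw [mul_assoc, hyy]; ring
  have hT0 : 0 ≤ T := by positivity
  rcases le_or_gt (2 * (c : ℝ)) ((M : ℝ) ^ 2) with hcase | hcase
  · have h2 : |t - ρ| ≤ 1 / (ρ.den * (2 * c * M)) := by
      refine hβ.trans ?_
      have h3 : (N : ℝ) ^ (-2 + η) = x / (N : ℝ) ^ 2 := by
        rw [Real.rpow_add hn0, Real.rpow_neg hn0.le, Real.rpow_two, hx]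
        field_simp
      rw [h3, div_div, div_le_div_iff₀ (by positivity) (by positivity)]
      have h4 : x * (ρ.den * (2 * c * M)) = (2 * c * (M * x)) * ρ.den := by ring
      rw [h4, one_mul]
      apply mul_le_mul_of_nonneg_right _ hq0.le
      have h5 : (M : ℝ) * x ≤ M ^ 2 := by
        rw [pow_two]
        exact mul_le_mul_of_nonneg_left (hxy.trans hym) hm0.le
      calc 2 * c * ((M : ℝ) * x) ≤ (M : ℝ) ^ 2 * (M : ℝ) ^ 2 :=
            mul_le_mul hcase h5 (by positivity) (by positivity)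
        _ ≤ N * N := mul_le_mul hmn hmn (by positivity) hn0.le
        _ = (N : ℝ) ^ 2 := by ring
    have h3 : ρ.den ≤ 2 * c * M := by
      have h5 : ρ.den ≤ M := by exact_mod_cast hqy.trans hym
      calc ρ.den ≤ M := h5
        _ = 1 * M := (one_mul _).symm
        _ ≤ 2 * c * M := Nat.mul_le_mul_right _ (by omega)
    have h4 := hC M t ρ hM h3 h2
    have h5 := log_le (M : ℝ) hm
    have h6 : (1 + (M : ℝ) ^ 2 * |t - ρ|) ^ (-(1 / 2 : ℝ)) ≤ 1 := by
      apply Real.rpow_le_one_of_one_le_of_nonpos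
      · have : 0 ≤ (M : ℝ) ^ 2 * |t - ρ| := by positivity
        linarith
      · norm_num
    have h7 : T * (1 + (M : ℝ) ^ 2 * |t - ρ|) ^ (-(1 / 2 : ℝ)) ≤ T := by
      have := mul_le_mul_of_nonneg_left h6 hT0
      linarith
    have h8 : (M : ℝ) * (1 + Real.log M) ≤ 3 * T := by
      have : (M : ℝ) * y = M * √(M : ℝ) := rfl
      linarith
    have h9 : WW M c t ≤ C₀ * ((M : ℝ) * (1 + Real.log M) +
      T * (1 + (M : ℝ) ^ 2 * |t - ρ|) ^ (-(1 / 2 : ℝ))) := h4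
    have h10 : C₀ * ((M : ℝ) * (1 + Real.log M) +
      T * (1 + (M : ℝ) ^ 2 * |t - ρ|) ^ (-(1 / 2 : ℝ))) ≤ C₀ * (4 * T) :=
      mul_le_mul_of_nonneg_left (by linarith) hC₀
    have h11 : 0 ≤ 6 * (c : ℝ) ^ 2 * T := by positivity
    nlinarith
  · have h2 := WW_le M c t hM hc
    have h3 : (ρ.den : ℝ) ≤ 2 * c := by
      have : (M : ℝ) ≤ M ^ 2 := by nlinarith
      linarith
    have h4 : (M : ℝ) ^ 2 = ρ.den * T := by rw [hT]; field_simp
    have h5 : 3 * c * (M : ℝ) ^ 2 ≤ 6 * (c : ℝ) ^ 2 * T := by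
      rw [h4]
      have h6 : (3 * c * ρ.den) * T ≤ (3 * c * (2 * c)) * T := by
        apply mul_le_mul_of_nonneg_right _ hT0
        exact mul_le_mul_of_nonneg_left h3 (by positivity)
      nlinarith
    have h6 : 0 ≤ 4 * C₀ * T := by positivity
    nlinarith

/-! ### the integral over the major arcs -/

lemma major (hV : S_VARC) (X₀ : ℕ) (P s L : ℝ) (E : ℕ → ℝ) (hX : 1 ≤ X₀) (hP : 0 < P)
    (hPX : 2 * P * X₀ ≤ 1) (hs : 1 < s) (hL : 0 < L) (hE : ∀ q, 0 ≤ E q) (F : ℝ → ℝ)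
    (hF : Continuous F) (hF0 : ∀ t, 0 ≤ F t)
    (hb : ∀ (t : ℝ) (ρ : ℚ), ρ.den ≤ X₀ → |t - ρ| < P / ρ.den →
      F t ≤ E ρ.den * (1 + L * |t - ρ|) ^ (-s)) :
    ∫ t in (0 : ℝ)..1, ai 0 X₀ P t * F t ≤
      ∑ q ∈ Finset.Icc 1 X₀, E q * q * (L⁻¹ * KK s) := by
  have hle : ∀ q ∈ Finset.Icc 1 X₀, 2 * P * (q : ℝ) ≤ 1 := by
    intro q hq
    rw [Finset.mem_Icc] at hq
    have h1 : (q : ℝ) ≤ X₀ := by exact_mod_cast hq.2
    have h2 := mul_le_mul_of_nonneg_left h1 (show 0 ≤ 2 * P by linarith)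
    linarith
  have hint : ∀ q ∈ Finset.Icc 1 X₀,
      IntervalIntegrable (fun t => ai (q - 1) q P t * F t) volume 0 1 := by
    intro q hq
    exact ai_int (hV (q - 1) q P (Finset.mem_Icc.mp hq).1 hP (hle q hq)).1 F hF
  have h0 : IntervalIntegrable (fun t => ai 0 X₀ P t * F t) volume 0 1 :=
    ai_int (hV 0 X₀ P hX hP hPX).1 F hF
  have hsum : IntervalIntegrable (fun t => ∑ q ∈ Finset.Icc 1 X₀, ai (q - 1) q P t * F t)
      volume 0 1 := by
    have h1 := IntervalIntegrable.sum (Finset.Icc 1 X₀)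
      (f := fun q t => ai (q - 1) q P t * F t) hint
    have h2 : (fun t => ∑ q ∈ Finset.Icc 1 X₀, ai (q - 1) q P t * F t) =
        ∑ q ∈ Finset.Icc 1 X₀, fun t => ai (q - 1) q P t * F t := by
      funext t
      rw [Finset.sum_apply]
    rw [h2]
    exact h1
  have h1 : ∫ t in (0 : ℝ)..1, ai 0 X₀ P t * F t ≤
      ∫ t in (0 : ℝ)..1, ∑ q ∈ Finset.Icc 1 X₀, ai (q - 1) q P t * F t := by
    apply intervalIntegral.integral_mono_on zero_le_one h0 hsum
    intro t _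
    rw [← Finset.sum_mul]
    exact mul_le_mul_of_nonneg_right (ai_le_sum X₀ P t) (hF0 t)
  rw [intervalIntegral.integral_finsetSum hint] at h1
  refine h1.trans (Finset.sum_le_sum fun q hq => ?_)
  have hq := Finset.mem_Icc.mp hq
  apply one_arc hV q P s (E q) L hq.1 hP (hle q (Finset.mem_Icc.mpr hq)) hs (hE q) hL F hF
  intro t ρ hd hβ
  have := hb t ρ (by omega) (by rw [hd]; exact hβ)
  rwa [hd] at this

lemma sq_rpow {n : ℝ} (hn : 0 ≤ n) (a : ℝ) : (n ^ 2) ^ a = n ^ (2 * a) := by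
  rw [Real.rpow_mul hn, Real.rpow_two]

lemma term_one {n m q A B : ℝ} (a b : ℝ) (hn : 0 < n) (hm : 0 < m) (hq : 0 < q) (hA : 0 ≤ A)
    (hB : 0 ≤ B) : (A * (n ^ 2 / q)) ^ a * (B * (m ^ 2 / q)) ^ b * q =
      A ^ a * B ^ b * (n ^ (2 * a) * m ^ (2 * b)) * q ^ (1 - (a + b)) := by
  rw [Real.mul_rpow hA (by positivity), Real.mul_rpow hB (by positivity),
    Real.div_rpow (by positivity) hq.le, Real.div_rpow (by positivity) hq.le, sq_rpow hn.le,
    sq_rpow hm.le, Real.rpow_sub hq, Real.rpow_one, Real.rpow_add hq]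
  have h1 := Real.rpow_pos_of_pos hq a
  have h2 := Real.rpow_pos_of_pos hq b
  field_simp

lemma term_two {n m q A B : ℝ} (a b : ℝ) (hn : 0 < n) (hm : 0 < m) (hq : 0 < q) (hA : 0 ≤ A)
    (hB : 0 ≤ B) : (A * (n ^ 2 / q)) ^ a * (B * m ^ 2) ^ b * q =
      A ^ a * B ^ b * (n ^ (2 * a) * m ^ (2 * b)) * q ^ (1 - a) := by
  rw [Real.mul_rpow hA (by positivity), Real.mul_rpow hB (by positivity),
    Real.div_rpow (by positivity) hq.le, sq_rpow hn.le,
    sq_rpow hm.le, Real.rpow_sub hq, Real.rpow_one]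
  have h1 := Real.rpow_pos_of_pos hq a
  field_simp

lemma pow_bound {W A D γ a : ℝ} (hW : 0 ≤ W) (hA : 0 ≤ A) (hD : 0 < D) (ha : 0 ≤ a)
    (h : W ≤ A * D ^ (-γ)) : W ^ a ≤ A ^ a * D ^ (-(γ * a)) := by
  have h1 := Real.rpow_le_rpow hW h ha
  rw [Real.mul_rpow hA (Real.rpow_nonneg hD.le _), ← Real.rpow_mul hD.le, neg_mul] at h1
  exact h1

end VMAJ

open VMAJ in
theorem t_VMAJ : M_VMAJ := by
  intro hF hV hW c a b θ hc ha hb hab hθ
  set γ : ℝ := (1 / a + 1) / 2 with hγ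
  have ha0 : 0 < a := by linarith
  have hia : 1 / a < 1 := by rw [div_lt_one ha0]; exact ha
  have hia0 : 0 < 1 / a := by positivity
  have hγ0 : 0 < γ := by rw [hγ]; linarith
  have hγ1 : γ < 1 := by rw [hγ]; linarith
  have hs : 1 < γ * a := by
    have : γ * a = (1 + a) / 2 := by rw [hγ]; field_simp
    rw [this]; linarith
  set η : ℝ := min (1 / 8) (θ / 4) with hη
  have hη0 : 0 < η := lt_min (by norm_num) (by linarith)
  have hη1 : η ≤ 1 / 8 := min_le_left _ _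
  have hη2 : η ≤ θ / 4 := min_le_right _ _
  obtain ⟨A, hA0, hA⟩ := bound_N hW c γ η hc hγ0 hγ1 hη0 hη1
  obtain ⟨B, hB0, hB⟩ := bound_M hW c η hc hη0
  have hc1 : (1 : ℝ) ≤ c := by exact_mod_cast hc
  set S : ℝ := ∑' q : ℕ, (q : ℝ) ^ (1 - (a + b)) with hS
  have hSs : Summable fun q : ℕ => (q : ℝ) ^ (1 - (a + b)) :=
    Real.summable_nat_rpow.mpr (by linarith)
  have hS0 : 0 ≤ S := tsum_nonneg fun q => Real.rpow_nonneg (Nat.cast_nonneg q) _
  have hK := KK_nonneg (γ * a)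
  have hAa : 0 ≤ A ^ a := Real.rpow_nonneg hA0 _
  have hBb : 0 ≤ B ^ b := Real.rpow_nonneg hB0 _
  have h3c : 0 ≤ (3 * (c : ℝ)) ^ b := Real.rpow_nonneg (by positivity) _
  refine ⟨η, (A ^ a * B ^ b * S + A ^ a * (3 * (c : ℝ)) ^ b) * KK (γ * a), hη0, by linarith,
    by positivity, ?_⟩
  intro N M X₀ P hM hMN hX₀ hP hPN hPX
  have hm : (1 : ℝ) ≤ M := by exact_mod_cast hM
  have hm0 : (0 : ℝ) < M := by linarith
  have hmn : (M : ℝ) ^ 2 ≤ N := by exact_mod_cast hMN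
  have hn : (1 : ℝ) ≤ N := by nlinarith
  have hN : 1 ≤ N := by exact_mod_cast hn
  have hn0 : (0 : ℝ) < N := by linarith
  have hn2a : 0 < (N : ℝ) ^ (2 * a) := Real.rpow_pos_of_pos hn0 _
  have hm2b : 0 < (M : ℝ) ^ (2 * b) := Real.rpow_pos_of_pos hm0 _
  have hratio : 1 ≤ (N : ℝ) ^ (1 / 2 : ℝ) / M := by
    rw [le_div_iff₀ hm0, one_mul, ← Real.sqrt_eq_rpow]
    exact Real.le_sqrt_of_sq_le hmn
  have hrθ : 1 ≤ ((N : ℝ) ^ (1 / 2 : ℝ) / M) ^ θ := Real.one_le_rpow hratio hθ.le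
  have hn22 : (N : ℝ) ^ (2 * a - 2) = (N : ℝ) ^ (2 * a) * ((N : ℝ) ^ 2)⁻¹ := by
    rw [Real.rpow_sub hn0, Real.rpow_two, div_eq_mul_inv]
  set Z : ℝ := (N : ℝ) ^ (2 * a - 2) * (M : ℝ) ^ (2 * b) with hZ
  have hZ0 : 0 ≤ Z := by positivity
  have hFc : Continuous fun t => WW N c t ^ a * WW M c t ^ b :=
    ((hF.cont N c).rpow_const fun t => Or.inr ha0.le).mul
      ((hF.cont M c).rpow_const fun t => Or.inr (by linarith))
  have hF0 : ∀ t, 0 ≤ WW N c t ^ a * WW M c t ^ b := fun t =>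
    mul_nonneg (Real.rpow_nonneg (WW_nonneg N c t) _) (Real.rpow_nonneg (WW_nonneg M c t) _)
  rcases Nat.eq_zero_or_pos X₀ with h0 | hX
  · subst h0
    have h1 : ∀ t, ai 0 0 P t = 0 := by
      intro t
      apply ai_of_not_mem
      rintro ⟨ρ, h1, h2, _⟩
      omega
    have h2 : ∫ t in (0 : ℝ)..1, ai 0 0 P t * (WW N c t ^ a * WW M c t ^ b) = 0 := by
      simp [h1]
    rw [h2]
    positivity
  have hL : (0 : ℝ) < (N : ℝ) ^ 2 := by positivity
  have hden : ∀ (t : ℝ) (ρ : ℚ), ρ.den ≤ X₀ → |t - ρ| < P / ρ.den →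
      (ρ.den : ℝ) ≤ (N : ℝ) ^ η ∧ |t - ρ| ≤ (N : ℝ) ^ (-2 + η) / ρ.den := by
    intro t ρ h1 h2
    refine ⟨le_trans (by exact_mod_cast h1) hX₀, h2.le.trans ?_⟩
    exact div_le_div_of_nonneg_right hPN (Nat.cast_nonneg _)
  rcases le_or_gt ((N : ℝ) ^ (2 * η)) (M : ℝ) with hbig | hsmall
  · have key := major hV X₀ P (γ * a) ((N : ℝ) ^ 2)
      (fun q => (A * ((N : ℝ) ^ 2 / q)) ^ a * (B * ((M : ℝ) ^ 2 / q)) ^ b) hX hP hPX hs hL
      (fun q => by positivity) (fun t => WW N c t ^ a * WW M c t ^ b) hFc hF0 (by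
        intro t ρ h1 h2
        obtain ⟨h3, h4⟩ := hden t ρ h1 h2
        have h5 := hA N t ρ hN h3 h4
        have h6 := hB N M t ρ hM hMN h3 h4 hbig
        have hD : 0 < 1 + (N : ℝ) ^ 2 * |t - ρ| := by positivity
        rw [← mul_assoc] at h5
        have h7 := pow_bound (WW_nonneg N c t) (by positivity) hD ha0.le h5
        have h8 := Real.rpow_le_rpow (WW_nonneg M c t) h6 (show 0 ≤ b by linarith)
        have h9 := mul_le_mul h7 h8 (Real.rpow_nonneg (WW_nonneg M c t) _) (by positivity)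
        refine h9.trans (le_of_eq ?_)
        ring)
    refine key.trans ?_
    have h1 : ∀ q ∈ Finset.Icc 1 X₀,
        (A * ((N : ℝ) ^ 2 / q)) ^ a * (B * ((M : ℝ) ^ 2 / q)) ^ b * q *
          (((N : ℝ) ^ 2)⁻¹ * KK (γ * a)) =
        A ^ a * B ^ b * KK (γ * a) * Z * (q : ℝ) ^ (1 - (a + b)) := by
      intro q hq
      have hq0 : (0 : ℝ) < q := by exact_mod_cast (Finset.mem_Icc.mp hq).1
      rw [term_one a b hn0 hm0 hq0 hA0 hB0, hZ, hn22]
      ring
    rw [Finset.sum_congr rfl h1, ← Finset.mul_sum]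
    have h2 : ∑ q ∈ Finset.Icc 1 X₀, (q : ℝ) ^ (1 - (a + b)) ≤ S :=
      hSs.sum_le_tsum _ fun q _ => Real.rpow_nonneg (Nat.cast_nonneg q) _
    have h3 : A ^ a * B ^ b * KK (γ * a) * Z * ∑ q ∈ Finset.Icc 1 X₀, (q : ℝ) ^ (1 - (a + b)) ≤
        A ^ a * B ^ b * KK (γ * a) * Z * S := mul_le_mul_of_nonneg_left h2 (by positivity)
    have h4 : A ^ a * B ^ b * KK (γ * a) * Z * S ≤
        (A ^ a * B ^ b * S + A ^ a * (3 * (c : ℝ)) ^ b) * KK (γ * a) * Z := by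
      have : 0 ≤ A ^ a * (3 * (c : ℝ)) ^ b * KK (γ * a) * Z := by positivity
      nlinarith
    have h5 : 0 ≤ (A ^ a * B ^ b * S + A ^ a * (3 * (c : ℝ)) ^ b) * KK (γ * a) * Z := by
      positivity
    have h6 := mul_le_mul_of_nonneg_left hrθ h5
    refine h3.trans (h4.trans ?_)
    calc _ = (A ^ a * B ^ b * S + A ^ a * (3 * (c : ℝ)) ^ b) * KK (γ * a) * Z * 1 := by ring
      _ ≤ _ := h6
      _ = _ := by ring
  · have key := major hV X₀ P (γ * a) ((N : ℝ) ^ 2)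
      (fun q => (A * ((N : ℝ) ^ 2 / q)) ^ a * (3 * c * (M : ℝ) ^ 2) ^ b) hX hP hPX hs hL
      (fun q => by positivity) (fun t => WW N c t ^ a * WW M c t ^ b) hFc hF0 (by
        intro t ρ h1 h2
        obtain ⟨h3, h4⟩ := hden t ρ h1 h2
        have h5 := hA N t ρ hN h3 h4
        have h6 := WW_le M c t hM hc
        have hD : 0 < 1 + (N : ℝ) ^ 2 * |t - ρ| := by positivity
        rw [← mul_assoc] at h5
        have h7 := pow_bound (WW_nonneg N c t) (by positivity) hD ha0.le h5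
        have h8 := Real.rpow_le_rpow (WW_nonneg M c t) h6 (show 0 ≤ b by linarith)
        have h9 := mul_le_mul h7 h8 (Real.rpow_nonneg (WW_nonneg M c t) _) (by positivity)
        refine h9.trans (le_of_eq ?_)
        ring)
    refine key.trans ?_
    have h1 : ∀ q ∈ Finset.Icc 1 X₀,
        (A * ((N : ℝ) ^ 2 / q)) ^ a * (3 * c * (M : ℝ) ^ 2) ^ b * q *
          (((N : ℝ) ^ 2)⁻¹ * KK (γ * a)) ≤
        A ^ a * (3 * (c : ℝ)) ^ b * KK (γ * a) * Z := by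
      intro q hq
      have hq1 : (1 : ℝ) ≤ q := by exact_mod_cast (Finset.mem_Icc.mp hq).1
      rw [term_two a b hn0 hm0 (by linarith) hA0 (show (0 : ℝ) ≤ 3 * c by positivity)]
      have h2 : (q : ℝ) ^ (1 - a) ≤ 1 := Real.rpow_le_one_of_one_le_of_nonpos hq1 (by linarith)
      have h3 : 0 ≤ A ^ a * (3 * (c : ℝ)) ^ b * ((N : ℝ) ^ (2 * a) * (M : ℝ) ^ (2 * b)) *
          (((N : ℝ) ^ 2)⁻¹ * KK (γ * a)) := by positivity
      calc _ = A ^ a * (3 * (c : ℝ)) ^ b * ((N : ℝ) ^ (2 * a) * (M : ℝ) ^ (2 * b)) *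
          (((N : ℝ) ^ 2)⁻¹ * KK (γ * a)) * (q : ℝ) ^ (1 - a) := by ring
        _ ≤ A ^ a * (3 * (c : ℝ)) ^ b * ((N : ℝ) ^ (2 * a) * (M : ℝ) ^ (2 * b)) *
          (((N : ℝ) ^ 2)⁻¹ * KK (γ * a)) * 1 := mul_le_mul_of_nonneg_left h2 h3
        _ = _ := by rw [hZ, hn22]; ring
    refine (Finset.sum_le_sum h1).trans ?_
    rw [Finset.sum_const, Nat.card_Icc, Nat.add_sub_cancel, nsmul_eq_mul]
    have h2 : (N : ℝ) ^ η ≤ ((N : ℝ) ^ (1 / 2 : ℝ) / M) ^ θ := by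
      have h3 : (N : ℝ) ^ (1 / 4 : ℝ) ≤ (N : ℝ) ^ (1 / 2 : ℝ) / M := by
        rw [le_div_iff₀ hm0]
        have h4 : (M : ℝ) ≤ (N : ℝ) ^ (1 / 4 : ℝ) :=
          hsmall.le.trans (Real.rpow_le_rpow_of_exponent_le hn (by linarith))
        calc (N : ℝ) ^ (1 / 4 : ℝ) * M ≤ (N : ℝ) ^ (1 / 4 : ℝ) * (N : ℝ) ^ (1 / 4 : ℝ) :=
              mul_le_mul_of_nonneg_left h4 (Real.rpow_nonneg hn0.le _)
          _ = (N : ℝ) ^ (1 / 2 : ℝ) := by rw [← Real.rpow_add hn0]; norm_num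
      have h5 := Real.rpow_le_rpow (Real.rpow_nonneg hn0.le _) h3 hθ.le
      rw [← Real.rpow_mul hn0.le] at h5
      refine le_trans (Real.rpow_le_rpow_of_exponent_le hn ?_) h5
      linarith
    have h3 : (X₀ : ℝ) ≤ ((N : ℝ) ^ (1 / 2 : ℝ) / M) ^ θ := hX₀.trans h2
    have h4 : 0 ≤ A ^ a * (3 * (c : ℝ)) ^ b * KK (γ * a) * Z := by positivity
    have h5 := mul_le_mul_of_nonneg_right h3 h4
    refine h5.trans ?_
    have h6 : 0 ≤ ((N : ℝ) ^ (1 / 2 : ℝ) / M) ^ θ := by linarith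
    have h7 : 0 ≤ A ^ a * B ^ b * S * KK (γ * a) * Z := by positivity
    have h8 : A ^ a * (3 * (c : ℝ)) ^ b * KK (γ * a) * Z ≤
        (A ^ a * B ^ b * S + A ^ a * (3 * (c : ℝ)) ^ b) * KK (γ * a) * Z := by nlinarith
    calc _ ≤ ((N : ℝ) ^ (1 / 2 : ℝ) / M) ^ θ *
        ((A ^ a * B ^ b * S + A ^ a * (3 * (c : ℝ)) ^ b) * KK (γ * a) * Z) :=
          mul_le_mul_of_nonneg_left h8 h6
      _ = _ := by ring

end

end SYM
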