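import Pool.Agent.SYM.StT

/-!
# Multipliers in time

A bounded measurable periodic function of time acts on `L²(0, 1)` by convolution, and its norm is
at most the supremum of its Fourier coefficients.
-/

set_option autoImplicit false

namespace SYM

namespace VPAR

open STZ MeasureTheory Set AddCircle

open scoped ComplexConjugate Real

noncomputable section

/-- the Fourier coefficients on the unit interval -/
def cf (f : ℝ → ℂ) (n : ℤ) : ℂ := ∫ t in (0 : ℝ)..1, f t * eu (-(n * t))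

instance fact01 : Fact ((0 : ℝ) < 1) := ⟨zero_lt_one⟩

lemma fourier_eu (n : ℤ) (t : ℝ) : fourier (-n) (t : AddCircle (1 : ℝ)) = eu (-(n * t)) := by
  rw [fourier_coe_apply, eu]
  congr 1
  push_cast
  ring

lemma coeff_lift (f : ℝ → ℂ) (n : ℤ) : fourierCoeff (liftIoc (1 : ℝ) 0 f) n = cf f n := by
  rw [fourierCoeff_eq_intervalIntegral _ _ 0, cf, zero_add, div_one, one_smul]
  rw [intervalIntegral.integral_of_le zero_le_one, intervalIntegral.integral_of_le zero_le_one]
  refine setIntegral_congr_fun measurableSet_Ioc fun x hx => ?_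
  rw [liftIoc_coe_apply (by rwa [zero_add]), fourier_eu, smul_eq_mul, mul_comm]

lemma haar_lift (f : ℝ → ℂ) : ∫ t, liftIoc (1 : ℝ) 0 f t ∂haarAddCircle = ∫ t in (0 : ℝ)..1, f t := by
  rw [integral_haarAddCircle, integral_liftIoc_eq_intervalIntegral]
  simp

lemma memLp_lift {f : ℝ → ℂ} (hf : MemLp f 2 (volume.restrict (Ioc 0 1))) :
    MemLp (liftIoc (1 : ℝ) 0 f) 2 haarAddCircle := by
  have h : MemLp f 2 (volume.restrict (Ioc 0 (0 + 1))) := by rwa [zero_add]
  exact h.memLp_liftIoc.haarAddCircle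

lemma inner_lift {f h : ℝ → ℂ} (hf : MemLp (liftIoc (1 : ℝ) 0 f) 2 haarAddCircle)
    (hh : MemLp (liftIoc (1 : ℝ) 0 h) 2 haarAddCircle) :
    inner ℂ hf.toLp hh.toLp = ∫ t in (0 : ℝ)..1, conj (f t) * h t := by
  rw [L2.inner_def, ← haar_lift (fun t => conj (f t) * h t)]
  apply integral_congr_ae
  filter_upwards [hf.coeFn_toLp, hh.coeFn_toLp] with x h1 h2
  rw [h1, h2, RCLike.inner_apply']
  have h3 := liftIoc_comp_apply (f := fun t : ℝ => (f t, h t)) (g := fun z : ℂ × ℂ => conj z.1 * z.2)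
    (a := (0 : ℝ)) (x := x)
  have h4 := liftIoc_comp_apply (f := fun t : ℝ => (f t, h t)) (g := fun z : ℂ × ℂ => z.1)
    (a := (0 : ℝ)) (x := x)
  have h5 := liftIoc_comp_apply (f := fun t : ℝ => (f t, h t)) (g := fun z : ℂ × ℂ => z.2)
    (a := (0 : ℝ)) (x := x)
  simp only [Function.comp_def] at h3 h4 h5
  rw [h3, h4, h5]

lemma parseval {f h : ℝ → ℂ} (hf : MemLp f 2 (volume.restrict (Ioc 0 1)))
    (hh : MemLp h 2 (volume.restrict (Ioc 0 1))) :
    HasSum (fun n => conj (cf f n) * cf h n) (∫ t in (0 : ℝ)..1, conj (f t) * h t) := by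
  have hf' := memLp_lift hf
  have hh' := memLp_lift hh
  have h1 := (fourierBasis (T := (1 : ℝ))).hasSum_inner_mul_inner hf'.toLp hh'.toLp
  rw [inner_lift hf' hh'] at h1
  have h2 : (fun n => conj (cf f n) * cf h n) = fun i =>
      inner ℂ hf'.toLp ((fourierBasis (T := (1 : ℝ))) i) *
        inner ℂ ((fourierBasis (T := (1 : ℝ))) i) hh'.toLp := by
    ext n
    rw [← inner_conj_symm (𝕜 := ℂ) hf'.toLp, ← HilbertBasis.repr_apply_apply, ← HilbertBasis.repr_apply_apply,
      fourierBasis_repr, fourierBasis_repr, fourierCoeff_congr_ae hf'.coeFn_toLp,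
      fourierCoeff_congr_ae hh'.coeFn_toLp, coeff_lift, coeff_lift]
  rw [h2]
  exact h1

lemma bound {f h : ℝ → ℂ} {E : ℝ} (hf : MemLp f 2 (volume.restrict (Ioc 0 1)))
    (hh : MemLp h 2 (volume.restrict (Ioc 0 1))) (hE : ∀ n, ‖cf h n‖ ≤ E * ‖cf f n‖) :
    ‖∫ t in (0 : ℝ)..1, conj (f t) * h t‖ ≤ E * ∫ t in (0 : ℝ)..1, ‖f t‖ ^ 2 := by
  have h1 := parseval hf hh
  have h2 : HasSum (fun n => ‖cf f n‖ ^ 2) (∫ t in (0 : ℝ)..1, ‖f t‖ ^ 2) := by
    have h3 := parseval hf hf
    rw [← Complex.hasSum_ofReal]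
    convert h3 using 1
    · ext n
      rw [← Complex.normSq_eq_conj_mul_self, Complex.normSq_eq_norm_sq]
    · rw [← intervalIntegral.integral_ofReal]
      congr 1
      ext t
      rw [← Complex.normSq_eq_conj_mul_self, Complex.normSq_eq_norm_sq]
  have h4 := h2.mul_left E
  rw [← h1.tsum_eq]
  refine tsum_of_norm_bounded h4 fun n => ?_
  rw [norm_mul, RCLike.norm_conj]
  calc ‖cf f n‖ * ‖cf h n‖ ≤ ‖cf f n‖ * (E * ‖cf f n‖) :=
        mul_le_mul_of_nonneg_left (hE n) (norm_nonneg _)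
    _ = E * ‖cf f n‖ ^ 2 := by ring

lemma norm_eu (x : ℝ) : ‖eu x‖ = 1 := by
  rw [eu]
  have : (2 * π * x * Complex.I : ℂ) = ((2 * π * x : ℝ) : ℂ) * Complex.I := by push_cast; ring
  rw [this, Complex.norm_exp_ofReal_mul_I]

lemma eu_add (x y : ℝ) : eu (x + y) = eu x * eu y := by
  rw [eu, eu, eu, ← Complex.exp_add]
  congr 1
  push_cast
  ring

lemma eu_int (n : ℤ) : eu n = 1 := by
  rw [eu]
  have : (2 * π * (n : ℝ) * Complex.I : ℂ) = n * (2 * π * Complex.I) := by push_cast; ring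
  rw [this, Complex.exp_int_mul_two_pi_mul_I]

lemma continuous_eu : Continuous eu := by
  unfold eu
  fun_prop

variable {φ : ℝ → ℂ} {B : ℝ} {g : ℝ → ℂ}

/-- the kernel of the convolution is integrable on the square -/
lemma integrable_ker (hφ : Measurable φ) (hB : ∀ t, ‖φ t‖ ≤ B) (hg : Continuous g) (n : ℤ) :
    Integrable (Function.uncurry fun t s => φ (t - s) * g s * eu (-(n * t)))
      ((volume.restrict (Ioc (0 : ℝ) 1)).prod (volume.restrict (Ioc (0 : ℝ) 1))) := by
  obtain ⟨C, hC⟩ := (isCompact_Icc (a := (0 : ℝ)) (b := 1)).exists_bound_of_continuousOn hg.continuousOn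
  have hB0 : 0 ≤ B := (norm_nonneg _).trans (hB 0)
  have hm : Measurable (Function.uncurry fun t s => φ (t - s) * g s * eu (-(n * t))) := by
    have h1 : Measurable fun p : ℝ × ℝ => φ (p.1 - p.2) := hφ.comp (measurable_fst.sub measurable_snd)
    have h2 : Measurable fun p : ℝ × ℝ => g p.2 := hg.measurable.comp measurable_snd
    have h3 : Measurable fun p : ℝ × ℝ => eu (-(n * p.1)) :=
      (continuous_eu.comp (by fun_prop)).measurable
    exact (h1.mul h2).mul h3
  refine Integrable.of_bound hm.aestronglyMeasurable (B * C) ?_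
  rw [Measure.prod_restrict]
  filter_upwards [ae_restrict_mem (measurableSet_Ioc.prod measurableSet_Ioc)] with p hp
  simp only [Function.uncurry]
  rw [norm_mul, norm_mul, norm_eu, mul_one]
  exact mul_le_mul (hB _) (hC _ ⟨hp.2.1.le, hp.2.2⟩) (norm_nonneg _) hB0

/-- the Fourier coefficients of the convolution -/
lemma cf_conv (hφ : Measurable φ) (hB : ∀ t, ‖φ t‖ ≤ B) (hp : ∀ t, φ (t + 1) = φ t)
    (hg : Continuous g) (n : ℤ) :
    cf (fun t => ∫ s in (0 : ℝ)..1, φ (t - s) * g s) n = cf φ n * cf g n := by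
  have h0 : (0 : ℝ) ≤ 1 := zero_le_one
  have h1 : cf (fun t => ∫ s in (0 : ℝ)..1, φ (t - s) * g s) n =
      ∫ t in (0 : ℝ)..1, ∫ s in (0 : ℝ)..1, φ (t - s) * g s * eu (-(n * t)) := by
    rw [cf]
    congr 1
    ext t
    rw [← intervalIntegral.integral_mul_const]
  have h2 : (∫ t in (0 : ℝ)..1, ∫ s in (0 : ℝ)..1, φ (t - s) * g s * eu (-(n * t))) =
      ∫ s in (0 : ℝ)..1, ∫ t in (0 : ℝ)..1, φ (t - s) * g s * eu (-(n * t)) := by
    simp only [intervalIntegral.integral_of_le h0]
    exact integral_integral_swap (integrable_ker hφ hB hg n)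
  have h3 : ∀ s : ℝ, (∫ t in (0 : ℝ)..1, φ (t - s) * g s * eu (-(n * t))) =
      cf φ n * (g s * eu (-(n * s))) := by
    intro s
    have h4 : (fun t => φ (t - s) * g s * eu (-(n * t))) =
        fun t => (fun u => φ u * eu (-(n * u)) * (g s * eu (-(n * s)))) (t - s) := by
      ext t
      have : -((n : ℝ) * t) = -(n * (t - s)) + -(n * s) := by ring
      simp only []
      rw [this, eu_add]
      ring
    rw [h4, intervalIntegral.integral_comp_sub_right
      (fun u => φ u * eu (-(n * u)) * (g s * eu (-(n * s)))) s, intervalIntegral.integral_mul_const]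
    congr 1
    have hper : Function.Periodic (fun u => φ u * eu (-(n * u))) 1 := by
      intro u
      simp only []
      have : -((n : ℝ) * (u + 1)) = -(n * u) + ((-n : ℤ) : ℝ) := by push_cast; ring
      rw [hp, this, eu_add, eu_int, mul_one]
    have h5 := hper.intervalIntegral_add_eq (0 - s) 0
    rw [zero_add] at h5
    rw [cf, ← h5]
    congr 1
    ring
  rw [h1, h2, cf.eq_def g, ← intervalIntegral.integral_const_mul]
  congr 1
  ext s
  rw [h3]

lemma memLp_bdd {f : ℝ → ℂ} {C : ℝ} (hf : Measurable f) (h : ∀ t ∈ Ioc (0 : ℝ) 1, ‖f t‖ ≤ C) :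
    MemLp f 2 (volume.restrict (Ioc 0 1)) := by
  refine MemLp.of_bound hf.aestronglyMeasurable C ?_
  filter_upwards [ae_restrict_mem measurableSet_Ioc] with t ht
  exact h t ht

end

end VPAR

open STZ MeasureTheory Set VPAR

open scoped ComplexConjugate

theorem t_VPAR : S_VPAR := by
  intro φ B E hφ hB hp hE0 hE g hg
  obtain ⟨C, hC⟩ := (isCompact_Icc (a := (0 : ℝ)) (b := 1)).exists_bound_of_continuousOn hg.continuousOn
  have hC0 : 0 ≤ C := (norm_nonneg _).trans (hC 0 ⟨le_rfl, zero_le_one⟩)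
  have hB0 : 0 ≤ B := (norm_nonneg _).trans (hB 0)
  have hgL : MemLp g 2 (volume.restrict (Ioc 0 1)) :=
    memLp_bdd (C := C) hg.measurable fun t ht => hC t ⟨ht.1.le, ht.2⟩
  have hFm : Measurable fun t => ∫ s in (0 : ℝ)..1, φ (t - s) * g s := by
    simp only [intervalIntegral.integral_of_le (zero_le_one (α := ℝ))]
    have h1 : StronglyMeasurable fun p : ℝ × ℝ => φ (p.1 - p.2) * g p.2 :=
      ((hφ.comp (measurable_fst.sub measurable_snd)).mul
        (hg.measurable.comp measurable_snd)).stronglyMeasurable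
    exact h1.integral_prod_right.measurable
  have hFb : ∀ t, ‖∫ s in (0 : ℝ)..1, φ (t - s) * g s‖ ≤ B * C := by
    intro t
    have h1 := intervalIntegral.norm_integral_le_of_norm_le_const (a := (0 : ℝ)) (b := 1)
      (f := fun s => φ (t - s) * g s) (C := B * C) (fun s hs => by
        rw [uIoc_of_le zero_le_one] at hs
        rw [norm_mul]
        exact mul_le_mul (hB _) (hC _ ⟨hs.1.le, hs.2⟩) (norm_nonneg _) hB0)
    simpa using h1
  have hFL : MemLp (fun t => ∫ s in (0 : ℝ)..1, φ (t - s) * g s) 2 (volume.restrict (Ioc 0 1)) :=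
    memLp_bdd (C := B * C) hFm fun t _ => hFb t
  have h1 := bound (E := E) hgL hFL (fun n => by
    rw [cf_conv hφ hB hp hg n, norm_mul]
    exact mul_le_mul_of_nonneg_right (hE n) (norm_nonneg _))
  convert h1 using 4 with t
  rw [← intervalIntegral.integral_const_mul]
  congr 1
  ext s
  ring

end SYM
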