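import Pool.Agent.SYM.StU

/-!
# Ramanujan sums
-/

namespace SYM

open STZ LGR MeasureTheory Matrix Filter

namespace VRAM

theorem eu_norm (x : ℝ) : ‖eu x‖ = 1 := by
  unfold eu
  rw [Complex.norm_exp]
  simp

theorem eu_mul_nat (x : ℝ) (n : ℕ) : eu (x * n) = eu x ^ n := by
  unfold eu
  rw [← Complex.exp_nat_mul]
  congr 1
  push_cast
  ring

theorem eu_int (n : ℤ) : eu (n : ℝ) = 1 := by
  unfold eu
  rw [Complex.exp_eq_one_iff]
  exact ⟨n, by push_cast; ring⟩

theorem dvd_of_eu {j : ℤ} {m : ℕ} (hm : 1 ≤ m) (h : eu ((j : ℝ) / m) = 1) : (m : ℤ) ∣ j := by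
  unfold eu at h
  rw [Complex.exp_eq_one_iff] at h
  obtain ⟨n, hn⟩ := h
  have hm' : (m : ℂ) ≠ 0 := by
    have : m ≠ 0 := by omega
    exact_mod_cast this
  have hpi : (2 * (Real.pi : ℂ) * Complex.I) ≠ 0 := Complex.two_pi_I_ne_zero
  have h1 : ((j : ℂ) / m) * (2 * (Real.pi : ℂ) * Complex.I) = n * (2 * (Real.pi : ℂ) * Complex.I) := by
    rw [← hn]
    push_cast
    ring
  have h2 := mul_right_cancel₀ hpi h1
  rw [div_eq_iff hm'] at h2
  have h3 : j = n * m := by exact_mod_cast h2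
  exact ⟨n, by rw [h3]; ring⟩

/-- the sum over all residues -/
theorem full (m : ℕ) (hm : 1 ≤ m) (j : ℤ) :
    ‖∑ b ∈ Finset.range m, eu ((j : ℝ) * b / m)‖ ≤ if (m : ℤ) ∣ j then (m : ℝ) else 0 := by
  split_ifs with h
  · refine (norm_sum_le _ _).trans ?_
    simp [eu_norm]
  · have h1 : ∀ b ∈ Finset.range m, eu ((j : ℝ) * b / m) = eu ((j : ℝ) / m) ^ b := by
      intro b _
      rw [← eu_mul_nat]
      congr 1
      ring
    rw [Finset.sum_congr rfl h1]
    have hz : eu ((j : ℝ) / m) ≠ 1 := fun h2 => h (dvd_of_eu hm h2)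
    have hm0 : (m : ℝ) ≠ 0 := by
      have : m ≠ 0 := by omega
      exact_mod_cast this
    have hzm : eu ((j : ℝ) / m) ^ m = 1 := by
      rw [← eu_mul_nat, div_mul_cancel₀ _ hm0, eu_int]
    rw [geom_sum_eq hz, hzm]
    simp

theorem sum_mu (n : ℕ) : ∑ d ∈ n.divisors, ((ArithmeticFunction.moebius d : ℤ) : ℂ) = if n = 1 then 1 else 0 := by
  have h : ((ArithmeticFunction.moebius : ArithmeticFunction ℤ) * ((ArithmeticFunction.zeta : ArithmeticFunction ℕ) : ArithmeticFunction ℤ)) n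
      = (1 : ArithmeticFunction ℤ) n := by
    rw [ArithmeticFunction.moebius_mul_coe_zeta]
  rw [ArithmeticFunction.coe_mul_zeta_apply, ArithmeticFunction.one_apply] at h
  have h2 : ((∑ d ∈ n.divisors, (ArithmeticFunction.moebius d : ℤ) : ℤ) : ℂ) = ((if n = 1 then 1 else 0 : ℤ) : ℂ) := by
    rw [h]
  push_cast at h2
  exact h2

theorem ram_eq (q : ℕ) (hq : 1 ≤ q) (j : ℤ) : ram q j =
    ∑ d ∈ q.divisors, ((ArithmeticFunction.moebius d : ℤ) : ℂ) *
      ∑ b ∈ Finset.range (q / d), eu ((j : ℝ) * b / (q / d : ℕ)) := by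
  have hq0 : q ≠ 0 := by omega
  unfold ram
  have e1 : ∑ a ∈ (Finset.range q).filter (fun a => Nat.Coprime a q), eu ((j : ℝ) * a / q) =
      ∑ a ∈ Finset.range q, ∑ d ∈ q.divisors, if d ∣ a then
        ((ArithmeticFunction.moebius d : ℤ) : ℂ) * eu ((j : ℝ) * a / q) else 0 := by
    rw [Finset.sum_filter]
    apply Finset.sum_congr rfl
    intro a _
    rw [← Finset.sum_filter, ← Finset.sum_mul]
    have e2 : q.divisors.filter (fun d => d ∣ a) = (Nat.gcd a q).divisors := by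
      ext d
      simp only [Finset.mem_filter, Nat.mem_divisors, Nat.dvd_gcd_iff]
      constructor
      · rintro ⟨⟨h1, _⟩, h2⟩
        exact ⟨⟨h2, h1⟩, fun h => hq0 (Nat.gcd_eq_zero_iff.1 h).2⟩
      · rintro ⟨⟨h1, h2⟩, _⟩
        exact ⟨⟨h2, hq0⟩, h1⟩
    rw [e2, sum_mu]
    unfold Nat.Coprime
    split_ifs <;> simp
  rw [e1, Finset.sum_comm]
  apply Finset.sum_congr rfl
  intro d hd
  have hdq : d ∣ q := Nat.dvd_of_mem_divisors hd
  have hd0 : 0 < d := Nat.pos_of_mem_divisors hd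
  rw [← Finset.sum_filter, Finset.mul_sum]
  symm
  apply Finset.sum_nbij (fun b => d * b)
  · intro b hb
    simp only [Finset.mem_range] at hb
    simp only [Finset.mem_filter, Finset.mem_range]
    refine ⟨?_, dvd_mul_right d b⟩
    calc d * b < d * (q / d) := Nat.mul_lt_mul_of_pos_left hb hd0
      _ = q := Nat.mul_div_cancel' hdq
  · intro b _ c _ h
    exact Nat.eq_of_mul_eq_mul_left hd0 h
  · intro a ha
    simp only [Finset.coe_filter, Finset.mem_range, Set.mem_ofPred_eq] at ha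
    obtain ⟨h1, c, rfl⟩ := ha
    refine ⟨c, ?_, rfl⟩
    simp only [Finset.coe_range, Set.mem_Iio]
    exact (Nat.lt_div_iff_mul_lt' hdq c).2 h1
  · intro b _
    congr 2
    obtain ⟨c, rfl⟩ := hdq
    rw [Nat.mul_div_cancel_left _ hd0]
    have hd1 : (d : ℝ) ≠ 0 := by exact_mod_cast hd0.ne'
    have hc1 : (c : ℝ) ≠ 0 := by
      have : c ≠ 0 := by rintro rfl; simp at hq0
      exact_mod_cast this
    push_cast
    field_simp

theorem first (q : ℕ) (j : ℤ) (hq : 1 ≤ q) :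
    ‖ram q j‖ ≤ ∑ d ∈ (Nat.divisors q).filter (fun d : ℕ => (d : ℤ) ∣ j), (d : ℝ) := by
  rw [ram_eq q hq j]
  refine (norm_sum_le _ _).trans ?_
  have h1 : ∀ d ∈ q.divisors, ‖((ArithmeticFunction.moebius d : ℤ) : ℂ) *
      ∑ b ∈ Finset.range (q / d), eu ((j : ℝ) * b / (q / d : ℕ))‖ ≤
      (fun e : ℕ => if (e : ℤ) ∣ j then (e : ℝ) else 0) (q / d) := by
    intro d hd
    have hd0 : 0 < d := Nat.pos_of_mem_divisors hd
    have hdq : d ∣ q := Nat.dvd_of_mem_divisors hd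
    rw [norm_mul]
    have h2 : ‖((ArithmeticFunction.moebius d : ℤ) : ℂ)‖ ≤ 1 := by
      rw [Complex.norm_intCast]
      have := ArithmeticFunction.abs_moebius_le_one (n := d)
      exact_mod_cast this
    have h3 := full (q / d) (Nat.div_pos (Nat.le_of_dvd (by omega) hdq) hd0) j
    calc _ ≤ 1 * ‖∑ b ∈ Finset.range (q / d), eu ((j : ℝ) * b / (q / d : ℕ))‖ :=
          mul_le_mul_of_nonneg_right h2 (norm_nonneg _)
      _ ≤ _ := by rw [one_mul]; exact h3
  refine (Finset.sum_le_sum h1).trans ?_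
  rw [Nat.sum_div_divisors q (fun e : ℕ => if (e : ℤ) ∣ j then (e : ℝ) else 0), Finset.sum_filter]

theorem second (q : ℕ) (j : ℤ) : ‖ram q j‖ ≤ q := by
  unfold ram
  refine (norm_sum_le _ _).trans ?_
  simp only [eu_norm, Finset.sum_const, nsmul_eq_mul, mul_one]
  have := Finset.card_filter_le (Finset.range q) (fun a => Nat.Coprime a q)
  rw [Finset.card_range] at this
  exact_mod_cast this

theorem inner (X d : ℕ) (hd : 0 < d) :
    ∑ q ∈ Finset.Icc 1 X, (if d ∣ q then (d : ℝ) / q else 0) ≤ 1 + Real.log X := by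
  rw [← Finset.sum_filter]
  have e : ∀ q ∈ (Finset.Icc 1 X).filter (fun q => d ∣ q), (d : ℝ) / q =
      (fun m : ℕ => ((m : ℝ))⁻¹) (q / d) := by
    intro q hq
    simp only [Finset.mem_filter, Finset.mem_Icc] at hq
    obtain ⟨⟨h1, _⟩, c, rfl⟩ := hq
    rw [Nat.mul_div_cancel_left _ hd]
    have hd1 : (d : ℝ) ≠ 0 := by exact_mod_cast hd.ne'
    have hc1 : (c : ℝ) ≠ 0 := by
      have : c ≠ 0 := by rintro rfl; simp at h1
      exact_mod_cast this
    push_cast
    field_simp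
  rw [Finset.sum_congr rfl e]
  have hinj : Set.InjOn (fun q : ℕ => q / d) ((Finset.Icc 1 X).filter (fun q => d ∣ q)) := by
    intro a ha b hb hab
    simp only [Finset.coe_filter, Finset.mem_Icc, Set.mem_ofPred_eq] at ha hb
    obtain ⟨_, c, rfl⟩ := ha
    obtain ⟨_, c', rfl⟩ := hb
    simp only [Nat.mul_div_cancel_left _ hd] at hab
    rw [hab]
  rw [← Finset.sum_image (f := fun m : ℕ => ((m : ℝ))⁻¹) hinj]
  have hsub : ((Finset.Icc 1 X).filter (fun q => d ∣ q)).image (fun q => q / d) ⊆ Finset.Icc 1 X := by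
    intro m hm
    simp only [Finset.mem_image, Finset.mem_filter, Finset.mem_Icc] at hm
    obtain ⟨q, ⟨⟨h1, h2⟩, h3⟩, rfl⟩ := hm
    simp only [Finset.mem_Icc]
    exact ⟨Nat.div_pos (Nat.le_of_dvd h1 h3) hd, (Nat.div_le_self q d).trans h2⟩
  refine (Finset.sum_le_sum_of_subset_of_nonneg hsub (fun m _ _ => by positivity)).trans ?_
  have h := harmonic_le_one_add_log X
  rw [harmonic_eq_sum_Icc] at h
  push_cast at h
  exact h

theorem third (X : ℕ) (j : ℤ) (hj : j ≠ 0) :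
    ∑ q ∈ Finset.Icc 1 X, ‖ram q j‖ / q ≤ ((Nat.divisors j.natAbs).card : ℝ) * (1 + Real.log X) := by
  have h1 : ∀ q ∈ Finset.Icc 1 X, ‖ram q j‖ / q ≤
      ∑ d ∈ Nat.divisors j.natAbs, (if d ∣ q then (d : ℝ) / q else 0) := by
    intro q hq
    rw [Finset.mem_Icc] at hq
    have hq0 : (0 : ℝ) < q := by exact_mod_cast hq.1
    have h2 := first q j hq.1
    rw [div_le_iff₀ hq0]
    refine h2.trans ?_
    rw [← Finset.sum_filter, Finset.sum_mul]
    have e : ∀ d ∈ (Nat.divisors j.natAbs).filter (fun d => d ∣ q), (d : ℝ) / q * q = d := by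
      intro d _
      field_simp
    rw [Finset.sum_congr rfl e]
    apply Finset.sum_le_sum_of_subset_of_nonneg
    · intro d hd
      simp only [Finset.mem_filter, Nat.mem_divisors] at hd ⊢
      refine ⟨⟨?_, ?_⟩, hd.1.1⟩
      · exact Int.natCast_dvd.1 hd.2
      · simpa using hj
    · intro d _ _
      positivity
  refine (Finset.sum_le_sum h1).trans ?_
  rw [Finset.sum_comm]
  have h3 : ∀ d ∈ Nat.divisors j.natAbs, ∑ q ∈ Finset.Icc 1 X, (if d ∣ q then (d : ℝ) / q else 0) ≤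
      1 + Real.log X := fun d hd => inner X d (Nat.pos_of_mem_divisors hd)
  refine (Finset.sum_le_sum h3).trans ?_
  rw [Finset.sum_const, nsmul_eq_mul]

end VRAM

theorem t_VRAM : S_VRAM :=
  ⟨fun q j hq => VRAM.first q j hq, fun q j => VRAM.second q j, fun X j _ hj => VRAM.third X j hj⟩

end SYM
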