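import Pool.Agent.SYM.StU

/-!
# SYM, module VREP: representations by `u² + E v²`
-/

namespace SYM

open STZ LGR MeasureTheory Matrix Filter

open scoped ComplexConjugate Matrix Real Topology

noncomputable section

namespace VREP

/-- two solutions with `m ∣ u v' - u' v` agree up to the sign -/
lemma same (E m : ℤ) (hE : 2 ≤ E) (hm : 1 ≤ m) (u v u' v' : ℤ) (h : u ^ 2 + E * v ^ 2 = m)
    (h' : u' ^ 2 + E * v' ^ 2 = m) (hd : m ∣ u * v' - u' * v) :
    (u' = u ∧ v' = v) ∨ (u' = -u ∧ v' = -v) := by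
  obtain ⟨j, hj⟩ := hd
  have e1 : (u * u' + E * v * v') ^ 2 + E * (u * v' - u' * v) ^ 2 = m ^ 2 := by
    calc (u * u' + E * v * v') ^ 2 + E * (u * v' - u' * v) ^ 2
        = (u ^ 2 + E * v ^ 2) * (u' ^ 2 + E * v' ^ 2) := by ring
      _ = m ^ 2 := by rw [h, h']; ring
  have j0 : j = 0 := by
    by_contra hj0
    have h1 : 1 ≤ j ^ 2 := by
      have : 0 < j ^ 2 := by positivity
      linarith
    have h2 : E * (u * v' - u' * v) ^ 2 = E * j ^ 2 * m ^ 2 := by rw [hj]; ring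
    have h3 : 2 * 1 ≤ E * j ^ 2 := mul_le_mul hE h1 (by norm_num) (by linarith)
    have h4 : 0 < m ^ 2 := by positivity
    nlinarith [sq_nonneg (u * u' + E * v * v')]
  rw [j0, mul_zero] at hj
  rw [hj] at e1
  have e2 : (u * u' + E * v * v') ^ 2 = m ^ 2 := by linarith
  have hm0 : m ≠ 0 := by linarith
  have eu1 : m * u' = u * (u * u' + E * v * v') - E * v * (u * v' - u' * v) := by
    rw [← h]; ring
  have ev1 : m * v' = v * (u * u' + E * v * v') + u * (u * v' - u' * v) := by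
    rw [← h]; ring
  rw [hj] at eu1 ev1
  rcases sq_eq_sq_iff_eq_or_eq_neg.mp e2 with hl | hl
  · left
    rw [hl] at eu1 ev1
    exact ⟨mul_left_cancel₀ hm0 (by linarith), mul_left_cancel₀ hm0 (by linarith)⟩
  · right
    rw [hl] at eu1 ev1
    exact ⟨mul_left_cancel₀ hm0 (by linarith), mul_left_cancel₀ hm0 (by linarith)⟩

/-- the root which belongs to a primitive solution -/
lemma root (E m : ℤ) (hm : 1 ≤ m) (u v : ℤ) (h : u ^ 2 + E * v ^ 2 = m) (hc : IsCoprime u v) :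
    ∃ x : ℤ, 0 ≤ x ∧ x < m ∧ m ∣ x * v - u ∧ m ∣ x ^ 2 + E := by
  have hvm : IsCoprime v m := by
    have h1 : IsCoprime v (u ^ 2) := (hc.symm).pow_right
    have h2 := h1.add_mul_left_right (E * v)
    have h3 : u ^ 2 + v * (E * v) = m := by rw [← h]; ring
    rwa [h3] at h2
  obtain ⟨a, b, hab⟩ := hvm
  have hd : m ∣ (u * a) % m * v - u := by
    have h1 : (u * a) % m = u * a - m * (u * a / m) := by
      have := Int.emod_add_mul_ediv (u * a) m
      linarith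
    refine ⟨-(u * b) - (u * a / m) * v, ?_⟩
    rw [h1]
    have h2 : a * v = 1 - b * m := by linarith
    calc (u * a - m * (u * a / m)) * v - u = u * (a * v) - m * (u * a / m) * v - u := by ring
      _ = m * (-(u * b) - (u * a / m) * v) := by rw [h2]; ring
  refine ⟨(u * a) % m, Int.emod_nonneg _ (by linarith), Int.emod_lt_of_pos _ (by linarith), hd, ?_⟩
  generalize (u * a) % m = x at hd
  have h1 : m ∣ v ^ 2 * (x ^ 2 + E) := by
    have h2 : v ^ 2 * (x ^ 2 + E) = (x * v - u) * (x * v + u) + m := by rw [← h]; ring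
    rw [h2]
    exact dvd_add (Dvd.dvd.mul_right hd _) dvd_rfl
  have h2 : IsCoprime m (v ^ 2) := by
    have : IsCoprime v m := ⟨a, b, hab⟩
    exact this.symm.pow_right
  exact h2.dvd_of_dvd_mul_left h1

/-- two roots: `m / gcd (m, x - x₀)` divides `x + x₀` -/
lemma two (E : ℤ) (m : ℕ) (hm : 1 ≤ m) (x x₀ : ℤ) (h : (m : ℤ) ∣ x ^ 2 + E) (h₀ : (m : ℤ) ∣ x₀ ^ 2 + E)
    (d : ℕ) (hd : d = Int.gcd m (x - x₀)) :
    d ∣ m ∧ (d : ℤ) ∣ x - x₀ ∧ ((m / d : ℕ) : ℤ) ∣ x + x₀ ∧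
      ((Nat.gcd d (m / d) : ℕ) : ℤ) ^ 2 ∣ 4 * E := by
  have hdm : d ∣ m := by
    rw [hd]
    have := Int.gcd_dvd_natAbs_left (m : ℤ) (x - x₀)
    simpa using this
  have hdx : (d : ℤ) ∣ x - x₀ := by
    rw [hd]; exact Int.gcd_dvd_right _ _
  have hd0 : 0 < d := Nat.pos_of_dvd_of_pos hdm (by omega)
  have hq : (d : ℤ) * ((m / d : ℕ) : ℤ) = m := by
    rw [← Nat.cast_mul, Nat.mul_div_cancel' hdm]
  have hdd : ((m / d : ℕ) : ℤ) ∣ x + x₀ := by
    have h1 : (m : ℤ) ∣ (x - x₀) * (x + x₀) := by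
      have h2 : (x - x₀) * (x + x₀) = (x ^ 2 + E) - (x₀ ^ 2 + E) := by ring
      rw [h2]; exact dvd_sub h h₀
    have h2 : (m : ℤ) ∣ m * (x + x₀) := Dvd.intro _ rfl
    obtain ⟨a, b, hab⟩ : ∃ a b : ℤ, (d : ℤ) = m * a + (x - x₀) * b := by
      refine ⟨Int.gcdA m (x - x₀), Int.gcdB m (x - x₀), ?_⟩
      rw [hd]; exact Int.gcd_eq_gcd_ab _ _
    have h3 : (m : ℤ) ∣ d * (x + x₀) := by
      have h4 : (d : ℤ) * (x + x₀) = a * (m * (x + x₀)) + b * ((x - x₀) * (x + x₀)) := by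
        rw [hab]; ring
      rw [h4]
      exact dvd_add (Dvd.dvd.mul_left h2 _) (Dvd.dvd.mul_left h1 _)
    rw [← hq] at h3
    exact (mul_dvd_mul_iff_left (by positivity : (d : ℤ) ≠ 0)).mp h3
  refine ⟨hdm, hdx, hdd, ?_⟩
  set g : ℤ := ((Nat.gcd d (m / d) : ℕ) : ℤ) with hg
  have g1 : g ∣ d := by rw [hg]; exact_mod_cast Nat.gcd_dvd_left _ _
  have g2 : g ∣ ((m / d : ℕ) : ℤ) := by rw [hg]; exact_mod_cast Nat.gcd_dvd_right _ _
  have g3 : g ∣ 2 * x₀ := by
    have h1 : 2 * x₀ = (x + x₀) - (x - x₀) := by ring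
    rw [h1]; exact dvd_sub (g2.trans hdd) (g1.trans hdx)
  have g4 : g ^ 2 ∣ (2 * x₀) ^ 2 := pow_dvd_pow_of_dvd g3 2
  have g5 : g ^ 2 ∣ m := by
    rw [← hq, sq]; exact mul_dvd_mul g1 g2
  have g6 : 4 * E = 4 * (x₀ ^ 2 + E) - (2 * x₀) ^ 2 := by ring
  rw [g6]
  exact dvd_sub (Dvd.dvd.mul_left (g5.trans h₀) _) g4

/-- the primitive solutions -/
lemma prim (E m : ℕ) (hE : 2 ≤ E) (hm : 1 ≤ m) (s : Finset (ℤ × ℤ))
    (h : ∀ x ∈ s, x.1 ^ 2 + E * x.2 ^ 2 = m) (hc : ∀ x ∈ s, IsCoprime x.1 x.2) :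
    s.card ≤ 2 * ((Nat.divisors m).card * Nat.sqrt (4 * E)) := by
  classical
  rcases s.eq_empty_or_nonempty with rfl | ⟨p₀, hp₀⟩
  · simp
  have hm' : (1 : ℤ) ≤ m := by exact_mod_cast hm
  have hE' : (2 : ℤ) ≤ E := by exact_mod_cast hE
  have hr : ∀ p : ℤ × ℤ, ∃ x : ℤ, p ∈ s → 0 ≤ x ∧ x < m ∧ (m : ℤ) ∣ x * p.2 - p.1 ∧ (m : ℤ) ∣ x ^ 2 + E := by
    intro p
    by_cases hp : p ∈ s
    · obtain ⟨x, hx⟩ := root E m hm' p.1 p.2 (h p hp) (hc p hp)
      exact ⟨x, fun _ => hx⟩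
    · exact ⟨0, fun hp' => absurd hp' hp⟩
  choose X hX using hr
  have hX₀ := hX p₀ hp₀
  set x₀ := X p₀ with hx₀
  let D : ℤ × ℤ → ℕ := fun p => Int.gcd m (X p - x₀)
  let L : ℤ × ℤ → ℕ := fun p => Nat.lcm (D p) (m / D p)
  let Φ : ℤ × ℤ → ℕ × ℕ := fun p => (D p, (X p).toNat / L p)
  have htwo : ∀ p ∈ s, _ := fun p hp => two E m hm (X p) x₀ (hX p hp).2.2.2 hX₀.2.2.2 (D p) rfl
  have hmap : ∀ p ∈ s, Φ p ∈ (Nat.divisors m) ×ˢ Finset.range (Nat.sqrt (4 * E)) := by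
    intro p hp
    obtain ⟨t1, t2, t3, t4⟩ := htwo p hp
    rw [Finset.mem_product]
    refine ⟨Nat.mem_divisors.mpr ⟨t1, by omega⟩, ?_⟩
    rw [Finset.mem_range]
    have hd0 : 0 < D p := Nat.pos_of_dvd_of_pos t1 (by omega)
    have hq0 : 0 < m / D p := Nat.div_pos (Nat.le_of_dvd (by omega) t1) hd0
    have hL0 : 0 < L p := Nat.lcm_pos hd0 hq0
    have hgL : Nat.gcd (D p) (m / D p) * L p = m := by
      have := Nat.gcd_mul_lcm (D p) (m / D p)
      rw [Nat.mul_div_cancel' t1] at this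
      exact this
    have hgs : Nat.gcd (D p) (m / D p) ≤ Nat.sqrt (4 * E) := by
      rw [Nat.le_sqrt']
      have t5 : (Nat.gcd (D p) (m / D p)) ^ 2 ∣ 4 * E := by exact_mod_cast t4
      exact Nat.le_of_dvd (by omega) t5
    refine lt_of_lt_of_le ?_ hgs
    rw [Nat.div_lt_iff_lt_mul hL0, hgL]
    have := (hX p hp).2.1
    have h0 := (hX p hp).1
    omega
  have hfib : ∀ a ∈ (Nat.divisors m) ×ˢ Finset.range (Nat.sqrt (4 * E)),
      (s.filter (fun p => Φ p = a)).card ≤ 2 := by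
    intro a _
    rcases (s.filter (fun p => Φ p = a)).eq_empty_or_nonempty with he | ⟨p, hp⟩
    · rw [he]; simp
    rw [Finset.mem_filter] at hp
    obtain ⟨hp, hpa⟩ := hp
    have hsub : s.filter (fun p => Φ p = a) ⊆ {p, (-p.1, -p.2)} := by
      intro q hq
      rw [Finset.mem_filter] at hq
      obtain ⟨hq, hqa⟩ := hq
      have hpq : Φ q = Φ p := by rw [hqa, hpa]
      have hD : D q = D p := congrArg Prod.fst hpq
      have hL : L q = L p := by show Nat.lcm (D q) (m / D q) = Nat.lcm (D p) (m / D p); rw [hD]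
      have hQ : (X q).toNat / L p = (X p).toNat / L p := by
        have := congrArg Prod.snd hpq
        change (X q).toNat / L q = (X p).toNat / L p at this
        rwa [hL] at this
      obtain ⟨t1, t2, t3, t4⟩ := htwo p hp
      obtain ⟨r1, r2, r3, r4⟩ := htwo q hq
      rw [hD] at r2 r3
      have hc1 : ((D p : ℕ) : ℤ) ∣ X q - X p := by
        have : X q - X p = (X q - x₀) - (X p - x₀) := by ring
        rw [this]; exact dvd_sub r2 t2
      have hc2 : ((m / D p : ℕ) : ℤ) ∣ X q - X p := by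
        have : X q - X p = (X q + x₀) - (X p + x₀) := by ring
        rw [this]; exact dvd_sub r3 t3
      have hcL : ((L p : ℕ) : ℤ) ∣ X q - X p := by
        show ((Nat.lcm (D p) (m / D p) : ℕ) : ℤ) ∣ X q - X p
        rw [← Int.dvd_natAbs, Int.natCast_dvd_natCast] at hc1 hc2 ⊢
        exact Nat.lcm_dvd hc1 hc2
      have hXX : X q = X p := by
        obtain ⟨y, hy⟩ : ∃ y : ℕ, X q = y := ⟨(X q).toNat, by have := (hX q hq).1; omega⟩
        obtain ⟨z, hz⟩ : ∃ z : ℕ, X p = z := ⟨(X p).toNat, by have := (hX p hp).1; omega⟩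
        rw [hy, hz, Int.toNat_natCast, Int.toNat_natCast] at hQ
        rw [hy, hz] at hcL
        have hmod : y % L p = z % L p := by
          have h1 : (z : ℤ) ≡ y [ZMOD (L p : ℕ)] := Int.modEq_iff_dvd.mpr hcL
          exact ((Int.natCast_modEq_iff).mp h1).symm
        have h1 := Nat.div_add_mod y (L p)
        have h2 := Nat.div_add_mod z (L p)
        rw [hQ, hmod, h2] at h1
        rw [hy, hz, h1]
      have hdv : (m : ℤ) ∣ p.1 * q.2 - q.1 * p.2 := by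
        have h1 := (hX p hp).2.2.1
        have h2 := (hX q hq).2.2.1
        rw [hXX] at h2
        have h3 : p.1 * q.2 - q.1 * p.2 = p.2 * (X p * q.2 - q.1) - q.2 * (X p * p.2 - p.1) := by ring
        rw [h3]
        exact dvd_sub (Dvd.dvd.mul_left h2 _) (Dvd.dvd.mul_left h1 _)
      rcases same E m hE' hm' p.1 p.2 q.1 q.2 (h p hp) (h q hq) hdv with ⟨e1, e2⟩ | ⟨e1, e2⟩
      · rw [Finset.mem_insert]; left; exact Prod.ext e1 e2
      · rw [Finset.mem_insert, Finset.mem_singleton]; right; exact Prod.ext e1 e2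
    refine (Finset.card_le_card hsub).trans ?_
    exact Finset.card_le_two
  have := Finset.card_le_mul_card_image_of_maps_to hmap 2 hfib
  rw [Finset.card_product, Finset.card_range] at this
  exact this

lemma main (E m : ℕ) (hE : 2 ≤ E) (hm : 1 ≤ m) (s : Finset (ℤ × ℤ))
    (h : ∀ x ∈ s, x.1 ^ 2 + E * x.2 ^ 2 = m) :
    s.card ≤ (2 * ((Nat.divisors m).card * Nat.sqrt (4 * E))) * (Nat.divisors m).card := by
  classical
  have hm' : (1 : ℤ) ≤ m := by exact_mod_cast hm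
  have hE' : (2 : ℤ) ≤ E := by exact_mod_cast hE
  have hg2 : ∀ p ∈ s, (Int.gcd p.1 p.2) ^ 2 ∣ m := by
    intro p hp
    have h1 : ((Int.gcd p.1 p.2 : ℕ) : ℤ) ∣ p.1 := Int.gcd_dvd_left _ _
    have h2 : ((Int.gcd p.1 p.2 : ℕ) : ℤ) ∣ p.2 := Int.gcd_dvd_right _ _
    have h3 : ((Int.gcd p.1 p.2 : ℕ) : ℤ) ^ 2 ∣ (m : ℤ) := by
      rw [← h p hp]
      exact dvd_add (pow_dvd_pow_of_dvd h1 2) (Dvd.dvd.mul_left (pow_dvd_pow_of_dvd h2 2) _)
    exact_mod_cast h3
  have hmap : ∀ p ∈ s, Int.gcd p.1 p.2 ∈ Nat.divisors m := by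
    intro p hp
    refine Nat.mem_divisors.mpr ⟨(dvd_pow_self _ two_ne_zero).trans (hg2 p hp), by omega⟩
  refine Finset.card_le_mul_card_image_of_maps_to hmap _ ?_
  intro g _
  rcases (s.filter (fun p => Int.gcd p.1 p.2 = g)).eq_empty_or_nonempty with he | ⟨p, hp⟩
  · rw [he]; simp
  rw [Finset.mem_filter] at hp
  obtain ⟨hp, hpg⟩ := hp
  have hgm : g ^ 2 ∣ m := hpg ▸ hg2 p hp
  have hg0 : 0 < g := by
    rcases Nat.eq_zero_or_pos g with h0 | h0
    · rw [h0] at hgm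
      simp at hgm
      omega
    · exact h0
  have hgZ : (g : ℤ) ≠ 0 := by exact_mod_cast hg0.ne'
  set n := m / g ^ 2 with hn
  have hnm : g ^ 2 * n = m := Nat.mul_div_cancel' hgm
  have hn1 : 1 ≤ n := by
    rcases Nat.eq_zero_or_pos n with h0 | h0
    · rw [h0, mul_zero] at hnm; omega
    · exact h0
  let ψ : ℤ × ℤ → ℤ × ℤ := fun p => (p.1 / g, p.2 / g)
  set t := s.filter (fun p => Int.gcd p.1 p.2 = g) with ht
  have hback : ∀ q ∈ t, (g : ℤ) * (ψ q).1 = q.1 ∧ (g : ℤ) * (ψ q).2 = q.2 := by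
    intro q hq
    rw [ht, Finset.mem_filter] at hq
    obtain ⟨hq, hqg⟩ := hq
    have h1 : ((Int.gcd q.1 q.2 : ℕ) : ℤ) ∣ q.1 := Int.gcd_dvd_left _ _
    have h2 : ((Int.gcd q.1 q.2 : ℕ) : ℤ) ∣ q.2 := Int.gcd_dvd_right _ _
    rw [hqg] at h1 h2
    exact ⟨Int.mul_ediv_cancel' h1, Int.mul_ediv_cancel' h2⟩
  have hinj : Set.InjOn ψ t := by
    intro q hq r hr hqr
    have h1 := hback q hq
    have h2 := hback r hr
    rw [hqr] at h1
    exact Prod.ext (h1.1.symm.trans h2.1) (h1.2.symm.trans h2.2)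
  have hcard : t.card = (t.image ψ).card := (Finset.card_image_of_injOn hinj).symm
  rw [hcard]
  have hp1 := prim E n hE hn1 (t.image ψ) (by
      intro y hy
      rw [Finset.mem_image] at hy
      obtain ⟨q, hq, rfl⟩ := hy
      have h1 := hback q hq
      rw [ht, Finset.mem_filter] at hq
      have h2 := h q hq.1
      rw [← h1.1, ← h1.2] at h2
      have h3 : ((g : ℤ) ^ 2) * ((ψ q).1 ^ 2 + E * (ψ q).2 ^ 2) = (g : ℤ) ^ 2 * n := by
        have h4 : ((g : ℤ) ^ 2) * n = m := by exact_mod_cast hnm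
        rw [h4, ← h2]; ring
      exact mul_left_cancel₀ (pow_ne_zero 2 hgZ) h3) (by
      intro y hy
      rw [Finset.mem_image] at hy
      obtain ⟨q, hq, rfl⟩ := hy
      have h1 := hback q hq
      rw [ht, Finset.mem_filter] at hq
      have h2 := Int.gcd_eq_gcd_ab q.1 q.2
      rw [hq.2] at h2
      refine ⟨Int.gcdA q.1 q.2, Int.gcdB q.1 q.2, ?_⟩
      generalize Int.gcdA q.1 q.2 = a at h2 ⊢
      generalize Int.gcdB q.1 q.2 = b at h2 ⊢
      refine mul_left_cancel₀ hgZ ?_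
      calc (g : ℤ) * (a * (ψ q).1 + b * (ψ q).2) = (g * (ψ q).1) * a + (g * (ψ q).2) * b := by ring
        _ = (g : ℤ) * 1 := by rw [h1.1, h1.2, ← h2, mul_one])
  refine hp1.trans ?_
  have hdc : (Nat.divisors n).card ≤ (Nat.divisors m).card := by
    refine Finset.card_le_card ?_
    refine Nat.divisors_subset_of_dvd (by omega) ?_
    exact ⟨g ^ 2, by rw [← hnm, mul_comm]⟩
  gcongr

end VREP

theorem t_VREP : S_VREP := by
  intro E m hE hm s h
  have h1 := VREP.main E m hE hm s h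
  have h2 : ((Nat.sqrt (4 * E) : ℕ) : ℝ) ≤ 2 * √E := by
    have h3 := Real.nat_sqrt_le_real_sqrt (a := 4 * E)
    refine h3.trans (le_of_eq ?_)
    push_cast
    rw [Real.sqrt_mul (by norm_num)]
    congr 1
    rw [show (4 : ℝ) = 2 ^ 2 by norm_num]
    exact Real.sqrt_sq (by norm_num)
  have h4 : (s.card : ℝ) ≤ (2 * ((Nat.divisors m).card * (Nat.sqrt (4 * E) : ℕ))) * (Nat.divisors m).card := by
    exact_mod_cast h1
  refine h4.trans ?_
  have h5 : (0 : ℝ) ≤ (Nat.divisors m).card := by positivity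
  calc (2 * (((Nat.divisors m).card : ℝ) * (Nat.sqrt (4 * E) : ℕ))) * (Nat.divisors m).card
      ≤ (2 * ((Nat.divisors m).card * (2 * √E))) * (Nat.divisors m).card := by gcongr
    _ = 4 * √E * ((Nat.divisors m).card : ℝ) ^ 2 := by ring

end

end SYM
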