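import Pool.Agent.SYM.StU
import Pool.Agent.STZ.WPT

/-!
# Pointwise bound for `WW` with the exponent `γ`
-/

namespace SYM

open STZ LGR MeasureTheory Matrix Filter

open scoped ComplexConjugate Matrix Real Topology

noncomputable section

namespace WPTG

open STZ.WPT

/-- the sum of the powers -/
lemma sum_pow_le (γ : ℝ) (h0 : 0 < γ) (h1' : γ < 1) (J : ℕ) :
    ∑ k ∈ Finset.Ico 1 (J + 1), ((k : ℝ)) ^ (-γ) ≤ 1 / (1 - γ) * (J : ℝ) ^ (1 - γ) := by
  have hg : 0 < 1 - γ := by linarith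
  induction J with
  | zero => simp [Real.zero_rpow hg.ne']
  | succ J ih =>
    rw [Finset.sum_Ico_succ_top (by omega)]
    have hJ : (0 : ℝ) < ((J + 1 : ℕ) : ℝ) := by positivity
    have h1 : (J : ℝ) ^ (1 - γ) ≤
        ((J + 1 : ℕ) : ℝ) ^ (1 - γ) - (1 - γ) * ((J + 1 : ℕ) : ℝ) ^ (-γ) := by
      have e1 : (J : ℝ) = ((J + 1 : ℕ) : ℝ) * (1 + -(1 / ((J + 1 : ℕ) : ℝ))) := by
        field_simp
        push_cast
        ring
      have h2 : 1 / ((J + 1 : ℕ) : ℝ) ≤ 1 := by
        rw [div_le_one hJ]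
        exact_mod_cast Nat.succ_le_succ (Nat.zero_le J)
      have h3 := rpow_one_add_le_one_add_mul_self (s := -(1 / ((J + 1 : ℕ) : ℝ))) (by linarith)
        (p := 1 - γ) hg.le (by linarith)
      calc (J : ℝ) ^ (1 - γ) = (((J + 1 : ℕ) : ℝ) * (1 + -(1 / ((J + 1 : ℕ) : ℝ)))) ^ (1 - γ) := by
            rw [← e1]
        _ = ((J + 1 : ℕ) : ℝ) ^ (1 - γ) * (1 + -(1 / ((J + 1 : ℕ) : ℝ))) ^ (1 - γ) :=
            Real.mul_rpow hJ.le (by linarith)
        _ ≤ ((J + 1 : ℕ) : ℝ) ^ (1 - γ) * (1 + (1 - γ) * -(1 / ((J + 1 : ℕ) : ℝ))) :=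
            mul_le_mul_of_nonneg_left h3 (Real.rpow_nonneg hJ.le _)
        _ = _ := by
            have e2 : ((J + 1 : ℕ) : ℝ) ^ (-γ) =
                ((J + 1 : ℕ) : ℝ) ^ (1 - γ) * (1 / ((J + 1 : ℕ) : ℝ)) := by
              rw [show -γ = (1 - γ) - 1 by ring, Real.rpow_sub_one hJ.ne']
              ring
            rw [e2]
            ring
    have h4 : 1 / (1 - γ) * (J : ℝ) ^ (1 - γ) ≤ 1 / (1 - γ) * ((J + 1 : ℕ) : ℝ) ^ (1 - γ) -
        ((J + 1 : ℕ) : ℝ) ^ (-γ) := by
      calc 1 / (1 - γ) * (J : ℝ) ^ (1 - γ) ≤ 1 / (1 - γ) *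
            (((J + 1 : ℕ) : ℝ) ^ (1 - γ) - (1 - γ) * ((J + 1 : ℕ) : ℝ) ^ (-γ)) :=
            mul_le_mul_of_nonneg_left h1 (by positivity)
        _ = _ := by
            field_simp
    linarith

/-- the terms with `q ∣ x` -/
lemma term_le (γ : ℝ) (h0 : 0 < γ) (h1' : γ < 1) (R c q k : ℕ) (b : ℝ) (hR : 1 ≤ R) (hq : 1 ≤ q)
    (hk : 1 ≤ k) (hb : 0 ≤ b) (hkc : q * k ≤ c * R) :
    (R : ℝ) / max 1 (2 * R * (q * b * k)) ≤
      R * ((c + 1) * (1 + (R : ℝ) ^ 2 * b) ^ (-γ) * ((q : ℝ) * k / R) ^ (-γ)) := by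
  have hR' : (0 : ℝ) < R := by exact_mod_cast hR
  have hq' : (0 : ℝ) < q := by exact_mod_cast hq
  have hk' : (0 : ℝ) < k := by exact_mod_cast hk
  have hc0 : (0 : ℝ) ≤ c := Nat.cast_nonneg _
  set y : ℝ := (R : ℝ) ^ 2 * b with hy
  set s : ℝ := (q : ℝ) * k / R with hs
  have hy0 : 0 ≤ y := by positivity
  have hs0 : 0 < s := by positivity
  have hsc : s ≤ c := by
    rw [hs, div_le_iff₀ hR']
    exact_mod_cast hkc
  have e1 : 2 * (R : ℝ) * (q * b * k) = 2 * y * s := by
    rw [hy, hs]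
    field_simp
  rw [e1]
  set M : ℝ := max 1 (2 * y * s) with hM
  have hM1 : 1 ≤ M := le_max_left _ _
  have hM2 : 2 * y * s ≤ M := le_max_right _ _
  have hM0 : 0 < M := lt_of_lt_of_le one_pos hM1
  have h1 : (1 + y) * s / (c + 1) ≤ M := by
    rw [div_le_iff₀ (by linarith)]
    nlinarith [mul_nonneg hy0 hs0.le]
  have hpos : 0 < (1 + y) * s / (c + 1) := by positivity
  have h2 : 1 / M ≤ M ^ (-γ) := by
    rw [one_div, ← Real.rpow_neg_one]
    exact Real.rpow_le_rpow_of_exponent_le hM1 (by linarith)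
  have h3 : M ^ (-γ) ≤ ((1 + y) * s / (c + 1)) ^ (-γ) :=
    Real.rpow_le_rpow_of_nonpos hpos h1 (by linarith)
  have h4 : ((1 + y) * s / (c + 1)) ^ (-γ) ≤
      (c + 1) * (1 + y) ^ (-γ) * s ^ (-γ) := by
    rw [Real.div_rpow (by positivity) (by positivity), Real.mul_rpow (by positivity) hs0.le]
    rw [Real.rpow_neg (by positivity : (0 : ℝ) ≤ (c : ℝ) + 1), div_inv_eq_mul]
    have h5 : ((c : ℝ) + 1) ^ γ ≤ (c : ℝ) + 1 := by
      conv_rhs => rw [← Real.rpow_one ((c : ℝ) + 1)]
      exact Real.rpow_le_rpow_of_exponent_le (by linarith) h1'.le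
    have h6 : 0 ≤ (1 + y) ^ (-γ) * s ^ (-γ) := by positivity
    calc (1 + y) ^ (-γ) * s ^ (-γ) * ((c : ℝ) + 1) ^ γ ≤
        (1 + y) ^ (-γ) * s ^ (-γ) * ((c : ℝ) + 1) :=
          mul_le_mul_of_nonneg_left h5 h6
      _ = _ := by ring
  calc (R : ℝ) / M = R * (1 / M) := by ring
    _ ≤ _ := mul_le_mul_of_nonneg_left (h2.trans (h3.trans h4)) hR'.le

lemma J_le (γ : ℝ) (h0 : 0 < γ) (h1' : γ < 1) (R c q J : ℕ) (hR : 1 ≤ R) (hc : 1 ≤ c) (hq : 1 ≤ q)
    (hJ : q * J ≤ c * R) :
    ((q : ℝ) / R) ^ (-γ) * (J : ℝ) ^ (1 - γ) ≤ c * ((R : ℝ) / q) := by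
  have hR' : (0 : ℝ) < R := by exact_mod_cast hR
  have hq' : (0 : ℝ) < q := by exact_mod_cast hq
  have hc' : (1 : ℝ) ≤ c := by exact_mod_cast hc
  have h1 : (J : ℝ) ≤ c * ((R : ℝ) / q) := by
    rw [mul_div_assoc', le_div_iff₀ hq', mul_comm]
    exact_mod_cast hJ
  have e1 : ((q : ℝ) / R) ^ (-γ) = ((R : ℝ) / q) ^ γ := by
    rw [Real.rpow_neg (by positivity), ← Real.inv_rpow (by positivity), inv_div]
  have h2 : (J : ℝ) ^ (1 - γ) ≤ c * ((R : ℝ) / q) ^ (1 - γ) := by
    calc (J : ℝ) ^ (1 - γ) ≤ (c * ((R : ℝ) / q)) ^ (1 - γ) :=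
          Real.rpow_le_rpow (Nat.cast_nonneg _) h1 (by linarith)
      _ = (c : ℝ) ^ (1 - γ) * ((R : ℝ) / q) ^ (1 - γ) :=
          Real.mul_rpow (by linarith) (by positivity)
      _ ≤ c * ((R : ℝ) / q) ^ (1 - γ) := by
          apply mul_le_mul_of_nonneg_right _ (by positivity)
          conv_rhs => rw [← Real.rpow_one (c : ℝ)]
          exact Real.rpow_le_rpow_of_exponent_le hc' (by linarith)
  rw [e1]
  calc ((R : ℝ) / q) ^ γ * (J : ℝ) ^ (1 - γ) ≤
      ((R : ℝ) / q) ^ γ * (c * ((R : ℝ) / q) ^ (1 - γ)) :=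
        mul_le_mul_of_nonneg_left h2 (by positivity)
    _ = c * (((R : ℝ) / q) ^ γ * ((R : ℝ) / q) ^ (1 - γ)) := by ring
    _ = _ := by
        rw [← Real.rpow_add (by positivity), add_sub_cancel, Real.rpow_one]

end WPTG

open WPTG

open STZ.WPT (mn_le_R mn_nonneg mn_le mn_le' frac_ge inv_min_le sum_inv_le card_class)

theorem t_WPTG : S_WPTG := by
  intro c γ hc h0 h1'
  have hg : 0 < 1 - γ := by linarith
  have hc' : (1 : ℝ) ≤ c := by exact_mod_cast hc
  have hlc : 0 ≤ Real.log (2 * c) := Real.log_nonneg (by linarith)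
  refine ⟨10 * c * (1 + Real.log (2 * c)) + 2 + 2 * c * (c + 1) * (1 / (1 - γ)), by positivity, ?_⟩
  intro R t ρ hR hden hβ
  have hR' : (1 : ℝ) ≤ R := by exact_mod_cast hR
  have hq : 1 ≤ ρ.den := ρ.pos
  have hq' : (0 : ℝ) < ρ.den := by exact_mod_cast hq
  have hN : 1 ≤ c * R := Nat.mul_pos hc hR
  have hN' : (1 : ℝ) ≤ (c : ℝ) * R := by exact_mod_cast hN
  have hb0 : 0 ≤ |t - ρ| := abs_nonneg _
  have hlR : 0 ≤ Real.log R := Real.log_nonneg hR'
  have ht : t = (ρ.num : ℝ) / ρ.den + (t - ρ) := by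
    have : (ρ : ℝ) = (ρ.num : ℝ) / ρ.den := Rat.cast_def ρ
    rw [← this]
    ring
  -- the size of `β x`
  have hbx : ∀ x : ℤ, |x| ≤ ((c * R : ℕ) : ℤ) → |(t - ρ) * x| ≤ 1 / (2 * ρ.den) := by
    intro x hx
    have hx' : |(x : ℝ)| ≤ c * R := by
      have : ((|x| : ℤ) : ℝ) ≤ (((c * R : ℕ) : ℤ) : ℝ) := by exact_mod_cast hx
      push_cast at this
      exact this
    rw [abs_mul]
    calc |t - ρ| * |(x : ℝ)| ≤ (1 / (ρ.den * (2 * c * R))) * (c * R) :=
          mul_le_mul hβ hx' (abs_nonneg _) (by positivity)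
      _ = 1 / (2 * ρ.den) := by
          field_simp
  set S : Finset ℤ := Finset.Icc (-((c * R : ℕ) : ℤ)) ((c * R : ℕ) : ℤ) with hS
  have hWW : WW R c t = ∑ x ∈ S.filter (fun x => (ρ.den : ℤ) ∣ x), mn R (t * x) +
      ∑ x ∈ S.filter (fun x => ¬ (ρ.den : ℤ) ∣ x), mn R (t * x) := by
    rw [Finset.sum_filter_add_sum_filter_not]
    rfl
  have habs : ∀ x ∈ S, |x| ≤ ((c * R : ℕ) : ℤ) := by
    intro x hx
    rw [hS, Finset.mem_Icc] at hx
    exact abs_le.2 hx
  -- the multiples
  have hA : ∑ x ∈ S.filter (fun x => (ρ.den : ℤ) ∣ x), mn R (t * x) ≤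
      2 * R + 2 * c * (c + 1) * (1 / (1 - γ)) * ((R : ℝ) ^ 2 / ρ.den *
        (1 + (R : ℝ) ^ 2 * |t - ρ|) ^ (-γ)) := by
    set J : ℕ := c * R / ρ.den with hJ
    let g : ℕ → ℝ := fun k => if k = 0 then (R : ℝ) else
      R * ((c + 1) * (1 + (R : ℝ) ^ 2 * |t - ρ|) ^ (-γ) *
        ((ρ.den : ℝ) * k / R) ^ (-γ))
    have hg0 : ∀ k, 0 ≤ g k := by
      intro k
      simp only [g]
      split_ifs
      · positivity
      · positivity
    have hmaps : ∀ x ∈ S.filter (fun x => (ρ.den : ℤ) ∣ x), x.natAbs / ρ.den ∈ Finset.range (J + 1) := by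
      intro x hx
      rw [Finset.mem_filter] at hx
      have := habs x hx.1
      rw [Finset.mem_range, Nat.lt_succ_iff]
      apply Nat.div_le_div_right
      rw [Int.abs_eq_natAbs] at this
      exact_mod_cast this
    rw [← Finset.sum_fiberwise_of_maps_to hmaps]
    have hin : ∀ k ∈ Finset.range (J + 1),
        ∑ x ∈ (S.filter (fun x => (ρ.den : ℤ) ∣ x)).filter (fun x => x.natAbs / ρ.den = k),
          mn R (t * x) ≤ 2 * g k := by
      intro k hk
      have hk2 : ρ.den * k ≤ c * R := by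
        rw [Finset.mem_range, Nat.lt_succ_iff] at hk
        calc ρ.den * k ≤ ρ.den * J := Nat.mul_le_mul_left _ hk
          _ ≤ c * R := Nat.mul_div_le _ _
      have hterm : ∀ x ∈ (S.filter (fun x => (ρ.den : ℤ) ∣ x)).filter
          (fun x => x.natAbs / ρ.den = k), x.natAbs = ρ.den * k := by
        intro x hx
        rw [Finset.mem_filter, Finset.mem_filter] at hx
        rw [← hx.2, Nat.mul_div_cancel']
        exact Int.natCast_dvd.1 hx.1.2
      have hcard : ((S.filter (fun x => (ρ.den : ℤ) ∣ x)).filter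
          (fun x => x.natAbs / ρ.den = k)).card ≤ 2 := by
        have hsub : (S.filter (fun x => (ρ.den : ℤ) ∣ x)).filter
            (fun x => x.natAbs / ρ.den = k) ⊆ {((ρ.den * k : ℕ) : ℤ), -((ρ.den * k : ℕ) : ℤ)} := by
          intro x hx
          have := hterm x hx
          rw [Finset.mem_insert, Finset.mem_singleton]
          omega
        exact (Finset.card_le_card hsub).trans Finset.card_le_two
      have hval : ∀ x ∈ (S.filter (fun x => (ρ.den : ℤ) ∣ x)).filter
          (fun x => x.natAbs / ρ.den = k), mn R (t * x) ≤ g k := by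
        intro x hx
        have hx1 := hterm x hx
        by_cases hk0 : k = 0
        · simp only [g, if_pos hk0]
          exact mn_le_R _ _
        · simp only [g, if_neg hk0]
          rw [Finset.mem_filter, Finset.mem_filter] at hx
          obtain ⟨j, hj⟩ := hx.1.2
          have hxa := habs x hx.1.1
          have hb := hbx x hxa
          have hjk : |(j : ℝ)| = k := by
            have h1 : ρ.den * j.natAbs = ρ.den * k := by
              rw [← hx1, hj, Int.natAbs_mul, Int.natAbs_natCast]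
            have h2 : j.natAbs = k := Nat.eq_of_mul_eq_mul_left hq h1
            rw [← h2, Nat.cast_natAbs, Int.cast_abs]
          apply (mn_le' R (t * x) (ρ.den * |t - ρ| * k) ?_).trans
          · exact WPTG.term_le γ h0 h1' R c ρ.den k |t - ρ| hR hq (by omega) hb0 hk2
          · intro n
            have e1 : t * x - n = (t - ρ) * x + ((ρ.num * j - n : ℤ) : ℝ) := by
              have h3 : (x : ℝ) = ρ.den * j := by
                rw [hj]
                push_cast
                ring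
              have h4 : (ρ.num : ℝ) / ρ.den * x = ρ.num * j := by
                rw [h3]
                field_simp
              push_cast
              calc t * x - n = ((ρ.num : ℝ) / ρ.den + (t - ρ)) * x - n := by rw [← ht]
                _ = (ρ.num : ℝ) / ρ.den * x + (t - ρ) * x - n := by ring
                _ = _ := by
                  rw [h4]
                  ring
            have e2 : (ρ.den : ℝ) * |t - ρ| * k = |(t - ρ) * x| := by
              rw [abs_mul, ← hjk]
              have h3 : (x : ℝ) = ρ.den * j := by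
                rw [hj]
                push_cast
                ring
              rw [h3, abs_mul, abs_of_pos hq']
              ring
            rw [e1, e2]
            have hb2 : |(t - ρ) * x| ≤ 1 / 2 := by
              apply hb.trans
              apply one_div_le_one_div_of_le (by norm_num)
              have : (1 : ℝ) ≤ ρ.den := by exact_mod_cast hq
              linarith
            rcases eq_or_ne (ρ.num * j - n) 0 with h5 | h5
            · rw [h5]
              simp
            · have h6 : (1 : ℝ) ≤ |((ρ.num * j - n : ℤ) : ℝ)| := by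
                rw [← Int.cast_abs]
                exact_mod_cast Int.one_le_abs h5
              have h7 := abs_sub_abs_le_abs_sub ((ρ.num * j - n : ℤ) : ℝ) (-((t - ρ) * x))
              rw [abs_neg, sub_neg_eq_add, add_comm ((ρ.num * j - n : ℤ) : ℝ)] at h7
              linarith
      calc _ ≤ ((S.filter (fun x => (ρ.den : ℤ) ∣ x)).filter
            (fun x => x.natAbs / ρ.den = k)).card • g k := Finset.sum_le_card_nsmul _ _ _ hval
        _ ≤ 2 * g k := by
            rw [nsmul_eq_mul]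
            apply mul_le_mul_of_nonneg_right _ (hg0 k)
            exact_mod_cast hcard
    apply (Finset.sum_le_sum hin).trans
    rw [Finset.range_eq_Ico, Finset.sum_eq_sum_Ico_succ_bot (Nat.succ_pos J)]
    have hg : g 0 = R := by simp [g]
    rw [hg]
    have hsum : ∑ k ∈ Finset.Ico (0 + 1) (J + 1), 2 * g k = 2 * R * (c + 1) *
        (1 + (R : ℝ) ^ 2 * |t - ρ|) ^ (-γ) * (((ρ.den : ℝ) / R) ^ (-γ) *
          ∑ k ∈ Finset.Ico 1 (J + 1), ((k : ℝ)) ^ (-γ)) := by
      rw [Finset.mul_sum, Finset.mul_sum]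
      apply Finset.sum_congr rfl
      intro k hk
      rw [Finset.mem_Ico] at hk
      have hk0 : k ≠ 0 := by omega
      simp only [g, if_neg hk0]
      rw [show (ρ.den : ℝ) * k / R = (ρ.den : ℝ) / R * k by ring,
        Real.mul_rpow (by positivity) (by positivity)]
      ring
    rw [hsum]
    have h1 := WPTG.sum_pow_le γ h0 h1' J
    have h2 := WPTG.J_le γ h0 h1' R c ρ.den J hR hc hq (Nat.mul_div_le _ _)
    have h3 : ((ρ.den : ℝ) / R) ^ (-γ) *
        ∑ k ∈ Finset.Ico 1 (J + 1), ((k : ℝ)) ^ (-γ) ≤ 1 / (1 - γ) * (c * ((R : ℝ) / ρ.den)) := by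
      calc _ ≤ ((ρ.den : ℝ) / R) ^ (-γ) * (1 / (1 - γ) * (J : ℝ) ^ (1 - γ)) :=
            mul_le_mul_of_nonneg_left h1 (by positivity)
        _ = 1 / (1 - γ) * (((ρ.den : ℝ) / R) ^ (-γ) * (J : ℝ) ^ (1 - γ)) := by ring
        _ ≤ _ := mul_le_mul_of_nonneg_left h2 (by positivity)
    have h4 : 0 ≤ 2 * (R : ℝ) * (c + 1) * (1 + (R : ℝ) ^ 2 * |t - ρ|) ^ (-γ) := by
      positivity
    calc 2 * (R : ℝ) + 2 * R * (c + 1) * (1 + (R : ℝ) ^ 2 * |t - ρ|) ^ (-γ) *
          (((ρ.den : ℝ) / R) ^ (-γ) *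
            ∑ k ∈ Finset.Ico 1 (J + 1), ((k : ℝ)) ^ (-γ)) ≤
        2 * (R : ℝ) + 2 * R * (c + 1) * (1 + (R : ℝ) ^ 2 * |t - ρ|) ^ (-γ) *
          (1 / (1 - γ) * (c * ((R : ℝ) / ρ.den))) := by
          have := mul_le_mul_of_nonneg_left h3 h4
          linarith
      _ = _ := by
          field_simp
  -- the other terms
  have hB : ∑ x ∈ S.filter (fun x => ¬ (ρ.den : ℤ) ∣ x), mn R (t * x) ≤
      10 * c * R * (1 + Real.log (2 * c * R)) := by
    have hcop : IsCoprime (ρ.den : ℤ) ρ.num := by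
      rw [Int.isCoprime_iff_gcd_eq_one, Int.gcd_comm]
      exact ρ.reduced
    have hqz : (0 : ℤ) < ρ.den := by exact_mod_cast hq
    have hr : ∀ x : ℤ, ¬ (ρ.den : ℤ) ∣ x → 0 < (ρ.num * x) % ρ.den ∧
        (ρ.num * x) % ρ.den < ρ.den := by
      intro x hx
      refine ⟨(Int.emod_pos_of_not_dvd (fun h => hx (hcop.dvd_of_dvd_mul_left h))).resolve_left hqz.ne', ?_⟩
      exact Int.emod_lt_of_pos _ hqz
    have hmaps : ∀ x ∈ S.filter (fun x => ¬ (ρ.den : ℤ) ∣ x),
        ((ρ.num * x) % ρ.den).toNat ∈ Finset.Ico 1 ρ.den := by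
      intro x hx
      rw [Finset.mem_filter] at hx
      have := hr x hx.2
      rw [Finset.mem_Ico]
      omega
    rw [← Finset.sum_fiberwise_of_maps_to hmaps]
    have hin : ∀ r ∈ Finset.Ico 1 ρ.den,
        ∑ x ∈ (S.filter (fun x => ¬ (ρ.den : ℤ) ∣ x)).filter
          (fun x => ((ρ.num * x) % ρ.den).toNat = r), mn R (t * x) ≤
        ((2 * ((c * R : ℕ) : ℝ) + 1) / ρ.den + 1) * ((ρ.den : ℝ) / r + ρ.den / ((ρ.den : ℝ) - r)) := by
      intro r hr1
      rw [Finset.mem_Ico] at hr1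
      have hrq' : (0 : ℝ) < (ρ.den : ℝ) - r := by
        have : (r : ℝ) < ρ.den := by exact_mod_cast hr1.2
        linarith
      have hr0 : (0 : ℝ) < r := by exact_mod_cast hr1.1
      have hval : ∀ x ∈ (S.filter (fun x => ¬ (ρ.den : ℤ) ∣ x)).filter
          (fun x => ((ρ.num * x) % ρ.den).toNat = r), mn R (t * x) ≤
            (ρ.den : ℝ) / r + ρ.den / ((ρ.den : ℝ) - r) := by
        intro x hx
        rw [Finset.mem_filter, Finset.mem_filter] at hx
        have h1 := hr x hx.1.2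
        have h2 : (ρ.num * x) % ρ.den = (r : ℤ) := by omega
        have hb := hbx x (habs x hx.1.1)
        apply (mn_le R hR (t * x) (min (r : ℝ) ((ρ.den : ℝ) - r) / ρ.den) ?_ ?_).trans
          (inv_min_le ρ.den r (by omega) hr1.2)
        · exact div_pos (lt_min hr0 hrq') hq'
        · intro n
          have h3 : ρ.num * x = ρ.den * ((ρ.num * x) / ρ.den) + r := by
            rw [← h2]
            exact (Int.mul_ediv_add_emod _ _).symm
          have h4 : (ρ.num : ℝ) / ρ.den * x = ((ρ.num * x / ρ.den : ℤ) : ℝ) + r / ρ.den := by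
            have h5 : ((ρ.num * x : ℤ) : ℝ) = ((ρ.den * ((ρ.num * x) / ρ.den) + r : ℤ) : ℝ) := by
              rw [← h3]
            push_cast at h5
            rw [div_mul_eq_mul_div, h5, add_div, mul_div_assoc]
            congr 1
            field_simp
          have e1 : t * x - n = (t - ρ) * x +
              ((r : ℝ) / ρ.den + ((ρ.num * x / ρ.den - n : ℤ) : ℝ)) := by
            calc t * x - n = ((ρ.num : ℝ) / ρ.den + (t - ρ)) * x - n := by rw [← ht]
              _ = (ρ.num : ℝ) / ρ.den * x + (t - ρ) * x - n := by ring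
              _ = _ := by
                rw [h4, Int.cast_sub]
                ring
          have h6 := frac_ge ρ.den r (by omega) hr1.2 (ρ.num * x / ρ.den - n)
          have h7 := abs_sub_abs_le_abs_sub
            ((r : ℝ) / ρ.den + ((ρ.num * x / ρ.den - n : ℤ) : ℝ)) (-((t - ρ) * x))
          rw [abs_neg, sub_neg_eq_add, add_comm _ ((t - ρ) * x), ← e1] at h7
          have h8 : (1 : ℝ) ≤ min (r : ℝ) ((ρ.den : ℝ) - r) := by
            apply le_min
            · exact_mod_cast hr1.1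
            · have : ((r + 1 : ℕ) : ℝ) ≤ ρ.den := by exact_mod_cast hr1.2
              push_cast at this
              linarith
          have h9 : 1 / (2 * (ρ.den : ℝ)) ≤ min (r : ℝ) ((ρ.den : ℝ) - r) / ρ.den / 2 := by
            rw [div_div, mul_comm (ρ.den : ℝ) 2]
            exact div_le_div_of_nonneg_right h8 (by positivity)
          linarith
      have hcard : (((S.filter (fun x => ¬ (ρ.den : ℤ) ∣ x)).filter
          (fun x => ((ρ.num * x) % ρ.den).toNat = r)).card : ℝ) ≤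
            (2 * ((c * R : ℕ) : ℝ) + 1) / ρ.den + 1 := by
        rcases ((S.filter (fun x => ¬ (ρ.den : ℤ) ∣ x)).filter
          (fun x => ((ρ.num * x) % ρ.den).toNat = r)).eq_empty_or_nonempty with h | ⟨x0, hx0⟩
        · rw [h, Finset.card_empty]
          push_cast
          positivity
        · apply le_trans _ (card_class (c * R) ρ.den hq x0)
          apply Nat.cast_le.2
          apply Finset.card_le_card
          intro x hx
          rw [Finset.mem_filter, Finset.mem_filter] at hx hx0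
          have h1 := hr x hx.1.2
          have h2 := hr x0 hx0.1.2
          rw [Finset.mem_filter, Finset.mem_Ico]
          have h3 := hx.1.1
          rw [hS, Finset.mem_Icc] at h3
          refine ⟨by omega, ?_⟩
          have h4 : ρ.num * x ≡ ρ.num * x0 [ZMOD ρ.den] := by
            show (ρ.num * x) % ρ.den = (ρ.num * x0) % ρ.den
            omega
          have h5 : (ρ.den : ℤ) ∣ ρ.num * (x0 - x) := by
            rw [mul_sub]
            exact h4.dvd
          exact Int.modEq_iff_dvd.2 (hcop.dvd_of_dvd_mul_left h5)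
      calc _ ≤ ((S.filter (fun x => ¬ (ρ.den : ℤ) ∣ x)).filter
            (fun x => ((ρ.num * x) % ρ.den).toNat = r)).card •
              ((ρ.den : ℝ) / r + ρ.den / ((ρ.den : ℝ) - r)) := Finset.sum_le_card_nsmul _ _ _ hval
        _ ≤ _ := by
            rw [nsmul_eq_mul]
            exact mul_le_mul_of_nonneg_right hcard (by positivity)
    apply (Finset.sum_le_sum hin).trans
    rw [← Finset.mul_sum]
    have h1 := sum_inv_le ρ.den hq
    have hlq : 0 ≤ Real.log ρ.den := Real.log_nonneg (by exact_mod_cast hq)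
    have hlq2 : Real.log ρ.den ≤ Real.log (2 * c * R) := by
      apply Real.log_le_log hq'
      exact_mod_cast hden
    have hden' : (ρ.den : ℝ) ≤ 2 * c * R := by exact_mod_cast hden
    calc ((2 * ((c * R : ℕ) : ℝ) + 1) / ρ.den + 1) *
          ∑ r ∈ Finset.Ico 1 ρ.den, ((ρ.den : ℝ) / r + ρ.den / ((ρ.den : ℝ) - r)) ≤
        ((2 * ((c * R : ℕ) : ℝ) + 1) / ρ.den + 1) * (2 * ρ.den * (1 + Real.log ρ.den)) :=
          mul_le_mul_of_nonneg_left h1 (by positivity)
      _ = 2 * (2 * (c * R) + 1 + ρ.den) * (1 + Real.log ρ.den) := by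
          push_cast
          field_simp
      _ ≤ 2 * (5 * (c * R)) * (1 + Real.log (2 * c * R)) := by
          apply mul_le_mul
          · linarith
          · linarith
          · linarith
          · positivity
      _ = _ := by ring
  have hlog : 1 + Real.log (2 * c * R) ≤ (1 + Real.log (2 * c)) * (1 + Real.log R) := by
    rw [Real.log_mul (by positivity) (by positivity)]
    nlinarith [mul_nonneg hlc hlR]
  have hE : 0 ≤ (R : ℝ) ^ 2 / ρ.den * (1 + (R : ℝ) ^ 2 * |t - ρ|) ^ (-γ) := by positivity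
  have hD : (R : ℝ) ≤ R * (1 + Real.log R) := by nlinarith
  have hD0 : 0 ≤ (R : ℝ) * (1 + Real.log R) := by positivity
  rw [hWW]
  have hB' : ∑ x ∈ S.filter (fun x => ¬ (ρ.den : ℤ) ∣ x), mn R (t * x) ≤
      10 * c * (1 + Real.log (2 * c)) * (R * (1 + Real.log R)) := by
    apply hB.trans
    calc 10 * (c : ℝ) * R * (1 + Real.log (2 * c * R)) ≤
        10 * (c : ℝ) * R * ((1 + Real.log (2 * c)) * (1 + Real.log R)) :=
          mul_le_mul_of_nonneg_left hlog (by positivity)
      _ = _ := by ring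
  set E : ℝ := (R : ℝ) ^ 2 / ρ.den * (1 + (R : ℝ) ^ 2 * |t - ρ|) ^ (-γ) with hEdef
  set D : ℝ := (R : ℝ) * (1 + Real.log R) with hDdef
  have h1 : 0 ≤ 10 * (c : ℝ) * (1 + Real.log (2 * c)) := by positivity
  have h2 : 0 ≤ 2 * (c : ℝ) * (c + 1) * (1 / (1 - γ)) := by positivity
  have h3 := mul_nonneg h1 hE
  have h4 := mul_nonneg h2 hD0
  nlinarith

end

end SYM
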