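import Pool.Agent.SYM.StT
import Pool.Agent.STZ.YOUNG

/-!
# SYM, module YOUM: Young's inequality on the circle with a cutoff
-/

set_option autoImplicit false

namespace SYM

open MeasureTheory Set STZ STZ.YOUNG

namespace YOUM

/-- Lebesgue measure on the unit interval -/
noncomputable def nu : Measure ℝ := volume.restrict (Ioc 0 1)

instance : IsFiniteMeasure nu := by
  unfold nu
  infer_instance

/-- measurable, bounded on the square -/
structure BD (u : ℝ → ℝ → ℝ) : Prop where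
  meas : Measurable (Function.uncurry u)
  bd : ∃ C, ∀ s ∈ Icc (0 : ℝ) 1, ∀ t ∈ Icc (0 : ℝ) 1, |u s t| ≤ C

theorem BD.int {u : ℝ → ℝ → ℝ} (hu : BD u) : Integrable (Function.uncurry u) (nu.prod nu) := by
  obtain ⟨C, hC⟩ := hu.bd
  refine Integrable.mono' (g := fun _ => C) (integrable_const C) hu.meas.aestronglyMeasurable ?_
  unfold nu
  rw [Measure.prod_restrict]
  refine (ae_restrict_iff' (measurableSet_Ioc.prod measurableSet_Ioc)).2 ?_
  refine Filter.Eventually.of_forall fun z hz => ?_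
  exact hC _ (Ioc_subset_Icc_self hz.1) _ (Ioc_subset_Icc_self hz.2)

theorem BD.dbl {u : ℝ → ℝ → ℝ} (hu : BD u) :
    dbl u = ∫ z, Function.uncurry u z ∂(nu.prod nu) := by
  rw [integral_prod _ hu.int]
  unfold STZ.YOUNG.dbl nu
  rw [intervalIntegral.integral_of_le zero_le_one]
  refine integral_congr_ae (Filter.Eventually.of_forall fun s => ?_)
  simp only [Function.uncurry]
  rw [intervalIntegral.integral_of_le zero_le_one]

theorem BD.add {u v : ℝ → ℝ → ℝ} (hu : BD u) (hv : BD v) : BD fun s t => u s t + v s t := by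
  obtain ⟨C, hC⟩ := hu.bd
  obtain ⟨C', hC'⟩ := hv.bd
  exact ⟨hu.meas.add hv.meas, C + C', fun s hs t ht =>
    (abs_add_le _ _).trans (add_le_add (hC s hs t ht) (hC' s hs t ht))⟩

theorem BD.mul {u v : ℝ → ℝ → ℝ} (hu : BD u) (hv : BD v) : BD fun s t => u s t * v s t := by
  obtain ⟨C, hC⟩ := hu.bd
  obtain ⟨C', hC'⟩ := hv.bd
  refine ⟨hu.meas.mul hv.meas, |C| * |C'|, fun s hs t ht => ?_⟩
  rw [abs_mul]
  exact mul_le_mul ((hC s hs t ht).trans (le_abs_self _)) ((hC' s hs t ht).trans (le_abs_self _))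
    (abs_nonneg _) (abs_nonneg _)

theorem BD.const (c : ℝ) : BD fun _ _ => c := ⟨measurable_const, |c|, fun _ _ _ _ => le_rfl⟩

theorem BD.fst {F : ℝ → ℝ} (hF : Continuous F) : BD fun s _ => F s := by
  refine ⟨hF.measurable.comp measurable_fst, ?_⟩
  obtain ⟨C, hC⟩ := isCompact_Icc.exists_bound_of_continuousOn (s := Icc (0 : ℝ) 1) hF.continuousOn
  exact ⟨C, fun s hs _ _ => hC s hs⟩

theorem BD.snd {F : ℝ → ℝ} (hF : Continuous F) : BD fun _ t => F t := by
  refine ⟨hF.measurable.comp measurable_snd, ?_⟩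
  obtain ⟨C, hC⟩ := isCompact_Icc.exists_bound_of_continuousOn (s := Icc (0 : ℝ) 1) hF.continuousOn
  exact ⟨C, fun _ _ t ht => hC t ht⟩

/-- measurable, bounded on `[-1, 1]` -/
structure BK (G : ℝ → ℝ) : Prop where
  meas : Measurable G
  bd : ∃ C, ∀ t ∈ Icc (-1 : ℝ) 1, |G t| ≤ C

theorem BK.conv {G : ℝ → ℝ} (hG : BK G) : BD fun s t => G (s - t) := by
  obtain ⟨C, hC⟩ := hG.bd
  refine ⟨hG.meas.comp (measurable_fst.sub measurable_snd), C, fun s hs t ht => hC _ ?_⟩
  exact ⟨by linarith [hs.1, ht.2], by linarith [hs.2, ht.1]⟩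

theorem BK.int {G : ℝ → ℝ} (hG : BK G) : IntervalIntegrable G volume 0 1 := by
  obtain ⟨C, hC⟩ := hG.bd
  rw [intervalIntegrable_iff_integrableOn_Ioc_of_le zero_le_one]
  refine Integrable.mono' (g := fun _ => C) (integrable_const C) hG.meas.aestronglyMeasurable ?_
  refine (ae_restrict_iff' measurableSet_Ioc).2 (Filter.Eventually.of_forall fun t ht => ?_)
  exact hC t ⟨by linarith [ht.1], ht.2⟩

theorem dbl_add' {u v : ℝ → ℝ → ℝ} (hu : BD u) (hv : BD v) :
    dbl (fun s t => u s t + v s t) = dbl u + dbl v := by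
  rw [hu.dbl, hv.dbl, (hu.add hv).dbl, ← integral_add hu.int hv.int]
  rfl

theorem dbl_mono' {u v : ℝ → ℝ → ℝ} (hu : BD u) (hv : BD v) (h : ∀ s t, u s t ≤ v s t) :
    dbl u ≤ dbl v := by
  rw [hu.dbl, hv.dbl]
  exact integral_mono hu.int hv.int fun z => h z.1 z.2

theorem dbl_swap' {u : ℝ → ℝ → ℝ} (hu : BD u) : dbl u = dbl fun s t => u t s := by
  have hv : BD fun s t => u t s := by
    obtain ⟨C, hC⟩ := hu.bd
    exact ⟨hu.meas.comp measurable_swap, C, fun s hs t ht => hC t ht s hs⟩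
  rw [hu.dbl, hv.dbl]
  exact (integral_prod_swap (Function.uncurry u)).symm

theorem main_eps {q : ℝ} {f k : ℝ → ℝ} (hq : 2 ≤ q) (hf : Continuous f) (hk : BK k)
    (hf0 : ∀ x, 0 ≤ f x) (hk0 : ∀ x, 0 ≤ k x) (hp : ∀ x, k (x + 1) = k x) {A B : ℝ}
    (hA : ∫ t in (0 : ℝ)..1, k t ^ (q / 2) ≤ A) (hB : ∫ t in (0 : ℝ)..1, f t ^ (q / (q - 1)) ≤ B)
    (hA0 : 0 < A) (hB0 : 0 < B) :
    ∫ s in (0 : ℝ)..1, ∫ t in (0 : ℝ)..1, k (s - t) * f s * f t ≤
      A ^ (2 / q) * B ^ (2 * (q - 1) / q) := by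
  have hq0 : 0 < q := by linarith
  have hq1 : 0 < q - 1 := by linarith
  have hb : 0 ≤ q / (q - 1) := (div_pos hq0 hq1).le
  have ha : 0 ≤ q / 2 := by positivity
  obtain ⟨F, hF⟩ : ∃ F : ℝ → ℝ, ∀ t, F t = f t ^ (q / (q - 1)) := ⟨_, fun _ => rfl⟩
  obtain ⟨G, hG⟩ : ∃ G : ℝ → ℝ, ∀ t, G t = k t ^ (q / 2) := ⟨_, fun _ => rfl⟩
  have hFc : Continuous F := by
    have : F = fun t => f t ^ (q / (q - 1)) := funext hF
    rw [this]
    exact hf.rpow_const fun _ => Or.inr hb
  have hGc : BK G := by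
    have : G = fun t => k t ^ (q / 2) := funext hG
    rw [this]
    refine ⟨hk.meas.pow_const _, ?_⟩
    obtain ⟨C, hC⟩ := hk.bd
    refine ⟨C ^ (q / 2), fun t ht => ?_⟩
    rw [abs_of_nonneg (Real.rpow_nonneg (hk0 t) _)]
    exact Real.rpow_le_rpow (hk0 t) ((le_abs_self _).trans (hC t ht)) ha
  have hF0 : ∀ t, 0 ≤ F t := fun t => by rw [hF]; exact Real.rpow_nonneg (hf0 t) _
  have hG0 : ∀ t, 0 ≤ G t := fun t => by rw [hG]; exact Real.rpow_nonneg (hk0 t) _
  have hGp : ∀ t, G (t + 1) = G t := fun t => by rw [hG, hG, hp]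
  simp only [← hF] at hB
  simp only [← hG] at hA
  have hIA : 0 ≤ ∫ t in (0 : ℝ)..1, G t :=
    intervalIntegral.integral_nonneg zero_le_one fun t _ => hG0 t
  have hIB : 0 ≤ ∫ t in (0 : ℝ)..1, F t :=
    intervalIntegral.integral_nonneg zero_le_one fun t _ => hF0 t
  set IA := ∫ t in (0 : ℝ)..1, G t with hIAd
  set IB := ∫ t in (0 : ℝ)..1, F t with hIBd
  have c1 : BD fun s t => F s * F t := (BD.fst hFc).mul (BD.snd hFc)
  have c2 : BD fun s t => F s * G (s - t) := (BD.fst hFc).mul hGc.conv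
  have c3 : BD fun s t => F t * G (s - t) := (BD.snd hFc).mul hGc.conv
  have c0 : BD fun s t => k (s - t) * f s * f t := (hk.conv.mul (BD.fst hf)).mul (BD.snd hf)
  have d1 : dbl (fun s t => F s * F t) = IB * IB := dbl_prod F F
  have d2 : dbl (fun s t => F s * G (s - t)) = IB * IA := dbl_conv hGp
  have d3 : dbl (fun s t => F t * G (s - t)) = IB * IA := by
    rw [dbl_swap' c3]
    have hsh : ∀ s : ℝ, ∫ t in (0 : ℝ)..1, G (t - s) = IA := by
      intro s
      rw [intervalIntegral.integral_comp_sub_right (fun x => G x) s]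
      have h := Function.Periodic.intervalIntegral_add_eq (f := G) (T := 1) hGp (0 - s) 0
      rw [zero_add, show (0 : ℝ) - s + 1 = 1 - s by ring] at h
      exact h
    unfold STZ.YOUNG.dbl
    simp only [intervalIntegral.integral_const_mul, hsh, intervalIntegral.integral_mul_const]
    rfl
  set w0 : ℝ := (q - 2) / q / (B * B) with hw0d
  set w1 : ℝ := 1 / q / (A * B) with hw1d
  have b1 : BD fun s t => w0 * (F s * F t) := (BD.const w0).mul c1
  have b2 : BD fun s t => w1 * (F s * G (s - t)) := (BD.const w1).mul c2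
  have b3 : BD fun s t => w1 * (F t * G (s - t)) := (BD.const w1).mul c3
  have hsum : dbl (fun s t => w0 * (F s * F t) + w1 * (F s * G (s - t)) +
      w1 * (F t * G (s - t))) = w0 * (IB * IB) + w1 * (IB * IA) + w1 * (IB * IA) := by
    rw [dbl_add' (u := fun s t => w0 * (F s * F t) + w1 * (F s * G (s - t)))
      (v := fun s t => w1 * (F t * G (s - t))) (b1.add b2) b3,
      dbl_add' (u := fun s t => w0 * (F s * F t)) (v := fun s t => w1 * (F s * G (s - t))) b1 b2,
      dbl_mul, dbl_mul, dbl_mul, d1, d2, d3]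
  have hle : w0 * (IB * IB) + w1 * (IB * IA) + w1 * (IB * IA) ≤ 1 := by
    have h1 : w0 * (IB * IB) ≤ (q - 2) / q := by
      rw [hw0d, div_mul_eq_mul_div, div_le_iff₀ (mul_pos hB0 hB0)]
      exact mul_le_mul_of_nonneg_left (mul_le_mul hB hB hIB hB0.le)
        (div_nonneg (by linarith) hq0.le)
    have h2 : w1 * (IB * IA) ≤ 1 / q := by
      rw [hw1d, div_mul_eq_mul_div, div_le_iff₀ (mul_pos hA0 hB0)]
      refine mul_le_mul_of_nonneg_left ?_ (by positivity)
      rw [mul_comm A B]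
      exact mul_le_mul hB hA hIA hB0.le
    have h3 : (q - 2) / q + 1 / q + 1 / q = 1 := by
      field_simp
      ring
    linarith
  have hC : 0 ≤ A ^ (2 / q) * B ^ (2 * (q - 1) / q) :=
    mul_nonneg (Real.rpow_nonneg hA0.le _) (Real.rpow_nonneg hB0.le _)
  have hmono : dbl (fun s t => k (s - t) * f s * f t) ≤
      dbl (fun s t => (A ^ (2 / q) * B ^ (2 * (q - 1) / q)) * (w0 * (F s * F t) +
        w1 * (F s * G (s - t)) + w1 * (F t * G (s - t)))) := by
    refine dbl_mono' c0 ((BD.const _).mul ((b1.add b2).add b3)) fun s t => ?_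
    rw [pointwise hq (hf0 s) (hf0 t) (hk0 (s - t)), ← hF, ← hF, ← hG]
    exact amgm hq hA0 hB0 (mul_nonneg (hF0 s) (hF0 t)) (mul_nonneg (hF0 s) (hG0 _))
      (mul_nonneg (hF0 t) (hG0 _))
  rw [dbl_mul, hsum] at hmono
  refine hmono.trans ?_
  calc _ ≤ (A ^ (2 / q) * B ^ (2 * (q - 1) / q)) * 1 := mul_le_mul_of_nonneg_left hle hC
    _ = _ := mul_one _

end YOUM

open YOUM

theorem t_YOUM : S_YOUM := by
  intro q f k χ hq hf hk hχ hf0
  have hq0 : 0 < q := by linarith
  have ha : 0 ≤ q / 2 := by positivity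
  -- the kernel
  obtain ⟨g, hg⟩ : ∃ g : ℝ → ℝ, ∀ t, g t = χ t * k t := ⟨_, fun _ => rfl⟩
  have hkc : Continuous fun t => k t ^ (q / 2) := hk.cont.rpow_const fun _ => Or.inr ha
  have hg0 : ∀ t, 0 ≤ g t := fun t => by rw [hg]; exact mul_nonneg (hχ.nn t) (hk.nn t)
  have hgk : ∀ t, g t ≤ k t := fun t => by
    rw [hg]
    exact mul_le_of_le_one_left (hk.nn t) (hχ.le t)
  have hgK : BK g := by
    refine ⟨?_, ?_⟩
    · have : g = fun t => χ t * k t := funext hg
      rw [this]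
      exact hχ.meas.mul hk.cont.measurable
    · obtain ⟨C, hC⟩ := isCompact_Icc.exists_bound_of_continuousOn (s := Icc (-1 : ℝ) 1)
        hk.cont.continuousOn
      refine ⟨C, fun t ht => ?_⟩
      rw [abs_of_nonneg (hg0 t)]
      exact (hgk t).trans ((le_abs_self _).trans (hC t ht))
  have hgp : ∀ t, g (t + 1) = g t := fun t => by rw [hg, hg, hχ.per, hk.per]
  -- the integrals of the powers
  have hcK : BK fun t => χ t * k t ^ (q / 2) := by
    refine ⟨hχ.meas.mul hkc.measurable, ?_⟩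
    obtain ⟨C, hC⟩ := isCompact_Icc.exists_bound_of_continuousOn (s := Icc (-1 : ℝ) 1)
      hkc.continuousOn
    refine ⟨C, fun t ht => ?_⟩
    have h1 : 0 ≤ k t ^ (q / 2) := Real.rpow_nonneg (hk.nn t) _
    rw [abs_of_nonneg (mul_nonneg (hχ.nn t) h1)]
    exact (mul_le_of_le_one_left h1 (hχ.le t)).trans ((le_abs_self _).trans (hC t ht))
  have hgq : BK fun t => g t ^ (q / 2) := by
    refine ⟨hgK.meas.pow_const _, ?_⟩
    obtain ⟨C, hC⟩ := hgK.bd
    refine ⟨C ^ (q / 2), fun t ht => ?_⟩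
    rw [abs_of_nonneg (Real.rpow_nonneg (hg0 t) _)]
    exact Real.rpow_le_rpow (hg0 t) ((le_abs_self _).trans (hC t ht)) ha
  have hle : ∫ t in (0 : ℝ)..1, g t ^ (q / 2) ≤ ∫ t in (0 : ℝ)..1, χ t * k t ^ (q / 2) := by
    refine intervalIntegral.integral_mono_on zero_le_one hgq.int hcK.int fun t _ => ?_
    rw [hg, Real.mul_rpow (hχ.nn t) (hk.nn t)]
    refine mul_le_mul_of_nonneg_right ?_ (Real.rpow_nonneg (hk.nn t) _)
    rcases (hχ.nn t).eq_or_lt with h | h
    · rw [← h, Real.zero_rpow (by positivity)]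
    · calc χ t ^ (q / 2) ≤ χ t ^ (1 : ℝ) :=
            Real.rpow_le_rpow_of_exponent_ge h (hχ.le t) (by linarith)
        _ = χ t := Real.rpow_one _
  have hrw : ∫ s in (0 : ℝ)..1, ∫ t in (0 : ℝ)..1, χ (s - t) * k (s - t) * f s * f t =
      ∫ s in (0 : ℝ)..1, ∫ t in (0 : ℝ)..1, g (s - t) * f s * f t := by
    simp only [hg]
  rw [hrw]
  set A := ∫ t in (0 : ℝ)..1, χ t * k t ^ (q / 2) with hA
  set B := ∫ t in (0 : ℝ)..1, f t ^ (q / (q - 1)) with hB
  have hA0 : 0 ≤ A := intervalIntegral.integral_nonneg zero_le_one fun t _ =>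
    mul_nonneg (hχ.nn t) (Real.rpow_nonneg (hk.nn t) _)
  have hB0 : 0 ≤ B :=
    intervalIntegral.integral_nonneg zero_le_one fun t _ => Real.rpow_nonneg (hf0 t) _
  have h1 : Continuous fun ε : ℝ => (A + ε) ^ (2 / q) * (B + ε) ^ (2 * (q - 1) / q) := by
    refine ((continuous_const.add continuous_id).rpow_const fun _ => Or.inr ?_).mul
      ((continuous_const.add continuous_id).rpow_const fun _ => Or.inr ?_)
    · positivity
    · exact div_nonneg (by linarith) hq0.le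
  have h2 : Filter.Tendsto (fun ε : ℝ => (A + ε) ^ (2 / q) * (B + ε) ^ (2 * (q - 1) / q))
      (nhdsWithin 0 (Ioi 0)) (nhds ((A + 0) ^ (2 / q) * (B + 0) ^ (2 * (q - 1) / q))) :=
    (h1.tendsto 0).mono_left nhdsWithin_le_nhds
  rw [add_zero, add_zero] at h2
  refine ge_of_tendsto h2 ?_
  filter_upwards [self_mem_nhdsWithin] with ε hε
  have hε' : 0 < ε := hε
  exact YOUM.main_eps hq hf hgK hf0 hg0 hgp (by linarith) (by linarith) (by linarith)
    (by linarith)

end SYM
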