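import Pool.Agent.LGR.ASM
import Pool.Agent.SYM.ABEV
import Pool.Agent.SYM.MONO
import Pool.Agent.SYM.DAMP
import Pool.Agent.SYM.CUTS
import Pool.Agent.SYM.MULS
import Pool.Agent.SYM.DICK
import Pool.Agent.SYM.YOUM
import Pool.Agent.SYM.TTA
import Pool.Agent.SYM.KIA
import Pool.Agent.SYM.VPAR
import Pool.Agent.SYM.KIB
import Pool.Agent.SYM.VDIV
import Pool.Agent.SYM.VRAM
import Pool.Agent.SYM.VREP
import Pool.Agent.SYM.VZER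
import Pool.Agent.SYM.VARC
import Pool.Agent.SYM.WPTG
import Pool.Agent.SYM.ARCS
import Pool.Agent.SYM.VMAJ
import Pool.Agent.SYM.SRDX
import Pool.Agent.SYM.STAU
import Pool.Agent.SYM.SSAT
import Pool.Agent.SYM.SCRD
import Pool.Agent.SYM.SPAN
import Pool.Agent.SYM.SNIL
import Pool.Agent.SYM.LEMK
import Pool.Agent.SYM.CONQ
import Pool.Agent.SYM.LEVC
import Pool.Agent.SYM.DOMQ
import Pool.Agent.SYM.BOPQ
import Pool.Agent.SYM.COMQ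
import Pool.Agent.SYM.KDIR
import Pool.Agent.SYM.ROWS
import Pool.Agent.SYM.LROW
import Pool.Agent.SYM.BOXV
import Pool.Agent.SYM.DECQ
import Pool.Agent.SYM.GEOQ
import Pool.Agent.SYM.SHWM
import Pool.Agent.SYM.DERJ
import Pool.Agent.SYM.HEIS
import Pool.Agent.SYM.DOMS
import Pool.Agent.SYM.HWVX
import Pool.Agent.SYM.KSPN
import Pool.Agent.SYM.SPHR
import Pool.Agent.SYM.SPHU
import Pool.Agent.SYM.KSKR
import Pool.Agent.SYM.SPXX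
import Pool.Agent.SYM.SSUM
import Pool.Agent.SYM.ISUM
import Pool.Agent.SYM.KWSX
import Pool.Agent.SYM.MULZ
import Pool.Agent.SYM.MULF
import Pool.Agent.SYM.KWSF
import Pool.Agent.SYM.JADD
import Pool.Agent.SYM.GSUS
import Pool.Agent.SYM.LOCS
import Pool.Agent.SYM.CLAS
import Pool.Agent.SYM.SPDX
import Pool.Agent.SYM.STRS
import Pool.Agent.SYM.MAINS

/-!
# Symmetric spaces, the upper bound: the assembly
-/

namespace SYM

open STZ LGR MeasureTheory Matrix Filter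

namespace ASM

theorem abev : S_ABEV := SYM.t_ABEV

theorem mono : S_MONO := SYM.t_MONO

theorem damp : S_DAMP := SYM.t_DAMP LGR.ASM.wwf LGR.ASM.weyy abev mono

theorem cuts : S_CUTS := SYM.t_CUTS

theorem muls : S_MULS := SYM.t_MULS LGR.ASM.wwf LGR.ASM.weyy LGR.ASM.abey LGR.ASM.wcly cuts

theorem dick : S_DICK := SYM.t_DICK

theorem youm : S_YOUM := SYM.t_YOUM

theorem tta : S_TTA := SYM.t_TTA LGR.ASM.kb

theorem kia : S_KIA := SYM.t_KIA youm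

theorem vpar : S_VPAR := SYM.t_VPAR

theorem kib : S_KIB := SYM.t_KIB LGR.ASM.kb vpar

theorem vdiv : S_VDIV := SYM.t_VDIV

theorem vram : S_VRAM := SYM.t_VRAM

theorem vrep : S_VREP := SYM.t_VREP

theorem vzer : S_VZER := SYM.t_VZER vdiv vrep

theorem varc : S_VARC := SYM.t_VARC vram

theorem wptg : S_WPTG := SYM.t_WPTG

theorem arcs : S_ARCS := SYM.t_ARCS vdiv varc wptg

theorem vmaj : S_VMAJ := SYM.t_VMAJ LGR.ASM.wwf varc wptg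

theorem srdx : S_SRDX := SYM.t_SRDX LGR.ASM.lieb LGR.ASM.wfac LGR.ASM.rhof LGR.ASM.tauf LGR.ASM.wrep LGR.ASM.lrdx LGR.ASM.nilp

theorem stau : S_STAU := SYM.t_STAU LGR.ASM.lieb LGR.ASM.wfac LGR.ASM.tauf LGR.ASM.taus

theorem ssat : S_SSAT := SYM.t_SSAT LGR.ASM.wfac LGR.ASM.rhof LGR.ASM.quad

theorem scrd : S_SCRD := SYM.t_SCRD LGR.ASM.lieb LGR.ASM.wfac LGR.ASM.tauf LGR.ASM.taus

theorem span : S_SPAN := SYM.t_SPAN LGR.ASM.wfac LGR.ASM.tauf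

theorem snil : S_SNIL := SYM.t_SNIL LGR.ASM.lieb LGR.ASM.wfac LGR.ASM.tauf LGR.ASM.taus

theorem lemk : S_LEMK := SYM.t_LEMK LGR.ASM.exp LGR.ASM.lieb LGR.ASM.taus

theorem conq : S_CONQ := SYM.t_CONQ LGR.ASM.exp LGR.ASM.lieb LGR.ASM.clsu LGR.ASM.wfac LGR.ASM.tauf LGR.ASM.taus lemk

theorem levc : S_LEVC := SYM.t_LEVC LGR.ASM.lieb LGR.ASM.wfac LGR.ASM.tauf LGR.ASM.taus snil lemk conq

theorem domq : S_DOMQ := SYM.t_DOMQ LGR.ASM.wfac LGR.ASM.tauf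

theorem bopq : S_BOPQ := SYM.t_BOPQ

theorem comq : S_COMQ := SYM.t_COMQ LGR.ASM.lieb

theorem kdir : S_KDIR := SYM.t_KDIR LGR.ASM.lieb LGR.ASM.wfac LGR.ASM.tauf LGR.ASM.taus

theorem rows : S_ROWS := SYM.t_ROWS LGR.ASM.wfac LGR.ASM.tauf snil

theorem lrow : S_LROW := SYM.t_LROW LGR.ASM.exp LGR.ASM.lieb LGR.ASM.wfac LGR.ASM.tauf LGR.ASM.taus span snil levc bopq comq kdir rows

theorem boxv : S_BOXV := SYM.t_BOXV

theorem decq : S_DECQ := SYM.t_DECQ LGR.ASM.exp LGR.ASM.calh boxv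

theorem geoq : S_GEOQ := SYM.t_GEOQ LGR.ASM.lieb LGR.ASM.wfac LGR.ASM.tauf conq domq bopq lrow decq

theorem shwm : S_SHWM := SYM.t_SHWM LGR.ASM.calh LGR.ASM.lieb LGR.ASM.wfac LGR.ASM.tauf LGR.ASM.pgxx

theorem derj : S_DERJ := SYM.t_DERJ LGR.ASM.calh LGR.ASM.lieb LGR.ASM.wfac LGR.ASM.tauf LGR.ASM.taus LGR.ASM.phib LGR.ASM.pgxx snil

theorem heis : S_HEIS := SYM.t_HEIS LGR.ASM.calh LGR.ASM.lieb LGR.ASM.wfac LGR.ASM.rhof LGR.ASM.quad LGR.ASM.tauf LGR.ASM.adfr LGR.ASM.pgxx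

theorem doms : S_DOMS := SYM.t_DOMS LGR.ASM.haar LGR.ASM.calh LGR.ASM.grh LGR.ASM.lieb LGR.ASM.wfac LGR.ASM.tauf LGR.ASM.pgxx

theorem hwvx : S_HWVX := SYM.t_HWVX LGR.ASM.calh LGR.ASM.lieb LGR.ASM.wfac LGR.ASM.rhof LGR.ASM.quad LGR.ASM.pffx LGR.ASM.drep LGR.ASM.tauf LGR.ASM.tres LGR.ASM.tpol LGR.ASM.adfr LGR.ASM.hgtw LGR.ASM.qcmp

theorem kspn : S_KSPN := SYM.t_KSPN LGR.ASM.haar LGR.ASM.schur LGR.ASM.lieb LGR.ASM.wfac LGR.ASM.tauf LGR.ASM.taus LGR.ASM.conj LGR.ASM.pffx LGR.ASM.drep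

theorem sphr : S_SPHR := SYM.t_SPHR LGR.ASM.haar LGR.ASM.calh LGR.ASM.lieb LGR.ASM.wfac LGR.ASM.tauf LGR.ASM.pffx LGR.ASM.drep hwvx kspn

theorem sphu : S_SPHU := SYM.t_SPHU LGR.ASM.haar LGR.ASM.schur LGR.ASM.grh LGR.ASM.kb LGR.ASM.keri LGR.ASM.calh LGR.ASM.lieb LGR.ASM.wfac LGR.ASM.rvof LGR.ASM.tauf LGR.ASM.pffx LGR.ASM.drep LGR.ASM.eigw LGR.ASM.gxoc LGR.ASM.pgxx heis hwvx kspn

theorem kskr : S_KSKR := SYM.t_KSKR LGR.ASM.haar LGR.ASM.kb LGR.ASM.keri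

theorem spxx : S_SPXX := SYM.t_SPXX LGR.ASM.kb LGR.ASM.keri LGR.ASM.calh LGR.ASM.wfac LGR.ASM.rvof LGR.ASM.eigw LGR.ASM.gxoc doms sphr sphu kskr

theorem ssum : S_SSUM := SYM.t_SSUM LGR.ASM.wwf damp

theorem isum : S_ISUM := SYM.t_ISUM cuts

theorem kwsx : S_KWSX := SYM.t_KWSX cuts

theorem mulz : S_MULZ := SYM.t_MULZ LGR.ASM.wwf muls

theorem mulf : S_MULF := SYM.t_MULF cuts vzer

theorem kwsf : S_KWSF := SYM.t_KWSF LGR.ASM.wwf cuts ssum isum kwsx mulz mulf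

theorem jadd : S_JADD := SYM.t_JADD

theorem gsus : S_GSUS := SYM.t_GSUS LGR.ASM.wwf vmaj

theorem locs : S_LOCS := SYM.t_LOCS LGR.ASM.kb LGR.ASM.bern LGR.ASM.wwf LGR.ASM.kop LGR.ASM.lev tta kia kib arcs kwsf jadd gsus

theorem clas : S_CLAS := SYM.t_CLAS dick

theorem spdx : S_SPDX := SYM.t_SPDX LGR.ASM.wfac LGR.ASM.quad LGR.ASM.pgxx shwm derj geoq clas

theorem strs : S_STRS := SYM.t_STRS LGR.ASM.nq LGR.ASM.kb LGR.ASM.haar LGR.ASM.calh LGR.ASM.wfac LGR.ASM.quad LGR.ASM.allx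

theorem mains : MainUpM := SYM.t_MAINS LGR.ASM.kfrm LGR.ASM.form srdx stau ssat scrd spxx spdx locs strs

end ASM

end SYM
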