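import Pool.Agent.SYM.FINS
import Pool.Agent.LGR.LOCW

/-!
# The conjectured range for the simple groups
-/

namespace LGK

open STZ MeasureTheory Matrix Filter

/-- the dimension is at least three times the rank -/
theorem three_rank (N : ℕ) (H : Subgroup (SU N)) (T : Submodule ℝ (Mat N)) (d r : ℕ)
    (hH : Group H T d r) (h1 : 1 ≤ r) : 3 * r ≤ d := by
  obtain ⟨Φ, B, Hc, E, hL, -⟩ := LGR.ASM.lrdx N H T r hH.grp.closed hH.grp.simple
    ⟨hH.max.sub, hH.max.comm, hH.max.max⟩ hH.rank.symm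
  obtain ⟨c, hc, hfr, -⟩ := LGR.ASM.kfrm N H hH.grp.closed hH.grp.simple
  obtain ⟨X, hX⟩ := hfr d hH.grp.dim
  obtain ⟨k, hk⟩ := LGR.ASM.form N H r Φ B Hc E hH.grp.closed hL h1 c hc
  have h2 := (LGR.ASM.adfr N H r Φ B Hc E c k d X hH.grp.closed hL hk hX).1
  have h3 := LGR.LOCW.card_ge (LGR.ASM.rvof r Φ B h1 hL.ird)
  omega

theorem upper4 (N : ℕ) (H : Subgroup (SU N)) (T : Submodule ℝ (Mat N)) (d r : ℕ)
    (hH : Group H T d r) (h2 : 2 ≤ r) (p : ℝ) (hp : 2 + 4 / (r : ℝ) < p) : Str H d p := by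
  have h3 := three_rank N H T d r hH (by omega)
  have hr : (2 : ℝ) ≤ r := by exact_mod_cast h2
  have hr0 : (0 : ℝ) < r := by linarith
  have hd : 3 * (r : ℝ) ≤ d := by exact_mod_cast h3
  have hd0 : (0 : ℝ) < d := by linarith
  have e1 : 8 / (d : ℝ) ≤ 4 / r := by
    rw [div_le_div_iff₀ hd0 hr0]
    linarith
  have e3 : 4 / (r : ℝ) ≤ 2 := by
    rw [div_le_iff₀ hr0]
    linarith
  have e4 : 8 / (r : ℝ) = 4 / r + 4 / r := by ring
  exact upper N H T d r hH h2 p (by linarith) (by linarith)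

end LGK
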