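import Pool.Agent.LGR.FINK
import Pool.Agent.SYM.ASM

/-!
# The upper bound for symmetric spaces, in the final form
-/

namespace LGK

open STZ MeasureTheory Matrix Filter

theorem upperM (N : ℕ) (H K : Subgroup (SU N)) (σ : SU N → SU N) (τ : Mat N → Mat N)
    (A : Submodule ℝ (Mat N)) (D d r : ℕ) (hM : Space H K σ τ A D d r) (h2 : 2 ≤ r)
    (p : ℝ) (hp : 2 + 4 / (r : ℝ) < p) (μ : Measure H) (hμ : IsProbabilityMeasure μ)
    (hi : μ.IsMulLeftInvariant) (a b : ℝ) (hab : a ≤ b) : ∃ C : ℝ, StrIneqM H K D d μ p a b C := by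
  have hA := hM.max
  obtain ⟨C, hC⟩ := SYM.ASM.mains N H K (hom hM.pair.inv) (IsLinearMap.mk' τ hM.pair.inv.lin) A D d r hM.grp.closed
    hM.grp.conn hM.grp.simple (pair_up hM.pair) ⟨fun X hX => (hA.sub X hX).1, fun X hX => (hA.sub X hX).2, hA.comm,
      fun X h1 h2 h3 => hA.max X ⟨h1, h2⟩ h3⟩ hM.grp.dim hM.dim hM.rank h2 p hp μ hμ hi a b hab
  refine ⟨C, fun X hX κ f hf hK u hu => ?_⟩
  exact hC X (frame_up hX) κ f hf.inj hf.eig hK hf.sum u hu.meas hu.lim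

end LGK
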