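import Pool.Agent.SYM.StS

/-!
# Module SPXX: the reproducing kernels of the spaces of the right invariant functions
-/

set_option autoImplicit false

namespace SYM

open STZ LGR MeasureTheory Matrix Filter

open scoped ComplexConjugate Matrix Real Topology

noncomputable section

namespace SPXX

/-- a character is a class function -/
theorem ch_comm {G : Type} [Group G] [TopologicalSpace G] {n : ℕ} (R : Rep G (Fin n)) (x y : G) :
    R.ch (x * y) = R.ch (y * x) := by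
  unfold Rep.ch
  rw [map_mul, map_mul, Matrix.trace_mul_comm]

theorem wG_inj {l : ℕ} : Function.Injective (wG (r := l)) := by
  intro a b h
  funext i
  have h1 := congrFun h i
  unfold wG at h1
  omega

theorem IX_ext {N l : ℕ} {Hc : Fin l → Matrix (Fin N) (Fin N) ℂ} (a b : IX Hc) (h : wG a.1 = wG b.1) :
    a = b := Subtype.ext (wG_inj h)

theorem sum_sj {l r : ℕ} {Φ : RT l} {θ : Matrix (Fin l) (Fin l) ℤ} {x₀ : Fin l → ℝ} {s : Fin r → Fin l}
    {ε : Fin r → Fin l → ℤ} (O : SO Φ θ x₀ s ε) (m : Fin r → ℤ) (i : Fin r) :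
    (∑ j, m j • ε j) (s i) = m i := by
  rw [Finset.sum_apply, Finset.sum_eq_single i]
  · rw [Pi.smul_apply, O.sj, if_pos rfl, smul_eq_mul, mul_one]
  · intro j _ hj
    rw [Pi.smul_apply, O.sj, if_neg (Ne.symm hj), smul_zero]
  · intro h
    exact absurd (Finset.mem_univ i) h

theorem pos_prod {l : ℕ} {Φ : RT l} (R : RV (rd Φ) (pos Φ)) :
    ((∏ p ∈ pos Φ, (p.2 ⬝ᵥ (1 : Fin l → ℤ)) : ℤ) : ℝ) ≠ 0 := by
  have h : (∏ p ∈ pos Φ, (p.2 ⬝ᵥ (1 : Fin l → ℤ)) : ℤ) ≠ 0 := by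
    rw [Finset.prod_ne_zero_iff]
    intro p hp
    obtain ⟨h1, h2⟩ := R.pos p hp
    obtain ⟨i, hi⟩ : ∃ i, p.2 i ≠ 0 := by
      by_contra hc
      push Not at hc
      exact h2 (funext hc)
    have h3 : p.2 ⬝ᵥ (1 : Fin l → ℤ) = ∑ i, p.2 i := by
      simp [dotProduct]
    rw [h3]
    have h4 : 0 < ∑ i, p.2 i :=
      Finset.sum_pos' (fun i _ => h1 i) ⟨i, Finset.mem_univ i, lt_of_le_of_ne (h1 i) (Ne.symm hi)⟩
    exact h4.ne'
  exact_mod_cast h

end SPXX

open SPXX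

theorem t_SPXX : M_SPXX := by
  intro _ _ _ _ hRV hEIG hGX hDOM hSPR hSPU hKS N H K σ τ A l Φ B Hc E x₀ θ r s ε Dt c k D X hKC hX μ _ _
    νK _ _ hK
  have L := Dt.sr.lrd
  have R : RV (rd Φ) (pos Φ) := hRV l Φ B Dt.l1 L.ird
  obtain ⟨⟨χ, hχ⟩, hGX'⟩ := hGX N H l Φ B Hc E c k D X Dt.l1 Dt.closed Dt.conn L hKC hX
  obtain ⟨Z, G⟩ := hGX' χ hχ
  obtain ⟨hker, hpr⟩ := hKS N H K Dt.closed Dt.sym.closed hK μ νK (IX Hc) χ G.irr
  -- the integral of the kernel
  have hKSe : ∀ (b : IX Hc) (x y : H), KS hK νK χ b x y = χ b 1 * ∫ k, χ b (y⁻¹ * x * ik hK k) ∂νK := by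
    intro b x y
    obtain ⟨n, ρ, -, -, -, hρ⟩ := hχ b
    unfold KS KK
    rw [integral_const_mul]
    congr 1
    refine integral_congr_ae (Filter.Eventually.of_forall fun k => ?_)
    show χ b (x * ik hK k * y⁻¹) = χ b (y⁻¹ * x * ik hK k)
    rw [← hρ, ← hρ, ch_comm, mul_assoc]
  -- the indices
  have hex : ∀ i : SL (H := H) K σ Φ Hc E ε, ∃ a : IX Hc, wG a.1 = (∑ j, (i.1 j : ℤ) • ε j) + 1 := by
    intro i
    obtain ⟨f, hf⟩ := i.2
    obtain ⟨a, ha, -⟩ := hSPU N H K σ τ A l Φ B Hc E x₀ θ r s ε Dt c k D X hKC hX νK hK χ hχ _ f hf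
    exact ⟨a, ha⟩
  choose a ha using hex
  have hainj : Function.Injective a := by
    intro i i' h
    apply Subtype.ext
    funext j
    have h1 : (∑ j, (i.1 j : ℤ) • ε j) = ∑ j, (i'.1 j : ℤ) • ε j := by
      have h2 := ha i
      rw [h, ha i'] at h2
      exact (add_right_cancel h2).symm
    have h2 := congrFun h1 (s j)
    rw [sum_sj Dt.so (fun j => (i.1 j : ℤ)) j, sum_sj Dt.so (fun j => (i'.1 j : ℤ)) j] at h2
    exact_mod_cast h2
  refine ⟨fun i => KS hK νK χ (a i), ?_, ?_, ?_⟩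
  · exact ⟨fun i => hker.cont _, fun i => hker.herm _, fun i => hker.rep _,
      fun i i' x z h => hker.orth _ _ x z fun h' => h (hainj h')⟩
  · intro i f hf g g'
    obtain ⟨a', ha', hint⟩ := hSPU N H K σ τ A l Φ B Hc E x₀ θ r s ε Dt c k D X hKC hX νK hK χ hχ _ f hf
    have h1 : a' = a i := IX_ext _ _ (by rw [ha', ha i])
    rw [h1] at hint
    show KS hK νK χ (a i) g g' = _
    rw [hKSe, hint]
    congr 1
    have h2 := G.one (a i)
    have h3 := pos_prod R
    have h4 : ((∏ p ∈ pos Φ, (p.2 ⬝ᵥ (1 : Fin l → ℤ)) : ℤ) : ℂ) ≠ 0 := by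
      intro h
      apply h3
      have h5 : (∏ p ∈ pos Φ, (p.2 ⬝ᵥ (1 : Fin l → ℤ)) : ℤ) = 0 := by exact_mod_cast h
      rw [h5, Int.cast_zero]
    rw [← eq_div_iff h4] at h2
    rw [h2, ha i, dZ, Complex.ofReal_div, Complex.ofReal_intCast, Complex.ofReal_intCast, add_comm]
  · intro X' hX' κ f hf hfK
    obtain ⟨S₀, hS₀, hPr⟩ := hEIG N H c D l (rd Φ) (pos Φ) (IX Hc) (fun i => i.1) χ Z k R G μ X' hX' κ f hf
    have hfc : Continuous f := hf.1.1.cont
    have hPr' := hpr S₀ f hfc (fun g k => hfK g _ k.2) hPr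
    refine ⟨S₀.preimage a hainj.injOn, ?_, ?_⟩
    · intro i hi
      have h1 := hS₀ (a i) (Finset.mem_preimage.1 hi)
      rw [ha i] at h1
      rw [h1, QZ, add_comm (1 : Fin l → ℤ)]
    · funext x
      have h1 := congrFun hPr' x
      rw [← h1]
      unfold Pr
      refine Finset.sum_preimage a S₀ hainj.injOn (fun b => ∫ y, KS hK νK χ b x y * f y ∂μ) ?_
      intro b _ hb
      have h2 : ∀ y, KS hK νK χ b x y = 0 := by
        intro y
        obtain ⟨n, ρ, hirr, hp, hw, hρ⟩ := hχ b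
        rcases hSPR N H K σ τ A l Φ B Hc E x₀ θ r s ε Dt c k D X hKC hX νK hK n ρ hirr hp _ hw with h3 | h3
        · have h4 := h3 (y⁻¹ * x)
          rw [hKSe]
          have h5 : ∫ k, χ b (y⁻¹ * x * ik hK k) ∂νK = 0 := by
            rw [← h4]
            exact integral_congr_ae (Filter.Eventually.of_forall fun k => (hρ _).symm)
          rw [h5, mul_zero]
        · obtain ⟨f', hf', -⟩ := h3
          obtain ⟨hnn, hθ⟩ := hDOM N H K σ τ A l Φ B Hc E x₀ θ r s ε Dt _ f' hf'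
          have h4 := Dt.so.span _ hθ
          have h5 : ∀ j, (((wG b.1 - 1) (s j)).toNat : ℤ) = (wG b.1 - 1) (s j) :=
            fun j => Int.toNat_of_nonneg (hnn (s j))
          have h6 : (∑ j, (((wG b.1 - 1) (s j)).toNat : ℤ) • ε j) = wG b.1 - 1 := by
            rw [Finset.sum_congr rfl fun j _ => by rw [h5 j]]
            exact h4.symm
          have h7 : (fun j => ((wG b.1 - 1) (s j)).toNat) ∈ SL (H := H) K σ Φ Hc E ε := by
            refine ⟨f', ?_⟩
            rw [h6]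
            exact hf'
          refine absurd ⟨⟨_, h7⟩, IX_ext _ _ ?_⟩ hb
          rw [ha, h6, sub_add_cancel]
      simp only [h2, zero_mul, integral_zero]

end

end SYM
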