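import Pool.Agent.SYM.StU

/-!
# Symmetric spaces: the upper bound, block P: root data adapted to the maximal flat

`H`, `K`, `σ`, `τ`: a symmetric pair (`SymP`), `A` a maximal abelian subspace of `{X ∈ lie H | τ X = -X}` (`MaxAbP`); see `Pool/Agent/LGR/StV.lean`. `LRD H Φ B Hc E`: root data of `H` (`Pool/Agent/LGR/StD.lean`); `Φ : RT l`, `l` is the rank of `H`. `dz μ x = ∑ i, μ i * x i`, and `[hx Hc x, E p] = i (dz p.1 x) E p` (`TAF.ade`).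
Module `X` proves `theorem t_X : M_X` (or `t_X : S_X` if there is no `M_X`) in the file `Pool/Agent/SYM/X.lean`, namespace `SYM`.
-/

namespace SYM

open STZ LGR MeasureTheory Matrix Filter

open scoped ComplexConjugate Matrix Real Topology

noncomputable section

/-- root data adapted to `A`: `A` is contained in the Cartan algebra `{hx Hc x}`, `hx Hc x₀` is a regular element of `A`, and the positive roots are nonnegative on `x₀` -/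
structure SR {N : ℕ} (H : Subgroup (SU N)) (A : Submodule ℝ (Matrix (Fin N) (Fin N) ℂ)) {l : ℕ} (Φ : RT l)
    (B : Matrix (Fin l) (Fin l) ℤ) (Hc : Fin l → Matrix (Fin N) (Fin N) ℂ)
    (E : (Fin l → ℤ) × (Fin l → ℤ) → Matrix (Fin N) (Fin N) ℂ) (x₀ : Fin l → ℝ) : Prop where
  lrd : LRD H Φ B Hc E
  sub : ∀ X ∈ A, ∃ x, X = hx Hc x
  x0A : hx Hc x₀ ∈ A
  x0p : ∀ p ∈ pos Φ, 0 ≤ dz p.1 x₀
  x0r : ∀ p ∈ Φ, dz p.1 x₀ = 0 → ∀ x, hx Hc x ∈ A → dz p.1 x = 0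

/-- SRDX. Let `T` be a maximal abelian subspace of `lie H` which contains `A` (finite dimension), and `Φ, B, Hc, E` from LRDX, `T = {hx x}`. Let `δ` be from NILP, `-iδ ∈ A`, so `iδ = hx x₁ ∈ A`. Choose `w ∈ WF Φ` with the largest `∑ p ∈ pos Φ, dz p.1 (wᵀ x₁) = 2 ∑ (wᵀ x₁) i` (RHOF); with `y = wᵀ x₁` and the simple root `s = (B i, e i)`
`(rf s)ᵀ y = y - (dz (B i) y) e i`, so `dz (B i) y ≥ 0` for all `i`, and `dz p.1 y ≥ 0` for `p ∈ pos Φ` (`sgn`). Let `n ∈ H` be from WREP for `w` (`n hx(x) nᴴ = hx (wᵀ x)`), and `Hc' j = nᴴ Hc j n`, `E' p = nᴴ E p n`: `LRD H Φ B Hc' E'` (`lie H` is invariant under `Ad n`), and `hx' y = nᴴ hx(wᵀ x₁) n = hx x₁ ∈ A`. `{hx' x} = {hx x}` by WREP.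
`x₀ = y`. `x0r`: then `E' p - (E' p)ᴴ` and `i (E' p + (E' p)ᴴ)` commute with `δ`, so with `A` (`NILS.cen`), so `dz p.1 x = 0` for `hx' x ∈ A` (`E' p ≠ 0`). `l ≥ 1`: `lie H` is not abelian. -/
def S_SRDX : Prop := ∀ (N : ℕ) (H K : Subgroup (SU N)) (σ : H →* H)
  (τ : Matrix (Fin N) (Fin N) ℂ →ₗ[ℝ] Matrix (Fin N) (Fin N) ℂ) (A : Submodule ℝ (Matrix (Fin N) (Fin N) ℂ)),
  IsClosed (H : Set (SU N)) → IsConnected (H : Set (SU N)) → SimpleH H → SymP H K σ τ → MaxAbP H τ A →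
  ∃ (l : ℕ) (Φ : RT l) (B : Matrix (Fin l) (Fin l) ℤ) (Hc : Fin l → Matrix (Fin N) (Fin N) ℂ)
    (E : (Fin l → ℤ) × (Fin l → ℤ) → Matrix (Fin N) (Fin N) ℂ) (x₀ : Fin l → ℝ), 1 ≤ l ∧ SR H A Φ B Hc E x₀

def M_SRDX : Prop := S_LIEB → S_WFAC → S_RHOF → S_TAUF → S_WREP → S_LRDX → S_NILP → S_SRDX

/-- the complex linear extension of `τ` -/
def tcx {N : ℕ} (τ : Matrix (Fin N) (Fin N) ℂ →ₗ[ℝ] Matrix (Fin N) (Fin N) ℂ) (X : Matrix (Fin N) (Fin N) ℂ) :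
    Matrix (Fin N) (Fin N) ℂ := (1 / 2 : ℂ) • (τ (X - Xᴴ) - Complex.I • τ (Complex.I • (X + Xᴴ)))

/-- the action of `τ` on the root data: `θ` acts on coweights, `θᵀ` on weights -/
structure SRA {N : ℕ} (τ : Matrix (Fin N) (Fin N) ℂ →ₗ[ℝ] Matrix (Fin N) (Fin N) ℂ)
    (A : Submodule ℝ (Matrix (Fin N) (Fin N) ℂ)) {l : ℕ} (Φ : RT l) (Hc : Fin l → Matrix (Fin N) (Fin N) ℂ)
    (E : (Fin l → ℤ) × (Fin l → ℤ) → Matrix (Fin N) (Fin N) ℂ) (x₀ : Fin l → ℝ) (θ : Matrix (Fin l) (Fin l) ℤ) : Prop where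
  tau : ∀ x : Fin l → ℝ, τ (hx Hc x) = hx Hc (fun i => ∑ j, (θ i j : ℝ) * x j)
  sq : θ * θ = 1
  A : ∀ x, hx Hc x ∈ A ↔ ∀ i, ∑ j, (θ i j : ℝ) * x j = -x i
  perm : ∀ p ∈ Φ, (θᵀ *ᵥ p.1, θ *ᵥ p.2) ∈ Φ
  tc : ∀ p ∈ Φ, ∃ c : ℂ, ‖c‖ = 1 ∧ tcx τ (E p) = c • E (θᵀ *ᵥ p.1, θ *ᵥ p.2)
  tc0 : ∀ p ∈ Φ, dz p.1 x₀ = 0 → θᵀ *ᵥ p.1 = p.1 ∧ θ *ᵥ p.2 = p.2 ∧ tcx τ (E p) = E p
  anti : ∀ p ∈ Φ, dz (θᵀ *ᵥ p.1) x₀ = -dz p.1 x₀

/-- STAU. Let `X = hx x`, `Y = X - τ X`: `τ Y = -Y` (`TSF.inv`), and `Y` commutes with `A` (`[τ X, V] = τ [X, τ V] = -τ [X, V] = 0` for `V ∈ A`), so `Y ∈ A` (`MaxAbP.max`) and `τ X = X - Y` is some `hx x'`, `x' = θ x` with a real matrix `θ` (`LRD.lin`). For `p ∈ Φ` the matrix `F = tcx τ (E p)` is a complex combination of elements of `lie H`, and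
`[hx x, F] = tcx τ [hx(θ x), E p] = i (dz p.1 (θ x)) F` (`tcx τ` is complex linear on `lie H + i lie H` and preserves brackets, `tcx τ (Xᴴ) = (tcx τ X)ᴴ`), `F ≠ 0`; expand `F` by `LRD.span`: `F` is a multiple `c E q` with `q.1 = θᵀ p.1` (different elements of `Φ` have different first components, `IRD.red`). `[F, Fᴴ] = tcx τ [E p, (E p)ᴴ] = ∑ (θ p.2) j Hc j`, so
`|c|² q.2 = θ p.2`, and `[[F, Fᴴ], F] = 2 F` gives `|c|² = 1`. For the simple roots: `θ e j = q.2` is integral. `sq`: `TSF.inv`. `A`: if `θ x = -x` then `τ (hx x) = -hx x` and `hx x` commutes with `A`. `anti`: `hx x₀ ∈ A`. `tc0`: by `SR.x0r` `p.1` vanishes on `A`, so `dz p.1 (θ x) = dz p.1 x` for all `x` (`x - θ x` is in `A`), `θᵀ p.1 = p.1`, and `θ p.2 = p.2` (`red`);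
`tcx τ (E p) = c E p`, `c² = 1`; if `c = -1` then `E p - (E p)ᴴ` is an element of `lie H` with `τ = -1` which commutes with `A`, so it is in `A ⊆ {hx x}`, a contradiction to `TAF.orh` (`E p ≠ 0`). -/
def S_STAU : Prop := ∀ (N : ℕ) (H K : Subgroup (SU N)) (σ : H →* H)
  (τ : Matrix (Fin N) (Fin N) ℂ →ₗ[ℝ] Matrix (Fin N) (Fin N) ℂ) (A : Submodule ℝ (Matrix (Fin N) (Fin N) ℂ))
  (l : ℕ) (Φ : RT l) (B : Matrix (Fin l) (Fin l) ℤ) (Hc : Fin l → Matrix (Fin N) (Fin N) ℂ)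
  (E : (Fin l → ℤ) × (Fin l → ℤ) → Matrix (Fin N) (Fin N) ℂ) (x₀ : Fin l → ℝ),
  IsClosed (H : Set (SU N)) → SimpleH H → SymP H K σ τ → MaxAbP H τ A → SR H A Φ B Hc E x₀ →
  ∃ θ : Matrix (Fin l) (Fin l) ℤ, SRA τ A Φ Hc E x₀ θ

def M_STAU : Prop := S_LIEB → S_WFAC → S_TAUF → S_TAUS → S_STAU

/-- the positive roots `p` with `p.2 ⬝ᵥ ε > 0` -/
def pe {l : ℕ} (Φ : RT l) (ε : Fin l → ℤ) : RT l := (pos Φ).filter fun p => 0 < p.2 ⬝ᵥ ε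

open Classical in
/-- the positive roots which do not vanish on `A` -/
def PA {l : ℕ} (Φ : RT l) (x₀ : Fin l → ℝ) : RT l := (pos Φ).filter fun p => 0 < dz p.1 x₀

/-- the fundamental weights `ε j` of the symmetric space (indicators of orbits of simple roots), `s j` is an element of the orbit -/
structure SO {l : ℕ} (Φ : RT l) (θ : Matrix (Fin l) (Fin l) ℤ) (x₀ : Fin l → ℝ) {r : ℕ} (s : Fin r → Fin l)
    (ε : Fin r → Fin l → ℤ) : Prop where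
  nn : ∀ p ∈ pos Φ, ∀ j, 0 ≤ p.2 ⬝ᵥ ε j
  pos : ∀ p ∈ pos Φ, 0 < dz p.1 x₀ ↔ ∃ j, 0 < p.2 ⬝ᵥ ε j
  posθ : ∀ p ∈ PA Φ x₀, (-(θᵀ *ᵥ p.1), -(θ *ᵥ p.2)) ∈ PA Φ x₀
  anti : ∀ j, θᵀ *ᵥ ε j = -ε j
  e01 : ∀ j i, ε j i = 0 ∨ ε j i = 1
  sj : ∀ i j, ε j (s i) = if i = j then 1 else 0
  span : ∀ ν : Fin l → ℤ, θᵀ *ᵥ ν = -ν → ν = ∑ j, ν (s j) • ε j
  beta : ∀ j, ∃ b : ℤ, 2 ≤ b ∧ ∑ p ∈ pe Φ (ε j), p.1 = b • ε j

/-- SSAT. (Satake diagram.) `I₀ = {i : dz (B i) x₀ = 0}`. `posθ`: `q = (-(θᵀ p.1), -(θ p.2)) ∈ Φ` (`perm`, `WFF.neg`), `dz q.1 x₀ = dz p.1 x₀ > 0` (`SRA.anti`), so `q` is positive (`WFF.dich`, `x0p`). For `i ∉ I₀`: `-θᵀ (B i) = ∑ k, n i k • B k` with `n i k ≥ 0` (`sgn`); for `i ∈ I₀`: `θᵀ (B i) = B i`, `θ e i = e i` (`tc0`). As `θ² = 1`, the matrix `(n i k)`, `i, k ∉ I₀`, has the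
square `1` and nonnegative integer entries, so it is the matrix of a permutation `π`, `π² = 1` (some `n i k = n k i = 1`; if `n i k' > 0`, `k' ≠ k`, then `(n²) k k' > 0`). The same for the coroots, `-θ e i = ∑ k, m i k e k`; `p.2 i (p.1·A p.1) = n i (B i·A B i)` for `p.1 = ∑ n i B i` (QUAD), so `m` and `n` have the same zeros, and `m` belongs to the same `π`.
The orbits of `π` on the complement of `I₀` are numbered by `Fin r`; `ε j` is the indicator function of the orbit, `s j` an element. `anti`: `(θᵀ ε j) i = ε j ⬝ᵥ θ e i`, which is `ε j ⬝ᵥ e i = 0` for `i ∈ I₀`, and `-ε j (π i)` otherwise. `span`: for `i ∈ I₀` `-ν i = ν ⬝ᵥ θ e i = ν i`, so `ν i = 0`; for `i ∉ I₀`: `-ν i = ν ⬝ᵥ θ e i = -ν (π i)`.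
`pos`: `dz p.1 x₀ = ∑ n i dz (B i) x₀` is `0` iff `n i = 0` for all `i ∉ I₀`, iff `p.2 i = 0` for all `i ∉ I₀`. `beta`: let `β = ∑ p ∈ pe Φ (ε j), p.1`. For `k` with `ε j k = 0` the simple reflection `k` permutes `pe Φ (ε j)` (`WFF.simp`, `p.2 ⬝ᵥ ε j` does not change, and the simple root `k` is not in it), so `β k = 0`. `-θᵀ` permutes `pe Φ (ε j)` (`posθ`, `anti`), so `θᵀ β = -β`
and by `span` `β = β (s j) • ε j`. With `i = s j`: `∑ p ∈ pos Φ, p.1 i = 2` (RHOF), and for the other positive roots `p.2 i = 0`, so `p.1 = ∑ (k ≠ i), n k B k` and `p.1 i = ∑ n k (B k) i ≤ 0` (`B k i ≤ 0` for `k ≠ i`: `WFF.simp` for the simple root `k`); so `b ≥ 2`. `rk`: `{x : θ x = -x}` (real) has the same dimension as `{ν : θᵀ ν = -ν}` (real), which is spanned by the independent `ε j`. -/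
def S_SSAT : Prop := ∀ (N : ℕ) (H : Subgroup (SU N))
  (τ : Matrix (Fin N) (Fin N) ℂ →ₗ[ℝ] Matrix (Fin N) (Fin N) ℂ) (A : Submodule ℝ (Matrix (Fin N) (Fin N) ℂ))
  (l : ℕ) (Φ : RT l) (B : Matrix (Fin l) (Fin l) ℤ) (Hc : Fin l → Matrix (Fin N) (Fin N) ℂ)
  (E : (Fin l → ℤ) × (Fin l → ℤ) → Matrix (Fin N) (Fin N) ℂ) (x₀ : Fin l → ℝ) (θ : Matrix (Fin l) (Fin l) ℤ),
  SR H A Φ B Hc E x₀ → SRA τ A Φ Hc E x₀ θ →
  ∃ (s : Fin (Module.finrank ℝ A) → Fin l) (ε : Fin (Module.finrank ℝ A) → Fin l → ℤ), SO Φ θ x₀ s ε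

def M_SSAT : Prop := S_WFAC → S_RHOF → S_QUAD → S_SSAT

/-- all the data of a symmetric pair of rank `r` and dimension `d` -/
structure SD {N : ℕ} (H K : Subgroup (SU N)) (σ : H →* H)
    (τ : Matrix (Fin N) (Fin N) ℂ →ₗ[ℝ] Matrix (Fin N) (Fin N) ℂ) (A : Submodule ℝ (Matrix (Fin N) (Fin N) ℂ))
    {l : ℕ} (Φ : RT l) (B : Matrix (Fin l) (Fin l) ℤ) (Hc : Fin l → Matrix (Fin N) (Fin N) ℂ)
    (E : (Fin l → ℤ) × (Fin l → ℤ) → Matrix (Fin N) (Fin N) ℂ) (x₀ : Fin l → ℝ) (θ : Matrix (Fin l) (Fin l) ℤ)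
    {r : ℕ} (s : Fin r → Fin l) (ε : Fin r → Fin l → ℤ) : Prop where
  closed : IsClosed (H : Set (SU N))
  conn : IsConnected (H : Set (SU N))
  simple : SimpleH H
  sym : SymP H K σ τ
  maxab : MaxAbP H τ A
  l1 : 1 ≤ l
  sr : SR H A Φ B Hc E x₀
  sra : SRA τ A Φ Hc E x₀ θ
  so : SO Φ θ x₀ s ε
  rk : Module.finrank ℝ A = r

/-- SCRD. The dimension. `lie H` is the orthogonal sum (for `-tr (X Y)`) of `{hx x}` and of the planes `V p = {z E p - conj z (E p)ᴴ}`, `p ∈ pos Φ`. `τ` is `1` on `V p` for `p ∉ PA` (`tc0`). For `p ∈ PA` let `p' = (-(θᵀ p.1), -(θ p.2)) ∈ PA`: by `tc` and `LRD.star` `τ` maps `V p` to `V p'`. If `p' ≠ p` the `-1` eigenspace of `τ` in `V p + V p'` has the dimension `2`;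
if `p' = p` then `τ (z E p - ..) = -conj z (conj c) E p + ..` and the `-1` eigenspace has the dimension `1`. In `{hx x}` it is `A`. Total: `r + |PA|`. (Or count the trace of `τ`: on `V p + V p'` and on `V p = V p'` it is `0`.) -/
def S_SCRD : Prop := ∀ (N : ℕ) (H K : Subgroup (SU N)) (σ : H →* H)
  (τ : Matrix (Fin N) (Fin N) ℂ →ₗ[ℝ] Matrix (Fin N) (Fin N) ℂ) (A : Submodule ℝ (Matrix (Fin N) (Fin N) ℂ))
  (l : ℕ) (Φ : RT l) (B : Matrix (Fin l) (Fin l) ℤ) (Hc : Fin l → Matrix (Fin N) (Fin N) ℂ)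
  (E : (Fin l → ℤ) × (Fin l → ℤ) → Matrix (Fin N) (Fin N) ℂ) (x₀ : Fin l → ℝ) (θ : Matrix (Fin l) (Fin l) ℤ)
  (r : ℕ) (s : Fin r → Fin l) (ε : Fin r → Fin l → ℤ), SD H K σ τ A Φ B Hc E x₀ θ s ε →
  Module.finrank ℝ (Submodule.span ℝ {X | X ∈ lie H ∧ τ X = -X}) = r + (PA Φ x₀).card

def M_SCRD : Prop := S_LIEB → S_WFAC → S_TAUF → S_TAUS → S_SCRD

/-- SPAN. Let `S ≠ ∅` be the set of the roots `p` with `exp (i dz p.1 x) ≠ 1`. For `q ∈ Φ`, `p ∈ S`: if `q ∉ S` then `rf q` maps `p.1` to a root `p.1 - (q.2·p.1) q.1` in `S`; if `q ∈ S` then it changes `p.1` by a multiple of `q.1`. So the complex span of the `p.1`, `p ∈ S`, is invariant under all `rf q`, and it is everything (`IRD.irr`). So if `dz p.1 y = 0` for all `p ∈ S` then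
`y = 0`: the restrictions of the `p.1`, `p ∈ S`, to `A` span the dual space of `A`, choose `r` of them which are linearly independent on `A`. A root in `S` does not vanish on `A` (as `hx x ∈ A`), replace it by its negative if it is negative (`exp (-i ..) ≠ 1` too). The same proof with `S = {p : dz p.1 x ≠ 0}`. -/
def S_SPAN : Prop := ∀ (N : ℕ) (H K : Subgroup (SU N)) (σ : H →* H)
  (τ : Matrix (Fin N) (Fin N) ℂ →ₗ[ℝ] Matrix (Fin N) (Fin N) ℂ) (A : Submodule ℝ (Matrix (Fin N) (Fin N) ℂ))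
  (l : ℕ) (Φ : RT l) (B : Matrix (Fin l) (Fin l) ℤ) (Hc : Fin l → Matrix (Fin N) (Fin N) ℂ)
  (E : (Fin l → ℤ) × (Fin l → ℤ) → Matrix (Fin N) (Fin N) ℂ) (x₀ : Fin l → ℝ) (θ : Matrix (Fin l) (Fin l) ℤ)
  (r : ℕ) (s : Fin r → Fin l) (ε : Fin r → Fin l → ℤ), SD H K σ τ A Φ B Hc E x₀ θ s ε →
  ∀ x : Fin l → ℝ, hx Hc x ∈ A →
  ((∃ p ∈ Φ, Complex.exp (dz p.1 x * Complex.I) ≠ 1) →
    ∃ q : Fin r → (Fin l → ℤ) × (Fin l → ℤ), (∀ i, q i ∈ PA Φ x₀ ∧ Complex.exp (dz (q i).1 x * Complex.I) ≠ 1) ∧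
      ∀ c : Fin r → ℝ, (∀ y, hx Hc y ∈ A → ∑ i, c i * dz (q i).1 y = 0) → c = 0) ∧
  ((∃ p ∈ Φ, dz p.1 x ≠ 0) →
    ∃ q : Fin r → (Fin l → ℤ) × (Fin l → ℤ), (∀ i, q i ∈ PA Φ x₀ ∧ dz (q i).1 x ≠ 0) ∧
      ∀ c : Fin r → ℝ, (∀ y, hx Hc y ∈ A → ∑ i, c i * dz (q i).1 y = 0) → c = 0)

def M_SPAN : Prop := S_WFAC → S_TAUF → S_SPAN

/-- the orthonormal basis of the span of the `E p`, `p ∈ P` -/
def eb {N l : ℕ} (E : (Fin l → ℤ) × (Fin l → ℤ) → Matrix (Fin N) (Fin N) ℂ) (P : RT l) (k : Fin P.card) :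
    Matrix (Fin N) (Fin N) ℂ :=
  (((√((E (P.equivFin.symm k).1 * (E (P.equivFin.symm k).1)ᴴ).trace.re))⁻¹ : ℝ) : ℂ) • E (P.equivFin.symm k).1

/-- the sum of the brackets `[e k, (e k)ᴴ]` -/
def db {N l : ℕ} (E : (Fin l → ℤ) × (Fin l → ℤ) → Matrix (Fin N) (Fin N) ℂ) (P : RT l) : Matrix (Fin N) (Fin N) ℂ :=
  ∑ k, (eb E P k * (eb E P k)ᴴ - (eb E P k)ᴴ * eb E P k)

/-- the data `e`, `δ` of a parabolic subalgebra of the symmetric pair -/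
structure NLJ {N : ℕ} (H : Subgroup (SU N)) (τ : Matrix (Fin N) (Fin N) ℂ →ₗ[ℝ] Matrix (Fin N) (Fin N) ℂ)
    (A : Submodule ℝ (Matrix (Fin N) (Fin N) ℂ)) {n : ℕ} (e : Fin n → Matrix (Fin N) (Fin N) ℂ)
    (δ : Matrix (Fin N) (Fin N) ℂ) : Prop where
  nil : NIL H e δ
  dA : (-Complex.I) • δ ∈ A
  tau : ∀ k, ∃ t : Fin n → ℂ, tcx τ (e k) = ∑ j, t j • (e j)ᴴ

/-- SNIL. `P = pe Φ (ε j)`, `t p = tr (E p (E p)ᴴ) > 0`. `δ = ∑ p ∈ P, (1/t p) ∑ i, p.2 i Hc i`. With the Gram matrix `G i k = tr (Hc i Hc k)`: `G p.2 = t p p.1` (`TAF.tp`), so `δ = ∑ y i Hc i` with `G y = ∑ p ∈ P, p.1 = b ε j`, and for `q ∈ Φ`: `[δ, E q] = (q.1·y) E q`, `q.1·y = (1/t q) q.2·(G y) = (b / t q) (q.2 ⬝ᵥ ε j)`: the last claim. It is positive for `q ∈ P`, zero for the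
other positive roots. `nil`: `emem`: `LRD.emem`; `orth`, `orth2`: `TAF.orth`, `orh`, `LRD.star`; `span`: `LRD.span`: the `hx x` and the `E p - ..` for `p ∉ P` commute with `δ`; `orthl`: an element of `lie H` which commutes with `δ` has no components `E p`, `p ∈ P` or `-p ∈ P`; `nn`, `ln`: `[E p, E q]` has the weight `p.1 + q.1`, so it is `0` or a multiple of a root vector with this root, and
the eigenvalues of `ad δ` add; `dmem`, `dA`: `-iδ = hx (-y)`, and `θ y = -y` because `θᵀ ε j = -ε j` and `θᵀ G θ = G` (`TSF.tr`), `θ² = 1`. `tau`: `SRA.tc`: `tcx τ (E p)` is a multiple of `E (θᵀ p.1, θ p.2)`, the conjugate transpose of a multiple of `E p'`, `p' = (-(θᵀ p.1), -(θ p.2)) ∈ P` (`posθ`, `anti`). -/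
def S_SNIL : Prop := ∀ (N : ℕ) (H K : Subgroup (SU N)) (σ : H →* H)
  (τ : Matrix (Fin N) (Fin N) ℂ →ₗ[ℝ] Matrix (Fin N) (Fin N) ℂ) (A : Submodule ℝ (Matrix (Fin N) (Fin N) ℂ))
  (l : ℕ) (Φ : RT l) (B : Matrix (Fin l) (Fin l) ℤ) (Hc : Fin l → Matrix (Fin N) (Fin N) ℂ)
  (E : (Fin l → ℤ) × (Fin l → ℤ) → Matrix (Fin N) (Fin N) ℂ) (x₀ : Fin l → ℝ) (θ : Matrix (Fin l) (Fin l) ℤ)
  (r : ℕ) (s : Fin r → Fin l) (ε : Fin r → Fin l → ℤ), SD H K σ τ A Φ B Hc E x₀ θ s ε →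
  ∀ j, NLJ H τ A (eb E (pe Φ (ε j))) (db E (pe Φ (ε j))) ∧
    ∀ p ∈ Φ, ∃ c : ℝ, 0 < c ∧ db E (pe Φ (ε j)) * E p - E p * db E (pe Φ (ε j)) = ((c * ((p.2 ⬝ᵥ ε j : ℤ) : ℝ) : ℝ) : ℂ) • E p

def M_SNIL : Prop := S_LIEB → S_WFAC → S_TAUF → S_TAUS → S_SNIL

end

end SYM
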