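import Pool.Agent.SYM.StP

/-!
# Symmetric spaces: the upper bound, block Q: the geometry of the functions `det (cm e (yy σ g))`

`yy σ g = (σ g)ᴴ g`; for `k ∈ K`: `yy σ (g k) = kᴴ (yy σ g) k`, `yy σ (k g) = yy σ g`. Inner product of matrices: `⟨A, B⟩ = tr (A Bᴴ)`.
Module `X` proves `theorem t_X : M_X` (or `t_X : S_X` if there is no `M_X`) in the file `Pool/Agent/SYM/X.lean`, namespace `SYM`.
-/

namespace SYM

open STZ LGR MeasureTheory Matrix Filter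

open scoped ComplexConjugate Matrix Real Topology

noncomputable section

/-- the matrix `(σ g)⁻¹ g` -/
def yy {N : ℕ} {H : Subgroup (SU N)} (σ : H →* H) (g : H) : Matrix (Fin N) (Fin N) ℂ := (σ g).1.1ᴴ * g.1.1

/-- LEMK. `K' = {k ∈ K : k s = s k for s ∈ S}` is compact; let `k ∈ K'` be a maximum of `-Re tr (k X kᴴ Y)`, `Z = k X kᴴ`: it commutes with `S`, and `τ Z = -Z` (`TSF.Ad`, `σ k = k`). `C = Z Y - Y Z ∈ lie H` has `τ C = C` (`TSF.br`), so `C ∈ lie K` (`SymP.big`), and `C` commutes with `S`, so `exp (tC) ∈ K'`. The derivative in the direction `C` is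
`-Re tr (C (Z Y - Y Z)) = -Re tr (C C) = ‖C‖²`, so `C = 0`. -/
def S_LEMK : Prop := ∀ (N : ℕ) (H K : Subgroup (SU N)) (σ : H →* H)
  (τ : Matrix (Fin N) (Fin N) ℂ →ₗ[ℝ] Matrix (Fin N) (Fin N) ℂ),
  IsClosed (H : Set (SU N)) → SimpleH H → SymP H K σ τ → ∀ (S : Set (Matrix (Fin N) (Fin N) ℂ))
  (X Y : Matrix (Fin N) (Fin N) ℂ), X ∈ lie H → τ X = -X → Y ∈ lie H → τ Y = -Y → (∀ s ∈ S, X * s = s * X ∧ Y * s = s * Y) →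
  ∃ k ∈ K, (∀ s ∈ S, k.1 * s = s * k.1) ∧ (k.1 * X * k.1ᴴ) * Y = Y * (k.1 * X * k.1ᴴ)

def M_LEMK : Prop := S_EXP → S_LIEB → S_TAUS → S_LEMK

/-- CONQ. Let `Q = {yy σ g}`, connected and compact, `S ⊆ Q` the set of the `k exp(hx x) kᴴ`, `k ∈ K`, `hx x ∈ A` (it is `yy σ` of `exp(hx x/2) kᴴ`). `S` is compact: `A = {x : θ x = -x}` is spanned by integral vectors, and `exp (hx (2π n)) = 1` for integral `n` (`TAF.int`), so `{exp(hx x)}` is the image of a compact set. `S` is open in `Q`: by conjugation (`kᴴ Q k = Q`) at `y₀ = exp X₀`, `X₀ = hx x ∈ A`.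
Let `y ∈ Q` be near `y₀`; let `k ∈ K` be a minimum of the Hilbert-Schmidt norm `‖kᴴ y k - y₀‖`, `y' = kᴴ y k ∈ Q`, still near `y₀`. By CLSU `y' = exp(X₀/2) exp(V) exp(X₀/2)` with a small `V ∈ lie H`; `σ` maps elements of `Q` to their inverses, so `exp(τ V) = exp(-V)` (as elements of `H`), `τ V = -V` for small `V`. The minimum: `Re tr ((y' U - U y') y₀ᴴ) = 0` for all `U ∈ lie K`, i.e.
`Re tr (U (exp(V₋) - exp(V₊))) = 0`, `V₋ = exp(-X₀/2) V exp(X₀/2)`, `V₊ = exp(X₀/2) V exp(-X₀/2)`, `τ V₋ = -V₊`. Take `U = V₋ - V₊ = V₋ + τ V₋ ∈ lie K`; `‖exp(V₋) - exp(V₊) - (V₋ - V₊)‖ ≤ C ε ‖V₋ - V₊‖`, so `V₋ = V₊`: `V₋` commutes with `y₀`, `τ V₋ = -V₋`, `y' = y₀ exp(V₋)`. LEMK with `S = {y₀}`, `X = V₋`, `Y = hx x₀` (both commute with `y₀`):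
`k' V₋ k'ᴴ` commutes with `hx x₀`, so it is in `A` (it commutes with every `E p` combination ... : an element of `lie H` with `τ = -1` which commutes with `hx x₀` commutes with `A`, as `dz p.1 x₀ = 0` implies that `p.1` vanishes on `A`, and then `MaxAbP.max`), `k' y' k'ᴴ = y₀ exp(k' V₋ k'ᴴ) = exp(X₀ + k' V₋ k'ᴴ) ∈ S`. `Q` is connected, so `S = Q`. -/
def S_CONQ : Prop := ∀ (N : ℕ) (H K : Subgroup (SU N)) (σ : H →* H)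
  (τ : Matrix (Fin N) (Fin N) ℂ →ₗ[ℝ] Matrix (Fin N) (Fin N) ℂ) (A : Submodule ℝ (Matrix (Fin N) (Fin N) ℂ))
  (l : ℕ) (Φ : RT l) (B : Matrix (Fin l) (Fin l) ℤ) (Hc : Fin l → Matrix (Fin N) (Fin N) ℂ)
  (E : (Fin l → ℤ) × (Fin l → ℤ) → Matrix (Fin N) (Fin N) ℂ) (x₀ : Fin l → ℝ) (θ : Matrix (Fin l) (Fin l) ℤ)
  (r : ℕ) (s : Fin r → Fin l) (ε : Fin r → Fin l → ℤ), SD H K σ τ A Φ B Hc E x₀ θ s ε →
  ∀ g : H, ∃ k ∈ K, ∃ x : Fin l → ℝ, hx Hc x ∈ A ∧ yy σ g = k.1 * NormedSpace.exp (hx Hc x) * k.1ᴴ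

def M_CONQ : Prop := S_EXP → S_LIEB → S_CLSU → S_WFAC → S_TAUF → S_TAUS → S_LEMK → S_CONQ

/-- LEVC. First claim. `δ j = db E (pe Φ (ε j))`. By SNIL an element of `lie H` commutes with `D = ∑ j ∈ J, (-i) δ j ∈ A` iff it commutes with all `δ j`, `j ∈ J` (the eigenvalue of `ad (∑ δ j)` on `E p`, `p` positive, is `∑ j, c j (p.2 ⬝ᵥ ε j)` with `c j > 0`; expand by `LRD.span`). `y = yy σ g = k exp(X) kᴴ` by CONQ, `X ∈ A`. LEMK with `S = {y}`, `D` and `k (hx x₀) kᴴ` (both commute with `y`):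
some `c ∈ K` commutes with `y`, and `c D cᴴ` commutes with `k (hx x₀) kᴴ`; with `m = kᴴ c ∈ K`: `m D mᴴ` commutes with `hx x₀`, so it is in `A` (see CONQ). So `H₁' = mᴴ (hx x₀) m` commutes with `D`, hence with all `δ j`, `j ∈ J`. LEMK with `S = {δ j : j ∈ J}`, `H₁'` and `hx x₀`: `q ∈ K` commutes with the `δ j`, and `H₂ = q H₁' qᴴ` commutes with `hx x₀`, so `H₂ ∈ A`.
The elements of `lie H` with `τ = -1` which commute with `H₂` are `q mᴴ A m qᴴ`; this contains `A`, so it is `A` (dimension). `y = cᴴ y c = mᴴ exp(X) m`, `q y qᴴ = exp(q mᴴ X m qᴴ)`, and `q mᴴ X m qᴴ ∈ A`: take the inverse of `q`. Second claim: LEMK with `S = {δ j : j ∈ J}`, `X` and `hx x₀`. -/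
def S_LEVC : Prop := ∀ (N : ℕ) (H K : Subgroup (SU N)) (σ : H →* H)
  (τ : Matrix (Fin N) (Fin N) ℂ →ₗ[ℝ] Matrix (Fin N) (Fin N) ℂ) (A : Submodule ℝ (Matrix (Fin N) (Fin N) ℂ))
  (l : ℕ) (Φ : RT l) (B : Matrix (Fin l) (Fin l) ℤ) (Hc : Fin l → Matrix (Fin N) (Fin N) ℂ)
  (E : (Fin l → ℤ) × (Fin l → ℤ) → Matrix (Fin N) (Fin N) ℂ) (x₀ : Fin l → ℝ) (θ : Matrix (Fin l) (Fin l) ℤ)
  (r : ℕ) (s : Fin r → Fin l) (ε : Fin r → Fin l → ℤ), SD H K σ τ A Φ B Hc E x₀ θ s ε →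
  ∀ J : Finset (Fin r),
  (∀ g : H, (∀ j ∈ J, yy σ g * db E (pe Φ (ε j)) = db E (pe Φ (ε j)) * yy σ g) →
    ∃ k ∈ K, (∀ j ∈ J, k.1 * db E (pe Φ (ε j)) = db E (pe Φ (ε j)) * k.1) ∧
      ∃ x : Fin l → ℝ, hx Hc x ∈ A ∧ k.1ᴴ * yy σ g * k.1 = NormedSpace.exp (hx Hc x)) ∧
  ∀ X ∈ lie H, τ X = -X → (∀ j ∈ J, X * db E (pe Φ (ε j)) = db E (pe Φ (ε j)) * X) →
    ∃ k ∈ K, (∀ j ∈ J, k.1 * db E (pe Φ (ε j)) = db E (pe Φ (ε j)) * k.1) ∧ k.1ᴴ * X * k.1 ∈ A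

def M_LEVC : Prop := S_LIEB → S_WFAC → S_TAUF → S_TAUS → S_SNIL → S_LEMK → S_CONQ → S_LEVC

/-- DOMQ. Let `Γ = {γ : hx γ ∈ A, exp (i dz p.1 γ) = 1 for all p ∈ Φ}`, a closed discrete subgroup of `A` (`B` is invertible) which contains the vectors `2π n`, `n` integral, `θ n = -n`; these span `A` (`n = m - θ m`). `D = {x : hx x ∈ A, ‖x‖ ≤ ‖x - γ‖ for all γ ∈ Γ}` (supremum norm). Closed; bounded: every `x ∈ A` is within a fixed distance of `Γ`. If `x ∈ D ∩ Γ` then `‖x‖ ≤ ‖x - x‖ = 0`.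
For `x ∈ A` let `γ ∈ Γ` be a nearest point, `x' = x - γ`. -/
def S_DOMQ : Prop := ∀ (N : ℕ) (H K : Subgroup (SU N)) (σ : H →* H)
  (τ : Matrix (Fin N) (Fin N) ℂ →ₗ[ℝ] Matrix (Fin N) (Fin N) ℂ) (A : Submodule ℝ (Matrix (Fin N) (Fin N) ℂ))
  (l : ℕ) (Φ : RT l) (B : Matrix (Fin l) (Fin l) ℤ) (Hc : Fin l → Matrix (Fin N) (Fin N) ℂ)
  (E : (Fin l → ℤ) × (Fin l → ℤ) → Matrix (Fin N) (Fin N) ℂ) (x₀ : Fin l → ℝ) (θ : Matrix (Fin l) (Fin l) ℤ)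
  (r : ℕ) (s : Fin r → Fin l) (ε : Fin r → Fin l → ℤ), SD H K σ τ A Φ B Hc E x₀ θ s ε →
  ∃ D : Set (Fin l → ℝ), IsCompact D ∧ (∀ x ∈ D, hx Hc x ∈ A) ∧
    (∀ x ∈ D, (∀ p ∈ Φ, Complex.exp (dz p.1 x * Complex.I) = 1) → x = 0) ∧
    ∀ x, hx Hc x ∈ A → ∃ x' ∈ D, ∀ p ∈ Φ, Complex.exp (dz p.1 x * Complex.I) = Complex.exp (dz p.1 x' * Complex.I)

def M_DOMQ : Prop := S_WFAC → S_TAUF → S_DOMQ

/-- the divided difference of the conjugation by `exp (ρ W)`: `ρ • bo ρ W V = exp (ρ W) V exp (-ρ W) - V` -/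
def bo {N : ℕ} (ρ : ℝ) (W V : Matrix (Fin N) (Fin N) ℂ) : Matrix (Fin N) (Fin N) ℂ := fun i j =>
  ∫ s in (0 : ℝ)..1, (NormedSpace.exp (((s * ρ : ℝ) : ℂ) • W) * (W * V - V * W) * NormedSpace.exp (-(((s * ρ : ℝ) : ℂ) • W))) i j

/-- facts about `bo` -/
structure BOF (N : ℕ) : Prop where
  cont : Continuous fun z : ℝ × Matrix (Fin N) (Fin N) ℂ × Matrix (Fin N) (Fin N) ℂ => bo z.1 z.2.1 z.2.2
  add : ∀ (ρ : ℝ) (W V V' : Matrix (Fin N) (Fin N) ℂ), bo ρ W (V + V') = bo ρ W V + bo ρ W V'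
  smul : ∀ (ρ : ℝ) (W V : Matrix (Fin N) (Fin N) ℂ) (a : ℂ), bo ρ W (a • V) = a • bo ρ W V
  zero : ∀ W V : Matrix (Fin N) (Fin N) ℂ, bo 0 W V = W * V - V * W
  eq : ∀ (ρ : ℝ) (W V : Matrix (Fin N) (Fin N) ℂ), (ρ : ℂ) • bo ρ W V =
    NormedSpace.exp ((ρ : ℂ) • W) * V * NormedSpace.exp (-((ρ : ℂ) • W)) - V
  cnj : ∀ (ρ : ℝ) (W V k : Matrix (Fin N) (Fin N) ℂ), kᴴ * k = 1 → k * kᴴ = 1 →
    kᴴ * bo ρ W (k * V * kᴴ) * k = bo ρ (kᴴ * W * k) V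

/-- BOPQ. The integrand is the derivative of `s ↦ exp (sρW) V exp (-sρW)` divided by `ρ`. (All integrals are entrywise; the integrand is continuous in all variables.) -/
def S_BOPQ : Prop := ∀ N : ℕ, BOF N

/-- the component of `F (e k)` orthogonal to the span of the `e j` -/
def th {N n : ℕ} (e : Fin n → Matrix (Fin N) (Fin N) ℂ) (F : Matrix (Fin N) (Fin N) ℂ → Matrix (Fin N) (Fin N) ℂ)
    (k : Fin n) : Matrix (Fin N) (Fin N) ℂ := F (e k) - ∑ j, (F (e k) * (e j)ᴴ).trace • e j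

/-- the sum of the squares of the norms of the `th e F k` -/
def ns {N n : ℕ} (e : Fin n → Matrix (Fin N) (Fin N) ℂ) (F : Matrix (Fin N) (Fin N) ℂ → Matrix (Fin N) (Fin N) ℂ) : ℝ :=
  ∑ k, ∑ i, ∑ j, ‖th e F k i j‖ ^ 2

/-- COMQ. `n = span (e k)`. (1) If `x` is unitary and `x e k xᴴ ∈ n` for all `k` then the `x e k xᴴ` are another orthonormal basis of `n`, and `δ = ∑ [e k, (e k)ᴴ]` does not depend on the orthonormal basis, so `x δ xᴴ = δ`. (2) Let `X = Y + ∑ (z k e k - conj (z k) (e k)ᴴ)`, `Y δ = δ Y` (`NIL.span`), `W = ∑ z k e k`; for an eigenvalue `c > 0` of `ad δ` on `n` let `W_c` be the component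
of `W`; `[X, W_c] ∈ n`, and its component which commutes with `δ` is `-[(W_c)ᴴ, W_c]` (the other terms of `X` have other eigenvalues), so it is `0`, and `0 = tr ([(W_c)ᴴ, W_c] δ) = -c ‖W_c‖²` (up to the sign). So `W = 0`. (3) `Ad k` preserves `n` (the sum of the eigenspaces of `ad δ` with positive eigenvalues in `lie H + i lie H`) and its orthogonal complement, and it is unitary. -/
def S_COMQ : Prop := ∀ (N : ℕ) (H : Subgroup (SU N)) (n : ℕ) (e : Fin n → Matrix (Fin N) (Fin N) ℂ)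
  (δ : Matrix (Fin N) (Fin N) ℂ), IsClosed (H : Set (SU N)) → NIL H e δ →
  (∀ x ∈ H, ns e (fun V => x.1 * V * x.1ᴴ) = 0 → x.1 * δ = δ * x.1) ∧
  (∀ X ∈ lie H, ns e (fun V => X * V - V * X) = 0 → X * δ = δ * X) ∧
  ∀ k ∈ H, k.1 * δ = δ * k.1 → (∀ i, ∃ a : Fin n → ℂ, k.1 * e i * k.1ᴴ = ∑ j, a j • e j) ∧
    ∀ F : Matrix (Fin N) (Fin N) ℂ →ₗ[ℂ] Matrix (Fin N) (Fin N) ℂ,
      ns e (fun V => k.1ᴴ * F (k.1 * V * k.1ᴴ) * k.1) = ns e F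

def M_COMQ : Prop := S_LIEB → S_COMQ

/-- KDIR. `u = E p - (E p)ᴴ`, `v = i (E p + (E p)ᴴ)`; `u + τ u`, `v + τ v` are fixed by `τ`, so they are in `lie K`. With `tcx τ (E p) = c E (θᵀ p.1, θ p.2) = c (E p')ᴴ`, `p' = (-(θᵀ p.1), -(θ p.2))` (`LRD.star`): `u + τ u = Z - Zᴴ` with `Z = E p - conj c E p'`, `v + τ v = Z' - Z'ᴴ` with `Z' = i (E p + conj c E p')`. If `p' ≠ p` then `Z ≠ 0`; if `p' = p` one of `1 - conj c`, `1 + conj c` is not `0`.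
`dz p'.1 y = dz p.1 y` for `hx y ∈ A` (`SRA.A`). -/
def S_KDIR : Prop := ∀ (N : ℕ) (H K : Subgroup (SU N)) (σ : H →* H)
  (τ : Matrix (Fin N) (Fin N) ℂ →ₗ[ℝ] Matrix (Fin N) (Fin N) ℂ) (A : Submodule ℝ (Matrix (Fin N) (Fin N) ℂ))
  (l : ℕ) (Φ : RT l) (B : Matrix (Fin l) (Fin l) ℤ) (Hc : Fin l → Matrix (Fin N) (Fin N) ℂ)
  (E : (Fin l → ℤ) × (Fin l → ℤ) → Matrix (Fin N) (Fin N) ℂ) (x₀ : Fin l → ℝ) (θ : Matrix (Fin l) (Fin l) ℤ)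
  (r : ℕ) (s : Fin r → Fin l) (ε : Fin r → Fin l → ℤ), SD H K σ τ A Φ B Hc E x₀ θ s ε →
  ∀ p ∈ PA Φ x₀, ∃ (q : (Fin l → ℤ) × (Fin l → ℤ)) (a b : ℂ), q ∈ PA Φ x₀ ∧ (∀ j, q.2 ⬝ᵥ ε j = p.2 ⬝ᵥ ε j) ∧
    (∀ y, hx Hc y ∈ A → dz q.1 y = dz p.1 y) ∧ a • E p + b • E q ≠ 0 ∧
    (a • E p + b • E q) - (a • E p + b • E q)ᴴ ∈ lie K

def M_KDIR : Prop := S_LIEB → S_WFAC → S_TAUF → S_TAUS → S_KDIR

/-- `Z` is in the sum of the root spaces of positive roots with the restriction `p` to `A` and with the same product with the `ε j` -/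
def ZP {N : ℕ} (A : Submodule ℝ (Matrix (Fin N) (Fin N) ℂ)) {l : ℕ} (Φ : RT l) (Hc : Fin l → Matrix (Fin N) (Fin N) ℂ)
    (E : (Fin l → ℤ) × (Fin l → ℤ) → Matrix (Fin N) (Fin N) ℂ) (x₀ : Fin l → ℝ) {r : ℕ} (ε : Fin r → Fin l → ℤ)
    (p : (Fin l → ℤ) × (Fin l → ℤ)) (Z : Matrix (Fin N) (Fin N) ℂ) : Prop :=
  ∃ (q : (Fin l → ℤ) × (Fin l → ℤ)) (a b : ℂ), p ∈ PA Φ x₀ ∧ q ∈ PA Φ x₀ ∧ (∀ j, q.2 ⬝ᵥ ε j = p.2 ⬝ᵥ ε j) ∧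
    (∀ y, hx Hc y ∈ A → dz q.1 y = dz p.1 y) ∧ Z = a • E p + b • E q

/-- ROWS. The derivatives. `w = Zᴴ Z - Z Zᴴ` for `Z = Z p`, `n` the span of the `e k = eb E (pe Φ (ε j)) k`; `Z p ∈ n` since `p.2 ⬝ᵥ ε j > 0`. `w ≠ 0` because `tr (w δ) = tr (Zᴴ (Z δ - δ Z)) ≠ 0` (SNIL: `Z` is a sum of eigenvectors of `ad δ` with positive eigenvalues). `w` commutes with `A`, so it is orthogonal to `n`: the pairing of `th`-type components with `w` is the pairing of the matrices themselves: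
`tr (F w^ᴴ) = tr ((1 - P) F wᴴ)`. For `hx y ∈ A`: `[hx y, Z p] = i (dz p.1 y) Z p`, and matrices with different eigenvalues for some `ad (hx y)` are orthogonal. (1) `y₁ = exp (hx x)`: with `X = Z q - (Z q)ᴴ` the matrix `y₁ [X, Z p] y₁ᴴ - [X, y₁ (Z p) y₁ᴴ]` is `(e^(i(q+p)) - e^(ip)) [Z q, Z p] - (e^(i(p-q)) - e^(ip)) [(Z q)ᴴ, Z p]` (`e^(iq) = exp (i dz q.1 x)` etc.); the first term has
the weight `p + q ≠ 0` on `A`, the second the weight `p - q`, which is `≠ 0` on `A` if `dz q.1 y ≠ dz p.1 y` for some `hx y ∈ A`. For `q = p`: `-(1 - e^(ip)) w`. (2) The same for `ad (hx x)` instead of `Ad y₁`: `[hx x, [X, Z p]] - [X, [hx x, Z p]] = i (dz q.1 x) ([Z q, Z p] + [(Z q)ᴴ, Z p])`. -/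
def S_ROWS : Prop := ∀ (N : ℕ) (H K : Subgroup (SU N)) (σ : H →* H)
  (τ : Matrix (Fin N) (Fin N) ℂ →ₗ[ℝ] Matrix (Fin N) (Fin N) ℂ) (A : Submodule ℝ (Matrix (Fin N) (Fin N) ℂ))
  (l : ℕ) (Φ : RT l) (B : Matrix (Fin l) (Fin l) ℤ) (Hc : Fin l → Matrix (Fin N) (Fin N) ℂ)
  (E : (Fin l → ℤ) × (Fin l → ℤ) → Matrix (Fin N) (Fin N) ℂ) (x₀ : Fin l → ℝ) (θ : Matrix (Fin l) (Fin l) ℤ)
  (r : ℕ) (s : Fin r → Fin l) (ε : Fin r → Fin l → ℤ), SD H K σ τ A Φ B Hc E x₀ θ s ε →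
  ∀ (j : Fin r) (p q : (Fin l → ℤ) × (Fin l → ℤ)) (Z Z' w : Matrix (Fin N) (Fin N) ℂ), ZP A Φ Hc E x₀ ε p Z →
    ZP A Φ Hc E x₀ ε q Z' → 0 < p.2 ⬝ᵥ ε j → Z ≠ 0 → w = Zᴴ * Z - Z * Zᴴ →
  (w ≠ 0 ∧ (∀ k, (eb E (pe Φ (ε j)) k * wᴴ).trace = 0) ∧
    ∃ z : Fin (pe Φ (ε j)).card → ℂ, Z = ∑ k, z k • eb E (pe Φ (ε j)) k) ∧
  ∀ x : Fin l → ℝ, hx Hc x ∈ A →
    (((∃ y, hx Hc y ∈ A ∧ dz p.1 y ≠ dz q.1 y) →
      ((NormedSpace.exp (hx Hc x) * ((Z' - Z'ᴴ) * Z - Z * (Z' - Z'ᴴ)) * NormedSpace.exp (-(hx Hc x)) -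
        ((Z' - Z'ᴴ) * (NormedSpace.exp (hx Hc x) * Z * NormedSpace.exp (-(hx Hc x))) -
          (NormedSpace.exp (hx Hc x) * Z * NormedSpace.exp (-(hx Hc x))) * (Z' - Z'ᴴ))) * wᴴ).trace = 0) ∧
      ((NormedSpace.exp (hx Hc x) * ((Z - Zᴴ) * Z - Z * (Z - Zᴴ)) * NormedSpace.exp (-(hx Hc x)) -
        ((Z - Zᴴ) * (NormedSpace.exp (hx Hc x) * Z * NormedSpace.exp (-(hx Hc x))) -
          (NormedSpace.exp (hx Hc x) * Z * NormedSpace.exp (-(hx Hc x))) * (Z - Zᴴ))) * wᴴ).trace =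
        -(1 - Complex.exp (dz p.1 x * Complex.I)) * (w * wᴴ).trace) ∧
    (((∃ y, hx Hc y ∈ A ∧ dz p.1 y ≠ dz q.1 y) →
      (((hx Hc x * ((Z' - Z'ᴴ) * Z - Z * (Z' - Z'ᴴ)) - ((Z' - Z'ᴴ) * Z - Z * (Z' - Z'ᴴ)) * hx Hc x) -
        ((Z' - Z'ᴴ) * (hx Hc x * Z - Z * hx Hc x) - (hx Hc x * Z - Z * hx Hc x) * (Z' - Z'ᴴ))) * wᴴ).trace = 0) ∧
      (((hx Hc x * ((Z - Zᴴ) * Z - Z * (Z - Zᴴ)) - ((Z - Zᴴ) * Z - Z * (Z - Zᴴ)) * hx Hc x) -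
        ((Z - Zᴴ) * (hx Hc x * Z - Z * hx Hc x) - (hx Hc x * Z - Z * hx Hc x) * (Z - Zᴴ))) * wᴴ).trace =
        (dz p.1 x * Complex.I) * (w * wᴴ).trace)

def M_ROWS : Prop := S_WFAC → S_TAUF → S_SNIL → S_ROWS

/-- the parameters `(ρ, ω)` -/
def DW {N : ℕ} (A : Submodule ℝ (Matrix (Fin N) (Fin N) ℂ)) {l : ℕ} (Hc : Fin l → Matrix (Fin N) (Fin N) ℂ)
    (D : Set (Fin l → ℝ)) : Set (ℝ × (Fin l → ℝ)) :=
  {z | 0 ≤ z.1 ∧ ‖z.2‖ = 1 ∧ hx Hc z.2 ∈ A ∧ z.1 • z.2 ∈ D}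

/-- the squared size of the `Θ j` at the point `(ρ, ω, k)`: `V ↦ kᴴ bo ρ (hx ω) (k V kᴴ) k`, component orthogonal to the span of the `e k` -/
def ut {N : ℕ} {l : ℕ} (Hc : Fin l → Matrix (Fin N) (Fin N) ℂ) {n : ℕ} (e : Fin n → Matrix (Fin N) (Fin N) ℂ)
    (z : ℝ × (Fin l → ℝ)) (k : Matrix (Fin N) (Fin N) ℂ) : ℝ :=
  ns e (fun V => kᴴ * bo z.1 (hx Hc z.2) (k * V * kᴴ) * k)

/-- the local structure at a point `z₀` of `Y × K` which is needed for the integral over `K`: `u p` are the functions, `r` of the factors are used; the `i` in the range of `b` are those for which the function `u (q i)` is only bounded below by the square of a coordinate `ζ` -/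
structure LST {N : ℕ} (K : Subgroup (SU N)) {Y : Type} [TopologicalSpace Y] {ι : Type} (u : ι → Y × K → ℝ) (r : ℕ)
    (z₀ : Y × K) (q : Fin r → ι) {m : ℕ} (b : Fin m → Fin r) (X : Fin m → Matrix (Fin N) (Fin N) ℂ)
    (ζ : Fin m → Y × K → ℝ) (c C η : ℝ) (U : Set (Y × K)) : Prop where
  inj : Function.Injective q
  binj : Function.Injective b
  mem : ∀ i, X i ∈ lie K
  cpos : 0 < c
  epos : 0 < η
  nhd : U ∈ 𝓝 z₀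
  good : ∀ i, i ∉ Set.range b → ∀ z ∈ U, c ≤ u (q i) z
  cont : ∀ i, Continuous (ζ i)
  bd : ∀ i, ∀ z ∈ U, ∀ s : Fin m → ℝ, (∀ i, |s i| ≤ η) →
    ζ i (z.1, eprod K X s * z.2) ^ 2 ≤ C * u (q (b i)) (z.1, eprod K X s * z.2)
  low : ∀ z ∈ U, ∀ s s' : Fin m → ℝ, (∀ i, |s i| ≤ η) → (∀ i, |s' i| ≤ η) →
    c * ‖s - s'‖ ≤ ‖fun i => ζ i (z.1, eprod K X s * z.2) - ζ i (z.1, eprod K X s' * z.2)‖

/-- LROW. `Y = DW A Hc D`. Let `z₀ = ((ρ₀, ω₀), k₀)`, `Θ j V = (1 - P j)(k₀ᴴ bo ρ₀ (hx ω₀) (k₀ V k₀ᴴ) k₀)`, `J = {j : ut .. = 0}`. If `ρ₀ > 0`: `y₀ = k₀ᴴ exp(ρ₀ hx ω₀) k₀ = yy σ g` for `g = exp(ρ₀ hx ω₀ / 2) k₀`, and `BOF.eq` and COMQ (1) show that `y₀` commutes with `δ j`, `j ∈ J`; if `ρ₀ = 0`: `X₁ = k₀ᴴ (hx ω₀) k₀` commutes with them (`BOF.zero`, `BOF.cnj`, COMQ (2)). LEVC: `k₂ ∈ K` commutes with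
the `δ j`, `j ∈ J`, and `k₂ᴴ y₀ k₂ = exp(hx x₁)` (respectively `k₂ᴴ X₁ k₂ = hx x₁ ∈ A`). By COMQ (3) `ut` at `(ρ, ω, k)` and at `(ρ, ω, k k₂)` are equal for all `ρ, ω, k` and `j ∈ J`. If `ρ₀ > 0`: `ρ₀ ω₀ ∈ D` is not `0`, so `Ad exp(ρ₀ hx ω₀)` is not the identity on the `E p`, and `exp (i dz p.1 x₁) ≠ 1` for some `p ∈ Φ`; if `ρ₀ = 0`: `dz p.1 x₁ ≠ 0` for some `p`. SPAN gives `q i`. For `j = c (q i) ∉ J` the
function is positive at `z₀`, so it is bounded below near `z₀`: `good`. For the other `i` (`b` enumerates them): KDIR gives `Z i` (`ZP` for `q i`), `X i = k₁ (Z i - (Z i)ᴴ) k₁ᴴ`, `k₁ = k₀ k₂`, `w i = (Z i)ᴴ Z i - Z i (Z i)ᴴ`, and `ζ i (ρ, ω, k) = Re (a i · tr (k'ᴴ bo ρ (hx ω) (k' Z i k'ᴴ) k' (w i)ᴴ))`, `k' = k k₂`; by ROWS `w i` is orthogonal to the span of the `e k`, and `Z i` is in the span, so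
`|ζ i|² ≤ C ut` by Cauchy-Schwarz. Derivative of `s ↦ ζ i (ρ₀, ω₀, eprod s * k₀)` at `0` in the direction `s i'` (`exp(s X i') k₁ = k₁ exp(s (Z i' - (Z i')ᴴ))`): for `ρ₀ > 0` by `BOF.eq` it is `Re (a i / ρ₀ · (the trace in ROWS (1)))`, for `ρ₀ = 0` the trace in ROWS (2) (`BOF.zero`): `0` for `i' ≠ i` (the `dz (q i).1` are linearly independent on `A`) and not `0` for `i' = i` with a suitable number `a i`. So the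
derivative at `z₀` is an invertible diagonal matrix. `bo` is linear in `V` with coefficients which are continuous in `(ρ, ω)`, so the derivative of `s ↦ ζ (z.1, eprod s * z.2)` is continuous in `(z, s)`, and the lower bound holds near `z₀` (as in LIPS, LIPS.lean: mean value theorem). (`r = 0` or `m = 0`: trivial.) -/
def S_LROW : Prop := ∀ (N : ℕ) (H K : Subgroup (SU N)) (σ : H →* H)
  (τ : Matrix (Fin N) (Fin N) ℂ →ₗ[ℝ] Matrix (Fin N) (Fin N) ℂ) (A : Submodule ℝ (Matrix (Fin N) (Fin N) ℂ))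
  (l : ℕ) (Φ : RT l) (B : Matrix (Fin l) (Fin l) ℤ) (Hc : Fin l → Matrix (Fin N) (Fin N) ℂ)
  (E : (Fin l → ℤ) × (Fin l → ℤ) → Matrix (Fin N) (Fin N) ℂ) (x₀ : Fin l → ℝ) (θ : Matrix (Fin l) (Fin l) ℤ)
  (r : ℕ) (s : Fin r → Fin l) (ε : Fin r → Fin l → ℤ), SD H K σ τ A Φ B Hc E x₀ θ s ε →
  ∀ D : Set (Fin l → ℝ), (∀ x ∈ D, (∀ p ∈ Φ, Complex.exp (dz p.1 x * Complex.I) = 1) → x = 0) →
  ∀ c : {p // p ∈ PA Φ x₀} → Fin r, (∀ p, 0 < p.1.2 ⬝ᵥ ε (c p)) → ∀ z₀ : DW A Hc D × K,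
    ∃ (q : Fin r → {p // p ∈ PA Φ x₀}) (m : ℕ) (b : Fin m → Fin r) (X : Fin m → Matrix (Fin N) (Fin N) ℂ)
      (ζ : Fin m → DW A Hc D × K → ℝ) (c₁ C₁ η : ℝ) (U : Set (DW A Hc D × K)),
      LST K (fun (p : {p // p ∈ PA Φ x₀}) (z : DW A Hc D × K) => ut Hc (eb E (pe Φ (ε (c p)))) z.1.1 z.2.1.1)
        r z₀ q b X ζ c₁ C₁ η U

def M_LROW : Prop := S_EXP → S_LIEB → S_WFAC → S_TAUF → S_TAUS → S_SPAN → S_SNIL → S_LEVC → S_BOPQ → S_COMQ → S_KDIR → S_ROWS →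
  S_LROW

/-- BOXV. (1) `ζ` is injective on the cube, and its inverse is Lipschitz with the constant `1/c` (supremum norm), so `vol (E) ≤ c^(-m) vol (ζ E)` for every subset `E` (Hausdorff measure of dimension `m` on `Fin m → ℝ` is the Lebesgue measure: `MeasureTheory.hausdorffMeasure_pi_real`, `LipschitzOnWith.hausdorffMeasure_image_le`), and `ζ {|ζ i| ≤ t i}` is contained in a box of volume `∏ 2 t i`.
(2) `(1 + M ζ²)^(-1) ≤ ∑_(j ≥ 0) 4^(1-j) 1(|ζ| ≤ 2^j / √M)`; multiply over `i`, integrate: `∑_j ∏ 4^(1-j i) · (2/c)^m ∏ 2^(j i) / √M`. -/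
def S_BOXV : Prop := ∀ (m : ℕ) (η c : ℝ), 0 < c → ∃ C : ℝ, 0 ≤ C ∧ ∀ ζ : (Fin m → ℝ) → Fin m → ℝ,
  ContinuousOn ζ {s | ∀ i, |s i| ≤ η} →
  (∀ s s' : Fin m → ℝ, (∀ i, |s i| ≤ η) → (∀ i, |s' i| ≤ η) → c * ‖s - s'‖ ≤ ‖ζ s - ζ s'‖) →
  ∀ M : ℝ, 1 ≤ M → ∫ s in {s : Fin m → ℝ | ∀ i, |s i| ≤ η}, ∏ i, (1 + M * ζ s i ^ 2)⁻¹ ≤ C * M ^ (-((m : ℝ) / 2))

/-- DECQ. Let `z₀`, `U`, ... be as in `LST`; take an open `V ∋ z₀` and `η' ≤ η` with `(y, (eprod s)⁻¹ k) ∈ U` for `(y, k) ∈ V`, `|s i| ≤ η'`. By the left invariance of `ν`, for fixed `y`: `∫ 1_V(y, k) F(y, k) dν(k) = (2η')^(-m) ∫_s ∫_k 1_V(y, eprod s * k) F(y, eprod s * k) ≤ (2η')^(-m) ∫_(k : (y, k) ∈ U) ∫_s F(y, eprod s * k)` for `F ≥ 0`; take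
`F = ∏ p, (1 + M u p)^(-1)`, at most the product over the `q i` (the other factors are at most `1`); the factors with `i ∉ range b` are at most `(1 + M c)^(-1) ≤ C M^(-1/2)` (the bound `good` holds also at `(y, eprod s * k)` after making `V`, `η'` smaller), the others at most `(1 + M ζ²/C)^(-1)`: BOXV (`C ≥ 1`). So the integral over `V` is at most `C M^(-r/2)`. `Y × K` is covered by finitely many `V`. -/
def S_DECQ : Prop := ∀ (N : ℕ) (K : Subgroup (SU N)), IsClosed (K : Set (SU N)) →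
  ∀ (ν : Measure K) [IsProbabilityMeasure ν] [ν.IsMulLeftInvariant] (r : ℕ) (Y : Type) [TopologicalSpace Y] [CompactSpace Y]
  (ι : Type) [Fintype ι] (u : ι → Y × K → ℝ), (∀ p, Continuous (u p)) → (∀ p z, 0 ≤ u p z) →
  (∀ z₀ : Y × K, ∃ (q : Fin r → ι) (m : ℕ) (b : Fin m → Fin r) (X : Fin m → Matrix (Fin N) (Fin N) ℂ)
    (ζ : Fin m → Y × K → ℝ) (c C η : ℝ) (U : Set (Y × K)), LST K u r z₀ q b X ζ c C η U) →
  ∃ C : ℝ, 0 ≤ C ∧ ∀ (y : Y) (M : ℝ), 1 ≤ M → ∫ k, ∏ p, (1 + M * u p (y, k))⁻¹ ∂ν ≤ C * M ^ (-((r : ℝ) / 2))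

def M_DECQ : Prop := S_EXP → S_CALH → S_BOXV → S_DECQ

/-- an element of `K` as an element of `H` -/
def ik {N : ℕ} {H K : Subgroup (SU N)} (h : K ≤ H) (k : K) : H := ⟨k.1, h k.2⟩

/-- the highest weight function `det (cm e ((σ g)⁻¹ g))` for `e = eb E (pe Φ ε)` -/
def FJ {N : ℕ} {H : Subgroup (SU N)} (σ : H →* H) {l : ℕ} (Φ : RT l)
    (E : (Fin l → ℤ) × (Fin l → ℤ) → Matrix (Fin N) (Fin N) ℂ) (ε : Fin l → ℤ) (g : H) : ℂ :=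
  (cm (eb E (pe Φ ε)) (yy σ g)).det

/-- the sum of the squares of the norms of the `ps` -/
def np {N : ℕ} {H : Subgroup (SU N)} (σ : H →* H) {l : ℕ} (Φ : RT l)
    (E : (Fin l → ℤ) × (Fin l → ℤ) → Matrix (Fin N) (Fin N) ℂ) (ε : Fin l → ℤ) (g : H) : ℝ :=
  ∑ k, ∑ i, ∑ j, ‖ps (eb E (pe Φ ε)) (yy σ g) k i j‖ ^ 2

/-- GEOQ. `D` from DOMQ, `Y = DW A Hc D` is compact (closed, `ρ = ‖ρ ω‖` is bounded). The functions `ut` are continuous on `Y × K` (BOPQ). LROW and DECQ give a constant `C₁` for every `c` (finitely many). Let `g ∈ H`: `yy σ g = k₁ exp(hx x) k₁ᴴ` by CONQ, `x' ∈ D` from DOMQ with `Ad exp(hx x) = Ad exp(hx x')` on the `E p`, `x' = ρ ω`, `‖ω‖ = 1` (if `x' = 0`: `ρ = 0`). For `k ∈ K`, with `k' = k₁ᴴ k`: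
`yy σ (g k) V (yy σ (g k))ᴴ = k'ᴴ exp(ρ hx ω) k' V k'ᴴ exp(-ρ hx ω) k' = V + ρ k'ᴴ bo ρ (hx ω) (k' V k'ᴴ) k'` for `V` in the span of the `E p` (`BOF.eq`). So `ps = ρ th`, `np = ρ² ut`, and `cm e (yy σ (g k)) - 1` has entries at most `C ρ`, `‖FJ - 1‖ ≤ C ρ`. If `M ρ² ≤ 1` the last claim is clear (the integrand is at most `1`, `r ≥ 0`); otherwise it is DECQ with `M ρ² ≥ 1` (substitute `k ↦ k₁ k`). If `ρ = 0` and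
`r ≥ 1` the left side is `0` (and `1` times an integral `≤ 1` for `r = 0`). -/
def S_GEOQ : Prop := ∀ (N : ℕ) (H K : Subgroup (SU N)) (σ : H →* H)
  (τ : Matrix (Fin N) (Fin N) ℂ →ₗ[ℝ] Matrix (Fin N) (Fin N) ℂ) (A : Submodule ℝ (Matrix (Fin N) (Fin N) ℂ))
  (l : ℕ) (Φ : RT l) (B : Matrix (Fin l) (Fin l) ℤ) (Hc : Fin l → Matrix (Fin N) (Fin N) ℂ)
  (E : (Fin l → ℤ) × (Fin l → ℤ) → Matrix (Fin N) (Fin N) ℂ) (x₀ : Fin l → ℝ) (θ : Matrix (Fin l) (Fin l) ℤ)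
  (r : ℕ) (s : Fin r → Fin l) (ε : Fin r → Fin l → ℤ), SD H K σ τ A Φ B Hc E x₀ θ s ε →
  ∀ (ν : Measure K) [IsProbabilityMeasure ν] [ν.IsMulLeftInvariant] (hK : K ≤ H),
  ∃ C : ℝ, 0 ≤ C ∧ ∀ g : H, ∃ ρ : ℝ, 0 ≤ ρ ∧ (∀ (j : Fin r) (k : K), ‖FJ σ Φ E (ε j) (g * ik hK k) - 1‖ ≤ C * ρ) ∧
    ∀ c : {p // p ∈ PA Φ x₀} → Fin r, (∀ p, 0 < p.1.2 ⬝ᵥ ε (c p)) → ∀ M : ℝ, 1 ≤ M →
      (M * ρ ^ 2) ^ ((r : ℝ) / 2) * ∫ k, ∏ p, (1 + M * np σ Φ E (ε (c p)) (g * ik hK k))⁻¹ ∂ν ≤ C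

def M_GEOQ : Prop := S_LIEB → S_WFAC → S_TAUF → S_CONQ → S_DOMQ → S_BOPQ → S_LROW → S_DECQ → S_GEOQ

end

end SYM
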