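import Pool.Agent.SYM.StQ

/-!
# Symmetric spaces: the upper bound, block S: spherical representations

The highest weight functions on `H` which are invariant under left translations by `K`. `SD`: all the data of a symmetric pair (StP.lean). `ik hK k` is the element `k` of `K` as an element of `H` (StQ.lean).
Module `X` proves `theorem t_X : M_X` (or `t_X : S_X` if there is no `M_X`) in the file `Pool/Agent/SYM/X.lean`, namespace `SYM`.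
-/

namespace SYM

open STZ LGR MeasureTheory Matrix Filter

open scoped ComplexConjugate Matrix Real Topology

noncomputable section

/-- `f` is a highest weight function of the weight `ν`, invariant under left translations by `K`, with `f 1 = 1` -/
structure SHW {N : ℕ} {H : Subgroup (SU N)} (K : Subgroup (SU N)) (σ : H →* H) {l : ℕ} (Φ : RT l)
    (Hc : Fin l → Matrix (Fin N) (Fin N) ℂ) (E : (Fin l → ℤ) × (Fin l → ℤ) → Matrix (Fin N) (Fin N) ℂ)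
    (ν : Fin l → ℤ) (f : H → ℂ) : Prop where
  mem : f ∈ PG H σ
  left : ∀ k g : H, k.1 ∈ K → f (k * g) = f g
  wt : ∀ (x : Fin l → ℝ) (g : H), dH (hx Hc x) f g = Complex.I * ((∑ j, (ν j : ℝ) * x j : ℝ) : ℂ) * f g
  hw : ∀ p ∈ pos Φ, ∀ g : H, dH (E p - (E p)ᴴ) f g = Complex.I * dH (Complex.I • (E p + (E p)ᴴ)) f g
  one : f 1 = 1

/-- SHWM. Products. Leibniz' rule (`CALFH.dmul`); the functions in `PG H σ` are `C2H` (`SMA.c2`, from PGXX); `hx Hc x ∈ lie H` (`TAF.hmem`), `E p - (E p)ᴴ`, `i (E p + (E p)ᴴ) ∈ lie H` (`LRD.emem`). -/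
def S_SHWM : Prop := ∀ (N : ℕ) (H K : Subgroup (SU N)) (σ : H →* H)
  (τ : Matrix (Fin N) (Fin N) ℂ →ₗ[ℝ] Matrix (Fin N) (Fin N) ℂ)
  (l : ℕ) (Φ : RT l) (B : Matrix (Fin l) (Fin l) ℤ) (Hc : Fin l → Matrix (Fin N) (Fin N) ℂ)
  (E : (Fin l → ℤ) × (Fin l → ℤ) → Matrix (Fin N) (Fin N) ℂ),
  IsClosed (H : Set (SU N)) → SimpleH H → SymP H K σ τ → LRD H Φ B Hc E →
  ∀ (ν ν' : Fin l → ℤ) (f f' : H → ℂ), SHW K σ Φ Hc E ν f → SHW K σ Φ Hc E ν' f' →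
    SHW K σ Φ Hc E (ν + ν') (fun g => f g * f' g)

def M_SHWM : Prop := S_CALH → S_LIEB → S_WFAC → S_TAUF → S_PGXX → S_SHWM

/-- DERJ. The functions `FJ`. As DERS (DERS.lean), with `NLJ` (from SNIL) instead of `NILS`, for `e = eb E P`, `δ = db E P`, `P = pe Φ (ε j)` (`NLJ.tau` is the same as `NILS.tau`, `tcx` is unfolded there): `FJ ∈ PG H σ`, `dH Y FJ = 2 tr (Y δ) FJ` for the `Y ∈ lie H` with `Y δ = δ Y`, `FJ` satisfies `hw` for the `e k`, so for the `E p`, `p ∈ P`, it is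
left invariant under `K` and `FJ 1 = 1`. `wt`: `hx x` commutes with `δ` (a combination of the `Hc i`), `tr (hx x δ) = ∑ p ∈ P, (1/t p) ∑ i, p.2 i tr (hx x Hc i) = i ∑ p ∈ P, dz p.1 x = i b (ε j·x)` by `TAF.tp`, `t p = tr (E p (E p)ᴴ)`. `hw` for `p ∈ pos Φ`, `p ∉ P`: `p.2 ⬝ᵥ ε j = 0` (`SO.nn`), so `E p` commutes with `δ` by SNIL, so `E p - (E p)ᴴ` and
`i (E p + (E p)ᴴ)` do (`δ` is Hermitian), and `tr (E p δ) = 0` (`TAF.orh`): both derivatives are `0`. Last claim: PHIB for `x = (σ g)⁻¹ g ∈ SU N` (`eb` is orthonormal: `NIL.orth`). -/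
def S_DERJ : Prop := ∀ (N : ℕ) (H K : Subgroup (SU N)) (σ : H →* H)
  (τ : Matrix (Fin N) (Fin N) ℂ →ₗ[ℝ] Matrix (Fin N) (Fin N) ℂ) (A : Submodule ℝ (Matrix (Fin N) (Fin N) ℂ))
  (l : ℕ) (Φ : RT l) (B : Matrix (Fin l) (Fin l) ℤ) (Hc : Fin l → Matrix (Fin N) (Fin N) ℂ)
  (E : (Fin l → ℤ) × (Fin l → ℤ) → Matrix (Fin N) (Fin N) ℂ) (x₀ : Fin l → ℝ) (θ : Matrix (Fin l) (Fin l) ℤ)
  (r : ℕ) (s : Fin r → Fin l) (ε : Fin r → Fin l → ℤ), SD H K σ τ A Φ B Hc E x₀ θ s ε →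
  ∀ (j : Fin r) (b : ℤ), ∑ p ∈ pe Φ (ε j), p.1 = b • ε j →
    SHW K σ Φ Hc E ((2 * b) • ε j) (FJ σ Φ E (ε j)) ∧
    ∀ g, ‖FJ σ Φ E (ε j) g‖ ^ 2 ≤ Real.exp (-np σ Φ E (ε j) g)

def M_DERJ : Prop := S_CALH → S_LIEB → S_WFAC → S_TAUF → S_TAUS → S_PHIB → S_PGXX → S_SNIL → S_DERJ

/-- HEIS. As HEIG (HEIG.lean), with the algebra `PG H σ` (`SMA`, from PGXX) instead of `PF H`. Only `mem`, `wt`, `hw` are used. -/
def S_HEIS : Prop := ∀ (N : ℕ) (H K : Subgroup (SU N)) (σ : H →* H)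
  (τ : Matrix (Fin N) (Fin N) ℂ →ₗ[ℝ] Matrix (Fin N) (Fin N) ℂ)
  (l : ℕ) (Φ : RT l) (B : Matrix (Fin l) (Fin l) ℤ) (Hc : Fin l → Matrix (Fin N) (Fin N) ℂ)
  (E : (Fin l → ℤ) × (Fin l → ℤ) → Matrix (Fin N) (Fin N) ℂ) (c k : ℝ) (D : ℕ) (X : Fin D → Matrix (Fin N) (Fin N) ℂ),
  IsClosed (H : Set (SU N)) → SimpleH H → SymP H K σ τ → LRD H Φ B Hc E → KC Φ Hc E c k → FrameH H c X →
  ∀ (ν : Fin l → ℤ) (f : H → ℂ), SHW K σ Φ Hc E ν f → EigH X (k * (((rd Φ).Q (ν + 1) : ℝ) - (rd Φ).Q 1)) f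

def M_HEIS : Prop := S_CALH → S_LIEB → S_WFAC → S_RHOF → S_QUAD → S_TAUF → S_ADFR → S_PGXX → S_HEIS

/-- DOMS. The weights. Second claim: let `θ x = x` (real vector). Then `τ (hx x) = hx x`, `hx x ∈ lie K` (`SymP.big`), so `f (exp (t hx x)) = f (exp (t hx x) * 1) = f 1 = 1` for all `t`, and the derivative at `t = 0` is `i (ν·x)`. So `ν·x = 0`; for `x = y + θ y` this is `ν·y + (θᵀ ν)·y = 0`. First claim, for `p = (B i, e i)`: with `u = E p - (E p)ᴴ`, `v = i (E p + (E p)ᴴ)`: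
`D_u f = i D_v f`, and `D_u D_u f + D_v D_v f = i (D_u D_v - D_v D_u) f = i dH (u v - v u) f = 2 i dH (hx p.2) f = -2 (p.2·ν) f` (as in HEIG). Multiply by `conj f` and integrate over `H` (an invariant probability measure: `haarMeasure ⊤`); by GRH (first claim, for `conj f · D_u f`) `∫ conj f D_u D_u f = -∫ |D_u f|²`. So `2 ∫ |D_u f|² = 2 ν i ∫ |f|²` (`p.2·ν = ν i`),
and `∫ |f|² > 0`. -/
def S_DOMS : Prop := ∀ (N : ℕ) (H K : Subgroup (SU N)) (σ : H →* H)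
  (τ : Matrix (Fin N) (Fin N) ℂ →ₗ[ℝ] Matrix (Fin N) (Fin N) ℂ) (A : Submodule ℝ (Matrix (Fin N) (Fin N) ℂ))
  (l : ℕ) (Φ : RT l) (B : Matrix (Fin l) (Fin l) ℤ) (Hc : Fin l → Matrix (Fin N) (Fin N) ℂ)
  (E : (Fin l → ℤ) × (Fin l → ℤ) → Matrix (Fin N) (Fin N) ℂ) (x₀ : Fin l → ℝ) (θ : Matrix (Fin l) (Fin l) ℤ)
  (r : ℕ) (s : Fin r → Fin l) (ε : Fin r → Fin l → ℤ), SD H K σ τ A Φ B Hc E x₀ θ s ε →
  ∀ (ν : Fin l → ℤ) (f : H → ℂ), SHW K σ Φ Hc E ν f → (∀ i, 0 ≤ ν i) ∧ θᵀ *ᵥ ν = -ν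

def M_DOMS : Prop := S_HAAR → S_CALH → S_GRH → S_LIEB → S_WFAC → S_TAUF → S_PGXX → S_DOMS

/-! ### highest weight vectors -/

/-- `v` is a highest weight vector of the weight `ν` (or `0`) -/
structure HWV {N : ℕ} {H : Subgroup (SU N)} {l : ℕ} (Φ : RT l)
    (Hc : Fin l → Matrix (Fin N) (Fin N) ℂ) (E : (Fin l → ℤ) × (Fin l → ℤ) → Matrix (Fin N) (Fin N) ℂ)
    {n : ℕ} (ρ : Rep H (Fin n)) (ν : Fin l → ℤ) (v : Fin n → ℂ) : Prop where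
  wt : ∀ x : Fin l → ℝ, dr ρ (hx Hc x) *ᵥ v = (Complex.I * ((∑ j, (ν j : ℝ) * x j : ℝ) : ℂ)) • v
  hw : ∀ p ∈ pos Φ, dr ρ (E p - (E p)ᴴ) *ᵥ v = Complex.I • (dr ρ (Complex.I • (E p + (E p)ᴴ)) *ᵥ v)

/-- HWVX. Let `U`, `μ k` be from TRES, so `AT 1 * tp m = AT λ` for `m = ∑ k, single (μ k) 1` (`HWR.wcf`). HGTW: exactly one `μ k` is `λ - 1`; `v` is the column `k` of `U`; every vector of the weight `λ - 1` (for `dr ρ (hx x)`, so for `ρ (ta θ) = exp`, `DRF.ex`) is a multiple of `v`. `HWV.hw` for `v`: as in HEXI (HEXI.lean). Let `v' ≠ 0` be a highest weight vector of the weight `ν`: `ν` is one of the `μ k`,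
so `λ - 1 - ν = ∑ n i • B i` with `n ≥ 0` (HGTW). `ν i ≥ 0`: with `U = dr ρ (E p - (E p)ᴴ)`, `V = dr ρ (i (E p + (E p)ᴴ))` (skew-Hermitian) `U v' = i V v'`, `(U U + V V) v' = i (U V - V U) v' = i dr ρ (2 hx p.2) v' = -2 (p.2·ν) v'`; pair with `v'`: `-‖U v'‖² - ‖V v'‖² = -2 (p.2·ν) ‖v'‖²`, `p = (B i, e i)`. The Casimir element: by `HWR.eig` at `g = 1` (`DRF.d`)
`∑ a, (dr ρ (X a))² = -k (Q λ - Q 1)`, and by ADFR for `β Y Z = (dr ρ Y * dr ρ Z *ᵥ v') i` it acts on `v'` by `-k (Q (ν + 1) - Q 1)` (computation as in HEIG). So `Q λ = Q (ν + 1)`, and QCMP gives `λ = ν + 1`; then `v'` is a multiple of `v`. -/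
def S_HWVX : Prop := ∀ (N : ℕ) (H : Subgroup (SU N)) (l : ℕ) (Φ : RT l) (B : Matrix (Fin l) (Fin l) ℤ)
  (Hc : Fin l → Matrix (Fin N) (Fin N) ℂ) (E : (Fin l → ℤ) × (Fin l → ℤ) → Matrix (Fin N) (Fin N) ℂ)
  (c k : ℝ) (D : ℕ) (X : Fin D → Matrix (Fin N) (Fin N) ℂ),
  IsClosed (H : Set (SU N)) → LRD H Φ B Hc E → KC Φ Hc E c k → FrameH H c X →
  ∀ (n : ℕ) (ρ : Rep H (Fin n)), ρ.Irr → PRep ρ → ∀ lam : Fin l → ℤ, HWR Φ Hc c k D ρ lam →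
    ∃ v : Fin n → ℂ, star v ⬝ᵥ v = 1 ∧ HWV Φ Hc E ρ (lam - 1) v ∧
      ∀ (ν : Fin l → ℤ) (v' : Fin n → ℂ), HWV Φ Hc E ρ ν v' → v' ≠ 0 → ν = lam - 1 ∧ ∃ a : ℂ, v' = a • v

def M_HWVX : Prop := S_CALH → S_LIEB → S_WFAC → S_RHOF → S_QUAD → S_PFFX → S_DREP → S_TAUF → S_TRES → S_TPOL → S_ADFR →
  S_HGTW → S_QCMP → S_HWVX

/-- KSPN. Let `W` be the complex span of the `ρ(k) v`, `k ∈ K`. It is invariant under `ρ(K)`, so under `dr ρ (lie K)`. It is invariant under `dr ρ (lie H)`: for `Z ∈ lie H`: `dr ρ Z (ρ(k) v) = ρ(k) dr ρ (kᴴ Z k) v` (`DRF.ad`), so it is enough that `dr ρ Z v ∈ W` for all `Z ∈ lie H`; by `LRD.span` `Z` is a sum of `hx x` (acts on `v` by a scalar) and of `z E p - conj z (E p)ᴴ`, `p ∈ pos Φ`;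
extend `dr ρ` complex linearly to `lie H + i lie H` (`Z = X + i Y`, as `tcx`): `E p v = 0` (`HWV.hw`), and `(E p)ᴴ` is in `(lie K)_ℂ` plus multiples of some `E q`, `q` positive: `(E p)ᴴ + tcx τ (E p)ᴴ ∈ (lie K)_ℂ` (`X + τ X ∈ lie K` for `X ∈ lie H`: `SymP.big`), where `tcx τ ((E p)ᴴ) = (tcx τ (E p))ᴴ` is `(E p)ᴴ` if `dz p.1 x₀ = 0` (`SRA.tc0`), and otherwise (`p ∈ PA`) it is a multiple of
`(E (θᵀ p.1, θ p.2))ᴴ = E (-(θᵀ p.1), -(θ p.2))` with a positive root (`SO.posθ`, `LRD.star`). Every `g ∈ H` is `exp Z`, `Z ∈ lie H` (CONJ: `g = h ta(φ) h⁻¹`), so `ρ(g) = exp (dr ρ Z)` preserves `W` (finite dimensional, closed). So `star u ⬝ᵥ (ρ(g) v) = 0` for all `g`, since `star u ⬝ᵥ (ρ(k) v) = star (ρ(k)ᴴ u) ⬝ᵥ v = star u ⬝ᵥ v = 0`. SCHUR: `∫ |star u ⬝ᵥ (ρ(g) v)|² = ‖u‖² ‖v‖² / n`, so `u = 0`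
(an invariant probability measure on `H`: `haarMeasure ⊤`). -/
def S_KSPN : Prop := ∀ (N : ℕ) (H K : Subgroup (SU N)) (σ : H →* H)
  (τ : Matrix (Fin N) (Fin N) ℂ →ₗ[ℝ] Matrix (Fin N) (Fin N) ℂ) (A : Submodule ℝ (Matrix (Fin N) (Fin N) ℂ))
  (l : ℕ) (Φ : RT l) (B : Matrix (Fin l) (Fin l) ℤ) (Hc : Fin l → Matrix (Fin N) (Fin N) ℂ)
  (E : (Fin l → ℤ) × (Fin l → ℤ) → Matrix (Fin N) (Fin N) ℂ) (x₀ : Fin l → ℝ) (θ : Matrix (Fin l) (Fin l) ℤ)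
  (r : ℕ) (s : Fin r → Fin l) (ε : Fin r → Fin l → ℤ), SD H K σ τ A Φ B Hc E x₀ θ s ε →
  ∀ (n : ℕ) (ρ : Rep H (Fin n)), ρ.Irr → PRep ρ → ∀ (ν : Fin l → ℤ) (v : Fin n → ℂ), HWV Φ Hc E ρ ν v → v ≠ 0 →
    ∀ u : Fin n → ℂ, (∀ k : H, k.1 ∈ K → ρ.ρ k *ᵥ u = u) → star u ⬝ᵥ v = 0 → u = 0

def M_KSPN : Prop := S_HAAR → S_SCHUR → S_LIEB → S_WFAC → S_TAUF → S_TAUS → S_CONJ → S_PFFX → S_DREP → S_KSPN

/-- SPHR. `P = ∫ ρ(k) dk` (entries) is the orthogonal projection on `V^K = {u : ρ(k) u = u}` (invariance of the measure, HAAR for `K`). If `P = 0`: the first case (`∫ χ(g k) = tr (ρ(g) P)`). Otherwise let `u ∈ V^K` be a unit vector, `v` from HWVX, `a = star u ⬝ᵥ v`, which is not `0` by KSPN; for `u' ∈ V^K` the vector `u' - (star v ⬝ᵥ u' / star v ⬝ᵥ u) u` is orthogonal to `v`, so it is `0` by KSPN.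
So `P = u uᴴ`. `f g = (star u ⬝ᵥ (ρ(g) v)) / a`, in `PF H ≤ PG H σ`; left invariant, `wt`, `hw` by `DRF.d` (`dH X f g = (star u ⬝ᵥ (ρ(g) dr ρ X v)) / a`). `∫ f (g k) = (star u ⬝ᵥ (ρ(g) P v)) / a = star u ⬝ᵥ (ρ(g) u) = tr (ρ(g) P)`. -/
def S_SPHR : Prop := ∀ (N : ℕ) (H K : Subgroup (SU N)) (σ : H →* H)
  (τ : Matrix (Fin N) (Fin N) ℂ →ₗ[ℝ] Matrix (Fin N) (Fin N) ℂ) (A : Submodule ℝ (Matrix (Fin N) (Fin N) ℂ))
  (l : ℕ) (Φ : RT l) (B : Matrix (Fin l) (Fin l) ℤ) (Hc : Fin l → Matrix (Fin N) (Fin N) ℂ)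
  (E : (Fin l → ℤ) × (Fin l → ℤ) → Matrix (Fin N) (Fin N) ℂ) (x₀ : Fin l → ℝ) (θ : Matrix (Fin l) (Fin l) ℤ)
  (r : ℕ) (s : Fin r → Fin l) (ε : Fin r → Fin l → ℤ), SD H K σ τ A Φ B Hc E x₀ θ s ε →
  ∀ (c k : ℝ) (D : ℕ) (X : Fin D → Matrix (Fin N) (Fin N) ℂ), KC Φ Hc E c k → FrameH H c X →
  ∀ (νK : Measure K) [IsProbabilityMeasure νK] [νK.IsMulLeftInvariant] (hK : K ≤ H)
  (n : ℕ) (ρ : Rep H (Fin n)), ρ.Irr → PRep ρ → ∀ lam : Fin l → ℤ, HWR Φ Hc c k D ρ lam →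
    (∀ g, ∫ k, ρ.ch (g * ik hK k) ∂νK = 0) ∨
    ∃ f : H → ℂ, SHW K σ Φ Hc E (lam - 1) f ∧ ∀ g, ∫ k, ρ.ch (g * ik hK k) ∂νK = ∫ k, f (g * ik hK k) ∂νK

def M_SPHR : Prop := S_HAAR → S_CALH → S_LIEB → S_WFAC → S_TAUF → S_PFFX → S_DREP → S_HWVX → S_KSPN → S_SPHR

/-- SPHU. `f` is an eigenfunction by HEIS. A probability measure on `H` which is left invariant: `haarMeasure ⊤`. `Z` from GXOC for the given `χ`; EIGW: `f = Pr S f`; `f 1 = 1`, so `F = Pr {i} f ≠ 0` for some `i ∈ S`. Let `i ∈ S` be any index with `F = Pr {i} f ≠ 0`, `ρ` from `CHI` for `i`, `n` the dimension. As in HLOC (HLOC.lean) `F x = ∑ p q, D p q ρ(x) p q`, `D p q = n ∫ conj (ρ(y) p q) f y`.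
`f (k y) = f y` gives `D = conj(ρ(k⁻¹)) D`, so `Dᵀ ρ(k) = Dᵀ`. By GRH (first claim, for `conj ρ · f`) and `DRF.d`, `skew`: `dr ρ (hx x) Dᵀ = i (ν·x) Dᵀ`, `dr ρ (E p - (E p)ᴴ) Dᵀ = i dr ρ (i (E p + (E p)ᴴ)) Dᵀ`: the columns of `Dᵀ` are highest weight vectors of the weight `ν` (HWV). By HWVX `ν = wG i.1 - 1` and `Dᵀ = v yᵀ`. `wG` is injective, so only one `i ∈ S` has `Pr {i} f ≠ 0`, and `f = F`.
`yᵀ ρ(k) = yᵀ`, so `u = conj y` satisfies `ρ(k) u = u`, `f x = star u ⬝ᵥ (ρ(x) v)`, `star u ⬝ᵥ v = f 1 = 1`. By KSPN `V^K` is spanned by `u` (as in SPHR), `P = ∫ ρ(k) dk = u uᴴ / ‖u‖²`, `P v = u / ‖u‖²`: `∫ f (g k) = star u ⬝ᵥ (ρ(g) u) / ‖u‖² = tr (ρ(g) P) = ∫ χ i (g k)`. -/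
def S_SPHU : Prop := ∀ (N : ℕ) (H K : Subgroup (SU N)) (σ : H →* H)
  (τ : Matrix (Fin N) (Fin N) ℂ →ₗ[ℝ] Matrix (Fin N) (Fin N) ℂ) (A : Submodule ℝ (Matrix (Fin N) (Fin N) ℂ))
  (l : ℕ) (Φ : RT l) (B : Matrix (Fin l) (Fin l) ℤ) (Hc : Fin l → Matrix (Fin N) (Fin N) ℂ)
  (E : (Fin l → ℤ) × (Fin l → ℤ) → Matrix (Fin N) (Fin N) ℂ) (x₀ : Fin l → ℝ) (θ : Matrix (Fin l) (Fin l) ℤ)
  (r : ℕ) (s : Fin r → Fin l) (ε : Fin r → Fin l → ℤ), SD H K σ τ A Φ B Hc E x₀ θ s ε →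
  ∀ (c k : ℝ) (D : ℕ) (X : Fin D → Matrix (Fin N) (Fin N) ℂ), KC Φ Hc E c k → FrameH H c X →
  ∀ (νK : Measure K) [IsProbabilityMeasure νK] [νK.IsMulLeftInvariant] (hK : K ≤ H)
  (χ : IX Hc → H → ℂ), CHI Φ Hc c k D χ → ∀ (ν : Fin l → ℤ) (f : H → ℂ), SHW K σ Φ Hc E ν f →
    ∃ i : IX Hc, wG i.1 = ν + 1 ∧ ∀ g, ∫ k, χ i (g * ik hK k) ∂νK = ∫ k, f (g * ik hK k) ∂νK

def M_SPHU : Prop := S_HAAR → S_SCHUR → S_GRH → S_KB → S_KERI → S_CALH → S_LIEB → S_WFAC → S_RVOF → S_TAUF → S_PFFX → S_DREP →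
  S_EIGW → S_GXOC → S_PGXX → S_HEIS → S_HWVX → S_KSPN → S_SPHU

/-! ### the kernels -/

/-- the kernels for the functions which are invariant under right translations by `K` -/
def KS {N : ℕ} {H K : Subgroup (SU N)} (hK : K ≤ H) (νK : Measure K) {ι : Type} (χ : ι → H → ℂ) (a : ι) (x y : H) : ℂ :=
  ∫ k, KK χ a (x * ik hK k) y ∂νK

/-- KSKR. `Ker`: from `Ker μ (KK χ)` (KERI) and Fubini. `KK χ b (y k) z = KK χ b y (z k⁻¹)`. `herm`: `conj (KK χ a y (x k)) = KK χ a (x k) y`, `KK χ a y (x k) = KK χ a (y k⁻¹) x`, and `dk` is invariant under `k ↦ k⁻¹` (HAAR). `rep`, `orth`: `∫ y, KS a x y * KS b y z = ∫ k ∫ k', ∫ y, KK χ a (x k) y * KK χ b y (z k'⁻¹)`, this is `0` for `a ≠ b`, and for `a = b` it is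
`∫ k ∫ k', KK χ a (x k) (z k'⁻¹) = ∫ k ∫ k', KK χ a (x k k') z = KS a x z`. Second claim: `Pr μ (KS ..) S u x = ∫ k, (Pr μ (KK χ) S u) (x k) = ∫ k, u (x k) = u x`. -/
def S_KSKR : Prop := ∀ (N : ℕ) (H K : Subgroup (SU N)), IsClosed (H : Set (SU N)) → IsClosed (K : Set (SU N)) →
  ∀ (hK : K ≤ H) (μ : Measure H) [IsProbabilityMeasure μ] [μ.IsMulLeftInvariant]
  (νK : Measure K) [IsProbabilityMeasure νK] [νK.IsMulLeftInvariant] (ι : Type) (χ : ι → H → ℂ), IrrFam χ →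
  Ker μ (KS hK νK χ) ∧
  ∀ (S : Finset ι) (u : H → ℂ), Continuous u → (∀ (g : H) (k : K), u (g * ik hK k) = u g) →
    Pr μ (KK χ) S u = u → Pr μ (KS hK νK χ) S u = u

def M_KSKR : Prop := S_HAAR → S_KB → S_KERI → S_KSKR

/-- the set of the indices of the spherical representations: the weight is `∑ j, m j • ε j` -/
def SL {N : ℕ} {H : Subgroup (SU N)} (K : Subgroup (SU N)) (σ : H →* H) {l : ℕ} (Φ : RT l)
    (Hc : Fin l → Matrix (Fin N) (Fin N) ℂ) (E : (Fin l → ℤ) × (Fin l → ℤ) → Matrix (Fin N) (Fin N) ℂ)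
    {r : ℕ} (ε : Fin r → Fin l → ℤ) : Set (Fin r → ℕ) :=
  {m | ∃ f : H → ℂ, SHW K σ Φ Hc E (∑ j, (m j : ℤ) • ε j) f}

/-- the dimension of the representation with the highest weight `∑ j, m j • ε j` -/
def dZ {l : ℕ} (Φ : RT l) {r : ℕ} (ε : Fin r → Fin l → ℤ) (m : Fin r → ℤ) : ℝ :=
  ((∏ p ∈ pos Φ, (p.2 ⬝ᵥ (1 + ∑ j, m j • ε j)) : ℤ) : ℝ) / ((∏ p ∈ pos Φ, (p.2 ⬝ᵥ (1 : Fin l → ℤ)) : ℤ) : ℝ)

/-- the quadratic form -/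
def QZ {l : ℕ} (Φ : RT l) {r : ℕ} (ε : Fin r → Fin l → ℤ) (m : Fin r → ℤ) : ℤ := (rd Φ).Q (1 + ∑ j, m j • ε j)

/-- `KM` are the reproducing kernels of the spaces of the right `K`-invariant functions -/
structure SPX {N : ℕ} {H K : Subgroup (SU N)} (σ : H →* H) {l : ℕ} (Φ : RT l)
    (Hc : Fin l → Matrix (Fin N) (Fin N) ℂ) (E : (Fin l → ℤ) × (Fin l → ℤ) → Matrix (Fin N) (Fin N) ℂ)
    {r : ℕ} (ε : Fin r → Fin l → ℤ) (c k : ℝ) (D : ℕ) (μ : Measure H) (νK : Measure K) (hK : K ≤ H)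
    (KM : SL (H := H) K σ Φ Hc E ε → H → H → ℂ) : Prop where
  ker : Ker μ KM
  int : ∀ (i : SL (H := H) K σ Φ Hc E ε) (f : H → ℂ), SHW K σ Φ Hc E (∑ j, (i.1 j : ℤ) • ε j) f → ∀ g g' : H,
    KM i g g' = (dZ Φ ε (fun j => i.1 j) : ℂ) * ∫ k, f (g'⁻¹ * g * ik hK k) ∂νK
  eig : ∀ X : Fin D → Matrix (Fin N) (Fin N) ℂ, FrameH H c X → ∀ (κ : ℝ) (f : H → ℂ), EigH X κ f →
    (∀ g h : H, h.1 ∈ K → f (g * h) = f g) →
    ∃ S : Finset (SL (H := H) K σ Φ Hc E ε), (∀ i ∈ S, κ = k * ((QZ Φ ε (fun j => i.1 j) : ℝ) - (rd Φ).Q 1)) ∧ Pr μ KM S f = f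

/-- SPXX. `χ` from GXOC, `IrrFam χ` (`GX.irr`). For `i ∈ SL` let `a i : IX Hc` be the index of SPHU for a function `f` of the weight `ν = ∑ j, i j • ε j`: `wG (a i).1 = ν + 1` (so `a i` does not depend on `f`), and `KM i = KS hK νK χ (a i)`. `i ↦ a i` is injective (`SO.sj`). `ker`: KSKR. `int`: `KS .. (a i) g g' = χ 1 ∫ χ (g k g'⁻¹) = χ 1 ∫ χ (g'⁻¹ g k) = χ 1 ∫ f (g'⁻¹ g k)`
(a class function; SPHU), `χ 1 = n = dZ` by `HWR.dim` (`p.2 ⬝ᵥ 1 > 0`). `eig`: EIGW (`RVOF`, GXOC: `GX`) gives `S₀`; by KSKR `Pr μ (KS ..) S₀ f = f`. For `b ∈ S₀` let `ρ` be from `CHI`: by SPHR either `KS .. b = 0`, or there is a `f'` with `SHW (wG b.1 - 1) f'`; by DOMS and `SO.span` `wG b.1 - 1 = ∑ j, m j • ε j`, `m j = (wG b.1 - 1) (s j) ≥ 0`, so `b = a i` with `i = m ∈ SL`. `S = {i : a i ∈ S₀}`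
(finite); the terms of `Pr μ (KS ..) S₀ f` with `KS .. b = 0` vanish. `κ = k (Q (wG b.1) - Q 1)`. -/
def S_SPXX : Prop := ∀ (N : ℕ) (H K : Subgroup (SU N)) (σ : H →* H)
  (τ : Matrix (Fin N) (Fin N) ℂ →ₗ[ℝ] Matrix (Fin N) (Fin N) ℂ) (A : Submodule ℝ (Matrix (Fin N) (Fin N) ℂ))
  (l : ℕ) (Φ : RT l) (B : Matrix (Fin l) (Fin l) ℤ) (Hc : Fin l → Matrix (Fin N) (Fin N) ℂ)
  (E : (Fin l → ℤ) × (Fin l → ℤ) → Matrix (Fin N) (Fin N) ℂ) (x₀ : Fin l → ℝ) (θ : Matrix (Fin l) (Fin l) ℤ)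
  (r : ℕ) (s : Fin r → Fin l) (ε : Fin r → Fin l → ℤ), SD H K σ τ A Φ B Hc E x₀ θ s ε →
  ∀ (c k : ℝ) (D : ℕ) (X : Fin D → Matrix (Fin N) (Fin N) ℂ), KC Φ Hc E c k → FrameH H c X →
  ∀ (μ : Measure H) [IsProbabilityMeasure μ] [μ.IsMulLeftInvariant]
  (νK : Measure K) [IsProbabilityMeasure νK] [νK.IsMulLeftInvariant] (hK : K ≤ H),
  ∃ KM : SL (H := H) K σ Φ Hc E ε → H → H → ℂ, SPX σ Φ Hc E ε c k D μ νK hK KM

def M_SPXX : Prop := S_KB → S_KERI → S_CALH → S_WFAC → S_RVOF → S_EIGW → S_GXOC → S_DOMS → S_SPHR → S_SPHU → S_KSKR → S_SPXX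

end

end SYM
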