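import Pool.Agent.LGR.StV

/-!
# Symmetric spaces: the upper bound, block T: exponential sums, weights, `T T*`

The paper proof is in `SYM_PAPER.md`. Module `X` proves `theorem t_X : M_X` (or `t_X : S_X` if there is no `M_X`) in the file `Pool/Agent/SYM/X.lean`, namespace `SYM`. The definitions `eu`, `WW`, `bx`, `bxn`, `ind`, `DS`, `WClY`, `PD` are in `Pool/Agent/STZ` (`StmtsT`, `StmtsX`, `StmtsU`).
-/

namespace SYM

open STZ LGR MeasureTheory Matrix Filter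

open scoped ComplexConjugate Matrix Real Topology

noncomputable section

/-! ### Abel summation with monotone weights -/

/-- the last value plus the total variation of `g` on `[a, a + n)` -/
def va (a : ℤ) (n : ℕ) (g : ℤ → ℂ) : ℝ :=
  ‖g (a + n - 1)‖ + ∑ j ∈ Finset.range (n - 1), ‖g (a + j + 1) - g (a + j)‖

/-- ABEV. Abel summation in several variables for product weights. One variable: `∑_(j < n) f (z + j) g (z + j) = F n g (z + n - 1) - ∑_(1 ≤ j < n) F j (g (z + j) - g (z + j - 1))`, `F j` the sum of the first `j` values of `f`, so it is at most `B va z n g`. Several variables: apply this in one variable after the other: let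
`Φ k` be the claim for weights with `g i = 1` for `i ≥ k`, for all boxes `bxn z m`, `m ≤ n`, with the bound `B ∏ i < k, va (z i) (n i) (g i)` (for `m i ≤ n i` the number `va (z i) (m i) (g i)` is at most `va (z i) (n i) (g i)`). If some `n i = 0` the box is empty. -/
def S_ABEV : Prop := ∀ (r : ℕ) (z : Fin r → ℤ) (n : Fin r → ℕ) (B : ℝ) (f : (Fin r → ℤ) → ℂ) (g : Fin r → ℤ → ℂ),
  0 ≤ B → (∀ m : Fin r → ℕ, (∀ i, m i ≤ n i) → ‖∑ x ∈ bxn z m, f x‖ ≤ B) →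
  ‖∑ x ∈ bxn z n, f x * ∏ i, g i (x i)‖ ≤ B * ∏ i, va (z i) (n i) (g i)

/-- the effective length of the sum `∑_(x < N) s ^ x` -/
def NNf (N : ℕ) (s : ℝ) : ℝ := N / (1 + N * (1 - s))

/-- MONO. Let `S k = ∑_(y ≤ N) y ^ k s ^ y`. `S k ≤ C (min N (1/(1 - s)))^(k+1)`: it is at most `(N + 1)^(k+1)`, and at most `∑_y (y+1) ⋯ (y+k) s ^ y = k! / (1 - s)^(k+1)` (for `s < 1`); and `min N (1/(1-s)) ≤ 2 NNf N s`. The variation of `y ^ e s ^ y` is at most `∑ ((y+1)^e - y^e) s^(y+1) + ∑ y^e (1 - s) s^y ≤ e ∑ (y+1)^(e-1) s^(y+1) + (1 - s) S e`,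
and `(1 - s) NNf N s ≤ 1`. The last value: it is at most the first value plus the variation (or: `y ^ e s ^ y ≤ C NNf ^ e`). -/
def S_MONO : Prop := ∀ e : ℕ, ∃ C : ℝ, 0 ≤ C ∧ ∀ (N n : ℕ) (s : ℝ), 1 ≤ N → n ≤ N → 0 ≤ s → s ≤ 1 →
  va 0 n (fun y => (y : ℂ) ^ e * (s : ℂ) ^ y.toNat) ≤ C * NNf N s ^ e

/-- DAMP. Write `z j = |z j| e(α j)`; `eu (φ x) ∏ z j ^ x j = eu (φ x + ∑ α j x j) ∏ |z j| ^ x j` for `x` in the box, and the phase `φ x + ∑ α j x j` satisfies the same condition with another `ψ`. By WEYY with `R i = N` (the sub-boxes `bxn 0 m`, `m ≤ n`) the sums of the phases are at most `(c WW N c t ^ r)^(1/2)`. Expand the product of the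
linear forms into monomials `∏ x j ^ e j` with nonnegative coefficients; by ABEV and MONO the sum with the monomial is at most `C WW^(r/2) ∏ NNf N |z j| ^ e j`; add up: `C WW^(r/2) ∏ p, (a₀ p + ∑ a p j NNf N |z j|)`, and `NNf ≥ 1/2` gives `a₀ p ≤ C ∑ a p j NNf N |z j|`. -/
def S_DAMP : Prop := ∀ (r : ℕ) (G : Matrix (Fin r) (Fin r) ℤ), PD G → ∀ (ι : Type) [Fintype ι] (a₀ : ι → ℝ)
  (a : ι → Fin r → ℝ), (∀ p, 0 ≤ a₀ p) → (∀ p j, 0 ≤ a p j) → (∀ p, ∃ j, 0 < a p j) →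
  ∃ (C : ℝ) (c : ℕ), 0 ≤ C ∧ 1 ≤ c ∧ ∀ (N : ℕ) (n : Fin r → ℕ) (t : ℝ) (φ ψ : (Fin r → ℤ) → ℝ) (z : Fin r → ℂ),
    1 ≤ N → (∀ i, n i ≤ N) → (∀ x h, φ (x + h) = φ x + ψ h + t * ((x ⬝ᵥ (G *ᵥ h) : ℤ) : ℝ)) → (∀ i, ‖z i‖ ≤ 1) →
    ‖∑ x ∈ bxn (0 : Fin r → ℤ) n, ((∏ p, (a₀ p + ∑ j, a p j * x j) : ℝ) : ℂ) * eu (φ x) * ∏ j, z j ^ (x j).toNat‖ ≤
      C * WW N c t ^ ((r : ℝ) / 2) * ∏ p, ∑ j, a p j * NNf N ‖z j‖

def M_DAMP : Prop := S_WWF → S_WEYY → S_ABEV → S_MONO → S_DAMP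

/-! ### cutoffs -/

/-- the mean of the powers `z ^ j`, `j < M` -/
def AV (M : ℕ) (z : ℂ) : ℂ := (∑ j ∈ Finset.range M, z ^ j) / M

/-- the coefficients of `AV M z ^ (2 i)` -/
def fc (M : ℕ) : ℕ → ℤ → ℝ
  | 0, k => if k = 0 then 1 else 0
  | i + 1, k => (∑ a ∈ Finset.range M, ∑ b ∈ Finset.range M, fc M i (k - a - b)) / (M : ℝ) ^ 2

/-- the cutoff function `1 - (1 - ∏ AV² )^r` -/
def sg (r M : ℕ) (z : Fin r → ℂ) : ℂ := 1 - (1 - ∏ j, AV M (z j) ^ 2) ^ r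

/-- the coefficients of `sg r M` -/
def sc (r M : ℕ) (k : Fin r → ℤ) : ℝ :=
  ∑ i ∈ Finset.Icc 1 r, (-1 : ℝ) ^ (i + 1) * (r.choose i) * ∏ j, fc M i (k j)

/-- facts about the cutoffs, `M ≥ 1` -/
structure CUT : Prop where
  nn : ∀ (M i : ℕ) (k : ℤ), 0 ≤ fc M i k
  le : ∀ (M i : ℕ) (k : ℤ), 1 ≤ M → 1 ≤ i → fc M i k ≤ 1 / M
  dif : ∀ (M i : ℕ) (k : ℤ), 1 ≤ M → 1 ≤ i → |fc M i (k + 1) - fc M i k| ≤ 1 / (M : ℝ) ^ 2
  supp : ∀ (M i : ℕ) (k : ℤ), 1 ≤ M → fc M i k ≠ 0 → 0 ≤ k ∧ k < 2 * i * M + 1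
  pow : ∀ (M i : ℕ) (z : ℂ), 1 ≤ M → AV M z ^ (2 * i) = ∑ k ∈ Finset.Ico (0 : ℤ) (2 * i * M + 1), (fc M i k : ℂ) * z ^ k.toNat
  sum : ∀ (r M : ℕ) (z : Fin r → ℂ), 1 ≤ M → sg r M z = ∑ k ∈ bx (0 : Fin r → ℤ) (2 * r * M + 1), (sc r M k : ℂ) * ∏ j, z j ^ (k j).toNat
  bd : ∀ (r M : ℕ) (z : Fin r → ℂ), 1 ≤ M → (∀ j, ‖z j‖ ≤ 1) → ‖sg r M z‖ ≤ 1 + 2 ^ r
  near : ∀ (r M : ℕ) (z : Fin r → ℂ), 1 ≤ M → (∀ j, ‖z j‖ ≤ 1) → ‖sg r M z - 1‖ ≤ (2 * M * ∑ j, ‖z j - 1‖) ^ r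
  one : ∀ (r : ℕ) (z : Fin r → ℂ), 1 ≤ r → sg r 1 z = 1

/-- CUTS. `fc M 1` is the triangle function `#{(a, b) ∈ [0, M)² : a + b = k} / M²`; for `i ≥ 1` `fc M (i + 1)` is a mean of translates of `fc M i`. `pow`: induction. `sum`: the binomial theorem, `(-1)^(i+1)`; extend the sums over `[0, 2 i M]` to `[0, 2 r M]`. `near`: `|1 - ∏ w j| ≤ ∑ |1 - w j|` for `|w j| ≤ 1`, `|1 - AV²| ≤ 2 |1 - AV| ≤ 2 M |1 - z|`. -/
def S_CUTS : Prop := CUT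

/-- MULS. The bound of the multipliers. It is enough to bound the sum with `∏ j, fc M i (k j)`, `1 ≤ i ≤ r`, instead of `sc r M k`. Substitute `x = v - k`: `x` runs over the box of the `x` with `v j - 2 i M ≤ x j ≤ v j` and `l j ≤ x j < u j`. Let `R j = min M (v j + 1)` (a natural number `≥ 1`); the side of the box in the direction `j` is at most `(2 r + 1) R j`
(because `x j ≥ 0`). ABEY for the phase `eu (φ x)` (WEYY: the sums over smaller boxes are at most `(c ∏ WW ((2r+1) R j))^(1/2) ≤ C WW M c' t^(r/2)` by `WWF.scale`, `mono`) and the weight `∏ j, fc M i (v j - x j) * ∏ p, (a₀ p + ∑ a p j x j)` (WCY: `coord` for the first factor, size `M^(-r)`, scale `R j ≤ M`; every linear form has size `a₀ p + ∑ a p j v j` and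
difference `a p j ≤ C (a₀ p + ∑ a p j v j) / R j` in the direction `j`, as `a₀ p > 0`). -/
def S_MULS : Prop := ∀ (r : ℕ) (G : Matrix (Fin r) (Fin r) ℤ), PD G → ∀ (ι : Type) [Fintype ι] (a₀ : ι → ℝ)
  (a : ι → Fin r → ℝ), (∀ p, 0 < a₀ p) → (∀ p j, 0 ≤ a p j) →
  ∃ (C : ℝ) (c : ℕ), 0 ≤ C ∧ 1 ≤ c ∧ ∀ (M : ℕ) (l u : Fin r → ℤ) (v : Fin r → ℤ) (t : ℝ) (φ ψ : (Fin r → ℤ) → ℝ),
    1 ≤ M → (∀ j, 0 ≤ l j) → (∀ j, 0 ≤ v j) → (∀ x h, φ (x + h) = φ x + ψ h + t * ((x ⬝ᵥ (G *ᵥ h) : ℤ) : ℝ)) →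
    ‖∑ k ∈ bx (0 : Fin r → ℤ) (2 * r * M + 1), if ∀ j, l j ≤ v j - k j ∧ v j - k j < u j then
      (sc r M k : ℂ) * ((∏ p, (a₀ p + ∑ j, a p j * ((v j - k j : ℤ) : ℝ)) : ℝ) : ℂ) * eu (φ (v - k)) else 0‖ ≤
      C * (∏ p, (a₀ p + ∑ j, a p j * (v j : ℝ))) * ((M : ℝ) ^ (-(r : ℝ)) * WW M c t ^ ((r : ℝ) / 2))

def M_MULS : Prop := S_WWF → S_WEYY → S_ABEY → S_WCLY → S_CUTS → S_MULS

/-- DICK. Up-closed sets. By Dickson's lemma (`Pi.isPWO`, `Set.IsPWO`, or `Set.PartiallyWellOrderedOn`) the set of the minimal elements of `U` is finite, `U` is the union of the orthants `{x : m ≤ x}` of the minimal elements; inclusion-exclusion: the product `∏ m, (1 - [m ≤ x])` is `1 - [x ∈ U]`, and `∏_(m ∈ S) [m ≤ x] = [sup S ≤ x]`, `sup S ∈ U` for `S ≠ ∅`. -/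
def S_DICK : Prop := ∀ (r : ℕ) (U : Set (Fin r → ℕ)), (∀ x ∈ U, ∀ y, x ≤ y → y ∈ U) →
  ∃ (m : ℕ) (v : Fin m → Fin r → ℕ) (c : Fin m → ℤ), (∀ s, v s ∈ U) ∧
    ∀ x, (x ∈ U → ∑ s, (if ∀ i, v s i ≤ x i then c s else 0) = 1) ∧
      (x ∉ U → ∑ s, (if ∀ i, v s i ≤ x i then c s else 0) = 0)

/-! ### `T T*` with cutoffs in time -/

/-- cutoffs in time: measurable, `1`-periodic, even, with values in `[0, 1]` -/
structure TC (χ : ℝ → ℝ) : Prop where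
  meas : Measurable χ
  per : ∀ t, χ (t + 1) = χ t
  even : ∀ t, χ (-t) = χ t
  nn : ∀ t, 0 ≤ χ t
  le : ∀ t, χ t ≤ 1

/-- YOUM. As YOUNG (YOUNG.lean), where `k` is continuous. The function `χ * k` is bounded and measurable. -/
def S_YOUM : Prop := ∀ (q : ℝ) (f k χ : ℝ → ℝ), 2 ≤ q → Continuous f → Nice k → TC χ → (∀ x, 0 ≤ f x) →
  ∫ s in (0 : ℝ)..1, ∫ t in (0 : ℝ)..1, χ (s - t) * k (s - t) * f s * f t ≤
    (∫ t in (0 : ℝ)..1, χ t * k t ^ (q / 2)) ^ (2 / q) *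
      (∫ t in (0 : ℝ)..1, f t ^ (q / (q - 1))) ^ (2 * (q - 1) / q)

/-- the quadratic form of the kernel `k` (convolution in time) -/
def JJ {M : Type} [MeasurableSpace M] (μ : Measure M) (k : ℝ → M → M → ℂ) (G : ℝ → M → ℂ) : ℂ :=
  ∫ t in (0 : ℝ)..1, ∫ s in (0 : ℝ)..1, ∫ x, conj (G t x) * ∫ y, k (t - s) x y * G s y ∂μ ∂μ

/-- TTA. The `T T*` reduction, from the proof of TTX (TTX.lean) and TTY. Let `v a x = ∫ t, e(-t φ a) G t x`, continuous. The integral on the left is `∑ a, ∫ x, conj (v a x) * u a x`, and `∫ conj (v a) (u a) = ∫ conj (Pr {a} (v a)) (u a)` (`KBF.adj`, `KBF.fix`), so by Cauchy-Schwarz its square is at most `(∑ nsq (u a)) (∑ a ∈ F, nsq (Pr {a} (v a)))`.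
The last sum is at most `∑ a ∈ T, η a * nsq (Pr {a} (v a)) = JJ μ k G` (`KBF.inn`), a nonnegative number. -/
def S_TTA : Prop := ∀ (M : Type) [TopologicalSpace M] [CompactSpace M] [T2Space M]
  [SecondCountableTopology M] [MeasurableSpace M] [BorelSpace M] (μ : Measure M)
  [IsProbabilityMeasure μ] (ι : Type) (K : ι → M → M → ℂ), Ker μ K →
  ∀ (φ : ι → ℤ) (F T : Finset ι) (η : ι → ℝ), F ⊆ T → (∀ a ∈ T, 0 ≤ η a) → (∀ a ∈ F, 1 ≤ η a) →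
    ∀ (u : ι → M → ℂ), (∀ a ∈ F, Mem μ (K a) (u a)) → ∀ G : ℝ → M → ℂ, JC G →
      ‖∫ t in (0 : ℝ)..1, ∫ x, conj (G t x) * ∑ a ∈ F, eu (t * φ a) * u a x ∂μ‖ ^ 2 ≤
        (∑ a ∈ F, nsq μ (u a)) * ‖JJ μ (fun t x y => ∑ a ∈ T, (η a : ℂ) * (eu (t * φ a) * K a x y)) G‖

def M_TTA : Prop := S_KB → S_TTA

/-- KIA. Pieces of the first kind: bounds for every time. For every `t`, `s` the inner integral of `JJ` is at most `χ (t-s) A (t-s) e t e s` and at most `χ (t-s) E (t-s) √(e t) √(e s)`, `e t = ∫ x, ‖G t x‖` (`‖G‖² ≤ ‖G‖`), so at most `χ (A^(1-2/p) E^(2/p))(t-s) (e t e s)^(1-1/p)` (`min X Y ≤ X^(1-2/p) Y^(2/p)`). YOUM with `q = p`,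
`f t = (e t)^(1-1/p)`, `k = A^(1-2/p) E^(2/p)`: `k^(p/2) = A^(p/2-1) E`, `f^(p/(p-1)) = e`, `2(p-1)/p = 2 - 2/p`. (YOUM has `k (s - t)`; `k`, `χ` are even.) -/
def S_KIA : Prop := ∀ (M : Type) [TopologicalSpace M] [CompactSpace M] [T2Space M]
  [SecondCountableTopology M] [MeasurableSpace M] [BorelSpace M] (μ : Measure M)
  [IsProbabilityMeasure μ] (p : ℝ), 2 < p → ∀ (k : ℝ → M → M → ℂ) (χ A E : ℝ → ℝ) (Γ : ℝ),
    TC χ → (Continuous fun z : ℝ × M × M => k z.1 z.2.1 z.2.2) → Nice A → Nice E → (∀ t x y, ‖k t x y‖ ≤ A t) →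
    (∀ t (u v : M → ℂ), Continuous u → Continuous v →
      ‖∫ x, conj (v x) * ∫ y, k t x y * u y ∂μ ∂μ‖ ≤ E t * (√(nsq μ u) * √(nsq μ v))) →
    ∫ t in (0 : ℝ)..1, χ t * (A t ^ (p / 2 - 1) * E t) ≤ Γ → ∀ G : ℝ → M → ℂ, JC G → (∀ t x, ‖G t x‖ ≤ 1) →
      ‖JJ μ (fun t x y => (χ t : ℂ) * k t x y) G‖ ≤
        Γ ^ (2 / p) * (∫ t in (0 : ℝ)..1, ∫ x, ‖G t x‖ ∂μ) ^ (2 - 2 / p)

def M_KIA : Prop := S_YOUM → S_KIA

/-- VPAR. Multipliers in time. `φ` bounded, measurable and periodic. Let `S n` be the sums of the terms `|j| ≤ n` of the Fourier series of `φ` (they converge in `L²(0, 1)`: `hasSum_fourier_series_L2` on `AddCircle`). For `S n` the double integral is `∑_(|j| ≤ n) φ^(j) |∫ g(t) e(-jt) dt|²`, at most `E ∫ ‖g‖²` by Bessel's inequality. And the double integral depends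
continuously on `φ ∈ L¹(0, 1)` because `g` is bounded on `[0, 1]`. (`φ (t - s)` with `t - s ∈ [-1, 1]`: periodicity.) -/
def S_VPAR : Prop := ∀ (φ : ℝ → ℂ) (B E : ℝ), Measurable φ → (∀ t, ‖φ t‖ ≤ B) → (∀ t, φ (t + 1) = φ t) → 0 ≤ E →
  (∀ j : ℤ, ‖∫ t in (0 : ℝ)..1, φ t * eu (-(j * t))‖ ≤ E) → ∀ g : ℝ → ℂ, Continuous g →
    ‖∫ t in (0 : ℝ)..1, ∫ s in (0 : ℝ)..1, φ (t - s) * (conj (g t) * g s)‖ ≤ E * ∫ t in (0 : ℝ)..1, ‖g t‖ ^ 2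

/-- KIB. Pieces of the second kind: a multiplier bound in time and space. `JJ = ∑ b ∈ T, ∫ x, ∫∫ χ (t-s) m b (t-s) conj (Pr {b} (G t) x) Pr {b} (G s) x` (Fubini, `KBF.adj`, `KBF.idem`), so by VPAR (with `g t = Pr {b} (G t) x`, continuous) `‖JJ‖ ≤ E ∑ b, ∫ x, ∫ t, ‖Pr {b} (G t) x‖² ≤ E ∫ t, nsq (G t) ≤ E e`, `e = ∫∫ ‖G‖` (`pyth`, `bess`, `‖G‖² ≤ ‖G‖`); and `‖JJ‖ ≤ A e²`.
`min X Y ≤ X^(1-2/p) Y^(2/p)`: `(A e²)^(1-2/p) (E e)^(2/p) = (A^(p/2-1) E)^(2/p) e^(2-2/p)`. -/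
def S_KIB : Prop := ∀ (M : Type) [TopologicalSpace M] [CompactSpace M] [T2Space M]
  [SecondCountableTopology M] [MeasurableSpace M] [BorelSpace M] (μ : Measure M)
  [IsProbabilityMeasure μ] (ι : Type) (K : ι → M → M → ℂ), Ker μ K →
  ∀ (p : ℝ), 2 < p → ∀ (T : Finset ι) (m : ι → ℝ → ℂ) (χ : ℝ → ℝ) (A E : ℝ), TC χ → 0 ≤ A → 0 ≤ E →
    (∀ b ∈ T, Continuous (m b)) → (∀ b ∈ T, ∀ t, m b (t + 1) = m b t) →
    (∀ t x y, ‖(χ t : ℂ) * ∑ b ∈ T, m b t * K b x y‖ ≤ A) →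
    (∀ b ∈ T, ∀ j : ℤ, ‖∫ t in (0 : ℝ)..1, (χ t : ℂ) * m b t * eu (-(j * t))‖ ≤ E) →
    ∀ G : ℝ → M → ℂ, JC G → (∀ t x, ‖G t x‖ ≤ 1) →
      ‖JJ μ (fun t x y => (χ t : ℂ) * ∑ b ∈ T, m b t * K b x y) G‖ ≤
        (A ^ (p / 2 - 1) * E) ^ (2 / p) * (∫ t in (0 : ℝ)..1, ∫ x, ‖G t x‖ ∂μ) ^ (2 - 2 / p)

def M_KIB : Prop := S_KB → S_VPAR → S_KIB

end

end SYM
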