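import Pool.Agent.SYM.StT

/-!
# Symmetric spaces: the upper bound, block U: arcs in time

The paper proof is in `SYM_PAPER.md`. Module `X` proves `theorem t_X : M_X` (or `t_X : S_X` if there is no `M_X`) in the file `Pool/Agent/SYM/X.lean`, namespace `SYM`.
-/

namespace SYM

open STZ LGR MeasureTheory Matrix Filter

open scoped ComplexConjugate Matrix Real Topology

noncomputable section

/-! ### number theory -/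

/-- VDIV. The number of divisors. `d(n) / n^ε = ∏ (a + 1) / p^(a ε)` over the prime powers `p^a` of `n`; the factor is at most `1` if `p ≥ 2^(1/ε)` (`a + 1 ≤ 2^a`), and for the finitely many smaller primes it is at most `sup_a (a + 1) / 2^(a ε) < ∞`. -/
def S_VDIV : Prop := ∀ ε : ℝ, 0 < ε → ∃ C : ℝ, 0 ≤ C ∧ ∀ n : ℕ, 1 ≤ n → ((Nat.divisors n).card : ℝ) ≤ C * (n : ℝ) ^ ε

/-- the sum of the `e(j a / q)` over the `a` prime to `q` (Ramanujan's sum) -/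
def ram (q : ℕ) (j : ℤ) : ℂ := ∑ a ∈ (Finset.range q).filter (fun a => Nat.Coprime a q), eu ((j : ℝ) * a / q)

/-- VRAM. First claim: `∑_(d | q) ram d j` is the sum of the `e(j a / q)` over all `a` modulo `q`, which is `q` if `q | j` and `0` otherwise; Möbius inversion: `ram q j = ∑_(d | q, d | j) μ(q/d) d`. (For `j = 0`: the number of terms.) Second claim: `∑_(q ≤ X) (1/q) ∑_(d | q, d | j) d = ∑_(d | j, d ≤ X) ∑_(m ≤ X/d) 1/m`. -/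
def S_VRAM : Prop := (∀ (q : ℕ) (j : ℤ), 1 ≤ q → ‖ram q j‖ ≤ ∑ d ∈ (Nat.divisors q).filter (fun d : ℕ => (d : ℤ) ∣ j), (d : ℝ)) ∧
  (∀ (q : ℕ) (j : ℤ), ‖ram q j‖ ≤ q) ∧
  ∀ (X : ℕ) (j : ℤ), 1 ≤ X → j ≠ 0 →
    ∑ q ∈ Finset.Icc 1 X, ‖ram q j‖ / q ≤ ((Nat.divisors j.natAbs).card : ℝ) * (1 + Real.log X)

/-- VREP. Representations by `u² + E v²`. Primitive ones (`gcd (u, v) = 1`): `v` is invertible modulo `m` (a prime which divides `v` and `m` divides `u`), and `x = u v⁻¹` is a root of `x² ≡ -E` modulo `m`. The number of the roots modulo `m`: fix a root `x₀`; for every root `x` there is a factorisation `m = d d'` with `d | x - x₀`,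
`d' | x + x₀` (`d = gcd (m, x - x₀)`: then `m/d` divides `(x - x₀)/d · (x + x₀)` and is prime to `(x - x₀)/d`), and for given `d` there are at most `gcd (d, d')` such `x` modulo `m`; `g = gcd (d, d')` divides `2 x₀` (if there is an `x`), and `g² | m`, `4 x₀² ≡ -4E mod m`, so `g² | 4E`, `g ≤ 2 √E`. So there are at most `2 √E d(m)` roots. Two primitive
representations `(u, v)`, `(u', v')` with the same root: `m | u v' - u' v`, and `E (u v' - u' v)² ≤ (u² + E v²)(u'² + E v'²) = m²`, so `u v' - u' v = 0` as `E ≥ 2`, and `(u', v') = ±(u, v)`. General ones: divide by `g = gcd (u, v)`, `g² | m`: at most `∑_(g² | m) 4 √E d(m/g²) ≤ 4 √E d(m)²`. -/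
def S_VREP : Prop := ∀ E m : ℕ, 2 ≤ E → 1 ≤ m → ∀ s : Finset (ℤ × ℤ), (∀ x ∈ s, x.1 ^ 2 + E * x.2 ^ 2 = m) →
  (s.card : ℝ) ≤ 4 * √E * ((Nat.divisors m).card : ℝ) ^ 2

/-- VZER. Integral points on quadrics in small boxes. Fix the coordinates `x i` for `i ≠ 0, 1` (`R^(r-2)` choices). Then `x·Gx + l·x - τ = a x² + 2 b x y + c y² + e x + f y + g` with `a = G 0 0 > 0`, `c > 0`, `b = G 0 1`, `Δ = 4 (a c - b²) > 0` (PD), and the integers `|e|, |f|, |g| ≤ C (X + |τ|)^2`. With `u = 2 a x + 2 b y + e`, `v = 2 Δ y + h`, `h = 4 a f - 4 b e`: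
`16 a Δ (a x² + 2 b x y + c y² + e x + f y + g) = 4 Δ u² + v² + k`, `k = 4 Δ (4 a g - e²) - h²`, and `(x, y) ↦ (u, v)` is injective: VREP with `E = 4 Δ ≥ 2`, `m = -k` (if `m ≤ 0` there is at most one solution) and VDIV. If `|τ| > C X²` there are no solutions, so `m ≤ C X^8`. -/
def S_VZER : Prop := ∀ (r : ℕ) (G : Matrix (Fin r) (Fin r) ℤ), 2 ≤ r → PD G → ∀ ε : ℝ, 0 < ε → ∃ C : ℝ, 0 ≤ C ∧
  ∀ (R : ℕ) (X : ℝ) (l z : Fin r → ℤ) (τ : ℤ), 1 ≤ R → (R : ℝ) ≤ X → (∀ i, |(z i : ℝ)| ≤ X) → (∀ i, |(l i : ℝ)| ≤ X) →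
    (((bx z R).filter (fun x => x ⬝ᵥ (G *ᵥ x) + l ⬝ᵥ x = τ)).card : ℝ) ≤ C * X ^ ε * (R : ℝ) ^ ((r : ℝ) - 2)

def M_VZER : Prop := S_VDIV → S_VREP → S_VZER

/-! ### arcs -/

/-- the arcs `|t - a/q| < P/q` with `X₀ < q ≤ X` -/
def ar (X₀ X : ℕ) (P : ℝ) : Set ℝ := {t | ∃ ρ : ℚ, X₀ < ρ.den ∧ ρ.den ≤ X ∧ |t - ρ| < P / ρ.den}

/-- the indicator function of `ar X₀ X P` -/
def ai (X₀ X : ℕ) (P : ℝ) : ℝ → ℝ := (ar X₀ X P).indicator fun _ => 1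

/-- VARC. Different fractions `ρ`, `ρ'` with denominators `q, q' ≤ X` have a distance of at least `1/(q q') ≥ P/q + P/q'` as `2 P X ≤ 1`; so the arcs are disjoint. `ar` is open, invariant under `t ↦ t + 1`, `t ↦ -t`. The integral over a period: `ai` is the sum over the `ρ ∈ [0, 1)` of the indicator functions of the arcs modulo `1`,
so `∫ ai e(-jt) dt = ∑_(X₀ < q ≤ X) ram q (-j) ∫_(|β| < P/q) e(-jβ) dβ`, and the last integral is at most `2 P/q`, and at most `1/|j|` for `j ≠ 0`. VRAM: for `j ≠ 0` at most `2 P d(j) (1 + log X)`, and at most `∑ q / |j| ≤ X² / |j|`; for `j = 0` at most `2 P X`. -/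
def S_VARC : Prop := ∀ (X₀ X : ℕ) (P : ℝ), 1 ≤ X → 0 < P → 2 * P * X ≤ 1 → TC (ai X₀ X P) ∧
  (∀ j : ℤ, j ≠ 0 → ‖∫ t in (0 : ℝ)..1, (ai X₀ X P t : ℂ) * eu (-(j * t))‖ ≤
    min (2 * P * ((Nat.divisors j.natAbs).card * (1 + Real.log X))) ((X : ℝ) ^ 2 / |(j : ℝ)|)) ∧
  ∫ t in (0 : ℝ)..1, ai X₀ X P t ≤ 2 * P * X ∧
  ∀ F : ℝ → ℝ, Continuous F → (∀ t, 0 ≤ F t) → (∀ t, F (t + 1) = F t) →
    ∫ t in (0 : ℝ)..1, ai X₀ X P t * F t ≤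
      ∑ q ∈ Finset.Ioc X₀ X, ∑ a ∈ Finset.range q, ∫ β in (-(P / q))..(P / q), F ((a : ℝ) / q + β)

def M_VARC : Prop := S_VRAM → S_VARC

/-- WPTG. As S_WPT (WPT.lean), with the exponent `γ` instead of `3/4`: the last sum is at most `∑_(1 ≤ y ≤ J) min (2 R) (2 / (q |β| y))`-like, and `min 1 (1/x) ≤ x^(-γ)`, `∑_(y ≤ J) y^(-γ) ≤ C J^(1-γ)`. -/
def S_WPTG : Prop := ∀ (c : ℕ) (γ : ℝ), 1 ≤ c → 0 < γ → γ < 1 → ∃ C : ℝ, 0 ≤ C ∧ ∀ (R : ℕ) (t : ℝ) (ρ : ℚ), 1 ≤ R →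
  ρ.den ≤ 2 * c * R → |t - ρ| ≤ 1 / (ρ.den * (2 * c * R)) →
  WW R c t ≤ C * (R * (1 + Real.log R) +
    (R : ℝ) ^ 2 / ρ.den * (1 + (R : ℝ) ^ 2 * |t - ρ|) ^ (-γ))

/-- ARCS. The decomposition of the times into level sets of `WW N c`. Let `γ = 1 - ε/4` (we may assume `ε ≤ 1`), `X = 2 c N`, `X₀ = ⌊N^η⌋`, `P i = 2^(-i) / (2 X)`, `I` the smallest `i` with `P i ≤ N^(-2+η)` (`I = 0` is possible; `I ≤ C (1 + log N)`). `m = I + 2`; `χ` are the functions `1 - ai 0 X (P 0)` (with the number `P 0`), `ai 0 X (P i) - ai 0 X (P (i+1))` (`i < I`, with `P i`), and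
`ai X₀ X (P I)` (with `P I`). The sum is `1 - ai 0 X₀ (P I)`, as the arcs are disjoint (`X₀ ≤ X`). `TC`: VARC. `wb`: Dirichlet's theorem (`Real.exists_rat_abs_sub_le_and_den_le`) gives `ρ` with `q ≤ X`, `|t - ρ| ≤ 1/(q X)`; if `χ i t ≠ 0` then `|t - ρ| ≥ P i / (2 q)`, or (for the last one, if `t` is in the arc of `ρ'` with `q' > X₀`, use this `ρ'`, `|t - ρ'| < P I/q' ≤ 1/(q' X)`) `q > X₀`; WPTG:
`WW ≤ C (N (1 + log N) + N² (N² P i)^(-γ))` (`q^(γ-1) ≤ 1`) or `≤ C (N (1 + log N) + N^(2-η))`, both are at most `C N^ε / P i` (`P i ≤ 1/N`; for the last one `P I ≤ N^(-2+η)`). `fc`: VARC and VDIV: `d(j) (1 + log X) ≤ C N^ε` if `0 < |j| ≤ N^4`, and `X² / |j| ≤ C N^(-2) ≤ C P i` for `|j| > N^4`. (The Fourier coefficients of the constant `1` are `0` for `j ≠ 0`, and `1 ≤ C N P 0`.)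
`lo`: `P I ≥ N^(-2+η)/2` or `I = 0`, `P 0 = 1/(4cN)`. -/
def S_ARCS : Prop := ∀ (c : ℕ) (ε η : ℝ), 1 ≤ c → 0 < ε → 0 < η → η ≤ 1 → ∃ C : ℝ, 0 ≤ C ∧ ∀ N : ℕ, 1 ≤ N →
  ∃ (m : ℕ) (χ : Fin m → ℝ → ℝ) (P : Fin m → ℝ) (X₀ : ℕ) (P₀ : ℝ), (m : ℝ) ≤ C * (1 + Real.log N) ∧
    (X₀ : ℝ) ≤ (N : ℝ) ^ η ∧ 0 < P₀ ∧ P₀ ≤ (N : ℝ) ^ (-2 + η) ∧ 2 * P₀ * X₀ ≤ 1 ∧ TC (ai 0 X₀ P₀) ∧
    (∀ t, ai 0 X₀ P₀ t + ∑ i, χ i t = 1) ∧
    ∀ i, TC (χ i) ∧ 0 < P i ∧ (N : ℝ) ^ (-2 + η) ≤ C * P i ∧ P i ≤ 1 / N ∧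
      (∀ t, χ i t ≠ 0 → WW N c t ≤ C * (N : ℝ) ^ ε / P i) ∧
      (∀ j : ℤ, j ≠ 0 → ‖∫ t in (0 : ℝ)..1, (χ i t : ℂ) * eu (-(j * t))‖ ≤ C * (N : ℝ) ^ ε * P i) ∧
      ‖∫ t in (0 : ℝ)..1, (χ i t : ℂ)‖ ≤ C * N * P i

def M_ARCS : Prop := S_VDIV → S_VARC → S_WPTG → S_ARCS

/-- VMAJ. The integral over the major arcs. Let `γ < 1` with `γ a > 1`, `η` small. By VARC the integral is at most `∑_(q ≤ X₀) ∑_a ∫_(|β| < P/q) F (a/q + β)`. There `WW N c t ≤ C (N²/q)(1 + N²|β|)^(-γ)` by WPTG (`1 + N² |β| ≤ 2 N^η`, `q ≤ N^η`, so `N (1 + log N) ≤ C (N²/q)(1 + N²|β|)^(-γ)` for `η < 1/3`; `|β| ≤ P/q ≤ 1/(2cNq)` for large `N`, and the claim is trivial for bounded `N`).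
If `M ≥ N^(2η)`: `M (1 + log M) ≤ C M²/q`, `|β| ≤ 1/(2cMq)`, so `WW M c t ≤ C M²/q` and the integral is at most `C N^(2a) M^(2b) ∑_q q^(1-a-b) ∫ (1 + N²|β|)^(-γa) dβ ≤ C N^(2a-2) M^(2b)`, as `a + b > 2`. If `M < N^(2η)`: `WW M c t ≤ C M²` always, and `∑_(q ≤ X₀) q^(1-a) ≤ N^η`, so the integral is at most `C N^(2a-2) M^(2b) N^η`, and
`N^η ≤ (N^(1/2)/M)^θ` as `M < N^(2η)` and `(1/2 - 2η) θ ≥ η` for small `η`. -/
def S_VMAJ : Prop := ∀ (c : ℕ) (a b θ : ℝ), 1 ≤ c → 1 < a → 1 ≤ b → 2 < a + b → 0 < θ →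
  ∃ (η C : ℝ), 0 < η ∧ η ≤ 1 ∧ 0 ≤ C ∧ ∀ (N M X₀ : ℕ) (P : ℝ), 1 ≤ M → M ^ 2 ≤ N → (X₀ : ℝ) ≤ (N : ℝ) ^ η → 0 < P →
    P ≤ (N : ℝ) ^ (-2 + η) → 2 * P * X₀ ≤ 1 →
    ∫ t in (0 : ℝ)..1, ai 0 X₀ P t * (WW N c t ^ a * WW M c t ^ b) ≤
      C * ((N : ℝ) ^ (2 * a - 2) * (M : ℝ) ^ (2 * b) * ((N : ℝ) ^ (1 / 2 : ℝ) / M) ^ θ)

def M_VMAJ : Prop := S_WWF → S_VARC → S_WPTG → S_VMAJ

end

end SYM
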