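import Pool.Agent.SYM.StS

/-!
# Symmetric spaces: the upper bound, block Z: the kernels and the theorem

`SPB`, `SPD`: the data of a symmetric space `M = H / K` which are used for the estimates (`Y` is the group `K`): the kernels `KM i`, `i ∈ L ⊆ ℕ^r`, are `dd i` times the integrals over `K` of products of the functions `F j` (weights `β j`) and of finitely many functions `f s` (weights `a s`).
Module `X` proves `theorem t_X : M_X` (or `t_X : S_X` if there is no `M_X`) in the file `Pool/Agent/SYM/X.lean`, namespace `SYM`. The definitions `sg`, `sc`, `NNf`, `TC`, `JJ`, `ai` are in `StT.lean`, `StU.lean`.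
-/

namespace SYM

open STZ LGR MeasureTheory Matrix Filter

open scoped ComplexConjugate Matrix Real Topology

noncomputable section

/-- the data -/
structure SPB (M Y : Type) (r n q : ℕ) where
  G : Matrix (Fin r) (Fin r) ℤ
  Q : (Fin r → ℤ) → ℤ
  D₀ : ℝ
  a₀ : Fin n → ℝ
  α : Fin n → Fin r → ℝ
  β : Fin r → ℕ
  a : Fin q → Fin r → ℕ
  c : Fin q → ℤ
  f : Fin q → M × M × Y → ℂ
  F : Fin r → M × M × Y → ℂ
  ψ : Fin r → M × M × Y → ℝ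

/-- the dimension -/
def SPB.dd {M Y : Type} {r n q : ℕ} (S : SPB M Y r n q) (x : Fin r → ℤ) : ℝ :=
  S.D₀ * ∏ p, (S.a₀ p + ∑ j, S.α p j * (x j : ℝ))

/-- the point `a s + β x` -/
def SPB.pt {M Y : Type} {r n q : ℕ} (S : SPB M Y r n q) (s : Fin q) (x : Fin r → ℤ) : Fin r → ℤ :=
  fun j => S.a s j + S.β j * x j

/-- facts about the data; `L` is the set of the indices, `KM` are the kernels -/
structure SPD {M Y : Type} [TopologicalSpace M] [MeasurableSpace M] [TopologicalSpace Y] [MeasurableSpace Y] {r n q : ℕ}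
    (S : SPB M Y r n q) (L : Set (Fin r → ℕ)) (KM : L → M → M → ℂ) (μ : Measure M) (ν : Measure Y) : Prop where
  ker : Ker μ KM
  G : PD S.G
  quad : ∀ u w, S.Q (u + w) = S.Q u + S.Q w - S.Q 0 + u ⬝ᵥ (S.G *ᵥ w)
  D₀ : 0 < S.D₀
  a₀ : ∀ p, 0 < S.a₀ p
  α : ∀ p j, 0 ≤ S.α p j
  αe : ∀ p, ∃ j, 0 < S.α p j
  β : ∀ j, 1 ≤ S.β j
  cls : ∀ x : Fin r → ℕ, (x ∈ L → ∑ s, (if ∀ j, S.a s j ≤ x j ∧ S.β j ∣ x j - S.a s j then S.c s else 0) = 1) ∧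
    (x ∉ L → ∑ s, (if ∀ j, S.a s j ≤ x j ∧ S.β j ∣ x j - S.a s j then S.c s else 0) = 0)
  cf : ∀ s, Continuous (S.f s)
  cF : ∀ j, Continuous (S.F j)
  cψ : ∀ j, Continuous (S.ψ j)
  ψ : ∀ j z, 0 ≤ S.ψ j z
  F : ∀ j z, ‖S.F j z‖ ^ 2 ≤ Real.exp (-S.ψ j z)
  int : ∀ (s : Fin q) (x : Fin r → ℕ), ∃ i : L, (∀ j, i.1 j = S.a s j + S.β j * x j) ∧ ∀ g g' : M, KM i g g' =
    (S.dd (fun j => i.1 j) : ℂ) * ∫ k, S.f s (g, g', k) * ∏ j, S.F j (g, g', k) ^ x j ∂ν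
  geo : ∃ C : ℝ, 0 ≤ C ∧ ∀ g g' : M, ∃ ρ : ℝ, 0 ≤ ρ ∧ (∀ j k, ‖S.F j (g, g', k) - 1‖ ≤ C * ρ) ∧
    ∀ c : Fin n → Fin r, (∀ p, 0 < S.α p (c p)) → ∀ R : ℝ, 1 ≤ R →
      (R * ρ ^ 2) ^ ((r : ℝ) / 2) * ∫ k, ∏ p, (1 + R * S.ψ (c p) (g, g', k))⁻¹ ∂ν ≤ C

open Classical in
/-- the indices with all coordinates less than `N` -/
def TS {r : ℕ} (L : Set (Fin r → ℕ)) (N : ℕ) : Finset L :=
  if h : {i : L | ∀ j, i.1 j < N}.Finite then h.toFinset else ∅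

theorem mem_TS {r : ℕ} (L : Set (Fin r → ℕ)) (N : ℕ) (i : L) : i ∈ TS L N ↔ ∀ j, i.1 j < N := by
  classical
  have h : {i : L | ∀ j, i.1 j < N}.Finite := by
    have h1 : {f : Fin r → ℕ | ∀ j, f j ∈ Set.Iio N}.Finite := Set.Finite.pi' fun _ => Set.finite_Iio N
    refine Set.Finite.of_finite_image (f := fun i : L => i.1) (h1.subset ?_) Subtype.val_injective.injOn
    rintro x ⟨i, hi, rfl⟩ j
    exact hi j
  rw [TS, dif_pos h]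
  simp

/-- the number of the `x ≥ 0` with `a s j + β j x < N` -/
def SPB.nn {M Y : Type} {r n q : ℕ} (S : SPB M Y r n q) (s : Fin q) (N : ℕ) (j : Fin r) : ℕ :=
  (N - S.a s j + S.β j - 1) / S.β j

/-- the sum over the class `s` -/
def SPB.cs {M Y : Type} {r n q : ℕ} (S : SPB M Y r n q) (s : Fin q) (N : ℕ) (t : ℝ) (z : Fin r → ℂ) : ℂ :=
  ∑ x ∈ bxn (0 : Fin r → ℤ) (S.nn s N), (S.dd (S.pt s x) : ℂ) * eu (-(t * (S.Q (S.pt s x) : ℝ))) * ∏ j, z j ^ (x j).toNat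

/-- SSUM. DAMP for the matrix `β i β j G i j` (positive definite) at the time `-t` (`WWF.even`), the phase `φ x = -t Q (pt s x)` (`SPD.quad`: `Q (pt s (x + h)) = Q (pt s x) + (Q (β h) - Q 0 + a s·G (β h)) + x·G' h`), the linear forms `S.a₀ p + ∑ α p j a s j + ∑ j, α p j β j x j` (their factors `β j` are bounded). `nn s N j ≤ N`. Finitely many `s` (`WWF.mono` in `c`). -/
def S_SSUM : Prop := ∀ (M Y : Type) [TopologicalSpace M] [MeasurableSpace M] [TopologicalSpace Y] [MeasurableSpace Y]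
  (r n q : ℕ) (S : SPB M Y r n q) (L : Set (Fin r → ℕ)) (KM : L → M → M → ℂ) (μ : Measure M) (ν : Measure Y),
  SPD S L KM μ ν → ∃ (C : ℝ) (c : ℕ), 0 ≤ C ∧ 1 ≤ c ∧ ∀ (s : Fin q) (N : ℕ) (t : ℝ) (z : Fin r → ℂ), 1 ≤ N →
    (∀ j, ‖z j‖ ≤ 1) →
    ‖S.cs s N t z‖ ≤ C * WW N c t ^ ((r : ℝ) / 2) * ∏ p, ∑ j, S.α p j * NNf N ‖z j‖

def M_SSUM : Prop := S_WWF → S_DAMP → S_SSUM

/-- ISUM. `‖F j‖ ≤ exp (-ψ j / 2) ≤ 1`, `1 - ‖F j‖ ≥ c ψ j` (`ψ j` is bounded), so `NNf N ‖F j‖ ≤ C N (1 + N ψ j)⁻¹`. `∏ p, ∑ j, α p j (1 + N ψ j)⁻¹` is the sum over the maps `c : Fin n → Fin r` of `∏ p, α p (c p) (1 + N ψ (c p))⁻¹`; the terms with some `α p (c p) = 0` vanish. `|sg r R - sg r (2R)| ≤ |sg r R - 1| + |sg r (2R) - 1| ≤ C (R ρ)^r` (`CUT.near`),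
`(R ρ)^r = (R / √N)^r (N ρ²)^(r/2)`, and `SPD.geo` with `N` instead of `R`. Second claim: `‖sg‖ ≤ 1 + 2^r`, `NNf N x ≤ N`, and `R / √N ≥ 1/2`. (`f s` is bounded.) -/
def S_ISUM : Prop := ∀ (M Y : Type) [TopologicalSpace M] [CompactSpace M] [T2Space M] [SecondCountableTopology M] [MeasurableSpace M] [BorelSpace M]
  [TopologicalSpace Y] [CompactSpace Y] [T2Space Y] [SecondCountableTopology Y] [MeasurableSpace Y] [BorelSpace Y]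
  (r n q : ℕ) (S : SPB M Y r n q) (L : Set (Fin r → ℕ)) (KM : L → M → M → ℂ) (μ : Measure M) (ν : Measure Y)
  [IsProbabilityMeasure ν], SPD S L KM μ ν → ∃ C : ℝ, 0 ≤ C ∧ ∀ (s : Fin q) (g g' : M) (N R : ℕ), 1 ≤ N → 1 ≤ R →
    ∫ k, ‖sg r R (fun j => S.F j (g, g', k)) - sg r (2 * R) (fun j => S.F j (g, g', k))‖ * ‖S.f s (g, g', k)‖ *
      ∏ p, ∑ j, S.α p j * NNf N ‖S.F j (g, g', k)‖ ∂ν ≤ C * ((N : ℝ) ^ n * ((R : ℝ) / (N : ℝ) ^ (1 / 2 : ℝ)) ^ r) ∧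
    (N ≤ 4 * R ^ 2 → ∫ k, ‖sg r R (fun j => S.F j (g, g', k))‖ * ‖S.f s (g, g', k)‖ *
      ∏ p, ∑ j, S.α p j * NNf N ‖S.F j (g, g', k)‖ ∂ν ≤ C * ((N : ℝ) ^ n * ((R : ℝ) / (N : ℝ) ^ (1 / 2 : ℝ)) ^ r))

def M_ISUM : Prop := S_CUTS → S_ISUM

/-- the kernel with the cutoff `sg r R` -/
def SPB.kc {M Y : Type} [MeasurableSpace Y] {r n q : ℕ} (S : SPB M Y r n q) (ν : Measure Y) (N R : ℕ) (t : ℝ) (g g' : M) : ℂ :=
  ∑ s, (S.c s : ℂ) * ∫ k, sg r R (fun j => S.F j (g, g', k)) * S.f s (g, g', k) *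
    S.cs s N t (fun j => S.F j (g, g', k)) ∂ν

open Classical in
/-- the multipliers of the kernel with the cutoff -/
def SPB.mm {M Y : Type} {r n q : ℕ} (S : SPB M Y r n q) (L : Set (Fin r → ℕ)) (N R : ℕ) (b : Fin r → ℕ) (t : ℝ) : ℂ :=
  ∑ k ∈ bx (0 : Fin r → ℤ) (2 * r * R + 1), if ∃ x ∈ L, (∀ j, x j < N) ∧ ∀ j, (b j : ℤ) = x j + S.β j * k j then
    (sc r R k : ℂ) * ((S.dd (fun j => b j - S.β j * k j) / S.dd (fun j => b j) : ℝ) : ℂ) *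
      eu (-(t * (S.Q (fun j => b j - S.β j * k j) : ℝ))) else 0

/-- KWSX. `CUT.sum`: `sg r R (F) = ∑ k, sc r R k ∏ F j ^ k j`, so `kc = ∑ s, c s ∑ k ∑ x, sc r R k dd (pt s x) eu (-t Q (pt s x)) ∫ f s ∏ F j ^ (k j + x j)`, and by `SPD.int` for `s`, `x + k` the last integral times `dd b` is `KM b`, `b = pt s (x + k)`. Collect the terms with the same `b` and `k`: `y = b - β k = pt s x` is a point of `ℕ^r` with coordinates `< N`, and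
`∑ s, c s [y = pt s x for some x ≥ 0]` is `1` if `y ∈ L` and `0` otherwise (`cls`). All coordinates of `b` are less than `N + (2 r R + 1) ∑ β`. Second claim: `sg r 1 = 1` (`CUT.one`), the same computation. -/
def S_KWSX : Prop := ∀ (M Y : Type) [TopologicalSpace M] [CompactSpace M] [T2Space M] [SecondCountableTopology M] [MeasurableSpace M] [BorelSpace M]
  [TopologicalSpace Y] [CompactSpace Y] [T2Space Y] [SecondCountableTopology Y] [MeasurableSpace Y] [BorelSpace Y]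
  (r n q : ℕ) (S : SPB M Y r n q) (L : Set (Fin r → ℕ)) (KM : L → M → M → ℂ) (μ : Measure M) (ν : Measure Y)
  [IsProbabilityMeasure ν], SPD S L KM μ ν → 1 ≤ r →
  (∀ (N R L₁ : ℕ) (t : ℝ) (g g' : M), 1 ≤ R → N + (2 * r * R + 1) * ∑ j, S.β j ≤ L₁ →
    S.kc ν N R t g g' = ∑ b ∈ TS L L₁, S.mm L N R b.1 t * KM b g g') ∧
  ∀ (N : ℕ) (t : ℝ) (g g' : M), S.kc ν N 1 t g g' = ∑ b ∈ TS L N, eu (-(t * (S.Q (fun j => b.1 j) : ℝ))) * KM b g g'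

def M_KWSX : Prop := S_CUTS → S_KWSX

/-- MULZ. The condition in `mm` for given `b`, `k`: `b j - β j k j ∈ [0, N)` and `b - β k ∈ L`; by `cls` the indicator function is `∑ s, c s [a s j ≤ b j - β j k j < N for all j] [β j ∣ b j - a s j for all j]`. For the `s` with `β j ∣ b j - a s j` (integers) let `z j = (b j - a s j) / β j`, `b - β k = pt s (z - k)`, `0 ≤ z j - k j < nn s N j`; if some `z j < 0` the sum is empty. MULS for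
`l = 0`, `u = nn s N`, `v = z`, the phase `-t Q (pt s x)` (as in SSUM) and the linear forms `S.a₀ p + ∑ α p j (a s j + β j x j)`. The product of the forms at `z` is `dd b / D₀`. -/
def S_MULZ : Prop := ∀ (M Y : Type) [TopologicalSpace M] [MeasurableSpace M] [TopologicalSpace Y] [MeasurableSpace Y]
  (r n q : ℕ) (S : SPB M Y r n q) (L : Set (Fin r → ℕ)) (KM : L → M → M → ℂ) (μ : Measure M) (ν : Measure Y),
  SPD S L KM μ ν → ∃ (C : ℝ) (c : ℕ), 0 ≤ C ∧ 1 ≤ c ∧ ∀ (N R : ℕ) (b : Fin r → ℕ) (t : ℝ), 1 ≤ R →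
    ‖S.mm L N R b t‖ ≤ C * ((R : ℝ) ^ (-(r : ℝ)) * WW R c t ^ ((r : ℝ) / 2))

def M_MULZ : Prop := S_WWF → S_MULS → S_MULZ

/-- MULF. `mm = ∑ k, γ k eu (-t Q (b - β k))`, so the integral is `∑ k, γ k ∫ χ e(-(j + Q (b - β k)) t)`: the terms with `Q (b - β k) ≠ -j` are at most `E₁ ∑ ‖γ k‖`, the others at most `E₂ max ‖γ k‖` times their number. `‖γ k‖ ≤ |sc r R k|` (`dd` is positive and increasing on `ℕ^r`, `k ≥ 0`); `∑ |sc r R k| ≤ 2^r` (`CUT.nn`, `CUT.pow` at `z = 1`), `|sc r R k| ≤ C R^(-r)` (`CUT.le`).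
The number: `Λ w = 2 (Q w - Q 0) - w·G w` is additive by `quad`, so `Λ w = ∑ j, w j Λ (e j)`; `2 (Q (b - β k) - Q b) = Λ (-β k) + (β k)·G (β k) - 2 b·G (β k)` is `k·G' k + l·k` with `G' i j = β i β j G i j` (PD), and `|l j| ≤ C N` (`mm ≠ 0` only if the coordinates of `b` are at most `C N`). VZER with the box of side `2 r R + 1`, `X = C N`: at most `C N^ε R^(r-2)`. -/
def S_MULF : Prop := ∀ (M Y : Type) [TopologicalSpace M] [MeasurableSpace M] [TopologicalSpace Y] [MeasurableSpace Y]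
  (r n q : ℕ) (S : SPB M Y r n q) (L : Set (Fin r → ℕ)) (KM : L → M → M → ℂ) (μ : Measure M) (ν : Measure Y),
  SPD S L KM μ ν → 2 ≤ r → ∀ ε : ℝ, 0 < ε → ∃ C : ℝ, 0 ≤ C ∧ ∀ (N R : ℕ) (b : Fin r → ℕ), 1 ≤ R → R ≤ N →
    ∀ (χ : ℝ → ℝ) (E₁ E₂ : ℝ), TC χ → 0 ≤ E₁ → 0 ≤ E₂ →
    (∀ j : ℤ, j ≠ 0 → ‖∫ t in (0 : ℝ)..1, (χ t : ℂ) * eu (-(j * t))‖ ≤ E₁) → ‖∫ t in (0 : ℝ)..1, (χ t : ℂ)‖ ≤ E₂ →
    ∀ j : ℤ, ‖∫ t in (0 : ℝ)..1, (χ t : ℂ) * S.mm L N R b t * eu (-(j * t))‖ ≤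
      C * (E₁ + E₂ * (N : ℝ) ^ ε / (R : ℝ) ^ 2)

def M_MULF : Prop := S_CUTS → S_VZER → S_MULF

/-- the pieces of the kernel, `i ≤ J / 2` -/
def SPB.kw {M Y : Type} [MeasurableSpace Y] {r n q : ℕ} (S : SPB M Y r n q) (ν : Measure Y) (J i : ℕ) (t : ℝ) (g g' : M) : ℂ :=
  if i < J / 2 then S.kc ν (2 ^ J) (2 ^ i) t g g' - S.kc ν (2 ^ J) (2 ^ (i + 1)) t g g' else S.kc ν (2 ^ J) (2 ^ i) t g g'

/-- their multipliers -/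
def SPB.mw {M Y : Type} {r n q : ℕ} (S : SPB M Y r n q) (L : Set (Fin r → ℕ)) (J i : ℕ) (b : Fin r → ℕ) (t : ℝ) : ℂ :=
  if i < J / 2 then S.mm L (2 ^ J) (2 ^ i) b t - S.mm L (2 ^ J) (2 ^ (i + 1)) b t else S.mm L (2 ^ J) (2 ^ i) b t

/-- facts about the pieces -/
structure KSF {M Y : Type} [TopologicalSpace M] [MeasurableSpace Y] {r n q : ℕ} (S : SPB M Y r n q) (L : Set (Fin r → ℕ))
    (KM : L → M → M → ℂ) (ν : Measure Y) (C : ℝ) (c K₀ : ℕ) (ε : ℝ) (J : ℕ) : Prop where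
  cont : ∀ i, i ≤ J / 2 → Continuous fun z : ℝ × M × M => S.kw ν J i z.1 z.2.1 z.2.2
  sum : ∀ t g g', ∑ a ∈ TS L (2 ^ J), eu (-(t * (S.Q (fun j => a.1 j) : ℝ))) * KM a g g' =
    ∑ i ∈ Finset.range (J / 2 + 1), S.kw ν J i t g g'
  exp : ∀ i, i ≤ J / 2 → ∀ t g g', S.kw ν J i t g g' = ∑ b ∈ TS L (K₀ * 2 ^ J), S.mw L J i b.1 t * KM b g g'
  mcont : ∀ i b, Continuous (S.mw L J i b)
  mper : ∀ i b t, S.mw L J i b (t + 1) = S.mw L J i b t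
  sup : ∀ i, i ≤ J / 2 → ∀ t g g', ‖S.kw ν J i t g g'‖ ≤ C * (((2 ^ J : ℕ) : ℝ) ^ n * WW (2 ^ J) c t ^ ((r : ℝ) / 2) *
    (((2 ^ i : ℕ) : ℝ) / ((2 ^ J : ℕ) : ℝ) ^ (1 / 2 : ℝ)) ^ r)
  mul : ∀ i, i ≤ J / 2 → ∀ b t, ‖S.mw L J i b t‖ ≤ C * (((2 ^ i : ℕ) : ℝ) ^ (-(r : ℝ)) * WW (2 ^ i) c t ^ ((r : ℝ) / 2))
  fou : ∀ i, i ≤ J / 2 → ∀ (b : Fin r → ℕ) (χ : ℝ → ℝ) (E₁ E₂ : ℝ), TC χ → 0 ≤ E₁ → 0 ≤ E₂ →
    (∀ j : ℤ, j ≠ 0 → ‖∫ t in (0 : ℝ)..1, (χ t : ℂ) * eu (-(j * t))‖ ≤ E₁) → ‖∫ t in (0 : ℝ)..1, (χ t : ℂ)‖ ≤ E₂ →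
    ∀ j : ℤ, ‖∫ t in (0 : ℝ)..1, (χ t : ℂ) * S.mw L J i b t * eu (-(j * t))‖ ≤
      C * (E₁ + E₂ * ((2 ^ J : ℕ) : ℝ) ^ ε / ((2 ^ i : ℕ) : ℝ) ^ 2)

/-- KWSF. `exp`: KWSX with `L₁ = K₀ 2^J` (`R ≤ 2^(J/2) ≤ 2^J`; for `i < J/2` `R = 2^(i+1) ≤ 2^(J/2)`). `sum`: the sum telescopes to `kc` with `R = 1`. `mcont`, `mper`: `mm` is a finite sum of the functions `eu (-t m)`, `m ∈ ℤ`. `cont`: from `exp` (`Ker.cont`). `sup`: `kw = ∑ s, c s ∫ (sg r (2^i) - sg r (2^(i+1))) f s cs`; SSUM (`‖F j‖ ≤ 1`) and ISUM; for `i = J/2`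
`2^J ≤ 4 (2^i)²`. `mul`: MULZ (for `R = 2^(i+1)`: `WWF.scale`, `mono`). `fou`: MULF. The constants `c`, `K₀` do not depend on `ε`. -/
def S_KWSF : Prop := ∀ (M Y : Type) [TopologicalSpace M] [CompactSpace M] [T2Space M] [SecondCountableTopology M] [MeasurableSpace M] [BorelSpace M]
  [TopologicalSpace Y] [CompactSpace Y] [T2Space Y] [SecondCountableTopology Y] [MeasurableSpace Y] [BorelSpace Y]
  (r n q : ℕ) (S : SPB M Y r n q) (L : Set (Fin r → ℕ)) (KM : L → M → M → ℂ) (μ : Measure M) (ν : Measure Y)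
  [IsProbabilityMeasure ν], SPD S L KM μ ν → 2 ≤ r →
  ∃ c K₀ : ℕ, 1 ≤ c ∧ ∀ ε : ℝ, 0 < ε → ∃ C : ℝ, 0 ≤ C ∧ ∀ J : ℕ, KSF S L KM ν C c K₀ ε J

def M_KWSF : Prop := S_WWF → S_CUTS → S_SSUM → S_ISUM → S_KWSX → S_MULZ → S_MULF → S_KWSF

/-- JADD. `JJ` is additive in the kernel: `k i` and `G` are continuous, so bounded on `[-1, 1] × M × M`, the `χ l` are measurable and bounded: all integrals exist (`JJ` is an interval integral of a function which is bounded and measurable in `(t, s)`; the inner double integral over `M` is continuous in `(t, s)` for continuous `k`). -/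
def S_JADD : Prop := ∀ (M : Type) [TopologicalSpace M] [CompactSpace M] [T2Space M]
  [SecondCountableTopology M] [MeasurableSpace M] [BorelSpace M] (μ : Measure M)
  [IsProbabilityMeasure μ] (m : ℕ) (χ : Fin m → ℝ → ℝ), (∀ l, TC (χ l)) → (∀ t, ∑ l, χ l t = 1) →
  ∀ (I : ℕ) (k : ℕ → ℝ → M → M → ℂ), (∀ i, i < I → Continuous fun z : ℝ × M × M => k i z.1 z.2.1 z.2.2) →
  ∀ G : ℝ → M → ℂ, JC G → JJ μ (fun t x y => ∑ i ∈ Finset.range I, k i t x y) G =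
    ∑ i ∈ Finset.range I, ∑ l, JJ μ (fun t x y => (χ l t : ℂ) * k i t x y) G

/-- GSUS. The sum of the bounds. `N = 2^J`, `κ = p/2 - 1`, `a = κ r/2 > 1`, `b = r/2 ≥ 1`, `W i = 2^i / √N ≤ 1`, `X = (n + r) κ - 2 = n κ + 2 a - 2`. First claim: the integrand is `C^(κ+1) N^(nκ) W^(2a) 2^(-ir) WW N ^ a WW (2^i) ^ b`; VMAJ for `θ = 1` (this gives `η`; `(2^i)² ≤ N`): `≤ C' N^(nκ + 2a - 2) W^(2a-1)`. Second claim: the left side is at most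
`C' N^(nκ) (N^ε/P)^a W^(2a) N^(2ε) P W^(-2) = C' N^(nκ + (a+2)ε) P^(1-a) W^(2a-2)` (`N / 2^(2i) = W^(-2) ≥ 1`), and `P^(1-a) ≤ C' N^((2-η)(a-1))`: `≤ C' N^(X + (a+2)ε - η(a-1))`; take `ε` with `(a + 2) ε ≤ η (a - 1)/2`. `Γ i = C' N^X W^(2a-1)`, `Γ' = C' N^(X - η(a-1)/2)`. The sum: a geometric series, and `(1 + log N)² ≤ C' N^δ`. -/
def S_GSUS : Prop := ∀ (r n c : ℕ) (p : ℝ), 2 ≤ r → 1 ≤ c → 2 + 4 / (r : ℝ) < p →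
  ∃ η ε : ℝ, 0 < η ∧ η ≤ 1 ∧ 0 < ε ∧ ∀ C : ℝ, 0 ≤ C → ∃ C' : ℝ, 0 ≤ C' ∧ ∀ J : ℕ,
    ∃ (Γ : ℕ → ℝ) (Γ' : ℝ), (∀ i, 0 ≤ Γ i) ∧ 0 ≤ Γ' ∧
      (∀ i, i ≤ J / 2 → ∀ (X₀ : ℕ) (P₀ : ℝ), (X₀ : ℝ) ≤ ((2 ^ J : ℕ) : ℝ) ^ η → 0 < P₀ → P₀ ≤ ((2 ^ J : ℕ) : ℝ) ^ (-2 + η) →
        2 * P₀ * X₀ ≤ 1 →
        ∫ t in (0 : ℝ)..1, ai 0 X₀ P₀ t *
          ((C * (((2 ^ J : ℕ) : ℝ) ^ n * WW (2 ^ J) c t ^ ((r : ℝ) / 2) *
              (((2 ^ i : ℕ) : ℝ) / ((2 ^ J : ℕ) : ℝ) ^ (1 / 2 : ℝ)) ^ r)) ^ (p / 2 - 1) *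
            (C * (((2 ^ i : ℕ) : ℝ) ^ (-(r : ℝ)) * WW (2 ^ i) c t ^ ((r : ℝ) / 2)))) ≤ Γ i) ∧
      (∀ i, i ≤ J / 2 → ∀ P : ℝ, 0 < P → ((2 ^ J : ℕ) : ℝ) ^ (-2 + η) ≤ C * P → P ≤ 1 / ((2 ^ J : ℕ) : ℝ) →
        (C * (((2 ^ J : ℕ) : ℝ) ^ n * (C * ((2 ^ J : ℕ) : ℝ) ^ ε / P) ^ ((r : ℝ) / 2) *
            (((2 ^ i : ℕ) : ℝ) / ((2 ^ J : ℕ) : ℝ) ^ (1 / 2 : ℝ)) ^ r)) ^ (p / 2 - 1) *
          (C * (C * ((2 ^ J : ℕ) : ℝ) ^ ε * P + C * ((2 ^ J : ℕ) : ℝ) * P * ((2 ^ J : ℕ) : ℝ) ^ ε / ((2 ^ i : ℕ) : ℝ) ^ 2)) ≤ Γ') ∧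
      ∑ i ∈ Finset.range (J / 2 + 1), (Γ i ^ (2 / p) + C * (1 + Real.log ((2 ^ J : ℕ) : ℝ)) * Γ' ^ (2 / p)) ≤
        C' * ((2 ^ J : ℕ) : ℝ) ^ ((((n : ℝ) + r) * (p / 2 - 1) - 2) * (2 / p))

def M_GSUS : Prop := S_WWF → S_VMAJ → S_GSUS

/-- LOCS. Let `p'` be the exponent, `p = (2 + 4/r + p')/2`. `c`, `K₀` from KWSF, then `η`, `ε` from GSUS for `p`, `c`, then the constants of KWSF (for `ε`) and of ARCS (for `c`, `ε`, `η`); let `C` be the largest of these constants (and `≥ 1`). Given `F`, `u`, `N₀` choose `J` with `N₀ ≤ 2^J ≤ 2 N₀` (`N₀ ≥ 1` if `F ≠ ∅`); `F ⊆ T = TS L (2^J)` (`sz (wG i.1) ≤ N₀`). For `G` with `‖G‖ ≤ 1`: TTA with `η = 1`,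
`φ a = -Q a`: the square is at most `(∑ nsq (u a)) ‖JJ (∑ kw i) G‖` (`KSF.sum`). ARCS gives the functions `ai 0 X₀ P₀`, `χ l`; JADD. The terms with `ai`: KIA with `A`, `E` from `KSF.sup`, `mul` (`Nice`: WWF; the bilinear form: KOP and `KSF.exp`) and GSUS. The terms with `χ l`: KIB for `T = TS L (K₀ 2^J)`, `m b = mw`, with `A = C N^n (C N^ε/P)^(r/2) (2^i/√N)^r` (`KSF.sup`, and `WW ≤ C N^ε/P` where `χ l t ≠ 0`) and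
`E = C (C N^ε P + C N P N^ε / 2^(2i))` (`KSF.fou`). So `‖∫∫ conj G U‖² ≤ (∑ nsq (u a)) C' N^(((n+r)(p/2-1)-2)(2/p)) (∫∫ ‖G‖)^(2-2/p)`, as `m ≤ C (1 + log N)`. Bernstein (BERN): `‖U t x‖² ≤ (∑ a ∈ T, ‖KM a x x‖) ∑ nsq ≤ C N^(n+r) ∑ nsq`: `‖KM a x x‖ ≤ C dd a ≤ C N^n` by `SPD.int` (every `a ∈ L` is some `pt s x` by `cls`). LEV with `p`, `p'`:
`∫∫ ‖U‖^p' ≤ C (N^((n+r)/2))^(p'-p) N^((n+r)(p/2-1)-2) (∑ nsq)^(p'/2)`, and the exponent of `N` is `(n+r) p'/2 - (n+r) - 2`. As LOCW (LOCW.lean), LOCV. -/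
def S_LOCS : Prop := ∀ (M Y : Type) [TopologicalSpace M] [CompactSpace M] [T2Space M] [SecondCountableTopology M] [MeasurableSpace M] [BorelSpace M]
  [TopologicalSpace Y] [CompactSpace Y] [T2Space Y] [SecondCountableTopology Y] [MeasurableSpace Y] [BorelSpace Y]
  (r n q : ℕ) (S : SPB M Y r n q) (L : Set (Fin r → ℕ)) (KM : L → M → M → ℂ) (μ : Measure M) (ν : Measure Y)
  [IsProbabilityMeasure μ] [IsProbabilityMeasure ν], SPD S L KM μ ν → 2 ≤ r →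
  LOCH μ KM (n : ℝ) (fun i : L => wG i.1) (fun w => -S.Q (w - 1)) (2 + 4 / (r : ℝ))

def M_LOCS : Prop := S_KB → S_BERN → S_WWF → S_KOP → S_LEV → S_TTA → S_KIA → S_KIB → S_ARCS → S_KWSF → S_JADD → S_GSUS → S_LOCS

/-! ### the data of a symmetric space -/

/-- CLAS. For every `ρ` with `ρ j < β j` the set `{x : ρ + β x ∈ L}` is closed upwards; DICK gives finitely many `v`, `c`; take all pairs `(ρ, v)`, `a = ρ + β v ∈ L`. For `x = ρ₀ + β y`: `a j ≤ x j` and `β j ∣ x j - a j` for all `j` iff `ρ = ρ₀` and `v ≤ y`. -/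
def S_CLAS : Prop := ∀ (r : ℕ) (β : Fin r → ℕ) (L : Set (Fin r → ℕ)), (∀ j, 1 ≤ β j) →
  (∀ x ∈ L, ∀ j, (fun i => x i + if i = j then β j else 0) ∈ L) →
  ∃ (q : ℕ) (a : Fin q → Fin r → ℕ) (c : Fin q → ℤ), (∀ s, a s ∈ L) ∧ ∀ x : Fin r → ℕ,
    (x ∈ L → ∑ s, (if ∀ j, a s j ≤ x j ∧ β j ∣ x j - a s j then c s else 0) = 1) ∧
    (x ∉ L → ∑ s, (if ∀ j, a s j ≤ x j ∧ β j ∣ x j - a s j then c s else 0) = 0)

def M_CLAS : Prop := S_DICK → S_CLAS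

/-- SPDX. `β j = 2 b j`, `b j ≥ 2` from `SO.beta`; `G i j = ε i ⬝ᵥ (A *ᵥ ε j)`, `A = (rd Φ).A`: positive definite and `quad` by QUAD (`(rd Φ).Q` is the quadratic form, `QF.polar`), the `ε j` are independent (`SO.sj`). `a₀ p = p.2 ⬝ᵥ 1 > 0`, `α p j = p.2 ⬝ᵥ ε j` for `p ∈ PA Φ x₀` (numbered by `Fin n`: `equivFin`), `αe`: `SO.pos`; for `p ∈ pos Φ` not in `PA` `p.2 ⬝ᵥ ε j = 0`, `D₀ = ∏ (p ∉ PA) (p.2 ⬝ᵥ 1) / ∏ p.2 ⬝ᵥ 1`.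
`F j (g, g', k) = FJ σ Φ E (ε j) (g'⁻¹ * g * ik hK k)`, `ψ j` the same with `np`. `SL` is closed under `x ↦ x + β j e j` (SHWM, DERJ), CLAS; `f s (g, g', k) = f (g'⁻¹ * g * ik hK k)` for a function `f` with `SHW .. (∑ j, a s j • ε j) f` (`a s ∈ SL`). `int`: `f ∏ FJ ^ x` is an `SHW` function of the weight `∑ j, (a s j + β j x j) • ε j` (SHWM, DERJ; powers by induction; `x = 0`), `SPX.int`.
Continuity: the functions in `PG H σ` are `C2H` (PGXX), so continuous; `np` is a polynomial in the entries of `g` and `σ g` (`SymP.cont`). `F`: DERJ. `geo`: GEOQ for the element `g'⁻¹ * g`. -/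
def S_SPDX : Prop := ∀ (N : ℕ) (H K : Subgroup (SU N)) (σ : H →* H)
  (τ : Matrix (Fin N) (Fin N) ℂ →ₗ[ℝ] Matrix (Fin N) (Fin N) ℂ) (A : Submodule ℝ (Matrix (Fin N) (Fin N) ℂ))
  (l : ℕ) (Φ : RT l) (B : Matrix (Fin l) (Fin l) ℤ) (Hc : Fin l → Matrix (Fin N) (Fin N) ℂ)
  (E : (Fin l → ℤ) × (Fin l → ℤ) → Matrix (Fin N) (Fin N) ℂ) (x₀ : Fin l → ℝ) (θ : Matrix (Fin l) (Fin l) ℤ)
  (r : ℕ) (s : Fin r → Fin l) (ε : Fin r → Fin l → ℤ), SD H K σ τ A Φ B Hc E x₀ θ s ε →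
  ∀ (c k : ℝ) (D : ℕ) (μ : Measure H) [IsProbabilityMeasure μ] [μ.IsMulLeftInvariant]
  (νK : Measure K) [IsProbabilityMeasure νK] [νK.IsMulLeftInvariant] (hK : K ≤ H)
  (KM : SL (H := H) K σ Φ Hc E ε → H → H → ℂ), SPX σ Φ Hc E ε c k D μ νK hK KM →
  ∃ (q : ℕ) (S : SPB H K r (PA Φ x₀).card q), (∀ m, S.Q m = QZ Φ ε m) ∧
    SPD S (SL (H := H) K σ Φ Hc E ε) KM μ νK

def M_SPDX : Prop := S_WFAC → S_QUAD → S_PGXX → S_SHWM → S_DERJ → S_GEOQ → S_CLAS → S_SPDX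

/-- STRS. As STRW (STRW.lean), with `SPX.eig` instead of EIGW and `StrIneqM` instead of `StrIneqG` (the same, for right `K`-invariant functions). The comparison of the norms: `1 + k (QZ (m) - Q 1)` and `(sz (wG m))²`: `Q (1 + ν) - Q 1 = Q ν + 1·A ν ≥ Q ν ≥ c |ν|²` for `ν = ∑ j, m j • ε j ≥ 0` (QUAD), `|ν| ≥ |m|` (`SO.sj`, `e01`), and `Q (1 + ν) ≤ C (1 + |m|)²`. -/
def S_STRS : Prop := ∀ (N : ℕ) (H K : Subgroup (SU N)) (σ : H →* H)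
  (τ : Matrix (Fin N) (Fin N) ℂ →ₗ[ℝ] Matrix (Fin N) (Fin N) ℂ) (A : Submodule ℝ (Matrix (Fin N) (Fin N) ℂ))
  (l : ℕ) (Φ : RT l) (B : Matrix (Fin l) (Fin l) ℤ) (Hc : Fin l → Matrix (Fin N) (Fin N) ℂ)
  (E : (Fin l → ℤ) × (Fin l → ℤ) → Matrix (Fin N) (Fin N) ℂ) (x₀ : Fin l → ℝ) (θ : Matrix (Fin l) (Fin l) ℤ)
  (r : ℕ) (s : Fin r → Fin l) (ε : Fin r → Fin l → ℤ), SD H K σ τ A Φ B Hc E x₀ θ s ε → 2 ≤ r →
  ∀ (c k : ℝ) (D : ℕ), KC Φ Hc E c k → (∀ X : Fin D → Matrix (Fin N) (Fin N) ℂ, KFrame H X → FrameH H c X) →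
  ∀ (μ : Measure H) [IsProbabilityMeasure μ] [μ.IsMulLeftInvariant]
  (νK : Measure K) [IsProbabilityMeasure νK] [νK.IsMulLeftInvariant] (hK : K ≤ H)
  (KM : SL (H := H) K σ Φ Hc E ε → H → H → ℂ), SPX σ Φ Hc E ε c k D μ νK hK KM →
  LOCH μ KM ((PA Φ x₀).card : ℝ) (fun i : SL (H := H) K σ Φ Hc E ε => wG i.1) (fun w => -QZ Φ ε (w - 1)) (2 + 4 / (r : ℝ)) →
  ∀ p : ℝ, 2 + 4 / (r : ℝ) < p → ∀ a b : ℝ, a ≤ b → ∃ C : ℝ, StrIneqM H K D (r + (PA Φ x₀).card) μ p a b C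

def M_STRS : Prop := S_NQ → S_KB → S_HAAR → S_CALH → S_WFAC → S_QUAD → S_ALLX → S_STRS

/-- the upper bound for symmetric spaces of rank at least two -/
def MainUpM : Prop := ∀ (N : ℕ) (H K : Subgroup (SU N)) (σ : H →* H)
  (τ : Matrix (Fin N) (Fin N) ℂ →ₗ[ℝ] Matrix (Fin N) (Fin N) ℂ) (A : Submodule ℝ (Matrix (Fin N) (Fin N) ℂ)) (D d r : ℕ),
  IsClosed (H : Set (SU N)) → IsConnected (H : Set (SU N)) → SimpleH H → SymP H K σ τ → MaxAbP H τ A →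
  Module.finrank ℝ (Submodule.span ℝ (lie H)) = D →
  Module.finrank ℝ (Submodule.span ℝ {X | X ∈ lie H ∧ τ X = -X}) = d → Module.finrank ℝ A = r → 2 ≤ r →
  ∀ p : ℝ, 2 + 4 / (r : ℝ) < p → ∀ μ : Measure H, IsProbabilityMeasure μ → μ.IsMulLeftInvariant →
  ∀ a b : ℝ, a ≤ b → ∃ C : ℝ, StrIneqM H K D d μ p a b C

/-- MAINS. SRDX: `l`, `Φ`, `B`, `Hc`, `E`, `x₀`; STAU: `θ`; SSAT: `s`, `ε` (`r = finrank A`), so `SD`. SCRD: `d = r + |PA|`. KFRM: `c` and a frame; FORM: `k`. On `K` the measure `haarMeasure ⊤` (compact: `K` is closed). SPXX: `KM`; SPDX: `S`; LOCS (with `S.Q = QZ`), STRS. -/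
def M_MAINS : Prop := S_KFRM → S_FORM → S_SRDX → S_STAU → S_SSAT → S_SCRD → S_SPXX → S_SPDX → S_LOCS → S_STRS → MainUpM

end

end SYM
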