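import Pool.Agent.SYM.StU

/-!
# VZER: integral points on quadrics in small boxes
-/

namespace SYM

open STZ LGR MeasureTheory Matrix Filter

open scoped ComplexConjugate Matrix Real Topology

noncomputable section

namespace VZER

variable {r : ℕ}

/-- the bilinear form -/
def BB (G : Matrix (Fin r) (Fin r) ℤ) (x y : Fin r → ℤ) : ℤ := x ⬝ᵥ (G *ᵥ y)

lemma BB_add_left (G : Matrix (Fin r) (Fin r) ℤ) (x x' y : Fin r → ℤ) :
    BB G (x + x') y = BB G x y + BB G x' y := by
  unfold BB; rw [add_dotProduct]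

lemma BB_add_right (G : Matrix (Fin r) (Fin r) ℤ) (x y y' : Fin r → ℤ) :
    BB G x (y + y') = BB G x y + BB G x y' := by
  unfold BB; rw [mulVec_add, dotProduct_add]

lemma BB_smul_left (G : Matrix (Fin r) (Fin r) ℤ) (c : ℤ) (x y : Fin r → ℤ) :
    BB G (c • x) y = c * BB G x y := by
  unfold BB; rw [smul_dotProduct, smul_eq_mul]

lemma BB_smul_right (G : Matrix (Fin r) (Fin r) ℤ) (c : ℤ) (x y : Fin r → ℤ) :
    BB G x (c • y) = c * BB G x y := by
  unfold BB; rw [mulVec_smul, dotProduct_smul, smul_eq_mul]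

lemma BB_comm {G : Matrix (Fin r) (Fin r) ℤ} (hG : Gᵀ = G) (x y : Fin r → ℤ) :
    BB G x y = BB G y x := by
  unfold BB
  rw [dotProduct_mulVec, ← mulVec_transpose, hG, dotProduct_comm]

/-- unit vectors -/
def unv (i : Fin r) : Fin r → ℤ := Pi.single i 1

lemma BB_ee (G : Matrix (Fin r) (Fin r) ℤ) (i : Fin r) (y : Fin r → ℤ) :
    BB G (unv i) y = (G *ᵥ y) i := by
  unfold BB unv
  rw [single_one_dotProduct]

lemma BB_ee_ee (G : Matrix (Fin r) (Fin r) ℤ) (i j : Fin r) : BB G (unv i) (unv j) = G i j := by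
  rw [BB_ee]
  unfold unv
  simp [mulVec]

lemma dot_ee (l : Fin r → ℤ) (i : Fin r) : l ⬝ᵥ unv i = l i := by
  unfold unv
  rw [dotProduct_single_one]

/-- the vector with two coordinates removed -/
def cut (p q : Fin r) (x : Fin r → ℤ) : Fin r → ℤ := fun i => if i = p ∨ i = q then 0 else x i

lemma eq_cut {p q : Fin r} (hpq : p ≠ q) (x : Fin r → ℤ) :
    x = x p • unv p + x q • unv q + cut p q x := by
  funext i
  simp only [Pi.add_apply, Pi.smul_apply, unv, cut, smul_eq_mul, Pi.single_apply]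
  by_cases h1 : i = p
  · subst h1
    simp [hpq]
  · by_cases h2 : i = q
    · subst h2
      simp [h1]
    · simp [h1, h2]

/-- the sum of the absolute values of the entries -/
def gam (G : Matrix (Fin r) (Fin r) ℤ) : ℝ := ∑ i, ∑ j, |(G i j : ℝ)|

lemma gam_nonneg (G : Matrix (Fin r) (Fin r) ℤ) : 0 ≤ gam G := by
  unfold gam; positivity

lemma abs_entry_le (G : Matrix (Fin r) (Fin r) ℤ) (i j : Fin r) : |(G i j : ℝ)| ≤ gam G := by
  unfold gam
  calc |(G i j : ℝ)| ≤ ∑ j, |(G i j : ℝ)| :=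
        Finset.single_le_sum (f := fun j => |(G i j : ℝ)|) (fun _ _ => abs_nonneg _)
          (Finset.mem_univ j)
    _ ≤ ∑ i, ∑ j, |(G i j : ℝ)| :=
        Finset.single_le_sum (f := fun i => ∑ j, |(G i j : ℝ)|)
          (fun _ _ => Finset.sum_nonneg (fun _ _ => abs_nonneg _)) (Finset.mem_univ i)

lemma abs_mulVec_le (G : Matrix (Fin r) (Fin r) ℤ) (w : Fin r → ℤ) {Y : ℝ} (hY : 0 ≤ Y)
    (hw : ∀ i, |(w i : ℝ)| ≤ Y) (i : Fin r) : |((G *ᵥ w) i : ℝ)| ≤ gam G * Y := by
  have e : ((G *ᵥ w) i : ℝ) = ∑ j, (G i j : ℝ) * (w j : ℝ) := by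
    simp only [mulVec, dotProduct]
    push_cast
    rfl
  rw [e]
  calc |∑ j, (G i j : ℝ) * (w j : ℝ)| ≤ ∑ j, |(G i j : ℝ) * (w j : ℝ)| :=
        Finset.abs_sum_le_sum_abs _ _
    _ ≤ ∑ j, |(G i j : ℝ)| * Y := by
        refine Finset.sum_le_sum (fun j _ => ?_)
        rw [abs_mul]
        exact mul_le_mul_of_nonneg_left (hw j) (abs_nonneg _)
    _ = (∑ j, |(G i j : ℝ)|) * Y := by rw [Finset.sum_mul]
    _ ≤ gam G * Y := by
        refine mul_le_mul_of_nonneg_right ?_ hY
        unfold gam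
        exact Finset.single_le_sum (f := fun i => ∑ j, |(G i j : ℝ)|)
          (fun _ _ => Finset.sum_nonneg (fun _ _ => abs_nonneg _)) (Finset.mem_univ i)

lemma card_target (p q : Fin r) (hpq : p ≠ q) (z : Fin r → ℤ) (R : ℕ) :
    (Fintype.piFinset (fun i => if i = p ∨ i = q then ({0} : Finset ℤ)
      else Finset.Ico (z i) (z i + R))).card = R ^ (r - 2) := by
  rw [Fintype.card_piFinset]
  have e : ∀ i, (if i = p ∨ i = q then ({0} : Finset ℤ) else Finset.Ico (z i) (z i + R)).card
      = if i = p ∨ i = q then 1 else R := by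
    intro i
    split_ifs with h
    · simp
    · simp
  simp only [e]
  rw [Finset.prod_ite]
  simp only [Finset.prod_const_one, Finset.prod_const, one_mul]
  congr 1
  have e2 : Finset.filter (fun i => ¬ (i = p ∨ i = q)) (Finset.univ : Finset (Fin r))
      = (Finset.univ.erase p).erase q := by
    ext i
    simp only [Finset.mem_filter, Finset.mem_univ, true_and, Finset.mem_erase, not_or, and_true]
    tauto
  rw [e2, Finset.card_erase_of_mem, Finset.card_erase_of_mem (Finset.mem_univ _)]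
  · simp only [Finset.card_univ, Fintype.card_fin]
    omega
  · simp [hpq.symm]

end VZER

open VZER

theorem t_VZER : M_VZER := by
  intro hdiv hrep r G hr hG ε hε
  obtain ⟨Cd, hCd0, hCd⟩ := hdiv (ε / 4) (by positivity)
  set p : Fin r := ⟨0, by omega⟩ with hp
  set q : Fin r := ⟨1, by omega⟩ with hq
  have hpq : p ≠ q := by
    intro h
    have := congrArg Fin.val h
    simp [hp, hq] at this
  obtain ⟨hGs, hGp⟩ := hG
  -- the numbers a, b, c, D
  set a : ℤ := G p p with ha
  set b : ℤ := G p q with hb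
  set c : ℤ := G q q with hc
  have hee : ∀ i : Fin r, unv i ≠ 0 := by
    intro i h
    have := congrFun h i
    simp [unv] at this
  have ha0 : 0 < a := by
    have := hGp (unv p) (hee p)
    have e := BB_ee_ee G p p
    unfold BB at e
    rw [e] at this
    exact this
  have hD0 : 0 < a * c - b ^ 2 := by
    have hy : b • unv p + (-a) • unv q ≠ 0 := by
      intro h
      have := congrFun h q
      simp [unv, hpq.symm] at this
      omega
    have h1 := hGp _ hy
    have e : BB G (b • unv p + (-a) • unv q) (b • unv p + (-a) • unv q) = a * (a * c - b ^ 2) := by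
      simp only [BB_add_left, BB_add_right, BB_smul_left, BB_smul_right, BB_ee_ee]
      have : G q p = b := by
        rw [hb]
        conv_lhs => rw [← hGs]
        rfl
      rw [this, ← ha, ← hb, ← hc]
      ring
    unfold BB at e
    rw [e] at h1
    exact (mul_pos_iff_of_pos_left ha0).mp h1
  set D : ℤ := 4 * (a * c - b ^ 2) with hD
  obtain ⟨E, hE⟩ : ∃ E : ℕ, (E : ℤ) = 4 * D := ⟨(4 * D).toNat, Int.toNat_of_nonneg (by omega)⟩
  have hE2 : 2 ≤ E := by omega
  set Γ := gam G with hΓ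
  have hΓ0 : 0 ≤ Γ := gam_nonneg G
  set C₁ : ℝ := (4 * (D : ℝ) + 8 * Γ * (4 * Γ + 1)) ^ 2 + (E : ℝ) * (12 * Γ + 1) ^ 2 with hC₁
  have hC₁0 : 0 ≤ C₁ := by rw [hC₁]; positivity
  set C : ℝ := 1 + 4 * √E * (Cd ^ 2 * C₁ ^ (ε / 2)) with hC
  have hC0 : 0 ≤ C := by rw [hC]; positivity
  refine ⟨C, hC0, ?_⟩
  intro R X l z τ hR1 hRX hz hl
  have hX1 : (1 : ℝ) ≤ X := le_trans (by exact_mod_cast hR1) hRX
  have hX0 : (0 : ℝ) ≤ X := by linarith
  have hXε : (1 : ℝ) ≤ X ^ ε := Real.one_le_rpow hX1 hε.le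
  set S := (bx z R).filter (fun x => x ⬝ᵥ (G *ᵥ x) + l ⬝ᵥ x = τ) with hS
  have hbx : ∀ x ∈ S, ∀ i, |(x i : ℝ)| ≤ 2 * X := by
    intro x hx i
    have h1 := (Finset.mem_filter.mp hx).1
    unfold bx at h1
    rw [Fintype.mem_piFinset] at h1
    have h2 := Finset.mem_Ico.mp (h1 i)
    have h3 := abs_le.mp (hz i)
    have h4 : (z i : ℝ) ≤ x i := by exact_mod_cast h2.1
    have h5 : (x i : ℝ) < z i + R := by exact_mod_cast h2.2
    rw [abs_le]
    constructor <;> linarith [h3.1, h3.2]
  -- fibres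
  have hfib : ∀ w ∈ S.image (cut p q), (S.filter (fun x => cut p q x = w)).card
      ≤ ⌊C * X ^ ε⌋₊ := by
    intro w hw
    refine Nat.le_floor ?_
    set F := S.filter (fun x => cut p q x = w) with hF
    set e : ℤ := 2 * (G *ᵥ w) p + l p with he
    set f : ℤ := 2 * (G *ᵥ w) q + l q with hf
    set g : ℤ := BB G w w + l ⬝ᵥ w - τ with hg
    set h : ℤ := 4 * a * f - 4 * b * e with hh
    set k : ℤ := 4 * D * (4 * a * g - e ^ 2) - h ^ 2 with hk
    let ψ : (Fin r → ℤ) → ℤ × ℤ := fun x => (2 * D * x q + h, 2 * a * x p + 2 * b * x q + e)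
    have hψinj : Set.InjOn ψ F := by
      intro x hx y hy hxy
      have hx' := (Finset.mem_filter.mp hx).2
      have hy' := (Finset.mem_filter.mp hy).2
      simp only [ψ, Prod.mk.injEq] at hxy
      have h1 : x q = y q := by
        have : 2 * D * x q = 2 * D * y q := by linarith [hxy.1]
        exact mul_left_cancel₀ (by omega) this
      have h2 : x p = y p := by
        have : 2 * a * x p = 2 * a * y p := by
          have := hxy.2
          rw [h1] at this
          linarith
        exact mul_left_cancel₀ (by omega) this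
      rw [eq_cut hpq x, eq_cut hpq y, hx', hy', h1, h2]
    have hψeq : ∀ x ∈ F, (ψ x).1 ^ 2 + E * (ψ x).2 ^ 2 = -k := by
      intro x hx
      have hx1 := (Finset.mem_filter.mp hx).1
      have hx' := (Finset.mem_filter.mp hx).2
      have hQ := (Finset.mem_filter.mp hx1).2
      have e1 : x ⬝ᵥ (G *ᵥ x) + l ⬝ᵥ x
          = a * x p ^ 2 + 2 * b * (x p * x q) + c * x q ^ 2 + e * x p + f * x q + (g + τ) := by
        have e2 : x ⬝ᵥ (G *ᵥ x) = BB G x x := rfl
        rw [e2]
        have hsym : G q p = b := by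
          rw [hb]
          conv_lhs => rw [← hGs]
          rfl
        have ew1 : BB G w (unv p) = (G *ᵥ w) p := by rw [BB_comm hGs, BB_ee]
        have ew2 : BB G w (unv q) = (G *ᵥ w) q := by rw [BB_comm hGs, BB_ee]
        have e3 : BB G x x = BB G (x p • unv p + x q • unv q + w) (x p • unv p + x q • unv q + w) := by
          rw [← hx', ← eq_cut hpq x]
        have e4 : l ⬝ᵥ x = x p * l p + x q * l q + l ⬝ᵥ w := by
          conv_lhs => rw [eq_cut hpq x, hx']
          rw [dotProduct_add, dotProduct_add, dotProduct_smul, dotProduct_smul, dot_ee, dot_ee]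
          simp
        rw [e3, e4]
        simp only [BB_add_left, BB_add_right, BB_smul_left, BB_smul_right, BB_ee_ee, ew1, ew2]
        rw [BB_ee, BB_ee, hsym, ← ha, ← hb, ← hc, hg, he, hf]
        ring
      have e5 : a * x p ^ 2 + 2 * b * (x p * x q) + c * x q ^ 2 + e * x p + f * x q + g = 0 := by
        linarith
      have e6 : (2 * D * x q + h) ^ 2 + (4 * D) * (2 * a * x p + 2 * b * x q + e) ^ 2 + k
          = 16 * a * D
            * (a * x p ^ 2 + 2 * b * (x p * x q) + c * x q ^ 2 + e * x p + f * x q + g) := by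
        rw [hk, hh, hD]
        ring
      rw [e5, mul_zero] at e6
      simp only [ψ]
      rw [hE]
      linarith
    have hcard : F.card = (F.image ψ).card := (Finset.card_image_of_injOn hψinj).symm
    obtain ⟨x₀, hx₀⟩ : F.Nonempty := by
      obtain ⟨x, hx, hxw⟩ := Finset.mem_image.mp hw
      exact ⟨x, Finset.mem_filter.mpr ⟨hx, hxw⟩⟩
    have hk0 : 0 ≤ -k := by
      rw [← hψeq x₀ hx₀]
      positivity
    rcases hk0.eq_or_lt with hk1 | hk1
    · -- one solution
      have h1 : F.image ψ ⊆ {((0 : ℤ), (0 : ℤ))} := by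
        intro y hy
        obtain ⟨x, hx, rfl⟩ := Finset.mem_image.mp hy
        have h2 := hψeq x hx
        rw [← hk1] at h2
        have hEp : (0 : ℤ) < E := by omega
        have h3 : (ψ x).1 ^ 2 = 0 := by
          have h4 := sq_nonneg (ψ x).1
          have h5 := mul_nonneg hEp.le (sq_nonneg (ψ x).2)
          linarith
        have h4 : (E : ℤ) * (ψ x).2 ^ 2 = 0 := by
          rw [h3] at h2
          linarith
        have h5 : (ψ x).2 ^ 2 = 0 := by
          rcases mul_eq_zero.mp h4 with h6 | h6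
          · omega
          · exact h6
        rw [Finset.mem_singleton]
        exact Prod.ext (pow_eq_zero_iff (two_ne_zero) |>.mp h3)
          (pow_eq_zero_iff (two_ne_zero) |>.mp h5)
      have h2 : F.card ≤ 1 := by
        rw [hcard]
        exact (Finset.card_le_card h1).trans (by simp)
      have h3 : (F.card : ℝ) ≤ 1 := by exact_mod_cast h2
      have h4 : 1 ≤ C := by
        rw [hC]
        have : 0 ≤ 4 * √(E : ℝ) * (Cd ^ 2 * C₁ ^ (ε / 2)) := by positivity
        linarith
      calc (F.card : ℝ) ≤ 1 * 1 := by linarith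
        _ ≤ C * X ^ ε := mul_le_mul h4 hXε zero_le_one hC0
    · obtain ⟨m, hm⟩ : ∃ m : ℕ, (m : ℤ) = -k := ⟨(-k).toNat, Int.toNat_of_nonneg hk0⟩
      have hm1 : 1 ≤ m := by omega
      have h1 := hrep E m hE2 hm1 (F.image ψ) (fun y hy => by
        obtain ⟨x, hx, rfl⟩ := Finset.mem_image.mp hy
        rw [hψeq x hx, hm])
      rw [← hcard] at h1
      have h2 := hCd m hm1
      -- size of m
      have hw2 : ∀ i, |(w i : ℝ)| ≤ 2 * X := by
        intro i
        have hx1 := (Finset.mem_filter.mp hx₀).1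
        have hx' := (Finset.mem_filter.mp hx₀).2
        rw [← hx']
        unfold cut
        split_ifs
        · simp; linarith
        · exact hbx x₀ hx1 i
      have hx1 := hbx x₀ (Finset.mem_filter.mp hx₀).1
      have haΓ : |(a : ℝ)| ≤ Γ := abs_entry_le G p p
      have hbΓ : |(b : ℝ)| ≤ Γ := abs_entry_le G p q
      have heX : |(e : ℝ)| ≤ (4 * Γ + 1) * X := by
        have h3 := abs_mulVec_le G w (by linarith : (0 : ℝ) ≤ 2 * X) hw2 p
        have h4 := hl p
        rw [he]
        push_cast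
        rw [abs_le] at h3 h4 ⊢
        constructor <;> nlinarith [h3.1, h3.2, h4.1, h4.2]
      have hfX : |(f : ℝ)| ≤ (4 * Γ + 1) * X := by
        have h3 := abs_mulVec_le G w (by linarith : (0 : ℝ) ≤ 2 * X) hw2 q
        have h4 := hl q
        rw [hf]
        push_cast
        rw [abs_le] at h3 h4 ⊢
        constructor <;> nlinarith [h3.1, h3.2, h4.1, h4.2]
      have hhX : |(h : ℝ)| ≤ 8 * Γ * (4 * Γ + 1) * X := by
        rw [hh]
        push_cast
        refine (abs_sub _ _).trans ?_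
        have h5 : |4 * (a : ℝ) * f| ≤ 4 * (Γ * ((4 * Γ + 1) * X)) := by
          rw [abs_mul, abs_mul, abs_of_pos (by norm_num : (0 : ℝ) < 4), mul_assoc]
          exact mul_le_mul_of_nonneg_left (mul_le_mul haΓ hfX (abs_nonneg _) hΓ0) (by norm_num)
        have h6 : |4 * (b : ℝ) * e| ≤ 4 * (Γ * ((4 * Γ + 1) * X)) := by
          rw [abs_mul, abs_mul, abs_of_pos (by norm_num : (0 : ℝ) < 4), mul_assoc]
          exact mul_le_mul_of_nonneg_left (mul_le_mul hbΓ heX (abs_nonneg _) hΓ0) (by norm_num)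
        linarith
      have hDr : (0 : ℝ) ≤ D := by
        have : 0 ≤ D := by omega
        exact_mod_cast this
      have hv : |(((ψ x₀).1 : ℤ) : ℝ)| ≤ (4 * (D : ℝ) + 8 * Γ * (4 * Γ + 1)) * X := by
        simp only [ψ]
        push_cast
        refine (abs_add_le _ _).trans ?_
        have h5 : |2 * (D : ℝ) * (x₀ q : ℝ)| ≤ 2 * D * (2 * X) := by
          rw [abs_mul, abs_of_nonneg (by positivity : (0 : ℝ) ≤ 2 * D)]
          exact mul_le_mul_of_nonneg_left (hx1 q) (by positivity)
        linarith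
      have hu : |(((ψ x₀).2 : ℤ) : ℝ)| ≤ (12 * Γ + 1) * X := by
        simp only [ψ]
        push_cast
        refine (abs_add_le _ _).trans ?_
        have h5 : |2 * (a : ℝ) * (x₀ p : ℝ) + 2 * (b : ℝ) * (x₀ q : ℝ)|
            ≤ 2 * (Γ * (2 * X)) + 2 * (Γ * (2 * X)) := by
          refine (abs_add_le _ _).trans (add_le_add ?_ ?_)
          · rw [mul_assoc, abs_mul, abs_of_pos (by norm_num : (0 : ℝ) < 2), abs_mul]
            exact mul_le_mul_of_nonneg_left (mul_le_mul haΓ (hx1 p) (abs_nonneg _) hΓ0)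
              (by norm_num)
          · rw [mul_assoc, abs_mul, abs_of_pos (by norm_num : (0 : ℝ) < 2), abs_mul]
            exact mul_le_mul_of_nonneg_left (mul_le_mul hbΓ (hx1 q) (abs_nonneg _) hΓ0)
              (by norm_num)
        linarith
      have hmX : (m : ℝ) ≤ C₁ * X ^ 2 := by
        have e1 : (m : ℝ) = (((ψ x₀).1 : ℤ) : ℝ) ^ 2 + E * (((ψ x₀).2 : ℤ) : ℝ) ^ 2 := by
          have := hψeq x₀ hx₀
          rw [← hm] at this
          exact_mod_cast this.symm
        have e2 : (((ψ x₀).1 : ℤ) : ℝ) ^ 2 ≤ ((4 * (D : ℝ) + 8 * Γ * (4 * Γ + 1)) * X) ^ 2 :=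
          sq_le_sq' (abs_le.mp hv).1 (abs_le.mp hv).2
        have e3 : (((ψ x₀).2 : ℤ) : ℝ) ^ 2 ≤ ((12 * Γ + 1) * X) ^ 2 :=
          sq_le_sq' (abs_le.mp hu).1 (abs_le.mp hu).2
        rw [e1, hC₁]
        have hE0 : (0 : ℝ) ≤ E := Nat.cast_nonneg E
        have := mul_le_mul_of_nonneg_left e3 hE0
        nlinarith
      have hm0 : (0 : ℝ) ≤ m := Nat.cast_nonneg m
      have h3 : ((Nat.divisors m).card : ℝ) ≤ Cd * (C₁ ^ (ε / 4) * X ^ (ε / 2)) := by
        refine h2.trans (mul_le_mul_of_nonneg_left ?_ hCd0)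
        have h4 : (m : ℝ) ^ (ε / 4) ≤ (C₁ * X ^ 2) ^ (ε / 4) :=
          Real.rpow_le_rpow hm0 hmX (by positivity)
        refine h4.trans (le_of_eq ?_)
        rw [Real.mul_rpow hC₁0 (by positivity), ← Real.rpow_natCast, ← Real.rpow_mul hX0]
        congr 2
        push_cast
        ring
      have h4 : ((Nat.divisors m).card : ℝ) ^ 2 ≤ Cd ^ 2 * C₁ ^ (ε / 2) * X ^ ε := by
        have h5 : ((Nat.divisors m).card : ℝ) ^ 2 ≤ (Cd * (C₁ ^ (ε / 4) * X ^ (ε / 2))) ^ 2 :=
          pow_le_pow_left₀ (Nat.cast_nonneg _) h3 2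
        refine h5.trans (le_of_eq ?_)
        have e7 : (C₁ ^ (ε / 4)) ^ 2 = C₁ ^ (ε / 2) := by
          rw [← Real.rpow_natCast, ← Real.rpow_mul hC₁0]
          congr 1
          push_cast
          ring
        have e8 : (X ^ (ε / 2)) ^ 2 = X ^ ε := by
          rw [← Real.rpow_natCast, ← Real.rpow_mul hX0]
          congr 1
          push_cast
          ring
        rw [mul_pow, mul_pow, e7, e8]
        ring
      have h5 : (F.card : ℝ) ≤ 4 * √E * (Cd ^ 2 * C₁ ^ (ε / 2) * X ^ ε) := by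
        refine h1.trans ?_
        exact mul_le_mul_of_nonneg_left h4 (by positivity)
      calc (F.card : ℝ) ≤ 4 * √E * (Cd ^ 2 * C₁ ^ (ε / 2) * X ^ ε) := h5
        _ ≤ C * X ^ ε := by
            rw [hC]
            have : 0 ≤ X ^ ε := by linarith
            nlinarith
  have h1 := Finset.card_le_mul_card_image (f := cut p q) S ⌊C * X ^ ε⌋₊ hfib
  have himg : (S.image (cut p q)).card ≤ R ^ (r - 2) := by
    rw [← card_target p q hpq z R]
    refine Finset.card_le_card (fun w hw => ?_)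
    obtain ⟨x, hx, rfl⟩ := Finset.mem_image.mp hw
    rw [Fintype.mem_piFinset]
    intro i
    unfold cut
    split_ifs with hi
    · simp
    · have h2 := (Finset.mem_filter.mp hx).1
      unfold bx at h2
      rw [Fintype.mem_piFinset] at h2
      exact h2 i
  have h2 : (S.card : ℝ) ≤ (⌊C * X ^ ε⌋₊ : ℝ) * (R : ℝ) ^ (r - 2) := by
    have h3 : S.card ≤ ⌊C * X ^ ε⌋₊ * R ^ (r - 2) :=
      h1.trans (Nat.mul_le_mul_left _ himg)
    exact_mod_cast h3
  have h3 : (⌊C * X ^ ε⌋₊ : ℝ) ≤ C * X ^ ε := Nat.floor_le (by positivity)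
  have e1 : (R : ℝ) ^ ((r : ℝ) - 2) = (R : ℝ) ^ (r - 2) := by
    rw [← Real.rpow_natCast]
    congr 1
    rw [Nat.cast_sub hr]
    norm_num
  rw [e1]
  exact h2.trans (mul_le_mul_of_nonneg_right h3 (by positivity))

end

end SYM
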